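import Pool.Agent.Lib.MP_0dc93f_an.X.Hc

/-! Examples of multipliers of class `HC`: clipped ramps, trapezoids, hats, inverse. -/

namespace Pool.Agent.Lib.MMTX

open Finset Complex ComplexConjugate MMTW

noncomputable section

/-- variation of a monotone bounded sequence -/
lemma tv_mono {g : ℤ → ℝ} {a b : ℝ} (hm : ∀ k, g k ≤ g (k + 1)) (ha : ∀ k, a ≤ g k)
    (hb : ∀ k, g k ≤ b) (J : Finset ℤ) : ∑ k ∈ J, |g (k + 1) - g k| ≤ b - a := by
  have tel : ∀ (m : ℤ) (n : ℕ), ∑ k ∈ Ico m (m + n), |g (k + 1) - g k| = g (m + n) - g m := by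
    intro m n
    induction n with
    | zero => simp
    | succ n ih =>
      have e : Ico m (m + ((n + 1 : ℕ) : ℤ)) = insert (m + n) (Ico m (m + n)) := by
        ext k
        simp only [Finset.mem_Ico, Finset.mem_insert]
        push_cast
        omega
      rw [e, Finset.sum_insert (by simp), ih, abs_of_nonneg (sub_nonneg.2 (hm _))]
      push_cast
      rw [add_assoc]
      ring
  obtain ⟨m, hm'⟩ := J.bddBelow
  obtain ⟨M, hM⟩ := J.bddAbove
  have hs : J ⊆ Ico m (m + ((M + 1 - m).toNat : ℤ)) := by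
    intro k hk
    have h1 := hm' hk
    have h2 := hM hk
    simp only [Finset.mem_Ico]
    omega
  refine (Finset.sum_le_sum_of_subset_of_nonneg hs fun _ _ _ => abs_nonneg _).trans ?_
  rw [tel]
  linarith [ha m, hb (m + ((M + 1 - m).toNat : ℤ))]

/-- second variation of a convex sequence with bounded slopes -/
lemma v2_convex {g : ℤ → ℝ} {a b : ℝ} (hm : ∀ k, 2 * g (k + 1) ≤ g (k + 2) + g k)
    (ha : ∀ k, a ≤ g (k + 1) - g k) (hb : ∀ k, g (k + 1) - g k ≤ b) (J : Finset ℤ) :
    ∑ k ∈ J, |g (k + 2) - 2 * g (k + 1) + g k| ≤ b - a := by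
  refine le_trans (le_of_eq ?_) (tv_mono (g := fun k => g (k + 1) - g k) (fun k => ?_) ha hb J)
  · refine Finset.sum_congr rfl fun k _ => ?_
    rw [show k + 1 + 1 = k + 2 by ring]
    congr 1; ring
  · rw [show k + 1 + 1 = k + 2 by ring]
    linarith [hm k]

/-- second variation of a ramp with slope `s` -/
lemma v2_ramp (s c : ℝ) (J : Finset ℤ) :
    ∑ k ∈ J, |max 0 (s * ((k + 2 : ℤ) : ℝ) + c) - 2 * max 0 (s * ((k + 1 : ℤ) : ℝ) + c) +
      max 0 (s * (k : ℝ) + c)| ≤ |s| := by
  have h := v2_convex (g := fun k : ℤ => max 0 (s * (k : ℝ) + c)) (a := min 0 s) (b := max 0 s)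
    (fun k => ?_) (fun k => ?_) (fun k => ?_) J
  · refine h.trans (le_of_eq ?_)
    rcases le_total 0 s with h0 | h0
    · rw [max_eq_right h0, min_eq_left h0, abs_of_nonneg h0, sub_zero]
    · rw [max_eq_left h0, min_eq_right h0, abs_of_nonpos h0, zero_sub]
  · push_cast
    have h1 := le_max_left 0 (s * ((k : ℝ) + 2) + c)
    have h2 := le_max_right 0 (s * ((k : ℝ) + 2) + c)
    have h3 := le_max_left 0 (s * (k : ℝ) + c)
    have h4 := le_max_right 0 (s * (k : ℝ) + c)
    rcases le_total 0 (s * ((k : ℝ) + 1) + c) with h | h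
    · rw [max_eq_right h]; linarith
    · rw [max_eq_left h]; linarith
  · push_cast
    rw [mul_add, mul_one]
    simp only [max_def, min_def]
    split_ifs <;> linarith
  · push_cast
    rw [mul_add, mul_one]
    simp only [max_def]
    split_ifs <;> linarith

/-- clipped ramp: zero left of `c`, slope one, height `h` -/
def clp (c h : ℝ) (k : ℤ) : ℝ := max 0 (min h ((k : ℝ) - c))

lemma clp_eq {c h : ℝ} (h0 : 0 ≤ h) (k : ℤ) :
    clp c h k = max 0 (1 * (k : ℝ) + -c) - max 0 (1 * (k : ℝ) + -(c + h)) := by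
  unfold clp
  simp only [max_def, min_def]
  split_ifs <;> linarith

lemma clp_nonneg (c h : ℝ) (k : ℤ) : 0 ≤ clp c h k := le_max_left _ _

lemma clp_le {c h : ℝ} (h0 : 0 ≤ h) (k : ℤ) : clp c h k ≤ h := max_le h0 (min_le_left _ _)

lemma hc_clp (c : ℝ) {h u S : ℝ} (h0 : 0 ≤ h) (hu : 0 < u) (h1 : h ≤ S) (h2 : 2 * u ≤ S) :
    HC u S (clp c h) := by
  have q : 2 ≤ S / u := (le_div_iff₀ hu).2 h2
  have st : ∀ k, 0 ≤ clp c h (k + 1) - clp c h k ∧ clp c h (k + 1) - clp c h k ≤ 1 := by
    intro k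
    unfold clp
    push_cast
    simp only [max_def, min_def]
    split_ifs <;> constructor <;> linarith
  refine ⟨fun k => ?_, fun k => ?_, fun J => ?_, fun J => ?_⟩
  · rw [abs_of_nonneg (clp_nonneg _ _ _)]; exact (clp_le h0 k).trans h1
  · rw [abs_of_nonneg (st k).1]; linarith [(st k).2]
  · have := tv_mono (g := clp c h) (fun k => by linarith [(st k).1]) (clp_nonneg c h)
      (clp_le h0) J
    linarith
  · have a1 := v2_ramp 1 (-c) J
    have a2 := v2_ramp 1 (-(c + h)) J
    rw [abs_one] at a1 a2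
    refine le_trans ?_ ((add_le_add a1 a2).trans (by linarith))
    rw [← Finset.sum_add_distrib]
    refine Finset.sum_le_sum fun k _ => le_trans (le_of_eq ?_) (abs_sub _ _)
    simp only [clp_eq h0]
    congr 1; ring

lemma trap_eq (z : ℤ) {D : ℝ} (hD : 0 < D) (k : ℤ) :
    trap z D k = D⁻¹ * (clp (z - 2 * D) D k - clp (z + D) D k) := by
  have e : trap z D k = D⁻¹ * max 0 (min D (2 * D - |(k : ℝ) - z|)) := by
    unfold trap
    rw [mul_max_of_nonneg _ _ (inv_pos.2 hD).le, mul_min_of_nonneg _ _ (inv_pos.2 hD).le]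
    congr 1
    · simp
    · congr 1 <;> field_simp
  rw [e]
  congr 1
  unfold clp
  rcases abs_cases ((k : ℝ) - z) with h | h <;> rw [h.1] <;> simp only [max_def, min_def] <;>
    split_ifs <;> linarith [h.2]

lemma trap_nonneg (z : ℤ) (D : ℝ) (k : ℤ) : 0 ≤ trap z D k := le_max_left _ _

lemma trap_le (z : ℤ) (D : ℝ) (k : ℤ) : trap z D k ≤ 1 := max_le zero_le_one (min_le_left _ _)

lemma trap_one (z : ℤ) {D : ℝ} (hD : 0 < D) : One (trap z D) z D := by
  intro k hk
  have : |(k : ℝ) - z| / D ≤ 1 := (div_le_one hD).2 hk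
  unfold trap
  rw [min_eq_left (by linarith), max_eq_right zero_le_one]

lemma trap_zero (z : ℤ) {D : ℝ} (hD : 0 < D) {k : ℤ} (hk : 2 * D ≤ |(k : ℝ) - z|) :
    trap z D k = 0 := by
  have : 2 ≤ |(k : ℝ) - z| / D := (le_div_iff₀ hD).2 hk
  exact max_eq_left ((min_le_right _ _).trans (by linarith))

lemma trap_supp (z : ℤ) {D : ℝ} (hD : 0 < D) : Supp (trap z D) z (2 * D) := fun _ hk =>
  le_of_not_gt fun h => hk (trap_zero z hD h.le)

theorem hc_trap (z : ℤ) {D : ℝ} (hD : 0 < D) : HC D 4 (trap z D) := by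
  have h := ((hc_clp (z - 2 * D) (h := D) (u := D) (S := 2 * D) hD.le hD (by linarith) le_rfl).sub
    (hc_clp (z + D) (h := D) (u := D) (S := 2 * D) hD.le hD (by linarith) le_rfl)).smul D⁻¹
  have e : |D⁻¹| * (2 * D + 2 * D) = 4 := by
    rw [abs_of_pos (inv_pos.2 hD)]; field_simp; ring
  rw [e] at h
  exact h.congr (trap_eq z hD)

lemma hat_eq {m : ℝ} (hm : 0 < m) (k : ℤ) :
    hat m k = m⁻¹ * (clp (-m) m k - clp 0 m k) := by
  have e : hat m k = m⁻¹ * max 0 (m - |(k : ℝ)|) := by
    unfold hat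
    rw [mul_max_of_nonneg _ _ (inv_pos.2 hm).le]
    congr 1
    · simp
    · field_simp
  rw [e]
  congr 1
  unfold clp
  rcases abs_cases (k : ℝ) with h | h <;> rw [h.1] <;> simp only [max_def, min_def] <;>
    split_ifs <;> linarith [h.2]

theorem hc_hat {m : ℝ} (hm : 0 < m) (c : ℤ) : HC m 4 fun k => hat m (k - c) := by
  have h := ((hc_clp (-m) (h := m) (u := m) (S := 2 * m) hm.le hm (by linarith) le_rfl).sub
    (hc_clp 0 (h := m) (u := m) (S := 2 * m) hm.le hm (by linarith) le_rfl)).smul m⁻¹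
  have e : |m⁻¹| * (2 * m + 2 * m) = 4 := by
    rw [abs_of_pos (inv_pos.2 hm)]; field_simp; ring
  rw [e] at h
  exact (h.congr (hat_eq hm)).shift' c

lemma hat_nonneg' (m : ℝ) (k : ℤ) : 0 ≤ hat m k := le_max_left _ _

lemma hat_zero' {m : ℝ} (hm : 0 < m) {k : ℤ} (hk : m ≤ |(k : ℝ)|) : hat m k = 0 := by
  have : 1 ≤ |(k : ℝ)| / m := (one_le_div hm).2 hk
  exact max_eq_left (by linarith)

lemma hat_supp' {m : ℝ} (hm : 0 < m) (c : ℤ) : Supp (fun k => hat m (k - c)) c m := by
  intro k hk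
  refine le_of_not_gt fun h => hk (hat_zero' hm ?_)
  push_cast
  exact h.le

/-- the inverse cut off at `d` -/
theorem hc_inv {d : ℝ} (hd : 0 < d) : HC d (2 / d) fun k => 1 / max (k : ℝ) d := by
  have p : ∀ x : ℝ, 0 < max x d := fun x => hd.trans_le (le_max_right _ _)
  have b1 : ∀ x : ℝ, 1 / max x d ≤ 1 / d := fun x =>
    one_div_le_one_div_of_le hd (le_max_right _ _)
  have b0 : ∀ x : ℝ, 0 ≤ 1 / max x d := fun x => (one_div_pos.2 (p x)).le
  have d1 : 0 < 1 / d := by positivity
  have e1 : 2 / d = 2 * (1 / d) := by ring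
  have e2 : 2 / d / d = 2 * (1 / d ^ 2) := by field_simp
  have d2 : 0 < 1 / d ^ 2 := by positivity
  have an : ∀ x : ℝ, 1 / max (x + 1) d ≤ 1 / max x d := fun x =>
    one_div_le_one_div_of_le (p x) (max_le_max (by linarith) le_rfl)
  have lp : ∀ x : ℝ, 1 / max x d - 1 / max (x + 1) d ≤ 1 / d ^ 2 := by
    intro x
    have h1 : max (x + 1) d - max x d ≤ 1 := by
      simp only [max_def]; split_ifs <;> linarith
    have h2 : d ^ 2 ≤ max x d * max (x + 1) d := by
      rw [sq]; exact mul_le_mul (le_max_right _ _) (le_max_right _ _) hd.le (p x).le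
    rw [div_sub_div _ _ (p x).ne' (p (x + 1)).ne']
    exact div_le_div₀ zero_le_one (by linarith) (by positivity) h2
  refine ⟨fun k => ?_, fun k => ?_, fun J => ?_, fun J => ?_⟩
  · rw [abs_of_nonneg (b0 _)]; linarith [b1 (k : ℝ)]
  · push_cast
    rw [abs_sub_comm, abs_of_nonneg (sub_nonneg.2 (an _))]
    linarith [lp (k : ℝ)]
  · have := tv_mono (g := fun k : ℤ => -(1 / max (k : ℝ) d)) (a := -(1 / d)) (b := 0)
      (fun k => by push_cast; linarith [an (k : ℝ)]) (fun k => by linarith [b1 (k : ℝ)])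
      (fun k => by linarith [b0 (k : ℝ)]) J
    refine le_trans (le_of_eq ?_) (this.trans (by linarith))
    refine Finset.sum_congr rfl fun k _ => ?_
    rw [← abs_neg]; congr 1; ring
  · set H : ℝ → ℝ := fun x => 1 / max x d + max 0 (-(1 / d ^ 2) * x + 1 / d) with hH
    have t0 : ∀ x : ℝ, -(1 / d ^ 2) * x + 1 / d = (d - x) / d ^ 2 := fun x => by
      field_simp; ring
    have tan : ∀ s x : ℝ, d ≤ s → 2 / s - x / s ^ 2 ≤ H x := by
      intro s x hs
      have s0 : 0 < s := hd.trans_le hs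
      simp only [hH]
      rcases le_total d x with h | h
      · have x0 : 0 < x := hd.trans_le h
        have : 1 / x - (2 / s - x / s ^ 2) = (s - x) ^ 2 / (x * s ^ 2) := by field_simp; ring
        have h3 : 0 ≤ (s - x) ^ 2 / (x * s ^ 2) := by positivity
        rw [max_eq_left h]
        linarith [le_max_left 0 (-(1 / d ^ 2) * x + 1 / d)]
      · rw [max_eq_right h]
        have : 1 / d + (-(1 / d ^ 2) * x + 1 / d) - (2 / s - x / s ^ 2) =
            (s - d) * (2 * d * s - x * (s + d)) / (d ^ 2 * s ^ 2) := by field_simp; ring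
        have h2 : 0 ≤ 2 * d * s - x * (s + d) := by nlinarith
        have h3 : 0 ≤ (s - d) * (2 * d * s - x * (s + d)) / (d ^ 2 * s ^ 2) :=
          div_nonneg (mul_nonneg (by linarith) h2) (by positivity)
        linarith [le_max_right 0 (-(1 / d ^ 2) * x + 1 / d)]
    have val : ∀ x : ℝ, H x = 2 / max x d - x / max x d ^ 2 := by
      intro x
      simp only [hH]
      rcases le_total d x with h | h
      · have x0 : 0 < x := hd.trans_le h
        rw [max_eq_left h, t0, max_eq_left (div_nonpos_of_nonpos_of_nonneg (by linarith)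
          (by positivity))]
        field_simp; ring
      · rw [max_eq_right h, t0, max_eq_right (div_nonneg (by linarith) (by positivity))]
        field_simp; ring
    have sl : ∀ x : ℝ, 0 < 1 / max x d ^ 2 ∧ 1 / max x d ^ 2 ≤ 1 / d ^ 2 := fun x =>
      ⟨by have := p x; positivity, one_div_le_one_div_of_le (by positivity)
        (pow_le_pow_left₀ hd.le (le_max_right _ _) 2)⟩
    have a1 := v2_convex (g := fun k : ℤ => H k) (a := -(1 / d ^ 2)) (b := 0) (fun k => ?_)
      (fun k => ?_) (fun k => ?_) J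
    · have a2 := v2_ramp (-(1 / d ^ 2)) (1 / d) J
      rw [abs_neg, abs_of_pos d2] at a2
      refine le_trans ?_ ((add_le_add a1 a2).trans (by linarith))
      rw [← Finset.sum_add_distrib]
      refine Finset.sum_le_sum fun k _ => le_trans (le_of_eq ?_) (abs_sub _ _)
      simp only [hH]
      congr 1; ring
    · push_cast
      have h1 := tan (max ((k : ℝ) + 1) d) (k + 2) (le_max_right _ _)
      have h2 := tan (max ((k : ℝ) + 1) d) k (le_max_right _ _)
      have h3 : ((k : ℝ) + 2) / max ((k : ℝ) + 1) d ^ 2 + k / max ((k : ℝ) + 1) d ^ 2 =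
        2 * ((k + 1) / max ((k : ℝ) + 1) d ^ 2) := by ring
      rw [val (k + 1)]
      linarith
    · push_cast
      have h1 := tan (max (k : ℝ) d) (k + 1) (le_max_right _ _)
      rw [add_div] at h1
      rw [val k]
      linarith [(sl k).2]
    · push_cast
      have h1 := tan (max ((k : ℝ) + 1) d) k (le_max_right _ _)
      rw [val (k + 1), add_div]
      linarith [(sl (k + 1)).1]

end

end Pool.Agent.Lib.MMTX
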