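import Pool.Agent.Lib.MP_0dc93f_an.X.Defs

/-! Adaptive cuts for the Galerkin MMT system: parameters and the flat system of cuts. -/

namespace Pool.Agent.Lib.MMTX

open Finset Complex ComplexConjugate MMTW

noncomputable section

/-- the parameters of the construction -/
structure Par where
  α : ℝ
  β : ℝ
  E : ℝ
  B : ℝ
  η : ℝ
  εH : ℝ
  Kc : ℕ
  l : ℕ
  m0 : ℕ
  m1 : ℕ
  mN : ℕ
  mH : ℕ
  G : ℕ
  c0 : ℕ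
  x0 : ℤ

namespace Par

variable (p : Par)

/-- number of units in a scale -/
def L : ℕ := 2 ^ p.l

/-- largest unit at the scale `2 ^ m` -/
def j0 (m : ℕ) : ℕ := m - 2 * p.l

/-- smallest unit at the scale `2 ^ m` -/
def j1 (m : ℕ) : ℕ := 3 * m / 4 - p.l

/-- mass envelope at the scale `2 ^ m` -/
def mb (m : ℕ) : ℝ := p.E * ((2 : ℝ) ^ m / 16) ^ (-p.β)

/-- the size of the main term -/
def S0 : ℝ := 2 ^ p.mN * p.mb p.mN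

/-- weight of the scale `2 ^ m` -/
def gg (m : ℕ) : ℝ := p.S0 / p.mb (min m p.mN)

/-- the ratio of the two tiers -/
def ρ : ℝ := (2 ^ p.m0) ^ 2

/-- weight of the top cuts -/
def θ : ℝ := p.η ^ 2 / p.ρ

/-- the density bound at the scale `2 ^ m` -/
def kp (m : ℕ) : ℝ := p.B * p.mb m / 2 ^ m

/-- nominal position of the root cut in the two trees -/
def y0 (b : Bool) : ℤ := if b then p.x0 - 2 ^ (p.mN - 6) else p.x0 + 2 ^ (p.mN - 6)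

/-- the inequalities between the parameters -/
structure OK : Prop where
  a1 : 1 / 2 < p.α
  a2 : p.α < 1
  b1 : p.α ≤ p.β
  b2 : p.β ≤ 2
  e1 : 1 ≤ p.E
  e2 : p.E ≤ p.L
  l1 : 2 ^ 100 * 256 ^ p.G ≤ (p.L : ℝ) * (p.α * (1 - p.α))
  l2 : 1 ≤ (p.L : ℝ) * (2 * p.α - 1)
  l3 : p.mH + 1 ≤ p.L
  l4 : 2 ^ p.c0 ≤ p.L
  g1 : 1 ≤ p.G
  g2 : 5 * p.G ≤ 2 ^ p.c0
  bB : (p.L : ℝ) ^ (20 * (p.G + 2)) ≤ p.B
  h0 : 0 < p.η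
  h1 : p.η * p.B ^ 100 ≤ 1
  h2 : ((2 : ℝ) ^ p.m0) ^ (-(2 * p.α - 1)) ≤ p.η ^ 4
  h3 : 1 ≤ p.η ^ 2 * 2 ^ p.m0
  r1 : ((2 : ℝ) ^ p.m0) ^ 8 ≤ ((2 : ℝ) ^ p.m1) ^ (2 * p.α - 1)
  r2 : ((2 : ℝ) ^ p.m1) ^ 16 ≤ ((2 : ℝ) ^ p.mN) ^ (2 * p.α - 1)
  r3 : p.η ^ p.G * (2 ^ p.mN) ^ 4 ≤ 1
  r4 : Real.exp (-(p.L : ℝ) / 2) * (2 ^ p.mN) ^ 4 ≤ 1
  m01 : 8 * p.l + 16 ≤ p.m0
  m02 : p.m0 + 5 ≤ p.m1
  m03 : p.m1 + 8 ≤ p.mN
  m04 : p.mN ≤ p.mH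
  m05 : 4 * 2 ^ p.mH ≤ p.Kc
  x1 : 2 ^ p.mN ≤ 2 * p.x0
  x2 : p.x0 ≤ 2 * 2 ^ p.mN
  ε0 : 0 ≤ p.εH
  ε1 : 2 ^ p.mN * p.εH * p.B ^ 5 ≤ p.S0

/-- what is known about the state at every time -/
structure Amb (a : ℤ → ℂ) : Prop where
  tl : ∀ R : ℝ, 0 < R → tail p.Kc a R ≤ p.E * R ^ (-p.β)
  nl : ∀ k, ‖NL p.Kc a k‖ ≤ p.L * br k ^ (-p.β / 2)
  c0 : ∀ ζ, QA p.Kc a ζ (fun _ => True) ≤ p.L
  hi : HiB p.Kc a p.mH p.εH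

/-- an active cut at `z` with the weight `wt` at the scale `2 ^ m` -/
structure Act (a : ℤ → ℂ) (Y wt : ℝ) (m : ℕ) (z : ℤ) : Prop where
  gd : Gd p.Kc a z (p.kp m) 1 (2 ^ m / 8)
  cov : Cov p.Kc a p.L z (p.j1 m) (p.j0 m) (Y / (p.B ^ 10 * wt))

/-- the source of the window `P` against the window `Q` is under control -/
def SrcOK (a : ℤ → ℂ) (Y t W : ℝ) (P Q : Win) : Prop :=
  W * mW p.Kc a Q * p.B ^ 5 ≤ p.S0 ∨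
    ∃ (m : ℕ) (wt : ℝ) (R : Win), p.m0 ≤ m ∧ m ≤ p.mH ∧ 2 ^ m ≤ 3 * |P.z| ∧ |P.z| ≤ 3 * 2 ^ m ∧
      32 * p.L * P.w ≤ 2 ^ m ∧ 0 < wt ∧ wt * 2 ^ m ≤ p.θ * p.gg m ∧
      W * mW p.Kc a Q * p.B ^ 5 ≤ wt * P.w ∧ (∀ i, p.Act a Y wt m (P.kz i)) ∧
      |R.z - P.z| ≤ P.w ∧ 256 * P.w ≤ R.w ∧
      W * p.kp m * P.w * XX p.Kc a t R Q * p.B ^ 5 ≤ Y

/-- a window inside the frequency range, far from zero -/
structure WinOK (t : ℝ) (P : Win) : Prop where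
  w1 : 1 ≤ P.w
  w2 : P.w ≤ 2 ^ p.mH
  ins : |P.z| + P.w ≤ p.Kc
  far : 2 ^ 10 * (P.w : ℤ) ≤ |P.z|
  tw : 4 * (p.L : ℝ) ≤ t * P.w

/-- an absorbing pair of windows -/
structure PairOK (a : ℤ → ℂ) (Y t W Z : ℝ) (P Q : Win) : Prop where
  vel : Z ≤ W * (vel p.α P.z - vel p.α Q.z)
  err : 2 ^ 32 * W * (P.w * |(P.z : ℝ)| ^ (p.α - 2) + Q.w * |(Q.z : ℝ)| ^ (p.α - 2)) ≤ Z
  val : W * (mW p.Kc a P * mW p.Kc a Q) * p.B ^ 4 ≤ p.S0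
  s1 : p.SrcOK a Y t W P Q
  s2 : p.SrcOK a Y t W Q P

end Par

/-- two trees of cuts with the same shape: configurations, cuts other than the root, pairs -/
structure Sys where
  C : Type
  K : Type
  P : Type
  fC : Fintype C
  nC : Nonempty C
  fK : Fintype K
  fP : Fintype P
  y : Bool → C → ℤ
  pos : Bool → C → K → ℤ
  P1 : Bool → C → P → Win
  P2 : Bool → C → P → Win
  pen : C → ℝ
  sg : K → ℤ
  wt : K → ℝ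
  x : K → ℤ
  m : K → ℕ
  act : K → Prop
  t : P → ℝ
  W : P → ℝ
  Z : P → ℝ

attribute [instance] Sys.fC Sys.nC Sys.fK Sys.fP

namespace Sys

variable (S : Sys) (p : Par)

/-- sign of the absorbers -/
def sn (b : Bool) : ℝ := if b then 1 else -1

/-- the functional of one tree -/
def Psi (b : Bool) (c : S.C) (a : ℤ → ℂ) : ℝ :=
  Rq p.Kc a (rE (S.y b c)) + ∑ z, S.wt z * Rq p.Kc a (rmp (S.sg z) (S.pos b c z)) - S.pen c +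
    sn b * ∑ q, S.W q * Mo p.Kc a (S.t q) (S.P1 b c q) (S.P2 b c q) +
    NFv p.α p.Kc a p.m1 p.mH (p.y0 true) (S.y b c)

/-- the time derivative of the functional along the Galerkin flow -/
def dPsi (b : Bool) (c : S.C) (a : ℤ → ℂ) : ℝ :=
  (Qf p.Kc a 0 (al1 (rE (S.y b c)))).im / 2 +
    ∑ z, S.wt z * ((Qf p.Kc a 0 (al1 (rmp (S.sg z) (S.pos b c z)))).im / 2) +
    sn b * ∑ q, S.W q * (LinT p.α p.Kc a (S.t q) (S.P1 b c q) (S.P2 b c q) +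
      Src p.Kc a (S.t q) (S.P1 b c q) (S.P2 b c q) - Src p.Kc a (S.t q) (S.P2 b c q) (S.P1 b c q)) +
    NFd p.α p.Kc a p.m1 p.mH (p.y0 true) (S.y b c)

/-- the gain of the absorbers -/
def Y (b : Bool) (c : S.C) (a : ℤ → ℂ) : ℝ :=
  ∑ q, S.Z q * XX p.Kc a (S.t q) (S.P1 b c q) (S.P2 b c q)

/-- maximal configurations -/
def IsMax (b : Bool) (c : S.C) (a : ℤ → ℂ) : Prop := ∀ d, S.Psi p b d a ≤ S.Psi p b c a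

/-- properties which do not depend on the state -/
structure Stat : Prop where
  cK : (Fintype.card S.K : ℝ) ≤ p.B
  cP : (Fintype.card S.P : ℝ) ≤ p.B
  m0 : ∀ z, p.m0 ≤ S.m z
  mH : ∀ z, S.m z ≤ p.mH
  x1 : ∀ z, 2 ^ S.m z ≤ 2 * |S.x z|
  x2 : ∀ z, |S.x z| ≤ 2 * 2 ^ S.m z
  sg : ∀ z, S.sg z = 1 ∨ S.sg z = -1
  w0 : ∀ z, 0 < S.wt z
  w1 : ∀ z, S.wt z * 2 ^ S.m z ≤ p.θ * p.gg (S.m z)
  w2 : ∀ z, ¬S.act z → S.wt z * 2 ^ S.m z ≤ p.η ^ p.G * 2 ^ p.mN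
  ps : ∀ b c z, 32 * |S.pos b c z - S.x z| ≤ 2 ^ S.m z
  rt : ∀ b c, 32 * |S.y b c - p.x0| ≤ 2 ^ p.mN
  t0 : ∀ q, 0 < S.t q
  t1 : ∀ q, S.t q ≤ 1
  W0 : ∀ q, 0 ≤ S.W q
  Z0 : ∀ q, 0 ≤ S.Z q
  p1 : ∀ b c q, p.WinOK (S.t q) (S.P1 b c q)
  p2 : ∀ b c q, p.WinOK (S.t q) (S.P2 b c q)

/-- what the estimate of the derivative uses at a maximal configuration -/
structure Nice (b : Bool) (c : S.C) (a : ℤ → ℂ) (Y : ℝ) : Prop where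
  r1 : p.Act a Y 1 p.mN (S.y b c)
  r2 : p.Act a Y 1 p.mN (-S.y b c)
  tr : TopCov p.Kc a p.l p.m0 p.m1 p.mH p.mN (Y * p.B * p.ρ / 2 ^ p.mN)
    (Y * p.B / (2 ^ p.mN * p.ρ ^ 2))
  tp : ∀ m, p.m0 ≤ m → m ≤ p.mH → TopCov p.Kc a p.l p.m0 (p.m0 + 5) p.mH m
    (Y * p.B * p.ρ / p.gg m) (Y * p.B * p.ρ / p.gg m)
  kk : ∀ z, S.act z → p.Act a Y (S.wt z) (S.m z) (S.pos b c z)
  pp : ∀ q, p.PairOK a Y (S.t q) (S.W q) (S.Z q) (S.P1 b c q) (S.P2 b c q)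

/-- the difference of the maxima is the mass between the two root cuts -/
def Env (a : ℤ → ℂ) : Prop :=
  ∀ cA cB, S.IsMax p true cA a → S.IsMax p false cB a →
    |S.Psi p true cA a - S.Psi p false cB a -
      (Rq p.Kc a (rE (p.y0 true)) - Rq p.Kc a (rE (p.y0 false)))| ≤ 8 * p.S0 / p.L

/-- the output of the tree block -/
def Good : Prop :=
  S.Stat p ∧ ∀ a, p.Amb a →
    (∀ b c, S.IsMax p b c a → ∀ Y, S.Y p b c a ≤ Y → S.Nice p b c a Y) ∧ S.Env p a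

end Sys

end

end Pool.Agent.Lib.MMTX
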