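import Pool.Agent.Lib.MP_0dc93f_an.X.Win
import Pool.Agent.Lib.MP_0dc93f_an.X.Sys
import Pool.Agent.Lib.MP_0dc93f_an.WFlux

/-! Algebra of quartic forms and the time derivatives of the functionals. -/

namespace Pool.Agent.Lib.MMTX

open Finset Complex ComplexConjugate MMTW

noncomputable section

section algebra

variable (Kc : ℕ) (a : ℤ → ℂ) (ζ : ℤ)

lemma Qf_congr {s s' : (Fin 4 → ℤ) → ℝ} (h : ∀ k ∈ F4 Kc, De k = ζ → s k = s' k) :
    Qf Kc a ζ s = Qf Kc a ζ s' :=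
  Finset.sum_congr rfl fun k hk => by
    rw [h k (Finset.mem_filter.1 hk).1 (Finset.mem_filter.1 hk).2]

lemma Qf_add (s s' : (Fin 4 → ℤ) → ℝ) :
    Qf Kc a ζ (fun k => s k + s' k) = Qf Kc a ζ s + Qf Kc a ζ s' := by
  unfold Qf
  rw [← Finset.sum_add_distrib]
  exact Finset.sum_congr rfl fun k _ => by push_cast; ring

lemma Qf_sub (s s' : (Fin 4 → ℤ) → ℝ) :
    Qf Kc a ζ (fun k => s k - s' k) = Qf Kc a ζ s - Qf Kc a ζ s' := by
  unfold Qf
  rw [← Finset.sum_sub_distrib]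
  exact Finset.sum_congr rfl fun k _ => by push_cast; ring

lemma Qf_smul (c : ℝ) (s : (Fin 4 → ℤ) → ℝ) :
    Qf Kc a ζ (fun k => c * s k) = c * Qf Kc a ζ s := by
  unfold Qf
  rw [Finset.mul_sum]
  exact Finset.sum_congr rfl fun k _ => by push_cast; ring

lemma Qf_zero : Qf Kc a ζ (fun _ => 0) = 0 := by simp [Qf]

lemma Qf_sum {ι : Type} (T : Finset ι) (s : ι → (Fin 4 → ℤ) → ℝ) :
    Qf Kc a ζ (fun k => ∑ i ∈ T, s i k) = ∑ i ∈ T, Qf Kc a ζ (s i) := by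
  unfold Qf
  rw [Finset.sum_comm]
  exact Finset.sum_congr rfl fun k _ => by rw [ofReal_sum, Finset.sum_mul]

lemma QA_nonneg (p : (Fin 4 → ℤ) → Prop) : 0 ≤ QA Kc a ζ p :=
  Finset.sum_nonneg fun _ _ => norm_nonneg _

lemma QA_mono {p p' : (Fin 4 → ℤ) → Prop} (h : ∀ k ∈ F4 Kc, De k = ζ → p k → p' k) :
    QA Kc a ζ p ≤ QA Kc a ζ p' := by
  classical
  unfold QA
  refine Finset.sum_le_sum_of_subset_of_nonneg (fun k hk => ?_) fun _ _ _ => norm_nonneg _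
  simp only [Finset.mem_filter] at hk ⊢
  exact ⟨hk.1, hk.2.1, h k hk.1 hk.2.1 hk.2.2⟩

/-- the crude bound: a bounded symbol which vanishes off `p` -/
lemma Qf_le_QA {s : (Fin 4 → ℤ) → ℝ} {p : (Fin 4 → ℤ) → Prop} {S : ℝ}
    (h1 : ∀ k ∈ F4 Kc, De k = ζ → p k → |s k| ≤ S)
    (h2 : ∀ k ∈ F4 Kc, De k = ζ → s k ≠ 0 → p k) : ‖Qf Kc a ζ s‖ ≤ S * QA Kc a ζ p := by
  classical
  unfold Qf QA
  rw [Finset.mul_sum, Finset.sum_filter, Finset.sum_filter]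
  refine (norm_sum_le _ _).trans (Finset.sum_le_sum fun k hk => ?_)
  by_cases hD : De k = ζ
  · by_cases hp : p k
    · rw [if_pos hD, if_pos ⟨hD, hp⟩, norm_mul, Complex.norm_real, Real.norm_eq_abs]
      exact mul_le_mul_of_nonneg_right (h1 k hk hD hp) (norm_nonneg _)
    · have : s k = 0 := by_contra fun h => hp (h2 k hk hD h)
      simp [hp, this]
  · simp [hD]

lemma Qf_swap13 (s : (Fin 4 → ℤ) → ℝ) :
    Qf Kc a ζ (fun k => s (k ∘ Equiv.swap 1 3)) = Qf Kc a ζ s := by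
  unfold Qf
  rw [Finset.sum_filter, Finset.sum_filter,
    ← fx_sum_perm Kc (Equiv.swap 1 3) fun k => if De k = ζ then (s k : ℂ) * Bq a k else 0]
  refine Finset.sum_congr rfl fun k _ => ?_
  have h0 : (k ∘ Equiv.swap (1 : Fin 4) 3) 0 = k 0 := rfl
  have h1 : (k ∘ Equiv.swap (1 : Fin 4) 3) 1 = k 3 := rfl
  have h2 : (k ∘ Equiv.swap (1 : Fin 4) 3) 2 = k 2 := rfl
  have h3 : (k ∘ Equiv.swap (1 : Fin 4) 3) 3 = k 1 := rfl
  have hD : De (k ∘ Equiv.swap (1 : Fin 4) 3) = De k := by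
    simp only [De, h0, h1, h2, h3]; ring
  have hB : Bq a (k ∘ Equiv.swap (1 : Fin 4) 3) = Bq a k := by
    simp only [Bq, h0, h1, h2, h3]; ring
  rw [hD, hB]

lemma Qf_swap02 (s : (Fin 4 → ℤ) → ℝ) :
    Qf Kc a ζ (fun k => s (k ∘ Equiv.swap 0 2)) = Qf Kc a ζ s := by
  unfold Qf
  rw [Finset.sum_filter, Finset.sum_filter,
    ← fx_sum_perm Kc (Equiv.swap 0 2) fun k => if De k = ζ then (s k : ℂ) * Bq a k else 0]
  refine Finset.sum_congr rfl fun k _ => ?_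
  have h0 : (k ∘ Equiv.swap (0 : Fin 4) 2) 0 = k 2 := rfl
  have h1 : (k ∘ Equiv.swap (0 : Fin 4) 2) 1 = k 1 := rfl
  have h2 : (k ∘ Equiv.swap (0 : Fin 4) 2) 2 = k 0 := rfl
  have h3 : (k ∘ Equiv.swap (0 : Fin 4) 2) 3 = k 3 := rfl
  have hD : De (k ∘ Equiv.swap (0 : Fin 4) 2) = De k := by
    simp only [De, h0, h1, h2, h3]; ring
  have hB : Bq a (k ∘ Equiv.swap (0 : Fin 4) 2) = Bq a k := by
    simp only [Bq, h0, h1, h2, h3]; ring
  rw [hD, hB]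

/-- conjugation exchanges the even and the odd slots -/
lemma Qf_conj (s : (Fin 4 → ℤ) → ℝ) :
    conj (Qf Kc a ζ s) = Qf Kc a (-ζ) fun k => s ![k 1, k 0, k 3, k 2] := by
  unfold Qf
  set e := (Equiv.swap (0 : Fin 4) 1).trans (Equiv.swap 2 3) with he
  rw [Finset.sum_filter, Finset.sum_filter,
    ← fx_sum_perm Kc e fun k => if De k = ζ then (s k : ℂ) * Bq a k else 0, map_sum]
  refine Finset.sum_congr rfl fun k _ => ?_
  have h0 : (k ∘ e) 0 = k 1 := rfl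
  have h1 : (k ∘ e) 1 = k 0 := rfl
  have h2 : (k ∘ e) 2 = k 3 := rfl
  have h3 : (k ∘ e) 3 = k 2 := rfl
  have hk : k ∘ e = ![k 1, k 0, k 3, k 2] := by
    funext i; fin_cases i <;> rfl
  have hD : De (k ∘ e) = ζ ↔ De k = -ζ := by
    simp only [De, h0, h1, h2, h3]; omega
  have hB : conj (Bq a (k ∘ e)) = Bq a k := by
    simp only [Bq, h0, h1, h2, h3, map_mul, conj_conj]; ring
  by_cases h : De k = -ζ
  · rw [if_pos h, if_pos (hD.2 h), map_mul, conj_ofReal, hB, hk]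
  · rw [if_neg h, if_neg (mt hD.1 h), map_zero]

lemma Qf_slot3 (ψ : ℤ → ℝ) : Qf Kc a ζ (fun k => ψ (k 3)) =
    ∑ l ∈ FF Kc, (ψ l : ℂ) * (NL Kc a (l + ζ) * conj (a l)) := by
  unfold Qf
  rw [← Finset.sum_fiberwise_of_maps_to (s := (F4 Kc).filter fun k => De k = ζ) (t := FF Kc)
    (g := fun k => k 3) (fun k hk => fx_mem_F4.1 (Finset.mem_filter.1 hk).1 3)]
  refine Finset.sum_congr rfl fun l hl => ?_
  rw [NL, Finset.sum_mul, Finset.mul_sum]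
  refine Finset.sum_bij' (fun k _ => (k 0, k 1, k 2)) (fun p _ => ![p.1, p.2.1, p.2.2, l])
    ?_ ?_ ?_ ?_ ?_
  · intro k hk
    obtain ⟨h1, h2⟩ := Finset.mem_filter.1 hk
    obtain ⟨h3, h4⟩ := Finset.mem_filter.1 h1
    have h5 := fx_mem_F4.1 h3
    unfold De at h4
    simp only [mem_filter, mem_product]
    exact ⟨⟨h5 0, h5 1, h5 2⟩, by omega⟩
  · intro p hp
    simp only [mem_filter, mem_product] at hp
    refine Finset.mem_filter.2 ⟨Finset.mem_filter.2 ⟨fx_mem_F4.2 fun i => ?_, ?_⟩, rfl⟩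
    · fin_cases i
      exacts [hp.1.1, hp.1.2.1, hp.1.2.2, hl]
    · show p.1 - p.2.1 + p.2.2 - l = ζ
      omega
  · intro k hk
    simp only [mem_filter] at hk
    funext i
    fin_cases i
    exacts [rfl, rfl, rfl, hk.2.symm]
  · intro p _; rfl
  · intro k hk
    simp only [mem_filter] at hk
    simp only [Bq, hk.2]

lemma Qf_slot1 (ψ : ℤ → ℝ) : Qf Kc a ζ (fun k => ψ (k 1)) =
    ∑ l ∈ FF Kc, (ψ l : ℂ) * (NL Kc a (l + ζ) * conj (a l)) := by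
  rw [← Qf_slot3, ← Qf_swap13]; rfl

lemma Qf_slot2 (ψ : ℤ → ℝ) : Qf Kc a ζ (fun k => ψ (k 2)) =
    ∑ l ∈ FF Kc, (ψ l : ℂ) * (a l * conj (NL Kc a (l - ζ))) := by
  have h := Qf_conj Kc a (-ζ) fun k => ψ (k 3)
  rw [neg_neg, Qf_slot3, map_sum] at h
  refine Eq.trans h.symm (Finset.sum_congr rfl fun l _ => ?_)
  rw [map_mul, map_mul, conj_ofReal, conj_conj, sub_eq_add_neg, mul_comm (a l)]

lemma Qf_slot0 (ψ : ℤ → ℝ) : Qf Kc a ζ (fun k => ψ (k 0)) =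
    ∑ l ∈ FF Kc, (ψ l : ℂ) * (a l * conj (NL Kc a (l - ζ))) := by
  rw [← Qf_slot2, ← Qf_swap02]; rfl

lemma Qf_al1_im (ρ : ℤ → ℝ) : (Qf Kc a 0 (al1 ρ)).im =
    4 * (∑ l ∈ FF Kc, (ρ l : ℂ) * (NL Kc a l * conj (a l))).im := by
  have e : Qf Kc a 0 (al1 ρ) = Qf Kc a 0 (fun k => ρ (k 1)) + Qf Kc a 0 (fun k => ρ (k 3)) -
      Qf Kc a 0 (fun k => ρ (k 0)) - Qf Kc a 0 fun k => ρ (k 2) := by
    rw [← Qf_add, ← Qf_sub, ← Qf_sub]; rfl
  have e2 : ∑ l ∈ FF Kc, (ρ l : ℂ) * (a l * conj (NL Kc a l)) =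
      conj (∑ l ∈ FF Kc, (ρ l : ℂ) * (NL Kc a l * conj (a l))) := by
    rw [map_sum]
    refine Finset.sum_congr rfl fun l _ => ?_
    rw [map_mul, map_mul, conj_ofReal, conj_conj, mul_comm (a l)]
  rw [e, Qf_slot0, Qf_slot1, Qf_slot2, Qf_slot3]
  simp only [add_zero, sub_zero, e2, sub_im, add_im, conj_im]
  ring

/-- the source part of the derivative of a windowed density -/
lemma Qf_sz {P : Win} (hP : |P.z| + P.w ≤ Kc) : Qf Kc a ζ (sz P ζ) =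
    ∑ k ∈ FF Kc with k + ζ ∈ FF Kc, (Gw P k ζ : ℂ) *
      (NL Kc a (k + ζ) * conj (a k) - a (k + ζ) * conj (NL Kc a k)) := by
  have e : Qf Kc a ζ (sz P ζ) = (1 / 2 : ℝ) * (Qf Kc a ζ (fun k => Gw P (k 1) ζ) +
      Qf Kc a ζ (fun k => Gw P (k 3) ζ) - Qf Kc a ζ (fun k => Gw P (k 0 - ζ) ζ) -
      Qf Kc a ζ fun k => Gw P (k 2 - ζ) ζ) := by
    rw [← Qf_add, ← Qf_sub, ← Qf_sub, ← Qf_smul]
    exact Qf_congr _ _ _ fun k _ _ => by unfold sz; ring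
  have ins : ∀ k : ℤ, |(k : ℝ) - P.z| < P.w → k ∈ FF Kc := by
    intro k hk
    have h1 : ((|k - P.z| : ℤ) : ℝ) < ((P.w : ℤ) : ℝ) := by push_cast; exact hk
    have h2 := abs_lt.1 (Int.cast_lt.1 h1)
    have h3 := le_abs_self P.z
    have h4 := neg_abs_le P.z
    simp only [FF, Finset.mem_Icc]
    omega
  have e1 : ∑ l ∈ FF Kc, (Gw P l ζ : ℂ) * (NL Kc a (l + ζ) * conj (a l)) =
      ∑ k ∈ FF Kc with k + ζ ∈ FF Kc, (Gw P k ζ : ℂ) * (NL Kc a (k + ζ) * conj (a k)) := by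
    symm
    refine Finset.sum_filter_of_ne fun k _ h => ins _ ?_
    have : Gw P k ζ ≠ 0 := fun h0 => h (by simp [h0])
    simpa using (gw_supp this).2
  have e2 : ∑ l ∈ FF Kc, (Gw P (l - ζ) ζ : ℂ) * (a l * conj (NL Kc a (l - ζ))) =
      ∑ k ∈ FF Kc with k + ζ ∈ FF Kc, (Gw P k ζ : ℂ) * (a (k + ζ) * conj (NL Kc a k)) := by
    refine Finset.sum_bij_ne_zero (fun l _ _ => l - ζ) ?_ ?_ ?_ ?_
    · intro l hl h
      have : Gw P (l - ζ) ζ ≠ 0 := fun h0 => h (by simp [h0])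
      exact Finset.mem_filter.2 ⟨ins _ (gw_supp this).1, by simpa using hl⟩
    · intro k _ _ l _ _ h
      exact sub_left_inj.1 h
    · intro k hk h
      exact ⟨k + ζ, (Finset.mem_filter.1 hk).2, by simpa using h, by ring⟩
    · intro l _ _
      rw [sub_add_cancel]
  rw [e, Qf_slot0 Kc a ζ fun l => Gw P (l - ζ) ζ, Qf_slot1 Kc a ζ fun l => Gw P l ζ,
    Qf_slot2 Kc a ζ fun l => Gw P (l - ζ) ζ, Qf_slot3 Kc a ζ fun l => Gw P l ζ, e1, e2]
  simp only [mul_sub, Finset.sum_sub_distrib]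
  push_cast
  ring

end algebra

variable {α : ℝ} {Kc : ℕ} {b : ℝ → ℤ → ℂ}

lemma Gal.vf (hb : Gal α Kc b) (s : ℝ) {k : ℤ} (hk : k ∈ FF Kc) :
    HasDerivAt (fun s => b s k) (Vf α Kc (b s) k) s := hb s k hk

lemma Gal.vf' (hb : Gal α Kc b) (s : ℝ) {k : ℤ} (hk : k ∈ FF Kc) :
    HasDerivAt (fun s => conj (b s k)) (conj (Vf α Kc (b s) k)) s := (hb s k hk).star

lemma deriv_re {f : ℝ → ℂ} {f' : ℂ} {s : ℝ} (h : HasDerivAt f f' s) :
    HasDerivAt (fun s => (f s).re) f'.re s := reCLM.hasFDerivAt.comp_hasDerivAt s h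

/-- the flux identity -/
theorem Rq_deriv (hb : Gal α Kc b) (ρ : ℤ → ℝ) (s : ℝ) :
    HasDerivAt (fun s => Rq Kc (b s) ρ) ((Qf Kc (b s) 0 (al1 ρ)).im / 2) s := by
  have h := HasDerivAt.fun_sum (u := FF Kc) fun k hk =>
    ((Gal.vf hb s hk).norm_sq).const_mul (ρ k)
  refine h.congr_deriv ?_
  rw [Qf_al1_im, im_sum, Finset.mul_sum, Finset.sum_div]
  refine Finset.sum_congr rfl fun k _ => ?_
  simp [Vf, Complex.inner]
  ring

theorem mh_deriv (hb : Gal α Kc b) {P : Win} (hP : |P.z| + P.w ≤ Kc) (ζ : ℤ) (s : ℝ) :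
    HasDerivAt (fun s => mh Kc (b s) P ζ)
      (lh α Kc (b s) P ζ + -I / P.w * Qf Kc (b s) ζ (sz P ζ)) s := by
  have h := (HasDerivAt.fun_sum (u := (FF Kc).filter fun k => k + ζ ∈ FF Kc) fun k hk =>
    ((Gal.vf hb s (Finset.mem_filter.1 hk).2).fun_mul
      (Gal.vf' hb s (Finset.mem_filter.1 hk).1)).const_mul (Gw P k ζ : ℂ)).const_mul (P.w : ℂ)⁻¹
  refine h.congr_deriv ?_
  rw [Qf_sz Kc (b s) ζ hP, lh, div_eq_inv_mul, mul_assoc, ← mul_add, Finset.mul_sum _ _ (-I),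
    ← Finset.sum_add_distrib]
  congr 1
  refine Finset.sum_congr rfl fun k _ => ?_
  simp only [Vf, map_mul, map_neg, map_add, conj_I, conj_ofReal]
  push_cast
  ring

/-- (M) the derivative of the Morawetz functional -/
theorem Mo_deriv (hb : Gal α Kc b) (t : ℝ) {P Q : Win} (hP : |P.z| + P.w ≤ Kc)
    (hQ : |Q.z| + Q.w ≤ Kc) (s : ℝ) :
    HasDerivAt (fun s => Mo Kc (b s) t P Q)
      (LinT α Kc (b s) t P Q + Src Kc (b s) t P Q - Src Kc (b s) t Q P) s := by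
  have h := deriv_re (HasDerivAt.fun_sum (u := (FF (2 * Kc)).erase 0) fun ζ _ =>
    ((mh_deriv hb hP ζ s).fun_mul (mh_deriv hb hQ ζ s).star).const_mul (cf t ζ))
  refine h.congr_deriv ?_
  unfold LinT Src SQ
  rw [← conj_re (-I / Q.w * _), ← add_re, ← sub_re, Finset.mul_sum, Finset.mul_sum, map_sum,
    ← Finset.sum_add_distrib, ← Finset.sum_sub_distrib]
  congr 1
  refine Finset.sum_congr rfl fun ζ _ => ?_
  simp only [star_def, map_mul, map_add, conj_cf, conj_conj]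
  ring

/-- the derivative of the normal form term -/
theorem NFv_deriv (hb : Gal α Kc b) (ms mH : ℕ) (y0 y : ℤ) (s : ℝ) :
    HasDerivAt (fun s => NFv α Kc (b s) ms mH y0 y) (NFd α Kc (b s) ms mH y0 y) s := by
  have h := deriv_re (HasDerivAt.fun_sum (u := (F4 Kc).filter fun k => De k = 0) fun k hk =>
    have m := fx_mem_F4.1 (Finset.mem_filter.1 hk).1
    ((((Gal.vf hb s (m 0)).fun_mul (Gal.vf' hb s (m 1))).fun_mul (Gal.vf hb s (m 2))).fun_mul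
      (Gal.vf' hb s (m 3))).const_mul ((nfs ms mH y0 y k / Ph α k : ℝ) : ℂ))
  refine h.congr_deriv ?_
  unfold NFd
  congr 1
  refine Finset.sum_congr rfl fun k _ => ?_
  ring

/-- the derivative of the functional of a tree -/
theorem Psi_deriv (S : Sys) (p : Par) (hS : S.Stat p) {b : ℝ → ℤ → ℂ} (hb : Gal p.α p.Kc b)
    (β : Bool) (c : S.C) (s : ℝ) :
    HasDerivAt (fun s => S.Psi p β c (b s)) (S.dPsi p β c (b s)) s := by
  have h1 := Rq_deriv hb (rE (S.y β c)) s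
  have h2 := HasDerivAt.fun_sum (u := Finset.univ) fun z _ =>
    (Rq_deriv hb (rmp (S.sg z) (S.pos β c z)) s).const_mul (S.wt z)
  have h3 := (HasDerivAt.fun_sum (u := Finset.univ) fun q _ =>
    (Mo_deriv hb (S.t q) (hS.p1 β c q).ins (hS.p2 β c q).ins s).const_mul (S.W q)).const_mul
      (Sys.sn β)
  have h4 := NFv_deriv hb p.m1 p.mH (p.y0 true) (S.y β c) s
  exact ((((h1.fun_add h2).sub_const (S.pen c)).fun_add h3).fun_add h4)

end

end Pool.Agent.Lib.MMTX
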