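import Pool.Agent.Lib.MP_0dc93f_an.X.Ft
import Pool.Agent.Lib.MP_0dc93f_an.X.Hex
import Pool.Agent.Lib.MP_0dc93f_an.X.Mor

/-! Alternating symbols on cells, and the expansion of a product symbol into tuples. -/

namespace Pool.Agent.Lib.MMTX

open Finset Complex ComplexConjugate MMTW

variable (Kc : ℕ) (a : ℤ → ℂ)

/-- an alternating symbol times a product symbol -/
lemma alt_pr (ζ : ℤ) (ρ g : Fin 4 → ℤ → ℝ) {X : ℝ}
    (h : ∀ j, ‖Qf Kc a ζ (pr fun i k => (if i = j then ρ i k else 1) * g i k)‖ ≤ X) :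
    ‖Qf Kc a ζ fun k => alt ρ k * pr g k‖ ≤ 4 * X := by
  set F : Fin 4 → (Fin 4 → ℤ) → ℝ :=
    fun j => pr fun i k => (if i = j then ρ i k else 1) * g i k with hF
  have e : Qf Kc a ζ (fun k => alt ρ k * pr g k) =
      Qf Kc a ζ (F 1) + Qf Kc a ζ (F 3) - Qf Kc a ζ (F 0) - Qf Kc a ζ (F 2) := by
    rw [← Qf_add, ← Qf_sub, ← Qf_sub]
    refine Qf_congr _ _ _ fun k _ _ => ?_
    simp [hF, alt, pr, Fin.prod_univ_four]
    ring
  rw [e]
  have a1 := norm_sub_le (Qf Kc a ζ (F 1) + Qf Kc a ζ (F 3) - Qf Kc a ζ (F 0)) (Qf Kc a ζ (F 2))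
  have a2 := norm_sub_le (Qf Kc a ζ (F 1) + Qf Kc a ζ (F 3)) (Qf Kc a ζ (F 0))
  have a3 := norm_add_le (Qf Kc a ζ (F 1)) (Qf Kc a ζ (F 3))
  linarith [h 0, h 1, h 2, h 3]

lemma Cel.mul {f ρ : ℤ → ℝ} {S S' u : ℝ} {P : Win} (h : Cel f S u P) (hρ : HC u S' ρ) :
    Cel (fun k => ρ k * f k) (4 * S' * S) u P := by
  obtain ⟨c, hc⟩ := h.cen
  exact ⟨hρ.mul h.hc (by linarith [h.u1]), ⟨c, fun k hk => hc k (right_ne_zero_of_mul hk)⟩,
    fun k hk => h.sub k (right_ne_zero_of_mul hk), h.u1, h.w1⟩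

/-- (T) with an alternating symbol -/
theorem alt_cel (ζ : ℤ) {g ρ : Fin 4 → ℤ → ℝ} {S u : Fin 4 → ℝ} {P : Fin 4 → Win} {R : ℝ}
    (hg : ∀ i, Cel (g i) (S i) (u i) (P i)) (hρ : ∀ i, HC (u i) R (ρ i))
    (σ : Equiv.Perm (Fin 4)) {L t t' : ℝ} (hL : 2 ≤ L)
    (ht : t = L / min (u (σ 0)) (u (σ 1))) (ht' : t' = L / min (u (σ 2)) (u (σ 3)))
    (h2 : t ≤ 2) (h2' : t' ≤ 2) :
    ‖Qf Kc a ζ fun k => alt ρ k * pr g k‖ ≤ 2 ^ 16 * L * R * (∏ i, S i) *
      √(XX Kc a t (P (σ 0)) (P (σ 1)) * XX Kc a t' (P (σ 2)) (P (σ 3))) := by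
  refine (alt_pr Kc a ζ ρ g (X := 4096 * L * (4 * R * ∏ i, S i) *
    √(XX Kc a t (P (σ 0)) (P (σ 1)) * XX Kc a t' (P (σ 2)) (P (σ 3)))) fun j => ?_).trans
    (le_of_eq (by ring))
  have h := tup_cel Kc a ζ (f := fun i k => (if i = j then ρ i k else 1) * g i k)
    (S := fun i => (if i = j then 4 * R else 1) * S i) (u := u) (P := P) (fun i => by
      by_cases hi : i = j
      · simpa [hi] using (hg j).mul (hρ j)
      · simpa [hi] using hg i) σ hL ht ht' h2 h2'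
  rwa [Finset.prod_mul_distrib, Finset.prod_ite_eq', if_pos (Finset.mem_univ _)] at h

/-- the hats form a partition of unity -/
lemma hat_sum {u : ℕ} (hu : 1 ≤ u) (T : Finset ℤ) (x : ℤ) (h1 : x / u ∈ T) (h2 : x / u + 1 ∈ T) :
    ∑ n ∈ T, hat u (x - n * u) = 1 := by
  have u0 : (0 : ℝ) < u := Nat.cast_pos.2 hu
  have u1 : (0 : ℤ) < u := Nat.cast_pos.2 hu
  have r0 := Int.emod_nonneg x u1.ne'
  have r1 := Int.emod_lt_of_pos x u1
  have e := Int.emod_add_mul_ediv x u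
  set q := x / u
  set r := x % u
  rw [Finset.sum_eq_add_of_mem q (q + 1) h1 h2 (by omega)]
  · have e1 : x - q * u = r := by linarith
    have e2 : x - (q + 1) * u = r - u := by linarith
    have p0 : (0 : ℝ) ≤ r := by exact_mod_cast r0
    have p1 : (r : ℝ) < u := by exact_mod_cast r1
    rw [e1, e2, hat_eqB u0 (by rw [abs_of_nonneg p0]; exact p1.le),
      hat_eqB u0 (by push_cast; rw [abs_of_nonpos (by linarith)]; linarith)]
    push_cast
    rw [abs_of_nonneg p0, abs_of_nonpos (by linarith)]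
    field_simp
    ring
  · intro n _ hn
    refine hat_zeroB u0 ?_
    have : (u : ℤ) ≤ |x - n * u| := by
      rw [le_abs]
      rcases lt_or_gt_of_ne hn.1 with h | h
      · left; nlinarith
      · right
        have : q + 2 ≤ n := by have := hn.2; omega
        nlinarith
    exact_mod_cast this

lemma hat_lt {m : ℝ} (hm : 0 < m) {x : ℤ} (h : hat m x ≠ 0) : |(x : ℝ)| < m :=
  lt_of_not_ge fun h1 => h (hat_zeroB hm h1)

/-- expansion of a product symbol into tuples -/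
lemma p4_sum (χ : ℤ → ℝ) (T : Finset ℤ) (ψ : ℤ → ℤ → ℝ) (k : Fin 4 → ℤ) :
    p4 (fun l => χ l * ∑ n ∈ T, ψ n l) k =
      ∑ ν ∈ Fintype.piFinset fun _ : Fin 4 => T, pr (fun i l => χ l * ψ (ν i) l) k := by
  unfold p4 pr
  simp only [Finset.mul_sum]
  exact Finset.prod_univ_sum (fun _ => T) fun i n => χ (k i) * ψ n (k i)

end Pool.Agent.Lib.MMTX
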