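import Pool.Agent.Lib.MP_0dc93f_an.X.Mor

/-! Crude bounds for the quartic forms. -/

namespace Pool.Agent.Lib.MMTX

open Finset Complex ComplexConjugate MMTW

variable (Kc : ℕ) (a : ℤ → ℂ)

lemma crude_Bq (k : Fin 4 → ℤ) : ‖Bq a k‖ = ∏ i, ‖a (k i)‖ := by
  simp [Bq, Fin.prod_univ_four]

theorem norm_Qf_le {ζ : ℤ} {s : (Fin 4 → ℤ) → ℝ} {p : (Fin 4 → ℤ) → Prop} {S : ℝ} (hS : 0 ≤ S)
    (h1 : ∀ k, De k = ζ → |s k| ≤ S) (h2 : ∀ k, De k = ζ → s k ≠ 0 → p k) :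
    ‖Qf Kc a ζ s‖ ≤ S * QA Kc a ζ p := by
  classical
  unfold Qf QA
  refine (norm_sum_le _ _).trans ?_
  rw [mul_sum, sum_filter, sum_filter]
  refine sum_le_sum fun k _ => ?_
  have h0 : 0 ≤ S * ‖Bq a k‖ := mul_nonneg hS (norm_nonneg _)
  by_cases hk : De k = ζ
  · rw [if_pos hk, norm_mul, Complex.norm_real, Real.norm_eq_abs]
    by_cases hs : s k = 0
    · rw [hs, abs_zero, zero_mul]
      split_ifs
      · exact h0
      · exact le_rfl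
    · rw [if_pos ⟨hk, h2 k hk hs⟩]
      exact mul_le_mul_of_nonneg_right (h1 k hk) (norm_nonneg _)
  · rw [if_neg hk, if_neg fun h => hk h.1]

lemma crude_inj {k k' : Fin 4 → ℤ} (j : Fin 4) (h : De k = De k') (h' : ∀ i, i ≠ j → k i = k' i) :
    k = k' := by
  have e : k j = k' j := by
    unfold De at h
    fin_cases j
    · have := h' 1 (by decide); have := h' 2 (by decide); have := h' 3 (by decide)
      show k 0 = k' 0; omega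
    · have := h' 0 (by decide); have := h' 2 (by decide); have := h' 3 (by decide)
      show k 1 = k' 1; omega
    · have := h' 0 (by decide); have := h' 1 (by decide); have := h' 3 (by decide)
      show k 2 = k' 2; omega
    · have := h' 0 (by decide); have := h' 1 (by decide); have := h' 2 (by decide)
      show k 3 = k' 3; omega
  funext i
  by_cases hi : i = j
  · rw [hi, e]
  · exact h' i hi

lemma crude_mem {k : Fin 4 → ℤ} (h : k ∈ F4 Kc) (i : Fin 4) : k i ∈ FF Kc :=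
  Fintype.mem_piFinset.1 h i

lemma crude_fib (T : Finset (Fin 4 → ℤ)) (hT : T ⊆ F4 Kc) (i : Fin 4) (f : ℤ → ℝ)
    (hi : ∀ k ∈ T, ∀ k' ∈ T, k i = k' i → k = k') :
    ∑ k ∈ T, f (k i) ^ 2 ≤ ∑ x ∈ FF Kc, f x ^ 2 := by
  rw [← sum_image (s := T) (g := fun k => k i) (f := fun x => f x ^ 2) fun k hk k' hk' e =>
    hi k hk k' hk' e]
  refine sum_le_sum_of_subset_of_nonneg (fun x hx => ?_) fun _ _ _ => sq_nonneg _
  obtain ⟨k, hk, rfl⟩ := mem_image.1 hx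
  exact crude_mem Kc (hT hk) i

lemma crude_cs (ζ : ℤ) (π : Equiv.Perm (Fin 4)) (A B C D : ℤ → ℝ) (hC : ∀ x, 0 ≤ C x)
    (hD : ∀ x, 0 ≤ D x) :
    ∑ k ∈ F4 Kc with De k = ζ, A (k (π 0)) * B (k (π 1)) * (C (k (π 2)) * D (k (π 3))) ≤
      √(∑ k ∈ FF Kc, A k ^ 2) * √(∑ k ∈ FF Kc, B k ^ 2) *
        ((∑ k ∈ FF Kc, C k) * ∑ k ∈ FF Kc, D k) := by
  rw [← sum_fiberwise_of_maps_to (s := (F4 Kc).filter fun k => De k = ζ) (t := FF Kc ×ˢ FF Kc)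
    (g := fun k => (k (π 2), k (π 3))) fun k hk => mem_product.2
      ⟨crude_mem Kc (mem_filter.1 hk).1 _, crude_mem Kc (mem_filter.1 hk).1 _⟩,
    sum_mul_sum, ← sum_product', mul_sum]
  refine sum_le_sum fun y _ => ?_
  set T := ((F4 Kc).filter fun k => De k = ζ).filter fun k => (k (π 2), k (π 3)) = y with hT
  have hsub : T ⊆ F4 Kc := (filter_subset _ _).trans (filter_subset _ _)
  have key : ∀ i j : Fin 4, (∀ n : Fin 4, n ≠ j → n = i ∨ n = 2 ∨ n = 3) →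
      ∀ k ∈ T, ∀ k' ∈ T, k (π i) = k' (π i) → k = k' := by
    intro i j hij k hk k' hk' e
    obtain ⟨h1, h2⟩ := mem_filter.1 hk
    obtain ⟨h3, h4⟩ := mem_filter.1 hk'
    have h5 := Prod.ext_iff.1 (h2.trans h4.symm)
    refine crude_inj (π j) ((mem_filter.1 h1).2.trans (mem_filter.1 h3).2.symm) fun n hn => ?_
    obtain ⟨m, rfl⟩ := π.surjective n
    rcases hij m (fun h => hn (by rw [h])) with rfl | rfl | rfl
    · exact e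
    · exact h5.1
    · exact h5.2
  have e : ∑ k ∈ T, A (k (π 0)) * B (k (π 1)) * (C (k (π 2)) * D (k (π 3))) =
      (∑ k ∈ T, A (k (π 0)) * B (k (π 1))) * (C y.1 * D y.2) := by
    rw [sum_mul]
    refine sum_congr rfl fun k hk => ?_
    rw [← (mem_filter.1 hk).2]
  rw [e]
  refine mul_le_mul_of_nonneg_right ?_ (mul_nonneg (hC _) (hD _))
  refine (Real.sum_mul_le_sqrt_mul_sqrt T _ _).trans (mul_le_mul ?_ ?_ (Real.sqrt_nonneg _)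
    (Real.sqrt_nonneg _))
  · exact Real.sqrt_le_sqrt (crude_fib Kc T hsub _ A (key 0 1 (by decide)))
  · exact Real.sqrt_le_sqrt (crude_fib Kc T hsub _ B (key 1 0 (by decide)))

/-- Cauchy Schwarz: two slots in `ℓ²`, two slots in `ℓ¹` -/
theorem cs (ζ : ℤ) (π : Equiv.Perm (Fin 4)) (g : Fin 4 → ℤ → ℝ) :
    ∑ k ∈ F4 Kc with De k = ζ, ∏ i, |g i (k i)| ≤
      √(∑ k ∈ FF Kc, g (π 0) k ^ 2) * √(∑ k ∈ FF Kc, g (π 1) k ^ 2) *
        ((∑ k ∈ FF Kc, |g (π 2) k|) * ∑ k ∈ FF Kc, |g (π 3) k|) := by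
  have h := crude_cs Kc ζ π (fun x => |g (π 0) x|) (fun x => |g (π 1) x|) (fun x => |g (π 2) x|)
    (fun x => |g (π 3) x|) (fun _ => abs_nonneg _) fun _ => abs_nonneg _
  simp only [sq_abs] at h
  refine le_trans (le_of_eq (sum_congr rfl fun k _ => ?_)) h
  rw [← Equiv.prod_comp π, Fin.prod_univ_four, mul_assoc]

lemma crude_l1 (z : ℤ) {r : ℝ} (hr : 0 ≤ r) :
    (∑ k ∈ FF Kc, if |(k : ℝ) - z| ≤ r then ‖a k‖ else 0) ^ 2 ≤ (2 * r + 1) * mB Kc a z r := by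
  rw [← sum_filter]
  refine sq_sum_le_card_mul_sum_sq.trans (mul_le_mul_of_nonneg_right ?_ (mB_nonneg Kc a z r))
  refine le_trans ?_ (ball_card z hr)
  exact_mod_cast card_le_card fun k hk => ball_mem (mem_filter.1 hk).2

/-- the `ℓ¹` norm of a piece of the state -/
theorem l1_le {f : ℤ → ℝ} {z : ℤ} {r S : ℝ} (hr : 0 ≤ r) (hs : Supp f z r) (hS : ∀ k, |f k| ≤ S) :
    (∑ k ∈ FF Kc, |f k| * ‖a k‖) ^ 2 ≤ S ^ 2 * ((2 * r + 1) * mB Kc a z r) := by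
  have h0 : 0 ≤ S := (abs_nonneg _).trans (hS 0)
  have h1 : ∑ k ∈ FF Kc, |f k| * ‖a k‖ ≤
      S * ∑ k ∈ FF Kc, if |(k : ℝ) - z| ≤ r then ‖a k‖ else 0 := by
    rw [mul_sum]
    refine sum_le_sum fun k _ => ?_
    by_cases hf : f k = 0
    · rw [hf, abs_zero, zero_mul]
      split_ifs <;> positivity
    · rw [if_pos (hs k hf)]
      exact mul_le_mul_of_nonneg_right (hS k) (norm_nonneg _)
  refine (pow_le_pow_left₀ (sum_nonneg fun k _ => by positivity) h1 2).trans ?_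
  rw [mul_pow]
  exact mul_le_mul_of_nonneg_left (crude_l1 Kc a z hr) (sq_nonneg _)

lemma crude_sq (p : ℤ → Prop) [DecidablePred p] :
    ∑ k ∈ FF Kc, (if p k then ‖a k‖ else 0) ^ 2 = ∑ k ∈ FF Kc with p k, ‖a k‖ ^ 2 := by
  rw [sum_filter]
  refine sum_congr rfl fun k _ => ?_
  split_ifs <;> simp

lemma crude_pair (ζ : ℤ) (π : Equiv.Perm (Fin 4)) (p q : ℤ → Prop) [DecidablePred p]
    [DecidablePred q] :
    ∑ k ∈ F4 Kc with De k = ζ,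
      (if p (k (π 0)) ∧ p (k (π 1)) ∧ q (k (π 2)) ∧ q (k (π 3)) then ‖Bq a k‖ else 0) ≤
      (∑ k ∈ FF Kc with p k, ‖a k‖ ^ 2) * (∑ k ∈ FF Kc, if q k then ‖a k‖ else 0) ^ 2 := by
  have hn : ∀ (r : ℤ → Prop) [DecidablePred r] (x : ℤ), 0 ≤ if r x then ‖a x‖ else 0 :=
    fun r _ x => by split_ifs <;> positivity
  have h := crude_cs Kc ζ π (fun x => if p x then ‖a x‖ else 0) (fun x => if p x then ‖a x‖ else 0)
    (fun x => if q x then ‖a x‖ else 0) (fun x => if q x then ‖a x‖ else 0) (hn q) (hn q)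
  rw [crude_sq, Real.mul_self_sqrt (sum_nonneg fun _ _ => sq_nonneg _), ← sq] at h
  refine le_trans (sum_le_sum fun k _ => ?_) h
  by_cases h1 : p (k (π 0)) ∧ p (k (π 1)) ∧ q (k (π 2)) ∧ q (k (π 3))
  · rw [if_pos h1, if_pos h1.1, if_pos h1.2.1, if_pos h1.2.2.1, if_pos h1.2.2.2, crude_Bq,
      ← Equiv.prod_comp π, Fin.prod_univ_four]
    exact le_of_eq (mul_assoc _ _ _)
  · rw [if_neg h1]
    exact mul_nonneg (mul_nonneg (hn p _) (hn p _)) (mul_nonneg (hn q _) (hn q _))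

/-- all four slots in a ball -/
theorem c1 (ζ z : ℤ) {D : ℝ} (hD : 0 ≤ D) :
    QA Kc a ζ (fun k => ∀ i, |(k i : ℝ) - z| ≤ D) ≤ (2 * D + 1) * mB Kc a z D ^ 2 := by
  classical
  have h := crude_pair Kc a ζ 1 (fun x => |(x : ℝ) - z| ≤ D) fun x => |(x : ℝ) - z| ≤ D
  have h1 := mul_le_mul_of_nonneg_left (crude_l1 Kc a z hD) (mB_nonneg Kc a z D)
  refine le_trans ?_ (h.trans (h1.trans (le_of_eq (by ring))))
  unfold QA
  rw [sum_filter, sum_filter]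
  refine sum_le_sum fun k _ => ?_
  by_cases hk : De k = ζ ∧ ∀ i, |(k i : ℝ) - z| ≤ D
  · rw [if_pos hk, if_pos hk.1, if_pos ⟨hk.2 _, hk.2 _, hk.2 _, hk.2 _⟩]
  · rw [if_neg hk]
    split_ifs <;> positivity

lemma crude_bool : ∀ h0 h1 h2 h3 l0 l1 l2 l3 : Bool,
    (((h0 || l0) && (h1 || l1) && (h2 || l2) && (h3 || l3)) ||
      (!(h0 && l0) && !(h1 && l1) && !(h2 && l2) && !(h3 && l3))) = true →
    ((h0 && h1) || ((h0 && h2) || ((h0 && h3) || ((h1 && h2) || ((h1 && h3) || (h2 && h3)))))) =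
      true →
    ((l0 && l1) || ((l0 && l2) || ((l0 && l3) || ((l1 && l2) || ((l1 && l3) || (l2 && l3)))))) =
      true →
    ((h0 && (h1 && (l2 && l3))) || ((h2 && (h3 && (l0 && l1))) || ((h0 && (h2 && (l1 && l3))) ||
      ((h3 && (h1 && (l2 && l0))) || ((h0 && (h3 && (l2 && l1))) ||
        (h2 && (h1 && (l0 && l3)))))))) = true := by
  decide

lemma crude_six {y0 y1 y2 y3 t m : ℝ}
    (hH : (t ≤ y0 ∧ t ≤ y1) ∨ (t ≤ y0 ∧ t ≤ y2) ∨ (t ≤ y0 ∧ t ≤ y3) ∨ (t ≤ y1 ∧ t ≤ y2) ∨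
      (t ≤ y1 ∧ t ≤ y3) ∨ (t ≤ y2 ∧ t ≤ y3))
    (hL : (y0 ≤ m ∧ y1 ≤ m) ∨ (y0 ≤ m ∧ y2 ≤ m) ∨ (y0 ≤ m ∧ y3 ≤ m) ∨ (y1 ≤ m ∧ y2 ≤ m) ∨
      (y1 ≤ m ∧ y3 ≤ m) ∨ (y2 ≤ m ∧ y3 ≤ m)) :
    (t ≤ y0 ∧ t ≤ y1 ∧ y2 ≤ m ∧ y3 ≤ m) ∨ (t ≤ y2 ∧ t ≤ y3 ∧ y0 ≤ m ∧ y1 ≤ m) ∨
    (t ≤ y0 ∧ t ≤ y2 ∧ y1 ≤ m ∧ y3 ≤ m) ∨ (t ≤ y3 ∧ t ≤ y1 ∧ y2 ≤ m ∧ y0 ≤ m) ∨
    (t ≤ y0 ∧ t ≤ y3 ∧ y2 ≤ m ∧ y1 ≤ m) ∨ (t ≤ y2 ∧ t ≤ y1 ∧ y0 ≤ m ∧ y3 ≤ m) := by
  have h := crude_bool (decide (t ≤ y0)) (decide (t ≤ y1)) (decide (t ≤ y2)) (decide (t ≤ y3))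
    (decide (y0 ≤ m)) (decide (y1 ≤ m)) (decide (y2 ≤ m)) (decide (y3 ≤ m))
  simp only [Bool.and_eq_true, Bool.or_eq_true, Bool.not_eq_eq_eq_not, Bool.not_true,
    Bool.and_eq_false_imp, decide_eq_true_eq, decide_eq_false_iff_not] at h
  refine h ?_ hH hL
  by_cases h : t ≤ m
  · have k : ∀ y : ℝ, t ≤ y ∨ y ≤ m := fun y => (le_total t y).imp id fun e => e.trans h
    exact Or.inl ⟨⟨⟨k y0, k y1⟩, k y2⟩, k y3⟩
  · have k : ∀ y : ℝ, t ≤ y → ¬ y ≤ m := fun y e e' => h (e.trans e')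
    exact Or.inr ⟨⟨⟨k y0, k y1⟩, k y2⟩, k y3⟩

lemma crude_high {k : Fin 4 → ℤ} {K : ℝ} (hζ : 16 * |(De k : ℝ)| ≤ K) (h : ∃ i, K / 4 ≤ |(k i : ℝ)|) :
    (K / 16 ≤ |(k 0 : ℝ)| ∧ K / 16 ≤ |(k 1 : ℝ)|) ∨ (K / 16 ≤ |(k 0 : ℝ)| ∧ K / 16 ≤ |(k 2 : ℝ)|) ∨
    (K / 16 ≤ |(k 0 : ℝ)| ∧ K / 16 ≤ |(k 3 : ℝ)|) ∨ (K / 16 ≤ |(k 1 : ℝ)| ∧ K / 16 ≤ |(k 2 : ℝ)|) ∨
    (K / 16 ≤ |(k 1 : ℝ)| ∧ K / 16 ≤ |(k 3 : ℝ)|) ∨ (K / 16 ≤ |(k 2 : ℝ)| ∧ K / 16 ≤ |(k 3 : ℝ)|) := by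
  have e : (De k : ℝ) = k 0 - k 1 + k 2 - k 3 := by simp [De]
  rw [e] at hζ
  have hK : 0 ≤ K := le_trans (by positivity) hζ
  have a0 := abs_le.1 (le_refl |(k 0 : ℝ)|)
  have a1 := abs_le.1 (le_refl |(k 1 : ℝ)|)
  have a2 := abs_le.1 (le_refl |(k 2 : ℝ)|)
  have a3 := abs_le.1 (le_refl |(k 3 : ℝ)|)
  have a4 := abs_le.1 (le_refl |(k 0 : ℝ) - k 1 + k 2 - k 3|)
  have b0 : |(k 0 : ℝ)| ≤ K / 16 + |(k 1 : ℝ)| + |(k 2 : ℝ)| + |(k 3 : ℝ)| :=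
    abs_le.2 ⟨by linarith, by linarith⟩
  have b1 : |(k 1 : ℝ)| ≤ K / 16 + |(k 0 : ℝ)| + |(k 2 : ℝ)| + |(k 3 : ℝ)| :=
    abs_le.2 ⟨by linarith, by linarith⟩
  have b2 : |(k 2 : ℝ)| ≤ K / 16 + |(k 0 : ℝ)| + |(k 1 : ℝ)| + |(k 3 : ℝ)| :=
    abs_le.2 ⟨by linarith, by linarith⟩
  have b3 : |(k 3 : ℝ)| ≤ K / 16 + |(k 0 : ℝ)| + |(k 1 : ℝ)| + |(k 2 : ℝ)| :=
    abs_le.2 ⟨by linarith, by linarith⟩
  clear a0 a1 a2 a3 a4 hζ e
  obtain ⟨i, hi⟩ := h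
  have hi' : K / 4 ≤ |(k 0 : ℝ)| ∨ K / 4 ≤ |(k 1 : ℝ)| ∨ K / 4 ≤ |(k 2 : ℝ)| ∨ K / 4 ≤ |(k 3 : ℝ)| := by
    fin_cases i
    · exact Or.inl hi
    · exact Or.inr (Or.inl hi)
    · exact Or.inr (Or.inr (Or.inl hi))
    · exact Or.inr (Or.inr (Or.inr hi))
  clear hi
  generalize |(k 0 : ℝ)| = y0 at *
  generalize |(k 1 : ℝ)| = y1 at *
  generalize |(k 2 : ℝ)| = y2 at *
  generalize |(k 3 : ℝ)| = y3 at *
  rcases le_or_gt (K / 16) y0 with h0 | h0 <;> rcases le_or_gt (K / 16) y1 with h1 | h1 <;>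
    rcases le_or_gt (K / 16) y2 with h2 | h2 <;> rcases le_or_gt (K / 16) y3 with h3 | h3 <;>
    first
      | (exfalso; rcases hi' with e | e | e | e <;> linarith)
      | tauto

lemma crude_low (L : Fin 4 → Prop) {i j : Fin 4} (hij : i ≠ j) (hi : L i) (hj : L j) :
    (L 0 ∧ L 1) ∨ (L 0 ∧ L 2) ∨ (L 0 ∧ L 3) ∨ (L 1 ∧ L 2) ∨ (L 1 ∧ L 3) ∨ (L 2 ∧ L 3) := by
  fin_cases i <;> fin_cases j <;> first | exact absurd rfl hij | tauto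

lemma crude_ite {p : Prop} {_ : Decidable p} {x y z : ℝ} (h1 : p → x ≤ z) (h2 : ¬ p → y ≤ z) :
    (if p then x else y) ≤ z := by
  split_ifs with h
  · exact h1 h
  · exact h2 h

/-- two low slots and one high slot -/
theorem c2 {ζ : ℤ} {M K E : ℝ} (hM : 0 ≤ M) (hζ : 16 * |(ζ : ℝ)| ≤ K) (hE : tail Kc a 1 ≤ E) :
    QA Kc a ζ (fun k => (∃ i j, i ≠ j ∧ |(k i : ℝ)| ≤ 2 * M ∧ |(k j : ℝ)| ≤ 2 * M) ∧
      ∃ i, K / 4 ≤ |(k i : ℝ)|) ≤ 6 * tail Kc a (K / 16) * ((4 * M + 1) * E) := by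
  classical
  have hm : mB Kc a 0 (2 * M) ≤ E := by
    refine le_trans (sum_le_sum_of_subset_of_nonneg (fun k hk => ?_) fun _ _ _ => sq_nonneg _) hE
    exact mem_filter.2 ⟨(mem_filter.1 hk).1, le_add_of_nonneg_right (abs_nonneg _)⟩
  have hl := (crude_l1 Kc a 0 (r := 2 * M) (by linarith)).trans
    (mul_le_mul_of_nonneg_left hm (by linarith))
  simp only [Int.cast_zero, sub_zero] at hl
  have ht : ∑ k ∈ FF Kc with K / 16 ≤ |((k : ℤ) : ℝ)|, ‖a k‖ ^ 2 ≤ tail Kc a (K / 16) := by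
    refine sum_le_sum_of_subset_of_nonneg (fun k hk => ?_) fun _ _ _ => sq_nonneg _
    exact mem_filter.2 ⟨(mem_filter.1 hk).1, (mem_filter.1 hk).2.trans
      (le_add_of_nonneg_left zero_le_one)⟩
  have one : ∀ π : Equiv.Perm (Fin 4), ∑ k ∈ F4 Kc with De k = ζ,
      (if K / 16 ≤ |(k (π 0) : ℝ)| ∧ K / 16 ≤ |(k (π 1) : ℝ)| ∧ |(k (π 2) : ℝ)| ≤ 2 * M ∧
        |(k (π 3) : ℝ)| ≤ 2 * M then ‖Bq a k‖ else 0) ≤ tail Kc a (K / 16) * ((4 * M + 1) * E) :=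
    fun π => (crude_pair Kc a ζ π (fun x => K / 16 ≤ |(x : ℝ)|) fun x => |(x : ℝ)| ≤ 2 * M).trans
      (mul_le_mul ht (hl.trans (le_of_eq (by ring))) (sq_nonneg _) (fx_tail_nonneg _ _ _))
  have s1 := one 1
  have s2 := one (Equiv.swap 0 2 * Equiv.swap 1 3)
  have s3 := one (Equiv.swap 1 2)
  have s4 := one (Equiv.swap 0 3)
  have s5 := one (Equiv.swap 1 3)
  have s6 := one (Equiv.swap 0 2)
  have tot := add_le_add (add_le_add (add_le_add (add_le_add (add_le_add s1 s2) s3) s4) s5) s6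
  simp only [← sum_add_distrib] at tot
  refine le_trans ?_ (tot.trans (le_of_eq (by ring)))
  unfold QA
  rw [← filter_filter, sum_filter]
  refine sum_le_sum fun k hk => ?_
  have hn : ∀ (p : Prop) [Decidable p], 0 ≤ if p then ‖Bq a k‖ else 0 :=
    fun p _ => by split_ifs <;> positivity
  refine crude_ite (fun h => ?_) fun _ => ?_
  swap
  · exact add_nonneg (add_nonneg (add_nonneg (add_nonneg (add_nonneg (hn _) (hn _)) (hn _)) (hn _))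
      (hn _)) (hn _)
  obtain ⟨⟨i, j, hij, hi, hj⟩, hh⟩ := h
  have hL := crude_low (fun n => |(k n : ℝ)| ≤ 2 * M) hij hi hj
  have six := crude_six (crude_high (by rw [(mem_filter.1 hk).2]; exact hζ) hh) hL
  have up : ∀ {p : Prop} [Decidable p], p → ‖Bq a k‖ ≤ if p then ‖Bq a k‖ else 0 :=
    fun hp => by rw [if_pos hp]
  rcases six with e | e | e | e | e | e
  · exact le_add_of_le_of_nonneg (le_add_of_le_of_nonneg (le_add_of_le_of_nonneg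
      (le_add_of_le_of_nonneg (le_add_of_le_of_nonneg (up e) (hn _)) (hn _)) (hn _)) (hn _)) (hn _)
  · exact le_add_of_le_of_nonneg (le_add_of_le_of_nonneg (le_add_of_le_of_nonneg
      (le_add_of_le_of_nonneg (le_add_of_nonneg_of_le (hn _) (up e)) (hn _)) (hn _)) (hn _)) (hn _)
  · exact le_add_of_le_of_nonneg (le_add_of_le_of_nonneg (le_add_of_le_of_nonneg
      (le_add_of_nonneg_of_le (add_nonneg (hn _) (hn _)) (up e)) (hn _)) (hn _)) (hn _)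
  · exact le_add_of_le_of_nonneg (le_add_of_le_of_nonneg (le_add_of_nonneg_of_le
      (add_nonneg (add_nonneg (hn _) (hn _)) (hn _)) (up e)) (hn _)) (hn _)
  · exact le_add_of_le_of_nonneg (le_add_of_nonneg_of_le
      (add_nonneg (add_nonneg (add_nonneg (hn _) (hn _)) (hn _)) (hn _)) (up e)) (hn _)
  · exact le_add_of_nonneg_of_le (add_nonneg
      (add_nonneg (add_nonneg (add_nonneg (hn _) (hn _)) (hn _)) (hn _)) (hn _)) (up e)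

end Pool.Agent.Lib.MMTX
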