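import Pool.Agent.Lib.MP_0dc93f_an.X.Crude
import Pool.Agent.Lib.MP_0dc93f_an.WFlux

/-! Crude bounds which follow from the decay of the tail. -/

namespace Pool.Agent.Lib.MMTX

open Finset Complex ComplexConjugate MMTW

/-- the state of the moduli -/
noncomputable def cbA (a : ℤ → ℂ) (k : ℤ) : ℂ := (‖a k‖ : ℝ)

lemma cb_norm (a : ℤ → ℂ) (k : ℤ) : ‖cbA a k‖ = ‖a k‖ := by simp [cbA]

lemma cb_tail (Kc : ℕ) (a : ℤ → ℂ) (R : ℝ) : tail Kc (cbA a) R = tail Kc a R := by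
  simp only [tail, cb_norm]

lemma cb_Bq (a : ℤ → ℂ) (k : Fin 4 → ℤ) : Bq (cbA a) k = (‖Bq a k‖ : ℝ) := by
  simp only [Bq, cbA, conj_ofReal, norm_mul, RCLike.norm_conj]
  push_cast; ring

/-- a weighted absolute sum is a quartic form of the moduli -/
lemma cb_Qf (Kc : ℕ) (a : ℤ → ℂ) (ζ : ℤ) (s : (Fin 4 → ℤ) → ℝ) :
    ∑ k ∈ F4 Kc with De k = ζ, s k * ‖Bq a k‖ ≤ ‖Qf Kc (cbA a) ζ s‖ := by
  have e : Qf Kc (cbA a) ζ s = ((∑ k ∈ F4 Kc with De k = ζ, s k * ‖Bq a k‖ : ℝ) : ℂ) := by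
    unfold Qf
    rw [ofReal_sum]
    exact Finset.sum_congr rfl fun k _ => by rw [cb_Bq, ofReal_mul]
  rw [e, Complex.norm_real]
  exact le_abs_self _

/-- one slot with a weight, three slots summed -/
lemma cb_slot (Kc : ℕ) (a : ℤ → ℂ) (ζ : ℤ) {ψ w : ℤ → ℝ} (hψ : ∀ l, 0 ≤ ψ l)
    (h1 : ∀ l, ψ l ≠ 0 → ‖NL Kc (cbA a) (l + ζ)‖ ≤ w l)
    (h2 : ∀ l, ψ l ≠ 0 → ‖NL Kc (cbA a) (l - ζ)‖ ≤ w l) (i : Fin 4) :
    ∑ k ∈ F4 Kc with De k = ζ, ψ (k i) * ‖Bq a k‖ ≤ ∑ l ∈ FF Kc, ψ l * (‖a l‖ * w l) := by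
  have o : ‖∑ l ∈ FF Kc, (ψ l : ℂ) * (NL Kc (cbA a) (l + ζ) * conj (cbA a l))‖ ≤
      ∑ l ∈ FF Kc, ψ l * (‖a l‖ * w l) := by
    refine (norm_sum_le _ _).trans (Finset.sum_le_sum fun l _ => ?_)
    by_cases h : ψ l = 0
    · simp [h]
    · rw [norm_mul, norm_mul, Complex.norm_real, Real.norm_of_nonneg (hψ l), RCLike.norm_conj,
        cb_norm, mul_comm _ ‖a l‖]
      exact mul_le_mul_of_nonneg_left (mul_le_mul_of_nonneg_left (h1 l h) (norm_nonneg _)) (hψ l)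
  have e : ‖∑ l ∈ FF Kc, (ψ l : ℂ) * (cbA a l * conj (NL Kc (cbA a) (l - ζ)))‖ ≤
      ∑ l ∈ FF Kc, ψ l * (‖a l‖ * w l) := by
    refine (norm_sum_le _ _).trans (Finset.sum_le_sum fun l _ => ?_)
    by_cases h : ψ l = 0
    · simp [h]
    · rw [norm_mul, norm_mul, Complex.norm_real, Real.norm_of_nonneg (hψ l), RCLike.norm_conj,
        cb_norm]
      exact mul_le_mul_of_nonneg_left (mul_le_mul_of_nonneg_left (h2 l h) (norm_nonneg _)) (hψ l)
  refine (cb_Qf Kc a ζ fun k => ψ (k i)).trans ?_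
  fin_cases i
  · exact (congrArg norm (Qf_slot0 Kc (cbA a) ζ ψ)).le.trans e
  · exact (congrArg norm (Qf_slot1 Kc (cbA a) ζ ψ)).le.trans o
  · exact (congrArg norm (Qf_slot2 Kc (cbA a) ζ ψ)).le.trans e
  · exact (congrArg norm (Qf_slot3 Kc (cbA a) ζ ψ)).le.trans o

/-- the whole sum -/
lemma cb_all (Kc : ℕ) (a : ℤ → ℂ) (ζ : ℤ) :
    QA Kc a ζ (fun _ => True) ≤ ∑ l ∈ FF Kc, ‖a l‖ * ‖NL Kc (cbA a) (l + ζ)‖ := by
  have h := cb_Qf Kc a ζ fun k => (fun _ : ℤ => (1 : ℝ)) (k 3)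
  rw [Qf_slot3 Kc (cbA a) ζ fun _ => 1] at h
  have e : QA Kc a ζ (fun _ => True) = ∑ k ∈ F4 Kc with De k = ζ, 1 * ‖Bq a k‖ := by
    unfold QA
    simp
  rw [e]
  refine h.trans ((norm_sum_le _ _).trans (Finset.sum_le_sum fun l _ => le_of_eq ?_))
  rw [norm_mul, norm_mul, RCLike.norm_conj, cb_norm]
  simp [mul_comm]

lemma cb_shift {l ζ H : ℤ} {β : ℝ} (hβ0 : 0 ≤ β) (hβ2 : β ≤ 2) (hζ : 2 * |ζ| ≤ H) (hl : H ≤ |l|) :
    br (l + ζ) ^ (-β / 2) ≤ 2 * br l ^ (-β / 2) := by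
  have h1 : br l / 2 ≤ br (l + ζ) := by
    have a1 : (2 * |(ζ : ℝ)|) ≤ |(l : ℝ)| := by exact_mod_cast hζ.trans hl
    have a2 := abs_sub ((l : ℝ) + ζ) ζ
    rw [add_sub_cancel_right] at a2
    unfold br
    push_cast
    linarith
  have h0 : 0 < br l / 2 := half_pos (fx_br_pos l)
  refine (Real.rpow_le_rpow_of_nonpos h0 h1 (by linarith)).trans ?_
  rw [Real.div_rpow (fx_br_pos l).le zero_le_two, div_le_iff₀ (Real.rpow_pos_of_pos two_pos _)]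
  have h2 : (2 : ℝ) ^ (-1 : ℝ) ≤ 2 ^ (-β / 2) :=
    Real.rpow_le_rpow_of_exponent_le one_le_two (by linarith)
  rw [Real.rpow_neg_one] at h2
  have h3 : 0 ≤ br l ^ (-β / 2) := Real.rpow_nonneg (fx_br_pos l).le _
  nlinarith

/-- the part with a high slot -/
lemma cb_hi (Kc : ℕ) (a : ℤ → ℂ) {ζ H : ℤ} {B β : ℝ} (hB : 0 ≤ B) (hβ0 : 0 ≤ β) (hβ2 : β ≤ 2)
    (hN : ∀ k, ‖NL Kc (cbA a) k‖ ≤ B * br k ^ (-β / 2)) (hζ : 2 * |ζ| ≤ H) :
    QA Kc a ζ (fun k => ∃ i, H ≤ |k i|) ≤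
      8 * B * ∑ l ∈ FF Kc with H ≤ |l|, ‖a l‖ * br l ^ (-β / 2) := by
  classical
  set ψ : ℤ → ℝ := fun l => if H ≤ |l| then 1 else 0 with hψ
  have hψ0 : ∀ l, 0 ≤ ψ l := fun l => by simp only [hψ]; split_ifs <;> norm_num
  have hψ1 : ∀ l, ψ l ≠ 0 → H ≤ |l| := fun l h => by_contra fun h' => h (by simp [hψ, h'])
  have hs := cb_slot Kc a ζ (w := fun l => 2 * B * br l ^ (-β / 2)) hψ0
    (fun l h => (hN _).trans (by
      have := mul_le_mul_of_nonneg_left (cb_shift hβ0 hβ2 hζ (hψ1 l h)) hB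
      linarith))
    (fun l h => (hN _).trans (by
      have := mul_le_mul_of_nonneg_left
        (cb_shift (ζ := -ζ) hβ0 hβ2 (by rwa [abs_neg]) (hψ1 l h)) hB
      rw [← sub_eq_add_neg] at this
      linarith))
  have e : ∑ l ∈ FF Kc, ψ l * (‖a l‖ * (2 * B * br l ^ (-β / 2))) =
      2 * B * ∑ l ∈ FF Kc with H ≤ |l|, ‖a l‖ * br l ^ (-β / 2) := by
    rw [Finset.sum_filter, Finset.mul_sum]
    refine Finset.sum_congr rfl fun l _ => ?_
    simp only [hψ]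
    split_ifs <;> ring
  rw [e] at hs
  have h : QA Kc a ζ (fun k => ∃ i, H ≤ |k i|) ≤
      ∑ i : Fin 4, ∑ k ∈ F4 Kc with De k = ζ, ψ (k i) * ‖Bq a k‖ := by
    rw [Finset.sum_comm]
    unfold QA
    rw [← Finset.filter_filter, Finset.sum_filter]
    refine Finset.sum_le_sum fun k _ => ?_
    have n : ∀ i ∈ (univ : Finset (Fin 4)), 0 ≤ ψ (k i) * ‖Bq a k‖ :=
      fun i _ => mul_nonneg (hψ0 _) (norm_nonneg _)
    split_ifs with hk
    · obtain ⟨i, hi⟩ := hk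
      refine le_trans (le_of_eq ?_) (Finset.single_le_sum n (mem_univ i))
      simp [hψ, hi]
    · exact Finset.sum_nonneg n
  refine h.trans ((Finset.sum_le_sum fun i _ => hs i).trans (le_of_eq ?_))
  simp only [Finset.sum_const, Finset.card_univ, Fintype.card_fin, nsmul_eq_mul]
  push_cast; ring

/-- high frequencies: the weight is taken out and the rest is Cauchy Schwarz -/
lemma cb_piece (Kc : ℕ) (a : ℤ → ℂ) {S : Finset ℤ} {H γ n : ℝ} (hH : 0 < H) (hγ : 0 ≤ γ)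
    (hS : ∀ l ∈ S, l ∈ FF Kc ∧ H ≤ |(l : ℝ)|) (hn : (S.card : ℝ) ≤ n) :
    ∑ l ∈ S, ‖a l‖ * br l ^ (-γ / 2) ≤ √(n * tail Kc a H) * H ^ (-γ / 2) := by
  have hb : ∀ l ∈ S, H ≤ br l := fun l hl => by
    have := (hS l hl).2
    unfold br; linarith
  have h1 : ∑ l ∈ S, ‖a l‖ * br l ^ (-γ / 2) ≤ (∑ l ∈ S, ‖a l‖) * H ^ (-γ / 2) := by
    rw [Finset.sum_mul]
    exact Finset.sum_le_sum fun l hl => mul_le_mul_of_nonneg_left
      (Real.rpow_le_rpow_of_nonpos hH (hb l hl) (by linarith)) (norm_nonneg _)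
  refine h1.trans (mul_le_mul_of_nonneg_right ?_ (Real.rpow_nonneg hH.le _))
  refine Real.le_sqrt_of_sq_le (sq_sum_le_card_mul_sum_sq.trans ?_)
  refine mul_le_mul hn ?_ (Finset.sum_nonneg fun _ _ => by positivity)
    ((Nat.cast_nonneg _).trans hn)
  exact Finset.sum_le_sum_of_subset_of_nonneg
    (fun l hl => mem_filter.2 ⟨(hS l hl).1, hb l hl⟩) fun _ _ _ => by positivity

/-- one dyadic shell -/
lemma cb_shell (Kc : ℕ) (a : ℤ → ℂ) {E α : ℝ} (hE : 1 ≤ E) (hα : 0 ≤ α) (m : ℕ)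
    (ht : tail Kc a (2 ^ m) ≤ E * ((2 : ℝ) ^ m) ^ (-α)) :
    ∑ l ∈ (FF Kc).filter (fun l => 2 ^ m ≤ |l|) with ¬ 2 ^ (m + 1) ≤ |l|,
      ‖a l‖ * br l ^ (-α / 2) ≤ 3 * E * ((2 : ℝ) ^ m) ^ (-(2 * α - 1) / 2) := by
  have hH : (0 : ℝ) < 2 ^ m := by positivity
  have hH1 : (1 : ℝ) ≤ 2 ^ m := one_le_pow₀ one_le_two
  refine (cb_piece Kc a (n := 5 * 2 ^ m) hH hα (fun l hl => ?_) ?_).trans ?_
  · obtain ⟨h1, -⟩ := mem_filter.1 hl
    obtain ⟨h2, h3⟩ := mem_filter.1 h1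
    exact ⟨h2, by exact_mod_cast h3⟩
  · have hs : ((FF Kc).filter (fun l => 2 ^ m ≤ |l|)).filter (fun l => ¬ 2 ^ (m + 1) ≤ |l|) ⊆
        FF (2 ^ (m + 1)) := fun l hl => by
      have := abs_lt.1 (not_le.1 (mem_filter.1 hl).2)
      simp only [FF, Finset.mem_Icc]
      push_cast
      exact ⟨this.1.le, this.2.le⟩
    have hc : (FF (2 ^ (m + 1))).card = 2 * 2 ^ (m + 1) + 1 := by
      generalize 2 ^ (m + 1) = n
      simp only [FF, Int.card_Icc]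
      omega
    have h2 := Finset.card_le_card hs
    rw [hc] at h2
    have h3 := (Nat.cast_le (α := ℝ)).2 h2
    push_cast at h3
    rw [pow_succ] at h3
    refine le_trans ?_ (show (2 : ℝ) * (2 ^ m * 2) + 1 ≤ 5 * 2 ^ m by linarith)
    simpa [pow_succ] using h3
  · generalize (2 : ℝ) ^ m = H at *
    have e1 : H ^ (-(2 * α - 1) / 2) = H ^ ((1 - α) / 2) * H ^ (-α / 2) := by
      rw [← Real.rpow_add hH]; congr 1; ring
    have e2 : (H ^ ((1 - α) / 2)) ^ 2 = H * H ^ (-α) := by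
      have : H * H ^ (-α) = H ^ (1 + -α) := by rw [Real.rpow_add hH, Real.rpow_one]
      rw [this, ← Real.rpow_natCast, ← Real.rpow_mul hH.le]
      congr 1; push_cast; ring
    rw [e1, ← mul_assoc]
    refine mul_le_mul_of_nonneg_right ?_ (Real.rpow_nonneg hH.le _)
    have p : 0 ≤ H * H ^ (-α) := by positivity
    refine Real.sqrt_le_iff.2 ⟨by positivity, ?_⟩
    rw [mul_pow, e2]
    have h1 : 5 * H * tail Kc a H ≤ 5 * H * (E * H ^ (-α)) :=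
      mul_le_mul_of_nonneg_left ht (by positivity)
    have h2 : 5 * E ≤ (3 * E) ^ 2 := by nlinarith
    have h3 := mul_le_mul_of_nonneg_right h2 p
    linarith

/-- the sum of the shells -/
lemma cb_dy (Kc : ℕ) (a : ℤ → ℂ) {E α r : ℝ} (hE : 1 ≤ E) (hα : 0 ≤ α)
    (hr : r = (2 : ℝ) ^ (-(2 * α - 1) / 2)) (hr1 : r < 1)
    (ht : ∀ m : ℕ, tail Kc a (2 ^ m) ≤ E * ((2 : ℝ) ^ m) ^ (-α)) (m : ℕ) :
    ∑ l ∈ FF Kc with 2 ^ m ≤ |l|, ‖a l‖ * br l ^ (-α / 2) ≤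
      3 * (1 - r)⁻¹ * E * ((2 : ℝ) ^ m) ^ (-(2 * α - 1) / 2) := by
  have h1r : 0 < 1 - r := by linarith
  have key : ∀ n m : ℕ, Kc < 2 ^ (m + n) →
      ∑ l ∈ FF Kc with 2 ^ m ≤ |l|, ‖a l‖ * br l ^ (-α / 2) ≤
        3 * (1 - r)⁻¹ * E * ((2 : ℝ) ^ m) ^ (-(2 * α - 1) / 2) := by
    intro n
    induction n with
    | zero =>
      intro m hm
      rw [Finset.filter_false_of_mem, Finset.sum_empty]
      · positivity
      · intro l hl
        have h1 : |l| ≤ Kc := abs_le.2 (Finset.mem_Icc.1 hl)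
        have h2 : (Kc : ℤ) < 2 ^ m := by exact_mod_cast hm
        omega
    | succ n ih =>
      intro m hm
      have h1 := ih (m + 1) (by rwa [add_assoc, add_comm 1 n])
      have h2 := cb_shell Kc a hE hα m (ht m)
      rw [← Finset.sum_filter_add_sum_filter_not _ (fun l => 2 ^ (m + 1) ≤ |l|)]
      have e : ((FF Kc).filter (fun l => 2 ^ m ≤ |l|)).filter (fun l => 2 ^ (m + 1) ≤ |l|) =
          (FF Kc).filter (fun l => 2 ^ (m + 1) ≤ |l|) := by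
        rw [Finset.filter_filter]
        refine Finset.filter_congr fun l _ => ⟨fun h => h.2, fun h => ⟨le_trans ?_ h, h⟩⟩
        exact pow_le_pow_right₀ one_le_two (Nat.le_succ m)
      rw [e]
      have e2 : ((2 : ℝ) ^ (m + 1)) ^ (-(2 * α - 1) / 2) =
          ((2 : ℝ) ^ m) ^ (-(2 * α - 1) / 2) * r := by
        rw [pow_succ, Real.mul_rpow (by positivity) zero_le_two, hr]
      rw [e2] at h1
      refine (add_le_add h1 h2).trans (le_of_eq ?_)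
      field_simp
      ring
  exact key Kc m (Nat.lt_two_pow_self.trans_le (Nat.pow_le_pow_right two_pos (Nat.le_add_left _ _)))

/-- the sum against a shifted weight -/
lemma cb_conv {α : ℝ} (hα : 1 / 2 < α) : ∃ C : ℝ, 1 ≤ C ∧ ∀ (Kc : ℕ) (a : ℤ → ℂ) (E β : ℝ),
    1 ≤ E → α ≤ β → (∀ R : ℝ, 0 < R → tail Kc a R ≤ E * R ^ (-β)) →
    ∀ ζ : ℤ, ∑ l ∈ FF Kc, ‖a l‖ * br (l + ζ) ^ (-β / 2) ≤ C * E := by
  have hδ : 0 < α - 1 / 2 := by linarith
  obtain ⟨C1, hC1, hw⟩ := wsum hδ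
  obtain ⟨C2, hC2, hb⟩ := brsum hδ
  refine ⟨C1 + 2 * C2, by linarith, fun Kc a E β hE hβ ht ζ => ?_⟩
  have h1 := hw Kc a E β (1 / 2) (by norm_num) (by linarith) (by linarith) ht
  have h2 := hb (FF Kc)
  have h3 := hb ((FF Kc).image fun l => l + ζ)
  rw [Finset.sum_image fun x _ y _ h => add_right_cancel h] at h3
  have pt : ∀ l : ℤ, ‖a l‖ * br (l + ζ) ^ (-β / 2) ≤ br l ^ (1 / 2 : ℝ) * ‖a l‖ ^ 2 +
      (br l ^ (-1 - (α - 1 / 2)) + br (l + ζ) ^ (-1 - (α - 1 / 2))) := by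
    intro l
    have hx := fx_one_le_br l
    have hy := fx_one_le_br (l + ζ)
    generalize br l = x at *
    generalize br (l + ζ) = y at *
    have hx0 : 0 < x := by linarith
    have hy0 : 0 < y := by linarith
    have a1 : y ^ (-β / 2) ≤ y ^ (-α / 2) := Real.rpow_le_rpow_of_exponent_le hy (by linarith)
    have a2 : x ^ (-(1 / 2) : ℝ) * y ^ (-α) ≤
        x ^ (-1 - (α - 1 / 2)) + y ^ (-1 - (α - 1 / 2)) := by
      have px := Real.rpow_nonneg hx0.le (-1 - (α - 1 / 2))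
      have py := Real.rpow_nonneg hy0.le (-1 - (α - 1 / 2))
      rcases le_total x y with h | h
      · have b1 : y ^ (-α) ≤ x ^ (-α) := Real.rpow_le_rpow_of_nonpos hx0 h (by linarith)
        have b2 : x ^ (-(1 / 2) : ℝ) * x ^ (-α) = x ^ (-1 - (α - 1 / 2)) := by
          rw [← Real.rpow_add hx0]; congr 1; ring
        have := mul_le_mul_of_nonneg_left b1 (Real.rpow_nonneg hx0.le (-(1 / 2)))
        linarith
      · have b1 : x ^ (-(1 / 2) : ℝ) ≤ y ^ (-(1 / 2) : ℝ) :=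
          Real.rpow_le_rpow_of_nonpos hy0 h (by norm_num)
        have b2 : y ^ (-(1 / 2) : ℝ) * y ^ (-α) = y ^ (-1 - (α - 1 / 2)) := by
          rw [← Real.rpow_add hy0]; congr 1; ring
        have := mul_le_mul_of_nonneg_right b1 (Real.rpow_nonneg hy0.le (-α))
        linarith
    have a3 : (y ^ (-α / 2)) ^ 2 = y ^ (-α) := by
      rw [← Real.rpow_natCast, ← Real.rpow_mul hy0.le]; congr 1; push_cast; ring
    have a4 : x ^ (1 / 2 : ℝ) * x ^ (-(1 / 2) : ℝ) = 1 := by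
      rw [← Real.rpow_add hx0]; norm_num
    have p1 : 0 < x ^ (1 / 2 : ℝ) := Real.rpow_pos_of_pos hx0 _
    have p2 : 0 < x ^ (-(1 / 2) : ℝ) := Real.rpow_pos_of_pos hx0 _
    have p3 : 0 ≤ y ^ (-α / 2) := Real.rpow_nonneg hy0.le _
    have p4 := norm_nonneg (a l)
    have a5 := mul_le_mul_of_nonneg_left a1 p4
    rw [← a3] at a2
    generalize x ^ (1 / 2 : ℝ) = u at *
    generalize x ^ (-(1 / 2) : ℝ) = v at *
    generalize y ^ (-α / 2) = t at *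
    generalize ‖a l‖ = s at *
    have a6 : s * t ≤ u * s ^ 2 + v * t ^ 2 := by
      have q : 0 ≤ u * (s - v * t) ^ 2 := by positivity
      have q2 : u * (s - v * t) ^ 2 = u * s ^ 2 - 2 * (u * v) * (s * t) + (u * v) * (v * t ^ 2) := by
        ring
      rw [q2, a4] at q
      have := mul_nonneg p4 p3
      linarith
    linarith
  refine (Finset.sum_le_sum fun l _ => pt l).trans ?_
  rw [Finset.sum_add_distrib, Finset.sum_add_distrib]
  nlinarith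

/-- the bounds which follow from the decay of the tail -/
theorem crude {α : ℝ} (hα : 1 / 2 < α) (hα1 : α < 1) : ∃ C : ℝ, 1 ≤ C ∧ ∀ (Kc : ℕ) (a : ℤ → ℂ) (E β : ℝ),
    1 ≤ E → α ≤ β → β ≤ 2 → (∀ R : ℝ, 0 < R → tail Kc a R ≤ E * R ^ (-β)) →
    (∀ k, ‖NL Kc a k‖ ≤ C * E ^ 2 * br k ^ (-β / 2)) ∧
    (∀ ζ, QA Kc a ζ (fun _ => True) ≤ C * E ^ 3) ∧
    ∀ m : ℕ, HiB Kc a m (C * E ^ 3 * ((2 : ℝ) ^ m) ^ (-(2 * α - 1) / 2)) ∧
      HiB Kc a m (C * E ^ 2 * √(Kc * tail Kc a (2 ^ m)) * ((2 : ℝ) ^ m) ^ (-β / 2)) := by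
  obtain ⟨C0, hC0, hN⟩ := NL_le hα
  obtain ⟨C1, hC1, hc⟩ := cb_conv hα
  set r : ℝ := (2 : ℝ) ^ (-(2 * α - 1) / 2) with hr
  have hr0 : 0 < r := Real.rpow_pos_of_pos two_pos _
  have hr1 : r < 1 := Real.rpow_lt_one_of_one_lt_of_neg one_lt_two (by linarith)
  have hinv : 1 ≤ (1 - r)⁻¹ := by
    rw [one_le_inv₀ (by linarith)]; linarith
  set D : ℝ := C1 + 24 * (1 - r)⁻¹ with hD
  have hD1 : 1 ≤ D := by linarith
  have hCD : ∀ {c x : ℝ}, c ≤ D → 0 ≤ x → C0 * c * x ≤ C0 * D * x := fun h hx =>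
    mul_le_mul_of_nonneg_right (mul_le_mul_of_nonneg_left h (by linarith)) hx
  refine ⟨C0 * D, by nlinarith, fun Kc a E β hE hβ hβ2 ht => ?_⟩
  have hE0 : 0 ≤ E := by linarith
  have hβ0 : 0 ≤ β := by linarith
  have hB : 0 ≤ C0 * E ^ 2 := by positivity
  have hA := hN Kc (cbA a) E β hE hβ hβ2 fun R hR => by rw [cb_tail]; exact ht R hR
  refine ⟨fun k => (hN Kc a E β hE hβ hβ2 ht k).trans ?_, fun ζ => ?_, fun m => ⟨?_, ?_⟩⟩
  · have := hCD hD1 (mul_nonneg (sq_nonneg E) (Real.rpow_nonneg (fx_br_pos k).le (-β / 2)))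
    linarith
  · have h1 : ∑ l ∈ FF Kc, ‖a l‖ * ‖NL Kc (cbA a) (l + ζ)‖ ≤
        C0 * E ^ 2 * ∑ l ∈ FF Kc, ‖a l‖ * br (l + ζ) ^ (-β / 2) := by
      rw [Finset.mul_sum]
      refine Finset.sum_le_sum fun l _ => ?_
      have := mul_le_mul_of_nonneg_left (hA (l + ζ)) (norm_nonneg (a l))
      linarith
    have h2 := mul_le_mul_of_nonneg_left (hc Kc a E β hE hβ ht ζ) hB
    have h3 := hCD (c := C1) (x := E ^ 3) (by linarith) (by positivity)
    have h4 := cb_all Kc a ζ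
    linarith
  · intro ζ hζ
    have h1 := cb_hi Kc a hB hβ0 hβ2 hA hζ
    have h2 := cb_dy Kc a hE (by linarith) hr hr1 (fun j => (ht _ (by positivity)).trans
      (mul_le_mul_of_nonneg_left (Real.rpow_le_rpow_of_exponent_le (one_le_pow₀ one_le_two)
        (by linarith)) hE0)) m
    have h3 : ∑ l ∈ FF Kc with 2 ^ m ≤ |l|, ‖a l‖ * br l ^ (-β / 2) ≤
        ∑ l ∈ FF Kc with 2 ^ m ≤ |l|, ‖a l‖ * br l ^ (-α / 2) :=
      Finset.sum_le_sum fun l _ => mul_le_mul_of_nonneg_left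
        (Real.rpow_le_rpow_of_exponent_le (fx_one_le_br l) (by linarith)) (norm_nonneg _)
    have h4 := mul_le_mul_of_nonneg_left (h3.trans h2) (show 0 ≤ 8 * (C0 * E ^ 2) by positivity)
    have h5 := hCD (c := 24 * (1 - r)⁻¹) (x := E ^ 3 * ((2 : ℝ) ^ m) ^ (-(2 * α - 1) / 2))
      (by linarith) (by positivity)
    linarith
  · intro ζ hζ
    have h1 := cb_hi Kc a hB hβ0 hβ2 hA hζ
    have h2 := cb_piece Kc a (S := (FF Kc).filter fun l => 2 ^ m ≤ |l|) (H := 2 ^ m) (n := 4 * Kc)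
      (by positivity) hβ0
      (fun l hl => ⟨(mem_filter.1 hl).1, by exact_mod_cast (mem_filter.1 hl).2⟩) (by
        have hs : (FF Kc).filter (fun l => 2 ^ m ≤ |l|) ⊆ (FF Kc).erase 0 := fun l hl => by
          refine Finset.mem_erase.2 ⟨?_, (mem_filter.1 hl).1⟩
          rintro rfl
          have := (mem_filter.1 hl).2
          have h0 : (0 : ℤ) < 2 ^ m := by positivity
          simp only [abs_zero] at this
          omega
        have h3 := Finset.card_le_card hs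
        have h0 : (0 : ℤ) ∈ FF Kc := by simp [FF]
        have hc : (FF Kc).card = 2 * Kc + 1 := by
          simp only [FF, Int.card_Icc]
          omega
        rw [Finset.card_erase_of_mem h0, hc] at h3
        exact_mod_cast h3.trans (by omega))
    have e : √(4 * Kc * tail Kc a (2 ^ m)) = 2 * √(Kc * tail Kc a (2 ^ m)) := by
      rw [mul_assoc, Real.sqrt_mul (by norm_num), show (4 : ℝ) = 2 ^ 2 by norm_num,
        Real.sqrt_sq zero_le_two]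
    rw [e] at h2
    have h4 := mul_le_mul_of_nonneg_left h2 (show 0 ≤ 8 * (C0 * E ^ 2) by positivity)
    have h5 := hCD (c := 16)
      (x := E ^ 2 * √(Kc * tail Kc a (2 ^ m)) * ((2 : ℝ) ^ m) ^ (-β / 2)) (by linarith)
      (by positivity)
    linarith

end Pool.Agent.Lib.MMTX
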