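import Pool.Agent.Lib.MP_0dc93f_an.WFour

/-! Adaptive cuts for the Galerkin MMT system: analytic definitions. -/

namespace Pool.Agent.Lib.MMTX

open Finset Complex ComplexConjugate MMTW

noncomputable section

/-- quartic monomial -/
def Bq (a : ℤ → ℂ) (k : Fin 4 → ℤ) : ℂ := a (k 0) * conj (a (k 1)) * a (k 2) * conj (a (k 3))

/-- quartic form with symbol `s` and momentum defect `ζ` -/
def Qf (Kc : ℕ) (a : ℤ → ℂ) (ζ : ℤ) (s : (Fin 4 → ℤ) → ℝ) : ℂ :=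
  ∑ k ∈ F4 Kc with De k = ζ, (s k : ℂ) * Bq a k

open Classical in
/-- absolute quartic sum over the quadruples with the property `p` -/
def QA (Kc : ℕ) (a : ℤ → ℂ) (ζ : ℤ) (p : (Fin 4 → ℤ) → Prop) : ℝ :=
  ∑ k ∈ F4 Kc with De k = ζ ∧ p k, ‖Bq a k‖

/-- product symbol -/
def pr (f : Fin 4 → ℤ → ℝ) (k : Fin 4 → ℤ) : ℝ := ∏ i, f i (k i)

/-- product symbol with four equal factors -/
def p4 (χ : ℤ → ℝ) (k : Fin 4 → ℤ) : ℝ := ∏ i, χ (k i)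

/-- alternating symbol -/
def alt (ρ : Fin 4 → ℤ → ℝ) (k : Fin 4 → ℤ) : ℝ := ρ 1 (k 1) + ρ 3 (k 3) - ρ 0 (k 0) - ρ 2 (k 2)

/-- alternating symbol of one function -/
def al1 (ρ : ℤ → ℝ) (k : Fin 4 → ℤ) : ℝ := alt (fun _ => ρ) k

/-- weighted mass -/
def Rq (Kc : ℕ) (a : ℤ → ℂ) (ρ : ℤ → ℝ) : ℝ := ∑ k ∈ FF Kc, ρ k * ‖a k‖ ^ 2

/-- mass in a ball -/
def mB (Kc : ℕ) (a : ℤ → ℂ) (z : ℤ) (h : ℝ) : ℝ :=
  ∑ k ∈ (FF Kc).filter (fun k : ℤ => |(k : ℝ) - z| ≤ h), ‖a k‖ ^ 2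

/-- bounded density at `z` at the scales from `h0` to `h1` -/
def Gd (Kc : ℕ) (a : ℤ → ℂ) (z : ℤ) (κ h0 h1 : ℝ) : Prop :=
  ∀ h, h0 ≤ h → h ≤ h1 → mB Kc a z h ≤ κ * h

/-- multipliers of size `S` at the scale `u` -/
structure HC (u S : ℝ) (f : ℤ → ℝ) : Prop where
  sup : ∀ k, |f k| ≤ S
  lip : ∀ k, |f (k + 1) - f k| ≤ S / u
  tv : ∀ J : Finset ℤ, ∑ k ∈ J, |f (k + 1) - f k| ≤ S
  v2 : ∀ J : Finset ℤ, ∑ k ∈ J, |f (k + 2) - 2 * f (k + 1) + f k| ≤ S / u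

/-- support in a ball -/
def Supp (f : ℤ → ℝ) (c : ℤ) (r : ℝ) : Prop := ∀ k, f k ≠ 0 → |(k : ℝ) - c| ≤ r

/-- equal to one on a ball -/
def One (f : ℤ → ℝ) (c : ℤ) (r : ℝ) : Prop := ∀ k : ℤ, |(k : ℝ) - c| ≤ r → f k = 1

/-- constant on each of the two half lines beyond `R` -/
def Cst (f : ℤ → ℝ) (R : ℝ) : Prop :=
  ∀ k k' : ℤ, (R ≤ k ∧ R ≤ k') ∨ ((k : ℝ) ≤ -R ∧ (k' : ℝ) ≤ -R) → f k = f k'

/-- trapezoid: one on the ball of radius `D`, zero off the ball of radius `2 D` -/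
def trap (z : ℤ) (D : ℝ) (k : ℤ) : ℝ := max 0 (min 1 (2 - |(k : ℝ) - z| / D))

/-- ramp with kink `z` and direction `s` -/
def rmp (s z k : ℤ) : ℝ := max 0 ((s : ℝ) * ((k : ℝ) - z))

/-- Poisson kernel -/
def Pk (t x : ℝ) : ℝ := Real.sinh t / (Real.cosh t - Real.cos x)

/-- average over the circle -/
def av (g : ℝ → ℝ) : ℝ := (2 * Real.pi)⁻¹ * ∫ x in (0 : ℝ)..(2 * Real.pi), g x

/-- average over the circle -/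
def avc (g : ℝ → ℂ) : ℂ := ((2 * Real.pi : ℝ) : ℂ)⁻¹ * ∫ x in (0 : ℝ)..(2 * Real.pi), g x

/-- convolution with the Poisson kernel -/
def Pc (t : ℝ) (g : ℝ → ℝ) (x : ℝ) : ℝ := av fun y => Pk t y * g (x - y)

/-- the kernel of `f` is below `A` times a Poisson kernel -/
def Kern (f : ℤ → ℝ) (A t : ℝ) : Prop :=
  ∃ J : Finset ℤ, (∀ k, f k ≠ 0 → k ∈ J) ∧ ∀ x, ‖∑ k ∈ J, (f k : ℂ) * ex x k‖ ≤ A * Pk t x

/-- `g` is a trigonometric polynomial with the coefficients `c` -/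
def TP (g : ℝ → ℝ) (J : Finset ℤ) (c : ℤ → ℂ) : Prop := ∀ x, (g x : ℂ) = ∑ k ∈ J, c k * ex x k

/-- the multiplier `f` applied to the state -/
def Uf (Kc : ℕ) (a : ℤ → ℂ) (f : ℤ → ℝ) (x : ℝ) : ℂ := ∑ k ∈ FF Kc, (f k : ℂ) * a k * ex x k

/-- bilinear integral -/
def bi (Kc : ℕ) (a : ℤ → ℂ) (f g : ℤ → ℝ) : ℝ :=
  av fun x => ‖Uf Kc a f x‖ ^ 2 * ‖Uf Kc a g x‖ ^ 2

/-- a window: centre and half width -/
structure Win where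
  z : ℤ
  w : ℕ

/-- the shifted window -/
def Win.sh (P : Win) (p : ℤ) : Win := ⟨P.z + p, P.w⟩

/-- symbol of the windowed density -/
def Gw (P : Win) (k ζ : ℤ) : ℝ := max 0 ((P.w : ℝ) - max |(k : ℝ) - P.z| |(k : ℝ) + ζ - P.z|)

/-- Fourier coefficients of the windowed density -/
def mh (Kc : ℕ) (a : ℤ → ℂ) (P : Win) (ζ : ℤ) : ℂ :=
  (P.w : ℂ)⁻¹ * ∑ k ∈ FF Kc with k + ζ ∈ FF Kc, (Gw P k ζ : ℂ) * (a (k + ζ) * conj (a k))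

/-- the windowed density -/
def mP (Kc : ℕ) (a : ℤ → ℂ) (P : Win) (x : ℝ) : ℝ :=
  (P.w : ℝ)⁻¹ * ∑ r ∈ Icc 1 P.w, ‖Uf Kc a (fun k => if |k - P.z| < r then 1 else 0) x‖ ^ 2

/-- mass of a window -/
def mW (Kc : ℕ) (a : ℤ → ℂ) (P : Win) : ℝ := mB Kc a P.z P.w

/-- the positive bilinear term -/
def XX (Kc : ℕ) (a : ℤ → ℂ) (t : ℝ) (P Q : Win) : ℝ :=
  av fun x => mP Kc a P x * Pc t (mP Kc a Q) x

/-- coefficients of the Morawetz weight -/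
def cf (t : ℝ) (ζ : ℤ) : ℂ := (Real.exp (-t * |(ζ : ℝ)|) : ℝ) / (I * ζ)

/-- the Morawetz functional -/
def Mo (Kc : ℕ) (a : ℤ → ℂ) (t : ℝ) (P Q : Win) : ℝ :=
  (∑ ζ ∈ (FF (2 * Kc)).erase 0, cf t ζ * (mh Kc a P ζ * conj (mh Kc a Q ζ))).re

/-- linear part of the derivative of `mh` -/
def lh (α : ℝ) (Kc : ℕ) (a : ℤ → ℂ) (P : Win) (ζ : ℤ) : ℂ :=
  (P.w : ℂ)⁻¹ * ∑ k ∈ FF Kc with k + ζ ∈ FF Kc,
    (Gw P k ζ : ℂ) * (-I * ((om α (k + ζ) - om α k : ℝ) : ℂ)) * (a (k + ζ) * conj (a k))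

/-- linear part of the derivative of the Morawetz functional -/
def LinT (α : ℝ) (Kc : ℕ) (a : ℤ → ℂ) (t : ℝ) (P Q : Win) : ℝ :=
  (∑ ζ ∈ (FF (2 * Kc)).erase 0, cf t ζ *
    (lh α Kc a P ζ * conj (mh Kc a Q ζ) + mh Kc a P ζ * conj (lh α Kc a Q ζ))).re

/-- symbol of the source -/
def sz (P : Win) (ζ : ℤ) (k : Fin 4 → ℤ) : ℝ :=
  (Gw P (k 1) ζ + Gw P (k 3) ζ - Gw P (k 0 - ζ) ζ - Gw P (k 2 - ζ) ζ) / 2

/-- the three ramps of the symbol `Gw` -/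
def gk (P : Win) (i : Fin 3) (ζ k : ℤ) : ℝ :=
  if i = 0 then max 0 ((k : ℝ) + min (ζ : ℝ) 0 - (P.z - P.w))
  else if i = 1 then -max 0 (2 * (k : ℝ) + ζ - 2 * P.z)
  else max 0 ((k : ℝ) + max (ζ : ℝ) 0 - (P.z + P.w))

/-- the three kinks of a window -/
def Win.kz (P : Win) (i : Fin 3) : ℤ := P.z + (((i : ℕ) : ℤ) - 1) * P.w

/-- the part of the source symbol which belongs to one kink -/
def sk (P : Win) (i : Fin 3) (ζ : ℤ) (k : Fin 4 → ℤ) : ℝ :=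
  (gk P i ζ (k 1) + gk P i ζ (k 3) - gk P i ζ (k 0 - ζ) - gk P i ζ (k 2 - ζ)) / 2

/-- the weighted sum over the defects of quartic forms against the window `Q` -/
def SQ (Kc : ℕ) (a : ℤ → ℂ) (t : ℝ) (Q : Win) (s : ℤ → (Fin 4 → ℤ) → ℝ) : ℂ :=
  ∑ ζ ∈ (FF (2 * Kc)).erase 0, cf t ζ * (Qf Kc a ζ (s ζ) * conj (mh Kc a Q ζ))

/-- the source of the window `P` against the window `Q` -/
def Src (Kc : ℕ) (a : ℤ → ℂ) (t : ℝ) (P Q : Win) : ℝ := (-I / P.w * SQ Kc a t Q (sz P)).re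

/-- logarithmic factor -/
def lg (w : ℝ) : ℝ := 2 * (1 + Real.log (2 * w))

/-- `f` is a multiplier of size `S` on a cell of radius `u` in the middle of the window `P` -/
structure Cel (f : ℤ → ℝ) (S u : ℝ) (P : Win) : Prop where
  hc : HC u S f
  cen : ∃ c : ℤ, Supp f c u
  sub : Supp f P.z (P.w / 2)
  u1 : 1 ≤ u
  w1 : 1 ≤ P.w

/-- the cells of the grid with centre `y` and unit `u` that lie to the right of `x` -/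
def psiR (L u : ℕ) (y : ℤ) (x : ℝ) (k : ℤ) : ℝ :=
  ∑ n ∈ (Icc (-(4 * L : ℤ)) (4 * L)).filter (fun n : ℤ => x ≤ (y : ℝ) + ((n : ℝ) - 1) * u),
    hat u (k - y - n * u)

/-- a local grid of windows with small bilinear terms -/
def LocCov (Kc : ℕ) (a : ℤ → ℂ) (L u : ℕ) (y : ℤ) (Ξ : ℝ) : Prop :=
  ∃ Pw : ℤ → Win, (∀ n : ℤ, |n| ≤ 4 * L → 8 * |(Pw n).z - (y + n * u)| ≤ u ∧ 4 * u ≤ (Pw n).w) ∧
    ∀ n n' : ℤ, |n| ≤ 4 * L → |n'| ≤ 4 * L → L ≤ 8 * |n - n'| →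
      u * XX Kc a ((L : ℝ) / u) (Pw n) (Pw n') ≤ Ξ

/-- local grids around `z` at all units -/
def Cov (Kc : ℕ) (a : ℤ → ℂ) (L : ℕ) (z : ℤ) (j1 j0 : ℕ) (Ξ : ℝ) : Prop :=
  ∀ j, j1 < j → j ≤ j0 → ∃ y : ℤ, |z - y| ≤ L * 2 ^ j ∧ LocCov Kc a L (2 ^ j) y Ξ

/-- low pass filter -/
def lo (m : ℕ) : ℤ → ℝ := trap 0 (2 ^ m)

/-- index set of the top cells -/
def Rng (l m0 mH m : ℕ) (n : ℤ) : Prop :=
  m0 ≤ m ∧ m ≤ mH ∧ 2 ^ (2 * l) ≤ 2 * |n| ∧ |n| ≤ 2 * 2 ^ (2 * l)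

/-- the top grid of windows with small bilinear terms -/
def TopCov (Kc : ℕ) (a : ℤ → ℂ) (l m0 ms mH m : ℕ) (Ξl Ξh : ℝ) : Prop :=
  ∃ Pt : ℕ → ℤ → Win, (∀ m1 n1, Rng l m0 mH m1 n1 →
      8 * |(Pt m1 n1).z - n1 * 2 ^ (m1 - 2 * l)| ≤ 2 ^ (m1 - 2 * l) ∧
        4 * 2 ^ (m1 - 2 * l) ≤ (Pt m1 n1).w) ∧
    ∀ m1 n1 m2 n2, Rng l m0 mH m1 n1 → Rng l m0 mH m2 n2 →
      2 ^ max m1 m2 ≤ 64 * 2 ^ l * |n1 * 2 ^ (m1 - 2 * l) - n2 * 2 ^ (m2 - 2 * l)| →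
      m ≤ max m1 m2 + l + 5 →
      XX Kc a (2 ^ l / 2 ^ (min m1 m2 - 2 * l)) (Pt m1 n1) (Pt m2 n2) ≤ Ξl ∧
        (ms < m1 → ms < m2 → XX Kc a (2 ^ l / 2 ^ (min m1 m2 - 2 * l)) (Pt m1 n1) (Pt m2 n2) ≤ Ξh)

/-- the part with no high slot and at least two low slots -/
def two (ms mH : ℕ) (k : Fin 4 → ℤ) : ℝ :=
  ∑ A : Finset (Fin 4) with 2 ≤ A.card,
    ∏ i, if i ∈ A then lo ms (k i) else lo mH (k i) - lo ms (k i)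

/-- the bound of the far step for a symbol of size one -/
def farB (Kc : ℕ) (a : ℤ → ℂ) (l m0 mH m : ℕ) (E εH Ξl Ξh : ℝ) : ℝ :=
  4 * εH + 2 ^ 80 * (((mH : ℝ) + 1) * 8 * 2 ^ (2 * l)) ^ 4 * 2 ^ l *
    (√(Ξl * Ξh) + √(2 ^ m0 * E * tail Kc a (2 ^ m / 1024) * Ξh))

/-- bound for the part with a high slot -/
def HiB (Kc : ℕ) (a : ℤ → ℂ) (mH : ℕ) (εH : ℝ) : Prop :=
  ∀ ζ : ℤ, 2 * |ζ| ≤ 2 ^ mH → QA Kc a ζ (fun k => ∃ i, 2 ^ mH ≤ |k i|) ≤ εH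

/-- even ramp -/
def rE (y k : ℤ) : ℝ := max 0 (|(k : ℝ)| - y)

/-- symbol of the creation of a pair by two low frequencies -/
def nfs (ms mH : ℕ) (y0 y : ℤ) (k : Fin 4 → ℤ) : ℝ :=
  (rE y (k 0) - rE y0 (k 0) + (rE y (k 2) - rE y0 (k 2))) *
    (lo ms (k 1) * lo ms (k 3) * ((lo mH (k 0) - lo ms (k 0)) * (lo mH (k 2) - lo ms (k 2))))

/-- the normal form term -/
def NFv (α : ℝ) (Kc : ℕ) (a : ℤ → ℂ) (ms mH : ℕ) (y0 y : ℤ) : ℝ :=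
  (Qf Kc a 0 fun k => nfs ms mH y0 y k / Ph α k).re

/-- the Galerkin vector field -/
def Vf (α : ℝ) (Kc : ℕ) (a : ℤ → ℂ) (k : ℤ) : ℂ := -I * (om α k * a k + NL Kc a k)

/-- derivative of the normal form term -/
def NFd (α : ℝ) (Kc : ℕ) (a : ℤ → ℂ) (ms mH : ℕ) (y0 y : ℤ) : ℝ :=
  (∑ k ∈ F4 Kc with De k = 0, ((nfs ms mH y0 y k / Ph α k : ℝ) : ℂ) *
    (Vf α Kc a (k 0) * conj (a (k 1)) * a (k 2) * conj (a (k 3)) +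
      a (k 0) * conj (Vf α Kc a (k 1)) * a (k 2) * conj (a (k 3)) +
      a (k 0) * conj (a (k 1)) * Vf α Kc a (k 2) * conj (a (k 3)) +
      a (k 0) * conj (a (k 1)) * a (k 2) * conj (Vf α Kc a (k 3)))).re

end

end Pool.Agent.Lib.MMTX
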