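import Pool.Agent.Lib.MP_0dc93f_an.X.Lin1
import Pool.Agent.Lib.MP_0dc93f_an.X.Sys

/-! The linear part of the derivative of the Morawetz functional. -/

namespace Pool.Agent.Lib.MMTX

open Finset Complex ComplexConjugate MMTW

variable (Kc : ℕ) (a : ℤ → ℂ)

lemma ln_lh (α : ℝ) (P : Win) {ζ : ℤ} (hζ : ζ ≠ 0) :
    lh α Kc a P ζ = -(I * ζ) * (vel α P.z * mh Kc a P ζ +
      lnH Kc a P (fun l k => (om α l - om α k) / ((l : ℝ) - k) - vel α P.z) ζ) := by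
  have z0 : (ζ : ℂ) ≠ 0 := by exact_mod_cast hζ
  unfold lh mh lnH
  rw [mul_left_comm (vel α P.z : ℂ), ← mul_add, mul_left_comm (-(I * ζ))]
  congr 1
  rw [Finset.mul_sum, ← Finset.sum_add_distrib, Finset.mul_sum]
  refine Finset.sum_congr rfl fun k _ => ?_
  push_cast
  rw [add_sub_cancel_left]
  field_simp
  ring

/-- the dispersive error of the window `P` against the window `Q` -/
theorem lin_err {α t : ℝ} (h0 : 0 < α) (h1 : α ≤ 1) (ht : 0 < t) (ht1 : t ≤ 1) (P Q : Win)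
    (hw : 1 ≤ t * P.w) (hz : 2 ^ 10 * (P.w : ℤ) ≤ |P.z|) :
    ‖∑ ζ ∈ (FF (2 * Kc)).erase 0, cf t ζ *
      ((lh α Kc a P ζ + I * ζ * vel α P.z * mh Kc a P ζ) * conj (mh Kc a Q ζ))‖ ≤
      2 ^ 30 * (P.w * |(P.z : ℝ)| ^ (α - 2)) * (XX Kc a t P Q + mW Kc a P * mW Kc a Q) := by
  have e : ∑ ζ ∈ (FF (2 * Kc)).erase 0, cf t ζ *
      ((lh α Kc a P ζ + I * ζ * vel α P.z * mh Kc a P ζ) * conj (mh Kc a Q ζ)) =
      -lnT Kc a t P Q fun l k => (om α l - om α k) / ((l : ℝ) - k) - vel α P.z := by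
    unfold lnT
    rw [← Finset.sum_neg_distrib]
    refine Finset.sum_congr rfl fun ζ hζ => ?_
    have z0 : (ζ : ℂ) ≠ 0 := by exact_mod_cast (Finset.mem_erase.1 hζ).1
    rw [ln_lh Kc a α P (Finset.mem_erase.1 hζ).1]
    unfold cf
    field_simp
    ring
  rw [e, norm_neg]
  refine (ln_err Kc a h0 h1 ht ht1 Q hz hw).trans (mul_le_mul_of_nonneg_right
    (mul_le_mul_of_nonneg_right (by norm_num) (by positivity)) ?_)
  exact add_nonneg (XX_nonneg Kc a ht P Q) (mul_nonneg (mW_nonneg Kc a P) (mW_nonneg Kc a Q))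

/-- one half of the linear term -/
lemma ln_half (α : ℝ) {t : ℝ} (ht : 0 < t) (P Q : Win) :
    ∑ ζ ∈ (FF (2 * Kc)).erase 0, cf t ζ * (lh α Kc a P ζ * conj (mh Kc a Q ζ)) =
      -(vel α P.z * (XX Kc a t P Q - mh Kc a P 0 * conj (mh Kc a Q 0))) -
        lnT Kc a t P Q fun l k => (om α l - om α k) / ((l : ℝ) - k) - vel α P.z := by
  have e := Finset.sum_erase_eq_sub (zero_mem_FF (2 * Kc)) (f := fun ζ : ℤ =>
    ((Real.exp (-t * |(ζ : ℝ)|) : ℝ) : ℂ) * (mh Kc a P ζ * conj (mh Kc a Q ζ)))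
  simp only [Int.cast_zero, abs_zero, mul_zero, Real.exp_zero, ofReal_one, one_mul] at e
  rw [XX_eq Kc a ht, ← e]
  unfold lnT
  rw [Finset.mul_sum, ← Finset.sum_neg_distrib, ← Finset.sum_sub_distrib]
  refine Finset.sum_congr rfl fun ζ hζ => ?_
  have z0 : (ζ : ℂ) ≠ 0 := by exact_mod_cast (Finset.mem_erase.1 hζ).1
  rw [ln_lh Kc a α P (Finset.mem_erase.1 hζ).1]
  unfold cf
  field_simp
  ring

/-- (LIN) the linear term is the velocity gap times the positive term, up to a small error -/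
theorem lin_bd {α t : ℝ} (h0 : 0 < α) (h1 : α ≤ 1) (ht : 0 < t) (t1 : t ≤ 1) {P Q : Win}
    (fP : 2 ^ 10 * (P.w : ℤ) ≤ |P.z|) (fQ : 2 ^ 10 * (Q.w : ℤ) ≤ |Q.z|) (wP : 1 ≤ t * P.w)
    (wQ : 1 ≤ t * Q.w) :
    |LinT α Kc a t P Q + (vel α P.z - vel α Q.z) *
        (XX Kc a t P Q - (mh Kc a P 0 * conj (mh Kc a Q 0)).re)| ≤
      2 ^ 18 * (P.w * |(P.z : ℝ)| ^ (α - 2) + Q.w * |(Q.z : ℝ)| ^ (α - 2)) *
        (XX Kc a t P Q + mW Kc a P * mW Kc a Q) := by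
  have b1 := (abs_re_le_norm _).trans (ln_err Kc a h0 h1 ht t1 Q fP wP)
  have b2 := (abs_re_le_norm _).trans (ln_err Kc a h0 h1 ht t1 P fQ wQ)
  have e1 := congrArg re (ln_half Kc a α ht P Q)
  have e2 := congrArg re (ln_half Kc a α ht Q P)
  have e3 : (∑ ζ ∈ (FF (2 * Kc)).erase 0, cf t ζ * (mh Kc a P ζ * conj (lh α Kc a Q ζ))).re =
      -(∑ ζ ∈ (FF (2 * Kc)).erase 0, cf t ζ * (lh α Kc a Q ζ * conj (mh Kc a P ζ))).re := by
    rw [← conj_re, map_sum, ← neg_re, ← Finset.sum_neg_distrib]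
    congr 1
    refine Finset.sum_congr rfl fun ζ _ => ?_
    rw [map_mul, map_mul, conj_cf, conj_conj]
    ring
  have e4 : (mh Kc a Q 0 * conj (mh Kc a P 0)).re = (mh Kc a P 0 * conj (mh Kc a Q 0)).re := by
    rw [← conj_re, map_mul, conj_conj, mul_comm]
  rw [sub_re, neg_re, re_ofReal_mul, sub_re, ofReal_re] at e1 e2
  rw [e4, ← XX_symm Kc a ht P Q] at e2
  rw [← XX_symm Kc a ht P Q, mul_comm (mW Kc a Q)] at b2
  unfold LinT
  simp only [mul_add (cf _ _), Finset.sum_add_distrib, add_re]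
  rw [e3, e1, e2]
  refine abs_le.2 ⟨?_, ?_⟩ <;> linarith [abs_le.1 b1, abs_le.1 b2]

lemma ln_vel {α : ℝ} (h0 : 0 < α) (h1 : α ≤ 1) {z : ℤ} (hz : 1 ≤ |z|) : |vel α z| ≤ 1 := by
  have z1 : (1 : ℝ) ≤ |(z : ℝ)| := by exact_mod_cast hz
  have b1 : |(z : ℝ)| ^ (α - 1) ≤ 1 := Real.rpow_le_one_of_one_le_of_nonpos z1 (by linarith)
  have b0 : 0 ≤ |(z : ℝ)| ^ (α - 1) := by positivity
  have b2 : |(z.sign : ℝ)| ≤ 1 := by
    rcases Int.sign_trichotomy z with h | h | h <;> simp [h]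
  unfold vel
  rw [abs_mul, abs_mul, abs_of_pos h0, abs_of_nonneg b0]
  exact mul_le_one₀ (mul_le_one₀ h1 (abs_nonneg _) b2) b0 b1

theorem lin_le {α t : ℝ} (h0 : 0 < α) (h1 : α ≤ 1) (ht : 0 < t) (ht1 : t ≤ 1) (P Q : Win)
    (hP : 1 ≤ t * P.w) (hQ : 1 ≤ t * Q.w) (hzP : 2 ^ 10 * (P.w : ℤ) ≤ |P.z|)
    (hzQ : 2 ^ 10 * (Q.w : ℤ) ≤ |Q.z|) :
    LinT α Kc a t P Q ≤ -(vel α P.z - vel α Q.z) * XX Kc a t P Q + 2 * (mW Kc a P * mW Kc a Q) +
      2 ^ 30 * (P.w * |(P.z : ℝ)| ^ (α - 2) + Q.w * |(Q.z : ℝ)| ^ (α - 2)) *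
        (XX Kc a t P Q + mW Kc a P * mW Kc a Q) := by
  have b := (abs_le.1 (lin_bd Kc a h0 h1 ht ht1 hzP hzQ hP hQ)).2
  have wP : P.w ≠ 0 := fun h => by simp [h] at hP; linarith
  have wQ : Q.w ≠ 0 := fun h => by simp [h] at hQ; linarith
  have v1 := ln_vel h0 h1 (z := P.z) (by omega)
  have v2 := ln_vel h0 h1 (z := Q.z) (by omega)
  have v3 : |vel α P.z - vel α Q.z| ≤ 2 := (abs_sub _ _).trans (by linarith)
  have X0 := XX_nonneg Kc a ht P Q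
  have M0 := mul_nonneg (mW_nonneg Kc a P) (mW_nonneg Kc a Q)
  have m1 : |(mh Kc a P 0 * conj (mh Kc a Q 0)).re| ≤ mW Kc a P * mW Kc a Q := by
    refine (abs_re_le_norm _).trans ?_
    rw [norm_mul, Complex.norm_conj]
    exact mul_le_mul (mh_norm _ _ _ _) (mh_norm _ _ _ _) (norm_nonneg _) (mW_nonneg _ _ _)
  have m2 : (vel α P.z - vel α Q.z) * (mh Kc a P 0 * conj (mh Kc a Q 0)).re ≤
      2 * (mW Kc a P * mW Kc a Q) := by
    refine (le_abs_self _).trans ?_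
    rw [abs_mul]
    exact mul_le_mul v3 m1 (abs_nonneg _) (by norm_num)
  have e0 : 0 ≤ P.w * |(P.z : ℝ)| ^ (α - 2) + Q.w * |(Q.z : ℝ)| ^ (α - 2) := by positivity
  have e1 := mul_nonneg e0 (add_nonneg X0 M0)
  linarith

/-- (LIN) the gain of an absorbing pair -/
theorem lin_pair {p : Par} (hp : p.OK) {a : ℤ → ℂ} {Y t W Z : ℝ} {P Q : Win} (ht : 0 < t)
    (t1 : t ≤ 1) (hW : 0 ≤ W) (hP : p.WinOK t P) (hQ : p.WinOK t Q)
    (h : p.PairOK a Y t W Z P Q) :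
    W * LinT p.α p.Kc a t P Q ≤ -(1 - 1 / 2 ^ 14) * Z * XX p.Kc a t P Q + 4 * p.S0 / p.B ^ 4 := by
  have h0 : 0 < p.α := by linarith [hp.a1]
  have L1 : (1 : ℝ) ≤ p.L := hp.e1.trans hp.e2
  have B1 : 1 ≤ p.B := (one_le_pow₀ L1).trans hp.bB
  have b := (abs_le.1 (lin_bd p.Kc a h0 hp.a2.le ht t1 hP.far hQ.far (by linarith [hP.tw])
    (by linarith [hQ.tw]))).2
  have v1 := abs_le.1 (ln_vel h0 hp.a2.le (z := P.z) (by have := hP.far; have := hP.w1; omega))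
  have v2 := abs_le.1 (ln_vel h0 hp.a2.le (z := Q.z) (by have := hQ.far; have := hQ.w1; omega))
  have X0 := XX_nonneg p.Kc a ht P Q
  have M0 := mul_nonneg (mW_nonneg p.Kc a P) (mW_nonneg p.Kc a Q)
  have m1 : (mh p.Kc a P 0 * conj (mh p.Kc a Q 0)).re ≤ mW p.Kc a P * mW p.Kc a Q := by
    refine (re_le_norm _).trans ?_
    rw [norm_mul, Complex.norm_conj]
    exact mul_le_mul (mh_norm _ _ _ _) (mh_norm _ _ _ _) (norm_nonneg _) (mW_nonneg _ _ _)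
  have h1 := h.vel
  have h2 := h.err
  have h3 : W * (mW p.Kc a P * mW p.Kc a Q) ≤ p.S0 / p.B ^ 4 :=
    (le_div_iff₀ (by positivity)).2 h.val
  have e0 : 0 ≤ P.w * |(P.z : ℝ)| ^ (p.α - 2) + Q.w * |(Q.z : ℝ)| ^ (p.α - 2) := by positivity
  have v3 : vel p.α P.z - vel p.α Q.z ≤ 2 := by linarith [v1.2, v2.1]
  rw [mul_div_assoc]
  generalize P.w * |(P.z : ℝ)| ^ (p.α - 2) + Q.w * |(Q.z : ℝ)| ^ (p.α - 2) = e at *
  generalize vel p.α P.z - vel p.α Q.z = v at h1 b v3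
  generalize (mh p.Kc a P 0 * conj (mh p.Kc a Q 0)).re = m at *
  generalize mW p.Kc a P * mW p.Kc a Q = M at *
  generalize XX p.Kc a t P Q = X at *
  have Z0 : 0 ≤ Z := le_trans (by positivity) h2
  have c1 := mul_le_mul_of_nonneg_left b hW
  have c2 := mul_le_mul_of_nonneg_left v3 hW
  have c3 := mul_le_mul_of_nonneg_right h1 X0
  have c4 := mul_le_mul_of_nonneg_left m1 (Z0.trans h1)
  have c5 := mul_le_mul_of_nonneg_right c2 M0
  have c6 := mul_le_mul_of_nonneg_right h2 (add_nonneg X0 M0)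
  have c7 := mul_le_mul_of_nonneg_right h1 M0
  have c8 := mul_nonneg hW M0
  linarith

end Pool.Agent.Lib.MMTX
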