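import Pool.Agent.Lib.MP_0dc93f_an.X.DerP1
import Pool.Agent.Lib.MP_0dc93f_an.X.Lin

/-! The absorbers in the derivative of the functional. -/

namespace Pool.Agent.Lib.MMTX

open Finset Complex ComplexConjugate MMTW

variable {p : Par} {a : ℤ → ℂ} {Y t W Z : ℝ} {P Q : Win}

theorem item_pair (hp : p.OK) (ha : p.Amb a) (hY : 0 ≤ Y) (t0 : 0 < t) (t1 : t ≤ 1) (hW : 0 ≤ W)
    (hZ : 0 ≤ Z) (hP : p.WinOK t P) (hQ : p.WinOK t Q)
    (tp : ∀ m, p.m0 ≤ m → m ≤ p.mH → TopCov p.Kc a p.l p.m0 (p.m0 + 5) p.mH m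
      (Y * p.B * p.ρ / p.gg m) (Y * p.B * p.ρ / p.gg m)) (h : p.PairOK a Y t W Z P Q) :
    W * (LinT p.α p.Kc a t P Q + Src p.Kc a t P Q - Src p.Kc a t Q P) ≤
      -(Z * XX p.Kc a t P Q) / 2 + 3 * ((Y + p.S0) / p.B ^ 3) := by
  have a1 := lin_pair hp t0 t1 hW hP hQ h
  have a2 := item_src hp ha hY t0 t1 hW hP hQ tp h.s1
  have a3 := item_src hp ha hY t0 t1 hW hQ hP tp h.s2
  have a4 := mul_le_mul_of_nonneg_left (le_abs_self (Src p.Kc a t P Q)) hW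
  have a5 := mul_le_mul_of_nonneg_left (neg_le_abs (Src p.Kc a t Q P)) hW
  have a6 : 0 ≤ Z * XX p.Kc a t P Q := mul_nonneg hZ (XX_nonneg _ _ t0 P Q)
  have hB := hp.B_pos
  have hB4 : 4 ≤ p.B := le_trans (by norm_num) hp.B_ge
  have hS : 0 ≤ p.S0 := by
    have := hp.S0_ge2
    by_contra hc
    have := mul_neg_of_neg_of_pos (not_le.1 hc) (show (0 : ℝ) < 2 ^ p.mN by positivity)
    linarith
  have a7 : 4 * p.S0 / p.B ^ 4 ≤ (Y + p.S0) / p.B ^ 3 := by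
    rw [div_le_div_iff₀ (by positivity) (by positivity), pow_succ p.B 3]
    have b1 : 4 * p.S0 ≤ (Y + p.S0) * p.B :=
      le_trans (le_of_eq (mul_comm _ _)) (mul_le_mul (by linarith) hB4 (by norm_num) (by linarith))
    calc 4 * p.S0 * p.B ^ 3 ≤ (Y + p.S0) * p.B * p.B ^ 3 :=
          mul_le_mul_of_nonneg_right b1 (by positivity)
      _ = (Y + p.S0) * (p.B ^ 3 * p.B) := by ring
  rw [mul_sub, mul_add]
  rw [mul_assoc] at a1
  linarith

end Pool.Agent.Lib.MMTX
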