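import Mathlib

/-! The difference of two maxima of finitely many differentiable functions. -/

namespace Pool.Agent.Lib.MMTX

open Filter Topology

theorem dini_sup {C : Type} [Fintype C] [Nonempty C] (u : C → ℝ) {c : C} (h : ∀ e, u e ≤ u c) :
    Finset.univ.sup' Finset.univ_nonempty u = u c :=
  le_antisymm (Finset.sup'_le _ _ fun e _ => h e) (Finset.le_sup' u (Finset.mem_univ c))

theorem dini {C : Type} [Fintype C] [Nonempty C] (f g f' g' : C → ℝ → ℝ) {T δ : ℝ} (hT : 0 ≤ T)
    (hf : ∀ c t, HasDerivAt (f c) (f' c t) t) (hg : ∀ c t, HasDerivAt (g c) (g' c t) t)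
    (h : ∀ t ∈ Set.Icc 0 T, ∀ c d, (∀ e, f e t ≤ f c t) → (∀ e, g e t ≤ g d t) →
      f' c t - g' d t ≤ δ) {c0 d0 c1 d1 : C} (h0 : ∀ e, f e 0 ≤ f c0 0) (k0 : ∀ e, g e 0 ≤ g d0 0)
    (h1 : ∀ e, f e T ≤ f c1 T) (k1 : ∀ e, g e T ≤ g d1 T) :
    f c1 T - g d1 T ≤ f c0 0 - g d0 0 + δ * T := by
  set φ : ℝ → ℝ := fun t => Finset.univ.sup' Finset.univ_nonempty (fun c => f c t) -
    Finset.univ.sup' Finset.univ_nonempty (fun c => g c t) with hφ
  have cf : ∀ c, Continuous (f c) := fun c =>
    continuous_iff_continuousAt.2 fun t => (hf c t).continuousAt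
  have cg : ∀ c, Continuous (g c) := fun c =>
    continuous_iff_continuousAt.2 fun t => (hg c t).continuousAt
  have cφ : Continuous φ :=
    (Continuous.finset_sup'_apply _ fun c _ => cf c).sub
      (Continuous.finset_sup'_apply _ fun c _ => cg c)
  have val : ∀ t c d, (∀ e, f e t ≤ f c t) → (∀ e, g e t ≤ g d t) → φ t = f c t - g d t := by
    intro t c d a b
    simp only [hφ]
    rw [dini_sup (fun c => f c t) a, dini_sup (fun c => g c t) b]
  have key := image_le_of_liminf_slope_right_le_deriv_boundary (f := φ) (a := 0) (b := T)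
    cφ.continuousOn (B := fun t => φ 0 + δ * t) (B' := fun _ => δ) (by simp) (by fun_prop)
    (fun x _ => by
      simpa using (((hasDerivAt_id x).const_mul δ).const_add (φ 0)).hasDerivWithinAt)
    (fun x hx r hr => by
      obtain ⟨d, hd⟩ := Finite.exists_max fun c => g c x
      obtain ⟨m, hm⟩ := Finite.exists_max fun c => f c x
      have hev : ∀ c, ∀ᶠ z in 𝓝[>] x, f c z - g d z - φ x < r * (z - x) := by
        intro c
        by_cases hc : ∀ e, f e x ≤ f c x
        · have hD := (hf c x).sub (hg d x)
          have hlt : f' c x - g' d x < r := (h x ⟨hx.1, hx.2.le⟩ c d hc hd).trans_lt hr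
          have hs := (hasDerivAt_iff_tendsto_slope_left_right.1 hD).2
          filter_upwards [hs.eventually (gt_mem_nhds hlt), self_mem_nhdsWithin] with z hz hz'
          have hp : 0 < z - x := sub_pos.2 hz'
          rw [slope_def_field, div_lt_iff₀ hp] at hz
          rw [val x c d hc hd]
          exact hz
        · push Not at hc
          obtain ⟨e, he⟩ := hc
          have hlt : f c x - g d x - φ x - r * (x - x) < 0 := by
            rw [val x m d hm hd]
            have := hm e
            simp only [sub_self, mul_zero]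
            linarith
          have hc : Continuous fun z => f c z - g d z - φ x - r * (z - x) :=
            (((cf c).sub (cg d)).sub continuous_const).sub (by fun_prop)
          have := (hc.tendsto x).eventually (gt_mem_nhds hlt)
          filter_upwards [mem_nhdsWithin_of_mem_nhds this] with z hz
          linarith
      refine Eventually.frequently ?_
      filter_upwards [eventually_all.2 hev, self_mem_nhdsWithin] with z hz hz'
      have hp : 0 < z - x := sub_pos.2 hz'
      obtain ⟨c, hc⟩ := Finite.exists_max fun c => f c z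
      obtain ⟨e, he⟩ := Finite.exists_max fun c => g c z
      rw [slope_def_field, div_lt_iff₀ hp, val z c e hc he]
      have := hz c
      have := he d
      linarith)
    (x := T) ⟨hT, le_rfl⟩
  rwa [val T c1 d1 h1 k1, val 0 c0 d0 h0 k0] at key

end Pool.Agent.Lib.MMTX
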