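import Pool.Agent.Lib.MP_0dc93f_an.X.DerK
import Pool.Agent.Lib.MP_0dc93f_an.X.DerP
import Pool.Agent.Lib.MP_0dc93f_an.X.Mor
import Pool.Agent.Lib.MP_0dc93f_an.X.Dini

/-! The derivative of the difference of the two functionals, and its integration. -/

namespace Pool.Agent.Lib.MMTX

open Finset Complex ComplexConjugate MMTW

variable {p : Par} {S : Sys}

theorem der_Y (hS : S.Stat p) (b : Bool) (c : S.C) (a : ℤ → ℂ) : 0 ≤ S.Y p b c a :=
  sum_nonneg fun q _ => mul_nonneg (hS.Z0 q) (XX_nonneg _ _ (hS.t0 q) _ _)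

theorem der_pairs (hp : p.OK) (hS : S.Stat p) {a : ℤ → ℂ} (ha : p.Amb a) {Y : ℝ} (hY : 0 ≤ Y)
    {b : Bool} {c : S.C} (h : S.Nice p b c a Y) :
    ∑ q, S.W q * (LinT p.α p.Kc a (S.t q) (S.P1 b c q) (S.P2 b c q) +
      Src p.Kc a (S.t q) (S.P1 b c q) (S.P2 b c q) -
      Src p.Kc a (S.t q) (S.P2 b c q) (S.P1 b c q)) ≤
      -S.Y p b c a / 2 + p.B * (3 * ((Y + p.S0) / p.B ^ 3)) := by
  have hB : 0 < p.B := lt_of_lt_of_le (by positivity) hp.B_ge
  have h0 := hp.S0_pos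
  refine (sum_le_sum fun q _ => item_pair hp ha hY (hS.t0 q) (hS.t1 q) (hS.W0 q) (hS.Z0 q)
    (hS.p1 b c q) (hS.p2 b c q) h.tp (h.pp q)).trans ?_
  rw [sum_add_distrib, sum_const, nsmul_eq_mul, card_univ, ← sum_div, sum_neg_distrib]
  exact add_le_add le_rfl (mul_le_mul_of_nonneg_right hS.cP (by positivity))

theorem der (hp : p.OK) (hS : S.Good p) {a : ℤ → ℂ} (ha : p.Amb a) {c d : S.C}
    (hc : S.IsMax p true c a) (hd : S.IsMax p false d a) :
    S.dPsi p true c a - S.dPsi p false d a ≤ p.S0 / p.L := by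
  set Y := S.Y p true c a + S.Y p false d a with hYe
  have y1 := der_Y hS.1 true c a
  have y2 := der_Y hS.1 false d a
  have hY : 0 ≤ Y := add_nonneg y1 y2
  have n1 := (hS.2 a ha).1 true c hc Y (by linarith)
  have n2 := (hS.2 a ha).1 false d hd Y (by linarith)
  have hB1 : (16 : ℝ) ≤ p.B := le_trans (by norm_num) hp.B_ge
  have hB : 0 < p.B := by linarith
  have hL1 : (1 : ℝ) ≤ p.L := le_trans (by norm_num) hp.L_ge2
  have hLB : (p.L : ℝ) ≤ p.B := (le_self_pow₀ hL1 (by norm_num)).trans hp.L60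
  have h0 := hp.S0_pos
  have i1 := item_root hp hS.1 ha hY n1 n2
  have i2 := sum_le_sum fun z (_ : z ∈ univ) => item_kink hp hS.1 ha hY n1 n2 z
  have i3 := der_pairs hp hS.1 ha hY n1
  have i4 := der_pairs hp hS.1 ha hY n2
  set X := (Y + p.S0) / p.B ^ 3 with hX
  have hX0 : 0 ≤ X := by positivity
  rw [sum_sub_distrib, sum_const, nsmul_eq_mul, card_univ] at i2
  have i5 := mul_le_mul_of_nonneg_right hS.1.cK hX0
  have i6 : X ≤ p.B * X := le_mul_of_one_le_left hX0 (by linarith)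
  have e : p.B * X = Y / p.B ^ 2 + p.S0 / p.B ^ 2 := by
    rw [hX]; field_simp
  have i7 : Y / p.B ^ 2 ≤ Y / 16 :=
    div_le_div_of_nonneg_left hY (by norm_num) (by nlinarith)
  have i8 : p.S0 / p.B ^ 2 ≤ p.S0 / (8 * p.L) :=
    div_le_div_of_nonneg_left h0.le (by linarith) (by nlinarith)
  have e2 : p.S0 / (8 * p.L) = p.S0 / p.L / 8 := by field_simp
  simp only [Sys.dPsi, Sys.sn, if_true, Bool.false_eq_true, if_false, one_mul, neg_mul]
  linarith

theorem core (hp : p.OK) (hS : S.Good p) {b : ℝ → ℤ → ℂ} (hb : Gal p.α p.Kc b) {T : ℝ} (hT : 0 ≤ T)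
    (ha : ∀ t ∈ Set.Icc 0 T, p.Amb (b t)) :
    Rq p.Kc (b T) (rE (p.y0 true)) - Rq p.Kc (b T) (rE (p.y0 false)) ≤
      Rq p.Kc (b 0) (rE (p.y0 true)) - Rq p.Kc (b 0) (rE (p.y0 false)) +
        (16 + T) * (p.S0 / p.L) := by
  have mx : ∀ (β : Bool) (t : ℝ), ∃ c, S.IsMax p β c (b t) := fun β t =>
    Finite.exists_max fun c => S.Psi p β c (b t)
  obtain ⟨c0, h0⟩ := mx true 0
  obtain ⟨d0, k0⟩ := mx false 0
  obtain ⟨c1, h1⟩ := mx true T
  obtain ⟨d1, k1⟩ := mx false T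
  have key := dini (fun c t => S.Psi p true c (b t)) (fun c t => S.Psi p false c (b t))
    (fun c t => S.dPsi p true c (b t)) (fun c t => S.dPsi p false c (b t)) hT
    (fun c t => Psi_deriv S p hS.1 hb true c t) (fun c t => Psi_deriv S p hS.1 hb false c t)
    (fun t ht c d hc hd => der hp hS (ha t ht) hc hd) h0 k0 h1 k1
  have e0 := abs_le.1 ((hS.2 _ (ha 0 ⟨le_rfl, hT⟩)).2 c0 d0 h0 k0)
  have e1 := abs_le.1 ((hS.2 _ (ha T ⟨hT, le_rfl⟩)).2 c1 d1 h1 k1)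
  rw [mul_div_assoc] at e0 e1
  linarith [e0.2, e1.1]

end Pool.Agent.Lib.MMTX
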