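import Pool.Agent.Lib.MP_0dc93f_an.X.Kit
import Pool.Agent.Lib.MP_0dc93f_an.X.Alt

/-! One step of the local decomposition. -/

namespace Pool.Agent.Lib.MMTX

open Finset Complex ComplexConjugate MMTW

variable (Kc : ℕ) (a : ℤ → ℂ)

theorem step {L u : ℕ} {y z ζ : ℤ} {Ξ S r c : ℝ} {ρ : Fin 4 → ℤ → ℝ} {χ χ' : ℤ → ℝ}
    (hL : 2 ^ 11 ≤ L) (hu : L ≤ u) (hc : LocCov Kc a L u y Ξ) (hΞ : 0 ≤ Ξ)
    (hζ : 64 * |ζ| ≤ L * u) (hr0 : 0 ≤ r) (hr : 16 * r ≤ L * u) (hρ : ∀ i, HC u S (ρ i))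
    (h1 : HC u 4 χ) (h2 : HC u 4 χ') (o1 : One χ z (L * u / 2)) (o2 : One χ' z (L * u / 2))
    (s1 : Supp χ y (3 * (L * u))) (s2 : Supp χ' y (3 * (L * u)))
    (hR : ∀ k, De k = ζ → (∀ i, |(k i : ℝ) - y| ≤ 3 * (L * u)) → (∀ i, z + r ≤ k i) → alt ρ k = c)
    (hl : ∀ k, De k = ζ → (∀ i, |(k i : ℝ) - y| ≤ 3 * (L * u)) → (∀ i, (k i : ℝ) ≤ z - r) →
      alt ρ k = 0) :
    ‖Qf Kc a ζ (fun k => alt ρ k * (p4 χ' k - p4 χ k)) -
      c * (Qf Kc a ζ (p4 fun n => χ' n * psiR L u y (z + r) n) -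
        Qf Kc a ζ (p4 fun n => χ n * psiR L u y (z + r) n))‖ ≤ 2 ^ 64 * L ^ 5 * (S / u) * Ξ := by
  classical
  obtain ⟨Pw, c1, c2⟩ := hc
  have u1 : 1 ≤ u := by omega
  have u0 : (0 : ℝ) < u := Nat.cast_pos.2 u1
  have u1' : (1 : ℝ) ≤ u := by exact_mod_cast u1
  have L0 : (128 : ℝ) ≤ L := by exact_mod_cast (by omega : 128 ≤ L)
  have hζ' : 64 * |(ζ : ℝ)| ≤ L * u := by exact_mod_cast hζ
  have t0 : (0 : ℝ) < L / u := by positivity
  have t2 : (L : ℝ) / u ≤ 2 := (div_le_iff₀ u0).2 (by exact_mod_cast (by omega : L ≤ 2 * u))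
  have S0 := (hρ 0).nonneg
  set N : Finset ℤ := Icc (-(4 * L : ℤ)) (4 * L) with hN
  have mN : ∀ n ∈ N, |n| ≤ 4 * L := fun n hn => abs_le.2 (Finset.mem_Icc.1 hn)
  have X0 : 0 ≤ Ξ / u := by positivity
  set ψ : ℤ → ℤ → ℝ := fun n l => hat u (l - y - n * u) with hψ
  have pu : ∀ {φ : ℤ → ℝ}, Supp φ y (3 * (L * u)) → φ = fun l => φ l * ∑ n ∈ N, ψ n l := by
    intro φ hφ
    funext l
    by_cases h0 : φ l = 0
    · simp [h0]
    · have b1 : ((|l - y| : ℤ) : ℝ) ≤ ((3 * (L * u) : ℤ) : ℝ) := by push_cast; exact hφ l h0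
      have b2 := abs_le.1 (Int.cast_le.1 b1)
      have u2 : (0 : ℤ) < u := Nat.cast_pos.2 u1
      have b3 : -(3 * L : ℤ) ≤ (l - y) / u := Int.le_ediv_of_mul_le u2 (by linarith)
      have b4 : (l - y) / u ≤ (3 * L : ℤ) := Int.ediv_le_of_le_mul u2 (by linarith)
      rw [hat_sum u1 N (l - y) (Finset.mem_Icc.2 ⟨by omega, by omega⟩)
        (Finset.mem_Icc.2 ⟨by omega, by omega⟩), mul_one]
  set rt : ℤ → Prop := fun n => (z : ℝ) + r ≤ (y : ℝ) + ((n : ℝ) - 1) * u with hrt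
  set T : (Fin 4 → ℤ) → (Fin 4 → ℤ) → ℝ := fun ν k =>
    pr (fun i l => χ' l * ψ (ν i) l) k - pr (fun i l => χ l * ψ (ν i) l) k with hT
  have sup : ∀ ν k, T ν k ≠ 0 → ∀ i, |(k i : ℝ) - (y + ν i * u)| < u := by
    intro ν k h i
    have : ψ (ν i) (k i) ≠ 0 := by
      intro h0
      refine h ?_
      simp only [hT, pr]
      rw [Finset.prod_eq_zero (Finset.mem_univ i) (by rw [h0, mul_zero]),
        Finset.prod_eq_zero (Finset.mem_univ i) (by rw [h0, mul_zero]), sub_zero]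
    have h4 := hat_lt u0 this
    push_cast at h4
    rwa [sub_sub] at h4
  have ins : ∀ ν k, T ν k ≠ 0 → ∀ i, |(k i : ℝ) - y| ≤ 3 * (L * u) := by
    intro ν k h i
    by_contra h0
    have a1 : χ (k i) = 0 := by_contra fun h1 => h0 (s1 _ h1)
    have a2 : χ' (k i) = 0 := by_contra fun h1 => h0 (s2 _ h1)
    refine h ?_
    simp only [hT, pr]
    rw [Finset.prod_eq_zero (Finset.mem_univ i) (by rw [a2, zero_mul]),
      Finset.prod_eq_zero (Finset.mem_univ i) (by rw [a1, zero_mul]), sub_zero]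
  set A := Fintype.piFinset fun _ : Fin 4 => N with hA
  have e1 : Qf Kc a ζ (fun k => alt ρ k * (p4 χ' k - p4 χ k)) =
      ∑ ν ∈ A, Qf Kc a ζ fun k => alt ρ k * T ν k := by
    rw [← Qf_sum]
    refine Qf_congr _ _ _ fun k _ _ => ?_
    rw [← Finset.mul_sum, Finset.sum_sub_distrib, ← p4_sum, ← p4_sum, ← pu s1, ← pu s2]
  have e2 : (c : ℂ) * (Qf Kc a ζ (p4 fun n => χ' n * psiR L u y (z + r) n) -
      Qf Kc a ζ (p4 fun n => χ n * psiR L u y (z + r) n)) =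
      ∑ ν ∈ A with ∀ i, rt (ν i), Qf Kc a ζ fun k => alt ρ k * T ν k := by
    rw [← Qf_sum, ← Qf_sub, ← Qf_smul]
    refine Qf_congr _ _ _ fun k _ hD => ?_
    have e3 : A.filter (fun ν => ∀ i, rt (ν i)) =
        Fintype.piFinset fun _ : Fin 4 => N.filter rt := by
      ext ν
      simp only [hA, Finset.mem_filter, Fintype.mem_piFinset, forall_and]
    have e4 : ∀ φ : ℤ → ℝ, p4 (fun l => φ l * psiR L u y (z + r) l) k =
        ∑ ν ∈ A with ∀ i, rt (ν i), pr (fun i l => φ l * ψ (ν i) l) k := fun φ => by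
      rw [e3, ← p4_sum]; rfl
    rw [e4, e4, ← Finset.sum_sub_distrib, Finset.mul_sum]
    refine Finset.sum_congr rfl fun ν hν => ?_
    by_cases h0 : T ν k = 0
    · rw [h0]; simp only [hT] at h0; rw [h0]; simp
    · rw [hR k hD (ins ν k h0) fun i => ?_]
      have b1 := (Finset.mem_filter.1 hν).2 i
      have b2 := abs_lt.1 (sup ν k h0 i)
      simp only [hrt] at b1
      linarith
  have key : ∀ ν ∈ A, ¬(∀ i, rt (ν i)) → ‖Qf Kc a ζ fun k => alt ρ k * T ν k‖ ≤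
      2 ^ 41 * L * S * (Ξ / u) := by
    intro ν hν hn
    have mν : ∀ i, |ν i| ≤ 4 * L := fun i => mN _ (Fintype.mem_piFinset.1 hν i)
    by_cases hz : ∀ k, De k = ζ → alt ρ k * T ν k = 0
    · rw [Qf_congr _ _ _ fun k _ => hz k, Qf_zero, norm_zero]; positivity
    simp only [not_forall] at hz hn
    obtain ⟨k, hD, hz⟩ := hz
    obtain ⟨i2, hi2⟩ := hn
    have s := sup ν k (right_ne_zero_of_mul hz)
    obtain ⟨i3, hi3⟩ : ∃ i, (z : ℝ) - r < k i := by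
      by_contra h
      simp only [not_exists, not_lt] at h
      exact left_ne_zero_of_mul hz (hl k hD (ins ν k (right_ne_zero_of_mul hz)) h)
    obtain ⟨i1, hi1⟩ : ∃ i, (L : ℝ) * u / 2 < |(k i : ℝ) - z| := by
      by_contra h
      simp only [not_exists, not_lt] at h
      refine right_ne_zero_of_mul hz ?_
      simp only [hT, pr, o1 _ (h _), o2 _ (h _), sub_self]
    simp only [hrt, not_le] at hi2
    have hD' : (k 0 : ℝ) - k 1 + k 2 - k 3 = ζ := by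
      unfold De at hD; exact_mod_cast hD
    have g0 : |((y : ℝ) + ν 0 * u) - (y + ν 1 * u) + (y + ν 2 * u) - (y + ν 3 * u)| ≤
        4 * u + L * u / 64 := by
      have a0 := abs_lt.1 (s 0)
      have a1 := abs_lt.1 (s 1)
      have a2 := abs_lt.1 (s 2)
      have a3 := abs_lt.1 (s 3)
      have a4 := le_abs_self (ζ : ℝ)
      have a5 := neg_abs_le (ζ : ℝ)
      rw [abs_le]; constructor <;> linarith
    obtain ⟨i, j, g1⟩ : ∃ i j, (7 * (L * u) / 16 - 2 * u : ℝ) ≤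
        |((y : ℝ) + ν i * u) - (y + ν j * u)| := by
      have a1 := abs_lt.1 (s i1)
      have a3 := abs_lt.1 (s i3)
      rcases lt_abs.1 hi1 with h | h
      · exact ⟨i1, i2, le_trans (by linarith) (le_abs_self _)⟩
      · exact ⟨i3, i1, le_trans (by linarith) (le_abs_self _)⟩
    have sep : ∀ i j, (7 * (L * u) / 16 - 2 * u - (4 * u + L * u / 64)) / 2 -
        (4 * u + L * u / 64 : ℝ) ≤ |((y : ℝ) + ν i * u) - (y + ν j * u)| →
        XX Kc a ((L : ℝ) / u) (Pw (ν i)) (Pw (ν j)) ≤ Ξ / u := by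
      intro i j h
      rw [show ((y : ℝ) + ν i * u) - (y + ν j * u) = (ν i - ν j) * u by ring, abs_mul,
        abs_of_pos u0] at h
      have b1 : (L : ℝ) * u ≤ 8 * |(ν i : ℝ) - ν j| * u := by nlinarith
      have b2 : (L : ℝ) ≤ 8 * |(ν i : ℝ) - ν j| := le_of_mul_le_mul_right b1 u0
      rw [le_div_iff₀' u0]
      exact c2 _ _ (mν i) (mν j) (by exact_mod_cast b2)
    obtain ⟨σ, x1, x2⟩ : ∃ σ : Equiv.Perm (Fin 4),
        XX Kc a ((L : ℝ) / u) (Pw (ν (σ 0))) (Pw (ν (σ 1))) ≤ Ξ / u ∧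
        XX Kc a ((L : ℝ) / u) (Pw (ν (σ 2))) (Pw (ν (σ 3))) ≤ Ξ / u := by
      rcases geo (fun i => (y : ℝ) + ν i * u) g0 g1 with h | h
      · exact ⟨1, sep 0 1 h.1, sep 2 3 h.2⟩
      · exact ⟨Equiv.swap 1 3, sep 0 3 h.1, sep 2 1 (by rw [abs_sub_comm]; exact h.2)⟩
    have one : ∀ φ : ℤ → ℝ, HC u 4 φ →
        ‖Qf Kc a ζ fun k => alt ρ k * pr (fun i l => φ l * ψ (ν i) l) k‖ ≤
          2 ^ 40 * L * S * (Ξ / u) := by
      intro φ hφ
      have cel : ∀ i, Cel (ψ (ν i)) 4 u (Pw (ν i)) := by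
        intro i
        obtain ⟨d1, d2⟩ := c1 _ (mν i)
        have e : ψ (ν i) = fun l => hat u (l - (y + ν i * u)) := by
          funext l; simp only [hψ, sub_sub]
        have d3 : (8 * |((Pw (ν i)).z : ℝ) - (y + ν i * u)|) ≤ u := by exact_mod_cast d1
        have d4 : (4 * u : ℝ) ≤ (Pw (ν i)).w := by exact_mod_cast d2
        rw [e]
        refine ⟨hc_hat u0 _, ⟨_, hat_supp' u0 _⟩, fun l hl => ?_, u1', by omega⟩
        have d5 := hat_supp' u0 _ l hl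
        have d6 := abs_sub_le (l : ℝ) (y + ν i * u) (Pw (ν i)).z
        rw [abs_sub_comm] at d3
        push_cast at d5
        linarith
      have h := alt_cel Kc a ζ (u := fun _ => (u : ℝ)) (S := fun _ => 4 * 4 * 4)
        (fun i => (cel i).mul hφ) hρ σ (L := L) (t := L / u) (t' := L / u) (by linarith)
        (by simp) (by simp) t2 t2
      have q : √(XX Kc a ((L : ℝ) / u) (Pw (ν (σ 0))) (Pw (ν (σ 1))) *
          XX Kc a ((L : ℝ) / u) (Pw (ν (σ 2))) (Pw (ν (σ 3)))) ≤ Ξ / u :=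
        Real.sqrt_le_iff.2 ⟨X0, by
          rw [sq]; exact mul_le_mul x1 x2 (XX_nonneg Kc a t0 _ _) X0⟩
      refine h.trans ((mul_le_mul_of_nonneg_left q (by positivity)).trans (le_of_eq ?_))
      rw [Fin.prod_univ_four]
      ring
    have e5 : Qf Kc a ζ (fun k => alt ρ k * T ν k) =
        Qf Kc a ζ (fun k => alt ρ k * pr (fun i l => χ' l * ψ (ν i) l) k) -
          Qf Kc a ζ fun k => alt ρ k * pr (fun i l => χ l * ψ (ν i) l) k := by
      rw [← Qf_sub]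
      exact Qf_congr _ _ _ fun k _ _ => by simp only [hT]; ring
    rw [e5]
    refine (norm_sub_le _ _).trans ?_
    linarith [one χ h1, one χ' h2]
  rw [e1, e2, ← Finset.sum_filter_add_sum_filter_not A fun ν => ∀ i, rt (ν i), add_sub_cancel_left]
  refine (norm_sum_le _ _).trans ((Finset.sum_le_card_nsmul _ _ _ fun ν hν =>
    key ν (Finset.mem_filter.1 hν).1 (Finset.mem_filter.1 hν).2).trans ?_)
  have cN : (N.card : ℝ) ≤ 9 * L := by
    have : (N.card : ℤ) = 8 * L + 1 := by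
      rw [hN, Int.card_Icc_of_le _ _ (by omega)]; ring
    have : (N.card : ℝ) = 8 * L + 1 := by exact_mod_cast this
    linarith
  have cA : ((A.filter fun ν => ¬∀ i, rt (ν i)).card : ℝ) ≤ 2 ^ 13 * L ^ 4 := by
    have b1 : ((A.filter fun ν => ¬∀ i, rt (ν i)).card : ℝ) ≤ A.card :=
      Nat.cast_le.2 (Finset.card_filter_le _ _)
    have b2 : (A.card : ℝ) = (N.card : ℝ) ^ 4 := by simp [hA, Fintype.card_piFinset]
    have b3 := pow_le_pow_left₀ (Nat.cast_nonneg _) cN 4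
    have b4 : (0 : ℝ) ≤ (L : ℝ) ^ 4 := by positivity
    nlinarith
  rw [nsmul_eq_mul]
  refine (mul_le_mul_of_nonneg_right cA (by positivity)).trans ?_
  have q : (0 : ℝ) ≤ L ^ 5 * (S / u) * Ξ := by positivity
  have q2 : (2 : ℝ) ^ 13 * L ^ 4 * (2 ^ 41 * L * S * (Ξ / u)) = 2 ^ 54 * (L ^ 5 * (S / u) * Ξ) := by
    ring
  rw [q2]
  linarith

end Pool.Agent.Lib.MMTX
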