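import Pool.Agent.Lib.MP_0dc93f_an.X.Far
import Pool.Agent.Lib.MP_0dc93f_an.X.Step

/-! The flux through a pair of twin cuts. -/

namespace Pool.Agent.Lib.MMTX

open Finset Complex ComplexConjugate MMTW

/-- the ramp clipped at the height `S` -/
noncomputable def flc (s z : ℤ) (S : ℝ) (k : ℤ) : ℝ := max 0 (min S ((s : ℝ) * k + -(s * z)))

lemma fl_hc {s : ℤ} (hs : s = 1 ∨ s = -1) (z : ℤ) {u S S' : ℝ} (hu : 0 < u) (h0 : 0 ≤ S)
    (h1 : S ≤ S') (h2 : 2 * u ≤ S') : HC u S' (flc s z S) :=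
  hc_clip hu h0 (by rw [abs_zero]; linarith) (by rwa [abs_of_nonneg h0]) (by linarith)
    (by rcases hs with rfl | rfl <;> simpa using h2)

lemma fl_eq {s : ℤ} (hs : s = 1 ∨ s = -1) {z k : ℤ} {S : ℝ} (h : |(k : ℝ) - z| ≤ S) :
    flc s z S k = rmp s z k := by
  have := abs_le.1 h
  unfold flc rmp
  rw [min_eq_right (by rcases hs with rfl | rfl <;> push_cast <;> linarith)]
  congr 1; ring

lemma fl_De {k : Fin 4 → ℤ} (h : De k = 0) : (k 0 : ℝ) - k 1 + k 2 - k 3 = 0 := by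
  unfold De at h; exact_mod_cast h

lemma fl_side {s : ℤ} (hs : s = 1 ∨ s = -1) {z : ℤ} {k : Fin 4 → ℤ} (h : De k = 0)
    (H : (∀ i, (z : ℝ) ≤ k i) ∨ ∀ i, (k i : ℝ) ≤ z) : al1 (rmp s z) k = 0 := by
  have e := fl_De h
  have p : ∀ x : ℝ, 0 ≤ x → max 0 x = x := fun _ => max_eq_right
  have n : ∀ x : ℝ, x ≤ 0 → max 0 x = 0 := fun _ => max_eq_left
  simp only [al1, alt, rmp]
  rcases H with H | H <;> have := H 0 <;> have := H 1 <;> have := H 2 <;> have := H 3 <;>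
    rcases hs with rfl | rfl <;> push_cast
  · rw [p, p, p, p] <;> linarith
  · rw [n, n, n, n] <;> linarith
  · rw [n, n, n, n] <;> linarith
  · rw [p, p, p, p] <;> linarith

lemma fl_al {ρ ρ' : ℤ → ℝ} {k : Fin 4 → ℤ} (h : ∀ i, ρ (k i) = ρ' (k i)) :
    alt (fun _ => ρ) k = al1 ρ' k := by
  simp only [al1, alt, h]

lemma fl_p0 {χ : ℤ → ℝ} {k : Fin 4 → ℤ} {i : Fin 4} (h : χ (k i) = 0) : p4 χ k = 0 :=
  prod_eq_zero (mem_univ i) h

lemma fl_p1 (z : ℤ) (D : ℝ) (k : Fin 4 → ℤ) : |p4 (trap z D) k| ≤ 1 := by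
  rw [p4, abs_of_nonneg (prod_nonneg fun i _ => trap_nonneg z D _)]
  exact prod_le_one (fun i _ => trap_nonneg z D _) fun i _ => trap_le z D _

lemma fl_loc {s : ℤ} (hs : s = 1 ∨ s = -1) (z : ℤ) {D : ℝ} (hD : 0 < D) (k : Fin 4 → ℤ) :
    |al1 (rmp s z) k * p4 (trap z D) k| ≤ 4 * D := by
  by_cases h : ∀ i, |(k i : ℝ) - z| ≤ 2 * D
  · have b : ∀ i, 0 ≤ rmp s z (k i) ∧ rmp s z (k i) ≤ 2 * D := fun i => by
      have := abs_le.1 (h i)
      refine ⟨le_max_left _ _, max_le (by linarith) ?_⟩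
      rcases hs with rfl | rfl <;> push_cast <;> linarith
    have c : |al1 (rmp s z) k| ≤ 4 * D := by
      simp only [al1, alt]
      rw [abs_le]
      constructor <;> linarith [(b 0).1, (b 0).2, (b 1).1, (b 1).2, (b 2).1, (b 2).2, (b 3).1, (b 3).2]
    rw [abs_mul]
    exact (mul_le_of_le_one_right (abs_nonneg _) (fl_p1 z D k)).trans c
  · obtain ⟨i, hi⟩ := not_forall.1 h
    rw [fl_p0 (trap_zero z hD (not_le.1 hi).le), mul_zero, abs_zero]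
    positivity

lemma fl_cst (z : ℤ) {D R : ℝ} (hD : 0 < D) (h : |(z : ℝ)| + 2 * D ≤ R) : Cst (trap z D) R := by
  have := abs_le.1 (le_refl |(z : ℝ)|)
  have e : ∀ k : ℤ, R ≤ k ∨ (k : ℝ) ≤ -R → trap z D k = 0 := fun k hk =>
    trap_zero z hD (le_abs.2 (hk.imp (fun _ => by linarith) fun _ => by linarith))
  intro k k' hk
  rw [e k (hk.imp And.left And.left), e k' (hk.imp And.right And.right)]

lemma fl_cst' {s : ℤ} (hs : s = 1 ∨ s = -1) (z : ℤ) {S R : ℝ} (h0 : 0 ≤ S)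
    (h : |(z : ℝ)| + S ≤ R) : Cst (flc s z S) R := by
  have := abs_le.1 (le_refl |(z : ℝ)|)
  have p : ∀ x : ℝ, S ≤ x → max 0 (min S x) = S := fun x hx => by
    rw [min_eq_left hx, max_eq_right h0]
  have n : ∀ x : ℝ, x ≤ 0 → max 0 (min S x) = 0 := fun x hx =>
    max_eq_left ((min_le_right _ _).trans hx)
  rintro k k' (⟨h1, h2⟩ | ⟨h1, h2⟩) <;> unfold flc <;> rcases hs with rfl | rfl <;> push_cast
  · rw [p, p] <;> linarith
  · rw [n, n] <;> linarith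
  · rw [n, n] <;> linarith
  · rw [p, p] <;> linarith

lemma fl_dif (s z z' k : ℤ) : rmp s z k - rmp s z' k =
    flc s z (max ((s : ℝ) * (z' - z)) 0) k - flc s z' (max ((s : ℝ) * (z - z')) 0) k := by
  have e1 : (s : ℝ) * k + -(s * z) = s * (k - z') + s * (z' - z) := by ring
  have e2 : (s : ℝ) * k + -(s * z') = s * (k - z') := by ring
  have e3 : (s : ℝ) * (k - z) = s * (k - z') + s * (z' - z) := by ring
  have e4 : (s : ℝ) * (z - z') = -(s * (z' - z)) := by ring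
  unfold rmp flc
  rw [e1, e2, e3, e4]
  generalize (s : ℝ) * (k - z') = w
  generalize (s : ℝ) * (z' - z) = δ
  simp only [max_def, min_def]
  split_ifs <;> linarith

variable (Kc : ℕ) (a : ℤ → ℂ)

lemma fl_step {L u : ℕ} {s y z : ℤ} {Ξ : ℝ} (hL : 2 ^ 11 ≤ L) (hu : L ≤ u) (hs : s = 1 ∨ s = -1)
    (hy : |z - y| ≤ L * u) (hc : LocCov Kc a L u y Ξ) (hΞ : 0 ≤ Ξ) :
    ‖(Qf Kc a 0 fun k => al1 (rmp s z) k * p4 (trap z (L * u)) k) -
      Qf Kc a 0 fun k => al1 (rmp s z) k * p4 (trap z (L * u / 2)) k‖ ≤ 2 ^ 70 * L ^ 6 * Ξ := by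
  have L' : (2048 : ℝ) ≤ L := by exact_mod_cast hL
  have u' : (2048 : ℝ) ≤ u := L'.trans (by exact_mod_cast hu)
  have uD : 2048 * (u : ℝ) ≤ L * u := by gcongr
  have y' : |(z : ℝ) - y| ≤ L * u := by exact_mod_cast hy
  have D0 : (0 : ℝ) < L * u := by linarith
  have tri : ∀ k : ℤ, |(k : ℝ) - y| ≤ 3 * (L * u) → |(k : ℝ) - z| ≤ 4 * (L * u) := fun k h => by
    have := abs_sub_le (k : ℝ) y z
    rw [abs_sub_comm (y : ℝ)] at this
    linarith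
  have sp : ∀ D : ℝ, 0 < D → D ≤ L * u → Supp (trap z D) y (3 * (L * u)) := fun D h1 h2 k hk => by
    have := trap_supp z h1 k hk
    have := abs_sub_le (k : ℝ) z y
    linarith
  have H := step Kc a (z := z) (ζ := 0) (S := 4 * (L * u)) (r := 0) (c := 0)
    (ρ := fun _ => flc s z (4 * (L * u))) (χ := trap z (L * u / 2)) (χ' := trap z (L * u)) hL hu hc
    hΞ (by simp; positivity) le_rfl (by linarith)
    (fun _ => fl_hc hs z (by linarith) (by linarith) le_rfl (by linarith))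
    ((hc_trap z (by linarith)).mono (by linarith) (by linarith) le_rfl)
    ((hc_trap z D0).mono (by linarith) (by linarith) le_rfl) (trap_one z (by linarith))
    (fun k hk => trap_one z D0 k (by linarith)) (sp _ (by linarith) (by linarith)) (sp _ D0 le_rfl)
    (fun k hk h1 h2 => by
      rw [fl_al fun i => fl_eq hs (tri _ (h1 i))]
      exact fl_side hs hk (Or.inl fun i => by linarith [h2 i]))
    (fun k hk h1 h2 => by
      rw [fl_al fun i => fl_eq hs (tri _ (h1 i))]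
      exact fl_side hs hk (Or.inr fun i => by linarith [h2 i]))
  rw [ofReal_zero, zero_mul, sub_zero] at H
  rw [← Qf_sub, Qf_congr Kc a 0 (s' := fun k => alt (fun _ => flc s z (4 * (L * u))) k *
    (p4 (trap z (L * u)) k - p4 (trap z (L * u / 2)) k)) fun k _ _ => ?_]
  · refine H.trans ?_
    have e : 4 * ((L : ℝ) * u) / u = 4 * L := by field_simp
    rw [e]
    have : (0 : ℝ) ≤ L ^ 6 * Ξ := by positivity
    calc _ = 2 ^ 66 * ((L : ℝ) ^ 6 * Ξ) := by ring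
      _ ≤ 2 ^ 70 * ((L : ℝ) ^ 6 * Ξ) := by gcongr <;> norm_num
      _ = _ := by ring
  · by_cases h : ∀ i, |(k i : ℝ) - z| ≤ 4 * (L * u)
    · rw [fl_al fun i => fl_eq hs (h i)]; ring
    · obtain ⟨i, hi⟩ := not_forall.1 h
      rw [not_le] at hi
      rw [fl_p0 (trap_zero z D0 (k := k i) (by linarith)),
        fl_p0 (trap_zero z (D := L * u / 2) (by linarith) (k := k i) (by linarith))]
      ring

/-- the local part of the flux through one cut -/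
theorem flux_loc {l j1 j0 : ℕ} {s z : ℤ} {Ξ : ℝ} (hl : 11 ≤ l) (h1 : l ≤ j1) (h2 : j1 ≤ j0)
    (hs : s = 1 ∨ s = -1) (hc : Cov Kc a (2 ^ l) z j1 j0 Ξ) (hΞ : 0 ≤ Ξ) :
    ‖Qf Kc a 0 fun k => al1 (rmp s z) k * p4 (trap z (2 ^ (l + j0))) k‖ ≤
      20 * (2 ^ (l + j1)) ^ 2 * mB Kc a z (2 * 2 ^ (l + j1)) ^ 2 +
        2 ^ 70 * (2 ^ l) ^ 6 * j0 * Ξ := by
  induction j0, h2 using Nat.le_induction with
  | base =>
    have D1 : (1 : ℝ) ≤ 2 ^ (l + j1) := one_le_pow₀ one_le_two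
    generalize (2 : ℝ) ^ (l + j1) = D at D1 ⊢
    have D0 : 0 < D := by linarith
    have h := norm_Qf_le Kc a (ζ := 0) (p := fun k => ∀ i, |(k i : ℝ) - z| ≤ 2 * D)
      (S := 4 * D) (by positivity) (fun k _ => fl_loc hs z D0 k) fun k _ hk i =>
        trap_supp z D0 _ fun e => hk (by rw [fl_p0 e, mul_zero])
    have h' := c1 Kc a 0 z (D := 2 * D) (by positivity)
    have m := sq_nonneg (mB Kc a z (2 * D))
    have : (0 : ℝ) ≤ 2 ^ 70 * (2 ^ l) ^ 6 * j1 * Ξ := by positivity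
    refine h.trans ((mul_le_mul_of_nonneg_left h' (by positivity)).trans ?_)
    have : 4 * D * ((2 * (2 * D) + 1) * mB Kc a z (2 * D) ^ 2) ≤
        4 * D * ((5 * D) * mB Kc a z (2 * D) ^ 2) := by gcongr; linarith
    linarith
  | succ j hj ih =>
    obtain ⟨y, hy, hl'⟩ := hc (j + 1) (by omega) le_rfl
    have h := fl_step Kc a (L := 2 ^ l) (u := 2 ^ (j + 1)) (Nat.pow_le_pow_right two_pos hl)
      (Nat.pow_le_pow_right two_pos (by omega)) hs (by exact_mod_cast hy) hl' hΞ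
    have e1 : ((2 ^ l : ℕ) : ℝ) * (2 ^ (j + 1) : ℕ) = 2 ^ (l + (j + 1)) := by push_cast; ring
    have e2 : (2 : ℝ) ^ (l + (j + 1)) / 2 = 2 ^ (l + j) := by rw [← add_assoc, pow_succ]; ring
    rw [e1, e2] at h
    have h' := ih fun i h1 h2 => hc i h1 (by omega)
    have t := norm_sub_norm_le
      (Qf Kc a 0 fun k => al1 (rmp s z) k * p4 (trap z (2 ^ (l + (j + 1)))) k)
      (Qf Kc a 0 fun k => al1 (rmp s z) k * p4 (trap z (2 ^ (l + j))) k)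
    push_cast at h ⊢
    linarith

section core

variable {l m0 ms mH m : ℕ} {s x z z' : ℤ} {E εH Ξl Ξh K D : ℝ}

lemma fl_unit (hl : 11 ≤ l) (hK : K = 2 ^ m) (hD : 2 ^ l * D = K) :
    0 < K ∧ 0 < D ∧ 2048 * D ≤ K ∧ 0 < 8 * K / 2 ^ (2 * l) ∧ 256 * (8 * K / 2 ^ (2 * l)) ≤ D := by
  have L' : (2048 : ℝ) ≤ 2 ^ l :=
    le_trans (by norm_num) (pow_le_pow_right₀ one_le_two hl)
  have K0 : 0 < K := by rw [hK]; positivity
  have D0 : 0 < D := by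
    by_contra h
    nlinarith [not_lt.1 h]
  refine ⟨K0, D0, by rw [← hD]; gcongr, by positivity, ?_⟩
  have e : 8 * K / 2 ^ (2 * l) = 8 * D / 2 ^ l := by
    rw [← hD, two_mul, pow_add]; field_simp
  rw [e, ← mul_div_assoc, div_le_iff₀ (by positivity)]
  nlinarith

lemma fl_far1 (hl : 11 ≤ l) (h0 : 3 * l ≤ m0) (h1 : m0 + 5 ≤ ms) (h2 : ms ≤ mH) (h3 : m ≤ mH)
    (hK : K = 2 ^ m) (hD : 2 ^ l * D = K) (hs : s = 1 ∨ s = -1) (x1 : K ≤ 2 * |(x : ℝ)|)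
    (x2 : |(x : ℝ)| ≤ 2 * K) (z1 : 32 * |(z : ℝ) - x| ≤ K)
    (ht : TopCov Kc a l m0 ms mH m Ξl Ξh) (hΞl : 0 ≤ Ξl) (hΞh : 0 ≤ Ξh) (hH : HiB Kc a mH εH)
    (hE : tail Kc a 1 ≤ E) :
    ‖(Qf Kc a 0 fun k => al1 (rmp s z) k * (p4 (trap x (K / 8)) k - p4 (trap z D) k)) -
      Qf Kc a 0 fun k => al1 (rmp s z) k * (p4 (trap x (K / 8)) k - p4 (trap z D) k) *
        two ms mH k‖ ≤ K * farB Kc a l m0 mH m E εH Ξl Ξh := by
  obtain ⟨K0, D0, DK, u0, uD⟩ := fl_unit hl hK hD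
  have zK : |(z : ℝ)| ≤ 2 * K + K / 32 := by
    have := abs_sub_abs_le_abs_sub (z : ℝ) x
    linarith
  have e : ∀ k : Fin 4 → ℤ, alt (fun _ => flc s z K) k * (p4 (trap x (K / 8)) k - p4 (trap z D) k) =
      al1 (rmp s z) k * (p4 (trap x (K / 8)) k - p4 (trap z D) k) := fun k => by
    by_cases h : ∀ i, |(k i : ℝ) - z| ≤ K
    · rw [fl_al fun i => fl_eq hs (h i)]
    · obtain ⟨i, hi⟩ := not_forall.1 h
      rw [not_le] at hi
      have := abs_sub_le (k i : ℝ) x z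
      rw [abs_sub_comm (x : ℝ)] at this
      rw [fl_p0 (trap_zero z D0 (k := k i) (by linarith)),
        fl_p0 (trap_zero x (D := K / 8) (by linarith) (k := k i) (by linarith))]
      ring
  have H := far Kc a (D := D) (S := K) (r := 0) (z := z) (ζ := 0) (ρ := fun _ => flc s z K)
    (χ := trap z D) (χ' := trap x (K / 8)) hl h0 h1 h2 h3 ht hΞl hΞh hH hE (by rw [hD, hK])
    (by rw [← hK]; linarith) le_rfl (by linarith) (by simpa using D0.le) (by rw [← hK]; linarith)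
    (fun _ => by rw [← hK]; exact fl_hc hs z u0 K0.le le_rfl (by linarith))
    (fun _ => by rw [← hK]; exact fl_cst' hs z K0.le (by linarith))
    (by rw [← hK]; exact (hc_trap z D0).mono u0 (by linarith) le_rfl)
    (by rw [← hK]; exact (hc_trap x (by linarith)).mono u0 (by linarith) le_rfl)
    (by rw [← hK]; exact fl_cst z D0 (by linarith))
    (by rw [← hK]; exact fl_cst x (by linarith) (by linarith))
    (fun k hk => trap_one z D0 k (by linarith))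
    (fun k hk => trap_one x (by linarith) k (by linarith [abs_sub_le (k : ℝ) z x]))
    (fun k => ⟨trap_nonneg _ _ k, trap_le _ _ k⟩) (fun k => ⟨trap_nonneg _ _ k, trap_le _ _ k⟩)
    (fun k hk h => by rw [e, fl_side hs hk (Or.inl fun i => by linarith [h i]), zero_mul])
    (fun k hk h => by rw [e, fl_side hs hk (Or.inr fun i => by linarith [h i]), zero_mul])
    (fun k _ h => by
      have a0 := h 0
      rw [← hK] at a0
      have a1 := abs_sub_abs_le_abs_sub (x : ℝ) (k 0)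
      have a2 := abs_sub_le (x : ℝ) z (k 0)
      rw [abs_sub_comm (x : ℝ) z, abs_sub_comm (z : ℝ) (k 0)] at a2
      rw [fl_p0 (trap_zero z D0 (k := k 0) (by linarith)), fl_p0 (trap_zero x (D := K / 8)
        (by linarith) (k := k 0) (by rw [abs_sub_comm]; linarith))]
      ring)
  simpa only [e] using H

lemma fl_mid (hs : s = 1 ∨ s = -1) (x1 : K ≤ 2 * |(x : ℝ)|) (z1 : 32 * |(z : ℝ) - x| ≤ K)
    {k : Fin 4 → ℤ} (hk : De k = 0) (h : ∀ i, |(k i : ℝ)| < K / 4) : al1 (rmp s z) k = 0 := by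
  have := abs_le.1 (le_refl |(z : ℝ) - x|)
  refine fl_side hs hk ?_
  rcases abs_cases (x : ℝ) with hx | hx
  · exact Or.inr fun i => by linarith [(abs_lt.1 (h i)).2]
  · exact Or.inl fun i => by linarith [(abs_lt.1 (h i)).1]

lemma fl_far3 (hl : 11 ≤ l) (h0 : 3 * l ≤ m0) (h1 : m0 + 5 ≤ ms) (h2 : ms ≤ mH) (h3 : m ≤ mH)
    (hK : K = 2 ^ m) (hD : 2 ^ l * D = K) (hs : s = 1 ∨ s = -1) (x1 : K ≤ 2 * |(x : ℝ)|)
    (x2 : |(x : ℝ)| ≤ 2 * K) (z1 : 32 * |(z : ℝ) - x| ≤ K) (z2 : 32 * |(z' : ℝ) - x| ≤ K)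
    (ht : TopCov Kc a l m0 ms mH m Ξl Ξh) (hΞl : 0 ≤ Ξl) (hΞh : 0 ≤ Ξh) (hH : HiB Kc a mH εH)
    (hE : tail Kc a 1 ≤ E) :
    ‖(Qf Kc a 0 fun k => (al1 (rmp s z) k - al1 (rmp s z') k) * (1 - p4 (trap x (K / 8)) k)) -
      Qf Kc a 0 fun k => (al1 (rmp s z) k - al1 (rmp s z') k) * (1 - p4 (trap x (K / 8)) k) *
        two ms mH k‖ ≤ K * farB Kc a l m0 mH m E εH Ξl Ξh := by
  obtain ⟨K0, D0, DK, u0, uD⟩ := fl_unit hl hK hD
  have b1 := abs_le.1 (le_refl |(z : ℝ) - x|)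
  have b2 := abs_le.1 (le_refl |(z' : ℝ) - x|)
  have n1 := abs_sub_abs_le_abs_sub (z : ℝ) x
  have n2 := abs_sub_abs_le_abs_sub (z' : ℝ) x
  have m1 : max ((s : ℝ) * (z' - z)) 0 ≤ K / 2 :=
    max_le (by rcases hs with rfl | rfl <;> push_cast <;> linarith) (by linarith)
  have m2 : max ((s : ℝ) * (z - z')) 0 ≤ K / 2 :=
    max_le (by rcases hs with rfl | rfl <;> push_cast <;> linarith) (by linarith)
  have e : ∀ k : Fin 4 → ℤ, alt (fun _ n => rmp s z n - rmp s z' n) k =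
      al1 (rmp s z) k - al1 (rmp s z') k := fun k => by simp only [al1, alt]; ring
  have L4 : (4 : ℝ) ≤ 2 ^ l := le_trans (by norm_num) (pow_le_pow_right₀ one_le_two hl)
  have H := far Kc a (D := K / 4) (S := K) (r := K / 32) (z := x) (ζ := 0)
    (ρ := fun _ n => rmp s z n - rmp s z' n) (χ := trap x (K / 8)) (χ' := fun _ => 1)
    hl h0 h1 h2 h3 ht hΞl hΞh hH hE (by rw [← hK]; nlinarith)
    (by rw [← hK]; linarith) (by linarith) (by linarith) (by simp; linarith)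
    (by rw [← hK]; linarith)
    (fun _ => by
      rw [← hK]
      exact (((fl_hc hs z u0 (le_max_right _ _) m1 (by linarith)).sub
        (fl_hc hs z' u0 (le_max_right _ _) m2 (by linarith))).congr (fl_dif s z z')).mono u0 le_rfl
          (by linarith))
    (fun _ k k' hk => by
      rw [← hK] at hk
      simp only [fl_dif]
      rw [fl_cst' hs z (le_max_right _ _) (by linarith) k k' hk,
        fl_cst' hs z' (le_max_right _ _) (by linarith) k k' hk])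
    (by rw [← hK]; exact (hc_trap x (by linarith)).mono u0 (by linarith) le_rfl)
    (by rw [← hK]; exact HC.const u0 (by norm_num))
    (by rw [← hK]; exact fl_cst x (by linarith) (by linarith)) (fun _ _ _ => rfl)
    (fun k hk => trap_one x (by linarith) k (by linarith)) (fun _ _ => rfl)
    (fun k => ⟨trap_nonneg _ _ k, trap_le _ _ k⟩) (fun _ => ⟨zero_le_one, le_rfl⟩)
    (fun k hk h => by
      rw [e, fl_side hs hk (Or.inl fun i => by linarith [h i]),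
        fl_side hs hk (Or.inl fun i => by linarith [h i]), sub_zero, zero_mul])
    (fun k hk h => by
      rw [e, fl_side hs hk (Or.inr fun i => by linarith [h i]),
        fl_side hs hk (Or.inr fun i => by linarith [h i]), sub_zero, zero_mul])
    (fun k hk h => by
      rw [← hK] at h
      rw [e, fl_mid hs x1 z1 hk h, fl_mid hs x1 z2 hk h, sub_zero, zero_mul])
  have p1 : ∀ k : Fin 4 → ℤ, p4 (fun _ => 1) k = 1 := fun k => prod_const_one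
  simpa only [e, p1] using H

lemma fl_zero (D0 : 0 < D) (DK : 2048 * D ≤ K) (x1 : K ≤ 2 * |(x : ℝ)|)
    (z1 : 32 * |(z : ℝ) - x| ≤ K) {k : Fin 4 → ℤ} {i : Fin 4} (h : |(k i : ℝ)| < K / 4) :
    p4 (trap z D) k = 0 := by
  have a1 := abs_sub_abs_le_abs_sub (x : ℝ) (k i)
  have a2 := abs_sub_le (x : ℝ) z (k i)
  rw [abs_sub_comm (x : ℝ) z, abs_sub_comm (z : ℝ) (k i)] at a2
  exact fl_p0 (trap_zero z D0 (k := k i) (by linarith))

lemma fl_core {j1 j0 : ℕ} {Ξ κ : ℝ} (hl : 11 ≤ l)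
    (h0 : 3 * l ≤ m0) (h1 : m0 + 5 ≤ ms) (h2 : ms ≤ mH) (h3 : m ≤ mH) (h4 : l ≤ j1) (h5 : j1 ≤ j0)
    (hK : K = 2 ^ m) (hj : D = 2 ^ (l + j0)) (hD : 2 ^ l * D = K) (hs : s = 1 ∨ s = -1)
    (x1 : K ≤ 2 * |(x : ℝ)|)
    (x2 : |(x : ℝ)| ≤ 2 * K) (z1 : 32 * |(z : ℝ) - x| ≤ K) (z2 : 32 * |(z' : ℝ) - x| ≤ K)
    (ht : TopCov Kc a l m0 ms mH m Ξl Ξh) (hΞl : 0 ≤ Ξl) (hΞh : 0 ≤ Ξh) (hH : HiB Kc a mH εH)
    (hE : tail Kc a 1 ≤ E) (c1 : Cov Kc a (2 ^ l) z j1 j0 Ξ) (c2 : Cov Kc a (2 ^ l) z' j1 j0 Ξ)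
    (hΞ : 0 ≤ Ξ) (g1 : Gd Kc a z κ 1 (K / 8)) (g2 : Gd Kc a z' κ 1 (K / 8)) :
    ‖Qf Kc a 0 (al1 (rmp s z)) - Qf Kc a 0 (al1 (rmp s z')) -
      Qf Kc a 0 fun k => (al1 (rmp s z) k - al1 (rmp s z') k - al1 (rmp s z) k * p4 (trap z D) k +
        al1 (rmp s z') k * p4 (trap z' D) k) * two ms mH k‖ ≤
      2 ^ 8 * κ ^ 2 * (2 ^ (l + j1)) ^ 4 + 2 ^ 71 * (2 ^ l) ^ 6 * j0 * Ξ +
        3 * K * farB Kc a l m0 mH m E εH Ξl Ξh := by
  obtain ⟨K0, D0, DK, -⟩ := fl_unit hl hK hD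
  have a1 := flux_loc Kc a hl h4 h5 hs c1 hΞ
  have a2 := flux_loc Kc a hl h4 h5 hs c2 hΞ
  have f1 := fl_far1 Kc a hl h0 h1 h2 h3 hK hD hs x1 x2 z1 ht hΞl hΞh hH hE
  have f2 := fl_far1 Kc a hl h0 h1 h2 h3 hK hD hs x1 x2 z2 ht hΞl hΞh hH hE
  have f3 := fl_far3 Kc a hl h0 h1 h2 h3 hK hD hs x1 x2 z1 z2 ht hΞl hΞh hH hE
  have D1 : (1 : ℝ) ≤ 2 ^ (l + j1) := one_le_pow₀ one_le_two
  have D2 : (2 : ℝ) ^ (l + j1) ≤ D := hj ▸ pow_le_pow_right₀ one_le_two (by omega)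
  rw [← hj] at a1 a2
  generalize (2 : ℝ) ^ (l + j1) = D' at *
  have g : ∀ y, Gd Kc a y κ 1 (K / 8) →
      20 * D' ^ 2 * mB Kc a y (2 * D') ^ 2 ≤ 80 * (κ ^ 2 * D' ^ 4) := fun y hy => by
    have := pow_le_pow_left₀ (mB_nonneg Kc a y _) (hy (2 * D') (by linarith) (by linarith)) 2
    calc _ ≤ 20 * D' ^ 2 * (κ * (2 * D')) ^ 2 := by gcongr
      _ = _ := by ring
  rw [← Qf_sub] at f1 f2 f3
  have t := norm_add_le_of_le (norm_sub_le_of_le (norm_add_le_of_le (norm_sub_le_of_le a1 a2) f1) f2)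
    f3
  rw [← Qf_sub, ← Qf_add, ← Qf_sub, ← Qf_add] at t
  rw [← Qf_sub, ← Qf_sub]
  refine le_trans (le_of_eq (congrArg _ (Qf_congr Kc a 0 fun k _ _ => by ring))) (t.trans ?_)
  have : 0 ≤ κ ^ 2 * D' ^ 4 := by positivity
  linarith [g z g1, g z' g2]

end core

/-- twin cuts -/
theorem flux_twin {l m0 ms mH m j1 j0 : ℕ} {s x z z' : ℤ} {E εH Ξ Ξl Ξh κ : ℝ} (hl : 11 ≤ l)
    (h0 : 3 * l ≤ m0) (h1 : m0 + 5 ≤ ms) (h2 : ms ≤ mH) (h3 : m ≤ mH) (h4 : l ≤ j1) (h5 : j1 ≤ j0)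
    (h6 : j0 + 2 * l = m) (hs : s = 1 ∨ s = -1) (x1 : 2 ^ m ≤ 2 * |x|) (x2 : |x| ≤ 2 * 2 ^ m)
    (z1 : 32 * |z - x| ≤ 2 ^ m) (z2 : 32 * |z' - x| ≤ 2 ^ m)
    (ht : TopCov Kc a l m0 ms mH m Ξl Ξh) (hΞl : 0 ≤ Ξl) (hΞh : 0 ≤ Ξh) (hH : HiB Kc a mH εH)
    (hE : tail Kc a 1 ≤ E) (c1 : Cov Kc a (2 ^ l) z j1 j0 Ξ) (c2 : Cov Kc a (2 ^ l) z' j1 j0 Ξ)
    (hΞ : 0 ≤ Ξ) (g1 : Gd Kc a z κ 1 (2 ^ m / 8)) (g2 : Gd Kc a z' κ 1 (2 ^ m / 8)) :
    ‖Qf Kc a 0 (al1 (rmp s z)) - Qf Kc a 0 (al1 (rmp s z'))‖ ≤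
      2 ^ 8 * κ ^ 2 * (2 ^ (l + j1)) ^ 4 + 2 ^ 71 * (2 ^ l) ^ 6 * j0 * Ξ +
        3 * 2 ^ m * farB Kc a l m0 mH m E εH Ξl Ξh +
        2 ^ 10 * 2 ^ m * 2 ^ ms * E * tail Kc a (2 ^ m / 16) := by
  have hD : (2 : ℝ) ^ l * 2 ^ (l + j0) = 2 ^ m := by rw [← h6, ← pow_add]; congr 1; omega
  have x1' : (2 : ℝ) ^ m ≤ 2 * |(x : ℝ)| := by exact_mod_cast x1
  have z1' : 32 * |(z : ℝ) - x| ≤ 2 ^ m := by exact_mod_cast z1
  have z2' : 32 * |(z' : ℝ) - x| ≤ 2 ^ m := by exact_mod_cast z2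
  have H := fl_core Kc a hl h0 h1 (by omega) h3 h4 h5 rfl rfl hD hs x1' (by exact_mod_cast x2) z1'
    z2' ht hΞl hΞh hH hE c1 c2 hΞ g1 g2
  obtain ⟨K0, D0, DK, -⟩ := fl_unit hl rfl hD
  generalize (2 : ℝ) ^ (l + j0) = D at *
  generalize (2 : ℝ) ^ m = K at *
  have b1 := abs_le.1 (le_refl |(z : ℝ) - x|)
  have b2 := abs_le.1 (le_refl |(z' : ℝ) - x|)
  have d : ∀ n, |rmp s z n - rmp s z' n| ≤ K / 16 := fun n => by
    unfold rmp
    rw [max_comm, max_comm 0]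
    refine (abs_max_sub_max_le_abs _ _ _).trans (abs_le.2 ?_)
    rcases hs with rfl | rfl <;> push_cast <;> constructor <;> linarith
  have T := two_crude Kc a (ms := ms) (mH := mH) (ζ := 0) (K := K) (S := K) (s := fun k =>
    al1 (rmp s z) k - al1 (rmp s z') k - al1 (rmp s z) k * p4 (trap z D) k +
      al1 (rmp s z') k * p4 (trap z' D) k) h2 K0.le (by simpa using K0.le) hE (fun k _ => by
      have p := abs_le.1 (fl_loc hs z D0 k)
      have p' := abs_le.1 (fl_loc hs z' D0 k)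
      have q0 := abs_le.1 (d (k 0))
      have q1 := abs_le.1 (d (k 1))
      have q2 := abs_le.1 (d (k 2))
      have q3 := abs_le.1 (d (k 3))
      have e : al1 (rmp s z) k - al1 (rmp s z') k = (rmp s z (k 1) - rmp s z' (k 1)) +
          (rmp s z (k 3) - rmp s z' (k 3)) - (rmp s z (k 0) - rmp s z' (k 0)) -
          (rmp s z (k 2) - rmp s z' (k 2)) := by simp only [al1, alt]; ring
      rw [e, abs_le]
      constructor <;> linarith) fun k hk h => by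
      rw [fl_mid hs x1' z1' hk h, fl_mid hs x1' z2' hk h]; ring
  have t0 := fx_tail_nonneg Kc a (K / 16)
  have E0 := (fx_tail_nonneg Kc a 1).trans hE
  have p : 0 ≤ K * 2 ^ ms * E * tail Kc a (K / 16) := by positivity
  have t := norm_add_le_of_le H T
  rw [sub_add_cancel] at t
  linarith

/-- twin cuts, with the part created by two low frequencies kept -/
theorem flux_root {l m0 ms mH m j1 j0 : ℕ} {s x z z' : ℤ} {E εH Ξ Ξl Ξh κ : ℝ} (hl : 11 ≤ l)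
    (h0 : 3 * l ≤ m0) (h1 : m0 + 5 ≤ ms) (h2 : ms + 3 ≤ m) (h3 : m ≤ mH) (h4 : l ≤ j1)
    (h5 : j1 ≤ j0) (h6 : j0 + 2 * l = m) (hs : s = 1 ∨ s = -1) (x1 : 2 ^ m ≤ 2 * |x|)
    (x2 : |x| ≤ 2 * 2 ^ m) (z1 : 32 * |z - x| ≤ 2 ^ m) (z2 : 32 * |z' - x| ≤ 2 ^ m)
    (ht : TopCov Kc a l m0 ms mH m Ξl Ξh) (hΞl : 0 ≤ Ξl) (hΞh : 0 ≤ Ξh) (hH : HiB Kc a mH εH)
    (hE : tail Kc a 1 ≤ E) (c1 : Cov Kc a (2 ^ l) z j1 j0 Ξ) (c2 : Cov Kc a (2 ^ l) z' j1 j0 Ξ)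
    (hΞ : 0 ≤ Ξ) (g1 : Gd Kc a z κ 1 (2 ^ m / 8)) (g2 : Gd Kc a z' κ 1 (2 ^ m / 8)) :
    ‖Qf Kc a 0 (al1 (rmp s z)) - Qf Kc a 0 (al1 (rmp s z')) -
      Qf Kc a 0 fun k => (al1 (rmp s z) k - al1 (rmp s z') k) * two ms mH k‖ ≤
      2 ^ 8 * κ ^ 2 * (2 ^ (l + j1)) ^ 4 + 2 ^ 71 * (2 ^ l) ^ 6 * j0 * Ξ +
        3 * 2 ^ m * farB Kc a l m0 mH m E εH Ξl Ξh := by
  have hD : (2 : ℝ) ^ l * 2 ^ (l + j0) = 2 ^ m := by rw [← h6, ← pow_add]; congr 1; omega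
  have x1' : (2 : ℝ) ^ m ≤ 2 * |(x : ℝ)| := by exact_mod_cast x1
  have z1' : 32 * |(z : ℝ) - x| ≤ 2 ^ m := by exact_mod_cast z1
  have z2' : 32 * |(z' : ℝ) - x| ≤ 2 ^ m := by exact_mod_cast z2
  have H := fl_core Kc a hl h0 h1 (by omega) h3 h4 h5 rfl rfl hD hs x1' (by exact_mod_cast x2) z1'
    z2' ht hΞl hΞh hH hE c1 c2 hΞ g1 g2
  obtain ⟨K0, D0, DK, -⟩ := fl_unit hl rfl hD
  have M : 2 * (2 : ℝ) ^ ms ≤ 2 ^ m / 4 := by
    have := pow_le_pow_right₀ (one_le_two (α := ℝ)) h2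
    rw [pow_add] at this
    linarith
  refine le_trans (le_of_eq ?_) H
  congr 2
  refine Qf_congr Kc a 0 fun k _ _ => ?_
  by_cases h : two ms mH k = 0
  · rw [h, mul_zero, mul_zero]
  · obtain ⟨i, -, -, hi, -⟩ := two_ne h
    rw [fl_zero D0 DK x1' z1' (hi.trans_le M), fl_zero D0 DK x1' z2' (hi.trans_le M)]
    ring

end Pool.Agent.Lib.MMTX
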