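import Pool.Agent.Lib.MP_0dc93f_an.X.NF0

/-! The normal form term. -/

namespace Pool.Agent.Lib.MMTX

open Finset Complex ComplexConjugate MMTW

variable (Kc : ℕ) (a : ℤ → ℂ)

/-- the derivative of the normal form term: the quartic part and the sextic error -/
theorem nf_err {α β E C : ℝ} {ms mH m : ℕ} {y0 y : ℤ} (h1 : 1 / 2 < α) (h2 : α < 1) (h3 : α ≤ β)
    (h4 : β ≤ 2) (hE : 1 ≤ E) (hC : 1 ≤ C) (hm : ms + 8 ≤ m) (hH : ms ≤ mH) (y1 : 2 ^ m ≤ 3 * y0)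
    (y2 : 2 ^ m ≤ 3 * y) (y3 : 8 * |y - y0| ≤ 2 ^ m)
    (ht : ∀ R : ℝ, 0 < R → tail Kc a R ≤ E * R ^ (-β))
    (hn : ∀ k, ‖NL Kc a k‖ ≤ C * br k ^ (-β / 2)) :
    |NFd α Kc a ms mH y0 y - (Qf Kc a 0 (nfs ms mH y0 y)).im| ≤
      2 ^ 20 * C * E * (2 ^ ms) ^ 2 * ((2 : ℝ) ^ m) ^ (-(2 * α - 1) / 2) *
        (2 ^ m * (E * ((2 : ℝ) ^ m / 16) ^ (-β))) := by
  have hP := fun k hk h => nfs_Ph (mH := mH) h1.le hm y1 y2 (k := k) hk h
  have hc : (((FF Kc).filter fun k : ℤ => |(k : ℝ)| ≤ 2 * 2 ^ ms).card : ℝ) ≤ 5 * 2 ^ ms := by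
    have : ((FF Kc).filter fun k : ℤ => |(k : ℝ)| ≤ 2 * 2 ^ ms) ⊆
        Icc (-(2 * 2 ^ ms : ℕ) : ℤ) (2 * 2 ^ ms : ℕ) := fun k hk => by
      rw [mem_Icc, ← abs_le]
      exact_mod_cast (mem_filter.1 hk).2
    have h := card_le_card this
    rw [Int.card_Icc] at h
    have p : 1 ≤ 2 ^ ms := Nat.one_le_two_pow
    have h' : ((FF Kc).filter fun k : ℤ => |(k : ℝ)| ≤ 2 * 2 ^ ms).card ≤ 5 * 2 ^ ms := by omega
    exact_mod_cast h'
  have hK : (256 : ℝ) * 2 ^ ms ≤ 2 ^ m := by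
    have := pow_le_pow_right₀ (one_le_two (α := ℝ)) hm
    rw [pow_add] at this
    linarith
  have hM : (1 : ℝ) ≤ 2 ^ ms := one_le_pow₀ one_le_two
  have z3 : 8 * |(y : ℝ) - y0| ≤ 2 ^ m := by exact_mod_cast y3
  generalize (2 : ℝ) ^ m = K at *
  generalize (2 : ℝ) ^ ms = M at *
  obtain ⟨R, hR⟩ : ∃ R, R = K / 4 := ⟨_, rfl⟩
  rw [← hR] at hP
  have R4 : 4 ≤ R := by linarith
  have R0 : 0 < R := by linarith
  have hw : ∀ k, De k = 0 → nfs ms mH y0 y k / Ph α k ≠ 0 → ∀ x : ℤ, R ≤ |(x : ℝ)| →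
      om α x / 2 ≤ Ph α k → |nfs ms mH y0 y k / Ph α k| ≤ K / 2 * |(om α x)⁻¹| := by
    intro k _ _ x hx h
    have o : 0 < om α x := Real.rpow_pos_of_pos (by linarith) _
    have := nfe_nfs ms mH y0 y k
    rw [abs_div, abs_of_pos (by linarith : 0 < Ph α k), abs_of_pos (inv_pos.2 o)]
    refine (div_le_div₀ (by linarith : 0 ≤ K / 4) (by linarith) (by linarith) h).trans (le_of_eq ?_)
    field_simp
    norm_num
  have w0 : ∀ k, De k = 0 → nfs ms mH y0 y k / Ph α k ≠ 0 → |(k 1 : ℝ)| ≤ 2 * M ∧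
      |(k 3 : ℝ)| ≤ 2 * M ∧ R ≤ |(k 0 : ℝ)| ∧ R ≤ |(k 2 : ℝ)| ∧ |nfs ms mH y0 y k / Ph α k| ≤
        K / 2 * (|(fun x => (om α x)⁻¹) (k 0)| * |(fun _ => (1 : ℝ)) (k 2)|) := fun k hk h => by
    obtain ⟨c1, c3, c0, c2, d0, -⟩ := hP k hk (div_ne_zero_iff.1 h).1
    exact ⟨c1.le, c3.le, c0, c2, by simpa using hw k hk h _ c0 d0⟩
  have w2 : ∀ k, De k = 0 → nfs ms mH y0 y k / Ph α k ≠ 0 → |(k 1 : ℝ)| ≤ 2 * M ∧
      |(k 3 : ℝ)| ≤ 2 * M ∧ R ≤ |(k 0 : ℝ)| ∧ R ≤ |(k 2 : ℝ)| ∧ |nfs ms mH y0 y k / Ph α k| ≤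
        K / 2 * (|(fun _ => (1 : ℝ)) (k 0)| * |(fun x => (om α x)⁻¹) (k 2)|) := fun k hk h => by
    obtain ⟨c1, c3, c0, c2, -, d2⟩ := hP k hk (div_ne_zero_iff.1 h).1
    exact ⟨c1.le, c3.le, c0, c2, by simpa using hw k hk h _ c2 d2⟩
  obtain ⟨P, hPd⟩ : ∃ P, P = R ^ (-(2 * α - 1) / 2) := ⟨_, rfl⟩
  obtain ⟨Q, hQ⟩ : ∃ Q, Q = R ^ (-β / 2) := ⟨_, rfl⟩
  have P0 : 0 ≤ P := by rw [hPd]; positivity
  have Q0 : 0 ≤ Q := by rw [hQ]; positivity
  have sq : ∀ x : ℝ, 0 ≤ x → ∀ s : ℝ, (x ^ (s / 2)) ^ 2 = x ^ s := fun x hx s => by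
    rw [← Real.rpow_natCast, ← Real.rpow_mul hx]; norm_num
  have Q2 : Q ^ 2 = R ^ (-β) := by rw [hQ, sq R R0.le]
  have e2 : √E ^ 2 = E := Real.sq_sqrt (by linarith)
  have e0 := Real.sqrt_nonneg E
  have eE : √E ≤ E := Real.sqrt_le_iff.2 ⟨by linarith, by nlinarith⟩
  have aN : ∑ k ∈ FF Kc, (if R ≤ |(k : ℝ)| then (om α k)⁻¹ * ‖NL Kc a k‖ else 0) ^ 2 ≤
      (3 * C * P * Q) ^ 2 := by
    have h := mul_le_mul_of_nonneg_left (nfe_sum R4 (s := 2 * α + β) (by linarith) Kc) (sq_nonneg C)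
    rw [mul_sum] at h
    refine (sum_le_sum fun k _ => ?_).trans (h.trans ?_)
    · split_ifs with c
      · have k0 : 0 < |(k : ℝ)| := by linarith
        have b : br k ^ (-β / 2) ≤ |(k : ℝ)| ^ (-β / 2) :=
          Real.rpow_le_rpow_of_nonpos k0 (by rw [br]; linarith) (by linarith)
        have b2 := (hn k).trans (mul_le_mul_of_nonneg_left b (by linarith))
        have o : 0 ≤ (om α k)⁻¹ := inv_nonneg.2 (Real.rpow_nonneg k0.le _)
        refine (pow_le_pow_left₀ (by positivity) (mul_le_mul_of_nonneg_left b2 o) 2).trans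
          (le_of_eq ?_)
        rw [om, ← Real.rpow_neg k0.le, mul_left_comm, ← Real.rpow_add k0, mul_pow,
          show -α + -β / 2 = -(2 * α + β) / 2 by ring, sq _ k0.le]
      · simp
    · have : R ^ (1 - (2 * α + β)) = P ^ 2 * Q ^ 2 := by
        rw [Q2, hPd, sq R R0.le, ← Real.rpow_add R0]; congr 1; ring
      rw [this]
      nlinarith [sq_nonneg (C * P * Q)]
  have aA : ∑ k ∈ FF Kc, (if R ≤ |(k : ℝ)| then 1 * ‖a k‖ else 0) ^ 2 ≤ (√E * Q) ^ 2 := by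
    rw [mul_pow, e2, Q2]
    refine le_trans ?_ (ht R R0)
    rw [tail, sum_filter]
    refine sum_le_sum fun k _ => ?_
    by_cases c : R ≤ |(k : ℝ)|
    · rw [if_pos c, if_pos (by rw [br]; linarith), one_mul]
    · rw [if_neg c, zero_pow two_ne_zero]
      positivity
  have aB : ∑ k ∈ FF Kc, (if R ≤ |(k : ℝ)| then (om α k)⁻¹ * ‖a k‖ else 0) ^ 2 ≤
      (P * (√E * Q)) ^ 2 := by
    rw [mul_pow]
    refine le_trans ?_ (mul_le_mul_of_nonneg_left aA (sq_nonneg P))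
    rw [mul_sum]
    refine sum_le_sum fun k _ => ?_
    split_ifs with c
    · have k0 : 0 < |(k : ℝ)| := by linarith
      have o : 0 ≤ (om α k)⁻¹ := inv_nonneg.2 (Real.rpow_nonneg k0.le _)
      have : (om α k)⁻¹ ≤ P := by
        rw [om, ← Real.rpow_neg k0.le, hPd]
        exact (Real.rpow_le_rpow_of_nonpos R0 c (by linarith)).trans
          (Real.rpow_le_rpow_of_exponent_le (by linarith) (by linarith))
      rw [one_mul, ← mul_pow]
      exact pow_le_pow_left₀ (by positivity) (mul_le_mul_of_nonneg_right this (norm_nonneg _)) 2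
    · simp
  have l0 : 0 ≤ ∑ k ∈ FF Kc, if |(k : ℝ)| ≤ 2 * M then ‖a k‖ else 0 :=
    sum_nonneg fun k _ => by positivity
  have l2 : (∑ k ∈ FF Kc, if |(k : ℝ)| ≤ 2 * M then ‖a k‖ else 0) *
      (∑ k ∈ FF Kc, if |(k : ℝ)| ≤ 2 * M then ‖a k‖ else 0) ≤ 5 * M * E * 1 := by
    have h := ht 1 one_pos
    rw [Real.one_rpow, mul_one, tail, filter_true_of_mem fun k _ => by
      rw [br]; linarith [abs_nonneg (k : ℝ)]] at h
    rw [← pow_two, ← sum_filter, mul_one]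
    exact sq_sum_le_card_mul_sum_sq.trans (mul_le_mul hc ((sum_le_sum_of_subset_of_nonneg
      (filter_subset _ _) fun _ _ _ => sq_nonneg _).trans h)
      (sum_nonneg fun _ _ => sq_nonneg _) (by linarith))
  have ME : 1 ≤ 5 * M * E := by nlinarith
  have l1 : (∑ k ∈ FF Kc, if |(k : ℝ)| ≤ 2 * M then ‖a k‖ else 0) ≤ 5 * M * E := by
    by_contra c
    nlinarith
  have n0 : 0 ≤ ∑ k ∈ FF Kc, if |(k : ℝ)| ≤ 2 * M then ‖NL Kc a k‖ else 0 :=
    sum_nonneg fun k _ => by positivity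
  have n1 : (∑ k ∈ FF Kc, if |(k : ℝ)| ≤ 2 * M then ‖NL Kc a k‖ else 0) ≤ 5 * M * C := by
    rw [← sum_filter]
    refine (sum_le_card_nsmul _ _ C fun k _ => (hn k).trans (mul_le_of_le_one_right (by linarith)
      (Real.rpow_le_one_of_one_le_of_nonpos ?_ (by linarith)))).trans ?_
    · rw [br]; linarith [abs_nonneg (k : ℝ)]
    · rw [nsmul_eq_mul]
      exact mul_le_mul_of_nonneg_right hc (by linarith)
  have K0 : 0 ≤ K / 2 := by linarith
  have C0 : 0 ≤ C := by linarith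
  have na := fun k => norm_nonneg (a k)
  have nN := fun k => norm_nonneg (NL Kc a k)
  have T0 := nfe_key Kc K0 nN na na na w0 aN (by positivity) aA (by positivity) l2
  have T1 := nfe_key Kc K0 na nN na na w0 aB (by positivity) aA (by positivity)
    (mul_le_mul n1 l1 l0 (by positivity))
  have T2 := nfe_key Kc K0 na na nN na w2 aA (by positivity) aN (by positivity) l2
  have T3 := nfe_key Kc K0 na na na nN w0 aB (by positivity) aA (by positivity)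
    (mul_le_mul l1 n1 n0 (by positivity))
  have T := add_le_add (add_le_add (add_le_add T0 T1) T2) T3
  simp only [← sum_add_distrib] at T
  rw [NFd, Qf, Complex.re_sum, Complex.im_sum, ← sum_sub_distrib]
  refine (abs_sum_le_sum_abs _ _).trans ((sum_le_sum fun k hk => nfe_lin Kc a fun h => ?_).trans
    (T.trans ?_))
  · obtain ⟨-, -, c0, -, d0, -⟩ := hP k (mem_filter.1 hk).2 h
    have o : 0 < om α (k 0) := Real.rpow_pos_of_pos (by linarith) _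
    exact ne_of_gt (by linarith)
  have K1 : 0 < K := by linarith
  have b1 : Q ^ 2 ≤ (K / 16) ^ (-β) := by
    rw [Q2]
    exact Real.rpow_le_rpow_of_nonpos (by linarith) (by linarith) (by linarith)
  have b2 : P ≤ 4 * K ^ (-(2 * α - 1) / 2) := by
    rw [hPd, hR, Real.div_rpow K1.le (by norm_num), div_eq_mul_inv, mul_comm,
      ← Real.rpow_neg (by norm_num)]
    refine mul_le_mul_of_nonneg_right ?_ (by positivity)
    simpa using Real.rpow_le_rpow_of_exponent_le (x := 4) (by norm_num)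
      (show -(-(2 * α - 1) / 2) ≤ 1 by linarith)
  have b3 : P * Q ^ 2 ≤ 4 * K ^ (-(2 * α - 1) / 2) * (K / 16) ^ (-β) :=
    mul_le_mul b2 b1 (sq_nonneg _) (by positivity)
  have b4 : √E * M ≤ E * M ^ 2 := mul_le_mul eE (by nlinarith) (by linarith) (by linarith)
  have b5 : 0 ≤ K ^ (-(2 * α - 1) / 2) * (K / 16) ^ (-β) := by positivity
  have E0 : 0 ≤ E := by linarith
  calc _ = 15 * (K * C * E * (P * Q ^ 2)) * (√E * M) +
        25 * (K * C * E * (P * Q ^ 2)) * (√E ^ 2 * M ^ 2) := by ring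
    _ ≤ 15 * (K * C * E * (P * Q ^ 2)) * (E * M ^ 2) +
        25 * (K * C * E * (P * Q ^ 2)) * (E * M ^ 2) := by
        rw [e2]
        exact add_le_add (mul_le_mul_of_nonneg_left b4 (by positivity)) le_rfl
    _ = 40 * (K * C * E * (E * M ^ 2)) * (P * Q ^ 2) := by ring
    _ ≤ 40 * (K * C * E * (E * M ^ 2)) * (4 * K ^ (-(2 * α - 1) / 2) * (K / 16) ^ (-β)) :=
        mul_le_mul_of_nonneg_left b3 (by positivity)
    _ = 160 * (K * C * E * (E * M ^ 2) * (K ^ (-(2 * α - 1) / 2) * (K / 16) ^ (-β))) := by ring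
    _ ≤ 2 ^ 20 * (K * C * E * (E * M ^ 2) * (K ^ (-(2 * α - 1) / 2) * (K / 16) ^ (-β))) :=
        mul_le_mul_of_nonneg_right (by norm_num) (by positivity)
    _ = _ := by ring

end Pool.Agent.Lib.MMTX
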