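import Pool.Agent.Lib.MP_0dc93f_an.X.Two

/-! The normal form term cancels the worst part of the flux. -/

namespace Pool.Agent.Lib.MMTX

open Finset Complex ComplexConjugate MMTW

theorem nfc_two (ms mH : ℕ) (k : Fin 4 → ℤ) (l h : Fin 4 → ℝ) (hl : ∀ i, lo ms (k i) = l i)
    (hh : ∀ i, lo mH (k i) - l i = h i) : two ms mH k =
    (l 0 * h 2 + h 0 * l 2) * (l 1 * h 3 + h 1 * l 3) + h 0 * l 1 * h 2 * l 3 +
      l 0 * h 1 * l 2 * h 3 + l 0 * l 1 * l 2 * (h 3 + l 3) + l 0 * l 1 * l 3 * h 2 +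
      l 0 * l 2 * l 3 * h 1 + l 1 * l 2 * l 3 * h 0 := by
  have e : (univ.filter fun A : Finset (Fin 4) => 2 ≤ A.card) =
      {{0, 1}, {0, 2}, {0, 3}, {1, 2}, {1, 3}, {2, 3}, {0, 1, 2}, {0, 1, 3}, {0, 2, 3}, {1, 2, 3},
        {0, 1, 2, 3}} := by decide
  simp only [two, hl, hh]
  rw [e]
  repeat rw [sum_insert (by decide)]
  rw [sum_singleton]
  simp only [Fin.prod_univ_four]
  simp
  ring

theorem nfc_lip (y y' t s : ℝ) :
    |max 0 (t - y) - max 0 (t - y') - (max 0 (s - y) - max 0 (s - y'))| ≤ |t - s| := by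
  have := le_abs_self (t - s)
  have := neg_abs_le (t - s)
  rw [abs_le]
  simp only [max_def]
  split_ifs <;> constructor <;> linarith

theorem nfc_lo (m : ℕ) (k : ℤ) : 0 ≤ lo m k ∧ lo m k ≤ 1 :=
  ⟨le_max_left _ _, max_le zero_le_one (min_le_left _ _)⟩

theorem nfc_supp {m : ℕ} {k : ℤ} (h : lo m k ≠ 0) : |(k : ℝ)| < 2 * 2 ^ m := by
  simpa using trap_ne 0 (D := 2 ^ m) (by positivity) h

variable (Kc : ℕ) (a : ℤ → ℂ)

/-- the normal form term cancels the creation of a pair by two low frequencies -/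
theorem nf_cancel {E : ℝ} {ms mH m : ℕ} {y0 y y' : ℤ} (hm : ms + 8 ≤ m) (hH : ms ≤ mH)
    (y1 : 2 ^ m ≤ 3 * y) (y2 : 2 ^ m ≤ 3 * y') (hE : tail Kc a 1 ≤ E) :
    |(Qf Kc a 0 fun k => (al1 (rE y) k - al1 (rE y') k) * two ms mH k).im / 2 +
      (Qf Kc a 0 (nfs ms mH y0 y)).im - (Qf Kc a 0 (nfs ms mH y0 y')).im| ≤
      2 ^ 8 * (2 ^ ms) ^ 2 * E * tail Kc a (2 ^ m / 16) := by
  have y1' : (2 : ℝ) ^ m ≤ 3 * y := by exact_mod_cast y1
  have y2' : (2 : ℝ) ^ m ≤ 3 * y' := by exact_mod_cast y2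
  have hM : (1 : ℝ) ≤ 2 ^ ms := one_le_pow₀ (by norm_num)
  have hK : (256 : ℝ) * 2 ^ ms ≤ 2 ^ m := by
    calc (256 : ℝ) * 2 ^ ms = 2 ^ (ms + 8) := by ring
      _ ≤ _ := pow_le_pow_right₀ (by norm_num) hm
  set r : ℤ → ℝ := fun n => rE y n - rE y' n with hr
  set l : ℤ → ℝ := lo ms with hl
  set h : ℤ → ℝ := fun n => lo mH n - lo ms n with hh
  have r0 : ∀ n : ℤ, |(n : ℝ)| ≤ 2 ^ m / 3 → r n = 0 := fun n hn => by
    simp only [hr, rE]
    rw [max_eq_left (by linarith), max_eq_left (by linarith), sub_zero]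
  have rl : ∀ n n' : ℤ, |r n - r n'| ≤ |(n : ℝ) - n'| := fun n n' =>
    (nfc_lip _ _ _ _).trans (abs_abs_sub_abs_le_abs_sub _ _)
  have ls : ∀ n, l n ≠ 0 → |(n : ℝ)| < 2 * 2 ^ ms := fun n => nfc_supp
  have lr : ∀ n, l n ≠ 0 → r n = 0 := fun n hn => r0 n (by have := ls n hn; linarith)
  have z : ∀ n, r n * l n = 0 := fun n => by
    by_cases e : l n = 0
    · rw [e, mul_zero]
    · rw [lr n e, zero_mul]
  have z3 : ∀ n u v w : ℤ, |(n : ℝ)| ≤ |(u : ℝ)| + |(v : ℝ)| + |(w : ℝ)| →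
      r n * (l u * l v * l w) = 0 := fun n u v w e => by
    by_cases e' : l u * l v * l w = 0
    · rw [e', mul_zero]
    · have h1 := ls u (left_ne_zero_of_mul (left_ne_zero_of_mul e'))
      have h2 := ls v (right_ne_zero_of_mul (left_ne_zero_of_mul e'))
      have h3 := ls w (right_ne_zero_of_mul e')
      rw [r0 n (by linarith), zero_mul]
  set ν : (Fin 4 → ℤ) → ℝ := fun k =>
    (r (k 0) + r (k 2)) * (l (k 1) * l (k 3) * (h (k 0) * h (k 2))) with hν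
  set σ : (Fin 4 → ℤ) → ℝ := fun k => r (k 1) + r (k 3) - r (k 0) - r (k 2) with hσ
  set μ : (Fin 4 → ℤ) → ℝ := fun k => σ k *
    ((l (k 0) * h (k 2) + h (k 0) * l (k 2)) * (l (k 1) * h (k 3) + h (k 1) * l (k 3))) with hμ
  have de : ∀ k : Fin 4 → ℤ, De k = 0 → (k 0 : ℝ) - k 1 + k 2 - k 3 = 0 := fun k hk => by
    exact_mod_cast hk
  have e1 : (Qf Kc a 0 fun k => (al1 (rE y) k - al1 (rE y') k) * two ms mH k) =
      Qf Kc a 0 μ - Qf Kc a 0 ν + conj (Qf Kc a 0 ν) := by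
    rw [Qf_conj, neg_zero, ← Qf_sub, ← Qf_add]
    refine Qf_congr _ _ _ fun k _ hk => ?_
    have d := de k hk
    have b (i : Fin 4) := le_abs_self (k i : ℝ)
    have b' (i : Fin 4) := neg_abs_le (k i : ℝ)
    have t0 := z3 (k 0) (k 1) (k 2) (k 3) (abs_le.2
      ⟨by linarith [b 1, b 2, b 3, b' 1, b' 2, b' 3], by linarith [b 1, b 2, b 3, b' 1, b' 2, b' 3]⟩)
    have t1 := z3 (k 1) (k 0) (k 2) (k 3) (abs_le.2
      ⟨by linarith [b 0, b 2, b 3, b' 0, b' 2, b' 3], by linarith [b 0, b 2, b 3, b' 0, b' 2, b' 3]⟩)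
    have t2 := z3 (k 2) (k 0) (k 1) (k 3) (abs_le.2
      ⟨by linarith [b 0, b 1, b 3, b' 0, b' 1, b' 3], by linarith [b 0, b 1, b 3, b' 0, b' 1, b' 3]⟩)
    have t3 := z3 (k 3) (k 0) (k 1) (k 2) (abs_le.2
      ⟨by linarith [b 0, b 1, b 2, b' 0, b' 1, b' 2], by linarith [b 0, b 1, b 2, b' 0, b' 1, b' 2]⟩)
    have z0 := z (k 0)
    have z1 := z (k 1)
    have z2 := z (k 2)
    have z4 := z (k 3)
    have s : al1 (rE y) k - al1 (rE y') k = σ k := by simp only [al1, alt, hσ, hr]; ring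
    rw [s, nfc_two ms mH k (fun i => l (k i)) (fun i => h (k i)) (fun _ => rfl) fun _ => rfl]
    have s0 : σ k * (l (k 1) * l (k 2) * l (k 3)) = 0 := by
      simp only [hσ]
      linear_combination l (k 2) * l (k 3) * z1 + l (k 1) * l (k 2) * z4 - t0 -
        l (k 1) * l (k 3) * z2
    have s1 : σ k * (l (k 0) * l (k 2) * l (k 3)) = 0 := by
      simp only [hσ]
      linear_combination t1 + l (k 0) * l (k 2) * z4 - l (k 2) * l (k 3) * z0 -
        l (k 0) * l (k 3) * z2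
    have s2 : σ k * (l (k 0) * l (k 1) * l (k 3)) = 0 := by
      simp only [hσ]
      linear_combination l (k 0) * l (k 3) * z1 + l (k 0) * l (k 1) * z4 - l (k 1) * l (k 3) * z0 -
        t2
    have s3 : σ k * (l (k 0) * l (k 1) * l (k 2)) = 0 := by
      simp only [hσ]
      linear_combination l (k 0) * l (k 2) * z1 + t3 - l (k 1) * l (k 2) * z0 -
        l (k 0) * l (k 1) * z2
    have n1 : ν ![k 1, k 0, k 3, k 2] =
        (r (k 1) + r (k 3)) * (l (k 0) * l (k 2) * (h (k 1) * h (k 3))) := rfl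
    rw [n1]
    simp only [hμ, hν]
    simp only [hσ] at s0 s1 s2 s3 ⊢
    linear_combination (h (k 3) + l (k 3)) * s3 + h (k 2) * s2 + h (k 1) * s1 + h (k 0) * s0 +
      h (k 0) * h (k 2) * l (k 3) * z1 + h (k 0) * l (k 1) * h (k 2) * z4 -
      h (k 1) * l (k 2) * h (k 3) * z0 - l (k 0) * h (k 1) * h (k 3) * z2
  have e2 : Qf Kc a 0 ν = Qf Kc a 0 (nfs ms mH y0 y) - Qf Kc a 0 (nfs ms mH y0 y') := by
    rw [← Qf_sub]
    refine Qf_congr _ _ _ fun k _ _ => ?_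
    simp only [hν, nfs, hr, hl, hh]
    ring
  have l1 : ∀ n, |l n| ≤ 1 := fun n => by rw [abs_of_nonneg (nfc_lo _ _).1]; exact (nfc_lo _ _).2
  have h1 : ∀ n, |h n| ≤ 1 := fun n => by
    have := nfc_lo mH n
    have := nfc_lo ms n
    simp only [hh]
    rw [abs_le]; constructor <;> linarith
  have f2 : ∀ u v : ℤ, |l u * h v + h u * l v| ≤ 2 := fun u v => by
    refine (abs_add_le _ _).trans ?_
    rw [abs_mul, abs_mul]
    have := mul_le_one₀ (l1 u) (abs_nonneg _) (h1 v)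
    have := mul_le_one₀ (h1 u) (abs_nonneg _) (l1 v)
    linarith
  have f0 : ∀ u v : ℤ, l u * h v + h u * l v ≠ 0 → l u ≠ 0 ∨ l v ≠ 0 := fun u v e => by
    by_contra hc
    push Not at hc
    exact e (by rw [hc.1, hc.2]; ring)
  have low : ∀ k, μ k ≠ 0 → (l (k 0) ≠ 0 ∨ l (k 2) ≠ 0) ∧ (l (k 1) ≠ 0 ∨ l (k 3) ≠ 0) :=
    fun k hk => ⟨f0 _ _ (left_ne_zero_of_mul (right_ne_zero_of_mul hk)),
      f0 _ _ (right_ne_zero_of_mul (right_ne_zero_of_mul hk))⟩
  have sb : ∀ u v u' v' : ℤ, l u ≠ 0 → l v ≠ 0 → (u' : ℝ) - v' = v - u →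
      |r u + r u' - r v - r v'| ≤ 4 * 2 ^ ms := fun u v u' v' hu hv e => by
    have := rl u' v'
    have h2 := ls u hu
    have h3 := ls v hv
    have h4 := abs_sub (v : ℝ) u
    rw [lr u hu, lr v hv, zero_add, sub_zero]
    rw [e] at this
    linarith
  have key := norm_Qf_le Kc a (ζ := 0) (s := μ) (S := 16 * 2 ^ ms)
    (p := fun k => (∃ i j, i ≠ j ∧ |(k i : ℝ)| ≤ 2 * 2 ^ ms ∧ |(k j : ℝ)| ≤ 2 * 2 ^ ms) ∧
      ∃ i, (2 : ℝ) ^ m / 4 ≤ |(k i : ℝ)|) (by positivity)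
    (fun k hk => by
      by_cases e : μ k = 0
      · rw [e, abs_zero]; positivity
      have d := de k hk
      have s : |σ k| ≤ 4 * 2 ^ ms := by
        obtain ⟨u | u, v | v⟩ := low k e
        · have := sb (k 1) (k 0) (k 3) (k 2) v u (by linarith)
          exact this
        · have := sb (k 3) (k 0) (k 1) (k 2) v u (by linarith)
          simp only [hσ]; rwa [add_comm (r (k 1))]
        · have := sb (k 1) (k 2) (k 3) (k 0) v u (by linarith)
          simp only [hσ]; rwa [sub_right_comm]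
        · have := sb (k 3) (k 2) (k 1) (k 0) v u (by linarith)
          simp only [hσ]; rwa [sub_right_comm, add_comm (r (k 1))]
      simp only [hμ]
      rw [abs_mul, abs_mul]
      refine (mul_le_mul s (mul_le_mul (f2 _ _) (f2 _ _) (abs_nonneg _) (by norm_num))
        (by positivity) (by positivity)).trans (le_of_eq ?_)
      ring)
    (fun k _ e => by
      constructor
      · obtain ⟨u | u, v | v⟩ := low k e
        · exact ⟨0, 1, by decide, (ls _ u).le, (ls _ v).le⟩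
        · exact ⟨0, 3, by decide, (ls _ u).le, (ls _ v).le⟩
        · exact ⟨2, 1, by decide, (ls _ u).le, (ls _ v).le⟩
        · exact ⟨2, 3, by decide, (ls _ u).le, (ls _ v).le⟩
      · by_contra hc
        push Not at hc
        have : ∀ i, r (k i) = 0 := fun i => r0 _ (by have := hc i; linarith)
        exact left_ne_zero_of_mul e (by simp only [hσ, this]; ring))
  have c := c2 Kc a (ζ := 0) (M := 2 ^ ms) (K := 2 ^ m) (by positivity) (by simp) hE
  have T0 : ∀ R, 0 ≤ tail Kc a R := fun R => sum_nonneg fun _ _ => sq_nonneg _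
  have E0 : 0 ≤ E := (T0 1).trans hE
  have e3 : (Qf Kc a 0 fun k => (al1 (rE y) k - al1 (rE y') k) * two ms mH k).im / 2 +
      (Qf Kc a 0 (nfs ms mH y0 y)).im - (Qf Kc a 0 (nfs ms mH y0 y')).im =
      (Qf Kc a 0 μ).im / 2 := by
    rw [e1, e2]
    simp only [add_im, sub_im, conj_im]
    ring
  rw [e3, abs_div, abs_two]
  have T := T0 (2 ^ m / 16)
  calc _ ≤ 16 * 2 ^ ms * (6 * tail Kc a (2 ^ m / 16) * ((4 * 2 ^ ms + 1) * E)) / 2 := by
        gcongr
        exact (abs_im_le_norm _).trans (key.trans (by gcongr))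
    _ ≤ 16 * 2 ^ ms * (6 * tail Kc a (2 ^ m / 16) * ((4 * 2 ^ ms + 2 ^ ms) * E)) / 2 := by gcongr
    _ = 240 * ((2 ^ ms) ^ 2 * E * tail Kc a (2 ^ m / 16)) := by ring
    _ ≤ 2 ^ 8 * ((2 ^ ms) ^ 2 * E * tail Kc a (2 ^ m / 16)) := by gcongr; norm_num
    _ = _ := by ring

end Pool.Agent.Lib.MMTX
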