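import Pool.Agent.Lib.MP_0dc93f_an.X.ParF
import Pool.Agent.Lib.MP_0dc93f_an.X.Flux
import Pool.Agent.Lib.MP_0dc93f_an.X.NF
import Pool.Agent.Lib.MP_0dc93f_an.X.NFc

/-! The fluxes in the derivative of the functional. -/

namespace Pool.Agent.Lib.MMTX

open Finset Complex ComplexConjugate MMTW

variable {p : Par} {S : Sys} {a : ℤ → ℂ} {Y : ℝ} {c d : S.C}

theorem dk_two (hp : p.OK) {n : ℕ} (hn : n ≤ 100) : (2 : ℝ) ^ n ≤ p.B :=
  (pow_le_pow_right₀ (by norm_num) hn).trans hp.B_ge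

theorem dk_E (hp : p.OK) : p.E ≤ p.B := hp.e2.trans hp.L_le_B

theorem dk_η (hp : p.OK) {n : ℕ} (hn : n ≤ 200) : p.η ^ 2 * p.B ^ n ≤ 1 := by
  have hB := hp.B_one
  have h0 := hp.h0
  calc p.η ^ 2 * p.B ^ n ≤ p.η ^ 2 * p.B ^ 200 :=
        mul_le_mul_of_nonneg_left (pow_le_pow_right₀ hB hn) (by positivity)
    _ = (p.η * p.B ^ 100) ^ 2 := by ring
    _ ≤ 1 := pow_le_one₀ (by positivity) hp.h1

theorem dk_M (hp : p.OK) {n m : ℕ} (hn : n ≤ 200) (hm : p.m0 ≤ m) : p.B ^ n ≤ 2 ^ m :=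
  ((pow_le_pow_right₀ hp.B_one hn).trans hp.B_le_M0).trans (pow_le_pow_right₀ (by norm_num) hm)

theorem dk_div (hp : p.OK) (hY : 0 ≤ Y) {x : ℝ} (h : x * p.B ^ 4 ≤ p.S0) :
    x ≤ (Y + p.S0) / p.B ^ 4 :=
  (le_div_iff₀ (pow_pos hp.B_pos 4)).2 (by linarith)

theorem dk_end (hp : p.OK) (hY : 0 ≤ Y) : 8 * ((Y + p.S0) / p.B ^ 4) ≤ (Y + p.S0) / p.B ^ 3 := by
  have hB := hp.B_pos
  have h8 : (2 : ℝ) ^ 3 ≤ p.B := dk_two hp (by norm_num)
  have h0 : 0 ≤ (Y + p.S0) / p.B ^ 4 := div_nonneg (by linarith [hp.S0_pos]) (by positivity)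
  calc 8 * ((Y + p.S0) / p.B ^ 4) ≤ p.B * ((Y + p.S0) / p.B ^ 4) :=
        mul_le_mul_of_nonneg_right (by linarith) h0
    _ = _ := by field_simp

/-- the two local terms of the flux -/
theorem dk_loc (hp : p.OK) (hY : 0 ≤ Y) {wt : ℝ} {m : ℕ} (h0 : 0 < wt) (hm : p.m0 ≤ m)
    (hm' : m ≤ p.mH) (hw : wt * 2 ^ m * p.mb m ^ 2 * p.B ^ 7 ≤ p.S0) :
    wt * (2 ^ 8 * p.kp m ^ 2 * (2 ^ (p.l + p.j1 m)) ^ 4 +
      2 ^ 71 * (2 ^ p.l) ^ 6 * p.j0 m * (Y / (p.B ^ 10 * wt))) ≤ 2 * ((Y + p.S0) / p.B ^ 4) := by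
  have hB := hp.B_pos
  have hL := hp.L_ge
  have hb := hp.mb_pos m
  have t1 : wt * (2 ^ 8 * p.kp m ^ 2 * (2 ^ (p.l + p.j1 m)) ^ 4) ≤ (Y + p.S0) / p.B ^ 4 := by
    refine dk_div hp hY (le_trans ?_ hw)
    have h1 : ((2 : ℝ) ^ (p.l + p.j1 m)) ^ 4 ≤ (2 ^ m) ^ 3 := by
      rw [← pow_mul, ← pow_mul]
      exact pow_le_pow_right₀ (by norm_num) (by have := (hp.j_spec hm).2.2.2; omega)
    have h2 : (2 : ℝ) ^ 8 ≤ p.B := dk_two hp (by norm_num)
    calc wt * (2 ^ 8 * p.kp m ^ 2 * (2 ^ (p.l + p.j1 m)) ^ 4) * p.B ^ 4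
        ≤ wt * (p.B * p.kp m ^ 2 * (2 ^ m) ^ 3) * p.B ^ 4 := by gcongr
      _ = _ := by unfold Par.kp; field_simp
  have t2 : wt * (2 ^ 71 * (2 ^ p.l) ^ 6 * p.j0 m * (Y / (p.B ^ 10 * wt))) ≤
      (Y + p.S0) / p.B ^ 4 := by
    have h1 : (2 : ℝ) ^ 71 ≤ p.L := (pow_le_pow_right₀ (by norm_num) (by norm_num)).trans hp.L_one
    have h2 := hp.j0_le hm'
    have h3 : (2 : ℝ) ^ 71 * (2 ^ p.l) ^ 6 * p.j0 m ≤ p.B ^ 6 := by
      rw [← Par.OK.L_cast]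
      calc (2 : ℝ) ^ 71 * (p.L : ℝ) ^ 6 * p.j0 m ≤ p.L * (p.L : ℝ) ^ 6 * p.L := by gcongr
        _ = (p.L : ℝ) ^ 8 := by ring
        _ ≤ (p.L : ℝ) ^ 60 := pow_le_pow_right₀ hL (by norm_num)
        _ ≤ p.B := hp.L_B
        _ ≤ p.B ^ 6 := le_self_pow₀ hp.B_one (by norm_num)
    calc wt * (2 ^ 71 * (2 ^ p.l) ^ 6 * p.j0 m * (Y / (p.B ^ 10 * wt)))
        ≤ wt * (p.B ^ 6 * (Y / (p.B ^ 10 * wt))) := by gcongr
      _ = Y / p.B ^ 4 := by field_simp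
      _ ≤ _ := div_le_div_of_nonneg_right (by linarith [hp.S0_pos]) (by positivity)
  rw [mul_add]
  linarith

theorem dk_rmp {s : ℤ} (hs : s = 1 ∨ s = -1) (z z' k : ℤ) :
    |rmp s z k - rmp s z' k| ≤ |(z : ℝ) - z'| := by
  unfold rmp
  rw [max_comm 0, max_comm 0]
  refine (abs_max_sub_max_le_abs _ _ _).trans (le_of_eq ?_)
  rcases hs with rfl | rfl
  · rw [abs_sub_comm]; congr 1; push_cast; ring
  · congr 1; push_cast; ring

theorem dk_even {y : ℤ} (hy : 0 ≤ y) (k : Fin 4 → ℤ) :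
    al1 (rE y) k = al1 (rmp 1 y) k + al1 (rmp (-1) (-y)) k := by
  have h : ∀ n : ℤ, rE y n = rmp 1 y n + rmp (-1) (-y) n := by
    intro n
    have h0 : (0 : ℝ) ≤ y := by exact_mod_cast hy
    unfold rE rmp
    push_cast
    rcases le_total 0 (n : ℝ) with h | h
    · rw [abs_of_nonneg h, max_eq_left (a := 0) (b := -1 * ((n : ℝ) - -y)) (by linarith)]
      ring_nf
    · rw [abs_of_nonpos h, max_eq_left (a := 0) (b := 1 * ((n : ℝ) - y)) (by linarith)]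
      ring_nf
  simp only [al1, alt, h]
  ring

theorem item_kink (hp : p.OK) (hS : S.Stat p) (ha : p.Amb a) (hY : 0 ≤ Y)
    (h1 : S.Nice p true c a Y) (h2 : S.Nice p false d a Y) (z : S.K) :
    S.wt z * ((Qf p.Kc a 0 (al1 (rmp (S.sg z) (S.pos true c z)))).im / 2) -
      S.wt z * ((Qf p.Kc a 0 (al1 (rmp (S.sg z) (S.pos false d z)))).im / 2) ≤
      (Y + p.S0) / p.B ^ 3 := by
  have hB := hp.B_pos
  have hw := hS.w0 z
  have hS0 := hp.S0_pos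
  have hE := hp.e1
  have h01 := hp.m01
  have h02 := hp.m02
  have h03 := hp.m03
  have h04 := hp.m04
  have hm := hS.m0 z
  have hη := hp.h0
  have hX : 0 ≤ (Y + p.S0) / p.B ^ 4 := by positivity
  suffices h : S.wt z * ‖Qf p.Kc a 0 (al1 (rmp (S.sg z) (S.pos true c z))) -
      Qf p.Kc a 0 (al1 (rmp (S.sg z) (S.pos false d z)))‖ ≤ 6 * ((Y + p.S0) / p.B ^ 4) by
    have h3 := mul_le_mul_of_nonneg_left ((le_abs_self _).trans (Complex.abs_im_le_norm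
      (Qf p.Kc a 0 (al1 (rmp (S.sg z) (S.pos true c z))) -
        Qf p.Kc a 0 (al1 (rmp (S.sg z) (S.pos false d z)))))) hw.le
    rw [Complex.sub_im] at h3
    linarith [dk_end hp hY]
  by_cases hz : S.act z
  · have hg := hp.gg_pos (S.m z)
    have hρ := hp.ρ_one
    have hθ := hp.θ_pos
    have hb := hp.mb_pos (S.m z)
    have js := hp.j_spec hm
    have hΞ : 0 ≤ Y * p.B * p.ρ / p.gg (S.m z) := by positivity
    have h := flux_twin p.Kc a (by have := hp.l100; omega) (by omega) le_rfl (by omega) (hS.mH z)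
      js.1 js.2.1.le js.2.2.1 (hS.sg z) (hS.x1 z) (hS.x2 z) (hS.ps true c z) (hS.ps false d z)
      (h1.tp _ hm (hS.mH z)) hΞ hΞ ha.hi (hp.mass_le ha) (h1.kk z hz).cov (h2.kk z hz).cov
      (by positivity) (h1.kk z hz).gd (h2.kk z hz).gd
    have hk : S.wt z * 2 ^ S.m z * p.mb (S.m z) ≤ p.θ * p.S0 := by
      calc _ ≤ p.θ * p.gg (S.m z) * p.mb (S.m z) := mul_le_mul_of_nonneg_right (hS.w1 z) hb.le
        _ = p.θ * (p.gg (S.m z) * p.mb (S.m z)) := by ring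
        _ ≤ _ := mul_le_mul_of_nonneg_left (hp.gg_mb _) hθ.le
    have t1 := dk_loc hp hY hw hm (hS.mH z) (by
      have e1 : p.mb (S.m z) ≤ p.B := (hp.mb_le (by omega)).trans (dk_E hp)
      have e2 := hk.trans (mul_le_mul_of_nonneg_right hp.θ_le2 hS0.le)
      calc _ = S.wt z * 2 ^ S.m z * p.mb (S.m z) * p.mb (S.m z) * p.B ^ 7 := by ring
        _ ≤ p.η ^ 2 * p.S0 * p.B * p.B ^ 7 :=
            mul_le_mul_of_nonneg_right (mul_le_mul e2 e1 hb.le (by positivity)) (by positivity)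
        _ = p.η ^ 2 * p.B ^ 8 * p.S0 := by ring
        _ ≤ 1 * p.S0 := mul_le_mul_of_nonneg_right (dk_η hp (by norm_num)) hS0.le
        _ = _ := one_mul _)
    have t3 := hp.far_top ha hY hw.le (hS.w1 z)
    have t4 : S.wt z * (2 ^ 10 * 2 ^ S.m z * 2 ^ (p.m0 + 5) * p.E *
        tail p.Kc a (2 ^ S.m z / 16)) ≤ (Y + p.S0) / p.B ^ 4 := by
      refine dk_div hp hY ?_
      have e1 := hp.tail16 ha (S.m z)
      have e2 : (2 : ℝ) ^ 15 ≤ p.B := dk_two hp (by norm_num)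
      have e3 := dk_E hp
      have e4 : p.θ * 2 ^ p.m0 ≤ p.η ^ 2 := by
        have : (1 : ℝ) ≤ 2 ^ p.m0 := one_le_pow₀ (by norm_num)
        unfold Par.θ Par.ρ
        rw [div_mul_eq_mul_div, div_le_iff₀ (by positivity)]
        exact mul_le_mul_of_nonneg_left (le_self_pow₀ this (by norm_num)) (by positivity)
      calc _ ≤ S.wt z * (2 ^ 10 * 2 ^ S.m z * 2 ^ (p.m0 + 5) * p.E * p.mb (S.m z)) * p.B ^ 4 := by
            gcongr
        _ = S.wt z * 2 ^ S.m z * p.mb (S.m z) * (2 ^ p.m0 * (2 ^ 15 * p.E * p.B ^ 4)) := by ring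
        _ ≤ p.θ * p.S0 * (2 ^ p.m0 * (p.B * p.B * p.B ^ 4)) := by gcongr
        _ = p.θ * 2 ^ p.m0 * p.B ^ 6 * p.S0 := by ring
        _ ≤ p.η ^ 2 * p.B ^ 6 * p.S0 := by gcongr
        _ ≤ 1 * p.S0 := mul_le_mul_of_nonneg_right (dk_η hp (by norm_num)) hS0.le
        _ = _ := one_mul _
    refine (mul_le_mul_of_nonneg_left h hw.le).trans ?_
    rw [mul_add, mul_add, mul_assoc 3, mul_left_comm _ 3]
    linarith
  · have e0 : |((S.pos true c z : ℤ) : ℝ) - S.pos false d z| ≤ 2 ^ S.m z / 16 := by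
      have a1 := hS.ps true c z
      have a2 := hS.ps false d z
      have a3 : 16 * |S.pos true c z - S.pos false d z| ≤ 2 ^ S.m z := by
        have := abs_sub_le (S.pos true c z) (S.x z) (S.pos false d z)
        rw [abs_sub_comm (S.x z)] at this
        omega
      rw [le_div_iff₀ (by norm_num), mul_comm]
      exact_mod_cast a3
    have h := norm_Qf_le p.Kc a (ζ := 0) (p := fun _ => True) (S := 2 ^ S.m z)
      (s := fun k => al1 (rmp (S.sg z) (S.pos true c z)) k - al1 (rmp (S.sg z) (S.pos false d z)) k)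
      (by positivity) (fun k _ => by
        have b := fun i => abs_le.1 ((dk_rmp (hS.sg z) (S.pos true c z) (S.pos false d z)
          (k i)).trans e0)
        have : (0 : ℝ) < 2 ^ S.m z := by positivity
        simp only [al1, alt]
        rw [abs_le]
        constructor <;> linarith [b 0, b 1, b 2, b 3]) fun _ _ _ => trivial
    rw [Qf_sub] at h
    have e1 : (1 : ℝ) ≤ 2 ^ p.mN := one_le_pow₀ (by norm_num)
    have e2 : p.B ^ 5 ≤ 2 ^ p.mN := dk_M hp (by norm_num) (by omega)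
    have e3 := hp.L_le_B
    have e4 := ha.c0 0
    have e5 := hS.w2 z hz
    have t : S.wt z * (2 ^ S.m z * QA p.Kc a 0 fun _ => True) ≤ (Y + p.S0) / p.B ^ 4 := by
      refine dk_div hp hY ?_
      calc _ ≤ S.wt z * (2 ^ S.m z * p.B) * p.B ^ 4 := by gcongr; exact e4.trans e3
        _ = S.wt z * 2 ^ S.m z * p.B ^ 5 * 1 := by ring
        _ ≤ p.η ^ p.G * 2 ^ p.mN * 2 ^ p.mN * (p.S0 * 2 ^ p.mN) := by
            gcongr; exact hp.S0_ge2
        _ = p.η ^ p.G * (2 ^ p.mN) ^ 3 * p.S0 := by ring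
        _ ≤ p.η ^ p.G * (2 ^ p.mN) ^ 4 * p.S0 := by gcongr; norm_num
        _ ≤ 1 * p.S0 := mul_le_mul_of_nonneg_right hp.r3 hS0.le
        _ = _ := one_mul _
    linarith [mul_le_mul_of_nonneg_left h hw.le]

theorem dk_M1 (hp : p.OK) : ((2 : ℝ) ^ p.m1) ^ 8 * ((2 : ℝ) ^ p.mN) ^ (-(2 * p.α - 1) / 2) ≤ 1 := by
  have h0 : (0 : ℝ) < 2 ^ p.mN := by positivity
  have h1 := Real.rpow_pos_of_pos h0 (2 * p.α - 1)
  have e : (((2 : ℝ) ^ p.mN) ^ (-(2 * p.α - 1) / 2)) ^ 2 = (((2 : ℝ) ^ p.mN) ^ (2 * p.α - 1))⁻¹ := by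
    rw [← Real.rpow_natCast, ← Real.rpow_mul h0.le, ← Real.rpow_neg h0.le]
    congr 1
    push_cast
    ring
  refine (sq_le_one_iff₀ (by positivity)).1 ?_
  rw [mul_pow, e, ← pow_mul, ← div_eq_mul_inv, div_le_one h1]
  exact hp.r2

theorem dk_nf (hp : p.OK) (ha : p.Amb a) (hY : 0 ≤ Y) {y : ℤ} (hy : 32 * |y - p.x0| ≤ 2 ^ p.mN) :
    |NFd p.α p.Kc a p.m1 p.mH (p.y0 true) y - (Qf p.Kc a 0 (nfs p.m1 p.mH (p.y0 true) y)).im| ≤
      (Y + p.S0) / p.B ^ 4 := by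
  have hB := hp.B_pos
  have hS0 := hp.S0_pos
  have hE := hp.e1
  have h02 := hp.m02
  have h03 := hp.m03
  have h04 := hp.m04
  have x1 := hp.x1
  have ys := hp.y0_spec true
  have hN : (0 : ℤ) < 2 ^ p.mN := by positivity
  have h := nf_err p.Kc a (mH := p.mH) (y0 := p.y0 true) (y := y) hp.a1 hp.a2 hp.b1 hp.b2 hE
    hp.L_ge h03 (by omega) ys.2 (by have := neg_abs_le (y - p.x0); omega)
    (by have := abs_sub_le y p.x0 (p.y0 true); rw [abs_sub_comm p.x0] at this; omega) ha.tl ha.nl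
  refine h.trans (dk_div hp hY ?_)
  have e1 : (2 : ℝ) ^ 20 ≤ p.B := dk_two hp (by norm_num)
  have e2 := dk_E hp
  have e3 := hp.L_le_B
  have e4 : p.B ^ 7 ≤ ((2 : ℝ) ^ p.m1) ^ 6 :=
    (dk_M hp (by norm_num) (by omega)).trans (le_self_pow₀ (one_le_pow₀ (by norm_num)) (by norm_num))
  calc _ ≤ p.B * p.B * p.B * (2 ^ p.m1) ^ 2 * ((2 : ℝ) ^ p.mN) ^ (-(2 * p.α - 1) / 2) * p.S0 *
        p.B ^ 4 := by
        gcongr
        exact le_rfl
    _ = p.B ^ 7 * (2 ^ p.m1) ^ 2 * ((2 : ℝ) ^ p.mN) ^ (-(2 * p.α - 1) / 2) * p.S0 := by ring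
    _ ≤ (2 ^ p.m1) ^ 6 * (2 ^ p.m1) ^ 2 * ((2 : ℝ) ^ p.mN) ^ (-(2 * p.α - 1) / 2) * p.S0 := by
        gcongr
    _ = (2 ^ p.m1) ^ 8 * ((2 : ℝ) ^ p.mN) ^ (-(2 * p.α - 1) / 2) * p.S0 := by ring
    _ ≤ 1 * p.S0 := mul_le_mul_of_nonneg_right (dk_M1 hp) hS0.le
    _ = _ := one_mul _

theorem item_root (hp : p.OK) (hS : S.Stat p) (ha : p.Amb a) (hY : 0 ≤ Y)
    (h1 : S.Nice p true c a Y) (h2 : S.Nice p false d a Y) :
    (Qf p.Kc a 0 (al1 (rE (S.y true c)))).im / 2 - (Qf p.Kc a 0 (al1 (rE (S.y false d)))).im / 2 +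
      NFd p.α p.Kc a p.m1 p.mH (p.y0 true) (S.y true c) -
      NFd p.α p.Kc a p.m1 p.mH (p.y0 true) (S.y false d) ≤ (Y + p.S0) / p.B ^ 3 := by
  have hB := hp.B_pos
  have hS0 := hp.S0_pos
  have hE := hp.e1
  have hρ := hp.ρ_one
  have hl := hp.l100
  have h01 := hp.m01
  have h02 := hp.m02
  have h03 := hp.m03
  have h04 := hp.m04
  have x1 := hp.x1
  have x2 := hp.x2
  have r1 := hS.rt true c
  have r2 := hS.rt false d
  have hN : (0 : ℤ) < 2 ^ p.mN := by positivity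
  have hx : |p.x0| = p.x0 := abs_of_nonneg (by omega)
  have y1 : 2 ^ p.mN ≤ 3 * S.y true c := by have := neg_abs_le (S.y true c - p.x0); omega
  have y2 : 2 ^ p.mN ≤ 3 * S.y false d := by have := neg_abs_le (S.y false d - p.x0); omega
  have js := hp.j_spec (m := p.mN) (by omega)
  have f1 := flux_root p.Kc a (s := 1) (x := p.x0) (by omega) (by omega) h02 (by omega) h04 js.1
    js.2.1.le js.2.2.1 (Or.inl rfl) (by omega) (by omega) r1 r2 h1.tr (by positivity)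
    (by positivity) ha.hi (hp.mass_le ha) h1.r1.cov h2.r1.cov (by positivity) h1.r1.gd h2.r1.gd
  have f2 := flux_root p.Kc a (s := -1) (x := -p.x0) (by omega) (by omega) h02 (by omega) h04 js.1
    js.2.1.le js.2.2.1 (Or.inr rfl) (by rw [abs_neg]; omega) (by rw [abs_neg]; omega)
    (by rw [neg_sub_neg, abs_sub_comm]; exact r1) (by rw [neg_sub_neg, abs_sub_comm]; exact r2)
    h1.tr (by positivity) (by positivity) ha.hi (hp.mass_le ha) h1.r2.cov h2.r2.cov (by positivity)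
    h1.r2.gd h2.r2.gd
  have t1 := dk_loc hp hY (wt := 1) (m := p.mN) one_pos (by omega) h04 (by
    have e1 := hp.mbN_le
    have e2 := hp.mb_pos p.mN
    calc _ = p.mb p.mN * p.B ^ 7 * p.S0 := by unfold Par.S0; ring
      _ ≤ p.mb p.mN * p.B ^ 50 * p.S0 := by gcongr; exacts [hp.B_one, by norm_num]
      _ ≤ 1 * p.S0 := mul_le_mul_of_nonneg_right e1 hS0.le
      _ = _ := one_mul _)
  have t3 := hp.far_root ha hY
  have n1 := abs_le.1 (dk_nf hp ha hY r1)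
  have n2 := abs_le.1 (dk_nf hp ha hY r2)
  have nc := nf_cancel p.Kc a (y0 := p.y0 true) h03 (by omega : p.m1 ≤ p.mH) y1 y2 (hp.mass_le ha)
  have t5 : 2 ^ 8 * (2 ^ p.m1) ^ 2 * p.E * tail p.Kc a (2 ^ p.mN / 16) ≤ (Y + p.S0) / p.B ^ 4 := by
    refine dk_div hp hY ?_
    have e1 := hp.tail16 ha p.mN
    have e2 : (2 : ℝ) ^ 8 ≤ p.B := dk_two hp (by norm_num)
    have e3 := dk_E hp
    have e4 : p.B ^ 6 ≤ 2 ^ p.m1 := dk_M hp (by norm_num) (by omega)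
    have e5 : ((2 : ℝ) ^ p.m1) ^ 3 ≤ 2 ^ p.mN := by
      refine ((pow_le_pow_right₀ (one_le_pow₀ (by norm_num)) (by norm_num)).trans hp.r2).trans ?_
      exact Real.rpow_le_self_of_one_le (one_le_pow₀ (by norm_num)) (by linarith [hp.a2])
    have e6 := hp.mb_pos p.mN
    have e7 : 0 ≤ tail p.Kc a (2 ^ p.mN / 16) := sum_nonneg fun _ _ => by positivity
    calc _ ≤ p.B * (2 ^ p.m1) ^ 2 * p.B * p.mb p.mN * p.B ^ 4 := by gcongr
      _ = p.B ^ 6 * (2 ^ p.m1) ^ 2 * p.mb p.mN := by ring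
      _ ≤ 2 ^ p.m1 * (2 ^ p.m1) ^ 2 * p.mb p.mN := by gcongr
      _ = (2 ^ p.m1) ^ 3 * p.mb p.mN := by ring
      _ ≤ 2 ^ p.mN * p.mb p.mN := by gcongr
      _ = _ := rfl
  have g1 := (le_abs_self _).trans ((Complex.abs_im_le_norm _).trans f1)
  have g2 := (le_abs_self _).trans ((Complex.abs_im_le_norm _).trans f2)
  have q1 : Qf p.Kc a 0 (al1 (rE (S.y true c))) = Qf p.Kc a 0 (al1 (rmp 1 (S.y true c))) +
      Qf p.Kc a 0 (al1 (rmp (-1) (-S.y true c))) := by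
    rw [← Qf_add]
    exact Qf_congr _ _ _ fun k _ _ => dk_even (by omega) k
  have q2 : Qf p.Kc a 0 (al1 (rE (S.y false d))) = Qf p.Kc a 0 (al1 (rmp 1 (S.y false d))) +
      Qf p.Kc a 0 (al1 (rmp (-1) (-S.y false d))) := by
    rw [← Qf_add]
    exact Qf_congr _ _ _ fun k _ _ => dk_even (by omega) k
  have q3 : (Qf p.Kc a 0 fun k => (al1 (rE (S.y true c)) k - al1 (rE (S.y false d)) k) *
      two p.m1 p.mH k) = (Qf p.Kc a 0 fun k => (al1 (rmp 1 (S.y true c)) k -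
        al1 (rmp 1 (S.y false d)) k) * two p.m1 p.mH k) + Qf p.Kc a 0 fun k =>
      (al1 (rmp (-1) (-S.y true c)) k - al1 (rmp (-1) (-S.y false d)) k) * two p.m1 p.mH k := by
    rw [← Qf_add]
    refine Qf_congr _ _ _ fun k _ _ => ?_
    rw [dk_even (y := S.y true c) (by omega), dk_even (y := S.y false d) (by omega)]
    ring
  rw [q3, Complex.add_im] at nc
  rw [q1, q2, Complex.add_im, Complex.add_im]
  rw [Complex.sub_im, Complex.sub_im, mul_assoc 3] at g1 g2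
  have := (le_abs_self _).trans nc
  rw [one_mul] at t1
  linarith [dk_end hp hY]

end Pool.Agent.Lib.MMTX
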