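import Pool.Agent.Lib.MP_0dc93f_an.X.Far3

/-! The step from the largest local unit to all frequencies. -/

namespace Pool.Agent.Lib.MMTX

open Finset Complex ComplexConjugate MMTW

variable (Kc : ℕ) (a : ℤ → ℂ)

theorem far_cst {f g : ℤ → ℝ} {R : ℝ} (hf : Cst f R) (hg : Cst g R) :
    Cst (fun k => f k * g k) R := fun k k' h => by
  show f k * g k = f k' * g k'
  rw [hf k k' h, hg k k' h]

/-- from product symbols to the symbol of the far step -/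
theorem far_eight {U R S Bd : ℝ} (ζ : ℤ) {ρ w : Fin 4 → ℤ → ℝ} {χ χ' : ℤ → ℝ} (hU : 0 < U)
    (hρ : ∀ i, HC U S (ρ i)) (cρ : ∀ i, Cst (ρ i) R) (k1 : HC U 4 χ) (k2 : HC U 4 χ')
    (c1 : Cst χ R) (c2 : Cst χ' R)
    (H : ∀ (g : Fin 4 → ℤ → ℝ) (T : Fin 4 → ℝ), (∀ j, HC U (T j) (g j)) → (∀ j, Cst (g j) R) →
      ‖Qf Kc a ζ (pr fun j n => g j n * w j n)‖ ≤ (∏ j, T j) * Bd) :
    ‖Qf Kc a ζ fun k => alt ρ k * (p4 χ' k - p4 χ k) * ∏ j, w j (k j)‖ ≤ 2 ^ 19 * S * Bd := by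
  have key : ∀ (i : Fin 4) (φ : ℤ → ℝ), HC U 4 φ → Cst φ R →
      ‖Qf Kc a ζ fun k => ρ i (k i) * p4 φ k * ∏ j, w j (k j)‖ ≤ 2 ^ 16 * S * Bd := by
    intro i φ h1 h2
    have h := H (fun j n => (if j = i then ρ j n else 1) * φ n)
      (fun j => 4 * (if j = i then S else 1) * 4) (fun j => by
        by_cases hj : j = i
        · simp only [if_pos hj]; exact (hρ j).mul h1 hU
        · simp only [if_neg hj]; exact (HC.const hU (by norm_num)).mul h1 hU) (fun j => by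
        refine far_cst ?_ h2
        by_cases hj : j = i
        · simp only [if_pos hj]; exact cρ j
        · simp only [if_neg hj]; exact fun _ _ _ => rfl)
    have e1 : (∏ j : Fin 4, 4 * (if j = i then S else 1) * 4) = 2 ^ 16 * S := by
      simp only [prod_mul_distrib, prod_ite_eq', mem_univ, if_true, prod_const, card_univ,
        Fintype.card_fin]
      ring
    rw [e1] at h
    refine le_of_eq_of_le (congrArg _ (Qf_congr Kc a ζ fun k _ _ => ?_)) h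
    simp only [pr, p4, prod_mul_distrib, prod_ite_eq', mem_univ, if_true]
  have e : (Qf Kc a ζ fun k => alt ρ k * (p4 χ' k - p4 χ k) * ∏ j, w j (k j)) =
      ((Qf Kc a ζ fun k => ρ 1 (k 1) * p4 χ' k * ∏ j, w j (k j)) +
        (Qf Kc a ζ fun k => ρ 3 (k 3) * p4 χ' k * ∏ j, w j (k j)) -
        (Qf Kc a ζ fun k => ρ 0 (k 0) * p4 χ' k * ∏ j, w j (k j)) -
        (Qf Kc a ζ fun k => ρ 2 (k 2) * p4 χ' k * ∏ j, w j (k j))) -
      ((Qf Kc a ζ fun k => ρ 1 (k 1) * p4 χ k * ∏ j, w j (k j)) +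
        (Qf Kc a ζ fun k => ρ 3 (k 3) * p4 χ k * ∏ j, w j (k j)) -
        (Qf Kc a ζ fun k => ρ 0 (k 0) * p4 χ k * ∏ j, w j (k j)) -
        (Qf Kc a ζ fun k => ρ 2 (k 2) * p4 χ k * ∏ j, w j (k j))) := by
    rw [← Qf_add, ← Qf_sub, ← Qf_sub, ← Qf_add, ← Qf_sub, ← Qf_sub, ← Qf_sub]
    refine Qf_congr Kc a ζ fun k _ _ => ?_
    unfold alt
    ring
  have n4 : ∀ x y z t : ℂ, ‖x + y - z - t‖ ≤ ‖x‖ + ‖y‖ + ‖z‖ + ‖t‖ := fun x y z t => by
    linarith [norm_sub_le (x + y - z) t, norm_sub_le (x + y) z, norm_add_le x y]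
  rw [e]
  refine (norm_sub_le _ _).trans ((add_le_add (n4 _ _ _ _) (n4 _ _ _ _)).trans ?_)
  linarith [key 0 χ k1 c1, key 1 χ k1 c1, key 2 χ k1 c1, key 3 χ k1 c1, key 0 χ' k2 c2,
    key 1 χ' k2 c2, key 2 χ' k2 c2, key 3 χ' k2 c2]

/-- one tuple -/
theorem far_one {l m0 ms mH m : ℕ} {D S E r Ξl Ξh : ℝ} {z ζ : ℤ} {ρ : Fin 4 → ℤ → ℝ}
    {χ χ' : ℤ → ℝ} (hl : 11 ≤ l) (h0 : 3 * l ≤ m0) (h1 : m0 + 5 ≤ ms)
    (hc : TopCov Kc a l m0 ms mH m Ξl Ξh)
    (hE : tail Kc a 1 ≤ E) (d1 : 2 ^ m ≤ 2 ^ l * D) (d2 : D ≤ 2 ^ m) (hr0 : 0 ≤ r) (hr : 8 * r ≤ D)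
    (hζ : 64 * |(ζ : ℝ)| ≤ D) (hz : |(z : ℝ)| ≤ 3 * 2 ^ m)
    (hρ : ∀ i, HC (8 * 2 ^ m / 2 ^ (2 * l)) S (ρ i)) (cρ : ∀ i, Cst (ρ i) (4 * 2 ^ m))
    (k1 : HC (8 * 2 ^ m / 2 ^ (2 * l)) 4 χ) (k2 : HC (8 * 2 ^ m / 2 ^ (2 * l)) 4 χ')
    (c1 : Cst χ (4 * 2 ^ m)) (c2 : Cst χ' (4 * 2 ^ m)) (o1 : One χ z (D / 2)) (o2 : One χ' z (D / 2))
    (hR : ∀ k, De k = ζ → (∀ i, z + r ≤ k i) → alt ρ k * (p4 χ' k - p4 χ k) = 0)
    (hL : ∀ k, De k = ζ → (∀ i, (k i : ℝ) ≤ z - r) → alt ρ k * (p4 χ' k - p4 χ k) = 0)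
    (hM : ∀ k, De k = ζ → (∀ i, |(k i : ℝ)| < 2 ^ m / 4) → alt ρ k * (p4 χ' k - p4 χ k) = 0)
    {c : Fin 4 → ℕ × ℤ} (i0 : Fin 4) (hI : ∀ j, j ≠ i0 → c j ∈ fIx l ms mH)
    (hI0 : c i0 ∈ fIx l m0 mH ∨ (c i0).1 ≤ m0) :
    ‖Qf Kc a ζ fun k => alt ρ k * (p4 χ' k - p4 χ k) * ∏ j, fcel l m0 (c j) (k j)‖ ≤
      2 ^ 19 * S * (2 ^ 48 * 2 ^ l *
        (√(Ξl * Ξh) + √(2 ^ m0 * E * tail Kc a (2 ^ m / 1024) * Ξh))) := by
  have S0 : 0 ≤ S := (hρ 0).nonneg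
  have pm : (0 : ℝ) < 2 ^ m := by positivity
  by_cases hw : ∀ k, De k = ζ →
      alt ρ k * (p4 χ' k - p4 χ k) * ∏ j, fcel l m0 (c j) (k j) = 0 * (0 : ℝ)
  · rw [Qf_congr Kc a ζ fun k _ => hw k, Qf_smul]
    simp only [ofReal_zero, zero_mul, norm_zero]
    positivity
  push Not at hw
  obtain ⟨k, hk, hne⟩ := hw
  rw [mul_zero] at hne
  have hF := left_ne_zero_of_mul hne
  have hcel : ∀ j, fcel l m0 (c j) (k j) ≠ 0 := fun j =>
    prod_ne_zero_iff.mp (right_ne_zero_of_mul hne) j (mem_univ _)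
  have hs : ∀ j, j ≠ i0 → ms < (c j).1 := fun j hj => (fIx_mem (hI j hj) le_rfl le_rfl).1
  refine far_eight Kc a ζ (by positivity) hρ cρ k1 k2 c1 c2 fun g T hg cg => ?_
  have T0 : 0 ≤ ∏ j, T j := prod_nonneg fun j _ => (hg j).nonneg
  have s1 := Real.sqrt_nonneg (Ξl * Ξh)
  have s2 := Real.sqrt_nonneg (2 ^ m0 * E * tail Kc a (2 ^ m / 1024) * Ξh)
  have q : (0 : ℝ) ≤ 2 ^ 48 * 2 ^ l * ∏ j, T j := by positivity
  rcases hI0 with hI0 | hI0
  · have hA : ∀ j, c j ∈ fIx l m0 mH := fun j => by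
      by_cases hj : j = i0
      · rw [hj]; exact hI0
      · have := hI j hj
        simp only [fIx, mem_product, mem_Ioc] at this ⊢
        exact ⟨⟨by omega, this.1.2⟩, this.2⟩
    obtain ⟨j0, hj0⟩ := Finite.exists_max fun j => (c j).1
    have L0 : (2048 : ℝ) ≤ 2 ^ l :=
      calc (2048 : ℝ) = 2 ^ 11 := by norm_num
        _ ≤ 2 ^ l := pow_le_pow_right₀ (by norm_num) hl
    obtain ⟨σ, g0, e0, g1, g2, g3, g4⟩ := far_geo k (X := 2 ^ (c j0).1) L0 pm d1 d2 hr0 hr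
      (by rw [hk]; exact hζ) hz
      (by by_contra h; push Not at h; exact hF (hR k hk h))
      (by by_contra h; push Not at h; exact hF (hL k hk h))
      (by
        by_contra h
        push Not at h
        apply hF
        unfold p4
        rw [prod_eq_one fun i _ => o1 _ (h i), prod_eq_one fun i _ => o2 _ (h i), sub_self, mul_zero])
      (by
        by_cases hm : (c j0).1 ≤ m + 3
        · left
          calc (2 : ℝ) ^ (c j0).1 ≤ 2 ^ (m + 3) := pow_le_pow_right₀ (by norm_num) hm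
            _ = 8 * 2 ^ m := by ring
        · right
          refine ⟨?_, j0, (fcel_ne (fIx_mem (hA j0) le_rfl le_rfl).1 (hcel j0)).1⟩
          calc 16 * (2 : ℝ) ^ m = 2 ^ (m + 4) := by ring
            _ ≤ 2 ^ (c j0).1 := pow_le_pow_right₀ (by norm_num) (by omega)) i0
    have := far_tupA Kc a ζ σ hl h0 hc hA (by rw [e0]; exact hs) hg cg hcel g1 g2
      (fun j => (pow_le_pow_right₀ (by norm_num) (hj0 j)).trans g3) g4
    nlinarith [mul_nonneg q s2]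
  · obtain ⟨σ, X, e0, g1, g2, g3, g4⟩ := far_geo_low k (K := 2 ^ m) (M := 2 ^ m0) i0
      (by rw [hk]; exact hζ.trans d2) ((fcel_low hI0 _).2 (hcel i0))
      (fun j hj => by
        have b1 := (fcel_ne (l := l) (by have := hs j hj; omega) (hcel j)).1
        have b2 : (2 : ℝ) ^ (m0 + 6) ≤ 2 ^ (c j).1 :=
          pow_le_pow_right₀ (by norm_num) (by have := hs j hj; omega)
        have b3 : (2 : ℝ) ^ (m0 + 6) = 64 * 2 ^ m0 := by ring
        linarith)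
      (by by_contra h; push Not at h; exact hF (hM k hk h))
    have := far_tupB Kc a ζ σ hl h0 (by omega) hc hE (by rw [e0]; exact hI0) (by rw [e0]; exact hI)
      hg cg hcel g1 g2 g3 g4
    nlinarith [mul_nonneg q s1]

theorem far_split (ms mH : ℕ) (k : Fin 4 → ℤ) : ∏ i, lo mH (k i) = two ms mH k +
    ∑ A : Finset (Fin 4) with ¬2 ≤ A.card,
      ∏ i, if i ∈ A then lo ms (k i) else lo mH (k i) - lo ms (k i) := by
  unfold two
  rw [sum_filter_add_sum_filter_not]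
  have e : ∏ i, lo mH (k i) = ∏ i, (lo ms (k i) + (lo mH (k i) - lo ms (k i))) :=
    prod_congr rfl fun i _ => by ring
  rw [e, prod_add, powerset_univ]
  refine sum_congr rfl fun A _ => ?_
  rw [prod_ite]
  congr 1
  · exact prod_congr (by ext; simp) fun _ _ => rfl
  · exact prod_congr (by ext; simp) fun _ _ => rfl

theorem far {l m0 ms mH m : ℕ} {D S E r εH Ξl Ξh : ℝ} {z ζ : ℤ} {ρ : Fin 4 → ℤ → ℝ}
    {χ χ' : ℤ → ℝ} (hl : 11 ≤ l) (h0 : 3 * l ≤ m0) (h1 : m0 + 5 ≤ ms) (h2 : ms ≤ mH) (h3 : m ≤ mH)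
    (hc : TopCov Kc a l m0 ms mH m Ξl Ξh) (hΞ : 0 ≤ Ξl) (hΞ' : 0 ≤ Ξh) (hH : HiB Kc a mH εH)
    (hE : tail Kc a 1 ≤ E) (d1 : 2 ^ m ≤ 2 ^ l * D) (d2 : D ≤ 2 ^ m) (hr0 : 0 ≤ r) (hr : 8 * r ≤ D)
    (hζ : 64 * |(ζ : ℝ)| ≤ D) (hz : |(z : ℝ)| ≤ 3 * 2 ^ m)
    (hρ : ∀ i, HC (8 * 2 ^ m / 2 ^ (2 * l)) S (ρ i)) (cρ : ∀ i, Cst (ρ i) (4 * 2 ^ m))
    (k1 : HC (8 * 2 ^ m / 2 ^ (2 * l)) 4 χ) (k2 : HC (8 * 2 ^ m / 2 ^ (2 * l)) 4 χ')
    (c1 : Cst χ (4 * 2 ^ m)) (c2 : Cst χ' (4 * 2 ^ m)) (o1 : One χ z (D / 2)) (o2 : One χ' z (D / 2))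
    (b1 : ∀ k, 0 ≤ χ k ∧ χ k ≤ 1) (b2 : ∀ k, 0 ≤ χ' k ∧ χ' k ≤ 1)
    (hR : ∀ k, De k = ζ → (∀ i, z + r ≤ k i) → alt ρ k * (p4 χ' k - p4 χ k) = 0)
    (hL : ∀ k, De k = ζ → (∀ i, (k i : ℝ) ≤ z - r) → alt ρ k * (p4 χ' k - p4 χ k) = 0)
    (hM : ∀ k, De k = ζ → (∀ i, |(k i : ℝ)| < 2 ^ m / 4) → alt ρ k * (p4 χ' k - p4 χ k) = 0) :
    ‖Qf Kc a ζ (fun k => alt ρ k * (p4 χ' k - p4 χ k)) -
      Qf Kc a ζ (fun k => alt ρ k * (p4 χ' k - p4 χ k) * two ms mH k)‖ ≤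
      S * farB Kc a l m0 mH m E εH Ξl Ξh := by
  have S0 : 0 ≤ S := (hρ 0).nonneg
  have pm : (0 : ℝ) < 2 ^ m := by positivity
  set N : ℝ := ((mH : ℝ) + 1) * 8 * 2 ^ (2 * l) with hN
  set W : ℝ := √(Ξl * Ξh) + √(2 ^ m0 * E * tail Kc a (2 ^ m / 1024) * Ξh) with hW
  have W0 : 0 ≤ W := by positivity
  have N0 : 0 ≤ N := by positivity
  have e : Qf Kc a ζ (fun k => alt ρ k * (p4 χ' k - p4 χ k)) -
      Qf Kc a ζ (fun k => alt ρ k * (p4 χ' k - p4 χ k) * two ms mH k) =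
      Qf Kc a ζ (fun k => alt ρ k * (p4 χ' k - p4 χ k) * (1 - ∏ i, lo mH (k i))) +
      ∑ A : Finset (Fin 4) with ¬2 ≤ A.card, Qf Kc a ζ (fun k => alt ρ k * (p4 χ' k - p4 χ k) *
        ∏ i, if i ∈ A then lo ms (k i) else lo mH (k i) - lo ms (k i)) := by
    rw [← Qf_sum, ← Qf_sub, ← Qf_add]
    refine Qf_congr Kc a ζ fun k _ _ => ?_
    rw [← mul_sum, far_split ms mH k]
    ring
  have p1 : ∀ (φ : ℤ → ℝ) (k : Fin 4 → ℤ), (∀ n, 0 ≤ φ n ∧ φ n ≤ 1) → 0 ≤ p4 φ k ∧ p4 φ k ≤ 1 :=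
    fun φ k h => ⟨prod_nonneg fun i _ => (h _).1, prod_le_one (fun i _ => (h _).1) fun i _ => (h _).2⟩
  have hi : ‖Qf Kc a ζ (fun k => alt ρ k * (p4 χ' k - p4 χ k) * (1 - ∏ i, lo mH (k i)))‖ ≤
      4 * S * εH := by
    refine (norm_Qf_le Kc a (p := fun k => ∃ i, 2 ^ mH ≤ |k i|) (S := 4 * S) (by positivity)
      (fun k _ => ?_) fun k _ hk => ?_).trans (mul_le_mul_of_nonneg_left (hH ζ ?_) (by positivity))
    · have a1 : |alt ρ k| ≤ 4 * S := by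
        unfold alt
        have := fun i => abs_le.mp ((hρ i).sup (k i))
        rw [abs_le]
        constructor <;> linarith [this 0, this 1, this 2, this 3]
      have a2 : |p4 χ' k - p4 χ k| ≤ 1 := by
        rw [abs_le]
        constructor <;> linarith [p1 χ k b1, p1 χ' k b2]
      have a3 : |1 - ∏ i, lo mH (k i)| ≤ 1 := by
        have := p1 (lo mH) k (far_lo_mem mH)
        unfold p4 at this
        rw [abs_le]
        constructor <;> linarith [this.1, this.2]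
      rw [abs_mul, abs_mul]
      calc |alt ρ k| * |p4 χ' k - p4 χ k| * |1 - ∏ i, lo mH (k i)| ≤ 4 * S * 1 * 1 := by gcongr
        _ = 4 * S := by ring
    · by_contra h
      push Not at h
      apply hk
      rw [prod_eq_one fun i _ => far_lo_one (by exact_mod_cast (h i).le), sub_self, mul_zero]
    · have a1 : (2 : ℝ) ^ m ≤ 2 ^ mH := pow_le_pow_right₀ (by norm_num) h3
      have a2 : 2 * |(ζ : ℝ)| ≤ 2 ^ mH := by linarith [abs_nonneg (ζ : ℝ)]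
      exact_mod_cast a2
  have hA : ∀ A : Finset (Fin 4), ¬2 ≤ A.card →
      ‖Qf Kc a ζ (fun k => alt ρ k * (p4 χ' k - p4 χ k) *
        ∏ i, if i ∈ A then lo ms (k i) else lo mH (k i) - lo ms (k i))‖ ≤
        N ^ 4 * (2 ^ 19 * S * (2 ^ 48 * 2 ^ l * W)) := by
    intro A hA
    obtain ⟨i0, hi0⟩ := card_le_one_iff_subset_singleton.mp (show A.card ≤ 1 by omega)
    let t : Fin 4 → Finset (ℕ × ℤ) := fun j =>
      if j ∈ A then insert (m0, 0) (fIx l m0 ms) else fIx l ms mH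
    have e1 : Qf Kc a ζ (fun k => alt ρ k * (p4 χ' k - p4 χ k) *
        ∏ i, if i ∈ A then lo ms (k i) else lo mH (k i) - lo ms (k i)) =
        ∑ c ∈ Fintype.piFinset t, Qf Kc a ζ fun k =>
          alt ρ k * (p4 χ' k - p4 χ k) * ∏ j, fcel l m0 (c j) (k j) := by
      rw [← Qf_sum]
      refine Qf_congr Kc a ζ fun k _ _ => ?_
      rw [← mul_sum, ← prod_univ_sum t fun j c => fcel l m0 c (k j)]
      congr 1
      refine prod_congr rfl fun j _ => ?_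
      by_cases hj : j ∈ A
      · simp only [t, if_pos hj]
        rw [fcel_sum0 (by omega) (by omega) (by omega)]
      · simp only [t, if_neg hj]
        rw [fcel_sum (by omega) (by omega) (by omega) h2]
    have c0 : ((Fintype.piFinset t).card : ℝ) ≤ N ^ 4 := by
      rw [Fintype.card_piFinset, Nat.cast_prod]
      calc ∏ j, ((t j).card : ℝ) ≤ ∏ _j : Fin 4, N := by
            refine prod_le_prod (fun j _ => Nat.cast_nonneg _) fun j _ => ?_
            by_cases hj : j ∈ A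
            · simp only [t, if_pos hj]
              refine le_trans ?_ (fIx_card (l := l) (m1 := m0) h2)
              exact_mod_cast card_insert_le _ _
            · simp only [t, if_neg hj]
              linarith [fIx_card (l := l) (m1 := ms) (le_refl mH)]
        _ = N ^ 4 := by simp
    rw [e1]
    refine (norm_sum_le _ _).trans ((sum_le_card_nsmul _ _ (2 ^ 19 * S * (2 ^ 48 * 2 ^ l * W))
      fun c hc' => ?_).trans ?_)
    · have hm := Fintype.mem_piFinset.mp hc'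
      refine far_one Kc a hl h0 h1 hc hE d1 d2 hr0 hr hζ hz hρ cρ k1 k2 c1 c2 o1 o2 hR hL hM i0
        (fun j hj => ?_) ?_
      · have := hm j
        simp only [t, if_neg (fun h => hj (mem_singleton.mp (hi0 h)))] at this
        exact this
      · have := hm i0
        by_cases hj : i0 ∈ A
        · simp only [t, if_pos hj, mem_insert] at this
          rcases this with h | h
          · right; rw [h]
          · left
            simp only [fIx, mem_product, mem_Ioc] at h ⊢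
            exact ⟨⟨h.1.1, by omega⟩, h.2⟩
        · simp only [t, if_neg hj] at this
          left
          simp only [fIx, mem_product, mem_Ioc] at this ⊢
          exact ⟨⟨by omega, this.1.2⟩, this.2⟩
    · rw [nsmul_eq_mul]
      exact mul_le_mul_of_nonneg_right c0 (by positivity)
  have cA : ((univ.filter fun A : Finset (Fin 4) => ¬2 ≤ A.card).card : ℝ) ≤ 16 := by
    have : (univ.filter fun A : Finset (Fin 4) => ¬2 ≤ A.card).card ≤ 16 :=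
      (card_filter_le _ _).trans (by simp)
    exact_mod_cast this
  have hs := (norm_sum_le (univ.filter fun A : Finset (Fin 4) => ¬2 ≤ A.card) _).trans
    (sum_le_card_nsmul _ _ _ fun A h => hA A (mem_filter.mp h).2)
  rw [nsmul_eq_mul] at hs
  have q : 0 ≤ N ^ 4 * (S * (2 ^ l * W)) := by positivity
  have hs2 := hs.trans (mul_le_mul_of_nonneg_right cA (by positivity))
  rw [e]
  refine (norm_add_le _ _).trans ((add_le_add hi hs2).trans ?_)
  unfold farB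
  rw [← hN, ← hW]
  nlinarith

end Pool.Agent.Lib.MMTX
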