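import Pool.Agent.Lib.MP_0dc93f_an.X.SrcA
import Pool.Agent.Lib.MP_0dc93f_an.X.Far

/-! The source term: the part outside the scale of the window, and the large defects. -/

namespace Pool.Agent.Lib.MMTX

open Finset Complex ComplexConjugate MMTW

lemma srd_G0 (P : Win) (k ζ : ℤ) : 0 ≤ Gw P k ζ := le_max_left _ _

lemma srd_Gw (P : Win) (k ζ : ℤ) : Gw P k ζ ≤ P.w := by
  unfold Gw
  refine max_le (Nat.cast_nonneg _) ?_
  have := (abs_nonneg ((k : ℝ) - P.z)).trans (le_max_left _ |(k : ℝ) + ζ - P.z|)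
  linarith

lemma srd_z1 (P : Win) (ζ : ℤ) {k : ℤ} (h : (P.w : ℝ) ≤ |(k : ℝ) - P.z|) : Gw P k ζ = 0 := by
  unfold Gw
  have := h.trans (le_max_left _ |(k : ℝ) + ζ - P.z|)
  exact max_eq_left (by linarith)

lemma srd_z2 (P : Win) (ζ : ℤ) {k : ℤ} (h : (P.w : ℝ) ≤ |(k : ℝ) - P.z|) :
    Gw P (k - ζ) ζ = 0 := by
  unfold Gw
  have e : ((k - ζ : ℤ) : ℝ) + ζ - P.z = k - P.z := by push_cast; ring
  rw [e]
  have := h.trans (le_max_right |((k - ζ : ℤ) : ℝ) - P.z| _)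
  exact max_eq_left (by linarith)

/-- the four slot functions of the source symbol -/
noncomputable def srdR (P : Win) (ζ : ℤ) (i : Fin 4) (k : ℤ) : ℝ :=
  if i = 1 ∨ i = 3 then 1 / 2 * Gw P k ζ else 1 / 2 * Gw P (k - ζ) ζ

lemma srd_alt (P : Win) (ζ : ℤ) (k : Fin 4 → ℤ) : alt (srdR P ζ) k = sz P ζ k := by
  have h0 : ¬((0 : Fin 4) = 1 ∨ (0 : Fin 4) = 3) := by decide
  have h2 : ¬((2 : Fin 4) = 1 ∨ (2 : Fin 4) = 3) := by decide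
  unfold alt srdR sz
  rw [if_pos (Or.inl rfl), if_pos (Or.inr rfl), if_neg h0, if_neg h2]
  ring

lemma srd_R0 (P : Win) (ζ : ℤ) (i : Fin 4) {k : ℤ} (h : (P.w : ℝ) ≤ |(k : ℝ) - P.z|) :
    srdR P ζ i k = 0 := by
  unfold srdR
  rw [srd_z1 P ζ h, srd_z2 P ζ h]
  simp

lemma srd_alt0 (P : Win) (ζ : ℤ) {k : Fin 4 → ℤ} (h : ∀ i, (P.w : ℝ) ≤ |(k i : ℝ) - P.z|) :
    alt (srdR P ζ) k = 0 := by
  unfold alt
  rw [srd_R0 P ζ 0 (h 0), srd_R0 P ζ 1 (h 1), srd_R0 P ζ 2 (h 2), srd_R0 P ζ 3 (h 3)]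
  ring

lemma srd_hc (P : Win) (ζ : ℤ) {u S : ℝ} (hu : 0 < u) (h1 : 2 * (P.w : ℝ) ≤ S) (h2 : 4 * u ≤ S)
    (i : Fin 4) : HC u S (srdR P ζ i) := by
  have h := hc_Gw P ζ hu h1 h2
  have hS : |(1 / 2 : ℝ)| * S ≤ S := by
    rw [abs_of_pos (by norm_num)]; linarith
  by_cases hi : i = 1 ∨ i = 3
  · exact ((h.smul (1 / 2)).mono hu le_rfl hS).congr fun k => by simp only [srdR, if_pos hi]
  · exact (((h.shift' ζ).smul (1 / 2)).mono hu le_rfl hS).congr fun k => by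
      simp only [srdR, if_neg hi]

lemma srd_p4 (z : ℤ) (D : ℝ) (k : Fin 4 → ℤ) : 0 ≤ p4 (trap z D) k ∧ p4 (trap z D) k ≤ 1 :=
  ⟨Finset.prod_nonneg fun _ _ => trap_nonneg _ _ _,
    Finset.prod_le_one (fun _ _ => trap_nonneg _ _ _) fun _ _ => trap_le _ _ _⟩

lemma srd_R (P : Win) {k : Fin 4 → ℤ} (h : ∀ i, (P.z : ℝ) + P.w ≤ k i) (i : Fin 4) :
    (P.w : ℝ) ≤ |(k i : ℝ) - P.z| := le_trans (by linarith [h i]) (le_abs_self _)

lemma srd_L (P : Win) {k : Fin 4 → ℤ} (h : ∀ i, (k i : ℝ) ≤ P.z - P.w) (i : Fin 4) :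
    (P.w : ℝ) ≤ |(k i : ℝ) - P.z| := le_trans (by linarith [h i]) (neg_le_abs _)

variable (Kc : ℕ) (a : ℤ → ℂ)

theorem abs_sz_le (P : Win) (ζ : ℤ) (k : Fin 4 → ℤ) : |sz P ζ k| ≤ P.w := by
  unfold sz
  have := srd_G0 P (k 1) ζ
  have := srd_G0 P (k 3) ζ
  have := srd_G0 P (k 0 - ζ) ζ
  have := srd_G0 P (k 2 - ζ) ζ
  have := srd_Gw P (k 1) ζ
  have := srd_Gw P (k 3) ζ
  have := srd_Gw P (k 0 - ζ) ζ
  have := srd_Gw P (k 2 - ζ) ζ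
  rw [abs_le]
  constructor <;> linarith

theorem src_crude {t C : ℝ} (P Q : Win) (ht : 0 ≤ t) (hP : 1 ≤ P.w) (hQ : 1 ≤ Q.w)
    (hC : ∀ ζ, QA Kc a ζ (fun _ => True) ≤ C) :
    |Src Kc a t P Q| ≤ C * (mW Kc a Q * lg Q.w) := by
  have hw : (0 : ℝ) < P.w := by exact_mod_cast hP
  have hC0 : 0 ≤ C := (QA_nonneg Kc a 0 _).trans (hC 0)
  have h := SQ_le Kc a ht Q (sz P) (X := P.w * C) (by positivity) fun ζ _ =>
    (norm_Qf_le Kc a (p := fun _ => True) hw.le (fun k _ => abs_sz_le P ζ k)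
      fun _ _ _ => trivial).trans (mul_le_mul_of_nonneg_left (hC ζ) hw.le)
  unfold Src
  refine (abs_re_le_norm _).trans ?_
  rw [norm_mul, norm_div, norm_neg, norm_I, Complex.norm_natCast, one_div, inv_mul_le_iff₀ hw]
  linarith

theorem src_hi {t C L : ℝ} (P Q : Win) (ht : 0 ≤ t) (hP : 1 ≤ P.w) (htw : 4 * L ≤ t * P.w)
    (hQ : 1 ≤ Q.w) (hC : ∀ ζ, QA Kc a ζ (fun _ => True) ≤ C) :
    ‖SQ Kc a t Q fun ζ k => (1 - trap 0 (P.w / 8) ζ) * sz P ζ k‖ ≤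
      Real.exp (-L / 2) * P.w * C * (mW Kc a Q * lg Q.w) := by
  have hw : (0 : ℝ) < P.w := by exact_mod_cast hP
  have hC0 : 0 ≤ C := (QA_nonneg Kc a 0 _).trans (hC 0)
  have e : (SQ Kc a t Q fun ζ k => (1 - trap 0 (P.w / 8) ζ) * sz P ζ k) =
      SQ Kc a 0 Q fun ζ k =>
        Real.exp (-t * |(ζ : ℝ)|) * ((1 - trap 0 (P.w / 8) ζ) * sz P ζ k) := by
    unfold SQ
    refine Finset.sum_congr rfl fun ζ _ => ?_
    rw [Qf_smul Kc a ζ (Real.exp (-t * |(ζ : ℝ)|))]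
    unfold cf
    rw [neg_zero, zero_mul, Real.exp_zero, ofReal_one]
    ring
  rw [e]
  have hS : 0 ≤ Real.exp (-L / 2) * P.w := by positivity
  refine SQ_le Kc a le_rfl Q _ (by positivity) fun ζ _ =>
    (norm_Qf_le Kc a (p := fun _ => True) hS (fun k _ => ?_) fun _ _ _ => trivial).trans
      (mul_le_mul_of_nonneg_left (hC ζ) hS)
  rcases le_total |(ζ : ℝ)| (P.w / 8) with h | h
  · rw [trap_one 0 (by positivity) ζ (by simpa using h)]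
    simpa using hS
  · have h1 : Real.exp (-t * |(ζ : ℝ)|) ≤ Real.exp (-L / 2) :=
      Real.exp_le_exp.2 (by nlinarith [mul_le_mul_of_nonneg_left h ht])
    have h2 : |1 - trap 0 (P.w / 8) ζ| ≤ 1 := by
      have := trap_nonneg 0 (P.w / 8) ζ
      have := trap_le 0 (P.w / 8) ζ
      rw [abs_le]; constructor <;> linarith
    rw [abs_mul, abs_mul, abs_of_pos (Real.exp_pos _)]
    refine mul_le_mul h1 ?_ (by positivity) (Real.exp_pos _).le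
    exact (mul_le_mul h2 (abs_sz_le P ζ k) (abs_nonneg _) zero_le_one).trans_eq (one_mul _)

/-- one local step -/
lemma srd_step {l j : ℕ} {P : Win} {y ζ : ℤ} {Ξ : ℝ} (hl : 11 ≤ l) (hj : l ≤ j)
    (hw : 16 * (P.w : ℝ) ≤ 2 ^ (l + j)) (hζ : 4 * |(ζ : ℝ)| ≤ P.w)
    (hy : |P.z - y| ≤ (2 ^ l : ℕ) * 2 ^ (j + 1)) (hc : LocCov Kc a (2 ^ l) (2 ^ (j + 1)) y Ξ)
    (hΞ : 0 ≤ Ξ) :
    ‖Qf Kc a ζ fun k => sz P ζ k *
      (p4 (trap P.z (2 ^ (l + (j + 1)))) k - p4 (trap P.z (2 ^ (l + j))) k)‖ ≤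
      2 ^ 64 * (2 ^ l) ^ 6 * Ξ := by
  set D : ℝ := 2 ^ (l + j) with hD
  have D0 : 0 < D := by positivity
  have e1 : (2 : ℝ) ^ (l + (j + 1)) = 2 * D := by rw [hD]; ring
  have e2 : ((2 ^ l : ℕ) : ℝ) * ((2 ^ (j + 1) : ℕ) : ℝ) = 2 * D := by rw [hD]; push_cast; ring
  have L1 : (2 : ℝ) ^ 11 ≤ 2 ^ l := pow_le_pow_right₀ one_le_two hl
  have u0 : (0 : ℝ) < ((2 ^ (j + 1) : ℕ) : ℝ) := by positivity
  have u1 : 4 * ((2 ^ (j + 1) : ℕ) : ℝ) ≤ D := by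
    have : (0 : ℝ) < 2 ^ j := by positivity
    rw [hD]; push_cast; rw [pow_add, pow_add]; nlinarith
  have hy' : |(P.z : ℝ) - y| ≤ 2 * D := by
    rw [← e2]; exact_mod_cast hy
  have w0 : (0 : ℝ) ≤ P.w := Nat.cast_nonneg _
  have sp : ∀ D' : ℝ, 0 < D' → D' ≤ 2 * D →
      Supp (trap P.z D') y (3 * (((2 ^ l : ℕ) : ℝ) * ((2 ^ (j + 1) : ℕ) : ℝ))) := by
    intro D' h1 h2 k hk
    have h3 := trap_supp P.z h1 k hk
    have h4 := abs_sub_le (k : ℝ) P.z y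
    rw [e2]; linarith
  have h := step Kc a (L := 2 ^ l) (u := 2 ^ (j + 1)) (y := y) (z := P.z) (ζ := ζ) (S := 2 * D)
    (r := P.w) (c := 0) (ρ := srdR P ζ) (χ := trap P.z D) (χ' := trap P.z (2 * D))
    (Nat.pow_le_pow_right two_pos hl) (Nat.pow_le_pow_right two_pos (by omega)) hc hΞ
    (by
      have : 64 * |(ζ : ℝ)| ≤ ((2 ^ l : ℕ) : ℝ) * ((2 ^ (j + 1) : ℕ) : ℝ) := by rw [e2]; linarith
      exact_mod_cast this)
    w0 (by rw [e2]; linarith) (srd_hc P ζ u0 (by linarith) (by linarith))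
    ((hc_trap P.z D0).mono u0 (by linarith) le_rfl)
    ((hc_trap P.z (by linarith)).mono u0 (by linarith) le_rfl)
    (fun k hk => trap_one P.z D0 k (by rw [e2] at hk; linarith))
    (fun k hk => trap_one P.z (by linarith) k (by rw [e2] at hk; linarith))
    (sp D D0 (by linarith)) (sp _ (by linarith) le_rfl)
    (fun k _ _ hk => srd_alt0 P ζ (srd_R P hk)) fun k _ _ hk => srd_alt0 P ζ (srd_L P hk)
  rw [ofReal_zero, zero_mul, sub_zero, ← e2, mul_div_cancel_right₀ _ u0.ne'] at h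
  simp only [srd_alt] at h
  rw [e1, ← e2]
  refine h.trans_eq ?_
  push_cast; ring

/-- all the local steps -/
lemma srd_steps {l j1 J j0 : ℕ} {P : Win} {ζ : ℤ} {Ξ : ℝ} (hl : 11 ≤ l) (h4 : l ≤ j1)
    (h5 : j1 ≤ J) (hw : 16 * (P.w : ℝ) ≤ 2 ^ (l + J)) (hζ : 4 * |(ζ : ℝ)| ≤ P.w)
    (hc : Cov Kc a (2 ^ l) P.z j1 j0 Ξ) (hΞ : 0 ≤ Ξ) (n : ℕ) (hn : J + n ≤ j0) :
    ‖Qf Kc a ζ fun k => sz P ζ k *
      (p4 (trap P.z (2 ^ (l + (J + n)))) k - p4 (trap P.z (2 ^ (l + J))) k)‖ ≤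
      n * (2 ^ 64 * (2 ^ l) ^ 6 * Ξ) := by
  induction n with
  | zero => simp [Qf]
  | succ n ih =>
    obtain ⟨y, hy, hc'⟩ := hc (J + n + 1) (by omega) (by omega)
    have h1 := srd_step Kc a (j := J + n) (P := P) (ζ := ζ) hl (by omega)
      (hw.trans (pow_le_pow_right₀ one_le_two (by omega))) hζ hy hc' hΞ
    have h2 := ih (by omega)
    have h3 := norm_add_le_of_le h1 h2
    rw [← Qf_add] at h3
    refine le_trans (le_of_eq ?_) (h3.trans_eq (by push_cast; ring))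
    congr 2
    funext k
    rw [← add_assoc J n 1]
    ring

/-- from the largest unit to all frequencies -/
lemma srd_far {l m0 ms mH m j0 : ℕ} {P : Win} {ζ : ℤ} {E εH Ξl Ξh : ℝ} (hl : 11 ≤ l)
    (h0 : 3 * l ≤ m0) (h1 : m0 + 5 ≤ ms) (h2 : ms ≤ mH) (h3 : m ≤ mH) (h7 : j0 + 2 * l = m)
    (hw : 16 * (P.w : ℝ) ≤ 2 ^ (l + j0)) (hζ : 4 * |(ζ : ℝ)| ≤ P.w)
    (z1 : 2 ^ m ≤ 3 * |P.z|) (z2 : |P.z| ≤ 3 * 2 ^ m)
    (hT : TopCov Kc a l m0 ms mH m Ξl Ξh) (hΞl : 0 ≤ Ξl) (hΞh : 0 ≤ Ξh) (hH : HiB Kc a mH εH)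
    (hE : tail Kc a 1 ≤ E) :
    ‖Qf Kc a ζ fun k => sz P ζ k * (1 - p4 (trap P.z (2 ^ (l + j0))) k)‖ ≤
      2 ^ m * farB Kc a l m0 mH m E εH Ξl Ξh + 2 ^ 7 * 2 ^ m * 2 ^ ms * E * tail Kc a (2 ^ m / 16) := by
  set D : ℝ := 2 ^ (l + j0) with hD
  set K : ℝ := 2 ^ m with hK
  have D0 : 0 < D := by positivity
  have K0 : 0 < K := by positivity
  have L1 : (2 : ℝ) ^ 11 ≤ 2 ^ l := pow_le_pow_right₀ one_le_two hl
  have e1 : K = 2 ^ l * D := by rw [hK, hD, ← h7]; ring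
  have KD : 2 ^ 11 * D ≤ K := by rw [e1]; exact mul_le_mul_of_nonneg_right L1 D0.le
  have e2 : 8 * K / 2 ^ (2 * l) = 8 * 2 ^ j0 := by
    rw [hK, ← h7, pow_add]; field_simp
  have u0 : 0 < 8 * K / 2 ^ (2 * l) := by positivity
  have u1 : 8 * K / 2 ^ (2 * l) ≤ D := by
    have : (0 : ℝ) < 2 ^ j0 := by positivity
    rw [e2, hD, pow_add]; nlinarith
  have z1' : K ≤ 3 * |(P.z : ℝ)| := by rw [hK]; exact_mod_cast z1
  have z2' : |(P.z : ℝ)| ≤ 3 * K := by rw [hK]; exact_mod_cast z2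
  have w0 : (0 : ℝ) ≤ P.w := Nat.cast_nonneg _
  have fa : ∀ k : ℤ, 4 * K ≤ k ∨ (k : ℝ) ≤ -(4 * K) → K ≤ |(k : ℝ) - P.z| := by
    intro k hk
    have := abs_le.1 z2'
    rcases hk with hk | hk
    · exact le_trans (by linarith) (le_abs_self _)
    · exact le_trans (by linarith) (neg_le_abs _)
  have cs : ∀ f : ℤ → ℝ, (∀ k : ℤ, K ≤ |(k : ℝ) - P.z| → f k = 0) → Cst f (4 * K) := by
    intro f hf k k' hk
    rw [hf k (fa k (hk.imp And.left And.left)), hf k' (fa k' (hk.imp And.right And.right))]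
  have hM : ∀ k, De k = ζ → (∀ i, |(k i : ℝ)| < K / 4) →
      alt (srdR P ζ) k * (p4 (fun _ => 1) k - p4 (trap P.z D) k) = 0 := by
    intro k _ hk
    rw [srd_alt0 P ζ fun i => ?_, zero_mul]
    have h5 := abs_sub_abs_le_abs_sub (P.z : ℝ) (k i)
    rw [abs_sub_comm] at h5
    linarith [hk i]
  have e3 : ∀ k, p4 (fun _ => (1 : ℝ)) k = 1 := fun k => by simp [p4]
  have hf := far Kc a (D := D) (S := K) (r := P.w) (z := P.z) (ζ := ζ) (ρ := srdR P ζ)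
    (χ := trap P.z D) (χ' := fun _ => 1) hl h0 h1 h2 h3 hT hΞl hΞh hH hE e1.le (by linarith) w0
    (by linarith) (by linarith) z2' (srd_hc P ζ u0 (by linarith) (by linarith))
    (fun i => cs _ fun k hk => srd_R0 P ζ i (by linarith))
    ((hc_trap P.z D0).mono u0 u1 le_rfl) (HC.const u0 (by norm_num))
    (cs _ fun k hk => trap_zero P.z D0 (by linarith)) (fun _ _ _ => rfl)
    (fun k hk => trap_one P.z D0 k (by linarith)) (fun _ _ => rfl)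
    (fun k => ⟨trap_nonneg _ _ _, trap_le _ _ _⟩) (fun _ => ⟨zero_le_one, le_rfl⟩)
    (fun k _ hk => by rw [srd_alt0 P ζ (srd_R P hk), zero_mul])
    (fun k _ hk => by rw [srd_alt0 P ζ (srd_L P hk), zero_mul]) hM
  have ht := two_crude Kc a (ζ := ζ) (K := K) (S := K) h2 K0.le (by linarith) hE
    (fun k _ => ?_) hM
  · have h8 := norm_add_le_of_le hf ht
    rw [sub_add_cancel] at h8
    simp only [srd_alt, e3] at h8
    have t0 : ∀ R, 0 ≤ tail Kc a R := fun R => Finset.sum_nonneg fun _ _ => by positivity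
    have E0 : 0 ≤ E := (t0 1).trans hE
    have h9 : 0 ≤ K * 2 ^ ms * E * tail Kc a (K / 16) := by
      have := t0 (K / 16)
      positivity
    linarith
  · have h8 := srd_p4 P.z D k
    have h9 : |1 - p4 (trap P.z D) k| ≤ 1 := by
      rw [abs_le]; constructor <;> linarith [h8.1, h8.2]
    rw [srd_alt, e3, abs_mul]
    have := mul_le_mul (abs_sz_le P ζ k) h9 (abs_nonneg _) w0
    linarith

theorem src_out {l m0 ms mH m j1 J j0 : ℕ} {P Q : Win} {t E εH Ξ Ξl Ξh : ℝ} (hl : 11 ≤ l)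
    (h0 : 3 * l ≤ m0) (h1 : m0 + 5 ≤ ms) (h2 : ms ≤ mH) (h3 : m ≤ mH) (h4 : l ≤ j1) (h5 : j1 ≤ J)
    (h6 : J ≤ j0) (h7 : j0 + 2 * l = m) (ht : 0 ≤ t) (hP : 1 ≤ P.w) (J1 : 16 * P.w ≤ 2 ^ (l + J))
    (z1 : 2 ^ m ≤ 3 * |P.z|) (z2 : |P.z| ≤ 3 * 2 ^ m)
    (hT : TopCov Kc a l m0 ms mH m Ξl Ξh) (hΞl : 0 ≤ Ξl) (hΞh : 0 ≤ Ξh) (hH : HiB Kc a mH εH)
    (hE : tail Kc a 1 ≤ E) (hc : Cov Kc a (2 ^ l) P.z j1 j0 Ξ) (hΞ : 0 ≤ Ξ) (hQ : 1 ≤ Q.w) :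
    ‖SQ Kc a t Q fun ζ k =>
      trap 0 (P.w / 8) ζ * (sz P ζ k * (1 - p4 (trap P.z (2 ^ (l + J))) k))‖ ≤
      (2 ^ 64 * (2 ^ l) ^ 6 * j0 * Ξ + 2 ^ m * farB Kc a l m0 mH m E εH Ξl Ξh +
        2 ^ 7 * 2 ^ m * 2 ^ ms * E * tail Kc a (2 ^ m / 16)) * (mW Kc a Q * lg Q.w) := by
  have hw : (0 : ℝ) < P.w := by exact_mod_cast hP
  have J2 : 16 * (P.w : ℝ) ≤ 2 ^ (l + J) := by exact_mod_cast J1
  obtain ⟨n, rfl⟩ := Nat.exists_eq_add_of_le h6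
  have key : ∀ ζ : ℤ, 4 * |(ζ : ℝ)| ≤ P.w →
      ‖Qf Kc a ζ fun k => sz P ζ k * (1 - p4 (trap P.z (2 ^ (l + J))) k)‖ ≤
        2 ^ 64 * (2 ^ l) ^ 6 * ((J + n : ℕ) : ℝ) * Ξ + 2 ^ m * farB Kc a l m0 mH m E εH Ξl Ξh +
          2 ^ 7 * 2 ^ m * 2 ^ ms * E * tail Kc a (2 ^ m / 16) := by
    intro ζ hζ
    have a1 := srd_steps Kc a hl h4 h5 J2 hζ hc hΞ n le_rfl
    have a2 := srd_far Kc a (P := P) (ζ := ζ) hl h0 h1 h2 h3 h7
      (J2.trans (pow_le_pow_right₀ one_le_two (by omega))) hζ z1 z2 hT hΞl hΞh hH hE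
    have a3 := norm_add_le_of_le a1 a2
    rw [← Qf_add] at a3
    have a4 : 0 ≤ (J : ℝ) * (2 ^ 64 * (2 ^ l) ^ 6 * Ξ) := by positivity
    refine le_trans (le_of_eq ?_) (a3.trans (by push_cast; linarith))
    congr 2
    funext k
    ring
  have X0 := (norm_nonneg _).trans (key 0 (by simp))
  refine SQ_le Kc a ht Q _ X0 fun ζ _ => ?_
  rw [Qf_smul Kc a ζ (trap 0 (P.w / 8) ζ), norm_mul, Complex.norm_real, Real.norm_eq_abs,
    abs_of_nonneg (trap_nonneg _ _ _)]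
  by_cases hz : trap 0 (P.w / 8) ζ = 0
  · rw [hz, zero_mul]; exact X0
  · have a1 := trap_supp 0 (D := P.w / 8) (by positivity) ζ hz
    rw [Int.cast_zero, sub_zero] at a1
    exact (mul_le_mul (trap_le _ _ _) (key ζ (by linarith)) (norm_nonneg _) zero_le_one).trans_eq
      (one_mul _)

end Pool.Agent.Lib.MMTX
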