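import Pool.Agent.Lib.MP_0dc93f_an.X.SrcC
import Pool.Agent.Lib.MP_0dc93f_an.X.SrcD

/-! The source term. -/

namespace Pool.Agent.Lib.MMTX

open Finset Complex ComplexConjugate MMTW

variable (Kc : ℕ) (a : ℤ → ℂ)

lemma src_norm (t : ℝ) (P Q : Win) : |Src Kc a t P Q| ≤ ‖SQ Kc a t Q (sz P)‖ / P.w := by
  refine (Complex.abs_re_le_norm _).trans (le_of_eq ?_)
  rw [norm_mul, norm_div, norm_neg, Complex.norm_I, Complex.norm_natCast]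
  ring

lemma src_unit {l j1 j0 w : ℕ} (h5 : j1 ≤ j0) (h : 16 * w ≤ 2 ^ (l + j0)) :
    ∃ J, j1 ≤ J ∧ J ≤ j0 ∧ 16 * w ≤ 2 ^ (l + J) ∧ (J = j1 ∨ 2 ^ (l + J) ≤ 32 * w) := by
  have ex : ∃ j, j1 ≤ j ∧ 16 * w ≤ 2 ^ (l + j) := ⟨j0, h5, h⟩
  classical
  refine ⟨Nat.find ex, (Nat.find_spec ex).1, Nat.find_min' ex ⟨h5, h⟩, (Nat.find_spec ex).2, ?_⟩
  rcases eq_or_lt_of_le (Nat.find_spec ex).1 with e | e
  · exact Or.inl e.symm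
  · right
    obtain ⟨n, hn⟩ : ∃ n, Nat.find ex = n + 1 := ⟨Nat.find ex - 1, by omega⟩
    have h1 := Nat.find_min ex (m := n) (by omega)
    have h2 : ¬16 * w ≤ 2 ^ (l + n) := fun h3 => h1 ⟨by omega, h3⟩
    rw [hn, ← add_assoc, pow_succ]
    omega

theorem src_le {l m0 ms mH m j1 j0 : ℕ} {P Q R : Win} {t κ C E εH Ξ Ξl Ξh : ℝ} (hl : 11 ≤ l)
    (h0 : 3 * l ≤ m0) (h1 : m0 + 5 ≤ ms) (h2 : ms ≤ mH) (h3 : m ≤ mH) (h4 : l ≤ j1) (h5 : j1 ≤ j0)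
    (h6 : j0 + 2 * l = m) (ht : 0 < t) (ht1 : t ≤ 1)
    (htw : 4 * 2 ^ l ≤ t * P.w) (hw : 32 * 2 ^ l * P.w ≤ 2 ^ m) (z1 : 2 ^ m ≤ 3 * |P.z|)
    (z2 : |P.z| ≤ 3 * 2 ^ m) (hT : TopCov Kc a l m0 ms mH m Ξl Ξh) (hΞl : 0 ≤ Ξl) (hΞh : 0 ≤ Ξh)
    (hH : HiB Kc a mH εH) (hE : tail Kc a 1 ≤ E) (hC : ∀ ζ, QA Kc a ζ (fun _ => True) ≤ C)
    (hc : ∀ i, Cov Kc a (2 ^ l) (P.kz i) j1 j0 Ξ) (hΞ : 0 ≤ Ξ)
    (hg : ∀ i, Gd Kc a (P.kz i) κ 1 (2 ^ m / 8)) (r1 : |R.z - P.z| ≤ P.w) (r2 : 256 * P.w ≤ R.w)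
    (hQ : 1 ≤ Q.w) :
    |Src Kc a t P Q| ≤ mW Kc a Q * lg Q.w / P.w * (Real.exp (-(2 ^ l) / 2) * P.w * C +
      2 ^ 11 * κ ^ 2 * (2 ^ (l + j1)) ^ 4 + 2 ^ 70 * (2 ^ l) ^ 6 * j0 * Ξ +
      2 ^ 32 * j0 * κ ^ 2 * P.w ^ 3 + 2 ^ m * farB Kc a l m0 mH m E εH Ξl Ξh +
      2 ^ 7 * 2 ^ m * 2 ^ ms * E * tail Kc a (2 ^ m / 16)) +
      2 ^ 90 * j0 * (2 ^ l) ^ 2 * κ * P.w * XX Kc a t R Q := by
  have w0 : (0 : ℝ) < P.w :=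
    (mul_pos_iff_of_pos_left ht).1 (lt_of_lt_of_le (by positivity) htw)
  have hP : 1 ≤ P.w := by exact_mod_cast w0
  have em : 2 ^ m = 2 ^ l * 2 ^ (l + j0) := by rw [← pow_add, ← h6]; congr 1; omega
  have hw' : 16 * P.w ≤ 2 ^ (l + j0) := by
    have : 2 ^ l * (32 * P.w) ≤ 2 ^ l * 2 ^ (l + j0) := by rw [← em]; linarith
    have := Nat.le_of_mul_le_mul_left this (by positivity)
    omega
  obtain ⟨J, a1, a2, J1, J2⟩ := src_unit (l := l) h5 hw'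
  have hg' : ∀ i, Gd Kc a (P.kz i) κ 1 (2 * 2 ^ (l + j0)) := fun i h b1 b2 => by
    refine hg i h b1 (b2.trans ?_)
    have e : (2 : ℝ) ^ m = 2 ^ l * 2 ^ (l + j0) := by exact_mod_cast em
    have hL : (2 : ℝ) ^ 11 ≤ 2 ^ l := pow_le_pow_right₀ one_le_two hl
    have d : (0 : ℝ) < 2 ^ (l + j0) := by positivity
    rw [e]
    nlinarith
  have A := src_in Kc a hl h4 a1 a2 ht ht1 htw J1 J2 hc hΞ hg' r1 r2 hQ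
  have B := src_out Kc a (Q := Q) hl h0 h1 h2 h3 h4 a1 a2 h6 ht.le hP J1 z1 z2 hT hΞl hΞh hH hE
    (srcc_kz1 P ▸ hc 1) hΞ hQ
  have D := src_hi Kc a P Q ht.le hP htw hQ hC
  have e : sz P = fun ζ k =>
      trap 0 (P.w / 8) ζ * (sz P ζ k * p4 (trap P.z (2 ^ (l + J))) k) +
      (trap 0 (P.w / 8) ζ * (sz P ζ k * (1 - p4 (trap P.z (2 ^ (l + J))) k)) +
        (1 - trap 0 (P.w / 8) ζ) * sz P ζ k) := by
    funext ζ k; ring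
  have N := (norm_add_le _ _).trans (add_le_add A ((norm_add_le _ _).trans (add_le_add B D)))
  rw [← SQ_add, ← SQ_add, ← e] at N
  refine (src_norm Kc a t P Q).trans ?_
  rw [div_le_iff₀ w0]
  refine N.trans ?_
  have M0 : 0 ≤ mW Kc a Q * lg Q.w := mul_nonneg (mW_nonneg Kc a Q) (lg_nonneg _)
  have t2 : 0 ≤ (2 ^ l) ^ 6 * j0 * Ξ * (mW Kc a Q * lg Q.w) := by positivity
  have e2 : ∀ M U V : ℝ, (M / P.w * U + V) * P.w = M * U + V * P.w := fun M U V => by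
    field_simp
  rw [e2]
  nlinarith

end Pool.Agent.Lib.MMTX
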