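import Pool.Agent.Lib.MP_0dc93f_an.X.ParF
import Pool.Agent.Lib.MP_0dc93f_an.X.Src

/-! The source terms in the derivative of the functional. -/

namespace Pool.Agent.Lib.MMTX

open Finset Complex ComplexConjugate MMTW

variable {p : Par} {a : ℤ → ℂ} {Y t W Z : ℝ} {P Q : Win}

theorem dp_Lpow (hp : p.OK) {c : ℝ} {n : ℕ} (hc : c ≤ 2 ^ 100) (hn : n < 60) :
    c * (p.L : ℝ) ^ n ≤ p.B :=
  calc c * (p.L : ℝ) ^ n ≤ p.L * (p.L : ℝ) ^ n :=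
        mul_le_mul_of_nonneg_right (hc.trans hp.L_one) (by positivity)
    _ = (p.L : ℝ) ^ (n + 1) := by ring
    _ ≤ (p.L : ℝ) ^ 60 := pow_le_pow_right₀ hp.L_ge (by omega)
    _ ≤ p.B := hp.L_B

theorem dp_lg (hp : p.OK) (hQ : p.WinOK t Q) : lg Q.w ≤ 4 * p.L := by
  have h1 : (1 : ℝ) ≤ Q.w := by exact_mod_cast hQ.w1
  have h2 : (Q.w : ℝ) ≤ 2 ^ p.mH := by exact_mod_cast hQ.w2
  have h3 : (0 : ℝ) < 2 ^ p.mH := by positivity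
  have h4 := hp.lg_le (x := 2 * Q.w) (by linarith) (by linarith)
  unfold lg
  linarith

theorem dp_U (hp : p.OK) {wt : ℝ} {m : ℕ} (hw : wt * 2 ^ m ≤ p.θ * p.gg m) :
    wt * 2 ^ m * p.mb m ≤ p.θ * p.S0 :=
  calc wt * 2 ^ m * p.mb m ≤ p.θ * p.gg m * p.mb m :=
        mul_le_mul_of_nonneg_right hw (hp.mb_pos m).le
    _ = p.θ * (p.gg m * p.mb m) := by ring
    _ ≤ p.θ * p.S0 := mul_le_mul_of_nonneg_left (hp.gg_mb m) hp.θ_pos.le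

theorem dp_kp (hp : p.OK) {wt c x : ℝ} {m : ℕ} (hm : p.m0 ≤ m) (h0 : 0 < wt)
    (hw : wt * 2 ^ m ≤ p.θ * p.gg m) (hc : c ≤ p.B) (hx0 : 0 ≤ x) (hx : x ≤ (2 ^ m) ^ 3) :
    wt * (c * p.kp m ^ 2 * x) ≤ p.S0 := by
  have hB := hp.B_pos
  have hS := hp.S0_pos
  have hη := hp.h0
  have hmb := hp.mb_pos m
  have h1 : p.mb m ≤ p.B :=
    (hp.mb_le (by have := hp.m01; omega)).trans (hp.e2.trans hp.L_le_B)
  have h2 : wt * 2 ^ m * p.mb m ≤ p.η * p.S0 :=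
    (dp_U hp hw).trans (mul_le_mul_of_nonneg_right hp.θ_le hS.le)
  calc wt * (c * p.kp m ^ 2 * x) ≤ wt * (p.B * p.kp m ^ 2 * (2 ^ m) ^ 3) := by gcongr
    _ = p.B ^ 3 * p.mb m * (wt * 2 ^ m * p.mb m) := by unfold Par.kp; field_simp
    _ ≤ p.B ^ 3 * p.B * (p.η * p.S0) := by gcongr
    _ = p.η * p.B ^ 4 * p.S0 := by ring
    _ ≤ p.S0 := mul_le_of_le_one_left hS.le (hp.η_B (by norm_num))

theorem dp_exp (hp : p.OK) {wt w : ℝ} {m : ℕ} (h0 : 0 < wt) (hw : wt * 2 ^ m ≤ p.θ * p.gg m)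
    (hwK : w ≤ 2 ^ m) : wt * (Real.exp (-(2 ^ p.l) / 2) * w * p.L) ≤ p.L * p.S0 := by
  have hS := hp.S0_pos
  have hK : (1 : ℝ) ≤ 2 ^ p.mN := one_le_pow₀ (by norm_num)
  have h1 : wt * w ≤ 2 ^ p.mN :=
    (mul_le_mul_of_nonneg_left hwK h0.le).trans (hw.trans
      ((mul_le_of_le_one_left (hp.gg_pos m).le (hp.θ_le.trans hp.η_le)).trans (hp.gg_le m)))
  have h2 := hp.r4
  rw [Par.OK.L_cast] at h2
  have he := Real.exp_pos (-(2 ^ p.l) / 2)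
  generalize Real.exp (-(2 ^ p.l) / 2) = e at h2 he
  have h3 : e * (2 ^ p.mN) ^ 2 ≤ 1 :=
    (mul_le_mul_of_nonneg_left (pow_le_pow_right₀ hK (by norm_num)) he.le).trans h2
  calc wt * (e * w * p.L) = p.L * (e * (wt * w)) * 1 := by ring
    _ ≤ p.L * (e * 2 ^ p.mN) * (p.S0 * 2 ^ p.mN) := by gcongr; exact hp.S0_ge2
    _ = e * (2 ^ p.mN) ^ 2 * (p.L * p.S0) := by ring
    _ ≤ p.L * p.S0 := mul_le_of_le_one_left (by positivity) h3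

theorem dp_two (hp : p.OK) (ha : p.Amb a) {wt : ℝ} {m : ℕ} (h0 : 0 < wt)
    (hw : wt * 2 ^ m ≤ p.θ * p.gg m) :
    wt * (2 ^ 7 * 2 ^ m * 2 ^ (p.m0 + 5) * p.E * tail p.Kc a (2 ^ m / 16)) ≤ p.S0 := by
  have hB := hp.B_pos
  have hS := hp.S0_pos
  have hθ := hp.θ_pos
  have hE : 0 ≤ p.E := by linarith [hp.e1]
  have hmb := hp.mb_pos m
  have hρ : 0 < p.ρ := lt_of_lt_of_le one_pos hp.ρ_one
  have hM : (2 : ℝ) ^ p.m0 ≤ p.ρ := le_self_pow₀ (one_le_pow₀ (by norm_num)) (by norm_num)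
  have eθ : p.θ * p.ρ = p.η ^ 2 := div_mul_cancel₀ _ hρ.ne'
  calc wt * (2 ^ 7 * 2 ^ m * 2 ^ (p.m0 + 5) * p.E * tail p.Kc a (2 ^ m / 16))
      ≤ wt * (2 ^ 7 * 2 ^ m * 2 ^ (p.m0 + 5) * p.E * p.mb m) := by
        gcongr
        exact hp.tail16 ha m
    _ = 2 ^ 12 * p.E * 2 ^ p.m0 * (wt * 2 ^ m * p.mb m) := by ring
    _ ≤ p.B * p.ρ * (p.θ * p.S0) :=
        mul_le_mul (mul_le_mul hp.E_B hM (by positivity) hB.le) (dp_U hp hw) (by positivity)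
          (by positivity)
    _ = p.θ * p.ρ * p.B * p.S0 := by ring
    _ = p.η * (p.η * p.B ^ 1) * p.S0 := by rw [eθ]; ring
    _ ≤ p.S0 := mul_le_of_le_one_left hS.le
        (mul_le_one₀ hp.η_le (mul_pos hp.h0 (pow_pos hB _)).le (hp.η_B (by norm_num)))

theorem dp_br (hp : p.OK) (ha : p.Amb a) (hY : 0 ≤ Y) {wt w : ℝ} {m : ℕ} (h1 : p.m0 ≤ m)
    (h2 : m ≤ p.mH) (h0 : 0 < wt) (hw : wt * 2 ^ m ≤ p.θ * p.gg m) (hw0 : 0 ≤ w)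
    (hwK : w ≤ 2 ^ m) :
    wt * (Real.exp (-(2 ^ p.l) / 2) * w * p.L + 2 ^ 11 * p.kp m ^ 2 * (2 ^ (p.l + p.j1 m)) ^ 4 +
      2 ^ 70 * (2 ^ p.l) ^ 6 * p.j0 m * (Y / (p.B ^ 10 * wt)) +
      2 ^ 32 * p.j0 m * p.kp m ^ 2 * w ^ 3 +
      2 ^ m * farB p.Kc a p.l p.m0 p.mH m p.E p.εH (Y * p.B * p.ρ / p.gg m)
        (Y * p.B * p.ρ / p.gg m) +
      2 ^ 7 * 2 ^ m * 2 ^ (p.m0 + 5) * p.E * tail p.Kc a (2 ^ m / 16)) ≤
      p.B / 2 * (Y + p.S0) := by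
  have hB := hp.B_pos
  have hS := hp.S0_pos
  have hL := hp.L_ge
  have hj := hp.j0_le h2
  have t1 := dp_exp hp h0 hw hwK
  have t2 : wt * (2 ^ 11 * p.kp m ^ 2 * (2 ^ (p.l + p.j1 m)) ^ 4) ≤ p.S0 := by
    refine dp_kp hp h1 h0 hw (le_trans (by norm_num) hp.B_ge) (by positivity) ?_
    rw [← pow_mul, ← pow_mul]
    exact pow_le_pow_right₀ (by norm_num) (by have := (hp.j_spec h1).2.2.2; omega)
  have t3 : wt * (2 ^ 70 * (2 ^ p.l) ^ 6 * p.j0 m * (Y / (p.B ^ 10 * wt))) ≤ Y := by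
    rw [← Par.OK.L_cast]
    calc wt * (2 ^ 70 * (p.L : ℝ) ^ 6 * p.j0 m * (Y / (p.B ^ 10 * wt)))
        ≤ wt * (2 ^ 70 * (p.L : ℝ) ^ 6 * p.L * (Y / (p.B ^ 10 * wt))) := by gcongr
      _ = 2 ^ 70 * (p.L : ℝ) ^ 7 / p.B ^ 10 * Y := by field_simp
      _ ≤ Y := mul_le_of_le_one_left hY ((div_le_one (by positivity)).2
          ((dp_Lpow hp (by norm_num) (by norm_num)).trans (le_self_pow₀ hp.B_one (by norm_num))))
  have t4 : wt * (2 ^ 32 * p.j0 m * p.kp m ^ 2 * w ^ 3) ≤ p.S0 := by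
    refine dp_kp hp h1 h0 hw ?_ (by positivity) (pow_le_pow_left₀ hw0 hwK 3)
    calc (2 : ℝ) ^ 32 * p.j0 m ≤ 2 ^ 32 * (p.L : ℝ) ^ 1 := by rw [pow_one]; gcongr
      _ ≤ p.B := dp_Lpow hp (by norm_num) (by norm_num)
  have t5 := (hp.far_top ha hY h0.le hw).trans
    (div_le_self (by positivity) (one_le_pow₀ (n := 4) hp.B_one))
  have t6 := dp_two hp ha h0 hw
  have h6 : 12 * (p.L : ℝ) ^ 1 ≤ p.B := dp_Lpow hp (by norm_num) (by norm_num)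
  rw [pow_one] at h6
  have h7 : 6 * p.L * (Y + p.S0) ≤ p.B / 2 * (Y + p.S0) :=
    mul_le_mul_of_nonneg_right (by linarith) (by positivity)
  have h8 : Y ≤ p.L * Y := le_mul_of_one_le_left hY hL
  have h9 : p.S0 ≤ p.L * p.S0 := le_mul_of_one_le_left hS.le hL
  simp only [mul_add wt]
  nlinarith

theorem item_src (hp : p.OK) (ha : p.Amb a) (hY : 0 ≤ Y) (t0 : 0 < t) (t1 : t ≤ 1) (hW : 0 ≤ W)
    (hP : p.WinOK t P) (hQ : p.WinOK t Q)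
    (tp : ∀ m, p.m0 ≤ m → m ≤ p.mH → TopCov p.Kc a p.l p.m0 (p.m0 + 5) p.mH m
      (Y * p.B * p.ρ / p.gg m) (Y * p.B * p.ρ / p.gg m)) (h : p.SrcOK a Y t W P Q) :
    W * |Src p.Kc a t P Q| ≤ (Y + p.S0) / p.B ^ 3 := by
  have hB := hp.B_pos
  have hS := hp.S0_pos
  have hlg := dp_lg hp hQ
  have hm := mW_nonneg p.Kc a Q
  have hL : (0 : ℝ) ≤ p.L := Nat.cast_nonneg _
  rw [le_div_iff₀ (pow_pos hB 3)]
  rcases h with h | ⟨m, wt, R, h1, h2, h3, h4, h5, h6, h7, h8, h9, h10, h11, h12⟩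
  · have h1 := src_crude p.Kc a P Q t0.le hP.w1 hQ.w1 ha.c0
    have h2 : 4 * (p.L : ℝ) ^ 2 ≤ p.B ^ 2 :=
      (dp_Lpow hp (by norm_num) (by norm_num)).trans (le_self_pow₀ hp.B_one (by norm_num))
    calc W * |Src p.Kc a t P Q| * p.B ^ 3
        ≤ W * (p.L * (mW p.Kc a Q * (4 * p.L))) * p.B ^ 3 := by
          gcongr
          exact h1.trans (by gcongr)
      _ = W * mW p.Kc a Q * (4 * (p.L : ℝ) ^ 2 * p.B ^ 3) := by ring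
      _ ≤ W * mW p.Kc a Q * (p.B ^ 2 * p.B ^ 3) := by gcongr
      _ = W * mW p.Kc a Q * p.B ^ 5 := by ring
      _ ≤ Y + p.S0 := by linarith
  · obtain ⟨j1, j2, j3, -⟩ := hp.j_spec h1
    have a1 := hp.m01
    have a2 := hp.m02
    have a3 := hp.m03
    have a4 := hp.m04
    have a5 := hp.l100
    have hρ : 0 < p.ρ := lt_of_lt_of_le one_pos hp.ρ_one
    have hg := hp.gg_pos m
    have hΞ : 0 ≤ Y * p.B * p.ρ / p.gg m := by positivity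
    have hw1 : (1 : ℝ) ≤ P.w := by exact_mod_cast hP.w1
    have hwK : (P.w : ℝ) ≤ 2 ^ m := by
      have e1 : P.w ≤ 2 ^ m :=
        le_trans (Nat.le_mul_of_pos_left _ (Nat.mul_pos (by norm_num) (Nat.two_pow_pos p.l))) h5
      exact_mod_cast e1
    have hs := src_le p.Kc a (l := p.l) (by omega) (by omega) le_rfl (by omega) h2 j1 j2.le j3 t0 t1
      (by rw [← Par.OK.L_cast]; exact hP.tw) h5 h3 h4 (tp m h1 h2) hΞ hΞ ha.hi (hp.mass_le ha) ha.c0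
      (fun i => (h9 i).cov) (by positivity) (fun i => (h9 i).gd) h10 h11 hQ.w1
    have hb := dp_br hp ha hY h1 h2 h6 h7 (by linarith : (0 : ℝ) ≤ P.w) hwK
    have hX := XX_nonneg p.Kc a t0 R Q
    have hk := hp.kp_pos m
    have hj := hp.j0_le h2
    have hlB : lg Q.w ≤ p.B := by
      have e1 : 4 * (p.L : ℝ) ^ 1 ≤ p.B := dp_Lpow hp (by norm_num) (by norm_num)
      rw [pow_one] at e1
      linarith
    have b1 : W * (mW p.Kc a Q * lg Q.w / P.w) * p.B ^ 4 ≤ wt := by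
      calc W * (mW p.Kc a Q * lg Q.w / P.w) * p.B ^ 4
          ≤ W * (mW p.Kc a Q * p.B / P.w) * p.B ^ 4 := by gcongr
        _ = W * mW p.Kc a Q * p.B ^ 5 / P.w := by ring
        _ ≤ wt := (div_le_iff₀ (by linarith)).2 h8
    have b2 : W * (2 ^ 90 * p.j0 m * (2 ^ p.l) ^ 2 * p.kp m * P.w * XX p.Kc a t R Q) * p.B ^ 3 ≤
        Y / 2 := by
      have e1 : 2 ^ 91 * (p.L : ℝ) ^ 3 ≤ p.B ^ 2 :=
        (dp_Lpow hp (by norm_num) (by norm_num)).trans (le_self_pow₀ hp.B_one (by norm_num))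
      rw [← Par.OK.L_cast]
      calc W * (2 ^ 90 * p.j0 m * (p.L : ℝ) ^ 2 * p.kp m * P.w * XX p.Kc a t R Q) * p.B ^ 3
          ≤ W * (2 ^ 90 * p.L * (p.L : ℝ) ^ 2 * p.kp m * P.w * XX p.Kc a t R Q) * p.B ^ 3 := by
            gcongr
        _ = W * p.kp m * P.w * XX p.Kc a t R Q * (2 ^ 91 * (p.L : ℝ) ^ 3 * p.B ^ 3) / 2 := by ring
        _ ≤ W * p.kp m * P.w * XX p.Kc a t R Q * (p.B ^ 2 * p.B ^ 3) / 2 := by gcongr
        _ = W * p.kp m * P.w * XX p.Kc a t R Q * p.B ^ 5 / 2 := by ring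
        _ ≤ Y / 2 := by gcongr
    have hlg0 : 0 ≤ lg Q.w := le_trans (by norm_num) (two_le_lg (by exact_mod_cast hQ.w1))
    have c0 : 0 ≤ W * (mW p.Kc a Q * lg Q.w / P.w) := by positivity
    generalize Real.exp (-(2 ^ p.l) / 2) * P.w * p.L +
      2 ^ 11 * p.kp m ^ 2 * (2 ^ (p.l + p.j1 m)) ^ 4 +
      2 ^ 70 * (2 ^ p.l) ^ 6 * p.j0 m * (Y / (p.B ^ 10 * wt)) +
      2 ^ 32 * p.j0 m * p.kp m ^ 2 * (P.w : ℝ) ^ 3 +
      2 ^ m * farB p.Kc a p.l p.m0 p.mH m p.E p.εH (Y * p.B * p.ρ / p.gg m)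
        (Y * p.B * p.ρ / p.gg m) +
      2 ^ 7 * 2 ^ m * 2 ^ (p.m0 + 5) * p.E * tail p.Kc a (2 ^ m / 16) = Br at hs hb
    generalize 2 ^ 90 * p.j0 m * (2 ^ p.l) ^ 2 * p.kp m * P.w * XX p.Kc a t R Q = V at hs b2
    generalize mW p.Kc a Q * lg Q.w / P.w = A at hs b1 c0
    have b3 : Br ≤ p.B / 2 * (Y + p.S0) / wt := (le_div_iff₀' h6).2 hb
    have b4 : W * A * Br * p.B ^ 3 ≤ (Y + p.S0) / 2 := by
      calc W * A * Br * p.B ^ 3 ≤ W * A * (p.B / 2 * (Y + p.S0) / wt) * p.B ^ 3 := by gcongr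
        _ = W * A * p.B ^ 4 * ((Y + p.S0) / 2 / wt) := by ring
        _ ≤ wt * ((Y + p.S0) / 2 / wt) := by gcongr
        _ = (Y + p.S0) / 2 := by field_simp
    calc W * |Src p.Kc a t P Q| * p.B ^ 3 ≤ W * (A * Br + V) * p.B ^ 3 := by gcongr
      _ = W * A * Br * p.B ^ 3 + W * V * p.B ^ 3 := by ring
      _ ≤ Y + p.S0 := by linarith

end Pool.Agent.Lib.MMTX
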