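import Pool.Agent.Lib.MP_0dc93f_an.X.Two

/-! The cells of the far step. -/

namespace Pool.Agent.Lib.MMTX

open Finset Complex ComplexConjugate MMTW

noncomputable section

/-- dyadic piece -/
def fbt (m : ℕ) (k : ℤ) : ℝ := lo m k - lo (m - 1) k

/-- a cell, or the low block -/
def fcel (l m0 : ℕ) (c : ℕ × ℤ) (k : ℤ) : ℝ :=
  if c.1 ≤ m0 then lo m0 k else
    fbt c.1 k * hat (2 ^ (c.1 - 2 * l)) (k - c.2 * 2 ^ (c.1 - 2 * l))

/-- positions of the cells of one scale -/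
def fNs (l : ℕ) : Finset ℤ :=
  (Icc (-(2 * 2 ^ (2 * l))) (2 * 2 ^ (2 * l))).filter fun n => 2 ^ (2 * l) ≤ 2 * |n|

/-- the cells of the scales between `m1` and `m2` -/
def fIx (l m1 m2 : ℕ) : Finset (ℕ × ℤ) := Ioc m1 m2 ×ˢ fNs l

end

theorem fIx_mem {l m0 m1 m2 mH : ℕ} {c : ℕ × ℤ} (h : c ∈ fIx l m1 m2) (h1 : m0 ≤ m1)
    (h2 : m2 ≤ mH) : m1 < c.1 ∧ c.1 ≤ m2 ∧ Rng l m0 mH c.1 c.2 := by
  simp only [fIx, fNs, mem_product, mem_Ioc, mem_filter, mem_Icc] at h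
  obtain ⟨⟨a1, a2⟩, ⟨a3, a4⟩, a5⟩ := h
  exact ⟨a1, a2, by omega, by omega, a5, abs_le.mpr ⟨a3, a4⟩⟩

theorem fIx_card {l m1 m2 mH : ℕ} (h2 : m2 ≤ mH) :
    ((fIx l m1 m2).card : ℝ) + 1 ≤ ((mH : ℝ) + 1) * 8 * 2 ^ (2 * l) := by
  have p1 : (1 : ℝ) ≤ 2 ^ (2 * l) := one_le_pow₀ (by norm_num)
  have c1 : ((fNs l).card : ℝ) ≤ 4 * 2 ^ (2 * l) + 1 := by
    have : (fNs l).card ≤ (Icc (-(2 * 2 ^ (2 * l)) : ℤ) (2 * 2 ^ (2 * l))).card := card_filter_le _ _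
    have e : (((Icc (-(2 * 2 ^ (2 * l)) : ℤ) (2 * 2 ^ (2 * l))).card : ℕ) : ℤ) =
        4 * 2 ^ (2 * l) + 1 := by
      rw [Int.card_Icc_of_le _ _ (by have : (0 : ℤ) < 2 ^ (2 * l) := by positivity
                                     linarith)]
      ring
    have h3 : (((fNs l).card : ℕ) : ℤ) ≤ 4 * 2 ^ (2 * l) + 1 := by rw [← e]; exact_mod_cast this
    exact_mod_cast h3
  have c2 : ((Ioc m1 m2).card : ℝ) ≤ mH := by
    rw [Nat.card_Ioc]; exact_mod_cast (by omega : m2 - m1 ≤ mH)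
  have c0 : (0 : ℝ) ≤ mH := Nat.cast_nonneg _
  unfold fIx
  rw [card_product, Nat.cast_mul]
  have := mul_le_mul c2 c1 (Nat.cast_nonneg _) c0
  nlinarith [mul_nonneg c0 (sub_nonneg.mpr p1)]

theorem far_lo_one {m : ℕ} {k : ℤ} (h : |(k : ℝ)| ≤ 2 ^ m) : lo m k = 1 :=
  trap_one 0 (by positivity) k (by simpa using h)

theorem far_lo_zero {m : ℕ} {k : ℤ} (h : 2 * 2 ^ m ≤ |(k : ℝ)|) : lo m k = 0 :=
  trap_zero 0 (by positivity) (by simpa using h)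

theorem far_lo_mem (m : ℕ) (k : ℤ) : 0 ≤ lo m k ∧ lo m k ≤ 1 := ⟨trap_nonneg _ _ _, trap_le _ _ _⟩

theorem fbt_ne {m : ℕ} {k : ℤ} (hm : 1 ≤ m) (h : fbt m k ≠ 0) :
    2 ^ m < 2 * |(k : ℝ)| ∧ |(k : ℝ)| < 2 * 2 ^ m := by
  obtain ⟨n, rfl⟩ : ∃ n, m = n + 1 := ⟨m - 1, by omega⟩
  have p : (0 : ℝ) < 2 ^ n := by positivity
  have e : (2 : ℝ) ^ (n + 1) = 2 * 2 ^ n := by ring
  unfold fbt at h
  rw [Nat.add_sub_cancel] at h
  constructor
  · by_contra hh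
    push Not at hh
    exact h (by rw [far_lo_one (by linarith), far_lo_one (by linarith), sub_self])
  · by_contra hh
    push Not at hh
    exact h (by rw [far_lo_zero (by linarith), far_lo_zero (by linarith), sub_self])

theorem fcel_ne {l m0 : ℕ} {c : ℕ × ℤ} {k : ℤ} (h : m0 < c.1) (hk : fcel l m0 c k ≠ 0) :
    2 ^ c.1 < 2 * |(k : ℝ)| ∧ |(k : ℝ)| < 2 * 2 ^ c.1 ∧
      |(k : ℝ) - c.2 * 2 ^ (c.1 - 2 * l)| < 2 ^ (c.1 - 2 * l) := by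
  unfold fcel at hk
  rw [if_neg (by omega)] at hk
  obtain ⟨a1, a2⟩ := fbt_ne (by omega) (left_ne_zero_of_mul hk)
  refine ⟨a1, a2, ?_⟩
  have := hat_ne (by positivity) (right_ne_zero_of_mul hk)
  push_cast at this
  exact this

theorem fcel_low {l m0 : ℕ} {c : ℕ × ℤ} (h : c.1 ≤ m0) (k : ℤ) :
    |fcel l m0 c k| ≤ 1 ∧ (fcel l m0 c k ≠ 0 → |(k : ℝ)| < 2 * 2 ^ m0) := by
  unfold fcel
  rw [if_pos h]
  refine ⟨by rw [abs_of_nonneg (far_lo_mem _ _).1]; exact (far_lo_mem _ _).2, fun hk => ?_⟩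
  by_contra hh
  exact hk (far_lo_zero (not_lt.mp hh))

theorem hc_fcel {l m0 : ℕ} {c : ℕ × ℤ} (hl : 1 ≤ l) (h : m0 < c.1) :
    HC (2 ^ (c.1 - 2 * l)) 128 (fcel l m0 c) := by
  have p : (0 : ℝ) < 2 ^ (c.1 - 2 * l) := by positivity
  have a1 : HC (2 ^ (c.1 - 2 * l)) 4 (lo c.1) :=
    (hc_trap 0 (by positivity)).mono p (pow_le_pow_right₀ (by norm_num) (by omega)) le_rfl
  have a2 : HC (2 ^ (c.1 - 2 * l)) 4 (lo (c.1 - 1)) :=
    (hc_trap 0 (by positivity)).mono p (pow_le_pow_right₀ (by norm_num) (by omega)) le_rfl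
  have a3 := ((a1.sub a2).mul (hc_hat p (c.2 * 2 ^ (c.1 - 2 * l))) p).mono p le_rfl
    (by norm_num : (4 : ℝ) * (4 + 4) * 4 ≤ 128)
  refine a3.congr fun k => ?_
  unfold fcel fbt
  rw [if_neg (by omega)]

theorem fcel_row {l m0 m : ℕ} (hl : 1 ≤ l) (h0 : 2 * l ≤ m0) (h : m0 < m) (k : ℤ) :
    ∑ n ∈ fNs l, fcel l m0 (m, n) k = fbt m k := by
  have e : ∀ n, fcel l m0 (m, n) k = fbt m k * hat (2 ^ (m - 2 * l)) (k - n * 2 ^ (m - 2 * l)) := by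
    intro n; unfold fcel; rw [if_neg (by simpa using h)]
  simp only [e]
  rw [← mul_sum]
  by_cases hb : fbt m k = 0
  · rw [hb, zero_mul]
  obtain ⟨a1, a2⟩ := fbt_ne (by omega) hb
  have b1 : (2 : ℤ) ^ m < 2 * |k| := by exact_mod_cast a1
  have b2 : |k| < (2 : ℤ) * 2 ^ m := by exact_mod_cast a2
  have hs := sum_hat (u := 2 ^ (m - 2 * l)) Nat.one_le_two_pow k (fNs l) (by
    intro n hn
    push_cast at hn
    obtain ⟨l', rfl⟩ : ∃ l', l = l' + 1 := ⟨l - 1, by omega⟩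
    have e1 : (2 : ℤ) ^ m = 2 ^ (2 * (l' + 1)) * 2 ^ (m - 2 * (l' + 1)) := by
      rw [← pow_add]; congr 1; omega
    have e2 : (2 : ℤ) ^ (2 * (l' + 1)) = 2 * 2 ^ (2 * l' + 1) := by ring
    set u : ℤ := 2 ^ (m - 2 * (l' + 1))
    have u0 : 0 < u := by positivity
    set w : ℤ := 2 ^ (2 * l' + 1)
    have n1 : |n * u| = |n| * u := by rw [abs_mul, abs_of_pos u0]
    have n2 : |n * u| ≤ |k| + |k - n * u| := by
      have := abs_sub k (k - n * u); rwa [sub_sub_cancel] at this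
    have n3 : |k| ≤ |k - n * u| + |n * u| := by
      have := abs_add_le (k - n * u) (n * u); rwa [sub_add_cancel] at this
    have n4 : |n| < 2 * (2 * w) + 1 := by
      refine lt_of_mul_lt_mul_right ?_ u0.le
      rw [e1, e2] at b2; nlinarith
    have n5 : w < |n| + 1 := by
      refine lt_of_mul_lt_mul_right ?_ u0.le
      rw [e1, e2] at b1; nlinarith
    simp only [fNs, mem_filter, mem_Icc, e2]
    have := abs_le.mp (show |n| ≤ 2 * (2 * w) by omega)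
    exact ⟨this, by omega⟩)
  push_cast at hs
  rw [hs, mul_one]

theorem fcel_sum {l m0 m1 m2 : ℕ} (hl : 1 ≤ l) (h0 : 2 * l ≤ m0) (h1 : m0 ≤ m1) (h2 : m1 ≤ m2)
    (k : ℤ) : ∑ c ∈ fIx l m1 m2, fcel l m0 c k = lo m2 k - lo m1 k := by
  unfold fIx
  rw [sum_product]
  induction m2, h2 using Nat.le_induction with
  | base => simp
  | succ n hn ih =>
    rw [sum_Ioc_succ_top hn, ih, fcel_row hl h0 (by omega)]
    unfold fbt
    rw [Nat.add_sub_cancel]; ring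

theorem fcel_sum0 {l m0 m2 : ℕ} (hl : 1 ≤ l) (h0 : 2 * l ≤ m0) (h2 : m0 ≤ m2)
    (k : ℤ) : ∑ c ∈ insert (m0, 0) (fIx l m0 m2), fcel l m0 c k = lo m2 k := by
  rw [sum_insert (fun h => by simpa using (fIx_mem h le_rfl le_rfl).1), fcel_sum hl h0 le_rfl h2]
  unfold fcel
  rw [if_pos le_rfl]; ring

/-- a slot function times a cell -/
theorem hc_slot {l m0 mH m : ℕ} {c : ℕ × ℤ} {T : ℝ} {g : ℤ → ℝ} (hl : 1 ≤ l) (h0 : 2 * l ≤ m0)
    (h : m0 < c.1) (hc : Rng l m0 mH c.1 c.2) (hg : HC (8 * 2 ^ m / 2 ^ (2 * l)) T g)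
    (cg : Cst g (4 * 2 ^ m)) :
    HC (2 ^ (c.1 - 2 * l)) (512 * T) fun k => g k * fcel l m0 c k := by
  have p : (0 : ℝ) < 2 ^ (c.1 - 2 * l) := by positivity
  have e1 : (2 : ℝ) ^ c.1 = 2 ^ (2 * l) * 2 ^ (c.1 - 2 * l) := by
    rw [← pow_add]; congr 1; omega
  have eT : 4 * T * 128 ≤ 512 * T := by linarith
  by_cases hm : c.1 ≤ m + 3
  · have a1 : (2 : ℝ) ^ (c.1 - 2 * l) ≤ 8 * 2 ^ m / 2 ^ (2 * l) := by
      rw [le_div_iff₀ (by positivity), mul_comm, ← e1]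
      calc (2 : ℝ) ^ c.1 ≤ 2 ^ (m + 3) := pow_le_pow_right₀ (by norm_num) hm
        _ = 8 * 2 ^ m := by ring
    exact ((hg.mono p a1 le_rfl).mul (hc_fcel hl h) p).mono p le_rfl eT
  · have a1 : 16 * (2 : ℝ) ^ m ≤ 2 ^ c.1 :=
      calc 16 * (2 : ℝ) ^ m = 2 ^ (m + 4) := by ring
        _ ≤ 2 ^ c.1 := pow_le_pow_right₀ (by norm_num) (by omega)
    have a2 := ((HC.const p (hg.sup (c.2 * 2 ^ (c.1 - 2 * l)))).mul (hc_fcel (m0 := m0) hl h) p).mono p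
      le_rfl eT
    refine a2.congr fun k => ?_
    by_cases hk : fcel l m0 c k = 0
    · rw [hk, mul_zero, mul_zero]
    obtain ⟨b1, b2, b3⟩ := fcel_ne h hk
    have r1 : (2 : ℝ) ^ (2 * l) ≤ 2 * |(c.2 : ℝ)| := by exact_mod_cast hc.2.2.1
    have r2 : (4 : ℝ) ≤ 2 ^ (2 * l) :=
      calc (4 : ℝ) = 2 ^ 2 := by norm_num
        _ ≤ 2 ^ (2 * l) := pow_le_pow_right₀ (by norm_num) (by omega)
    have pm : (0 : ℝ) < 2 ^ m := by positivity
    congr 1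
    apply cg
    push_cast
    set u : ℝ := 2 ^ (c.1 - 2 * l)
    have b4 := abs_lt.mp b3
    rcases le_total 0 (c.2 : ℝ) with hn | hn
    · rw [abs_of_nonneg hn] at r1
      have c1 : 2 ^ (2 * l) * u ≤ 2 * c.2 * u := mul_le_mul_of_nonneg_right r1 p.le
      have c2 : 4 * u ≤ 2 ^ (2 * l) * u := mul_le_mul_of_nonneg_right r2 p.le
      have c3 : 0 ≤ (k : ℝ) := by linarith [b4.1]
      rw [abs_of_nonneg c3] at b1
      left; constructor <;> linarith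
    · rw [abs_of_nonpos hn] at r1
      have c1 : 2 ^ (2 * l) * u ≤ 2 * -c.2 * u := mul_le_mul_of_nonneg_right r1 p.le
      have c2 : 4 * u ≤ 2 ^ (2 * l) * u := mul_le_mul_of_nonneg_right r2 p.le
      have c3 : (k : ℝ) ≤ 0 := by linarith [b4.2]
      rw [abs_of_nonpos c3] at b1
      right; constructor <;> linarith

end Pool.Agent.Lib.MMTX
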