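import Pool.Agent.Lib.MP_0dc93f_an.X.Far1

/-! The geometry of a witness in the far step. -/

namespace Pool.Agent.Lib.MMTX

open Finset Complex ComplexConjugate MMTW

theorem far_perm (R : Fin 4 → Fin 4 → Prop) (hR : ∀ i j, R i j → R j i) (π : Equiv.Perm (Fin 4))
    (h1 : R (π 0) (π 1)) (h2 : R (π 2) (π 3)) (i0 : Fin 4) :
    ∃ σ : Equiv.Perm (Fin 4), σ 0 = i0 ∧ R (σ 0) (σ 1) ∧ R (σ 2) (σ 3) := by
  obtain ⟨i, rfl⟩ := π.surjective i0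
  fin_cases i
  · exact ⟨π, rfl, h1, h2⟩
  · exact ⟨(Equiv.swap 0 1).trans π, rfl, hR _ _ h1, h2⟩
  · exact ⟨((Equiv.swap 0 2).trans (Equiv.swap 1 3)).trans π, rfl, h2, h1⟩
  · exact ⟨((Equiv.swap 0 3).trans (Equiv.swap 1 2)).trans π, rfl, hR _ _ h2, hR _ _ h1⟩

theorem far2_aux (k : Fin 4 → ℤ) {s d g : ℝ} (hd : |(De k : ℝ)| ≤ d) {i j : Fin 4}
    (hs : s ≤ |(k i : ℝ) - k j|) (hg : g ≤ (s - d) / 2 - d) (i0 : Fin 4) :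
    ∃ σ : Equiv.Perm (Fin 4), σ 0 = i0 ∧ g ≤ |(k (σ 0) : ℝ) - k (σ 1)| ∧
      g ≤ |(k (σ 2) : ℝ) - k (σ 3)| := by
  obtain ⟨π, h1, h2⟩ := geo' k hd hs
  exact far_perm (fun i j => g ≤ |(k i : ℝ) - k j|) (fun i j h => by rwa [abs_sub_comm]) π
    (hg.trans h1) (hg.trans h2) i0

theorem far_geo (k : Fin 4 → ℤ) {K L D r z X : ℝ} (hL : 2048 ≤ L) (hK : 0 < K) (d1 : K ≤ L * D)
    (d2 : D ≤ K) (hr0 : 0 ≤ r) (hr : 8 * r ≤ D) (hζ : 64 * |(De k : ℝ)| ≤ D) (hz : |z| ≤ 3 * K)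
    (hR : ∃ i, (k i : ℝ) < z + r) (hL' : ∃ i, z - r < k i) (hD : ∃ i, D / 2 < |(k i : ℝ) - z|)
    (hX : X ≤ 8 * K ∨ (16 * K ≤ X ∧ ∃ j, X < 2 * |(k j : ℝ)|)) (i0 : Fin 4) :
    ∃ (σ : Equiv.Perm (Fin 4)) (g : ℝ), σ 0 = i0 ∧ g ≤ |(k (σ 0) : ℝ) - k (σ 1)| ∧
      g ≤ |(k (σ 2) : ℝ) - k (σ 3)| ∧ X ≤ 56 * L * g ∧ K ≤ 8 * L * g := by
  obtain ⟨i, hi⟩ := hR
  obtain ⟨i', hi'⟩ := hL'
  obtain ⟨z1, z2⟩ := abs_le.1 hz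
  rcases hX with hX | ⟨hX, j, hj⟩
  · obtain ⟨j, hj⟩ := hD
    have : ∃ u v, 3 * D / 8 ≤ |(k u : ℝ) - k v| := by
      rcases lt_abs.1 hj with h | h
      · exact ⟨j, i, le_abs.2 (.inl (by linarith))⟩
      · exact ⟨i', j, le_abs.2 (.inl (by linarith))⟩
    obtain ⟨u, v, hs⟩ := this
    obtain ⟨σ, h0, h1, h2⟩ := far2_aux k (d := D / 64) (g := 21 * D / 128) (by linarith) hs
      (by linarith) i0
    exact ⟨σ, _, h0, h1, h2, by linarith, by linarith⟩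
  · have : ∃ u v, 39 * X / 128 ≤ |(k u : ℝ) - k v| := by
      rcases lt_abs.1 (show X / 2 < |(k j : ℝ)| by linarith) with h | h
      · exact ⟨j, i, le_abs.2 (.inl (by linarith))⟩
      · exact ⟨i', j, le_abs.2 (.inl (by linarith))⟩
    obtain ⟨u, v, hs⟩ := this
    obtain ⟨σ, h0, h1, h2⟩ := far2_aux k (d := X / 1024) (g := X / 8) (by linarith) hs
      (by linarith) i0
    have : X ≤ L * X := le_mul_of_one_le_left (by linarith) (by linarith)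
    exact ⟨σ, _, h0, h1, h2, by linarith, by linarith⟩

theorem far_geo_low (k : Fin 4 → ℤ) {K M : ℝ} (i0 : Fin 4) (hζ : 64 * |(De k : ℝ)| ≤ K)
    (h0 : |(k i0 : ℝ)| < 2 * M) (h1 : ∀ j, j ≠ i0 → 32 * M < |(k j : ℝ)|)
    (hM : ∃ j, K / 4 ≤ |(k j : ℝ)|) :
    ∃ (σ : Equiv.Perm (Fin 4)) (X : ℝ), σ 0 = i0 ∧ (∀ j, |(k j : ℝ)| ≤ X) ∧ K ≤ 4 * X ∧
      5 * X / 16 ≤ |(k (σ 1) : ℝ)| ∧ 3 * X / 8 ≤ |(k (σ 2) : ℝ) - k (σ 3)| := by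
  obtain ⟨j0, hj0⟩ := Finite.exists_max fun j => |(k j : ℝ)|
  obtain ⟨j, hj⟩ := hM
  obtain ⟨j1, hj1⟩ := exists_ne i0
  have a1 := (h1 j1 hj1).trans_le (hj0 j1)
  have a2 := hj.trans (hj0 j)
  have a3 := abs_sub_abs_le_abs_sub (k j0 : ℝ) (k i0)
  obtain ⟨σ, e0, e1, e2⟩ := far2_aux k (s := 15 * |(k j0 : ℝ)| / 16) (d := |(k j0 : ℝ)| / 16)
    (g := 3 * |(k j0 : ℝ)| / 8) (i := j0) (j := i0) (by linarith) (by linarith) (by linarith) i0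
  refine ⟨σ, _, e0, hj0, by linarith, ?_, e2⟩
  rw [e0] at e1
  have := abs_sub (k i0 : ℝ) (k (σ 1))
  linarith

theorem far2_e {l n : ℕ} {g : ℝ} (hl : 11 ≤ l) (h : 2 * l ≤ n) (x : 2 ^ n ≤ 56 * 2 ^ l * g) :
    (2 : ℝ) ^ (n - 2 * l) ≤ g / 16 := by
  have e : (2 : ℝ) ^ n = 2 ^ (n - 2 * l) * 2 ^ l * 2 ^ l := by
    rw [← pow_add, ← pow_add]
    congr 1
    omega
  have hL : (2 : ℝ) ^ 11 ≤ 2 ^ l := pow_le_pow_right₀ one_le_two hl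
  have p : (0 : ℝ) < 2 ^ (n - 2 * l) := by positivity
  have q : (0 : ℝ) < 2 ^ l := by positivity
  have : (2 : ℝ) ^ (n - 2 * l) * 2 ^ l ≤ 56 * g :=
    le_of_mul_le_mul_right (by rw [← e]; linarith) q
  have := mul_le_mul_of_nonneg_left hL p.le
  rw [show (2 : ℝ) ^ 11 = 2048 by norm_num] at this
  linarith

/-- separated points give separated cells -/
theorem far_pair {l m0 m : ℕ} {c d : ℕ × ℤ} {k k' : ℤ} {g : ℝ} (hl : 11 ≤ l) (h0 : 2 * l ≤ m0)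
    (hc : m0 < c.1) (hd : m0 < d.1) (kc : fcel l m0 c k ≠ 0) (kd : fcel l m0 d k' ≠ 0)
    (hg : g ≤ |(k : ℝ) - k'|) (xc : 2 ^ c.1 ≤ 56 * 2 ^ l * g) (xd : 2 ^ d.1 ≤ 56 * 2 ^ l * g)
    (hK : 2 ^ m ≤ 8 * 2 ^ l * g) :
    (2 : ℤ) ^ max c.1 d.1 ≤ 64 * 2 ^ l * |c.2 * 2 ^ (c.1 - 2 * l) - d.2 * 2 ^ (d.1 - 2 * l)| ∧
      m ≤ max c.1 d.1 + l + 5 := by
  obtain ⟨-, a2, a3⟩ := fcel_ne hc kc
  obtain ⟨-, b2, b3⟩ := fcel_ne hd kd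
  have e1 := far2_e hl (by omega) xc
  have e2 := far2_e hl (by omega) xd
  have q : (0 : ℝ) < 2 ^ l := by positivity
  have m1 : (2 : ℝ) ^ c.1 ≤ 2 ^ max c.1 d.1 := pow_le_pow_right₀ one_le_two (le_max_left _ _)
  have m2 : (2 : ℝ) ^ d.1 ≤ 2 ^ max c.1 d.1 := pow_le_pow_right₀ one_le_two (le_max_right _ _)
  have m3 : (2 : ℝ) ^ max c.1 d.1 ≤ 56 * 2 ^ l * g := by
    rcases max_choice c.1 d.1 with h | h <;> rw [h] <;> assumption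
  constructor
  · have s : 7 * g / 8 ≤ |(c.2 : ℝ) * 2 ^ (c.1 - 2 * l) - d.2 * 2 ^ (d.1 - 2 * l)| := by
      have t1 := abs_sub_le (k : ℝ) (c.2 * 2 ^ (c.1 - 2 * l)) k'
      have t2 := abs_sub_le ((c.2 : ℝ) * 2 ^ (c.1 - 2 * l)) (d.2 * 2 ^ (d.1 - 2 * l)) k'
      rw [abs_sub_comm] at b3
      linarith
    have : (2 : ℝ) ^ max c.1 d.1 ≤
        64 * 2 ^ l * |(c.2 : ℝ) * 2 ^ (c.1 - 2 * l) - d.2 * 2 ^ (d.1 - 2 * l)| := by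
      have := mul_le_mul_of_nonneg_left s q.le
      linarith
    exact_mod_cast this
  · have t := abs_sub (k : ℝ) k'
    have g4 : g ≤ 4 * 2 ^ max c.1 d.1 := by linarith
    have : (2 : ℝ) ^ m ≤ 2 ^ (max c.1 d.1 + l + 5) := by
      have := mul_le_mul_of_nonneg_left g4 q.le
      rw [pow_add, pow_add]
      norm_num
      linarith
    exact (pow_le_pow_iff_right₀ one_lt_two).1 this

end Pool.Agent.Lib.MMTX
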