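import Pool.Agent.Lib.MP_0dc93f_an.X.Far2

/-! One tuple of cells in the far step. -/

namespace Pool.Agent.Lib.MMTX

open Finset Complex ComplexConjugate MMTW

theorem far3_cel {l m0 mH m : ℕ} {c : ℕ × ℤ} {T : ℝ} {g : ℤ → ℝ} {P : Win} (hl : 11 ≤ l)
    (h0 : 3 * l ≤ m0) (h : m0 < c.1) (hc : Rng l m0 mH c.1 c.2)
    (hg : HC (8 * 2 ^ m / 2 ^ (2 * l)) T g) (cg : Cst g (4 * 2 ^ m))
    (p1 : 8 * |P.z - c.2 * 2 ^ (c.1 - 2 * l)| ≤ 2 ^ (c.1 - 2 * l))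
    (p2 : 4 * 2 ^ (c.1 - 2 * l) ≤ P.w) :
    Cel (fun n => g n * fcel l m0 c n) (512 * T) (2 ^ (c.1 - 2 * l)) P := by
  have p1' : 8 * |(P.z : ℝ) - c.2 * 2 ^ (c.1 - 2 * l)| ≤ 2 ^ (c.1 - 2 * l) := by exact_mod_cast p1
  have p2' : (4 : ℝ) * 2 ^ (c.1 - 2 * l) ≤ P.w := by exact_mod_cast p2
  have e1 : (1 : ℝ) ≤ 2 ^ (c.1 - 2 * l) := one_le_pow₀ (by norm_num)
  refine ⟨hc_slot (by omega) (by omega) h hc hg cg, ⟨c.2 * 2 ^ (c.1 - 2 * l), fun k hk => ?_⟩,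
    fun k hk => ?_, e1, ?_⟩
  · push_cast
    exact (fcel_ne h (right_ne_zero_of_mul hk)).2.2.le
  · have h1 := (fcel_ne h (right_ne_zero_of_mul hk)).2.2
    have h2 := abs_sub_le (k : ℝ) (c.2 * 2 ^ (c.1 - 2 * l)) P.z
    rw [abs_sub_comm (c.2 * 2 ^ (c.1 - 2 * l) : ℝ) (P.z : ℝ)] at h2
    linarith
  · have : 0 < 2 ^ (c.1 - 2 * l) := by positivity
    omega

theorem far3_min (l m m' : ℕ) :
    min ((2 : ℝ) ^ (m - 2 * l)) (2 ^ (m' - 2 * l)) = 2 ^ (min m m' - 2 * l) := by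
  rcases le_total m m' with h | h
  · rw [min_eq_left h, min_eq_left (pow_le_pow_right₀ (by norm_num) (by omega))]
  · rw [min_eq_right h, min_eq_right (pow_le_pow_right₀ (by norm_num) (by omega))]

theorem far3_ne (σ : Equiv.Perm (Fin 4)) {i : Fin 4} (h : i ≠ 0) : σ i ≠ σ 0 :=
  fun e => h (σ.injective e)

variable (Kc : ℕ) (a : ℤ → ℂ)

/-- four cells -/
theorem far_tupA {l m0 ms mH m : ℕ} {Ξl Ξh g0 : ℝ} (ζ : ℤ) {c : Fin 4 → ℕ × ℤ}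
    {g : Fin 4 → ℤ → ℝ} {T : Fin 4 → ℝ} {k : Fin 4 → ℤ} (σ : Equiv.Perm (Fin 4)) (hl : 11 ≤ l)
    (h0 : 3 * l ≤ m0) (hc : TopCov Kc a l m0 ms mH m Ξl Ξh) (hI : ∀ j, c j ∈ fIx l m0 mH)
    (hs : ∀ j, j ≠ σ 0 → ms < (c j).1) (hg : ∀ j, HC (8 * 2 ^ m / 2 ^ (2 * l)) (T j) (g j))
    (cg : ∀ j, Cst (g j) (4 * 2 ^ m)) (hk : ∀ j, fcel l m0 (c j) (k j) ≠ 0)
    (g1 : g0 ≤ |(k (σ 0) : ℝ) - k (σ 1)|) (g2 : g0 ≤ |(k (σ 2) : ℝ) - k (σ 3)|)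
    (hx : ∀ j, 2 ^ (c j).1 ≤ 56 * 2 ^ l * g0) (hK : 2 ^ m ≤ 8 * 2 ^ l * g0) :
    ‖Qf Kc a ζ (pr fun j n => g j n * fcel l m0 (c j) n)‖ ≤
      2 ^ 48 * 2 ^ l * (∏ j, T j) * √(Ξl * Ξh) := by
  obtain ⟨Pt, hP, hX⟩ := hc
  have hm := fun j => fIx_mem (m0 := m0) (mH := mH) (hI j) le_rfl le_rfl
  have pair := fun i j (e : g0 ≤ |(k i : ℝ) - k j|) =>
    far_pair (m := m) hl (by omega) (hm i).1 (hm j).1 (hk i) (hk j) e (hx i) (hx j) hK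
  have key := tup Kc a ζ σ (f := fun j n => g j n * fcel l m0 (c j) n) (S := fun j => 512 * T j)
    (u := fun j => 2 ^ ((c j).1 - 2 * l)) (P := fun j => Pt (c j).1 (c j).2) (L := 2 ^ l)
    (X := Ξl) (X' := Ξh)
    (fun j => far3_cel hl h0 (hm j).1 (hm j).2.2 (hg j) (cg j) (hP _ _ (hm j).2.2).1
      (hP _ _ (hm j).2.2).2)
    (by simpa using pow_le_pow_right₀ (a := (2 : ℝ)) (by norm_num) (show 1 ≤ l by omega))
    (fun j => pow_le_pow_right₀ (by norm_num) (by have := (hm j).1; omega))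
    (by
      simp only [far3_min]
      exact (hX _ _ _ _ (hm _).2.2 (hm _).2.2 (pair _ _ g1).1 (pair _ _ g1).2).1)
    (by
      simp only [far3_min]
      exact (hX _ _ _ _ (hm _).2.2 (hm _).2.2 (pair _ _ g2).1 (pair _ _ g2).2).2
        (hs _ (far3_ne σ (by decide))) (hs _ (far3_ne σ (by decide))))
  refine key.trans (le_of_eq ?_)
  simp only [Fin.prod_univ_four]
  ring

/-- the low block and three cells -/
theorem far_tupB {l m0 ms mH m : ℕ} {Ξl Ξh E X : ℝ} (ζ : ℤ) {c : Fin 4 → ℕ × ℤ}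
    {g : Fin 4 → ℤ → ℝ} {T : Fin 4 → ℝ} {k : Fin 4 → ℤ} (σ : Equiv.Perm (Fin 4)) (hl : 11 ≤ l)
    (h0 : 3 * l ≤ m0) (h1 : m0 ≤ ms) (hc : TopCov Kc a l m0 ms mH m Ξl Ξh)
    (hE : tail Kc a 1 ≤ E) (hI0 : (c (σ 0)).1 ≤ m0) (hI : ∀ j, j ≠ σ 0 → c j ∈ fIx l ms mH)
    (hg : ∀ j, HC (8 * 2 ^ m / 2 ^ (2 * l)) (T j) (g j))
    (cg : ∀ j, Cst (g j) (4 * 2 ^ m)) (hk : ∀ j, fcel l m0 (c j) (k j) ≠ 0)
    (hX : ∀ j, |(k j : ℝ)| ≤ X) (hK : 2 ^ m ≤ 4 * X) (g1 : 5 * X / 16 ≤ |(k (σ 1) : ℝ)|)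
    (g2 : 3 * X / 8 ≤ |(k (σ 2) : ℝ) - k (σ 3)|) :
    ‖Qf Kc a ζ (pr fun j n => g j n * fcel l m0 (c j) n)‖ ≤
      2 ^ 48 * 2 ^ l * (∏ j, T j) * √(2 ^ m0 * E * tail Kc a (2 ^ m / 1024) * Ξh) := by
  obtain ⟨Pt, hP, hXX⟩ := hc
  have hm := fun (i : Fin 4) (hi : i ≠ 0) => fIx_mem (m0 := m0) (hI _ (far3_ne σ hi)) h1 le_rfl
  have hm0 := fun (i : Fin 4) (hi : i ≠ 0) => h1.trans_lt (hm i hi).1
  have cel := fun (i : Fin 4) (hi : i ≠ 0) => far3_cel hl h0 (hm0 i hi) (hm i hi).2.2 (hg (σ i))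
    (cg (σ i)) (hP _ _ (hm i hi).2.2).1 (hP _ _ (hm i hi).2.2).2
  have T0 : ∀ j, 0 ≤ T j := fun j => (abs_nonneg _).trans ((hg j).sup 0)
  have X0 : 0 ≤ X := (abs_nonneg _).trans (hX 0)
  have L1 : (2 : ℝ) ≤ 2 ^ l := by
    simpa using pow_le_pow_right₀ (a := (2 : ℝ)) (by norm_num) (show 1 ≤ l by omega)
  have t0 : ∀ R, 0 ≤ tail Kc a R := fun R => sum_nonneg fun _ _ => sq_nonneg _
  have E0 : 0 ≤ E := (t0 1).trans hE
  have M1 : (1 : ℝ) ≤ 2 ^ m0 := one_le_pow₀ (by norm_num)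
  have xc : ∀ i : Fin 4, i ≠ 0 → 2 ^ (c (σ i)).1 ≤ 56 * 2 ^ l * (3 * X / 8) := fun i hi => by
    have := (fcel_ne (hm0 i hi) (hk _)).1
    have := hX (σ i)
    nlinarith [mul_nonneg (sub_nonneg.2 L1) X0]
  have pair := far_pair (m := m) hl (by omega) (hm0 2 (by decide)) (hm0 3 (by decide)) (hk _) (hk _)
    g2 (xc 2 (by decide)) (xc 3 (by decide)) (by nlinarith [mul_nonneg (sub_nonneg.2 L1) X0])
  have xx := (hXX _ _ _ _ (hm 2 (by decide)).2.2 (hm 3 (by decide)).2.2 pair.1 pair.2).2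
    (hm 2 (by decide)).1 (hm 3 (by decide)).1
  have Ξ0 : 0 ≤ Ξh := (XX_nonneg Kc a (by positivity) _ _).trans xx
  have b1 := bi_cel Kc a (cel 2 (by decide)) (cel 3 (by decide)) L1
    (t := 2 ^ l / 2 ^ (min (c (σ 2)).1 (c (σ 3)).1 - 2 * l)) (by rw [far3_min]) (by
      rw [div_le_iff₀ (by positivity)]
      have h2 := hm0 2 (by decide)
      have h3 := hm0 3 (by decide)
      have : (2 : ℝ) ^ l ≤ 2 ^ (min (c (σ 2)).1 (c (σ 3)).1 - 2 * l) :=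
        pow_le_pow_right₀ (by norm_num) (by omega)
      linarith)
  replace b1 := b1.trans (mul_le_mul_of_nonneg_left xx (by positivity))
  have b2 : ∑ n ∈ FF Kc, (g (σ 1) n * fcel l m0 (c (σ 1)) n) ^ 2 * ‖a n‖ ^ 2 ≤
      (512 * T (σ 1)) ^ 2 * tail Kc a (2 ^ m / 1024) := by
    rw [tail, sum_filter, mul_sum]
    refine sum_le_sum fun n _ => ?_
    by_cases e : g (σ 1) n * fcel l m0 (c (σ 1)) n = 0
    · rw [e]
      have : 0 ≤ (512 * T (σ 1)) ^ 2 * if 2 ^ m / 1024 ≤ br n then ‖a n‖ ^ 2 else 0 := by positivity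
      simpa using this
    · have h2 := (fcel_ne (hm0 1 (by decide)) (right_ne_zero_of_mul e)).1
      have h3 := (fcel_ne (hm0 1 (by decide)) (hk _)).2.1
      rw [if_pos (by unfold br; linarith)]
      refine mul_le_mul_of_nonneg_right ?_ (sq_nonneg _)
      rw [← sq_abs]
      exact pow_le_pow_left₀ (abs_nonneg _) ((cel 1 (by decide)).hc.sup n) 2
  have b0 := l1_le Kc a (f := fun n => g (σ 0) n * fcel l m0 (c (σ 0)) n) (z := 0)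
    (r := 2 * 2 ^ m0) (S := T (σ 0)) (by positivity)
    (fun n hn => by simpa using ((fcel_low hI0 n).2 (right_ne_zero_of_mul hn)).le)
    (fun n => by
      rw [abs_mul]
      simpa using mul_le_mul ((hg (σ 0)).sup n) (fcel_low hI0 n).1 (abs_nonneg _) (T0 _))
  have mb : mB Kc a 0 (2 * 2 ^ m0) ≤ E := by
    refine le_trans (sum_le_sum_of_subset_of_nonneg (fun n hn => ?_) fun _ _ _ => sq_nonneg _) hE
    exact mem_filter.2 ⟨(mem_filter.1 hn).1, by unfold br; linarith [abs_nonneg (n : ℝ)]⟩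
  have mb0 : 0 ≤ mB Kc a 0 (2 * 2 ^ m0) := sum_nonneg fun _ _ => sq_nonneg _
  replace b0 := b0.trans (show _ ≤ T (σ 0) ^ 2 * (5 * 2 ^ m0 * E) by gcongr; linarith)
  refine (tup_one Kc a ζ _ σ).trans ?_
  have tl := t0 (2 ^ m / 1024)
  have P0 : 0 ≤ ∏ j, T j := prod_nonneg fun j _ => T0 j
  have eP : ∏ j, T j = T (σ 0) * T (σ 1) * T (σ 2) * T (σ 3) := by
    rw [← Equiv.prod_comp σ T, Fin.prod_univ_four]
  refine (pow_le_pow_iff_left₀ (by positivity) (by positivity) two_ne_zero).1 ?_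
  rw [mul_pow, mul_pow _ (√_), Real.sq_sqrt (mul_nonneg (by positivity) (bi_nonneg _ _ _ _)),
    Real.sq_sqrt (by positivity)]
  calc _ ≤ T (σ 0) ^ 2 * (5 * 2 ^ m0 * E) * ((512 * T (σ 1)) ^ 2 * tail Kc a (2 ^ m / 1024) *
        (4096 * 2 ^ l * (512 * T (σ 2)) ^ 2 * (512 * T (σ 3)) ^ 2 * Ξh)) :=
        mul_le_mul b0 (mul_le_mul b2 b1 (bi_nonneg _ _ _ _) (by positivity))
          (mul_nonneg (by positivity) (bi_nonneg _ _ _ _)) (by positivity)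
    _ = (5 * 2 ^ 66) * (2 ^ l * (∏ j, T j) ^ 2 * (2 ^ m0 * E * tail Kc a (2 ^ m / 1024) * Ξh)) := by
        rw [eP]; ring
    _ ≤ (2 ^ 96 * 2 ^ l) *
        (2 ^ l * (∏ j, T j) ^ 2 * (2 ^ m0 * E * tail Kc a (2 ^ m / 1024) * Ξh)) := by
        exact mul_le_mul_of_nonneg_right (by linarith) (by positivity)
    _ = _ := by ring

end Pool.Agent.Lib.MMTX
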