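import Pool.Agent.Lib.MP_0dc93f_an.X.Sys

/-! The choice of the parameters. -/

namespace Pool.Agent.Lib.MMTX

lemma pe_quad (l : ℕ) : (l : ℝ) * (l + 1) ≤ 2 * 2 ^ l := by
  induction l with
  | zero => norm_num
  | succ n ih =>
    have h : (n : ℝ) + 1 ≤ 2 ^ n := by exact_mod_cast Nat.lt_two_pow_self
    push_cast
    rw [pow_succ]
    nlinarith

lemma pe_large (c : ℝ) : ∃ l0 : ℕ, ∀ l : ℕ, l0 ≤ l → c * (l + 1) ≤ 2 ^ l := by
  refine ⟨⌈2 * c⌉₊, fun l hl => ?_⟩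
  have h1 : 2 * c ≤ l := (Nat.le_ceil _).trans (by exact_mod_cast hl)
  have h2 := pe_quad l
  have h3 : (0 : ℝ) ≤ l := Nat.cast_nonneg l
  nlinarith

lemma pe_rpow (n : ℕ) (s : ℝ) : ((2 : ℝ) ^ n) ^ s = (2 : ℝ) ^ ((n : ℝ) * s) := by
  rw [← Real.rpow_natCast, ← Real.rpow_mul (by norm_num)]

lemma pe_nat (n : ℕ) : (2 : ℝ) ^ n = (2 : ℝ) ^ (n : ℝ) := (Real.rpow_natCast 2 n).symm

lemma pe_le {x y : ℝ} (h : x ≤ y) : (2 : ℝ) ^ x ≤ (2 : ℝ) ^ y :=
  Real.rpow_le_rpow_of_exponent_le (by norm_num) h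

lemma pe_add (x y : ℝ) : (2 : ℝ) ^ x * (2 : ℝ) ^ y = (2 : ℝ) ^ (x + y) :=
  (Real.rpow_add (by norm_num) x y).symm

theorem par_ex {α : ℝ} (h1 : 1 / 2 < α) (h2 : α < 1) : ∃ κ : ℝ, 0 < κ ∧ κ ≤ 1 / 2 ∧
    ∀ E C : ℝ, 1 ≤ E → 1 ≤ C → ∃ n0 : ℕ, ∀ (β : ℝ) (Kc mN : ℕ) (x0 : ℤ), α ≤ β → β ≤ 2 → n0 ≤ mN →
      4 * 2 ^ mN ≤ Kc → 2 ^ mN ≤ 2 * x0 → x0 ≤ 2 * 2 ^ mN →
      ∃ p : Par, p.OK ∧ p.α = α ∧ p.β = β ∧ p.E = E ∧ p.Kc = Kc ∧ p.mN = mN ∧ p.x0 = x0 ∧
        C * E ^ 3 ≤ p.L ∧ ((2 : ℝ) ^ mN) ^ κ ≤ p.L ∧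
        (C * E ^ 3 * ((2 : ℝ) ^ p.mH) ^ (-(2 * α - 1) / 2) ≤ p.εH ∨
          (Kc ≤ 16 * 2 ^ p.mH ∧
            C * E ^ 2 * √(Kc * (1 / (Kc : ℝ) ^ 4)) * ((2 : ℝ) ^ p.mH) ^ (-β / 2) ≤ p.εH)) := by
  have a0 : 0 < 2 * α - 1 := by linarith
  obtain ⟨A, hA⟩ : ∃ A : ℕ, 16 ≤ (2 * α - 1) * A := by
    refine ⟨⌈16 / (2 * α - 1)⌉₊, ?_⟩
    have := Nat.le_ceil (16 / (2 * α - 1))
    rw [div_le_iff₀ a0] at this
    linarith
  have A16 : 16 ≤ A := by
    have h0 : (0 : ℝ) ≤ A := Nat.cast_nonneg A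
    have : (16 : ℝ) ≤ A := by nlinarith
    exact_mod_cast this
  obtain ⟨G, hG⟩ : ∃ G : ℕ, G = 8 * (A * A * A) := ⟨_, rfl⟩
  obtain ⟨Dv, hD⟩ : ∃ Dv : ℕ, Dv = A * A * A * (100 * (20 * (G + 2))) := ⟨_, rfl⟩
  have A3 : 1 ≤ A * A * A := Nat.one_le_iff_ne_zero.2 (by positivity)
  have D0 : 0 < Dv := by rw [hD]; positivity
  have D1 : (1 : ℝ) ≤ Dv := by exact_mod_cast D0
  have aa : 0 < α * (1 - α) := mul_pos (by linarith) (by linarith)
  refine ⟨1 / (2 * Dv), by positivity, one_div_le_one_div_of_le (by norm_num) (by linarith), ?_⟩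
  intro E C hE hC
  obtain ⟨l0, hl0⟩ := pe_large (C * E ^ 3 + 2 ^ 100 * 256 ^ G / (α * (1 - α)) + 1 / (2 * α - 1) +
    16 * A * Dv)
  refine ⟨Dv * (l0 + G + 3), fun β Kc mN x0 b1 b2 hn hK x1 x2 => ?_⟩
  obtain ⟨l, hl⟩ : ∃ l : ℕ, l = mN / Dv := ⟨_, rfl⟩
  have l1 : l0 + G + 3 ≤ l := by
    rw [hl]; exact (Nat.le_div_iff_mul_le D0).2 (by rwa [mul_comm])
  have l2 : Dv * l ≤ mN := by rw [hl]; exact Nat.mul_div_le _ _
  have l3 : mN ≤ 2 * (Dv * l) := by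
    have h3 : mN < Dv * (mN / Dv + 1) := Nat.lt_mul_div_succ mN D0
    rw [← hl] at h3
    have h4 : Dv * 1 ≤ Dv * l := Nat.mul_le_mul_left _ (by omega)
    nlinarith
  obtain ⟨b, hb⟩ : ∃ b : ℕ, b = 20 * (G + 2) * l := ⟨_, rfl⟩
  obtain ⟨e, he⟩ : ∃ e : ℕ, e = 100 * b := ⟨_, rfl⟩
  have eD : Dv * l = A * (A * (A * e)) := by rw [hD, he, hb]; ring
  have b40 : 40 * l ≤ b := by rw [hb]; exact Nat.mul_le_mul_right _ (by omega)
  have m0e : 16 * e ≤ A * e := Nat.mul_le_mul_right _ A16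
  have m1e : 16 * (A * e) ≤ A * (A * e) := Nat.mul_le_mul_right _ A16
  have mNe : 16 * (A * (A * e)) ≤ A * (A * (A * e)) := Nat.mul_le_mul_right _ A16
  have Ge : 4 * mN ≤ G * e := by
    have : G * e = 8 * (A * (A * (A * e))) := by rw [hG]; ring
    omega
  have K0 : Kc ≠ 0 := by have := Nat.two_pow_pos mN; omega
  have g1 : mN + 2 ≤ Nat.log 2 Kc :=
    Nat.le_log_of_pow_le (by norm_num) (by rw [pow_add]; omega)
  obtain ⟨mH, hH⟩ : ∃ mH : ℕ, mH = min (A * mN) (Nat.log 2 Kc - 2) := ⟨_, rfl⟩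
  have AN : 16 * mN ≤ A * mN := Nat.mul_le_mul_right _ A16
  have H1 : mN ≤ mH := by rw [hH]; exact le_min (by omega) (by omega)
  have H2 : 4 * 2 ^ mH ≤ Kc := by
    calc 4 * 2 ^ mH = 2 ^ (mH + 2) := by rw [pow_add]; ring
      _ ≤ 2 ^ Nat.log 2 Kc := Nat.pow_le_pow_right (by norm_num) (by omega)
      _ ≤ Kc := Nat.pow_log_le_self 2 K0
  have big := hl0 l (by omega)
  have lr : (0 : ℝ) ≤ l := Nat.cast_nonneg l
  have Ar : (16 : ℝ) ≤ A := by exact_mod_cast A16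
  have t1 : 0 ≤ C * E ^ 3 := by positivity
  have t2 : 0 ≤ 2 ^ 100 * 256 ^ G / (α * (1 - α)) := by positivity
  have t3 : 0 ≤ 1 / (2 * α - 1) := by positivity
  have t4 : (0 : ℝ) ≤ 16 * A * Dv := by positivity
  have u1 : C * E ^ 3 ≤ 2 ^ l := by nlinarith
  have u2 : 2 ^ 100 * 256 ^ G / (α * (1 - α)) ≤ 2 ^ l := by nlinarith
  have u3 : 1 / (2 * α - 1) ≤ 2 ^ l := by nlinarith
  have u4 : (16 : ℝ) * A * Dv * (l + 1) ≤ 2 ^ l := by nlinarith
  have u5 : 16 * A * Dv * (l + 1) ≤ 2 ^ l := by exact_mod_cast u4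
  have u6 : 8 * (A * mN) + 1 ≤ 2 ^ l := by
    have h3 : A * mN ≤ A * (2 * (Dv * l)) := Nat.mul_le_mul_left _ l3
    have h4 : 16 * A * Dv * (l + 1) = 8 * (A * (2 * (Dv * l))) + 16 * (A * Dv) := by ring
    have h5 : 0 < A * Dv := by positivity
    omega
  have E3 : E ≤ C * E ^ 3 := by
    have h3 : E ^ 1 ≤ E ^ 3 := pow_le_pow_right₀ hE (by norm_num)
    have h4 : 0 ≤ E ^ 3 := by positivity
    nlinarith
  have E2 : C * E ^ 2 ≤ 2 ^ l := le_trans (mul_le_mul_of_nonneg_left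
    (pow_le_pow_right₀ hE (by norm_num)) (by linarith)) u1
  have rb : (40 : ℝ) * l ≤ b := by exact_mod_cast b40
  have re : (e : ℝ) = 100 * b := by exact_mod_cast he
  have r3 : (A : ℝ) * (A * (A * e)) ≤ mN := by exact_mod_cast eD ▸ l2
  have rG : (4 : ℝ) * mN ≤ G * e := by exact_mod_cast Ge
  have e0 : (0 : ℝ) ≤ e := Nat.cast_nonneg e
  have rN : (16 : ℝ) * (16 * (16 * e)) ≤ mN := by
    have : 16 * (16 * (16 * e)) ≤ mN := by omega
    exact_mod_cast this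
  have N0 : (0 : ℝ) ≤ mN := Nat.cast_nonneg mN
  have eη : (1 / 2 ^ e : ℝ) = 2 ^ (-(e : ℝ)) := by
    rw [Real.rpow_neg (by norm_num), Real.rpow_natCast, one_div]
  have mbl : (2 : ℝ) ^ (-(mN * β)) ≤ E * ((2 : ℝ) ^ mN / 16) ^ (-β) := by
    have s1 : ((2 : ℝ) ^ mN) ^ (-β) ≤ ((2 : ℝ) ^ mN / 16) ^ (-β) :=
      Real.rpow_le_rpow_of_nonpos (by positivity)
        (div_le_self (by positivity) (by norm_num)) (by linarith)
    rw [pe_rpow, mul_neg] at s1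
    have s2 : (0 : ℝ) ≤ ((2 : ℝ) ^ mN / 16) ^ (-β) := by positivity
    nlinarith
  have B5 : ((2 : ℝ) ^ b) ^ 5 = 2 ^ (5 * (b : ℝ)) := by
    rw [← pow_mul, pe_nat]; push_cast; rw [mul_comm]
  refine ⟨⟨α, β, E, 2 ^ b, 1 / 2 ^ e, E * ((2 : ℝ) ^ mN / 16) ^ (-β) / (2 ^ b) ^ 5, Kc, l, A * e,
    A * (A * e), mN, mH, G, G + 3, x0⟩, ?_, rfl, rfl, rfl, rfl, rfl, rfl, ?_, ?_, ?_⟩
  · refine ⟨h1, h2, b1, b2, hE, ?_, ?_, ?_, ?_, ?_, ?_, ?_, ?_, ?_, ?_, ?_, ?_, ?_, ?_, ?_, ?_,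
      ?_, ?_, ?_, H1, H2, x1, x2, ?_, ?_⟩ <;> simp only [Par.L, Par.S0, Par.mb]
    · push_cast; linarith
    · push_cast; rwa [div_le_iff₀ aa] at u2
    · push_cast; rwa [div_le_iff₀ a0] at u3
    · have : mH ≤ A * mN := by rw [hH]; exact min_le_left _ _
      omega
    · exact Nat.pow_le_pow_right (by norm_num) (by omega)
    · omega
    · have : G < 2 ^ G := Nat.lt_two_pow_self
      rw [pow_add]; omega
    · push_cast; rw [← pow_mul, hb, mul_comm l]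
    · positivity
    · rw [← pow_mul, he, mul_comm b, one_div, inv_mul_cancel₀ (by positivity)]
    · rw [pe_rpow, eη, ← Real.rpow_natCast, ← Real.rpow_mul (by norm_num)]
      refine pe_le ?_
      push_cast; nlinarith
    · rw [eη, ← Real.rpow_natCast, ← Real.rpow_mul (by norm_num), pe_nat, pe_add]
      refine Real.one_le_rpow (by norm_num) ?_
      push_cast; nlinarith
    · rw [pe_rpow, ← pow_mul, pe_nat]
      refine pe_le ?_
      have : (0 : ℝ) ≤ A * e := by positivity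
      push_cast; nlinarith
    · rw [pe_rpow, ← pow_mul, pe_nat]
      refine pe_le ?_
      have : (0 : ℝ) ≤ A * (A * e) := by positivity
      have h3 := mul_le_mul_of_nonneg_left r3 a0.le
      push_cast; nlinarith
    · rw [eη, ← Real.rpow_natCast, ← Real.rpow_mul (by norm_num), ← pow_mul, pe_nat, pe_add]
      refine Real.rpow_le_one_of_one_le_of_nonpos (by norm_num) ?_
      push_cast; nlinarith
    · have h3 : ((2 : ℝ) ^ mN) ^ 4 ≤ Real.exp (4 * mN) := by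
        rw [← pow_mul, show (4 : ℝ) * mN = ((mN * 4 : ℕ) : ℝ) * 1 by push_cast; ring,
          Real.exp_nat_mul]
        exact pow_le_pow_left₀ (by norm_num) (by have := Real.add_one_le_exp 1; linarith) _
      have h4 : ((8 * mN : ℕ) : ℝ) ≤ ((2 ^ l : ℕ) : ℝ) := by exact_mod_cast (by omega)
      refine (mul_le_mul_of_nonneg_left h3 (Real.exp_pos _).le).trans ?_
      rw [← Real.exp_add, Real.exp_le_one_iff]
      push_cast at h4 ⊢; linarith
    · omega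
    · omega
    · omega
    · positivity
    · rw [mul_assoc, div_mul_cancel₀ _ (by positivity)]
  · simp only [Par.L]; push_cast; exact u1
  · simp only [Par.L]; push_cast
    rw [pe_rpow, pe_nat]
    refine pe_le ?_
    have h3 : (mN : ℝ) ≤ 2 * (Dv * l) := by exact_mod_cast l3
    rw [mul_one_div, div_le_iff₀ (by positivity)]
    linarith
  · simp only
    rcases le_total (A * mN) (Nat.log 2 Kc - 2) with h | h
    · left
      rw [hH, min_eq_left h, le_div_iff₀ (by positivity), pe_rpow, B5]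
      refine le_trans ?_ mbl
      refine le_trans (mul_le_mul_of_nonneg_right (mul_le_mul_of_nonneg_right u1 (by positivity))
        (by positivity)) ?_
      rw [pe_nat, pe_add, pe_add]
      refine pe_le ?_
      have h3 := mul_le_mul_of_nonneg_right hA N0
      have h4 := mul_le_mul_of_nonneg_left b2 N0
      push_cast; nlinarith
    · right
      have hm : mH + 2 = Nat.log 2 Kc := by rw [hH, min_eq_right h]; omega
      constructor
      · have := Nat.lt_pow_succ_log_self (by norm_num : 1 < 2) Kc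
        rw [← hm, pow_succ, pow_add] at this
        omega
      · rw [le_div_iff₀ (by positivity), pe_rpow, B5]
        refine le_trans ?_ mbl
        have k1 : (2 : ℝ) ^ mN ≤ Kc := by exact_mod_cast (by omega)
        have k0 : (0 : ℝ) < 2 ^ mN := by positivity
        have s1 : √(Kc * (1 / (Kc : ℝ) ^ 4)) ≤ 2 ^ (-(3 / 2 * (mN : ℝ))) := by
          refine Real.sqrt_le_iff.2 ⟨by positivity, ?_⟩
          have k2 : (0 : ℝ) < Kc := k0.trans_le k1
          calc (Kc : ℝ) * (1 / (Kc : ℝ) ^ 4) = 1 / (Kc : ℝ) ^ 3 := by field_simp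
            _ ≤ 1 / ((2 : ℝ) ^ mN) ^ 3 :=
              one_div_le_one_div_of_le (by positivity) (pow_le_pow_left₀ k0.le k1 3)
            _ = _ := by
              rw [sq, pe_add, ← pow_mul, pe_nat, one_div, ← Real.rpow_neg (by norm_num)]
              congr 1; push_cast; ring
        refine le_trans (mul_le_mul_of_nonneg_right (mul_le_mul_of_nonneg_right
          (mul_le_mul E2 s1 (Real.sqrt_nonneg _) (by positivity)) (by positivity))
          (by positivity)) ?_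
        rw [pe_nat, pe_add, pe_add, pe_add]
        refine pe_le ?_
        have h3 : (mN : ℝ) ≤ mH := by exact_mod_cast H1
        have h4 := mul_le_mul_of_nonneg_left b2 N0
        have h5 := mul_le_mul_of_nonneg_right h3 (by linarith : 0 ≤ β)
        nlinarith

end Pool.Agent.Lib.MMTX
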