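import Mathlib

/-! Second differences of the window symbol. -/

namespace Pool.Agent.Lib.MMTX

open Finset

noncomputable section

/-- harmonic sum bound -/
theorem harm_le (n : ℕ) : ∑ r ∈ range n, (1 : ℝ) / (r + 1) ≤ 1 + Real.log n := by
  have h := harmonic_le_one_add_log n
  have e : (harmonic n : ℝ) = ∑ r ∈ range n, (1 : ℝ) / (r + 1) := by
    simp [harmonic]
  linarith

theorem inv_dist_sum_le (y : ℤ) (n : ℕ) (T : Finset ℤ) (hT : ∀ l ∈ T, l ≠ y ∧ |l - y| ≤ n) :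
    ∑ l ∈ T, (1 : ℝ) / |((l - y : ℤ) : ℝ)| ≤ 2 * (1 + Real.log n) := by
  have hsub : T ⊆ (range n).image (fun r : ℕ => y + (r + 1)) ∪
      (range n).image (fun r : ℕ => y - (r + 1)) := by
    intro l hl
    obtain ⟨h1, h2⟩ := hT l hl
    rw [abs_le] at h2
    simp only [mem_union, mem_image, mem_range]
    rcases lt_or_gt_of_ne h1 with h | h
    · right; exact ⟨(y - l - 1).toNat, by omega, by omega⟩
    · left; exact ⟨(l - y - 1).toNat, by omega, by omega⟩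
  have hn : ∀ l : ℤ, 0 ≤ (1 : ℝ) / |((l - y : ℤ) : ℝ)| := fun l => by positivity
  have h1 : ∑ l ∈ (range n).image (fun r : ℕ => y + (r + 1)), (1 : ℝ) / |((l - y : ℤ) : ℝ)|
      ≤ ∑ r ∈ range n, (1 : ℝ) / (r + 1) := by
    refine (sum_image_le_of_nonneg fun l _ => hn l).trans (le_of_eq ?_)
    refine sum_congr rfl fun r _ => ?_
    have : ((y + (r + 1) - y : ℤ) : ℝ) = r + 1 := by push_cast; ring
    rw [this, abs_of_pos (by positivity)]
  have h2 : ∑ l ∈ (range n).image (fun r : ℕ => y - (r + 1)), (1 : ℝ) / |((l - y : ℤ) : ℝ)|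
      ≤ ∑ r ∈ range n, (1 : ℝ) / (r + 1) := by
    refine (sum_image_le_of_nonneg fun l _ => hn l).trans (le_of_eq ?_)
    refine sum_congr rfl fun r _ => ?_
    have : ((y - (r + 1) - y : ℤ) : ℝ) = -(r + 1) := by push_cast; ring
    rw [this, abs_neg, abs_of_pos (by positivity)]
  have h3 := sum_le_sum_of_subset_of_nonneg hsub (f := fun l => (1 : ℝ) / |((l - y : ℤ) : ℝ)|)
    fun l _ _ => hn l
  have h4 := sum_union_inter (s₁ := (range n).image (fun r : ℕ => y + (r + 1)))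
    (s₂ := (range n).image (fun r : ℕ => y - (r + 1)))
    (f := fun l : ℤ => (1 : ℝ) / |((l - y : ℤ) : ℝ)|)
  have h5 : 0 ≤ ∑ l ∈ (range n).image (fun r : ℕ => y + (r + 1)) ∩
      (range n).image (fun r : ℕ => y - (r + 1)), (1 : ℝ) / |((l - y : ℤ) : ℝ)| :=
    sum_nonneg fun l _ => hn l
  have := harm_le n
  linarith

/-- mass against the inverse distance, from density bounds at the scales `≥ d` -/
theorem mass_inv_dist (μ : ℤ → ℝ) (hμ : ∀ l, 0 ≤ μ l) (y : ℤ) (κ : ℝ) (hκ : 0 ≤ κ) (d : ℕ)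
    (T : Finset ℤ) (hT : ∀ l ∈ T, (d : ℤ) < |l - y|)
    (hd : ∀ r : ℕ, d ≤ r → ∑ l ∈ T with |l - y| ≤ r, μ l ≤ κ * r) (n : ℕ) (hn : 1 ≤ n) :
    ∑ l ∈ T, μ l * max 0 (1 / |((l - y : ℤ) : ℝ)| - 1 / n) ≤ κ * ∑ r ∈ range n, (1 : ℝ) / (r + 1) := by
  induction n, hn using Nat.le_induction with
  | base =>
    have : ∀ l ∈ T, μ l * max 0 (1 / |((l - y : ℤ) : ℝ)| - 1 / (1 : ℕ)) = 0 := by
      intro l hl
      have h1 : (1 : ℤ) ≤ |l - y| := by have := hT l hl; omega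
      have h2 : (1 : ℝ) ≤ |((l - y : ℤ) : ℝ)| := by exact_mod_cast h1
      have h3 : 1 / |((l - y : ℤ) : ℝ)| ≤ 1 := by rw [div_le_one (by linarith)]; exact h2
      rw [max_eq_left (by simp only [Nat.cast_one, div_one]; linarith), mul_zero]
    rw [sum_congr rfl this, sum_const_zero]
    positivity
  | succ n hn ih =>
    have hn0 : (0 : ℝ) < n := by exact_mod_cast hn
    have hA : ∑ l ∈ T with |l - y| ≤ n, μ l ≤ κ * n := by
      by_cases h : d ≤ n
      · exact hd n h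
      · have : T.filter (fun l => |l - y| ≤ n) = ∅ := by
          refine filter_eq_empty_iff.2 fun l hl => ?_
          have := hT l hl
          omega
        rw [this, sum_empty]; positivity
    have hp : ∀ l ∈ T, μ l * max 0 (1 / |((l - y : ℤ) : ℝ)| - 1 / ((n + 1 : ℕ) : ℝ)) ≤
        μ l * max 0 (1 / |((l - y : ℤ) : ℝ)| - 1 / n) +
          (if |l - y| ≤ n then μ l else 0) * (1 / (n * (n + 1))) := by
      intro l hl
      have e : (1 : ℝ) / n - 1 / (n + 1) = 1 / (n * (n + 1)) := by field_simp; ring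
      have hpos : (0 : ℝ) ≤ 1 / (n * (n + 1)) := by positivity
      split_ifs with h
      · rw [← mul_add]
        refine mul_le_mul_of_nonneg_left (max_le ?_ ?_) (hμ l)
        · have := le_max_left 0 (1 / |((l - y : ℤ) : ℝ)| - 1 / n); linarith
        · have := le_max_right 0 (1 / |((l - y : ℤ) : ℝ)| - 1 / n)
          push_cast at this ⊢; linarith
      · have h1 : ((n + 1 : ℕ) : ℤ) ≤ |l - y| := by push_cast; omega
        have h2 : ((n + 1 : ℕ) : ℝ) ≤ |((l - y : ℤ) : ℝ)| := by exact_mod_cast h1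
        have h3 : 1 / |((l - y : ℤ) : ℝ)| ≤ 1 / ((n + 1 : ℕ) : ℝ) :=
          one_div_le_one_div_of_le (by positivity) h2
        rw [max_eq_left (by linarith), mul_zero, zero_mul, add_zero]
        exact mul_nonneg (hμ l) (le_max_left _ _)
    have h1 := sum_le_sum hp
    rw [sum_add_distrib, ← sum_mul, ← sum_filter] at h1
    have h2 : (∑ l ∈ T with |l - y| ≤ n, μ l) * (1 / (n * (n + 1)) : ℝ) ≤ κ * (1 / (n + 1)) := by
      calc _ ≤ κ * n * (1 / (n * (n + 1)) : ℝ) := mul_le_mul_of_nonneg_right hA (by positivity)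
        _ = _ := by field_simp
    rw [sum_range_succ, mul_add]
    linarith

theorem mass_inv_le (μ : ℤ → ℝ) (hμ : ∀ l, 0 ≤ μ l) (y : ℤ) (κ : ℝ) (hκ : 0 ≤ κ) (d : ℕ)
    (T : Finset ℤ) (n : ℕ) (hn : 1 ≤ n) (hdn : d ≤ n)
    (hT : ∀ l ∈ T, (d : ℤ) < |l - y| ∧ |l - y| ≤ n)
    (hd : ∀ r : ℕ, d ≤ r → ∑ l ∈ T with |l - y| ≤ r, μ l ≤ κ * r) :
    ∑ l ∈ T, μ l / |((l - y : ℤ) : ℝ)| ≤ κ * (2 + Real.log n) := by
  have h := mass_inv_dist μ hμ y κ hκ d T (fun l hl => (hT l hl).1) hd n hn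
  have hn0 : (0 : ℝ) < n := by exact_mod_cast hn
  have hA := hd n hdn
  rw [filter_true_of_mem fun l hl => (hT l hl).2] at hA
  have hp : ∀ l ∈ T, μ l / |((l - y : ℤ) : ℝ)| ≤
      μ l * max 0 (1 / |((l - y : ℤ) : ℝ)| - 1 / n) + μ l * (1 / n) := by
    intro l _
    rw [← mul_add, div_eq_mul_one_div]
    refine mul_le_mul_of_nonneg_left ?_ (hμ l)
    have := le_max_right 0 (1 / |((l - y : ℤ) : ℝ)| - 1 / n); linarith
  have h1 := sum_le_sum hp
  rw [sum_add_distrib, ← sum_mul] at h1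
  have h2 : (∑ l ∈ T, μ l) * (1 / n : ℝ) ≤ κ := by
    calc _ ≤ κ * n * (1 / n : ℝ) := mul_le_mul_of_nonneg_right hA (by positivity)
      _ = _ := by field_simp
  have h3 := mul_le_mul_of_nonneg_left (harm_le n) hκ
  linarith

/-- row bound: mass against the inverse distances to the partners allowed by `c` -/
theorem row_le (μ : ℤ → ℝ) (hμ : ∀ l, 0 ≤ μ l) (y : ℤ) (κ : ℝ) (hκ : 0 ≤ κ) (d : ℕ) (hd1 : 1 ≤ d)
    (T : Finset ℤ) (n : ℕ) (hdn : 2 * d ≤ n) (hy : ∀ l ∈ T, |l - y| ≤ n)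
    (hT : ∀ p ∈ T, ∀ q ∈ T, |q - p| ≤ n)
    (hd : ∀ r : ℕ, 2 * d ≤ r → ∑ l ∈ T with |l - y| ≤ r, μ l ≤ κ * r)
    (c : ℤ → ℤ → Prop) [∀ p q, Decidable (c p q)]
    (hc : ∀ p, 2 * (d : ℤ) < |p - y| → ∃ e : ℤ, ∀ q, c p q → |q - e| ≤ 2 * d ∧ |p - y| ≤ 2 * |q - p|) :
    ∑ p ∈ T, ∑ q ∈ T with q ≠ p ∧ c p q, μ p / |((q - p : ℤ) : ℝ)| ≤
      24 * κ * d * (1 + Real.log n) := by
  have hn1 : 1 ≤ n := by omega
  have hlog : 0 ≤ Real.log n := Real.log_natCast_nonneg n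
  have hd0 : (1 : ℝ) ≤ d := by exact_mod_cast hd1
  rw [← sum_filter_add_sum_filter_not T (fun p => |p - y| ≤ ((2 * d : ℕ) : ℤ))]
  have h1 : ∑ p ∈ T with |p - y| ≤ ((2 * d : ℕ) : ℤ), ∑ q ∈ T with q ≠ p ∧ c p q,
      μ p / |((q - p : ℤ) : ℝ)| ≤ κ * (2 * d : ℕ) * (2 * (1 + Real.log n)) := by
    refine le_trans (sum_le_sum (g := fun p => μ p * (2 * (1 + Real.log n))) fun p hp => ?_) ?_
    · have h := inv_dist_sum_le p n (T.filter fun q => q ≠ p ∧ c p q) fun q hq =>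
        ⟨(mem_filter.1 hq).2.1, hT p (mem_filter.1 hp).1 q (mem_filter.1 hq).1⟩
      calc _ = μ p * ∑ q ∈ T with q ≠ p ∧ c p q, 1 / |((q - p : ℤ) : ℝ)| := by
            rw [mul_sum]; exact sum_congr rfl fun q _ => div_eq_mul_one_div _ _
        _ ≤ _ := mul_le_mul_of_nonneg_left h (hμ p)
    · rw [← sum_mul]
      exact mul_le_mul_of_nonneg_right (hd (2 * d) le_rfl) (by positivity)
  have h2 : ∑ p ∈ T with ¬ |p - y| ≤ ((2 * d : ℕ) : ℤ), ∑ q ∈ T with q ≠ p ∧ c p q,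
      μ p / |((q - p : ℤ) : ℝ)| ≤ 10 * d * (κ * (2 + Real.log n)) := by
    refine le_trans (sum_le_sum (g := fun p => 10 * d * (μ p / |((p - y : ℤ) : ℝ)|))
      fun p hp => ?_) ?_
    · have hp2 : 2 * (d : ℤ) < |p - y| := by have := (mem_filter.1 hp).2; push_cast at this; omega
      obtain ⟨e, he⟩ := hc p hp2
      have hpy : (0 : ℝ) < |((p - y : ℤ) : ℝ)| := by
        have : (0 : ℤ) < |p - y| := by omega
        exact_mod_cast this
      have hcard : ((T.filter fun q => q ≠ p ∧ c p q).card : ℝ) ≤ 5 * d := by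
        have : (T.filter fun q => q ≠ p ∧ c p q) ⊆ Icc (e - 2 * d) (e + 2 * d) := by
          intro q hq
          have := (he q (mem_filter.1 hq).2.2).1
          rw [abs_le] at this
          rw [mem_Icc]; omega
        have h := card_le_card this
        rw [Int.card_Icc] at h
        have h' : (T.filter fun q => q ≠ p ∧ c p q).card ≤ 5 * d := by omega
        exact_mod_cast h'
      have hq : ∀ q ∈ T.filter fun q => q ≠ p ∧ c p q,
          μ p / |((q - p : ℤ) : ℝ)| ≤ 2 * (μ p / |((p - y : ℤ) : ℝ)|) := by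
        intro q hq
        have h := (he q (mem_filter.1 hq).2.2).2
        have h' : |((p - y : ℤ) : ℝ)| ≤ 2 * |((q - p : ℤ) : ℝ)| := by exact_mod_cast h
        have h0 : 0 < |((q - p : ℤ) : ℝ)| := by linarith
        rw [← mul_div_assoc, div_le_div_iff₀ h0 hpy]
        nlinarith [hμ p]
      have h := sum_le_card_nsmul _ _ _ hq
      rw [nsmul_eq_mul] at h
      have h0 : 0 ≤ μ p / |((p - y : ℤ) : ℝ)| := div_nonneg (hμ p) hpy.le
      nlinarith
    · rw [← mul_sum]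
      refine mul_le_mul_of_nonneg_left ?_ (by positivity)
      refine mass_inv_le μ hμ y κ hκ (2 * d) _ n hn1 hdn (fun l hl => ?_) fun r hr => ?_
      · exact ⟨not_le.1 (mem_filter.1 hl).2, hy l (mem_filter.1 hl).1⟩
      · refine le_trans (sum_le_sum_of_subset_of_nonneg ?_ fun l _ _ => hμ l) (hd r hr)
        exact filter_subset_filter _ (filter_subset _ _)
  have hk : 0 ≤ κ * d := by positivity
  push_cast at h1 ⊢
  push_cast at h2
  nlinarith [mul_nonneg hk hlog]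

/-- the window symbol -/
def Gz (z w k l : ℤ) : ℤ := max 0 (w - max |k - z| |l - z|)

theorem Gz_lip (z w k l d : ℤ) : |Gz (z + d) w k l - Gz z w k l| ≤ |d| := by
  unfold Gz
  simp only [abs_eq_max_neg]
  omega

theorem Gz_supp (z w k l : ℤ) (h : Gz z w k l ≠ 0) : |k - z| < w ∧ |l - z| < w := by
  unfold Gz at h
  simp only [abs_eq_max_neg] at h ⊢
  omega

theorem Gz_d2 (z w k l d : ℤ) (hd : 0 ≤ d) :
    |Gz (z + d) w k l + Gz (z - d) w k l - 2 * Gz z w k l| ≤ 2 * d := by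
  have h1 := Gz_lip z w k l d
  have h2 := Gz_lip z w k l (-d)
  rw [← sub_eq_add_neg, abs_neg] at h2
  rw [abs_of_nonneg hd, abs_le] at h1 h2
  rw [abs_le]; omega

theorem Gz_eq (z w k l : ℤ) (h : k ≤ l) : Gz z w k l = max 0 (w - max (l - z) (z - k)) := by
  unfold Gz
  simp only [abs_eq_max_neg]
  omega

theorem Gz_comm (z w k l : ℤ) : Gz z w k l = Gz z w l k := by
  simp only [Gz, max_comm |k - z|]

theorem Gz_d2_supp (z w k l d : ℤ) (hd : 0 ≤ d)
    (h : Gz (z + d) w k l + Gz (z - d) w k l - 2 * Gz z w k l ≠ 0) :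
    |k - (z + w)| ≤ d ∨ |k - (z - w)| ≤ d ∨ |l - (z + w)| ≤ d ∨ |l - (z - w)| ≤ d ∨
      |k + l - 2 * z| ≤ 2 * d := by
  have key : ∀ k l : ℤ, k ≤ l → Gz (z + d) w k l + Gz (z - d) w k l - 2 * Gz z w k l ≠ 0 →
      |k - (z - w)| ≤ d ∨ |k - (z + w)| ≤ d ∨ |l - (z + w)| ≤ d ∨ |l - (z - w)| ≤ d ∨
        |k + l - 2 * z| ≤ 2 * d := by
    intro k l hkl h
    rw [Gz_eq _ _ _ _ hkl, Gz_eq _ _ _ _ hkl, Gz_eq _ _ _ _ hkl] at h
    simp only [abs_le]
    omega
  rcases le_total k l with hkl | hkl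
  · have := key k l hkl h; tauto
  · have := key l k hkl (by rwa [Gz_comm _ _ l, Gz_comm _ _ l, Gz_comm _ _ l])
    rw [add_comm l k] at this; tauto

/-- the second difference of the window symbol against the inverse frequency difference -/
theorem d2_sum_le (x : ℤ → ℝ) (z : ℤ) (w d : ℕ) (hd1 : 1 ≤ d) (κ : ℝ) (hκ : 0 ≤ κ)
    (T : Finset ℤ) (hT : ∀ l ∈ T, |l - z| ≤ w + d)
    (hd : ∀ y, y = z + w ∨ y = z - w ∨ y = z → ∀ r : ℕ, 2 * d ≤ r →
      ∑ l ∈ T with |l - y| ≤ r, x l ^ 2 ≤ κ * r) :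
    ∑ k ∈ T, ∑ l ∈ T with l ≠ k,
      ((|Gz (z + d) w k l + Gz (z - d) w k l - 2 * Gz z w k l| : ℤ) : ℝ) * (|x k| * |x l|) /
        |((l - k : ℤ) : ℝ)| ≤ 240 * κ * d ^ 2 * (1 + Real.log (2 * (w + d) : ℕ)) := by
  set n : ℕ := 2 * (w + d) with hn
  have hTT : ∀ p ∈ T, ∀ q ∈ T, |q - p| ≤ n := by
    intro p hp q hq
    have h1 := hT p hp
    have h2 := hT q hq
    rw [abs_le] at h1 h2 ⊢
    omega
  have row : ∀ y, y = z + w ∨ y = z - w ∨ y = z → ∀ (c : ℤ → ℤ → Prop) [∀ p q, Decidable (c p q)],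
      (∀ p, 2 * (d : ℤ) < |p - y| → ∃ e : ℤ, ∀ q, c p q →
        |q - e| ≤ 2 * d ∧ |p - y| ≤ 2 * |q - p|) →
      ∑ p ∈ T, ∑ q ∈ T, (if q ≠ p ∧ c p q then x p ^ 2 / |((q - p : ℤ) : ℝ)| else 0) ≤
        24 * κ * d * (1 + Real.log n) := by
    intro y hy c _ hc
    have h := row_le (fun l => x l ^ 2) (fun l => sq_nonneg _) y κ hκ d hd1 T n (by omega)
      (fun l hl => by have := hT l hl; rw [abs_le] at this ⊢; omega) hTT (hd y hy) c hc
    simpa only [sum_filter] using h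
  have r1 := row (z + w) (Or.inl rfl) (fun p _ => |p - (z + w)| ≤ d)
    fun p hp => ⟨0, fun q hq => by omega⟩
  have r2 := row (z - w) (Or.inr (Or.inl rfl)) (fun p _ => |p - (z - w)| ≤ d)
    fun p hp => ⟨0, fun q hq => by omega⟩
  have r3 := row (z + w) (Or.inl rfl) (fun _ q => |q - (z + w)| ≤ d)
    fun p hp => ⟨z + w, fun q hq => by simp only [abs_eq_max_neg] at hp hq ⊢; omega⟩
  have r4 := row (z - w) (Or.inr (Or.inl rfl)) (fun _ q => |q - (z - w)| ≤ d)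
    fun p hp => ⟨z - w, fun q hq => by simp only [abs_eq_max_neg] at hp hq ⊢; omega⟩
  have r5 := row z (Or.inr (Or.inr rfl)) (fun p q => |p + q - 2 * z| ≤ 2 * d)
    fun p hp => ⟨2 * z - p, fun q hq => by simp only [abs_eq_max_neg] at hp hq ⊢; omega⟩
  set g : ℤ → ℤ → ℝ := fun k l =>
    ((|Gz (z + d) w k l + Gz (z - d) w k l - 2 * Gz z w k l| : ℤ) : ℝ) with hg
  have hsym : ∀ k l, g k l = g l k := by
    intro k l
    simp only [hg, Gz_comm _ _ k l]
  have hg0 : ∀ k l, 0 ≤ g k l := fun k l => by simp only [hg]; positivity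
  have hA : ∑ k ∈ T, ∑ l ∈ T, (if l ≠ k then g k l * x k ^ 2 / |((l - k : ℤ) : ℝ)| else 0) ≤
      2 * d * (5 * (24 * κ * d * (1 + Real.log n))) := by
    have hs := add_le_add (add_le_add (add_le_add (add_le_add r1 r2) r3) r4) r5
    simp only [← sum_add_distrib] at hs
    have hs2 := mul_le_mul_of_nonneg_left hs (show (0 : ℝ) ≤ 2 * d by positivity)
    refine le_trans ?_ (hs2.trans (le_of_eq (by ring)))
    rw [mul_sum]
    refine sum_le_sum fun k _ => ?_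
    rw [mul_sum]
    refine sum_le_sum fun l _ => ?_
    have h0 : 0 ≤ x k ^ 2 / |((l - k : ℤ) : ℝ)| := by positivity
    have hi : ∀ P : Prop, ∀ [Decidable P],
        0 ≤ (if P then x k ^ 2 / |((l - k : ℤ) : ℝ)| else 0) := by
      intro P _; split_ifs; exacts [h0, le_rfl]
    have i1 := hi (l ≠ k ∧ |k - (z + w)| ≤ d)
    have i2 := hi (l ≠ k ∧ |k - (z - w)| ≤ d)
    have i3 := hi (l ≠ k ∧ |l - (z + w)| ≤ d)
    have i4 := hi (l ≠ k ∧ |l - (z - w)| ≤ d)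
    have i5 := hi (l ≠ k ∧ |k + l - 2 * z| ≤ 2 * d)
    by_cases hlk : l ≠ k
    · rw [if_pos hlk, mul_div_assoc]
      by_cases hz : Gz (z + d) w k l + Gz (z - d) w k l - 2 * Gz z w k l = 0
      · have : g k l = 0 := by simp only [hg, hz]; simp
        rw [this, zero_mul]; positivity
      · have hb : g k l ≤ 2 * d := by
          have := Gz_d2 z w k l d (by positivity)
          simp only [hg]; exact_mod_cast this
        refine mul_le_mul hb ?_ h0 (by positivity)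
        rcases Gz_d2_supp z w k l d (by positivity) hz with h | h | h | h | h
        · rw [if_pos ⟨hlk, h⟩] at i1 ⊢; linarith
        · rw [if_pos (⟨hlk, h⟩ : l ≠ k ∧ |k - (z - w)| ≤ d)]; linarith
        · rw [if_pos (⟨hlk, h⟩ : l ≠ k ∧ |l - (z + w)| ≤ d)]; linarith
        · rw [if_pos (⟨hlk, h⟩ : l ≠ k ∧ |l - (z - w)| ≤ d)]; linarith
        · rw [if_pos (⟨hlk, h⟩ : l ≠ k ∧ |k + l - 2 * z| ≤ 2 * d)]; linarith
    · rw [if_neg hlk]; positivity
  have hB : ∑ k ∈ T, ∑ l ∈ T, (if l ≠ k then g k l * x l ^ 2 / |((l - k : ℤ) : ℝ)| else 0) =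
      ∑ k ∈ T, ∑ l ∈ T, (if l ≠ k then g k l * x k ^ 2 / |((l - k : ℤ) : ℝ)| else 0) := by
    rw [sum_comm]
    refine sum_congr rfl fun k _ => sum_congr rfl fun l _ => ?_
    have e : |((k - l : ℤ) : ℝ)| = |((l - k : ℤ) : ℝ)| := by push_cast; exact abs_sub_comm _ _
    rw [hsym l k, e]
    simp only [ne_comm]
  have hC : ∑ k ∈ T, ∑ l ∈ T with l ≠ k, g k l * (|x k| * |x l|) / |((l - k : ℤ) : ℝ)| ≤
      (∑ k ∈ T, ∑ l ∈ T, (if l ≠ k then g k l * x k ^ 2 / |((l - k : ℤ) : ℝ)| else 0) +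
        ∑ k ∈ T, ∑ l ∈ T, (if l ≠ k then g k l * x l ^ 2 / |((l - k : ℤ) : ℝ)| else 0)) / 2 := by
    simp only [← sum_add_distrib, sum_div, sum_filter]
    refine sum_le_sum fun k _ => sum_le_sum fun l _ => ?_
    split_ifs with h
    · rw [← add_div, div_right_comm]
      refine div_le_div_of_nonneg_right ?_ (abs_nonneg _)
      have := mul_nonneg (hg0 k l) (sq_nonneg (|x k| - |x l|))
      rw [← sq_abs (x k), ← sq_abs (x l)]
      nlinarith
    · simp
  refine hC.trans ?_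
  rw [hB]
  nlinarith [hA]

end

end Pool.Agent.Lib.MMTX
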