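import Pool.Agent.Lib.MP_0dc93f_an.X.Win
import Pool.Agent.Lib.MP_0dc93f_an.X.TD2

/-! Bounds for the Morawetz functional and its second differences. -/

namespace Pool.Agent.Lib.MMTX

open Finset MMTW

noncomputable section

theorem mo_mB_mono (Kc : ℕ) (a : ℤ → ℂ) (z : ℤ) {r r' : ℝ} (h : r ≤ r') :
    mB Kc a z r ≤ mB Kc a z r' := by
  refine sum_le_sum_of_subset_of_nonneg (fun k hk => ?_) fun _ _ _ => by positivity
  rw [mem_filter] at hk ⊢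
  exact ⟨hk.1, hk.2.trans h⟩

theorem mo_Gw (P : Win) (k ζ : ℤ) : Gw P k ζ = ((Gz P.z P.w k (k + ζ) : ℤ) : ℝ) := by
  simp only [Gw, Gz]
  push_cast
  rfl

/-- bilinear sums with a bounded symbol supported in a ball -/
theorem mo_bil (Kc : ℕ) (a : ℤ → ℂ) (ζ z : ℤ) (g : ℤ → ℝ) {S r : ℝ} (hS : 0 ≤ S)
    (hg : ∀ k, |g k| ≤ S) (hs : ∀ k, g k ≠ 0 → |(k : ℝ) - z| ≤ r ∧ |((k + ζ : ℤ) : ℝ) - z| ≤ r) :
    ‖∑ k ∈ FF Kc with k + ζ ∈ FF Kc, (g k : ℂ) * (a (k + ζ) * (starRingEnd ℂ) (a k))‖ ≤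
      S * mB Kc a z r := by
  have h1 : ∑ k ∈ FF Kc with k + ζ ∈ FF Kc, (if |(k : ℝ) - z| ≤ r then ‖a k‖ ^ 2 else 0) ≤
      mB Kc a z r := by
    rw [mB, sum_filter (fun k : ℤ => |(k : ℝ) - z| ≤ r)]
    refine sum_le_sum_of_subset_of_nonneg (filter_subset _ _) fun k _ _ => ?_
    split_ifs <;> positivity
  have h2 : ∑ k ∈ FF Kc with k + ζ ∈ FF Kc,
      (if |((k + ζ : ℤ) : ℝ) - z| ≤ r then ‖a (k + ζ)‖ ^ 2 else 0) ≤ mB Kc a z r := by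
    rw [mB, sum_filter (fun k : ℤ => |(k : ℝ) - z| ≤ r),
      ← sum_image (s := (FF Kc).filter fun k => k + ζ ∈ FF Kc) (g := fun k => k + ζ)
        (f := fun k : ℤ => if |(k : ℝ) - z| ≤ r then ‖a k‖ ^ 2 else 0)
        fun x _ y _ h => by simpa using h]
    refine sum_le_sum_of_subset_of_nonneg (fun k hk => ?_) fun k _ _ => ?_
    · obtain ⟨l, hl, rfl⟩ := mem_image.1 hk
      exact (mem_filter.1 hl).2
    · split_ifs <;> positivity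
  refine (norm_sum_le _ _).trans ?_
  refine le_trans (sum_le_sum (g := fun k : ℤ => S / 2 *
    ((if |(k : ℝ) - z| ≤ r then ‖a k‖ ^ 2 else 0) +
      if |((k + ζ : ℤ) : ℝ) - z| ≤ r then ‖a (k + ζ)‖ ^ 2 else 0)) fun k _ => ?_) ?_
  · by_cases h : g k = 0
    · rw [h, Complex.ofReal_zero, zero_mul, norm_zero]
      split_ifs <;> positivity
    · rw [if_pos (hs k h).1, if_pos (hs k h).2, norm_mul, norm_mul, Complex.norm_real,
        Real.norm_eq_abs, Complex.norm_conj]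
      have h3 := mul_le_mul_of_nonneg_right (hg k)
        (mul_nonneg (norm_nonneg (a (k + ζ))) (norm_nonneg (a k)))
      nlinarith [mul_nonneg hS (sq_nonneg (‖a (k + ζ)‖ - ‖a k‖))]
  · rw [← mul_sum, sum_add_distrib]
    nlinarith

theorem mh_sub (Kc : ℕ) (a : ℤ → ℂ) (P : Win) (e ζ : ℤ) :
    ‖mh Kc a (P.sh e) ζ - mh Kc a P ζ‖ ≤ |(e : ℝ)| * (mB Kc a P.z (P.w + |(e : ℝ)|) / P.w) := by
  have h := mo_bil Kc a ζ P.z (fun k => Gw (P.sh e) k ζ - Gw P k ζ) (S := |(e : ℝ)|)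
    (r := P.w + |(e : ℝ)|) (abs_nonneg _)
    (fun k => by
      have := Gz_lip P.z P.w k (k + ζ) e
      rw [mo_Gw, mo_Gw]
      simp only [Win.sh]
      exact_mod_cast this)
    (fun k hk => by
      rw [mo_Gw, mo_Gw] at hk
      simp only [Win.sh] at hk
      have h1 : Gz (P.z + e) P.w k (k + ζ) - Gz P.z P.w k (k + ζ) ≠ 0 := by exact_mod_cast hk
      have h2 : |k - P.z| ≤ P.w + |e| ∧ |k + ζ - P.z| ≤ P.w + |e| := by
        unfold Gz at h1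
        simp only [abs_eq_max_neg] at h1 ⊢
        omega
      exact ⟨by exact_mod_cast h2.1, by exact_mod_cast h2.2⟩)
  have e1 : mh Kc a (P.sh e) ζ - mh Kc a P ζ = (P.w : ℂ)⁻¹ * ∑ k ∈ FF Kc with k + ζ ∈ FF Kc,
      ((Gw (P.sh e) k ζ - Gw P k ζ : ℝ) : ℂ) * (a (k + ζ) * (starRingEnd ℂ) (a k)) := by
    simp only [mh, Complex.ofReal_sub, sub_mul, sum_sub_distrib, mul_sub]
    rfl
  rw [e1, norm_mul, norm_inv, Complex.norm_natCast, ← mul_div_assoc, div_eq_inv_mul]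
  exact mul_le_mul_of_nonneg_left h (by positivity)

theorem mo_sum1 {t : ℝ} (ht : 0 ≤ t) (J : Finset ℤ) (F G : ℤ → ℂ) {M : ℝ} (hG : ∀ ζ, ‖G ζ‖ ≤ M) :
    ‖∑ ζ ∈ J, cf t ζ * (F ζ * G ζ)‖ ≤ (∑ ζ ∈ J, ‖F ζ‖ / |(ζ : ℝ)|) * M := by
  rw [sum_mul]
  refine (norm_sum_le _ _).trans (sum_le_sum fun ζ _ => ?_)
  rw [norm_mul, norm_mul]
  calc _ ≤ 1 / |(ζ : ℝ)| * (‖F ζ‖ * M) :=
        mul_le_mul (norm_cf_le ht ζ) (mul_le_mul_of_nonneg_left (hG ζ) (norm_nonneg _))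
          (by positivity) (by positivity)
    _ = _ := by ring

theorem mo_sum2 (J : Finset ℤ) (F : ℤ → ℂ) {M : ℝ} (n : ℕ) (hF : ∀ ζ, ‖F ζ‖ ≤ M)
    (h0 : ∀ ζ : ℤ, (n : ℤ) ≤ |ζ| → F ζ = 0) :
    ∑ ζ ∈ J.erase 0, ‖F ζ‖ / |(ζ : ℝ)| ≤ 2 * (1 + Real.log n) * M := by
  have hM : 0 ≤ M := (norm_nonneg _).trans (hF 0)
  have h := inv_dist_sum_le 0 n ((J.erase 0).filter fun ζ => |ζ| ≤ n) fun l hl =>
    ⟨(mem_erase.1 (mem_filter.1 hl).1).1, by simpa using (mem_filter.1 hl).2⟩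
  simp only [sub_zero] at h
  refine le_trans ?_ (mul_le_mul_of_nonneg_right h hM)
  rw [sum_mul, sum_filter]
  refine sum_le_sum fun ζ _ => ?_
  split_ifs with h1
  · rw [one_div_mul_eq_div]
    exact div_le_div_of_nonneg_right (hF ζ) (abs_nonneg _)
  · rw [h0 ζ (by omega)]
    simp

theorem mo_triv (Kc : ℕ) (a : ℤ → ℂ) {t Λ : ℝ} (ht : 0 ≤ t) (P Q : Win) (hw : 1 ≤ P.w)
    (hΛ : 1 + Real.log (2 * P.w) ≤ Λ) :
    |Mo Kc a t P Q| ≤ 2 * Λ * (mW Kc a P * mW Kc a Q) := by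
  have h1 := mo_sum1 ht ((FF (2 * Kc)).erase 0) (mh Kc a P)
    (fun ζ => (starRingEnd ℂ) (mh Kc a Q ζ)) (M := mW Kc a Q)
    fun ζ => by rw [Complex.norm_conj]; exact mh_norm Kc a Q ζ
  have h2 := mo_sum2 (FF (2 * Kc)) (mh Kc a P) (2 * P.w) (mh_norm Kc a P)
    fun ζ h => mh_off Kc a P (by exact_mod_cast h)
  push_cast at h2
  have hP : 0 ≤ mW Kc a P := mB_nonneg _ _ _ _
  have hQ : 0 ≤ mW Kc a Q := mB_nonneg _ _ _ _
  refine (Complex.abs_re_le_norm _).trans (h1.trans ?_)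
  have h3 := mul_le_mul_of_nonneg_right h2 hQ
  nlinarith [mul_le_mul_of_nonneg_right hΛ (mul_nonneg hP hQ)]

theorem mh_d2 (Kc : ℕ) (a : ℤ → ℂ) (P : Win) (hw : 1 ≤ P.w) (d : ℕ) (hd : 1 ≤ d) {κ : ℝ}
    (hκ : 0 ≤ κ) (hg : ∀ y : ℤ, y = P.z + P.w ∨ y = P.z - P.w ∨ y = P.z → ∀ h : ℝ, 2 * d ≤ h →
      mB Kc a y (min h (2 * P.w + d)) ≤ κ * h) :
    ∑ ζ ∈ (FF (2 * Kc)).erase 0,
      ‖mh Kc a (P.sh d) ζ + mh Kc a (P.sh (-d)) ζ - 2 * mh Kc a P ζ‖ / |(ζ : ℝ)| ≤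
        240 * κ * d ^ 2 * (1 + Real.log (2 * (P.w + d))) / P.w := by
  set T : Finset ℤ := (FF Kc).filter fun l => |l - P.z| ≤ P.w + d with hT
  have key := d2_sum_le (fun k => ‖a k‖) P.z P.w d hd κ hκ T (fun l hl => (mem_filter.1 hl).2)
    fun y hy r hr => by
      refine le_trans ?_ (hg y hy r (by exact_mod_cast hr))
      refine sum_le_sum_of_subset_of_nonneg (fun l hl => ?_) fun _ _ _ => by positivity
      obtain ⟨h1, h2⟩ := mem_filter.1 hl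
      obtain ⟨h3, h4⟩ := mem_filter.1 h1
      have h5 : |l - y| ≤ 2 * P.w + d := by
        rw [abs_le] at h4 ⊢
        omega
      exact mem_filter.2 ⟨h3, le_min (by exact_mod_cast h2) (by exact_mod_cast h5)⟩
  set D : ℤ → ℤ → ℤ := fun k l =>
    Gz (P.z + d) P.w k l + Gz (P.z - d) P.w k l - 2 * Gz P.z P.w k l with hD
  set H : ℤ → ℤ → ℝ := fun k l =>
    ((|D k l| : ℤ) : ℝ) * (|‖a k‖| * |‖a l‖|) / |((l - k : ℤ) : ℝ)| with hH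
  have hH0 : ∀ k l, 0 ≤ H k l := fun k l => by simp only [hH]; positivity
  have hz : ∀ k l, H k l ≠ 0 → |k - P.z| ≤ P.w + d ∧ |l - P.z| ≤ P.w + d := by
    intro k l h
    have h1 : D k l ≠ 0 := fun h1 => h (by simp only [hH, h1]; simp)
    simp only [hD] at h1
    unfold Gz at h1
    simp only [abs_eq_max_neg] at h1 ⊢
    omega
  have h1 : ∀ ζ : ℤ, ‖mh Kc a (P.sh d) ζ + mh Kc a (P.sh (-d)) ζ - 2 * mh Kc a P ζ‖ / |(ζ : ℝ)| ≤
      (P.w : ℝ)⁻¹ * ∑ k ∈ FF Kc, if k + ζ ∈ FF Kc then H k (k + ζ) else 0 := by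
    intro ζ
    have e1 : mh Kc a (P.sh d) ζ + mh Kc a (P.sh (-d)) ζ - 2 * mh Kc a P ζ =
        (P.w : ℂ)⁻¹ * ∑ k ∈ FF Kc with k + ζ ∈ FF Kc,
          ((D k (k + ζ) : ℤ) : ℂ) * (a (k + ζ) * (starRingEnd ℂ) (a k)) := by
      simp only [mh, mo_Gw, Win.sh, hD, Complex.ofReal_intCast, ← sub_eq_add_neg]
      push_cast
      simp only [add_mul, sub_mul, sum_add_distrib, sum_sub_distrib, mul_assoc, ← mul_sum]
      ring
    rw [e1, norm_mul, norm_inv, Complex.norm_natCast, mul_div_assoc, ← sum_filter]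
    refine mul_le_mul_of_nonneg_left ?_ (by positivity)
    refine (div_le_div_of_nonneg_right (norm_sum_le _ _) (abs_nonneg _)).trans ?_
    rw [sum_div]
    refine sum_le_sum fun k _ => le_of_eq ?_
    simp only [hH, norm_mul, Complex.norm_intCast, Complex.norm_conj, abs_norm, add_sub_cancel_left,
      Int.cast_abs, mul_comm ‖a k‖]
  have h2 : ∀ k ∈ FF Kc, ∑ ζ ∈ (FF (2 * Kc)).erase 0,
      (if k + ζ ∈ FF Kc then H k (k + ζ) else 0) ≤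
        if |k - P.z| ≤ P.w + d then ∑ l ∈ T with l ≠ k, H k l else 0 := by
    intro k _
    split_ifs with hk
    · rw [← sum_filter, ← sum_filter_ne_zero,
        ← sum_image (g := fun ζ => k + ζ) (f := fun l => H k l) fun x _ y _ h => by simpa using h]
      refine sum_le_sum_of_subset_of_nonneg (fun l hl => ?_) fun l _ _ => hH0 k l
      obtain ⟨ζ, hζ, rfl⟩ := mem_image.1 hl
      obtain ⟨h3, h4⟩ := mem_filter.1 hζ
      obtain ⟨h5, h6⟩ := mem_filter.1 h3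
      have h7 := (mem_erase.1 h5).1
      exact mem_filter.2 ⟨mem_filter.2 ⟨h6, (hz _ _ h4).2⟩, by omega⟩
    · refine le_of_eq (sum_eq_zero fun ζ _ => ?_)
      split_ifs
      · by_contra h
        exact hk (hz _ _ h).1
      · rfl
  refine (sum_le_sum fun ζ _ => h1 ζ).trans ?_
  rw [← mul_sum, sum_comm, div_eq_inv_mul]
  refine mul_le_mul_of_nonneg_left ((sum_le_sum h2).trans ?_) (by positivity)
  rw [← sum_filter]
  push_cast at key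
  refine le_trans (le_of_eq ?_) key
  simp only [hH, hD]
  push_cast
  rfl

/-- second differences of `mh` in the direction `σ` -/
theorem mo_d2a (Kc : ℕ) (a : ℤ → ℂ) {Λ κ : ℝ} (P : Win) (hw : 1 ≤ P.w) (d : ℕ) (hd : 1 ≤ d)
    {σ : ℤ} (hσ : σ = 0 ∨ σ = 1 ∨ σ = -1) (hκ : 0 ≤ κ) (hΛ : 1 + Real.log (2 * (P.w + d)) ≤ Λ)
    (hg : σ ≠ 0 → ∀ y : ℤ, y = P.z + P.w ∨ y = P.z - P.w ∨ y = P.z → ∀ h : ℝ, 2 * d ≤ h →
      mB Kc a y (min h (2 * P.w + d)) ≤ κ * h) :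
    ∑ ζ ∈ (FF (2 * Kc)).erase 0,
      ‖mh Kc a (P.sh (σ * d)) ζ + mh Kc a (P.sh (σ * -d)) ζ - 2 * mh Kc a P ζ‖ / |(ζ : ℝ)| ≤
        Λ * d ^ 2 * (240 * |(σ : ℝ)| * (κ / P.w)) := by
  have hb : 240 * κ * d ^ 2 * (1 + Real.log (2 * (P.w + d))) / P.w ≤
      Λ * d ^ 2 * (240 * (κ / P.w)) := by
    calc _ = (1 + Real.log (2 * (P.w + d))) * (d ^ 2 * (240 * (κ / P.w))) := by ring
      _ ≤ Λ * (d ^ 2 * (240 * (κ / P.w))) := mul_le_mul_of_nonneg_right hΛ (by positivity)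
      _ = _ := by ring
  rcases hσ with rfl | rfl | rfl
  · have e : P.sh 0 = P := by simp [Win.sh]
    simp only [zero_mul, e, two_mul, sub_self, norm_zero, zero_div, sum_const_zero, Int.cast_zero,
      abs_zero, mul_zero, le_refl]
  · simpa only [one_mul, Int.cast_one, abs_one, mul_one] using
      (mh_d2 Kc a P hw d hd hκ (hg one_ne_zero)).trans hb
  · have h := (mh_d2 Kc a P hw d hd hκ (hg (by norm_num))).trans hb
    simp only [neg_mul, one_mul, neg_neg, Int.cast_neg, Int.cast_one, abs_neg, abs_one, mul_one]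
    simpa only [add_comm (mh Kc a (P.sh d) _)] using h

theorem mo_d2b (Kc : ℕ) (a : ℤ → ℂ) {m : ℝ} (P : Win) (d : ℕ) {σ e : ℤ} (he : |e| = d)
    (hm : mB Kc a P.z (P.w + |(σ : ℝ)| * d) ≤ m) (ζ : ℤ) :
    ‖mh Kc a (P.sh (σ * e)) ζ - mh Kc a P ζ‖ ≤ |(σ : ℝ)| * d * (m / P.w) := by
  have h := mh_sub Kc a P (σ * e) ζ
  have e1 : |((σ * e : ℤ) : ℝ)| = |(σ : ℝ)| * d := by
    have : |(e : ℝ)| = d := by exact_mod_cast he
    push_cast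
    rw [abs_mul, this]
  rw [e1] at h
  exact h.trans (mul_le_mul_of_nonneg_left (div_le_div_of_nonneg_right hm (by positivity))
    (by positivity))

theorem mo_d2 (Kc : ℕ) (a : ℤ → ℂ) {t Λ κ κ' m m' : ℝ} (ht : 0 ≤ t) (P Q : Win) (hw : 1 ≤ P.w)
    (hw' : 1 ≤ Q.w) (d : ℕ) (hd : 1 ≤ d) {σ σ' : ℤ} (hσ : σ = 0 ∨ σ = 1 ∨ σ = -1)
    (hσ' : σ' = 0 ∨ σ' = 1 ∨ σ' = -1) (hκ : 0 ≤ κ) (hκ' : 0 ≤ κ')
    (hΛ : 1 + Real.log (2 * (P.w + d)) ≤ Λ) (hΛ' : 1 + Real.log (2 * (Q.w + d)) ≤ Λ)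
    (hm : mB Kc a P.z (P.w + |(σ : ℝ)| * d) ≤ m) (hm' : mB Kc a Q.z (Q.w + |(σ' : ℝ)| * d) ≤ m')
    (hg : σ ≠ 0 → ∀ y : ℤ, y = P.z + P.w ∨ y = P.z - P.w ∨ y = P.z → ∀ h : ℝ, 2 * d ≤ h →
      mB Kc a y (min h (2 * P.w + d)) ≤ κ * h)
    (hg' : σ' ≠ 0 → ∀ y : ℤ, y = Q.z + Q.w ∨ y = Q.z - Q.w ∨ y = Q.z → ∀ h : ℝ, 2 * d ≤ h →
      mB Kc a y (min h (2 * Q.w + d)) ≤ κ' * h) :
    |Mo Kc a t (P.sh (σ * d)) (Q.sh (σ' * d)) + Mo Kc a t (P.sh (σ * -d)) (Q.sh (σ' * -d)) -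
      2 * Mo Kc a t P Q| ≤ Λ * d ^ 2 * (240 * |(σ : ℝ)| * (κ * m' / P.w) +
        240 * |(σ' : ℝ)| * (κ' * m / Q.w) + 4 * (|(σ : ℝ)| * |(σ' : ℝ)|) * (m * m' / (P.w * Q.w))) := by
  set J := (FF (2 * Kc)).erase 0 with hJ
  have hm0 : 0 ≤ m := (mB_nonneg _ _ _ _).trans hm
  have hm0' : 0 ≤ m' := (mB_nonneg _ _ _ _).trans hm'
  have hP : ∀ ζ, ‖mh Kc a P ζ‖ ≤ m := fun ζ => (mh_norm Kc a P ζ).trans
    ((mo_mB_mono Kc a P.z (le_add_of_nonneg_right (by positivity))).trans hm)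
  have hQ : ∀ ζ, ‖mh Kc a Q ζ‖ ≤ m' := fun ζ => (mh_norm Kc a Q ζ).trans
    ((mo_mB_mono Kc a Q.z (le_add_of_nonneg_right (by positivity))).trans hm')
  have t1 := (mo_sum1 ht J
    (fun ζ => mh Kc a (P.sh (σ * d)) ζ + mh Kc a (P.sh (σ * -d)) ζ - 2 * mh Kc a P ζ)
    (fun ζ => (starRingEnd ℂ) (mh Kc a Q ζ)) (M := m')
    fun ζ => by rw [Complex.norm_conj]; exact hQ ζ).trans
    (mul_le_mul_of_nonneg_right (mo_d2a Kc a P hw d hd hσ hκ hΛ hg) hm0')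
  have t2 := mo_sum1 ht J
    (fun ζ => (starRingEnd ℂ)
      (mh Kc a (Q.sh (σ' * d)) ζ + mh Kc a (Q.sh (σ' * -d)) ζ - 2 * mh Kc a Q ζ))
    (mh Kc a P) hP
  simp only [Complex.norm_conj] at t2
  replace t2 := t2.trans (mul_le_mul_of_nonneg_right (mo_d2a Kc a Q hw' d hd hσ' hκ' hΛ' hg') hm0)
  have hL : 1 + Real.log ((2 * P.w : ℕ) : ℝ) ≤ Λ := by
    have h0 : (1 : ℝ) ≤ P.w := by exact_mod_cast hw
    have h1 : (0 : ℝ) ≤ d := by positivity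
    have := Real.log_le_log (x := 2 * P.w) (y := 2 * (P.w + d)) (by linarith) (by linarith)
    push_cast
    linarith
  have t3 : ∀ e : ℤ, |e| = d → ‖∑ ζ ∈ J, cf t ζ * ((mh Kc a (P.sh (σ * e)) ζ - mh Kc a P ζ) *
      (starRingEnd ℂ) (mh Kc a (Q.sh (σ' * e)) ζ - mh Kc a Q ζ))‖ ≤
      2 * Λ * (|(σ : ℝ)| * d * (m / P.w)) * (|(σ' : ℝ)| * d * (m' / Q.w)) := by
    intro e he
    have s1 := mo_sum1 ht J (fun ζ => mh Kc a (P.sh (σ * e)) ζ - mh Kc a P ζ)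
      (fun ζ => (starRingEnd ℂ) (mh Kc a (Q.sh (σ' * e)) ζ - mh Kc a Q ζ))
      fun ζ => by rw [Complex.norm_conj]; exact mo_d2b Kc a Q d he hm' ζ
    have s2 := mo_sum2 (FF (2 * Kc)) (fun ζ => mh Kc a (P.sh (σ * e)) ζ - mh Kc a P ζ) (2 * P.w)
      (mo_d2b Kc a P d he hm) fun ζ h => by
        rw [mh_off Kc a P (by exact_mod_cast h), mh_off Kc a (P.sh _) (by exact_mod_cast h),
          sub_zero]
    refine s1.trans (mul_le_mul_of_nonneg_right (s2.trans ?_) (by positivity))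
    exact mul_le_mul_of_nonneg_right (by linarith) (by positivity)
  have t4 := t3 d (abs_of_nonneg (by positivity))
  have t5 := t3 (-d) (by rw [abs_neg]; exact abs_of_nonneg (by positivity))
  have e1 : Mo Kc a t (P.sh (σ * d)) (Q.sh (σ' * d)) + Mo Kc a t (P.sh (σ * -d)) (Q.sh (σ' * -d)) -
      2 * Mo Kc a t P Q =
      (∑ ζ ∈ J, cf t ζ * ((mh Kc a (P.sh (σ * d)) ζ + mh Kc a (P.sh (σ * -d)) ζ -
          2 * mh Kc a P ζ) * (starRingEnd ℂ) (mh Kc a Q ζ)) +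
        ∑ ζ ∈ J, cf t ζ * ((starRingEnd ℂ) (mh Kc a (Q.sh (σ' * d)) ζ +
          mh Kc a (Q.sh (σ' * -d)) ζ - 2 * mh Kc a Q ζ) * mh Kc a P ζ) +
        ∑ ζ ∈ J, cf t ζ * ((mh Kc a (P.sh (σ * d)) ζ - mh Kc a P ζ) *
          (starRingEnd ℂ) (mh Kc a (Q.sh (σ' * d)) ζ - mh Kc a Q ζ)) +
        ∑ ζ ∈ J, cf t ζ * ((mh Kc a (P.sh (σ * -d)) ζ - mh Kc a P ζ) *
          (starRingEnd ℂ) (mh Kc a (Q.sh (σ' * -d)) ζ - mh Kc a Q ζ))).re := by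
    simp only [Mo, ← hJ]
    simp only [two_mul, ← Complex.add_re, ← Complex.sub_re, ← sum_add_distrib,
      ← sum_sub_distrib, map_add, map_sub]
    congr 1
    exact sum_congr rfl fun ζ _ => by ring
  rw [e1]
  refine (Complex.abs_re_le_norm _).trans ((norm_add_le _ _).trans ?_)
  refine (add_le_add ((norm_add_le _ _).trans (add_le_add ((norm_add_le _ _).trans
    (add_le_add t1 t2)) t4)) t5).trans (le_of_eq ?_)
  ring

end

end Pool.Agent.Lib.MMTX
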