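import Pool.Agent.Lib.MP_0dc93f_an.X.TPar

/-! The tree of kinks: extent, owners and counts. -/

namespace Pool.Agent.Lib.MMTX

open Finset MMTW

noncomputable section

namespace Sh

variable {p : Sh} {y0 : ℤ} {c : List St → ℤ}

theorem w_small (hp : p.Fine) {s : St} (hi : s.i ≤ p.G) : 16 * s.w ≤ p.L * 2 ^ s.j := by
  have h1 : 256 ^ s.i ≤ 256 ^ p.G := Nat.pow_le_pow_right (by norm_num) hi
  have h2 := hp.hR
  calc 16 * s.w = 64 * 256 ^ s.i * 2 ^ s.j := by unfold St.w; ring
    _ ≤ p.L * 2 ^ s.j := Nat.mul_le_mul_right _ (by omega)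

theorem step_le (hp : p.Fine) (hc : p.Conf c) {s : St} {y : List St} (h : p.Ok (s :: y))
    (hy : y ≠ []) : |pos y0 c (s :: y) - pos y0 c y| + s.w ≤ 5 * p.L * 2 ^ s.j := by
  obtain ⟨-, hn, hi, he, hg⟩ := mem_kids.1 ((ok_cons hy).1 h).2
  have hw : (16 * s.w : ℤ) ≤ p.L * 2 ^ s.j := by exact_mod_cast w_small hp hi
  have hO := hc.le (s.nd :: y)
  have hr : ¬Rt (s.nd :: y) := fun h => hy (List.length_eq_zero_iff.1 (by simpa using h.1))
  have hO2 : p.Om (s.nd :: y) ≤ 2 ^ s.j := by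
    unfold Om; rw [if_neg hr]; exact Nat.div_le_self _ _
  have hO3 : (p.Om (s.nd :: y) : ℤ) ≤ 2 ^ s.j := by exact_mod_cast hO2
  have hL : (64 : ℤ) ≤ p.L := by
    have h1 := hp.hR
    have h2 : 1 ≤ 256 ^ p.G := Nat.one_le_pow _ _ (by norm_num)
    have : 64 ≤ p.L := by omega
    exact_mod_cast this
  have hu : (0 : ℤ) < 2 ^ s.j := by positivity
  have hn1 : (s.n : ℤ) * 2 ^ s.j ≤ 4 * (p.L * 2 ^ s.j) := by
    have : (s.n : ℤ) ≤ 4 * p.L := by exact_mod_cast hn
    nlinarith
  have hn0 : 0 ≤ (s.n : ℤ) * 2 ^ s.j := by positivity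
  have hLu : 64 * (2 : ℤ) ^ s.j ≤ p.L * 2 ^ s.j := by nlinarith
  have hw0 : (0 : ℤ) ≤ s.w := by positivity
  rw [pos_cons, if_neg (fun h => hy h.1), mul_assoc]
  rw [abs_le] at hO
  generalize (s.n : ℤ) * 2 ^ s.j = A at *
  generalize (p.L : ℤ) * 2 ^ s.j = X at *
  generalize (2 : ℤ) ^ s.j = u at *
  rcases he with he | he <;> rcases hg with hg | hg | hg <;> rw [he, hg] <;>
    simp only [abs_eq_max_neg] <;> omega

/-- units grow by at most `c0` per step -/
theorem hd_j_le {l : List St} {y : List St} (h : p.Ok (l ++ y)) (hy : y ≠ []) :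
    (hd (l ++ y)).j ≤ (hd y).j + p.c0 * l.length := by
  induction l with
  | nil => simp
  | cons a l ih =>
    rw [List.cons_append, ok_cons (by simp [hy])] at h
    have h1 := ih h.1
    have h2 := (mem_kids.1 h.2).1.2.1
    simp only [List.cons_append, hd_cons, List.length_cons, mul_add, mul_one]
    omega

/-- a chain of steps with bounded units -/
theorem chain_le (hp : p.Fine) (hc : p.Conf c) {y : List St} (hy : y ≠ []) (U : ℕ)
    (l : List St) (a : St) (h : p.Ok (a :: l ++ y))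
    (hU : ∀ l1 l2, a :: l = l1 ++ l2 → l2 ≠ [] → (hd l2).j ≤ U) :
    |pos y0 c (a :: l ++ y) - pos y0 c y| + a.w ≤ 5 * p.L * (l.length + 1) * 2 ^ U := by
  induction l generalizing a with
  | nil =>
    have h1 := step_le (y0 := y0) hp hc (s := a) (y := y) h hy
    have h2 : (2 : ℤ) ^ a.j ≤ 2 ^ U := pow_le_pow_right₀ (by norm_num) (hU [] [a] rfl (by simp))
    have h3 : (0 : ℤ) ≤ 5 * p.L := by positivity
    simp only [List.cons_append, List.nil_append, List.length_nil, Nat.cast_zero, zero_add, mul_one]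
    nlinarith
  | cons e l ih =>
    have hn : e :: l ++ y ≠ [] := by simp
    have h1 := step_le (y0 := y0) hp hc (s := a) (y := e :: l ++ y) h hn
    have h2 : (2 : ℤ) ^ a.j ≤ 2 ^ U :=
      pow_le_pow_right₀ (by norm_num) (hU [] (a :: e :: l) rfl (by simp))
    have h3 : (0 : ℤ) ≤ 5 * p.L := by positivity
    have h4 := ih e ((ok_cons hn).1 h).1 fun l1 l2 h5 h6 => hU (a :: l1) l2 (by rw [h5]; rfl) h6
    have h5 := abs_sub_le (pos y0 c (a :: (e :: l ++ y))) (pos y0 c (e :: l ++ y)) (pos y0 c y)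
    have h6 : (0 : ℤ) ≤ e.w := by positivity
    have h7 := mul_le_mul_of_nonneg_left h2 h3
    simp only [List.cons_append, List.length_cons] at *
    push_cast
    nlinarith

theorem ext_loc (hp : p.Fine) (hc : p.Conf c) {l : List St} {s : St} {y : List St}
    (h : l ++ s :: y ∈ p.kinks) (hy : y ≠ []) :
    |pos y0 c (l ++ s :: y) - pos y0 c y| + (hd (l ++ s :: y)).w ≤
      5 * p.L * p.G * 2 ^ (p.c0 * p.G) * 2 ^ s.j := by
  obtain ⟨hk, hl⟩ := mem_kinks.1 h
  have hy1 := List.length_pos_iff.2 hy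
  simp only [List.length_append, List.length_cons] at hl
  obtain ⟨a, l', e⟩ : ∃ a l', l ++ [s] = a :: l' := by
    cases l with
    | nil => exact ⟨s, [], rfl⟩
    | cons a l => exact ⟨a, l ++ [s], rfl⟩
  have e2 : l ++ s :: y = a :: l' ++ y := by rw [← e]; simp
  have hl' : l'.length + 1 ≤ p.G := by
    have := congrArg List.length e
    simp at this; omega
  have h1 := chain_le (y0 := y0) hp hc hy (p.c0 * p.G + s.j) l' a (e2 ▸ hk) (by
    intro l1 l2 h5 h6
    rw [← e] at h5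
    obtain ⟨l3, rfl⟩ : ∃ l3, l2 = l3 ++ [s] := by
      refine ⟨l2.dropLast, ?_⟩
      have h7 : l2.getLast h6 = s := by
        have : (l1 ++ l2).getLast (by simp [h6]) = s := by simp [← h5]
        rwa [List.getLast_append_of_ne_nil _ h6] at this
      rw [← h7, List.dropLast_append_getLast]
    have h8 : l = l1 ++ l3 := by
      rw [← List.append_assoc] at h5; exact List.append_cancel_right h5
    subst h8
    have h9 : p.Ok (l3 ++ s :: y) := by
      rw [List.append_assoc] at hk; exact hk.of_append (by simp)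
    have h10 := hd_j_le h9 (by simp)
    have h11 : hd (l3 ++ [s]) = hd (l3 ++ s :: y) := by cases l3 <;> rfl
    have h12 : p.c0 * l3.length ≤ p.c0 * p.G :=
      Nat.mul_le_mul_left _ (by simp only [List.length_append] at hl; omega)
    rw [h11]; simp only [hd_cons] at h10; omega)
  rw [e2]
  refine h1.trans ?_
  have h2 : (l'.length : ℤ) + 1 ≤ p.G := by exact_mod_cast hl'
  rw [pow_add, ← mul_assoc]
  gcongr

theorem ext_top (hp : p.Fine) (hc : p.Conf c) {l y : List St} (h : l ++ y ∈ p.kinks)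
    (hy : y ≠ []) :
    256 * (|pos y0 c (l ++ y) - pos y0 c y| + (hd (l ++ y)).w) ≤ p.K (top y).j := by
  obtain ⟨hk, hl⟩ := mem_kinks.1 h
  have hy1 := List.length_pos_iff.2 hy
  have hG : (2 ^ 12 * (p.G + 1) : ℤ) ≤ p.L := by exact_mod_cast hp.hG
  have hu : (0 : ℤ) < p.L * 2 ^ (top y).j := by have := p.L_pos; positivity
  have hG0 : (0 : ℤ) ≤ p.G := by positivity
  rw [K_eq]
  push_cast
  cases l with
  | nil =>
    obtain ⟨s, y, rfl⟩ := List.exists_cons_of_ne_nil hy
    have h1 : (16 * s.w : ℤ) ≤ p.L * 2 ^ s.j := by exact_mod_cast w_small hp hk.hd_side.1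
    have h2 : (2 : ℤ) ^ s.j ≤ 2 ^ (top (s :: y)).j :=
      pow_le_pow_right₀ (by norm_num) (hk.hd_j hp).2.2
    have h3 := mul_le_mul_of_nonneg_left h2 (show (0 : ℤ) ≤ p.L by positivity)
    simp only [List.nil_append, sub_self, abs_zero, zero_add, hd_cons]
    nlinarith
  | cons a l =>
    have h1 := chain_le (y0 := y0) hp hc hy (top y).j l a hk (by
      intro l1 l2 h5 h6
      rw [h5, List.append_assoc] at hk
      have h7 := ((hk.of_append (by simp [hy])).hd_j hp).2.2
      rw [top_append _ hy] at h7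
      obtain ⟨s, l2, rfl⟩ := List.exists_cons_of_ne_nil h6
      exact h7)
    have h2 : (l.length : ℤ) + 1 ≤ p.G := by
      simp only [List.length_append, List.length_cons] at hl
      have : l.length + 1 ≤ p.G := by omega
      exact_mod_cast this
    simp only [List.cons_append, hd_cons] at h1 ⊢
    nlinarith

theorem owner_aux (hp : p.Fine) (hc : p.Conf c) {z : List St} (h : p.Ok z) {j : ℕ}
    (hj : j ≤ (top z).j) : ∃ l y, z = l ++ y ∧ y ≠ [] ∧ j ≤ (hd y).j + p.c0 ∧
      2 ^ p.c0 * |pos y0 c z - pos y0 c y| ≤ 5 * l.length * (p.L * 2 ^ j) := by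
  induction h with
  | top s h => exact ⟨[], [s], rfl, by simp, by simp at hj ⊢; omega, by simp⟩
  | kid s z hz h ih =>
    by_cases h1 : j ≤ s.j + p.c0
    · exact ⟨[], s :: z, rfl, by simp, h1, by simp⟩
    · rw [top_cons _ hz.ne_nil] at hj
      obtain ⟨l, y, rfl, hy, h2, h3⟩ := ih hj
      refine ⟨s :: l, y, rfl, hy, h2, ?_⟩
      have h4 := step_le (y0 := y0) hp hc (Ok.kid s _ hz h) hz.ne_nil
      have h5 := abs_sub_le (pos y0 c (s :: (l ++ y))) (pos y0 c (l ++ y)) (pos y0 c y)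
      have h6 : (2 : ℤ) ^ p.c0 * 2 ^ s.j ≤ 2 ^ j := by
        rw [← pow_add]; exact pow_le_pow_right₀ (by norm_num) (by omega)
      have h7 : (0 : ℤ) < 2 ^ p.c0 := by positivity
      have h8 : (0 : ℤ) ≤ s.w := by positivity
      have h9 := mul_le_mul_of_nonneg_left h6 (show (0 : ℤ) ≤ 5 * p.L by positivity)
      have h10 : |pos y0 c (s :: (l ++ y)) - pos y0 c (l ++ y)| ≤ 5 * p.L * 2 ^ s.j := by linarith
      have h11 := mul_le_mul_of_nonneg_left h10 h7.le
      have h12 := mul_le_mul_of_nonneg_left h5 h7.le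
      simp only [List.length_cons]
      push_cast
      nlinarith

/-- every unit is owned by a near ancestor -/
theorem owner (hp : p.Fine) (hc : p.Conf c) {z : List St} (h : z ∈ p.kinks) {j : ℕ}
    (hj : j ≤ (top z).j) : ∃ l y, z = l ++ y ∧ y ≠ [] ∧ j ≤ (hd y).j + p.c0 ∧
      |pos y0 c z - pos y0 c y| ≤ p.L * 2 ^ j := by
  obtain ⟨hk, hl⟩ := mem_kinks.1 h
  obtain ⟨l, y, rfl, hy, h2, h3⟩ := owner_aux (y0 := y0) hp hc hk hj
  refine ⟨l, y, rfl, hy, h2, ?_⟩
  have hy1 := List.length_pos_iff.2 hy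
  have h4 : 5 * l.length ≤ 2 ^ p.c0 := by
    have := hp.hc
    simp only [List.length_append] at hl; omega
  have h5 : (5 * l.length : ℤ) ≤ 2 ^ p.c0 := by exact_mod_cast h4
  have h7 : (0 : ℤ) < 2 ^ p.c0 := by positivity
  refine le_of_mul_le_mul_left (h3.trans ?_) h7
  exact mul_le_mul_of_nonneg_right h5 (by positivity)

theorem card_box (hp : p.Fine) {J N : Finset ℕ} (hJ : J.card ≤ p.L) (hN : N.card ≤ 3 * p.L ^ 2) :
    (steps J N p.G).card + 2 ≤ p.L ^ 5 := by
  have h1 := card_steps J N p.G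
  have hG := hp.hG
  have h2 : J.card * N.card * (p.G + 1) * 6 ≤ p.L * (3 * p.L ^ 2) * (p.G + 1) * 6 := by gcongr
  have h3 : 1 ≤ p.L ^ 3 := Nat.one_le_pow _ _ p.L_pos
  have h4 : 20 * (p.G + 1) ≤ p.L ^ 2 := by nlinarith
  have h5 := Nat.mul_le_mul_left (p.L ^ 3) h4
  nlinarith

theorem card_kinks (hp : p.Fine) (hj : p.jh + 1 ≤ p.L) :
    p.kinks.card ≤ p.L ^ (5 * (p.G + 2)) := by
  have hL := p.L_pos
  have hG := hp.hG
  have h0 : p.tops.card ≤ p.L ^ 5 := by
    refine (card_union_le _ _).trans (le_trans (Nat.add_le_add_left card_le_two _) ?_)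
    refine card_box hp (by rw [Nat.card_Icc]; omega) ?_
    have : 1 ≤ p.L ^ 2 := Nat.one_le_pow _ _ hL
    rw [Nat.card_Icc]; omega
  have h1 : ∀ z, p.Ok z → (p.kids z).card ≤ p.L ^ 5 := by
    intro z hz
    have := (hz.top_j hp).2
    refine le_trans (Nat.le_add_right _ 2) (card_box hp (by rw [Nat.card_Icc]; omega) ?_)
    rw [card_range]; nlinarith
  have h2 : ∀ g, (p.lev g).card ≤ p.L ^ (5 * (g + 1)) := by
    intro g
    induction g with
    | zero => exact card_image_le.trans h0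
    | succ g ih =>
      refine (card_biUnion_le_card_mul _ _ (p.L ^ 5) fun z hz => ?_).trans ?_
      · exact card_image_le.trans (h1 z (mem_lev.1 hz).1)
      · rw [show 5 * (g + 1 + 1) = 5 * (g + 1) + 5 by ring, pow_add]
        exact Nat.mul_le_mul_right _ ih
  refine (card_biUnion_le_card_mul _ _ (p.L ^ (5 * (p.G + 1))) fun g hg => ?_).trans ?_
  · exact (h2 g).trans (Nat.pow_le_pow_right hL (by have := mem_range.1 hg; omega))
  · rw [card_range, show 5 * (p.G + 2) = 5 + 5 * (p.G + 1) by ring, pow_add]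
    refine Nat.mul_le_mul_right _ (le_trans (by omega) (Nat.le_self_pow (by norm_num) p.L))

end Sh

end

end Pool.Agent.Lib.MMTX
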