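import Pool.Agent.Lib.MP_0dc93f_an.X.TNum
import Pool.Agent.Lib.MP_0dc93f_an.X.TExt

/-! The tree of kinks: weights, positions and counts in terms of the parameters. -/

namespace Pool.Agent.Lib.MMTX

open Finset MMTW

noncomputable section

namespace Par

variable {p : Par} {a : ℤ → ℂ} {b : Bool} {c : List St → ℤ}

theorem twt_L (hp : p.OK) : (0 : ℝ) < p.L := lt_of_lt_of_le (by norm_num) hp.L_one

theorem twt_sq (hp : p.OK) : 2 ^ 16 * (p.L : ℝ) ≤ (p.L : ℝ) ^ 2 := by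
  have := hp.L_one
  nlinarith

theorem twt_half (hp : p.OK) : 0 < p.sh.L ^ 2 / 2 ∧ 2 * (p.sh.L ^ 2 / 2) = p.sh.L ^ 2 := by
  have h1 := hp.fine.hl
  have h2 : 2 ∣ p.sh.L ^ 2 := by
    rw [Sh.L, ← pow_mul]
    exact dvd_pow_self 2 (by omega)
  have h3 : 0 < p.sh.L ^ 2 := pow_pos p.sh.L_pos 2
  omega

theorem twt_split {z : List St} (h : z ≠ []) : ∃ l, z = l ++ [top z] := by
  induction z with
  | nil => exact absurd rfl h
  | cons s y ih =>
    by_cases hy : y = []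
    · exact ⟨[], by simp [hy]⟩
    · obtain ⟨l, hl⟩ := ih hy
      exact ⟨s :: l, by rw [top_cons s hy, List.cons_append, ← hl]⟩

theorem twt_card (hp : p.OK) : (p.sh.kinks.card : ℝ) ≤ (p.L : ℝ) ^ (5 * (p.G + 2)) := by
  have h1 := hp.l3
  have h2 := Sh.card_kinks hp.fine (show p.mH - 2 * p.l + 1 ≤ p.L by omega)
  exact_mod_cast h2

theorem mz_mem (hp : p.OK) {z : List St} (h : z ∈ p.sh.kinks) :
    p.m0 ≤ p.mz z ∧ p.mz z ≤ p.mH := by
  have h1 := (Sh.mem_kinks.1 h).1.top_j hp.fine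
  have := hp.m01; have := hp.m02; have := hp.m03; have := hp.m04
  simp only [sh] at h1
  unfold mz
  omega

theorem mz_rt (hp : p.OK) {z : List St} (h : z ∈ p.sh.kinks) (h0 : (top z).n = 0) :
    p.mz z = p.mN := by
  rcases Sh.mem_tops.1 (Sh.mem_kinks.1 h).1.top_mem with h1 | h1
  · have := twt_half hp
    omega
  · rw [mz, h1.1, hp.jN_eq]

theorem twt_rt (hp : p.OK) {z : List St} (h : z ∈ p.sh.kinks) (hr : Rt z) : p.mz z = p.mN := by
  obtain ⟨s, rfl⟩ := List.length_eq_one_iff.1 hr.1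
  exact mz_rt hp h hr.2

theorem rt_iff (hp : p.OK) {z : List St} (h : z ∈ p.sh.kinks) :
    Rt z ↔ z = p.r0 ∨ z = [⟨p.sh.jN, 0, 0, -1, 0⟩] := by
  constructor
  · rintro ⟨h1, h2⟩
    obtain ⟨s, rfl⟩ := List.length_eq_one_iff.1 h1
    rcases Sh.mem_tops.1 (Sh.ok_one.1 (Sh.mem_kinks.1 h).1) with h3 | h3
    · have := twt_half hp
      simp only [hd_cons] at h2
      omega
    · obtain ⟨j, n, i, e, g⟩ := s
      obtain ⟨rfl, rfl, rfl, rfl | rfl, rfl⟩ := h3
      · exact Or.inl rfl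
      · exact Or.inr rfl
  · rintro (rfl | rfl) <;> exact ⟨rfl, rfl⟩

theorem r0_mem (hp : p.OK) : p.r0 ∈ p.sh.kinks ∧ [⟨p.sh.jN, 0, 0, -1, 0⟩] ∈ p.sh.kinks := by
  have _ := hp.g1
  constructor <;> exact Sh.mem_kinks.2 ⟨Sh.ok_one.2 (Sh.mem_tops.2 (Or.inr (by simp))), by simp [r0]⟩

theorem ps_r0 (p : Par) (b : Bool) (c : List St → ℤ) : p.ps b c p.r0 = p.y0 b + c p.r0 ∧
    p.ps b c [⟨p.sh.jN, 0, 0, -1, 0⟩] = -(p.y0 b + c p.r0) := by
  simp [ps, pos, r0, St.nd]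

theorem wz_pos (hp : p.OK) (z : List St) : 0 < p.wz z := by
  have := hp.h0; have := hp.θ_pos; have := hp.gg_pos (p.mz z)
  unfold wz
  split_ifs <;> positivity

theorem kz_pos (hp : p.OK) (z : List St) : 0 < p.kz z := by
  have := twt_L hp; have := hp.mb_pos (p.mz z)
  unfold kz
  positivity

theorem ko_pos (hp : p.OK) (z : List St) : 0 < p.ko z := by
  have := twt_L hp; have := hp.mb_pos p.mN; have := kz_pos hp z
  unfold ko
  split_ifs <;> positivity

theorem ko_le (hp : p.OK) {z : List St} (h : z ∈ p.sh.kinks) : 8 * p.ko z ≤ p.kz z := by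
  unfold ko
  split_ifs with hr
  · have := hp.mb_pos p.mN
    have hL := hp.L_one
    rw [kz, hr.1, twt_rt hp h hr, Nat.sub_self, pow_zero, one_mul, ← mul_assoc]
    refine mul_le_mul_of_nonneg_right ?_ (by positivity)
    have h4 : (8 : ℝ) ≤ (p.L : ℝ) ^ 4 :=
      le_trans (by linarith) (le_self_pow₀ (by linarith) (by norm_num))
    nlinarith
  · linarith

theorem wz_mul (hp : p.OK) {z : List St} (hr : ¬Rt z) :
    p.wz z * 2 ^ p.mz z ≤ p.θ * p.gg (p.mz z) := by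
  have := hp.θ_pos; have := hp.gg_pos (p.mz z)
  rw [wz, if_neg hr, mul_assoc, div_mul_cancel₀ _ (by positivity)]
  exact mul_le_of_le_one_left (by positivity) (pow_le_one₀ hp.h0.le hp.η_le)

theorem twt_th (hp : p.OK) {z : List St} (hr : ¬Rt z) (hm : p.mz z = p.mN) : p.wz z ≤ p.θ := by
  have h1 := wz_mul hp hr
  rw [hm, hp.gg_mN] at h1
  exact le_of_mul_le_mul_right h1 (by positivity)

theorem wz_S0 (hp : p.OK) {z : List St} (h : z ∈ p.sh.kinks) :
    p.wz z * 2 ^ p.mz z * p.mb (p.mz z) ≤ p.S0 := by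
  by_cases hr : Rt z
  · rw [wz, if_pos hr, twt_rt hp h hr, one_mul, S0]
  · have h1 := hp.mb_pos (p.mz z)
    refine (mul_le_mul_of_nonneg_right ((wz_mul hp hr).trans (mul_le_of_le_one_left
      (hp.gg_pos _).le (hp.θ_le.trans hp.η_le))) h1.le).trans (hp.gg_mb _)

/-- deeper kinks of the same scale weigh less -/
theorem wz_le (hp : p.OK) {v z : List St} (hv : v ∈ p.sh.kinks) (hr : ¬Rt z)
    (hm : p.mz z = p.mz v) (hl : v.length ≤ z.length) : p.wz z ≤ p.wz v := by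
  by_cases hv' : Rt v
  · rw [wz.eq_1 p v, if_pos hv']
    exact (twt_th hp hr (hm.trans (twt_rt hp hv hv'))).trans (hp.θ_le.trans hp.η_le)
  · have := hp.θ_pos; have := hp.gg_pos (p.mz v)
    rw [wz, wz, if_neg hr, if_neg hv', hm]
    exact mul_le_mul_of_nonneg_right (pow_le_pow_of_le_one hp.h0.le hp.η_le (by omega))
      (by positivity)

theorem wz_lt (hp : p.OK) {v z : List St} (hv : v ∈ p.sh.kinks)
    (hm : p.mz z = p.mz v) (hl : v.length < z.length) : p.wz z ≤ p.η * p.wz v := by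
  have h1 : 0 < v.length := List.length_pos_iff.2 (Sh.mem_kinks.1 hv).1.ne_nil
  have hr : ¬Rt z := fun h => by have := h.1; omega
  by_cases hv' : Rt v
  · rw [wz.eq_1 p v, if_pos hv', mul_one]
    exact (twt_th hp hr (hm.trans (twt_rt hp hv hv'))).trans hp.θ_le
  · have := hp.θ_pos; have := hp.gg_pos (p.mz v)
    rw [wz, wz, if_neg hr, if_neg hv', hm, ← mul_assoc, ← pow_succ']
    exact mul_le_mul_of_nonneg_right (pow_le_pow_of_le_one hp.h0.le hp.η_le (by omega))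
      (by positivity)

theorem kw_le (hp : p.OK) {v z : List St} (hv : v ∈ p.sh.kinks) (hr : ¬Rt z)
    (hm : p.mz z = p.mz v) (hl : v.length ≤ z.length) :
    p.kz z * p.wz z ≤ 8 * (p.L : ℝ) ^ 4 * (p.ko v * p.wz v) := by
  have hL := hp.L_one
  have hL0 := twt_L hp
  have hθ := hp.θ_pos
  have hg := hp.gg_pos (p.mz v)
  have hb := hp.mb_pos (p.mz v)
  have hη := hp.h0
  have h1 : 2 ^ 16 * (p.L : ℝ) * p.η ≤ 1 := by
    refine le_trans ?_ (hp.η_B (n := 1) (by norm_num))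
    rw [pow_one, mul_comm p.η]
    refine mul_le_mul_of_nonneg_right ((twt_sq hp).trans (le_trans ?_ hp.L_B)) hη.le
    exact pow_le_pow_right₀ (by linarith) (by norm_num)
  have e : ∀ y : List St, ¬Rt y → p.kz y * p.wz y = (2 ^ 16 * (p.L : ℝ) * p.η) ^ (y.length - 1) *
      ((p.L : ℝ) ^ 5 * (p.mb (p.mz y) / 2 ^ p.mz y) * (p.θ * p.gg (p.mz y) / 2 ^ p.mz y)) := by
    intro y hy
    rw [kz, wz, if_neg hy, mul_pow _ p.η]
    ring
  rw [e z hr, hm]
  by_cases hv' : Rt v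
  · have h2 := twt_rt hp hv hv'
    rw [ko, wz, if_pos hv', if_pos hv', h2, hp.gg_mN, mul_div_cancel_right₀ _ (by positivity)]
    rw [h2] at hb
    refine (mul_le_of_le_one_left (by positivity) (pow_le_one₀ (by positivity) h1)).trans ?_
    have h3 : 0 < (p.L : ℝ) ^ 5 * (p.mb p.mN / 2 ^ p.mN) := by positivity
    nlinarith [hp.θ_le.trans hp.η_le]
  · rw [ko, if_neg hv', show 8 * (p.L : ℝ) ^ 4 * (p.kz v / 8 * p.wz v) =
      (p.L : ℝ) ^ 4 * (p.kz v * p.wz v) by ring, e v hv']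
    refine le_trans (mul_le_mul_of_nonneg_right
      (pow_le_pow_of_le_one (by positivity) h1 (by omega)) (by positivity))
      (le_mul_of_one_le_left (by positivity) (one_le_pow₀ (by linarith)))

theorem kz_cons (p : Par) (s : St) {y : List St} (hy : y ≠ []) :
    p.kz (s :: y) = 2 ^ 16 * p.L * p.kz y := by
  have h1 : 0 < y.length := List.length_pos_iff.2 hy
  have e : p.mz (s :: y) = p.mz y := by rw [mz, mz, top_cons s hy]
  rw [kz, kz, e, show (s :: y).length - 1 = y.length - 1 + 1 by simp; omega, pow_succ]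
  ring

theorem kz_le (hp : p.OK) {z : List St} (h : z ∈ p.sh.kinks) : p.kz z ≤ p.kp (p.mz z) := by
  have hL := hp.L_one
  have hb := hp.mb_pos (p.mz z)
  have h1 := (Sh.mem_kinks.1 h).2
  have h2 : p.sh.G = p.G := rfl
  rw [kz, kp, mul_div_assoc]
  refine mul_le_mul_of_nonneg_right (le_trans ?_ hp.bB) (by positivity)
  refine (mul_le_mul_of_nonneg_right (pow_le_pow_left₀ (by positivity) (twt_sq hp) _)
    (by positivity)).trans ?_
  rw [← pow_mul, ← pow_add]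
  exact pow_le_pow_right₀ (by linarith) (by omega)

theorem kz_ge (hp : p.OK) (z : List St) :
    (p.L : ℝ) ^ 5 * (p.mb (p.mz z) / 2 ^ p.mz z) ≤ p.kz z := by
  have hL := hp.L_one
  have hb := hp.mb_pos (p.mz z)
  rw [kz, mul_assoc]
  exact le_mul_of_one_le_left (by positivity) (one_le_pow₀ (by linarith))

theorem Om_rt (hp : p.OK) {v : List St} (hr : Rt v) : 128 * p.sh.Om v = 2 ^ p.mN := by
  have := hp.m01; have := hp.m02; have := hp.m03
  have e : p.sh.jN + 2 * p.sh.l = p.mN := hp.jN_eq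
  rw [Sh.Om, if_pos hr, Sh.K, e]
  exact Nat.mul_div_cancel' (pow_dvd_pow 2 (by omega : 7 ≤ p.mN))

theorem Om_nr (hp : p.OK) {v : List St} (h : v ∈ p.sh.kinks) (hr : ¬Rt v) :
    8 * p.sh.Om v = 2 ^ (hd v).j := by
  have h1 := ((Sh.mem_kinks.1 h).1.hd_j hp.fine).1
  have h2 := hp.fine.hl
  rw [Sh.Om, if_neg hr]
  exact Nat.mul_div_cancel' (pow_dvd_pow 2 (by omega : 3 ≤ (hd v).j))

theorem Om_le (hp : p.OK) {v : List St} (h : v ∈ p.sh.kinks) :
    128 * p.sh.Om v ≤ 2 ^ p.mz v := by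
  by_cases hr : Rt v
  · rw [Om_rt hp hr, twt_rt hp h hr]
  · have h1 := ((Sh.mem_kinks.1 h).1.hd_j hp.fine).2.2
    have h2 : 12 ≤ p.l := hp.fine.hl
    have h3 := Om_nr hp h hr
    have h4 : 2 ^ ((hd v).j + 4) ≤ 2 ^ p.mz v :=
      Nat.pow_le_pow_right (by norm_num) (by unfold mz; omega)
    rw [pow_add] at h4
    omega

theorem w_le (hp : p.OK) {z : List St} (h : z ∈ p.sh.kinks) :
    4 * 2 ^ (hd z).j ≤ (hd z).w ∧ 2 ^ 40 * (hd z).w ≤ p.L * 2 ^ (hd z).j ∧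
      2 ^ 40 * p.L * (hd z).w ≤ 2 ^ p.mz z ∧ p.L ≤ 2 ^ (hd z).j := by
  have hO := (Sh.mem_kinks.1 h).1
  obtain ⟨j1, -, j2⟩ := hO.hd_j hp.fine
  have hi : (hd z).i ≤ p.G := by
    cases z with
    | nil => exact absurd rfl hO.ne_nil
    | cons s y => exact hO.hd_side.1
  have h1 : 1 ≤ 256 ^ (hd z).i := Nat.one_le_pow _ _ (by norm_num)
  have h2 : 256 ^ (hd z).i ≤ 256 ^ p.G := Nat.pow_le_pow_right (by norm_num) hi
  have h3 := hp.L_big
  have h4 : 2 ^ 40 * (hd z).w ≤ p.L * 2 ^ (hd z).j := by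
    rw [St.w, ← mul_assoc]
    exact Nat.mul_le_mul_right _ (by omega)
  refine ⟨Nat.mul_le_mul_right _ (by omega), h4, ?_, Nat.pow_le_pow_right (by norm_num) j1⟩
  calc 2 ^ 40 * p.L * (hd z).w = p.L * (2 ^ 40 * (hd z).w) := by ring
    _ ≤ p.L * (p.L * 2 ^ (hd z).j) := Nat.mul_le_mul_left _ h4
    _ = 2 ^ ((hd z).j + 2 * p.l) := by rw [L]; ring
    _ ≤ 2 ^ p.mz z := Nat.pow_le_pow_right (by norm_num) (by unfold mz; omega)

theorem xz_mem (hp : p.OK) {z : List St} (h : z ∈ p.sh.kinks) :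
    ((top z).ep = 1 ∨ (top z).ep = -1) ∧ 2 ^ p.mz z ≤ 2 * ((top z).ep * p.xz z) ∧
      (top z).ep * p.xz z ≤ 2 * 2 ^ p.mz z := by
  have ht := Sh.mem_tops.1 (Sh.mem_kinks.1 h).1.top_mem
  have he : (top z).ep = 1 ∨ (top z).ep = -1 := ht.elim (fun h => h.2.2.2.1) fun h => h.2.2.2.1
  have e : (top z).ep * p.xz z = if (top z).n = 0 then p.x0 else (top z).n * 2 ^ (top z).j := by
    rw [xz, ← mul_assoc]
    rcases he with h | h <;> simp [h]
  refine ⟨he, ?_⟩
  rw [e]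
  split_ifs with h0
  · rw [mz_rt hp h h0]
    exact ⟨hp.x1, hp.x2⟩
  · have h1 := (ht.resolve_right fun h => h0 h.2.1).2.1
    have h2 := (twt_half hp).2
    have h3 : p.sh.L ^ 2 ≤ 2 * (top z).n := by omega
    have e1 : (2 : ℤ) ^ p.mz z = ((p.sh.L ^ 2 : ℕ) : ℤ) * 2 ^ (top z).j := by
      rw [mz, Sh.L]; push_cast; rw [show p.sh.l = p.l from rfl]; ring
    have h4 : ((p.sh.L ^ 2 : ℕ) : ℤ) ≤ 2 * (top z).n := by exact_mod_cast h3
    have h5 : ((top z).n : ℤ) ≤ 2 * ((p.sh.L ^ 2 : ℕ) : ℤ) := by exact_mod_cast h1.2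
    have h6 : (0 : ℤ) < 2 ^ (top z).j := by positivity
    rw [e1]
    constructor <;> nlinarith

theorem ps_ext (hp : p.OK) (hc : p.sh.Conf c) {z : List St} (h : z ∈ p.sh.kinks) :
    32 * |p.ps b c z - p.xz z| ≤ 2 ^ p.mz z := by
  obtain ⟨hO, hlen⟩ := Sh.mem_kinks.1 h
  obtain ⟨l, hl⟩ := twt_split hO.ne_nil
  have ht : [top z] ∈ p.sh.kinks := Sh.mem_kinks.2 ⟨Sh.ok_one.2 hO.top_mem, by simp⟩
  have e0 : ((p.sh.K (top z).j : ℕ) : ℤ) = 2 ^ p.mz z := by rw [Sh.K]; push_cast; rfl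
  have h1 := Sh.ext_top (y0 := p.y0 b) (l := l) hp.fine hc (hl ▸ h) (List.cons_ne_nil _ _)
  have h2 := Sh.ext_top (y0 := p.y0 b) (l := []) hp.fine hc ht (List.cons_ne_nil _ _)
  rw [← hl, top_one, e0] at h1
  rw [List.nil_append, sub_self, abs_zero, zero_add, hd_cons, top_one, e0] at h2
  have h3 : (128 : ℤ) * p.sh.Om [(top z).nd] ≤ 2 ^ p.mz z := by
    exact_mod_cast Om_le hp (mem_filter.1 (Sh.nd_mem ht)).1
  have h4 := abs_le.1 (hc.le [(top z).nd])
  have he := (xz_mem hp h).1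
  have hs := (Sh.mem_kinks.1 ht).1.hd_side.2.2
  have h5 : 64 * |(if (top z).n = 0 then p.y0 b else (top z).n * 2 ^ (top z).j) -
      if (top z).n = 0 then p.x0 else (top z).n * 2 ^ (top z).j| ≤ 2 ^ p.mz z := by
    split_ifs with h0
    · have := hp.m01; have := hp.m02; have := hp.m03
      have e : (2 : ℤ) ^ p.mN = 64 * 2 ^ (p.mN - 6) := by
        rw [show p.mN = 6 + (p.mN - 6) by omega, pow_add]; simp
      rw [mz_rt hp h h0, e, y0]
      split_ifs <;> simp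
    · simp
  have e1 : pos (p.y0 b) c [top z] = (top z).ep *
      ((if (top z).n = 0 then p.y0 b else (top z).n * 2 ^ (top z).j) + c [(top z).nd]) +
      (top z).sg * (top z).w := by simp [pos]
  rw [e1] at h1
  rw [ps, xz]
  generalize (if (top z).n = 0 then p.y0 b else (top z).n * 2 ^ (top z).j) = u at *
  generalize (if (top z).n = 0 then p.x0 else (top z).n * 2 ^ (top z).j) = u' at *
  generalize (2 : ℤ) ^ p.mz z = M at *
  rcases he with he | he <;> rcases hs with hs | hs | hs <;> rw [he, hs] at h1 <;> rw [he] <;>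
    simp only [Int.abs_eq_natAbs] at h1 h5 ⊢ <;> omega

theorem ps_rng (hp : p.OK) (hc : p.sh.Conf c) {z : List St} (h : z ∈ p.sh.kinks) :
    15 * 2 ^ p.mz z ≤ 32 * ((top z).ep * p.ps b c z) ∧
      32 * ((top z).ep * p.ps b c z) ≤ 65 * 2 ^ p.mz z := by
  obtain ⟨he, h1, h2⟩ := xz_mem hp h
  have h3 := ps_ext (b := b) hp hc h
  generalize (2 : ℤ) ^ p.mz z = M at *
  rcases he with he | he <;> rw [he] at h1 h2 ⊢ <;> simp only [Int.abs_eq_natAbs] at h3 <;> omega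

theorem card_K (hp : p.OK) : (p.sh.kinks.card : ℝ) ≤ p.B := by
  refine (twt_card hp).trans (le_trans ?_ hp.bB)
  exact pow_le_pow_right₀ (by linarith [hp.L_one]) (by omega)

theorem card_P (hp : p.OK) : (p.pairs.card : ℝ) ≤ p.B := by
  have h1 : p.pairs.card ≤ p.sh.kinks.card ^ 2 := by
    rw [sq, ← card_product]
    exact card_le_card fun q hq => by
      classical
      exact (mem_filter.1 hq).1
  have h2 : (p.pairs.card : ℝ) ≤ (p.sh.kinks.card : ℝ) ^ 2 := by exact_mod_cast h1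
  refine h2.trans ((pow_le_pow_left₀ (by positivity) (twt_card hp) 2).trans (le_trans ?_ hp.bB))
  rw [← pow_mul]
  exact pow_le_pow_right₀ (by linarith [hp.L_one]) (by omega)

end Par

end

end Pool.Agent.Lib.MMTX
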