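import Pool.Agent.Lib.MP_0dc93f_an.X.TKey
import Pool.Agent.Lib.MP_0dc93f_an.X.TWt

/-! The normal form term: value and second difference. -/

namespace Pool.Agent.Lib.MMTX

open Finset MMTW

noncomputable section

theorem nf_cs (Kc : ℕ) (f0 f1 f2 f3 : ℤ → ℝ) (h0 : ∀ k, 0 ≤ f0 k) (h1 : ∀ k, 0 ≤ f1 k)
    (h2 : ∀ k, 0 ≤ f2 k) (h3 : ∀ k, 0 ≤ f3 k) :
    ∑ k ∈ F4 Kc with De k = 0, f0 (k 0) * f1 (k 1) * f2 (k 2) * f3 (k 3) ≤
      (∑ k ∈ FF Kc, f1 k) * (∑ k ∈ FF Kc, f3 k) *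
        (√(∑ k ∈ FF Kc, f0 k ^ 2) * √(∑ k ∈ FF Kc, f2 k ^ 2)) := by
  set g : ℤ → ℝ := fun k => if k ∈ FF Kc then f2 k else 0 with hg
  have g0 : ∀ k, 0 ≤ g k := fun k => by simp only [hg]; split_ifs <;> simp [h2]
  set G : ℤ × ℤ × ℤ → ℝ := fun x => f1 x.1 * f3 x.2.1 * (f0 x.2.2 * g (x.1 + x.2.1 - x.2.2)) with hG
  set φ : (Fin 4 → ℤ) → ℤ × ℤ × ℤ := fun k => (k 1, k 3, k 0) with hφ
  have inj : Set.InjOn φ ((F4 Kc).filter fun k => De k = 0 : Finset _) := by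
    intro k hk k' hk' e
    replace hk := mem_filter.1 (mem_coe.1 hk)
    replace hk' := mem_filter.1 (mem_coe.1 hk')
    simp only [De] at hk hk'
    simp only [hφ, Prod.mk.injEq] at e
    funext i
    fin_cases i
    · exact e.2.2
    · exact e.1
    · have := hk.2; have := hk'.2; show k 2 = k' 2; omega
    · exact e.2.1
  have inner : ∀ s : ℤ, ∑ k ∈ FF Kc, f0 k * g (s - k) ≤
      √(∑ k ∈ FF Kc, f0 k ^ 2) * √(∑ k ∈ FF Kc, f2 k ^ 2) := fun s => by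
    refine (Real.sum_mul_le_sqrt_mul_sqrt _ _ _).trans
      (mul_le_mul_of_nonneg_left (Real.sqrt_le_sqrt ?_) (Real.sqrt_nonneg _))
    have e : ∑ k ∈ FF Kc, g (s - k) ^ 2 = ∑ k ∈ (FF Kc).image (fun k => s - k), g k ^ 2 :=
      (sum_image (f := fun k => g k ^ 2) fun _ _ _ _ e => by simpa using e).symm
    rw [e]
    calc _ = ∑ k ∈ (FF Kc).image (fun k => s - k) with k ∈ FF Kc, f2 k ^ 2 := by
          rw [sum_filter]
          refine sum_congr rfl fun k _ => ?_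
          simp only [hg]; split_ifs <;> simp
      _ ≤ _ := sum_le_sum_of_subset_of_nonneg (fun k hk => (mem_filter.1 hk).2)
          fun _ _ _ => sq_nonneg _
  calc _ = ∑ k ∈ F4 Kc with De k = 0, G (φ k) := by
        refine sum_congr rfl fun k hk => ?_
        rw [mem_filter] at hk
        have e : k 1 + k 3 - k 0 = k 2 := by have := hk.2; unfold De at this; omega
        have m : k 2 ∈ FF Kc := Fintype.mem_piFinset.1 hk.1 2
        simp only [hG, hφ, e, hg, if_pos m]; ring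
    _ = ∑ x ∈ ((F4 Kc).filter fun k => De k = 0).image φ, G x := (sum_image inj).symm
    _ ≤ ∑ x ∈ FF Kc ×ˢ FF Kc ×ˢ FF Kc, G x := by
        refine sum_le_sum_of_subset_of_nonneg (fun x hx => ?_) fun x _ _ =>
          mul_nonneg (mul_nonneg (h1 _) (h3 _)) (mul_nonneg (h0 _) (g0 _))
        obtain ⟨k, hk, rfl⟩ := mem_image.1 hx
        have m := Fintype.mem_piFinset.1 (mem_filter.1 hk).1
        exact mem_product.2 ⟨m 1, mem_product.2 ⟨m 3, m 0⟩⟩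
    _ ≤ ∑ x ∈ FF Kc, ∑ y ∈ FF Kc, f1 x * f3 y *
          (√(∑ k ∈ FF Kc, f0 k ^ 2) * √(∑ k ∈ FF Kc, f2 k ^ 2)) := by
        rw [sum_product]
        refine sum_le_sum fun x _ => ?_
        rw [sum_product]
        refine sum_le_sum fun y _ => ?_
        simp only [hG]
        rw [← mul_sum]
        exact mul_le_mul_of_nonneg_left (inner _) (mul_nonneg (h1 _) (h3 _))
    _ = _ := by rw [sum_mul_sum, sum_mul]; simp only [sum_mul]

theorem nf_om_mono {α : ℝ} (h : 0 ≤ α) {x y : ℤ} (e : |(x : ℝ)| ≤ |(y : ℝ)|) : om α x ≤ om α y :=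
  Real.rpow_le_rpow (abs_nonneg _) e h

theorem nf_om_gap {α N : ℝ} (h1 : 1 / 2 ≤ α) (h2 : α ≤ 1) (hN : 0 < N) {x y : ℤ}
    (hx : N / 4 ≤ |(x : ℝ)|) (hy : |(y : ℝ)| ≤ N / 64) : N ^ α / 8 ≤ om α x - om α y := by
  have a0 : 0 ≤ α := by linarith
  have hp : 0 < N ^ α := Real.rpow_pos_of_pos hN _
  have e1 : (N / 4) ^ α ≤ om α x := Real.rpow_le_rpow (by positivity) hx a0
  have e2 : om α y ≤ (N / 64) ^ α := Real.rpow_le_rpow (abs_nonneg _) hy a0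
  rw [Real.div_rpow hN.le (by norm_num)] at e1 e2
  have e3 : (4 : ℝ) ^ α ≤ 4 := by
    simpa using Real.rpow_le_rpow_of_exponent_le (x := 4) (by norm_num) h2
  have e4 : (8 : ℝ) ≤ 64 ^ α := by
    have := Real.rpow_le_rpow_of_exponent_le (x := 64) (by norm_num) h1
    rwa [← Real.sqrt_eq_rpow, show (64 : ℝ) = 8 ^ 2 by norm_num,
      Real.sqrt_sq (by norm_num), show (8 : ℝ) ^ 2 = 64 by norm_num] at this
  have e5 : N ^ α / 4 ≤ N ^ α / 4 ^ α := div_le_div_of_nonneg_left hp.le (by positivity) e3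
  have e6 : N ^ α / 64 ^ α ≤ N ^ α / 8 := div_le_div_of_nonneg_left hp.le (by norm_num) e4
  linarith

theorem nf_lo01 (m : ℕ) (k : ℤ) : 0 ≤ lo m k ∧ lo m k ≤ 1 :=
  ⟨le_max_left _ _, max_le zero_le_one (min_le_left _ _)⟩

theorem nf_lo_supp {m : ℕ} {k : ℤ} (h : lo m k ≠ 0) : |(k : ℝ)| < 2 * 2 ^ m := by
  by_contra hc
  apply h
  have hp : (0 : ℝ) < 2 ^ m := by positivity
  have : 2 ≤ |(k : ℝ)| / 2 ^ m := by rw [le_div_iff₀ hp]; exact not_lt.1 hc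
  simp only [lo, trap, Int.cast_zero, sub_zero]
  exact max_eq_left ((min_le_right _ _).trans (by linarith))

/-- the cut off of the normal form symbol -/
def nfw (ms mH : ℕ) (k : Fin 4 → ℤ) : ℝ :=
  lo ms (k 1) * lo ms (k 3) * ((lo mH (k 0) - lo ms (k 0)) * (lo mH (k 2) - lo ms (k 2)))

theorem nfw_le (ms mH : ℕ) (k : Fin 4 → ℤ) : |nfw ms mH k| ≤ 1 := by
  have a (m m' : ℕ) (x : ℤ) : |lo m x - lo m' x| ≤ 1 := by
    have := nf_lo01 m x; have := nf_lo01 m' x; rw [abs_le]; constructor <;> linarith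
  have b (x : ℤ) : |lo ms x| ≤ 1 := by rw [abs_of_nonneg (nf_lo01 _ _).1]; exact (nf_lo01 _ _).2
  simp only [nfw, abs_mul]
  exact mul_le_one₀ (mul_le_one₀ (b _) (abs_nonneg _) (b _)) (by positivity)
    (mul_le_one₀ (a _ _ _) (abs_nonneg _) (a _ _ _))

theorem nf_low (Kc m : ℕ) (a : ℤ → ℂ) :
    (∑ k ∈ FF Kc, if |(k : ℝ)| < 2 * 2 ^ m then ‖a k‖ else 0) ^ 2 ≤
      4 * 2 ^ m * ∑ k ∈ FF Kc, ‖a k‖ ^ 2 := by
  rw [← sum_filter]
  refine sq_sum_le_card_mul_sum_sq.trans (mul_le_mul ?_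
    (sum_le_sum_of_subset_of_nonneg (filter_subset _ _) fun _ _ _ => sq_nonneg _)
    (sum_nonneg fun _ _ => sq_nonneg _) (by positivity))
  have : ((FF Kc).filter fun k : ℤ => |(k : ℝ)| < 2 * 2 ^ m) ⊆
      Ico (-(2 * 2 ^ m : ℤ)) (2 * 2 ^ m) := fun k hk => by
    have h : |k| < 2 * 2 ^ m := by exact_mod_cast (mem_filter.1 hk).2
    rw [abs_lt] at h
    exact mem_Ico.2 ⟨h.1.le, h.2⟩
  have h := card_le_card this
  rw [Int.card_Ico, show (2 * 2 ^ m - -(2 * 2 ^ m) : ℤ) = ((4 * 2 ^ m : ℕ) : ℤ) by push_cast; ring,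
    Int.toNat_natCast] at h
  exact_mod_cast h

namespace Par

variable {p : Par} {a : ℤ → ℂ} {b : Bool} {c : List St → ℤ}

theorem nf_pt (hp : p.OK) {D ρ w P : ℝ} {x0 x1 x2 x3 : ℤ} (hD : |ρ| ≤ D) (hw : |w| ≤ 1)
    (h0 : ρ ≠ 0 → 2 ^ p.mN / 4 ≤ |(x0 : ℝ)|)
    (h1 : w ≠ 0 → |(x1 : ℝ)| < 2 * 2 ^ p.m1 ∧ |(x3 : ℝ)| < 2 * 2 ^ p.m1) (e : x0 + x2 = x1 + x3)
    (hP : P = om p.α x0 - om p.α x1 + om p.α x2 - om p.α x3) (a : ℤ → ℂ) :
    |ρ * w / P| * (‖a x0‖ * ‖a x1‖ * ‖a x2‖ * ‖a x3‖) ≤ 8 * D * ((2 : ℝ) ^ p.mN) ^ (-p.α) *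
      ((if ρ ≠ 0 then ‖a x0‖ else 0) * (if |(x1 : ℝ)| < 2 * 2 ^ p.m1 then ‖a x1‖ else 0) *
        (if 2 ^ p.mN / 16 ≤ br x2 then ‖a x2‖ else 0) *
        if |(x3 : ℝ)| < 2 * 2 ^ p.m1 then ‖a x3‖ else 0) := by
  have D0 : 0 ≤ D := (abs_nonneg _).trans hD
  have hN : (0 : ℝ) < 2 ^ p.mN := by positivity
  by_cases hz : ρ = 0 ∨ w = 0
  · have : ρ * w = 0 := mul_eq_zero.2 hz
    rw [this, zero_div, abs_zero, zero_mul]
    positivity
  push Not at hz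
  obtain ⟨l1, l3⟩ := h1 hz.2
  have l0 := h0 hz.1
  have hm : (256 : ℝ) * 2 ^ p.m1 ≤ 2 ^ p.mN := by
    calc (256 : ℝ) * 2 ^ p.m1 = 2 ^ (p.m1 + 8) := by ring
      _ ≤ _ := pow_le_pow_right₀ (by norm_num) hp.m03
  have e' : (x0 : ℝ) = x1 + x3 - x2 := by
    have : x0 = x1 + x3 - x2 := by omega
    exact_mod_cast this
  have l2 : |(x0 : ℝ)| ≤ |(x1 : ℝ)| + |(x3 : ℝ)| + |(x2 : ℝ)| := by
    rw [e']; exact (abs_sub _ _).trans (add_le_add_left (abs_add_le _ _) _)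
  have g1 := nf_om_gap hp.a1.le hp.a2.le hN l0 (y := x1) (by linarith)
  have g2 := nf_om_mono (α := p.α) (by linarith [hp.a1]) (x := x3) (y := x2) (by linarith)
  have hb : 2 ^ p.mN / 16 ≤ br x2 := by unfold br; linarith
  rw [if_pos hz.1, if_pos l1, if_pos l3, if_pos hb]
  refine mul_le_mul_of_nonneg_right ?_ (by positivity)
  have hq : 0 < ((2 : ℝ) ^ p.mN) ^ p.α := Real.rpow_pos_of_pos hN _
  have hP' : ((2 : ℝ) ^ p.mN) ^ p.α / 8 ≤ P := by rw [hP]; linarith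
  rw [abs_div, abs_mul, abs_of_pos (a := P) (by linarith), Real.rpow_neg hN.le]
  calc _ ≤ D * 1 / (((2 : ℝ) ^ p.mN) ^ p.α / 8) := by gcongr
    _ = _ := by field_simp

theorem nf_gen (hp : p.OK) (ha : p.Amb a) (r : ℤ → ℝ) {D μ : ℝ} (hD : ∀ k, |r k| ≤ D)
    (h0 : ∀ k, r k ≠ 0 → 2 ^ p.mN / 4 ≤ |(k : ℝ)|)
    (hμ : ∑ k ∈ FF p.Kc with r k ≠ 0, ‖a k‖ ^ 2 ≤ μ) :
    |(Qf p.Kc a 0 fun k => (r (k 0) + r (k 2)) * nfw p.m1 p.mH k / Ph p.α k).re| ≤
      80 * D * (((2 : ℝ) ^ p.mN) ^ (-p.α) * 2 ^ p.m1 * p.E) * √(μ * p.mb p.mN) := by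
  have D0 : 0 ≤ D := (abs_nonneg _).trans (hD 0)
  have μ0 : 0 ≤ μ := (sum_nonneg fun _ _ => sq_nonneg _).trans hμ
  set u : ℤ → ℝ := fun k => if r k ≠ 0 then ‖a k‖ else 0 with hu
  set l : ℤ → ℝ := fun k => if |(k : ℝ)| < 2 * 2 ^ p.m1 then ‖a k‖ else 0 with hl
  set h : ℤ → ℝ := fun k => if 2 ^ p.mN / 16 ≤ br k then ‖a k‖ else 0 with hh
  have u0 : ∀ k, 0 ≤ u k := fun k => by simp only [hu]; positivity
  have l0 : ∀ k, 0 ≤ l k := fun k => by simp only [hl]; positivity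
  have hh0 : ∀ k, 0 ≤ h k := fun k => by simp only [hh]; positivity
  have su : √(∑ k ∈ FF p.Kc, u k ^ 2) ≤ √μ := by
    refine Real.sqrt_le_sqrt (le_trans (le_of_eq ?_) hμ)
    rw [sum_filter]
    refine sum_congr rfl fun k _ => ?_
    simp only [hu]; split_ifs <;> simp
  have sh : √(∑ k ∈ FF p.Kc, h k ^ 2) ≤ √(p.mb p.mN) := by
    refine Real.sqrt_le_sqrt (le_trans (le_of_eq ?_) (ha.tail_le p.mN))
    rw [tail, sum_filter]
    refine sum_congr rfl fun k _ => ?_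
    simp only [hh]; split_ifs <;> simp
  have sl : (∑ k ∈ FF p.Kc, l k) * (∑ k ∈ FF p.Kc, l k) ≤ 4 * 2 ^ p.m1 * p.E := by
    rw [← sq]
    exact (nf_low _ _ _).trans (mul_le_mul_of_nonneg_left ha.mass_le (by positivity))
  have E0 : 0 ≤ p.E := by linarith [hp.e1]
  have c1 := (nf_cs p.Kc u l h l u0 l0 hh0 l0).trans (mul_le_mul sl
    (mul_le_mul su sh (Real.sqrt_nonneg _) (Real.sqrt_nonneg _)) (by positivity) (by positivity))
  have c2 := (nf_cs p.Kc h l u l hh0 l0 u0 l0).trans (mul_le_mul sl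
    (mul_le_mul sh su (Real.sqrt_nonneg _) (Real.sqrt_nonneg _)) (by positivity) (by positivity))
  set C : ℝ := 8 * D * ((2 : ℝ) ^ p.mN) ^ (-p.α) with hC
  have C0 : 0 ≤ C := by positivity
  refine (Complex.abs_re_le_norm _).trans ((norm_sum_le _ _).trans ?_)
  calc _ ≤ ∑ k ∈ F4 p.Kc with De k = 0, (C * (u (k 0) * l (k 1) * h (k 2) * l (k 3)) +
        C * (h (k 0) * l (k 1) * u (k 2) * l (k 3))) := by
        refine sum_le_sum fun k hk => ?_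
        have e : k 0 + k 2 = k 1 + k 3 := by have := (mem_filter.1 hk).2; unfold De at this; omega
        have hw : nfw p.m1 p.mH k ≠ 0 →
            |(k 1 : ℝ)| < 2 * 2 ^ p.m1 ∧ |(k 3 : ℝ)| < 2 * 2 ^ p.m1 := fun hw =>
          ⟨nf_lo_supp (left_ne_zero_of_mul (left_ne_zero_of_mul hw)),
            nf_lo_supp (right_ne_zero_of_mul (left_ne_zero_of_mul hw))⟩
        have p1 := nf_pt hp (hD (k 0)) (nfw_le p.m1 p.mH k) (h0 _) hw e (P := Ph p.α k) rfl a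
        have p2 := nf_pt hp (hD (k 2)) (nfw_le p.m1 p.mH k) (h0 _) hw (x2 := k 0) (by omega)
          (P := Ph p.α k) (by unfold Ph; ring) a
        rw [norm_mul, Complex.norm_real, Real.norm_eq_abs]
        simp only [Bq, norm_mul, Complex.norm_conj]
        rw [add_mul, add_div]
        refine (mul_le_mul_of_nonneg_right (abs_add_le _ _) (by positivity)).trans ?_
        rw [add_mul]
        refine add_le_add p1 ?_
        calc _ = |r (k 2) * nfw p.m1 p.mH k / Ph p.α k| *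
              (‖a (k 2)‖ * ‖a (k 1)‖ * ‖a (k 0)‖ * ‖a (k 3)‖) := by ring
          _ ≤ _ := p2
          _ = _ := by simp only [hu, hl, hh, hC]; ring
    _ ≤ C * (4 * 2 ^ p.m1 * p.E * (√μ * √(p.mb p.mN))) +
        C * (4 * 2 ^ p.m1 * p.E * (√(p.mb p.mN) * √μ)) := by
        rw [sum_add_distrib, ← mul_sum, ← mul_sum]
        exact add_le_add (mul_le_mul_of_nonneg_left c1 C0) (mul_le_mul_of_nonneg_left c2 C0)
    _ = 64 * (D * (((2 : ℝ) ^ p.mN) ^ (-p.α) * 2 ^ p.m1 * p.E) * √(μ * p.mb p.mN)) := by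
        rw [Real.sqrt_mul μ0, hC]; ring
    _ ≤ 80 * (D * (((2 : ℝ) ^ p.mN) ^ (-p.α) * 2 ^ p.m1 * p.E) * √(μ * p.mb p.mN)) := by
        gcongr; norm_num
    _ = _ := by ring

theorem nf_val (hp : p.OK) (ha : p.Amb a) {y0 y : ℤ} (h0 : 2 ^ p.mN ≤ 4 * y0)
    (h : 2 ^ p.mN ≤ 4 * y) : |NFv p.α p.Kc a p.m1 p.mH y0 y| ≤
      80 * |(y : ℝ) - y0| * (((2 : ℝ) ^ p.mN) ^ (-p.α) * 2 ^ p.m1 * p.E) * p.mb p.mN := by
  have h0' : (2 : ℝ) ^ p.mN ≤ 4 * y0 := by exact_mod_cast h0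
  have h' : (2 : ℝ) ^ p.mN ≤ 4 * y := by exact_mod_cast h
  have hN : (0 : ℝ) < 2 ^ p.mN := by positivity
  have s : ∀ k : ℤ, rE y k - rE y0 k ≠ 0 → 2 ^ p.mN / 4 ≤ |(k : ℝ)| := fun k hk => by
    by_contra hc
    apply hk
    have := not_le.1 hc
    simp only [rE]
    rw [max_eq_left (by linarith), max_eq_left (by linarith), sub_zero]
  have key := nf_gen hp ha (fun k => rE y k - rE y0 k) (D := |(y : ℝ) - y0|) (μ := p.mb p.mN)
    (fun k => by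
      refine (abs_max_sub_max_le_max _ _ _ _).trans (max_le (by simp) (le_of_eq ?_))
      rw [← abs_neg]; congr 1; ring) s
    (le_trans (sum_le_sum_of_subset_of_nonneg (fun k hk => by
      rw [mem_filter] at hk ⊢
      refine ⟨hk.1, ?_⟩
      have := s k hk.2
      unfold br; linarith) fun _ _ _ => sq_nonneg _) (ha.tail_le p.mN))
  rw [Real.sqrt_mul_self (hp.mb_pos _).le] at key
  exact key

theorem nf_d2 (hp : p.OK) (ha : p.Amb a) (y0 : ℤ) {y : ℤ} {d : ℕ} (h : 2 ^ p.mN ≤ 4 * (y - d))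
    {ms : ℝ} (hs : mB p.Kc a y d + mB p.Kc a (-y) d ≤ ms) :
    |NFv p.α p.Kc a p.m1 p.mH y0 (y + d) + NFv p.α p.Kc a p.m1 p.mH y0 (y - d) -
      2 * NFv p.α p.Kc a p.m1 p.mH y0 y| ≤
      80 * d * (((2 : ℝ) ^ p.mN) ^ (-p.α) * 2 ^ p.m1 * p.E) * √(ms * p.mb p.mN) := by
  have h' : (2 : ℝ) ^ p.mN ≤ 4 * (y - d) := by exact_mod_cast h
  have d0 : (0 : ℝ) ≤ d := Nat.cast_nonneg _
  set r : ℤ → ℝ := fun k => rE (y + d) k + rE (y - d) k - 2 * rE y k with hr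
  have r1 : ∀ k, |r k| ≤ d ∧ (r k ≠ 0 → |(|(k : ℝ)| - y)| ≤ d) := fun k => by
    simp only [hr, rE]
    push_cast
    generalize |(k : ℝ)| = t
    rw [abs_le, abs_le]
    simp only [max_def]
    split_ifs <;> refine ⟨⟨by linarith, by linarith⟩, fun hne => ?_⟩ <;>
      first
        | exact ⟨by linarith, by linarith⟩
        | exact absurd (by ring) hne
  have key := nf_gen hp ha r (D := d) (μ := ms) (fun k => (r1 k).1)
    (fun k hk => by have := (abs_le.1 ((r1 k).2 hk)).1; linarith)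
    (by
      refine le_trans ?_ hs
      simp only [mB, sum_filter, ← sum_add_distrib]
      refine sum_le_sum fun k _ => ?_
      by_cases hk : r k ≠ 0
      · have := (r1 k).2 hk
        rw [if_pos hk]
        rcases abs_cases (k : ℝ) with e | e
        · rw [e.1] at this
          rw [if_pos this]
          exact le_add_of_nonneg_right (by positivity)
        · rw [e.1, ← abs_neg] at this
          rw [if_pos (c := |(k : ℝ) - ((-y : ℤ) : ℝ)| ≤ d) (by push_cast; convert this using 2; ring)]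
          exact le_add_of_nonneg_left (by positivity)
      · rw [if_neg hk]; positivity)
  refine le_trans (le_of_eq ?_) key
  congr 1
  have : (Qf p.Kc a 0 fun k => (r (k 0) + r (k 2)) * nfw p.m1 p.mH k / Ph p.α k) =
      (Qf p.Kc a 0 fun k => nfs p.m1 p.mH y0 (y + d) k / Ph p.α k) +
      (Qf p.Kc a 0 fun k => nfs p.m1 p.mH y0 (y - d) k / Ph p.α k) -
      ((2 : ℝ) : ℂ) * (Qf p.Kc a 0 fun k => nfs p.m1 p.mH y0 y k / Ph p.α k) := by
    simp only [Qf, mul_sum, ← sum_add_distrib, ← sum_sub_distrib]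
    refine sum_congr rfl fun k _ => ?_
    simp only [hr, nfs, nfw]
    push_cast
    ring
  rw [this, Complex.sub_re, Complex.add_re, Complex.re_ofReal_mul]
  rfl

theorem Nf_le (hp : p.OK) (ha : p.Amb a) (hc : p.sh.Conf c) :
    |p.Nf b c a| * p.L ≤ p.S0 := by
  have h1 := hc.le p.r0
  have h2 : 128 * (p.sh.Om p.r0 : ℤ) = 2 ^ p.mN := by
    exact_mod_cast Om_rt hp (v := p.r0) ⟨rfl, rfl⟩
  have h3 : (64 : ℤ) * 2 ^ (p.mN - 6) = 2 ^ p.mN := by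
    have := hp.m03
    rw [show p.mN = 6 + (p.mN - 6) by omega, pow_add]; simp
  have h4 := hp.x1
  rw [abs_le] at h1
  have hN : (0 : ℤ) < 2 ^ p.mN := by positivity
  have e1 : p.y0 true = p.x0 - 2 ^ (p.mN - 6) := rfl
  have e2 : p.y0 b = p.x0 - 2 ^ (p.mN - 6) ∨ p.y0 b = p.x0 + 2 ^ (p.mN - 6) := by
    cases b <;> simp [y0]
  have key := nf_val hp ha (y0 := p.y0 true) (y := p.y0 b + c p.r0) (by omega) (by omega)
  have h5 : 16 * |p.y0 b + c p.r0 - p.y0 true| ≤ 2 ^ p.mN := by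
    rcases abs_cases (p.y0 b + c p.r0 - p.y0 true) with e | e <;> omega
  have h6 : 16 * |((p.y0 b + c p.r0 : ℤ) : ℝ) - p.y0 true| ≤ 2 ^ p.mN := by exact_mod_cast h5
  have L1 : (2 : ℝ) ^ 100 ≤ p.L := hp.L_one
  have E0 : 0 ≤ p.E := by linarith [hp.e1]
  have hB : 5 * p.E * p.L ≤ p.B := by
    have := hp.e2
    have l5 : (5 : ℝ) ≤ p.L := le_trans (by norm_num) L1
    calc 5 * p.E * p.L ≤ p.L * p.L * p.L := by gcongr
      _ = (p.L : ℝ) ^ 3 := by ring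
      _ ≤ (p.L : ℝ) ^ 60 := pow_le_pow_right₀ (by linarith) (by norm_num)
      _ ≤ _ := hp.L_B
  have hs : (1 : ℝ) ≤ √(2 ^ p.mN) := Real.one_le_sqrt.2 (one_le_pow₀ (by norm_num))
  have hF := hp.keyF
  have mb0 := hp.mb_pos p.mN
  have B0 : 0 ≤ p.B := by linarith [hp.B_one]
  set T : ℝ := ((2 : ℝ) ^ p.mN) ^ (-p.α) * 2 ^ p.m1 with hT
  have T0 : 0 ≤ T := by positivity
  have hTB : T * (5 * p.E * p.L) ≤ 1 := by
    calc _ ≤ T * p.B * 1 := by rw [mul_one]; gcongr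
      _ ≤ T * p.B * √(2 ^ p.mN) := by gcongr
      _ ≤ 1 := hF
  calc |p.Nf b c a| * p.L ≤
        80 * |((p.y0 b + c p.r0 : ℤ) : ℝ) - p.y0 true| * (T * p.E) * p.mb p.mN * p.L :=
        mul_le_mul_of_nonneg_right key (Nat.cast_nonneg _)
    _ = 16 * |((p.y0 b + c p.r0 : ℤ) : ℝ) - p.y0 true| * p.mb p.mN * (T * (5 * p.E * p.L)) := by
        ring
    _ ≤ 2 ^ p.mN * p.mb p.mN * 1 := by gcongr
    _ = p.S0 := by rw [mul_one]; rfl

end Par

end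

end Pool.Agent.Lib.MMTX
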