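import Pool.Agent.Lib.MP_0dc93f_an.X.Defs

/-! Ramps: Lipschitz bounds, convexity and pairing. -/

namespace Pool.Agent.Lib.MMTX

open Finset MMTW

noncomputable section

lemma trmp_br (k : ℤ) : |(k : ℝ)| ≤ br k := le_add_of_nonneg_left zero_le_one

lemma trmp_abs (Kc : ℕ) (a : ℤ → ℂ) {ρ : ℤ → ℝ} {c : ℝ} (q : ℤ → Prop) [DecidablePred q]
    (h1 : ∀ k, |ρ k| ≤ c) (h2 : ∀ k, ¬q k → ρ k = 0) :
    |∑ k ∈ FF Kc, ρ k * ‖a k‖ ^ 2| ≤ c * ∑ k ∈ (FF Kc).filter q, ‖a k‖ ^ 2 := by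
  rw [sum_filter, mul_sum]
  refine (abs_sum_le_sum_abs _ _).trans (sum_le_sum fun k _ => ?_)
  split_ifs with h
  · rw [abs_mul, abs_of_nonneg (sq_nonneg ‖a k‖)]
    exact mul_le_mul_of_nonneg_right (h1 k) (sq_nonneg _)
  · simp [h2 k h]

lemma trmp_max (x y : ℝ) : |max 0 x - max 0 y| ≤ |x - y| := by
  rw [max_comm 0 x, max_comm 0 y]; exact abs_max_sub_max_le_abs _ _ _

theorem rq_lip (Kc : ℕ) (a : ℤ → ℂ) {s z z' : ℤ} (hs : s = 1 ∨ s = -1) {R : ℝ}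
    (hz : R ≤ (s * z : ℤ)) (hz' : R ≤ (s * z' : ℤ)) :
    |Rq Kc a (rmp s z') - Rq Kc a (rmp s z)| ≤ |(z' : ℝ) - z| * tail Kc a R := by
  rw [Rq, Rq, ← sum_sub_distrib]
  simp only [← sub_mul]
  refine trmp_abs Kc a _ (fun k => (trmp_max _ _).trans_eq ?_) fun k hk => ?_
  · rcases hs with rfl | rfl
    · rw [abs_sub_comm]; congr 1; push_cast; ring
    · congr 1; push_cast; ring
  · have h1 := abs_lt.1 ((trmp_br k).trans_lt (not_le.1 hk))
    push_cast at hz hz'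
    rw [rmp, rmp, max_eq_left, max_eq_left, sub_zero] <;>
      rcases hs with rfl | rfl <;> push_cast at * <;> linarith [h1.1, h1.2]

lemma trmp_conv (x e : ℝ) : 0 ≤ max 0 (x - e) + max 0 (x + e) - 2 * max 0 x := by
  rcases le_total 0 x with h | h
  · rw [max_eq_right h]; linarith [le_max_right 0 (x - e), le_max_right 0 (x + e)]
  · rw [max_eq_left h]; linarith [le_max_left 0 (x - e), le_max_left 0 (x + e)]

lemma trmp_d2 (Kc : ℕ) (a : ℤ → ℂ) (s z e : ℤ) :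
    Rq Kc a (rmp s (z + e)) + Rq Kc a (rmp s (z - e)) - 2 * Rq Kc a (rmp s z) =
      ∑ k ∈ FF Kc, (max 0 ((s : ℝ) * (k - z) - s * e) + max 0 ((s : ℝ) * (k - z) + s * e) -
        2 * max 0 ((s : ℝ) * (k - z))) * ‖a k‖ ^ 2 := by
  rw [Rq, Rq, Rq, mul_sum, ← sum_add_distrib, ← sum_sub_distrib]
  refine sum_congr rfl fun k _ => ?_
  have e1 : (s : ℝ) * (k - ((z + e : ℤ) : ℝ)) = s * (k - z) - s * e := by push_cast; ring
  have e2 : (s : ℝ) * (k - ((z - e : ℤ) : ℝ)) = s * (k - z) + s * e := by push_cast; ring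
  rw [rmp, rmp, rmp, e1, e2]; ring

theorem rq_conv (Kc : ℕ) (a : ℤ → ℂ) (s z e : ℤ) :
    0 ≤ Rq Kc a (rmp s (z + e)) + Rq Kc a (rmp s (z - e)) - 2 * Rq Kc a (rmp s z) := by
  rw [trmp_d2]
  exact sum_nonneg fun k _ => mul_nonneg (trmp_conv _ _) (sq_nonneg _)

lemma trmp_own {x e h : ℝ} (hx : |x| ≤ h) (he : 2 * h ≤ |e|) :
    h ≤ max 0 (x - e) + max 0 (x + e) - 2 * max 0 x := by
  obtain ⟨h1, h2⟩ := abs_le.1 hx
  have a1 := le_max_left 0 (x - e)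
  have a2 := le_max_right 0 (x - e)
  have a3 := le_max_left 0 (x + e)
  have a4 := le_max_right 0 (x + e)
  rcases le_total 0 x with h | h
  · rw [max_eq_right h]; rcases abs_cases e with g | g <;> linarith [g.1]
  · rw [max_eq_left h]; rcases abs_cases e with g | g <;> linarith [g.1]

theorem rq_own (Kc : ℕ) (a : ℤ → ℂ) {s : ℤ} (hs : s = 1 ∨ s = -1) (z e : ℤ) {h : ℝ} (h0 : 0 ≤ h)
    (he : 2 * h ≤ |(e : ℝ)|) : h * mB Kc a z h ≤
      Rq Kc a (rmp s (z + e)) + Rq Kc a (rmp s (z - e)) - 2 * Rq Kc a (rmp s z) := by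
  have h1 : |(s : ℝ)| = 1 := by rcases hs with rfl | rfl <;> simp
  rw [trmp_d2, mB, sum_filter, mul_sum]
  refine sum_le_sum fun k _ => ?_
  split_ifs with hk
  · refine mul_le_mul_of_nonneg_right (trmp_own ?_ ?_) (sq_nonneg _) <;> rwa [abs_mul, h1, one_mul]
  · rw [mul_zero]; exact mul_nonneg (trmp_conv _ _) (sq_nonneg _)

lemma trmp_pair (x x' e : ℝ) : |max 0 (x - e) - max 0 x + (max 0 (x' + e) - max 0 x')| ≤ |e| := by
  rw [abs_le]
  rcases abs_cases e with g | g <;> rcases max_cases 0 (x - e) with a | a <;>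
    rcases max_cases 0 x with b | b <;> rcases max_cases 0 (x' + e) with c | c <;>
    rcases max_cases 0 x' with d | d <;> constructor <;>
    linarith [g.1, g.2, a.1, a.2, b.1, b.2, c.1, c.2, d.1, d.2]

theorem rq_pair (Kc : ℕ) (a : ℤ → ℂ) {s : ℤ} (hs : s = 1 ∨ s = -1) {z z' e y : ℤ} {r : ℝ}
    (h1 : |(z : ℝ) - y| ≤ r) (h2 : |(z : ℝ) + e - y| ≤ r) (h3 : |(z' : ℝ) - y| ≤ r)
    (h4 : |(z' : ℝ) - e - y| ≤ r) :
    |Rq Kc a (rmp s (z + e)) - Rq Kc a (rmp s z) +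
      (Rq Kc a (rmp s (z' - e)) - Rq Kc a (rmp s z'))| ≤ |(e : ℝ)| * mB Kc a y r := by
  have h0 : |(s : ℝ)| = 1 := by rcases hs with rfl | rfl <;> simp
  rw [Rq, Rq, Rq, Rq, ← sum_sub_distrib, ← sum_sub_distrib, ← sum_add_distrib]
  simp only [← sub_mul, ← add_mul]
  have e1 : ∀ k : ℤ, (s : ℝ) * (k - ((z + e : ℤ) : ℝ)) = s * (k - z) - s * e := fun k => by
    push_cast; ring
  have e2 : ∀ k : ℤ, (s : ℝ) * (k - ((z' - e : ℤ) : ℝ)) = s * (k - z') + s * e := fun k => by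
    push_cast; ring
  simp only [rmp, e1, e2]
  refine trmp_abs Kc a _ (fun k => (trmp_pair _ _ _).trans_eq ?_) fun k hk => ?_
  · rw [abs_mul, h0, one_mul]
  · rw [abs_le] at h1 h2 h3 h4
    rcases lt_abs.1 (not_le.1 hk) with g | g <;> rcases hs with rfl | rfl <;> push_cast
    · rw [max_eq_right, max_eq_right, max_eq_right, max_eq_right] <;> linarith [h1.2, h2.2, h3.2, h4.2]
    · rw [max_eq_left, max_eq_left, max_eq_left, max_eq_left] <;> linarith [h1.2, h2.2, h3.2, h4.2]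
    · rw [max_eq_left, max_eq_left, max_eq_left, max_eq_left] <;> linarith [h1.1, h2.1, h3.1, h4.1]
    · rw [max_eq_right, max_eq_right, max_eq_right, max_eq_right] <;> linarith [h1.1, h2.1, h3.1, h4.1]

theorem rq_even (Kc : ℕ) (a : ℤ → ℂ) {y : ℤ} (hy : 0 ≤ y) :
    Rq Kc a (rE y) = Rq Kc a (rmp 1 y) + Rq Kc a (rmp (-1) (-y)) := by
  have h0 : (0 : ℝ) ≤ y := by exact_mod_cast hy
  rw [Rq, Rq, Rq, ← sum_add_distrib]
  refine sum_congr rfl fun k _ => ?_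
  rw [← add_mul, rE, rmp, rmp]
  congr 1
  push_cast
  rcases abs_cases (k : ℝ) with g | g
  · rw [g.1, one_mul, max_eq_left (a := 0) (b := -1 * ((k : ℝ) - -y)) (by linarith [g.2]), add_zero]
  · rw [g.1, max_eq_left (a := 0) (b := 1 * ((k : ℝ) - y)) (by linarith [g.2]), zero_add]
    congr 1; ring

theorem rE_lip (Kc : ℕ) (a : ℤ → ℂ) {y y' : ℤ} {R : ℝ} (hy : R ≤ y) (hy' : R ≤ y') :
    |Rq Kc a (rE y') - Rq Kc a (rE y)| ≤ |(y' : ℝ) - y| * tail Kc a R := by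
  rw [Rq, Rq, ← sum_sub_distrib]
  simp only [← sub_mul]
  refine trmp_abs Kc a _ (fun k => (trmp_max _ _).trans_eq ?_) fun k hk => ?_
  · rw [abs_sub_comm]; congr 1; ring
  · have h1 := (trmp_br k).trans_lt (not_le.1 hk)
    rw [rE, rE, max_eq_left, max_eq_left, sub_zero] <;> linarith

end

end Pool.Agent.Lib.MMTX
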