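import Pool.Agent.Lib.MP_0dc93f_an.X.TVel
import Pool.Agent.Lib.MP_0dc93f_an.X.TMo
import Pool.Agent.Lib.MP_0dc93f_an.X.TRmp
import Pool.Agent.Lib.MP_0dc93f_an.X.TNf

/-! The value of the functional. -/

namespace Pool.Agent.Lib.MMTX

open Finset MMTW

noncomputable section

namespace Par

variable {p : Par} {a : ℤ → ℂ} {b : Bool} {c : List St → ℤ}

/-- reference value of the ramps other than the root -/
def Ref (p : Par) (a : ℤ → ℂ) : ℝ :=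
  ∑ z ∈ p.sh.kinks with ¬Rt z, p.wz z * Rq p.Kc a (rmp (top z).ep (p.xz z))

theorem env_rt0 (p : Par) : Rt p.r0 := ⟨rfl, rfl⟩

theorem env_rt1 (p : Par) : Rt [⟨p.sh.jN, 0, 0, -1, 0⟩] := ⟨rfl, rfl⟩

theorem env_wz {z : List St} (h : Rt z) : p.wz z = 1 := by
  unfold wz; rw [if_pos h]

theorem env_mz0 (hp : p.OK) : p.mz p.r0 = p.mN := mz_rt hp (r0_mem hp).1 rfl

theorem env_mz1 (hp : p.OK) : p.mz [⟨p.sh.jN, 0, 0, -1, 0⟩] = p.mN := mz_rt hp (r0_mem hp).2 rfl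

theorem env_y (hp : p.OK) (hc : p.sh.Conf c) : 15 * 2 ^ p.mN ≤ 32 * (p.y0 b + c p.r0) := by
  have h := (ps_rng (b := b) hp hc (r0_mem hp).1).1
  rw [env_mz0 hp, (ps_r0 p b c).1] at h
  have e : (top p.r0).ep = 1 := rfl
  rwa [e, one_mul] at h

theorem env_yR (hp : p.OK) (hc : p.sh.Conf c) :
    (2 : ℝ) ^ p.mN / 16 ≤ ((p.y0 b + c p.r0 : ℤ) : ℝ) := by
  have h : ((15 * 2 ^ p.mN : ℤ) : ℝ) ≤ ((32 * (p.y0 b + c p.r0) : ℤ) : ℝ) :=
    Int.cast_le.2 (env_y (b := b) hp hc)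
  have h2 : (0 : ℝ) < 2 ^ p.mN := by positivity
  push_cast at h ⊢
  linarith

theorem Ram_eq (hp : p.OK) (hc : p.sh.Conf c) : p.Ram b c a = Rq p.Kc a (rE (p.y0 b + c p.r0)) +
    ∑ z ∈ p.sh.kinks with ¬Rt z, p.wz z * Rq p.Kc a (rmp (top z).ep (p.ps b c z)) := by
  unfold Ram
  rw [← sum_filter_add_sum_filter_not p.sh.kinks Rt]
  congr 1
  have e : p.sh.kinks.filter Rt = {p.r0, [⟨p.sh.jN, 0, 0, -1, 0⟩]} := by
    ext z
    simp only [mem_filter, mem_insert, mem_singleton]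
    constructor
    · rintro ⟨h1, h2⟩
      exact (rt_iff hp h1).1 h2
    · rintro (rfl | rfl)
      · exact ⟨(r0_mem hp).1, env_rt0 p⟩
      · exact ⟨(r0_mem hp).2, env_rt1 p⟩
  have hne : p.r0 ≠ [⟨p.sh.jN, 0, 0, -1, 0⟩] := by
    unfold r0; simp
  have hy : 0 ≤ p.y0 b + c p.r0 := by
    have h := env_y (b := b) hp hc
    have h2 : (0 : ℤ) < 2 ^ p.mN := by positivity
    omega
  rw [e, sum_pair hne, env_wz (env_rt0 p), env_wz (env_rt1 p), one_mul, one_mul,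
    (ps_r0 p b c).1, (ps_r0 p b c).2, rq_even _ _ hy]
  rfl

theorem env_LB (hp : p.OK) : (p.L : ℝ) ≤ p.B ∧ (4 : ℝ) ≤ p.L := by
  have h1 := hp.L_one
  have h2 := hp.L_B
  have h3 : (4 : ℝ) ≤ p.L := le_trans (by norm_num) h1
  exact ⟨le_trans (le_self_pow₀ (by linarith) (by norm_num)) h2, h3⟩

theorem env_mW (hp : p.OK) (ha : p.Amb a) (hc : p.sh.Conf c) {z : List St}
    (hz : z ∈ p.sh.kinks) : mW p.Kc a (p.win b c z) ≤ p.mb (p.mz z) := by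
  refine mW_le hp ha hc hz ?_
  have h : ((2 ^ 40 * p.L * (hd z).w : ℕ) : ℝ) ≤ ((2 ^ p.mz z : ℕ) : ℝ) :=
    Nat.cast_le.2 (w_le hp hz).2.2.1
  have h1 := (env_LB hp).2
  have h0 : (0 : ℝ) ≤ (hd z).w := Nat.cast_nonneg _
  push_cast at h
  show ((hd z).w : ℝ) ≤ _
  nlinarith [mul_nonneg (sub_nonneg.2 h1) h0]

theorem env_pair (hp : p.OK) (ha : p.Amb a) (hc : p.sh.Conf c) {q : List St × List St}
    (hq : q ∈ p.pairs) :
    |p.Wq q * Mo p.Kc a (p.tq q) (p.win b c q.1) (p.win b c q.2)| * p.B ^ 4 ≤ 4 * p.L * p.S0 := by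
  have hk := (mem_pairs.1 hq).1
  have hw := (pair_win (b := b) hp hc hq).2.1
  have hW := Wq_pos hp q
  have hw2 : ((p.win b c q.1).w : ℝ) ≤ 2 ^ p.mH := by exact_mod_cast hw.w2
  have hw1 : (1 : ℝ) ≤ (p.win b c q.1).w := by exact_mod_cast hw.w1
  have h2 : (0 : ℝ) < 2 ^ p.mH := by positivity
  have h1 := mo_triv p.Kc a (tq_pos hp q).le (p.win b c q.1) (p.win b c q.2) hw.w1
    (hp.lg_le (x := 2 * (p.win b c q.1).w) (by linarith) (by linarith))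
  have h3 : mW p.Kc a (p.win b c q.1) * mW p.Kc a (p.win b c q.2) ≤
      p.mb (p.mz q.1) * p.mb (p.mz q.2) :=
    mul_le_mul (env_mW hp ha hc hk.1) (env_mW hp ha hc hk.2) (mW_nonneg _ _ _) (hp.mb_pos _).le
  have hL : (0 : ℝ) ≤ p.L := Nat.cast_nonneg _
  have hB : 0 ≤ p.B ^ 4 := by positivity
  have h4 := w_val hp hq
  rw [abs_mul, abs_of_pos hW]
  calc p.Wq q * |Mo p.Kc a (p.tq q) (p.win b c q.1) (p.win b c q.2)| * p.B ^ 4
      ≤ p.Wq q * (2 * (2 * p.L) * (p.mb (p.mz q.1) * p.mb (p.mz q.2))) * p.B ^ 4 := by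
        gcongr
        exact h1.trans (by gcongr)
    _ = 4 * p.L * (p.Wq q * (p.mb (p.mz q.1) * p.mb (p.mz q.2)) * p.B ^ 4) := by ring
    _ ≤ 4 * p.L * p.S0 := by gcongr

theorem Ab_le (hp : p.OK) (ha : p.Amb a) (hc : p.sh.Conf c) : |p.Ab b c a| * p.L ≤ p.S0 := by
  obtain ⟨h1, h2⟩ := env_LB hp
  have hS := hp.S0_pos
  have hB : 0 < p.B := by linarith
  have h3 : |p.Ab b c a| * p.B ^ 4 ≤ p.B * (4 * p.L * p.S0) := by
    unfold Ab
    refine (mul_le_mul_of_nonneg_right (abs_sum_le_sum_abs _ _) (by positivity)).trans ?_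
    rw [sum_mul]
    refine (sum_le_card_nsmul _ _ _ fun q hq => env_pair hp ha hc hq).trans ?_
    rw [nsmul_eq_mul]
    exact mul_le_mul_of_nonneg_right (card_P hp) (by positivity)
  have h4 : 4 * (p.L : ℝ) * p.L ≤ p.B ^ 3 := by
    calc 4 * (p.L : ℝ) * p.L ≤ p.B * p.B * p.B := by gcongr; linarith
      _ = p.B ^ 3 := by ring
  refine le_of_mul_le_mul_right ?_ (pow_pos hB 4)
  calc |p.Ab b c a| * p.L * p.B ^ 4 = |p.Ab b c a| * p.B ^ 4 * p.L := by ring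
    _ ≤ p.B * (4 * p.L * p.S0) * p.L := by gcongr
    _ = 4 * p.L * p.L * (p.S0 * p.B) := by ring
    _ ≤ p.B ^ 3 * (p.S0 * p.B) := by gcongr
    _ = p.S0 * p.B ^ 4 := by ring

theorem env_kink (hp : p.OK) (ha : p.Amb a) (hc : p.sh.Conf c) {z : List St}
    (hz : z ∈ p.sh.kinks) (hr : ¬Rt z) :
    |p.wz z * Rq p.Kc a (rmp (top z).ep (p.ps b c z)) -
      p.wz z * Rq p.Kc a (rmp (top z).ep (p.xz z))| ≤ p.η * p.S0 := by
  obtain ⟨hs, hx, -⟩ := xz_mem hp hz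
  have h2 : (0 : ℝ) < 2 ^ p.mz z := by positivity
  have hx' : (2 : ℝ) ^ p.mz z / 16 ≤ (((top z).ep * p.xz z : ℤ) : ℝ) := by
    have h : ((2 ^ p.mz z : ℤ) : ℝ) ≤ ((2 * ((top z).ep * p.xz z) : ℤ) : ℝ) := Int.cast_le.2 hx
    push_cast at h ⊢
    linarith
  have hy' : (2 : ℝ) ^ p.mz z / 16 ≤ (((top z).ep * p.ps b c z : ℤ) : ℝ) := by
    have h : ((15 * 2 ^ p.mz z : ℤ) : ℝ) ≤ ((32 * ((top z).ep * p.ps b c z) : ℤ) : ℝ) :=
      Int.cast_le.2 (ps_rng (b := b) hp hc hz).1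
    push_cast at h ⊢
    linarith
  have h1 := rq_lip p.Kc a hs hx' hy'
  have h3 : |(p.ps b c z : ℝ) - p.xz z| ≤ 2 ^ p.mz z := by
    have h : ((32 * |p.ps b c z - p.xz z| : ℤ) : ℝ) ≤ ((2 ^ p.mz z : ℤ) : ℝ) :=
      Int.cast_le.2 (ps_ext (b := b) hp hc hz)
    push_cast at h
    linarith [abs_nonneg ((p.ps b c z : ℝ) - p.xz z)]
  have ht : 0 ≤ tail p.Kc a (2 ^ p.mz z / 16) := sum_nonneg fun _ _ => by positivity
  have hw := wz_pos hp z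
  have hm := hp.mb_pos (p.mz z)
  have hθ := hp.θ_pos
  have hS := hp.S0_pos
  rw [← mul_sub, abs_mul, abs_of_pos hw]
  calc p.wz z * |Rq p.Kc a (rmp (top z).ep (p.ps b c z)) - Rq p.Kc a (rmp (top z).ep (p.xz z))|
      ≤ p.wz z * (2 ^ p.mz z * p.mb (p.mz z)) := by
        gcongr
        exact h1.trans (mul_le_mul h3 (ha.tail_le _) ht h2.le)
    _ = p.wz z * 2 ^ p.mz z * p.mb (p.mz z) := by ring
    _ ≤ p.θ * p.gg (p.mz z) * p.mb (p.mz z) :=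
        mul_le_mul_of_nonneg_right (wz_mul hp hr) hm.le
    _ = p.θ * (p.gg (p.mz z) * p.mb (p.mz z)) := by ring
    _ ≤ p.η * p.S0 := mul_le_mul hp.θ_le (hp.gg_mb _) (mul_pos (hp.gg_pos _) hm).le hp.h0.le

theorem env_ref (hp : p.OK) (ha : p.Amb a) (hc : p.sh.Conf c) :
    |∑ z ∈ p.sh.kinks with ¬Rt z, p.wz z * Rq p.Kc a (rmp (top z).ep (p.ps b c z)) - p.Ref a| ≤
      p.S0 / p.L := by
  obtain ⟨h1, h2⟩ := env_LB hp
  have hS := hp.S0_pos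
  have hη := hp.h0
  have hB : 0 < p.B := by linarith
  unfold Ref
  rw [← sum_sub_distrib]
  refine (abs_sum_le_sum_abs _ _).trans ?_
  refine (sum_le_card_nsmul _ _ _ fun z hz =>
    env_kink hp ha hc (mem_filter.1 hz).1 (mem_filter.1 hz).2).trans ?_
  have h3 : ((p.sh.kinks.filter fun z => ¬Rt z).card : ℝ) ≤ p.B :=
    le_trans (Nat.cast_le.2 (card_filter_le _ _)) (card_K hp)
  rw [nsmul_eq_mul, le_div_iff₀ (by linarith)]
  calc ((p.sh.kinks.filter fun z => ¬Rt z).card : ℝ) * (p.η * p.S0) * p.L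
      ≤ p.B * (p.η * p.S0) * p.B := by gcongr
    _ = p.η * p.B ^ 2 * p.S0 := by ring
    _ ≤ 1 * p.S0 := by gcongr; exact hp.η_B (by norm_num)
    _ = p.S0 := one_mul _

theorem env_rest (hp : p.OK) (ha : p.Amb a) (hc : p.sh.Conf c) :
    |Sys.sn b * p.Ab b c a| ≤ p.S0 / p.L ∧ |p.Nf b c a| ≤ p.S0 / p.L := by
  have h2 : (0 : ℝ) < p.L := by linarith [(env_LB hp).2]
  refine ⟨?_, (le_div_iff₀ h2).2 (Nf_le hp ha hc)⟩
  have e : |Sys.sn b| = 1 := by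
    unfold Sys.sn; split_ifs <;> simp
  rw [abs_mul, e, one_mul]
  exact (le_div_iff₀ h2).2 (Ab_le hp ha hc)

theorem env_pen (hp : p.OK) (c : List St → ℤ) :
    p.L * (p.mb p.mN / 2 ^ p.mN) * (c p.r0 : ℝ) ^ 2 / 2 ≤ p.pen c := by
  have hm : p.r0 ∈ p.sh.nodes := mem_filter.2 ⟨(r0_mem hp).1, rfl⟩
  have h := single_le_sum (f := fun v => p.wz v * p.ko v * (c v : ℝ) ^ 2 / 2)
    (fun v _ => by have := wz_pos hp v; have := ko_pos hp v; positivity) hm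
  have e : p.ko p.r0 = p.L * (p.mb p.mN / 2 ^ p.mN) := by
    unfold ko; rw [if_pos (env_rt0 p)]
  simp only [env_wz (env_rt0 p), e, one_mul] at h
  exact h

theorem env_root (hp : p.OK) (ha : p.Amb a) (hc : p.sh.Conf c) :
    Rq p.Kc a (rE (p.y0 b + c p.r0)) - p.pen c ≤ Rq p.Kc a (rE (p.y0 b)) + p.S0 / p.L := by
  have hL : (0 : ℝ) < p.L := by linarith [(env_LB hp).2]
  have h0 := env_yR (b := b) hp p.sh.conf_zero
  rw [add_zero] at h0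
  have h1 := rE_lip p.Kc a h0 (env_yR (b := b) hp hc)
  have e : (((p.y0 b + c p.r0 : ℤ) : ℝ)) - p.y0 b = c p.r0 := by push_cast; ring
  rw [e] at h1
  have h2 : |(c p.r0 : ℝ)| * tail p.Kc a (2 ^ p.mN / 16) ≤ |(c p.r0 : ℝ)| * p.mb p.mN :=
    mul_le_mul_of_nonneg_left (ha.tail_le _) (abs_nonneg _)
  have h3 := env_pen hp c
  have hm := hp.mb_pos p.mN
  have hK : (0 : ℝ) < 2 ^ p.mN := by positivity
  have h4 : |(c p.r0 : ℝ)| * p.mb p.mN ≤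
      p.L * (p.mb p.mN / 2 ^ p.mN) * (c p.r0 : ℝ) ^ 2 / 2 + p.S0 / p.L := by
    unfold S0
    rw [← sq_abs (c p.r0 : ℝ)]
    generalize |(c p.r0 : ℝ)| = x
    generalize p.mb p.mN = m at hm
    generalize (2 : ℝ) ^ p.mN = K at hK
    generalize (p.L : ℝ) = L at hL
    have e2 : L * (m / K) * x ^ 2 / 2 + K * m / L - x * m =
        m * ((L * x - K) ^ 2 + K ^ 2) / (2 * K * L) := by
      field_simp
      ring
    have : 0 ≤ m * ((L * x - K) ^ 2 + K ^ 2) / (2 * K * L) := by positivity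
    linarith
  linarith [le_abs_self (Rq p.Kc a (rE (p.y0 b + c p.r0)) - Rq p.Kc a (rE (p.y0 b)))]

theorem phi_up (hp : p.OK) (ha : p.Amb a) (hc : p.sh.Conf c) :
    p.Phi b c a ≤ Rq p.Kc a (rE (p.y0 b)) + p.Ref a + 4 * p.S0 / p.L := by
  have h1 := env_root (b := b) hp ha hc
  have h2 := (abs_le.1 (env_ref (b := b) hp ha hc)).2
  obtain ⟨h3, h4⟩ := env_rest (b := b) hp ha hc
  have h3 := (abs_le.1 h3).2
  have h4 := (abs_le.1 h4).2
  unfold Phi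
  rw [Ram_eq hp hc, mul_div_assoc]
  linarith

theorem phi_lo (hp : p.OK) (ha : p.Amb a) :
    Rq p.Kc a (rE (p.y0 b)) + p.Ref a - 4 * p.S0 / p.L ≤ p.Phi b (fun _ => 0) a := by
  have hc := p.sh.conf_zero
  have h2 := (abs_le.1 (env_ref (b := b) hp ha hc)).1
  obtain ⟨h3, h4⟩ := env_rest (b := b) hp ha hc
  have h3 := (abs_le.1 h3).1
  have h4 := (abs_le.1 h4).1
  have h5 : p.pen (fun _ => 0) = 0 := by simp [pen]
  have h6 : 0 ≤ p.S0 / p.L := div_nonneg hp.S0_pos.le (Nat.cast_nonneg _)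
  unfold Phi
  rw [Ram_eq hp hc, mul_div_assoc, h5, add_zero]
  linarith

end Par

end

end Pool.Agent.Lib.MMTX
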