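import Pool.Agent.Lib.MP_0dc93f_an.X.TVel

/-! The tree of kinks: pairs that move with a node. -/

namespace Pool.Agent.Lib.MMTX

open Finset MMTW

noncomputable section

namespace Par

variable {p : Par} {a : ℤ → ℂ} {b : Bool} {c : List St → ℤ}

/-- a pair that moves with a node which is not at the top -/
theorem mov_loc {s : St} {y : List St} (hy : y ≠ []) {q : List St × List St} (hq : q ∈ p.pairs)
    (hm : sig (s.nd :: y) q.1 ≠ 0 ∨ sig (s.nd :: y) q.2 ≠ 0) :
    p.Loc q.1 q.2 ∧ (∃ l s', q.1 = l ++ s' :: y ∧ s'.j = s.j) ∧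
      ∃ l s', q.2 = l ++ s' :: y ∧ s'.j = s.j := by
  have hy1 := List.length_pos_iff.2 hy
  have key : ∀ z, sig (s.nd :: y) z ≠ 0 → ∃ l s', z = l ++ s' :: y ∧ s'.j = s.j := by
    intro z hz
    obtain ⟨l, s', y', rfl, e⟩ := sig_ne hz
    obtain ⟨e1, rfl⟩ := List.cons.inj e
    exact ⟨l, s', rfl, (congrArg St.j e1).symm⟩
  have tr : ∀ P Q : List St, Q ≠ [] → Q.tail = P.tail → (hd Q).j = (hd P).j →
      (∃ l s', P = l ++ s' :: y ∧ s'.j = s.j) → ∃ l s', Q = l ++ s' :: y ∧ s'.j = s.j := by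
    rintro P Q hQ ht hj ⟨l, s', rfl, e⟩
    obtain ⟨t, Q, rfl⟩ := List.exists_cons_of_ne_nil hQ
    cases l with
    | nil =>
      simp only [List.tail_cons, List.nil_append, hd_cons] at ht hj
      exact ⟨[], t, by rw [ht]; rfl, hj.trans e⟩
    | cons r l =>
      simp only [List.tail_cons, List.cons_append] at ht
      exact ⟨t :: l, s', by rw [ht]; rfl, e⟩
  obtain ⟨⟨h1, h2⟩, -, -, -, h3⟩ := mem_pairs.1 hq
  have n1 := (Sh.mem_kinks.1 h1).1.ne_nil
  have n2 := (Sh.mem_kinks.1 h2).1.ne_nil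
  have hL : p.Loc q.1 q.2 := by
    refine h3.resolve_right fun h => ?_
    rcases hm with hm | hm
    · obtain ⟨l, s', e, -⟩ := key _ hm
      have := h.1
      rw [e] at this
      simp only [List.length_append, List.length_cons] at this; omega
    · obtain ⟨l, s', e, -⟩ := key _ hm
      have := h.2.1
      rw [e] at this
      simp only [List.length_append, List.length_cons] at this; omega
  refine ⟨hL, ?_⟩
  rcases hm with hm | hm
  · exact ⟨key _ hm, tr _ _ n2 hL.2.1 hL.2.2.1 (key _ hm)⟩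
  · exact ⟨tr _ _ n1 hL.2.1.symm hL.2.2.1.symm (key _ hm), key _ hm⟩

/-- scale and depth of a window that moves, and of both windows of a local pair that moves -/
theorem mov_mz {s : St} {y z : List St} (hm : sig (s.nd :: y) z ≠ 0) :
    p.mz z = p.mz (s.nd :: y) ∧ (s.nd :: y).length ≤ z.length := by
  obtain ⟨l, s', y', rfl, e⟩ := sig_ne hm
  obtain ⟨e1, rfl⟩ := List.cons.inj e
  refine ⟨?_, by simp⟩
  unfold mz
  rw [top_append _ (by simp)]
  by_cases hy : y = []
  · subst hy; rw [e1]; rfl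
  · rw [top_cons _ hy, top_cons _ hy]

theorem sig_mem {v z : List St} (hz : z ∈ p.sh.kinks) :
    sig v z = 0 ∨ sig v z = 1 ∨ sig v z = -1 := by
  by_cases h : sig v z = 0
  · exact Or.inl h
  · obtain ⟨l, s, y, rfl, rfl⟩ := sig_ne h
    rw [sig_append]
    exact Or.inr ((Sh.mem_kinks.1 hz).1.of_append (by simp)).hd_side.2.1

theorem ps_mv (p : Par) (b : Bool) (c : List St → ℤ) (v : List St) (d : ℤ) (z : List St) :
    p.ps b (mv c v d) z = p.ps b c z + sig v z * d := pos_mv _ _ _ _ _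

theorem win_mv (p : Par) (b : Bool) (c : List St → ℤ) (v : List St) (d : ℤ) (z : List St) :
    p.win b (mv c v d) z = (p.win b c z).sh (sig v z * d) := by
  unfold win Win.sh
  rw [ps_mv]

theorem pen_mv (p : Par) (c : List St → ℤ) {v : List St} (hv : v ∈ p.sh.nodes) (d : ℤ) :
    p.pen (mv c v d) = p.pen c + p.wz v * p.ko v * (((c v : ℝ) + d) ^ 2 - (c v : ℝ) ^ 2) / 2 := by
  unfold pen
  rw [← add_sum_erase _ _ hv, ← add_sum_erase _ _ hv]
  have e : ∑ x ∈ p.sh.nodes.erase v, p.wz x * p.ko x * (mv c v d x : ℝ) ^ 2 / 2 =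
      ∑ x ∈ p.sh.nodes.erase v, p.wz x * p.ko x * (c x : ℝ) ^ 2 / 2 := by
    refine sum_congr rfl fun x hx => ?_
    simp only [mv, if_neg (mem_erase.1 hx).1, add_zero]
  rw [e]
  simp only [mv, if_true]
  push_cast
  ring

/-- the weight of a local pair -/
theorem Wq_loc (hp : p.OK) {q : List St × List St} (hq : q ∈ p.pairs) (h : p.Loc q.1 q.2) :
    p.Wq q * p.kp (p.mz q.1) * p.B ^ 5 ≤ p.L * p.wz q.1 := by
  obtain ⟨⟨h1, h2⟩, -, -, -, -⟩ := mem_pairs.1 hq
  have n2 := (Sh.mem_kinks.1 h2).1.ne_nil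
  have h3 := (w1 hp hq).1
  have h4 : q.2.length ≠ 1 := by have := (pair_nr hq).2.2; have := h.1; omega
  rw [mq, if_neg h4, (h.eqs n2).2.1] at h3
  have h5 : ((hd q.1).w : ℝ) ≤ p.L * (hd q.2).w := by exact_mod_cast (h.w_le hp h1 h2).1
  have h6 : (0 : ℝ) < (hd q.2).w := by
    have : 0 < (hd q.2).w := by unfold St.w; positivity
    exact_mod_cast this
  have h7 : p.η ^ ((hd q.1).i + (hd q.2).i) ≤ 1 := pow_le_one₀ hp.h0.le hp.η_le
  have h8 := wz_pos hp q.1
  have h9 : p.η ^ ((hd q.1).i + (hd q.2).i) * (p.wz q.1 * (hd q.1).w) ≤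
      p.wz q.1 * (p.L * (hd q.2).w) :=
    (mul_le_of_le_one_left (by positivity) h7).trans (mul_le_mul_of_nonneg_left h5 h8.le)
  have h10 : 0 ≤ p.wz q.1 * (p.L * (hd q.2).w) := by positivity
  refine le_of_mul_le_mul_right ?_ h6
  nlinarith

/-- weights only depend on the labels -/
theorem lab_eq (p : Par) (l : List St) {s s' : St} (y : List St) (hj : s'.j = s.j)
    (hn : s'.n = s.n) : p.mz (l ++ s' :: y) = p.mz (l ++ s :: y) ∧
      p.wz (l ++ s' :: y) = p.wz (l ++ s :: y) ∧ p.kz (l ++ s' :: y) = p.kz (l ++ s :: y) := by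
  have e1 : p.mz (l ++ s' :: y) = p.mz (l ++ s :: y) := by
    unfold mz
    rw [top_append _ (by simp), top_append _ (by simp)]
    by_cases hy : y = []
    · subst hy; simp [hj]
    · rw [top_cons _ hy, top_cons _ hy]
  have e2 : (l ++ s' :: y).length = (l ++ s :: y).length := by simp
  have e3 : Rt (l ++ s' :: y) ↔ Rt (l ++ s :: y) := by
    unfold Rt
    rw [e2]
    cases l with
    | nil => simp [hn]
    | cons r l => simp
  refine ⟨e1, ?_, ?_⟩
  · unfold wz; rw [e1, e2]; simp only [e3]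
  · unfold kz; rw [e1, e2]

theorem nd_eq (p : Par) (z : List St) :
    p.mz (nd z) = p.mz z ∧ p.wz (nd z) = p.wz z ∧ p.kz (nd z) = p.kz z := by
  cases z with
  | nil => exact ⟨rfl, rfl, rfl⟩
  | cons s y => exact p.lab_eq [] y rfl rfl

/-- at most six kinks belong to a node -/
theorem card_own (p : Par) (v : List St) :
    (p.sh.kinks.filter fun z => sig v z ≠ 0 ∧ z.length = v.length).card ≤ 6 := by
  have h : (p.sh.kinks.filter fun z => sig v z ≠ 0 ∧ z.length = v.length) ⊆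
      (({1, -1} : Finset ℤ) ×ˢ ({-1, 0, 1} : Finset ℤ)).image fun e =>
        (⟨(hd v).j, (hd v).n, (hd v).i, e.1, e.2⟩ : St) :: v.tail := by
    intro z hz
    obtain ⟨h1, h2, h3⟩ := mem_filter.1 hz
    obtain ⟨l, s, y, rfl, rfl⟩ := sig_ne h2
    obtain rfl : l = [] := List.length_eq_zero_iff.1 (by simpa using h3)
    have h4 := (Sh.mem_kinks.1 h1).1.hd_side
    refine mem_image.2 ⟨(s.ep, s.sg), ?_, rfl⟩
    simp only [mem_product, mem_insert, mem_singleton]
    exact h4.2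
  exact (card_le_card h).trans (card_image_le.trans (by decide))

end Par

end

end Pool.Agent.Lib.MMTX
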