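import Pool.Agent.Lib.MP_0dc93f_an.X.TCov
import Pool.Agent.Lib.MP_0dc93f_an.X.TMov

/-! Absorbing pairs of the tree. -/

namespace Pool.Agent.Lib.MMTX

open Finset MMTW

noncomputable section

namespace Par

variable {p : Par} {a : ℤ → ℂ} {b : Bool} {c : List St → ℤ}

theorem mW_mq (hp : p.OK) (ha : p.Amb a) (hc : p.sh.Conf c) (hg : p.GF b c a 1) {z : List St}
    (hz : z ∈ p.sh.kinks) : mW p.Kc a (p.win b c z) ≤ p.mq z := by
  obtain ⟨w1, -, w3, -⟩ := w_le hp hz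
  have hL : 1 ≤ p.L := p.sh.L_pos
  have k2 : 8 * (hd z).w ≤ 2 ^ p.mz z :=
    le_trans (Nat.mul_le_mul_right _ (by omega)) w3
  have k3 : 0 < 2 ^ (hd z).j := by positivity
  have k4 : (8 * (hd z).w : ℝ) ≤ 2 ^ p.mz z := by exact_mod_cast k2
  have k5 : (1 : ℝ) ≤ (hd z).w := by exact_mod_cast (by omega : 1 ≤ (hd z).w)
  unfold mq
  split_ifs
  · exact mW_le hp ha hc hz (r := (hd z).w) (by linarith)
  · have h1 := hg z hz (hd z).w (hd z).w k5 le_rfl (by linarith)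
    have h2 := mul_le_mul_of_nonneg_right (kz_le hp hz) (show (0 : ℝ) ≤ (hd z).w by linarith)
    have h3 := mul_pos (hp.kp_pos (p.mz z)) (show (0 : ℝ) < (hd z).w by linarith)
    exact h1.trans (by linarith)

/-- the step one level up -/
def ups (s : St) : St := ⟨s.j, s.n, s.i + 1, s.ep, 0⟩

theorem ups_mem {s : St} {y : List St} (h : s :: y ∈ p.sh.kinks) (hr : ¬Rt (s :: y))
    (hi : s.i < p.G) : ups s :: y ∈ p.sh.kinks := by
  rw [Sh.mem_kinks] at h ⊢
  refine ⟨?_, by simpa using h.2⟩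
  have hG : p.sh.G = p.G := rfl
  by_cases hy : y = []
  · subst hy
    have h1 := Sh.mem_tops.1 (Sh.ok_one.1 h.1)
    have h2 : s.n ≠ 0 := fun h0 => hr ⟨rfl, h0⟩
    refine Sh.ok_one.2 (Sh.mem_tops.2 ?_)
    dsimp only [ups]; omega
  · obtain ⟨h1, h2⟩ := (Sh.ok_cons hy).1 h.1
    refine (Sh.ok_cons hy).2 ⟨h1, ?_⟩
    rw [Sh.mem_kids] at h2 ⊢
    dsimp only [ups]; omega

theorem ups_xz (p : Par) (s : St) (y : List St) : p.xz (ups s :: y) = p.xz (s :: y) := by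
  by_cases hy : y = []
  · subst hy; rfl
  · unfold xz; rw [top_cons _ hy, top_cons _ hy]

theorem src_gen (hp : p.OK) (hc : p.sh.Conf c) (hg : p.GF b c a 1) {Y t W M : ℝ}
    (hY : p.Yv b c a ≤ Y) {s : St} {y : List St} (hz : s :: y ∈ p.sh.kinks) (hr : ¬Rt (s :: y))
    (hs : s.sg = 0) {Q : Win} {i : ℕ} (hi : s.i + i ≤ p.G) (hW : 0 ≤ W) (hQ : mW p.Kc a Q ≤ M)
    (h1 : W * M * p.B ^ 5 ≤ p.η ^ (s.i + i) * (p.wz (s :: y) * s.w))
    (h2 : s.i + i < p.G → W * p.kp (p.mz (s :: y)) * s.w *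
      XX p.Kc a t (p.win b c (ups s :: y)) Q * p.B ^ 5 ≤ Y) :
    p.SrcOK a Y t W (p.win b c (s :: y)) Q := by
  have hB := hp.B_one
  have hη := hp.h0
  have hw := wz_pos hp (s :: y)
  have h3 : W * mW p.Kc a Q * p.B ^ 5 ≤ p.η ^ (s.i + i) * (p.wz (s :: y) * s.w) :=
    le_trans (by gcongr) h1
  obtain ⟨w1, -, w3, -⟩ := w_le hp hz
  rw [hd_cons] at w1 w3
  have hL : 1 ≤ p.L := p.sh.L_pos
  have k2 : s.w ≤ 2 ^ p.mz (s :: y) := le_trans (Nat.le_mul_of_pos_left _ (by omega)) w3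
  have k4 : (s.w : ℝ) ≤ 2 ^ p.mz (s :: y) := by exact_mod_cast k2
  have hθ : p.θ ≤ 1 := hp.θ_le.trans hp.η_le
  have hg0 := hp.gg_pos (p.mz (s :: y))
  have hgl : p.θ * p.gg (p.mz (s :: y)) ≤ 2 ^ p.mN :=
    (mul_le_of_le_one_left hg0.le hθ).trans (hp.gg_le _)
  by_cases hA : s.i + i = p.G
  · refine Or.inl (h3.trans (le_trans ?_ hp.S0_ge))
    rw [hA]
    exact mul_le_mul_of_nonneg_left ((mul_le_mul_of_nonneg_left k4 hw.le).trans
      ((wz_mul hp hr).trans hgl)) (by positivity)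
  have h4 : W * mW p.Kc a Q * p.B ^ 5 ≤ p.wz (s :: y) * s.w :=
    h3.trans (mul_le_of_le_one_left (by positivity) (pow_le_one₀ hη.le hp.η_le))
  by_cases hl : (s :: y).length ≤ p.G
  swap
  · refine Or.inl (h4.trans ((mul_le_mul_of_nonneg_left k4 hw.le).trans (le_trans ?_ hp.S0_ge)))
    have e : (s :: y).length - 1 = p.G := by
      have : (s :: y).length ≤ p.G + 1 := (Sh.mem_kinks.1 hz).2
      omega
    rw [wz, if_neg hr, e, mul_assoc, div_mul_cancel₀ _ (by positivity)]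
    exact mul_le_mul_of_nonneg_left hgl (by positivity)
  obtain ⟨r1, r2⟩ := tvel_rng (b := b) hp hc hz
  have r1' : 15 * (2 : ℤ) ^ p.mz (s :: y) ≤ 32 * |p.ps b c (s :: y)| := by exact_mod_cast r1
  have r2' : 32 * |p.ps b c (s :: y)| ≤ 65 * (2 : ℤ) ^ p.mz (s :: y) := by exact_mod_cast r2
  have k0 : (0 : ℤ) < 2 ^ p.mz (s :: y) := by positivity
  have hu := ups_mem hz hr (by omega)
  refine Or.inr ⟨p.mz (s :: y), p.wz (s :: y), p.win b c (ups s :: y), (mz_mem hp hz).1,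
    (mz_mem hp hz).2, ?_, ?_, ?_, hw, wz_mul hp hr, h4, fun k => ?_, ?_, ?_, h2 (by omega)⟩
  · simp only [win]; omega
  · simp only [win]; omega
  · exact le_trans (Nat.mul_le_mul_right _ (by omega)) w3
  · have hk : s.kk (((k : ℕ) : ℤ) - 1) :: y ∈ p.sh.kinks := by
      rw [Sh.mem_kinks] at hz ⊢
      exact ⟨hz.1.kk hr (by have := k.2; omega), by simpa using hz.2⟩
    obtain ⟨e1, e2, -⟩ := p.lab_eq [] (s := s) (s' := s.kk (((k : ℕ) : ℤ) - 1)) y rfl rfl
    have h5 := act hp hc hg hY hk (by simpa using hl)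
    simp only [List.nil_append] at e1 e2
    rw [e1, e2, ps, pos_kk, hs, sub_zero] at h5
    exact h5
  · have a1 := tvel_c hp hc hz hr
    have a2 := tvel_c hp hc hu hr
    have e : (p.win b c (ups s :: y)).z - (p.win b c (s :: y)).z =
        (ups s).ep * c ((ups s).nd :: y) - s.ep * c (s.nd :: y) := by
      have e0 : pos (p.y0 b) c (ups s :: y) = pos (p.y0 b) c y + s.ep *
          ((if y = [] ∧ s.n = 0 then p.y0 b else s.n * 2 ^ s.j) + c ((ups s).nd :: y)) +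
          0 * ((ups s).w : ℤ) := rfl
      have e1 : (ups s).ep = s.ep := rfl
      simp only [win, ps]
      rw [e0, pos_cons, hs, e1]
      ring
    have w4 : (4 * 2 ^ s.j : ℤ) ≤ s.w := by exact_mod_cast w1
    have a3 := abs_sub ((ups s).ep * c ((ups s).nd :: y)) (s.ep * c (s.nd :: y))
    have a4 : (ups s).j = s.j := rfl
    rw [a4] at a2
    rw [e]
    simp only [win, hd_cons]
    omega
  · simp only [win, hd_cons, St.w, ups, pow_succ]
    exact le_of_eq (by ring)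

theorem up_gain (hp : p.OK) {Y X k : ℝ} {q : List St × List St} (hX : 0 ≤ X)
    (hk : k * p.B ^ 5 ≤ p.η * p.dq q) (h : p.η * p.Zq q * X ≤ Y) :
    p.Wq q * k * X * p.B ^ 5 ≤ Y := by
  have hd := dq_pos hp q
  have hW := Wq_pos hp q
  calc _ = p.Wq q * X * (k * p.B ^ 5) := by ring
    _ ≤ p.Wq q * X * (p.η * p.dq q) := mul_le_mul_of_nonneg_left hk (by positivity)
    _ = p.η * p.Zq q * X := by unfold Wq; field_simp
    _ ≤ Y := h

theorem pair_ok (hp : p.OK) (ha : p.Amb a) (hc : p.sh.Conf c) (hg : p.GF b c a 1) {Y : ℝ}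
    (hY : p.Yv b c a ≤ Y) {q : List St × List St} (hq : q ∈ p.pairs) :
    p.PairOK a Y (p.tq q) (p.Wq q) (p.Zq q) (p.win b c q.1) (p.win b c q.2) := by
  have hd := dq_pos hp q
  have hW := Wq_pos hp q
  have eZ : p.Wq q * p.dq q = p.Zq q := by unfold Wq; field_simp
  obtain ⟨⟨k1, k2⟩, g1, g2, hi, hLT⟩ := mem_pairs.1 hq
  obtain ⟨n1, n2, hl⟩ := pair_nr hq
  have ht := tq_pos hp q
  refine ⟨?_, ?_, ?_, ?_, ?_⟩
  · rw [← eZ]; exact mul_le_mul_of_nonneg_left (pair_vel hp hc hq) hW.le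
  · rw [← eZ, mul_comm _ (p.Wq q), mul_assoc]
    exact mul_le_mul_of_nonneg_left (pair_err hp hc hq) hW.le
  · refine le_trans ?_ (w_val hp hq)
    have m : ∀ z ∈ p.sh.kinks, mW p.Kc a (p.win b c z) ≤ p.mb (p.mz z) := by
      intro z hz
      have w3 := (w_le hp hz).2.2.1
      have hL : 1 ≤ p.L := p.sh.L_pos
      have a1 : 4 * (MMTX.hd z).w ≤ 2 ^ p.mz z := le_trans (Nat.mul_le_mul_right _ (by omega)) w3
      have a2 : (4 * (MMTX.hd z).w : ℝ) ≤ 2 ^ p.mz z := by exact_mod_cast a1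
      exact mW_le hp ha hc hz (r := (MMTX.hd z).w) (by linarith)
    have hB := hp.B_one
    exact mul_le_mul_of_nonneg_right (mul_le_mul_of_nonneg_left (mul_le_mul (m _ k1) (m _ k2)
      (mW_nonneg _ _ _) (hp.mb_pos _).le) hW.le) (by positivity)
  · obtain ⟨P, Q⟩ := q
    obtain ⟨s, y, rfl⟩ := List.exists_cons_of_ne_nil (Sh.mem_kinks.1 k1).1.ne_nil
    refine src_gen hp hc hg hY k1 n1 g1 hi hW.le (mW_mq hp ha hc hg k2) (w1 hp hq).1 fun h => ?_
    have e1 : p.mz (ups s :: y) = p.mz (s :: y) := (p.lab_eq [] (s := s) (s' := ups s) y rfl rfl).1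
    have hq' : (ups s :: y, Q) ∈ p.pairs := by
      refine mem_pairs.2 ⟨⟨ups_mem k1 n1 (by omega), k2⟩, rfl, g2, ?_, ?_⟩
      · simp only [hd_cons, ups] at h ⊢; omega
      · refine hLT.imp id fun h => ?_
        unfold Tpp at h ⊢
        rw [e1, ups_xz]; exact h
    have e2 : p.Zq (ups s :: y, Q) = p.η * p.Zq (s :: y, Q) := by
      unfold Zq
      simp only [e1, hd_cons, List.length_cons, List.tail_cons]
      dsimp only [ups]
      ring
    have h3 := Zq_XX_le hp hY hq'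
    rw [e2] at h3
    rw [mul_assoc (p.Wq _)]
    exact up_gain hp (XX_nonneg _ _ ht _ _) (kp_dq hp hq).1 h3
  · obtain ⟨P, Q⟩ := q
    obtain ⟨s, y, rfl⟩ := List.exists_cons_of_ne_nil (Sh.mem_kinks.1 k2).1.ne_nil
    refine src_gen hp hc hg hY k2 n2 g2 (i := (MMTX.hd P).i) (by simp only [hd_cons] at hi; omega)
      hW.le (mW_mq hp ha hc hg k1) (by rw [add_comm]; exact (w1 hp hq).2) fun h => ?_
    have e1 : p.mz (ups s :: y) = p.mz (s :: y) := (p.lab_eq [] (s := s) (s' := ups s) y rfl rfl).1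
    have hq' : (P, ups s :: y) ∈ p.pairs := by
      refine mem_pairs.2 ⟨⟨k1, ups_mem k2 n2 (by omega)⟩, g1, rfl, ?_, ?_⟩
      · simp only [hd_cons, ups] at h ⊢; omega
      · refine hLT.imp id fun h => ?_
        unfold Tpp at h ⊢
        rw [e1, ups_xz]; exact h
    have e2 : p.Zq (P, ups s :: y) = p.η * p.Zq (P, s :: y) := by
      unfold Zq
      simp only [e1, hd_cons]
      dsimp only [ups]
      ring
    have h3 := Zq_XX_le hp hY hq'
    have e3 : p.tq (P, ups s :: y) = p.tq (P, s :: y) := rfl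
    rw [e2, e3, XX_symm _ _ ht] at h3
    rw [mul_assoc (p.Wq _)]
    exact up_gain hp (XX_nonneg _ _ ht _ _) (kp_dq hp hq).2 h3

end Par

end

end Pool.Agent.Lib.MMTX
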