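import Pool.Agent.Lib.MP_0dc93f_an.X.TGood
import Pool.Agent.Lib.MP_0dc93f_an.X.TSrc
import Pool.Agent.Lib.MP_0dc93f_an.X.TEnv

/-! The tree block. -/

namespace Pool.Agent.Lib.MMTX

open Finset MMTW

noncomputable section

namespace Par

variable {p : Par} {a : ℤ → ℂ} {b : Bool} {c : List St → ℤ}

theorem Psi_eq (hp : p.OK) (c : p.sys.C) : p.sys.Psi p b c a = p.Phi b c.1 a := by
  have h1 : ∑ z : p.sys.K, p.sys.wt z * Rq p.Kc a (rmp (p.sys.sg z) (p.sys.pos b c z)) =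
      ∑ z ∈ p.sh.kinks with ¬Rt z, p.wz z * Rq p.Kc a (rmp (top z).ep (p.ps b c.1 z)) :=
    sum_coe_sort (p.sh.kinks.filter fun z => ¬Rt z)
      fun z => p.wz z * Rq p.Kc a (rmp (top z).ep (p.ps b c.1 z))
  have h2 : ∑ q : p.sys.P, p.sys.W q * Mo p.Kc a (p.sys.t q) (p.sys.P1 b c q) (p.sys.P2 b c q) =
      p.Ab b c.1 a :=
    sum_coe_sort p.pairs
      fun q => p.Wq q * Mo p.Kc a (p.tq q) (p.win b c.1 q.1) (p.win b c.1 q.2)
  unfold Sys.Psi Phi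
  rw [h1, h2, Ram_eq hp c.2]
  rfl

theorem Y_eq (c : p.sys.C) : p.sys.Y p b c a = p.Yv b c.1 a :=
  sum_coe_sort p.pairs
    fun q => p.Zq q * XX p.Kc a (p.tq q) (p.win b c.1 q.1) (p.win b c.1 q.2)

theorem mx_of (hp : p.OK) {c : p.sys.C} (h : p.sys.IsMax p b c a) : p.Mx b c.1 a := by
  refine ⟨c.2, fun d hd => ?_⟩
  have h1 := h ⟨d, hd⟩
  rwa [Psi_eq hp, Psi_eq hp] at h1

theorem nice (hp : p.OK) (ha : p.Amb a) {c : p.sys.C} (h : p.sys.IsMax p b c a) {Y : ℝ}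
    (hY : p.sys.Y p b c a ≤ Y) : p.sys.Nice p b c a Y := by
  have hm := mx_of hp h
  have hg := good hp ha hm
  rw [Y_eq] at hY
  refine ⟨?_, ?_, top_root hp c.2 hY, fun m _ _ => top_cov hp c.2 hY m,
    fun z hz => act hp c.2 hg hY (mem_filter.1 z.2).1 hz, fun q => pair_ok hp ha c.2 hg hY q.2⟩
  · have h1 := act hp c.2 hg hY (r0_mem hp).1 hp.g1
    rwa [env_wz (env_rt0 p), env_mz0 hp, (ps_r0 p b c.1).1] at h1
  · have h1 := act hp c.2 hg hY (r0_mem hp).2 hp.g1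
    rwa [env_wz (env_rt1 p), env_mz1 hp, (ps_r0 p b c.1).2] at h1

theorem env (hp : p.OK) (ha : p.Amb a) : p.sys.Env p a := by
  intro cA cB hA hB
  have h1 := phi_up (b := true) hp ha cA.2
  have h2 := phi_up (b := false) hp ha cB.2
  have h3 := (phi_lo (b := true) hp ha).trans ((mx_of hp hA).2 _ p.sh.conf_zero)
  have h4 := (phi_lo (b := false) hp ha).trans ((mx_of hp hB).2 _ p.sh.conf_zero)
  have e : 8 * p.S0 / p.L = 4 * p.S0 / p.L + 4 * p.S0 / p.L := by ring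
  rw [Psi_eq hp, Psi_eq hp, abs_le, e]
  constructor <;> linarith

end Par

theorem tree_ex (p : Par) (hp : p.OK) : ∃ S : Sys, S.Good p :=
  ⟨p.sys, Par.stat hp, fun _ ha => ⟨fun _ _ h _ hY => Par.nice hp ha h hY, Par.env hp ha⟩⟩

end

end Pool.Agent.Lib.MMTX
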