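import Pool.Agent.Lib.MP_0dc93f_an.X.Der
import Pool.Agent.Lib.MP_0dc93f_an.X.ParEx
import Pool.Agent.Lib.MP_0dc93f_an.X.TreeEx
import Pool.Agent.Lib.MP_0dc93f_an.X.CrudeB

/-! The a priori estimate for all exponents between one half and one. -/

namespace Pool.Agent.Lib.MMTX

open Finset Complex ComplexConjugate MMTW

lemma fin_tail_nonneg (Kc : ℕ) (a : ℤ → ℂ) (R : ℝ) : 0 ≤ tail Kc a R :=
  sum_nonneg fun _ _ => by positivity

lemma fin_tail_anti (Kc : ℕ) (a : ℤ → ℂ) {R R' : ℝ} (h : R ≤ R') : tail Kc a R' ≤ tail Kc a R :=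
  sum_le_sum_of_subset_of_nonneg
    (fun k hk => mem_filter.2 ⟨(mem_filter.1 hk).1, h.trans (mem_filter.1 hk).2⟩)
    fun _ _ _ => by positivity

lemma fin_tail_zero (Kc : ℕ) (a : ℤ → ℂ) {R : ℝ} (h : (Kc : ℝ) + 1 < R) : tail Kc a R = 0 := by
  refine sum_eq_zero fun k hk => ?_
  obtain ⟨h1, h2⟩ := mem_filter.1 hk
  simp only [FF, mem_Icc] at h1
  have h3 : |k| ≤ (Kc : ℤ) := abs_le.2 h1
  have h4 : |(k : ℝ)| ≤ Kc := by exact_mod_cast h3
  simp only [br] at h2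
  linarith

/-- the mass between the two root cuts is comparable with the tail -/
theorem tail_cmp {p : Par} (hp : p.OK) (a : ℤ → ℂ) {N : ℝ} (h1 : N ≤ 2 ^ p.mN)
    (h2 : 2 ^ p.mN ≤ 2 * N) (hx : p.x0 = ⌊3 * N / 2⌋) :
    2 ^ p.mN / 32 * tail p.Kc a (2 * N) ≤
        Rq p.Kc a (rE (p.y0 true)) - Rq p.Kc a (rE (p.y0 false)) ∧
      Rq p.Kc a (rE (p.y0 true)) - Rq p.Kc a (rE (p.y0 false)) ≤
        2 ^ p.mN / 32 * tail p.Kc a N := by
  have m6 : 6 ≤ p.mN := by have := hp.m01; have := hp.m02; have := hp.m03; omega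
  set q : ℝ := 2 ^ (p.mN - 6) with hq
  have e64 : (2 : ℝ) ^ p.mN = 64 * q := by
    rw [hq, show (64 : ℝ) = 2 ^ 6 by norm_num, ← pow_add]; congr 1; omega
  have q1 : 1 ≤ q := one_le_pow₀ (by norm_num)
  have ya : ((p.y0 true : ℤ) : ℝ) = p.x0 - q := by simp [Par.y0, hq]
  have yb : ((p.y0 false : ℤ) : ℝ) = p.x0 + q := by simp [Par.y0, hq]
  have x1 : (p.x0 : ℝ) ≤ 3 * N / 2 := by rw [hx]; exact Int.floor_le _
  have x2 : 3 * N / 2 - 1 < (p.x0 : ℝ) := by rw [hx]; exact Int.sub_one_lt_floor _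
  rw [e64] at h1 h2 ⊢
  have e : Rq p.Kc a (rE (p.y0 true)) - Rq p.Kc a (rE (p.y0 false)) =
      ∑ k ∈ FF p.Kc, (rE (p.y0 true) k - rE (p.y0 false) k) * ‖a k‖ ^ 2 := by
    simp only [Rq, ← sum_sub_distrib, sub_mul]
  rw [e]
  simp only [tail, sum_filter, mul_sum]
  constructor
  · refine sum_le_sum fun k _ => ?_
    have hk : 0 ≤ ‖a k‖ ^ 2 := by positivity
    simp only [rE, ya, yb, br]
    split_ifs with h
    · refine mul_le_mul_of_nonneg_right ?_ hk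
      rw [max_eq_right (by linarith), max_eq_right (by linarith)]
      linarith
    · rw [mul_zero]
      refine mul_nonneg (sub_nonneg.2 (max_le_max le_rfl (by linarith))) hk
  · refine sum_le_sum fun k _ => ?_
    have hk : 0 ≤ ‖a k‖ ^ 2 := by positivity
    simp only [rE, ya, yb, br]
    split_ifs with h
    · refine mul_le_mul_of_nonneg_right ?_ hk
      have := le_max_left (0 : ℝ) (|(k : ℝ)| - (p.x0 + q))
      have := le_max_right (0 : ℝ) (|(k : ℝ)| - (p.x0 + q))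
      rcases le_total 0 (|(k : ℝ)| - (p.x0 - q)) with h0 | h0
      · rw [max_eq_right h0]; linarith
      · rw [max_eq_left h0]; linarith
    · rw [max_eq_left (by linarith), max_eq_left (by linarith)]
      simp

lemma fin_hib {Kc m : ℕ} {a : ℤ → ℂ} {e e' : ℝ} (h : HiB Kc a m e) (he : e ≤ e') : HiB Kc a m e' :=
  fun ζ hζ => (h ζ hζ).trans he

theorem est_all {α : ℝ} (h1 : 1 / 2 < α) (h2 : α < 1) :
    ∃ κ : ℝ, 0 < κ ∧ κ ≤ 1 / 2 ∧ Est α κ := by
  obtain ⟨κ, k0, k1, hpar⟩ := par_ex h1 h2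
  obtain ⟨C, C1, hcr⟩ := crude h1 h2
  refine ⟨κ, k0, k1, fun E T hE hT => ?_⟩
  obtain ⟨n0, hn0⟩ := hpar E C hE C1
  refine ⟨E * 2 ^ (n0 + 1) + 1 + 32 * (16 + T) * (256 * E), ?_⟩
  intro β b1 b2 Kc hK b hb T' t0 t1 ht hK4 N hN
  have N0 : 0 < N := by linarith
  have E0 : 0 < E := by linarith
  have hw : 0 < N ^ (-β - κ) := Real.rpow_pos_of_pos N0 _
  have tT : T' ∈ Set.Icc 0 T' := ⟨t0, le_rfl⟩
  have z0 := fin_tail_nonneg Kc (b 0) N
  have c1 : 0 ≤ E * 2 ^ (n0 + 1) := by positivity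
  have c3 : 0 ≤ 32 * (16 + T) * (256 * E) := by positivity
  have esplit : N ^ (-β - κ) * N ^ κ = N ^ (-β) := by
    rw [← Real.rpow_add N0]; congr 1; ring
  by_cases hs : N ≤ 2 ^ (n0 + 1)
  · have e1 : tail Kc (b T') (2 * N) ≤ E * N ^ (-β) :=
      (fin_tail_anti Kc _ (by linarith)).trans (ht T' tT N N0)
    have e2 : N ^ κ ≤ 2 ^ (n0 + 1) :=
      ((Real.rpow_le_rpow_of_exponent_le hN (by linarith : κ ≤ 1)).trans_eq
        (Real.rpow_one N)).trans hs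
    have e3 : E * N ^ (-β) ≤ E * 2 ^ (n0 + 1) * N ^ (-β - κ) := by
      rw [← esplit, mul_assoc, mul_comm (2 ^ (n0 + 1) : ℝ)]
      exact mul_le_mul_of_nonneg_left (mul_le_mul_of_nonneg_left e2 hw.le) E0.le
    nlinarith
  push Not at hs
  obtain ⟨n, n1, n2⟩ := exists_nat_pow_near hN (by norm_num : (1 : ℝ) < 2)
  have n3 : (2 : ℝ) ^ (n + 1) ≤ 2 * N := by rw [pow_succ]; linarith
  have nn : n0 ≤ n + 1 := by
    have : (2 : ℝ) ^ (n0 + 1) < 2 ^ (n + 1) := hs.trans n2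
    have := (pow_lt_pow_iff_right₀ (by norm_num : (1 : ℝ) < 2)).1 this
    omega
  have N2 : 2 ≤ N := by
    have : (2 : ℝ) ^ 1 ≤ 2 ^ (n0 + 1) := pow_le_pow_right₀ (by norm_num) (by omega)
    linarith
  by_cases hk : 4 * 2 ^ (n + 1) ≤ Kc
  swap
  · have hk' : (Kc : ℝ) < 4 * 2 ^ (n + 1) := by exact_mod_cast not_le.1 hk
    have e : tail Kc (b T') (2 * N) ≤ N ^ (-β - κ) := by
      by_cases h0 : (Kc : ℝ) + 1 < 2 * N
      · rw [fin_tail_zero Kc _ h0]; exact hw.le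
      · push Not at h0
        refine (fin_tail_anti Kc _ (by linarith : (Kc : ℝ) / 16 ≤ 2 * N)).trans
          ((hK4 T' tT).trans ?_)
        calc 1 / (Kc : ℝ) ^ 4 ≤ 1 / N ^ 4 :=
              one_div_le_one_div_of_le (by positivity) (pow_le_pow_left₀ N0.le (by linarith) 4)
          _ = N ^ (-(4 : ℝ)) := by
              rw [Real.rpow_neg N0.le, one_div]; norm_cast
          _ ≤ N ^ (-β - κ) := Real.rpow_le_rpow_of_exponent_le hN (by linarith)
    nlinarith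
  have x1 : 2 ^ (n + 1) ≤ 2 * ⌊3 * N / 2⌋ := by
    have := Int.sub_one_lt_floor (3 * N / 2)
    have h3 : (2 : ℝ) ^ (n + 1) ≤ 2 * (⌊3 * N / 2⌋ : ℤ) := by linarith
    exact_mod_cast h3
  have x2 : ⌊3 * N / 2⌋ ≤ 2 * 2 ^ (n + 1) := by
    have := Int.floor_le (3 * N / 2)
    have h3 : ((⌊3 * N / 2⌋ : ℤ) : ℝ) ≤ 2 * 2 ^ (n + 1) := by linarith
    exact_mod_cast h3
  obtain ⟨p, hp, pa, pb, pE, pK, pN, px, pL, pκ, pε⟩ := hn0 β Kc (n + 1) _ b1 b2 nn hk x1 x2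
  obtain ⟨S, hS⟩ := tree_ex p hp
  have amb : ∀ t ∈ Set.Icc 0 T', p.Amb (b t) := by
    intro t htt
    obtain ⟨r1, r2, r3⟩ := hcr Kc (b t) E β hE b1 b2 (ht t htt)
    have hC2 : C * E ^ 2 ≤ p.L := by
      refine le_trans ?_ pL
      exact mul_le_mul_of_nonneg_left (pow_le_pow_right₀ hE (by norm_num)) (by linarith)
    refine ⟨by rw [pK, pE, pb]; exact ht t htt, fun k => ?_, fun ζ => ?_, ?_⟩
    · rw [pK, pb]
      refine (r1 k).trans (mul_le_mul_of_nonneg_right hC2 (Real.rpow_nonneg ?_ _))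
      simp only [br]; positivity
    · rw [pK]; exact (r2 ζ).trans pL
    · rw [pK]
      rcases pε with h | ⟨h, h'⟩
      · exact fin_hib (r3 p.mH).1 h
      · refine fin_hib (r3 p.mH).2 (le_trans ?_ h')
        have h3 : (Kc : ℝ) ≤ 16 * 2 ^ p.mH := by exact_mod_cast h
        have h4 : tail Kc (b t) (2 ^ p.mH) ≤ 1 / (Kc : ℝ) ^ 4 :=
          (fin_tail_anti Kc _ (by linarith)).trans (hK4 t htt)
        gcongr
  have hc := core hp hS (by rw [pa, pK]; exact hb) t0 amb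
  have u1 := (tail_cmp hp (b T') (by rw [pN]; exact n2.le) (by rw [pN]; exact n3) px).1
  have u2 := (tail_cmp hp (b 0) (by rw [pN]; exact n2.le) (by rw [pN]; exact n3) px).2
  rw [pK] at u1 u2 hc
  have K0 : (0 : ℝ) < 2 ^ p.mN := by positivity
  have L0 : N ^ κ ≤ p.L := (Real.rpow_le_rpow N0.le n2.le k0.le).trans pκ
  have Nk : 0 < N ^ κ := Real.rpow_pos_of_pos N0 _
  have mb : p.mb p.mN ≤ 256 * E * N ^ (-β) := by
    rw [Par.mb, pE, pb, pN]
    have s1 : ((2 : ℝ) ^ (n + 1) / 16) ^ (-β) ≤ (N / 16) ^ (-β) :=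
      Real.rpow_le_rpow_of_nonpos (by positivity) (by linarith) (by linarith)
    have s2 : (N / 16) ^ (-β) ≤ 256 * N ^ (-β) := by
      rw [Real.div_rpow N0.le (by norm_num), Real.rpow_neg (by norm_num : (0 : ℝ) ≤ 16),
        div_inv_eq_mul, mul_comm]
      refine mul_le_mul_of_nonneg_right ?_ (Real.rpow_nonneg N0.le _)
      calc (16 : ℝ) ^ β ≤ 16 ^ (2 : ℝ) := Real.rpow_le_rpow_of_exponent_le (by norm_num) b2
        _ = 256 := by norm_num
    nlinarith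
  have s3 : p.S0 / p.L ≤ 2 ^ p.mN * (256 * E * N ^ (-β - κ)) := by
    rw [div_le_iff₀ (Nk.trans_le L0), Par.S0, mul_assoc]
    refine mul_le_mul_of_nonneg_left (mb.trans ?_) K0.le
    rw [← esplit, ← mul_assoc]
    exact mul_le_mul_of_nonneg_left L0 (by positivity)
  have s4 : (16 + T') * (p.S0 / p.L) ≤ (16 + T) * (2 ^ p.mN * (256 * E * N ^ (-β - κ))) :=
    mul_le_mul (by linarith) s3 (div_nonneg hp.S0_pos.le (Nat.cast_nonneg _)) (by linarith)
  have s5 : 2 ^ p.mN / 32 * tail Kc (b T') (2 * N) ≤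
      2 ^ p.mN / 32 * (tail Kc (b 0) N + 32 * (16 + T) * (256 * E) * N ^ (-β - κ)) := by
    nlinarith
  have s6 := le_of_mul_le_mul_left s5 (by positivity)
  nlinarith

end Pool.Agent.Lib.MMTX
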