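import Pool.Agent.Lib.MP_0dc93f_an.X.Tup

/-! The sextic bound for symbols which depend on the defect, and the geometric lemma. -/

namespace Pool.Agent.Lib.MMTX

open Finset Complex ComplexConjugate MMTW

noncomputable section

variable (Kc : ℕ) (a : ℤ → ℂ)

/-- average of a trigonometric polynomial along a line against the Poisson kernel -/
lemma TP.line {g : ℝ → ℝ} {J : Finset ℤ} {c : ℤ → ℂ} (h : TP g J c) {s : ℝ} (hs : 0 < s) {q : ℤ}
    (x : ℝ) : ((av fun y => Pk s y * g (x + q * y) : ℝ) : ℂ) =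
      ∑ k ∈ J, (Real.exp (-s * |((q * k : ℤ) : ℝ)|) : ℝ) * c k * ex x k := by
  have hP : Continuous fun y => (Pk s y : ℂ) := continuous_ofReal.comp (po_cont hs)
  rw [av_coe]
  have e : (fun y => ((Pk s y * g (x + q * y) : ℝ) : ℂ)) =
      fun y => ∑ k ∈ J, c k * ex x k * ((Pk s y : ℂ) * ex y (q * k)) := by
    ext y
    rw [ofReal_mul, h, Finset.mul_sum]
    refine Finset.sum_congr rfl fun k _ => ?_
    have : ex (q * y) k = ex y (q * k) := by
      unfold ex; congr 1; push_cast; ring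
    rw [ex_add_left, this]
    ring
  rw [e, avc_sum J (fun k y => c k * ex x k * ((Pk s y : ℂ) * ex y (q * k)))
    fun k _ => by fun_prop]
  refine Finset.sum_congr rfl fun k _ => ?_
  rw [avc_smul, avc_po hs]
  ring

lemma av_swap {F : ℝ → ℝ → ℝ} (hF : Continuous fun z : ℝ × ℝ => F z.1 z.2) :
    (av fun x => av fun y => F x y) = av fun y => av fun x => F x y := by
  unfold av
  rw [intervalIntegral.integral_const_mul, intervalIntegral.integral_const_mul]
  congr 2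
  simp only [intervalIntegral.integral_of_le Real.two_pi_pos.le]
  refine MeasureTheory.integral_integral_swap ?_
  rw [MeasureTheory.Measure.prod_restrict]
  exact (hF.continuousOn.integrableOn_compact (isCompact_Icc.prod isCompact_Icc)).mono_set
    (Set.prod_mono Set.Ioc_subset_Icc_self Set.Ioc_subset_Icc_self)

lemma av_cont {F : ℝ → ℝ → ℝ} (hF : Continuous fun z : ℝ × ℝ => F z.1 z.2) :
    Continuous fun x => av fun y => F x y :=
  continuous_const.mul (Dat.cont_inner hF)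

/-- four factors: the slot `i` and one more in sup norm, the two others by a common bound -/
lemma four_le (n : Fin 4 → ℝ) (i : Fin 4) {l D : ℝ} (h0 : ∀ j, 0 ≤ n j) (hl : ∀ j, n j ≤ l)
    (hD : ∀ j, j ≠ i → n j ^ 2 ≤ D) : n 0 * n 1 * n 2 * n 3 ≤ l ^ 2 * D := by
  have key : ∀ i0 i1 i2 i3 : Fin 4, i2 ≠ i → i3 ≠ i → n i0 * n i1 * (n i2 * n i3) ≤ l ^ 2 * D := by
    intro i0 i1 i2 i3 h2 h3
    have l0 : 0 ≤ l := (h0 0).trans (hl 0)
    refine mul_le_mul ?_ ?_ (mul_nonneg (h0 _) (h0 _)) (sq_nonneg _)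
    · rw [sq]; exact mul_le_mul (hl _) (hl _) (h0 _) l0
    · nlinarith [hD i2 h2, hD i3 h3, sq_nonneg (n i2 - n i3)]
  by_cases h : i = 0 ∨ i = 1
  · have := key 0 1 2 3 (by rcases h with h | h <;> simp [h]) (by rcases h with h | h <;> simp [h])
    linarith
  · have := key 2 3 0 1 (fun h1 => h (.inl h1.symm)) fun h1 => h (.inr h1.symm)
    linarith

/-- (FT) the sextic bound -/
theorem ft {m φ : ℤ → ℝ} {f : Fin 4 → ℤ → ℝ} {Am Aφ A s1 s2 s3 t l : ℝ} {P : Win} (Q : Win)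
    (hm : Kern m Am s1) (hφ : Kern φ Aφ s2) (hf : ∀ j, Kern (f j) A s3)
    (hs : ∀ j, Supp (f j) P.z (P.w / 2)) (hw : 1 ≤ P.w)
    (hl : ∀ j, ∑ k ∈ FF Kc, |f j k| * ‖a k‖ ≤ l) (i : Fin 4) (p : ℤ) {q : ℤ} (hq : |q| ≤ 1)
    (h1 : 0 < s1) (h2 : 0 < s2) (h3 : 0 < s3) (ht : 0 < t) (hsum : t + s1 + s2 + s3 ≤ 2) :
    ‖∑ ζ ∈ FF (2 * Kc), ((Real.exp (-t * |(ζ : ℝ)|) * m ζ : ℝ) : ℂ) *
      (Qf Kc a ζ (fun k => φ (p * k i + q * ζ) * pr f k) * conj (mh Kc a Q ζ))‖ ≤
      8 * Am * Aφ * A ^ 2 * l ^ 2 * (1 + (s1 + s2 + s3) / t) * XX Kc a t P Q := by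
  classical
  have Am0 := hm.nonneg h1
  have Aφ0 := hφ.nonneg h2
  have l0 : 0 ≤ l := (Finset.sum_nonneg fun _ _ => by positivity).trans (hl 0)
  set d : ℤ → ℂ := fun ζ => (m ζ : ℂ) * ((Real.exp (-t * |(ζ : ℝ)|) : ℝ) * mh Kc a Q ζ) with hd
  set T : Finset (Σ _ : ℤ, Fin 4 → ℤ) :=
    (FF (2 * Kc)).sigma fun ζ => (F4 Kc).filter fun k => De k = ζ with hT
  have e0 : ∑ ζ ∈ FF (2 * Kc), ((Real.exp (-t * |(ζ : ℝ)|) * m ζ : ℝ) : ℂ) *
      (Qf Kc a ζ (fun k => φ (p * k i + q * ζ) * pr f k) * conj (mh Kc a Q ζ)) =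
      ∑ z ∈ T, (φ (p * z.2 i + q * z.1) : ℂ) * ((pr f z.2 : ℂ) * Bq a z.2 * conj (d z.1)) := by
    rw [hT, Finset.sum_sigma]
    refine Finset.sum_congr rfl fun ζ _ => ?_
    unfold Qf
    rw [Finset.sum_mul, Finset.mul_sum]
    refine Finset.sum_congr rfl fun k _ => ?_
    simp only [hd, map_mul, conj_ofReal, ofReal_mul]
    ring
  set H : ℝ → ℝ := Pc (s1 + t) (mP Kc a Q) with hH
  set G : ℝ → ℝ := Pc s3 (mP Kc a P) with hG
  have tH := (mP_tp Kc a Q).pc (add_pos h1 ht)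
  have tG := (mP_tp Kc a P).pc h3
  have cH : Continuous H := tH.cont
  have cG : Continuous G := tG.cont
  have G0 : ∀ x, 0 ≤ G x := Pc_nonneg h3 (mP_nonneg Kc a P)
  have bd : ∀ x, ‖∑ ζ ∈ FF (2 * Kc), d ζ * ex x ζ‖ ≤ Am * H x := by
    intro x
    have := hm.tp_le h1 ((mP_tp Kc a Q).pc ht) (Pc_nonneg ht (mP_nonneg Kc a Q)) x
    rwa [(mP_tp Kc a Q).pc_pc h1 ht] at this
  have main : ∀ y : ℝ, ‖∑ z ∈ T, (pr f z.2 : ℂ) * Bq a z.2 * conj (d z.1) *
      ex y (-(p * z.2 i + q * z.1))‖ ≤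
      2 * A ^ 2 * l ^ 2 * Am * av fun x => G x * H (x + q * y) := by
    intro y
    set sg : Fin 4 → ℤ := ![-1, 1, -1, 1] with hsg
    set c : Fin 4 → ℤ → ℂ := fun j k =>
      (f j k : ℂ) * a k * if j = i then ex y (sg j * (p * k)) else 1 with hc
    have e1 : ∑ z ∈ T, (pr f z.2 : ℂ) * Bq a z.2 * conj (d z.1) * ex y (-(p * z.2 i + q * z.1)) =
        ∑ ζ ∈ FF (2 * Kc), (∑ k ∈ F4 Kc with De k = ζ,
          c 0 (k 0) * conj (c 1 (k 1)) * c 2 (k 2) * conj (c 3 (k 3))) *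
            conj (d ζ * ex (q * y) ζ) := by
      rw [hT, Finset.sum_sigma]
      refine Finset.sum_congr rfl fun ζ _ => ?_
      rw [Finset.sum_mul]
      refine Finset.sum_congr rfl fun k _ => ?_
      have q1 : conj (ex (q * y) ζ) = ex y (-(q * ζ)) := by
        rw [conj_ex]; unfold ex; congr 1; push_cast; ring
      rw [pr_Bq, neg_add, ex_add, map_mul (starRingEnd ℂ) (d ζ), q1]
      simp only [hc, hsg]
      fin_cases i <;> simp [conj_ex] <;> ring
    rw [e1, quart_avc, ← av_smul]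
    have cV := fun j => cont_tp (FF Kc) (c j)
    have c0 := cV 0
    have c1 := cV 1
    have c2 := cV 2
    have c3 := cV 3
    have c4 := cont_tp (FF (2 * Kc)) fun ζ => d ζ * ex (q * y) ζ
    refine (avc_norm _).trans (av_mono (by fun_prop) (by fun_prop) fun x => ?_)
    have b1 := four_le (fun j => ‖∑ k ∈ FF Kc, c j k * ex x k‖) i (l := l) (D := 2 * A ^ 2 * G x)
      (fun j => norm_nonneg _) (fun j => ?_) fun j hj => ?_
    · have b2 : ‖∑ ζ ∈ FF (2 * Kc), d ζ * ex (q * y) ζ * ex x ζ‖ ≤ Am * H (x + q * y) := by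
        refine le_trans (le_of_eq ?_) (bd (x + q * y))
        congr 1
        refine Finset.sum_congr rfl fun ζ _ => ?_
        rw [ex_add_left]; ring
      simp only [norm_mul, Complex.norm_conj]
      have := mul_le_mul b1 b2 (norm_nonneg _) (by have := G0 x; positivity)
      linarith
    · refine (norm_sum_le _ _).trans (le_trans (le_of_eq ?_) (hl j))
      refine Finset.sum_congr rfl fun k _ => ?_
      simp only [hc]
      split_ifs <;> simp [norm_ex]
    · have := dom Kc a (hf j) h3 hw (hs j) x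
      simpa only [hc, if_neg hj, mul_one, Uf] using this
  have hP := po_cont h2
  have fin : (av fun y => Pk s2 y * av fun x => G x * H (x + q * y)) ≤
      4 * (1 + (s1 + s2 + s3) / t) * XX Kc a t P Q := by
    have e2 : (av fun y => Pk s2 y * av fun x => G x * H (x + q * y)) =
        av fun x => G x * av fun y => Pk s2 y * H (x + q * y) := by
      simp only [← av_smul]
      rw [av_swap (F := fun y x => Pk s2 y * (G x * H (x + q * y))) (by fun_prop)]
      simp only [mul_left_comm]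
    obtain ⟨r, r0, r2, e3⟩ : ∃ r, 0 ≤ r ∧ r ≤ s2 ∧ ∀ x,
        (av fun y => Pk s2 y * H (x + q * y)) = Pc (s1 + t + r) (mP Kc a Q) x := by
      by_cases hq0 : q = 0
      · refine ⟨0, le_rfl, h2.le, fun x => ?_⟩
        simp only [hq0, Int.cast_zero, zero_mul, add_zero, mul_comm _ (H x)]
        rw [av_smul, av_po h2, mul_one]
      · refine ⟨s2, h2.le, le_rfl, fun x => ?_⟩
        apply Complex.ofReal_injective
        rw [tH.line h2, (mP_tp Kc a Q).pc (by linarith : 0 < s1 + t + s2) x]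
        refine Finset.sum_congr rfl fun k _ => ?_
        have q1 : |q| = 1 := by have := abs_pos.2 hq0; omega
        have q2 : |((q * k : ℤ) : ℝ)| = |(k : ℝ)| := by
          rw [← Int.cast_abs, abs_mul, q1, one_mul, Int.cast_abs]
        beta_reduce
        rw [q2, ← mul_assoc, ← ofReal_mul, ← Real.exp_add]
        congr 4
        ring
    rw [e2]
    simp only [e3]
    rw [hG, av_pc_pc Kc a h3 (by linarith)]
    have q3 : 0 ≤ (s1 + s2 + s3) / t := by positivity
    have q4 : (1 + (s1 + s2 + s3) / t) * t = t + s1 + s2 + s3 := by field_simp; ring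
    exact XX_K2 Kc a (by linarith) ht (by linarith) (by linarith) (by linarith)
      (by nlinarith) P Q
  rw [e0]
  refine (hφ.dual h2 T _ _).trans ?_
  have cW : Continuous fun y => ‖∑ z ∈ T, (pr f z.2 : ℂ) * Bq a z.2 * conj (d z.1) *
      ex y (-(p * z.2 i + q * z.1))‖ := by fun_prop
  have cA : Continuous fun y : ℝ => av fun x => G x * H (x + q * y) :=
    av_cont (F := fun y x => G x * H (x + q * y)) (by fun_prop)
  have b3 := av_mono (f := fun y => Pk s2 y * ‖∑ z ∈ T, (pr f z.2 : ℂ) * Bq a z.2 * conj (d z.1) *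
      ex y (-(p * z.2 i + q * z.1))‖)
    (g := fun y => 2 * A ^ 2 * l ^ 2 * Am * (Pk s2 y * av fun x => G x * H (x + q * y)))
    (by fun_prop) (by fun_prop) fun y => by
      have := mul_le_mul_of_nonneg_left (main y) (po_pos h2 y).le
      linarith
  rw [av_smul] at b3
  have b4 := mul_le_mul_of_nonneg_left fin (by positivity : 0 ≤ 2 * A ^ 2 * l ^ 2 * Am)
  have b5 := mul_le_mul_of_nonneg_left (b3.trans b4) Aφ0
  linarith

/-- (Geo) an almost resonant quadruple with a large spread has two separated pairs -/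
theorem geo (c : Fin 4 → ℝ) {δ s : ℝ} (h : |c 0 - c 1 + c 2 - c 3| ≤ δ) {i j : Fin 4}
    (hs : s ≤ |c i - c j|) :
    ((s - δ) / 2 - δ ≤ |c 0 - c 1| ∧ (s - δ) / 2 - δ ≤ |c 2 - c 3|) ∨
      ((s - δ) / 2 - δ ≤ |c 0 - c 3| ∧ (s - δ) / 2 - δ ≤ |c 1 - c 2|) := by
  by_contra hn
  simp only [not_or, not_and_or, not_le] at hn
  obtain ⟨h1, h2⟩ := hn
  have a0 := abs_le.1 h
  have d0 : 0 ≤ δ := (abs_nonneg _).trans h
  have b1 : |c 0 - c 1| < (s - δ) / 2 ∧ |c 2 - c 3| < (s - δ) / 2 := by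
    rcases h1 with h1 | h1 <;> have := abs_lt.1 h1 <;> constructor <;> rw [abs_lt] <;>
      constructor <;> linarith
  have b2 : |c 0 - c 3| < (s - δ) / 2 ∧ |c 1 - c 2| < (s - δ) / 2 := by
    rcases h2 with h2 | h2 <;> have := abs_lt.1 h2 <;> constructor <;> rw [abs_lt] <;>
      constructor <;> linarith
  have p1 := abs_lt.1 b1.1
  have p2 := abs_lt.1 b1.2
  have p3 := abs_lt.1 b2.1
  have p4 := abs_lt.1 b2.2
  have : |c i - c j| < s := by
    rw [abs_lt]
    fin_cases i <;> fin_cases j <;> simp <;> (try constructor) <;> linarith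
  linarith

end

end Pool.Agent.Lib.MMTX
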