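import Pool.Agent.Lib.MP_0dc93f_an.X.Poi

/-! Multipliers of class `HC`: algebra, examples and the kernel bound. -/

namespace Pool.Agent.Lib.MMTX

open Finset Complex ComplexConjugate MMTW

noncomputable section

namespace HC

variable {u u' S S' : ℝ} {f g : ℤ → ℝ}

lemma nonneg (h : HC u S f) : 0 ≤ S := (abs_nonneg _).trans (h.sup 0)

lemma mono (h : HC u S f) (hu : 0 < u') (h1 : u' ≤ u) (h2 : S ≤ S') : HC u' S' f := by
  have h0 := h.nonneg
  have e : S / u ≤ S' / u' := div_le_div₀ (by linarith) h2 hu h1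
  exact ⟨fun k => (h.sup k).trans h2, fun k => (h.lip k).trans e, fun J => (h.tv J).trans h2,
    fun J => (h.v2 J).trans e⟩

lemma const (hu : 0 < u) {c : ℝ} (h : |c| ≤ S) : HC u S fun _ => c := by
  have h0 : 0 ≤ S := (abs_nonneg _).trans h
  have h1 : 0 ≤ S / u := by positivity
  refine ⟨fun _ => h, fun _ => by simpa using h1, fun J => by simpa using h0, fun J => ?_⟩
  have : c - 2 * c + c = 0 := by ring
  simpa [this] using h1

lemma add (hf : HC u S f) (hg : HC u S' g) : HC u (S + S') fun k => f k + g k := by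
  refine ⟨fun k => (abs_add_le _ _).trans (add_le_add (hf.sup k) (hg.sup k)), fun k => ?_,
    fun J => ?_, fun J => ?_⟩
  · have e : f (k + 1) + g (k + 1) - (f k + g k) = (f (k + 1) - f k) + (g (k + 1) - g k) := by
      ring
    rw [e, add_div]
    exact (abs_add_le _ _).trans (add_le_add (hf.lip k) (hg.lip k))
  · refine le_trans ?_ (add_le_add (hf.tv J) (hg.tv J))
    rw [← Finset.sum_add_distrib]
    refine Finset.sum_le_sum fun k _ => le_trans (le_of_eq ?_) (abs_add_le _ _)
    congr 1; ring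
  · rw [add_div]
    refine le_trans ?_ (add_le_add (hf.v2 J) (hg.v2 J))
    rw [← Finset.sum_add_distrib]
    refine Finset.sum_le_sum fun k _ => le_trans (le_of_eq ?_) (abs_add_le _ _)
    congr 1; ring

lemma smul (hf : HC u S f) (c : ℝ) : HC u (|c| * S) fun k => c * f k := by
  have hc := abs_nonneg c
  refine ⟨fun k => ?_, fun k => ?_, fun J => ?_, fun J => ?_⟩
  · rw [abs_mul]; exact mul_le_mul_of_nonneg_left (hf.sup k) hc
  · rw [← mul_sub, abs_mul, mul_div_assoc]; exact mul_le_mul_of_nonneg_left (hf.lip k) hc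
  · refine le_trans (le_of_eq ?_) (mul_le_mul_of_nonneg_left (hf.tv J) hc)
    rw [Finset.mul_sum]
    exact Finset.sum_congr rfl fun k _ => by rw [← mul_sub, abs_mul]
  · rw [mul_div_assoc]
    refine le_trans (le_of_eq ?_) (mul_le_mul_of_nonneg_left (hf.v2 J) hc)
    rw [Finset.mul_sum]
    refine Finset.sum_congr rfl fun k _ => ?_
    rw [← abs_mul]; congr 1; ring

lemma neg (hf : HC u S f) : HC u S fun k => -f k := by
  simpa using hf.smul (-1)

lemma sub (hf : HC u S f) (hg : HC u S' g) : HC u (S + S') fun k => f k - g k := by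
  simpa [sub_eq_add_neg] using hf.add hg.neg

lemma congr (hf : HC u S f) (h : ∀ k, g k = f k) : HC u S g := by
  rwa [show g = f from funext h]

lemma sum {ι : Type} (hu : 0 < u) (s : Finset ι) {F : ι → ℤ → ℝ} {T : ι → ℝ}
    (h : ∀ i ∈ s, HC u (T i) (F i)) : HC u (∑ i ∈ s, T i) fun k => ∑ i ∈ s, F i k := by
  classical
  induction s using Finset.induction_on with
  | empty => simpa using const (S := 0) (c := 0) hu (by simp)
  | insert i s hi ih =>
    simp only [Finset.sum_insert hi]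
    exact (h i (Finset.mem_insert_self _ _)).add
      (ih fun j hj => h j (Finset.mem_insert_of_mem hj))

lemma sum_shift (F : ℤ → ℝ) (J : Finset ℤ) (p : ℤ) :
    ∑ k ∈ J, F (k + p) = ∑ k ∈ J.map (addRightEmbedding p), F k := by
  rw [Finset.sum_map]; rfl

lemma shift (hf : HC u S f) (p : ℤ) : HC u S fun k => f (k + p) := by
  refine ⟨fun k => hf.sup _, fun k => ?_, fun J => ?_, fun J => ?_⟩
  · rw [add_right_comm]; exact hf.lip _
  · refine le_trans (le_of_eq ?_) (hf.tv (J.map (addRightEmbedding p)))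
    rw [← sum_shift fun k => |f (k + 1) - f k|]
    exact Finset.sum_congr rfl fun k _ => by rw [add_right_comm]
  · refine le_trans (le_of_eq ?_) (hf.v2 (J.map (addRightEmbedding p)))
    rw [← sum_shift fun k => |f (k + 2) - 2 * f (k + 1) + f k|]
    exact Finset.sum_congr rfl fun k _ => by rw [add_right_comm k 2, add_right_comm k 1]

lemma shift' (hf : HC u S f) (p : ℤ) : HC u S fun k => f (k - p) := by
  simpa [sub_eq_add_neg] using hf.shift (-p)

lemma refl (hf : HC u S f) : HC u S fun k => f (-k) := by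
  refine ⟨fun k => hf.sup _, fun k => ?_, fun J => ?_, fun J => ?_⟩
  · have := hf.lip (-(k + 1))
    rwa [show -(k + 1) + 1 = -k by ring, abs_sub_comm] at this
  · refine le_trans (le_of_eq ?_) (hf.tv (J.image fun k => -(k + 1)))
    rw [Finset.sum_image fun a _ b _ h => by simpa using h]
    refine Finset.sum_congr rfl fun k _ => ?_
    rw [show -(k + 1) + 1 = -k by ring, abs_sub_comm]
  · refine le_trans (le_of_eq ?_) (hf.v2 (J.image fun k => -(k + 2)))
    rw [Finset.sum_image fun a _ b _ h => by simpa using h]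
    refine Finset.sum_congr rfl fun k _ => ?_
    rw [show -(k + 2) + 2 = -k by ring, show -(k + 2) + 1 = -(k + 1) by ring]
    congr 1; ring

/-- the product rule -/
theorem mul (hf : HC u S f) (hg : HC u S' g) (hu : 0 < u) :
    HC u (4 * S * S') fun k => f k * g k := by
  have a := hf.nonneg
  have b := hg.nonneg
  have ab : 0 ≤ S * S' := mul_nonneg a b
  have a' : 0 ≤ S / u := by positivity
  have b' : 0 ≤ S' / u := by positivity
  have d1 : ∀ k, |f (k + 1) * g (k + 1) - f k * g k| ≤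
      S * |g (k + 1) - g k| + S' * |f (k + 1) - f k| := by
    intro k
    have e : f (k + 1) * g (k + 1) - f k * g k =
        f (k + 1) * (g (k + 1) - g k) + g k * (f (k + 1) - f k) := by ring
    rw [e]
    refine (abs_add_le _ _).trans (add_le_add ?_ ?_) <;> rw [abs_mul]
    · exact mul_le_mul_of_nonneg_right (hf.sup _) (abs_nonneg _)
    · exact mul_le_mul_of_nonneg_right (hg.sup _) (abs_nonneg _)
  have q : 4 * S * S' / u = 2 * (S * (S' / u)) + 2 * (S' * (S / u)) := by
    field_simp; ring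
  refine ⟨fun k => ?_, fun k => ?_, fun J => ?_, fun J => ?_⟩
  · rw [abs_mul]
    nlinarith [mul_le_mul (hf.sup k) (hg.sup k) (abs_nonneg _) a]
  · refine (d1 k).trans ?_
    rw [q]
    nlinarith [mul_le_mul_of_nonneg_left (hg.lip k) a, mul_le_mul_of_nonneg_left (hf.lip k) b,
      mul_nonneg a b', mul_nonneg b a']
  · refine (Finset.sum_le_sum fun k _ => d1 k).trans ?_
    rw [Finset.sum_add_distrib, ← Finset.mul_sum, ← Finset.mul_sum]
    nlinarith [mul_le_mul_of_nonneg_left (hg.tv J) a, mul_le_mul_of_nonneg_left (hf.tv J) b]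
  · have d2 : ∀ k, |f (k + 2) * g (k + 2) - 2 * (f (k + 1) * g (k + 1)) + f k * g k| ≤
        S * |g (k + 2) - 2 * g (k + 1) + g k| + S' * |f (k + 2) - 2 * f (k + 1) + f k| +
          (S / u * |g (k + 1 + 1) - g (k + 1)| + S' / u * |f (k + 1) - f k|) := by
      intro k
      have e : f (k + 2) * g (k + 2) - 2 * (f (k + 1) * g (k + 1)) + f k * g k =
          f (k + 1) * (g (k + 2) - 2 * g (k + 1) + g k) +
            g (k + 1) * (f (k + 2) - 2 * f (k + 1) + f k) +
          ((f (k + 1 + 1) - f (k + 1)) * (g (k + 1 + 1) - g (k + 1)) +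
            (g (k + 1) - g k) * (f (k + 1) - f k)) := by
        rw [show k + 1 + 1 = k + 2 by ring]; ring
      rw [e]
      refine (abs_add_le _ _).trans (add_le_add ((abs_add_le _ _).trans (add_le_add ?_ ?_))
        ((abs_add_le _ _).trans (add_le_add ?_ ?_))) <;> rw [abs_mul]
      · exact mul_le_mul_of_nonneg_right (hf.sup _) (abs_nonneg _)
      · exact mul_le_mul_of_nonneg_right (hg.sup _) (abs_nonneg _)
      · exact mul_le_mul_of_nonneg_right (hf.lip _) (abs_nonneg _)
      · exact mul_le_mul_of_nonneg_right (hg.lip _) (abs_nonneg _)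
    refine (Finset.sum_le_sum fun k _ => d2 k).trans ?_
    rw [Finset.sum_add_distrib, Finset.sum_add_distrib, Finset.sum_add_distrib,
      ← Finset.mul_sum, ← Finset.mul_sum, ← Finset.mul_sum, ← Finset.mul_sum, q]
    have t1 := (hg.shift 1).tv J
    have e1 : S / u * S' = S * (S' / u) := by field_simp
    have e2 : S' / u * S = S' * (S / u) := by field_simp
    nlinarith [mul_le_mul_of_nonneg_left (hg.v2 J) a, mul_le_mul_of_nonneg_left (hf.v2 J) b,
      mul_le_mul_of_nonneg_left t1 a', mul_le_mul_of_nonneg_left (hf.tv J) b']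

/-- powers -/
lemma pow (hf : HC u S f) (hu : 0 < u) (n : ℕ) :
    HC u ((4 * S) ^ n * S) fun k => f k ^ (n + 1) := by
  induction n with
  | zero => simpa using hf
  | succ n ih =>
    have := ih.mul hf hu
    rw [show 4 * ((4 * S) ^ n * S) * S = (4 * S) ^ (n + 1) * S by ring] at this
    exact this.congr fun k => by ring

/-- (K1) the kernel bound -/
theorem kern (hf : HC u S f) (hu : 0 < u) {σ : ℝ} (J : Finset ℤ) (hJ : ∀ k, f k ≠ 0 → k ∈ J)
    (hc : (J.card : ℝ) ≤ σ * u) : Kern f ((σ + 1) * S) (1 / u) := by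
  have hS := hf.nonneg
  have ht : 0 < 1 / u := by positivity
  refine ⟨J, hJ, fun x => ?_⟩
  set F : ℂ := ∑ k ∈ J, (f k : ℂ) * ex x k with hF
  have b1 : ‖F‖ ≤ σ * u * S := by
    refine (norm_sum_le _ _).trans ?_
    have : ∀ k ∈ J, ‖(f k : ℂ) * ex x k‖ ≤ S := fun k _ => by
      rw [norm_mul, norm_ex, mul_one, Complex.norm_real, Real.norm_eq_abs]; exact hf.sup k
    refine (Finset.sum_le_card_nsmul _ _ _ this).trans ?_
    rw [nsmul_eq_mul]
    exact mul_le_mul_of_nonneg_right hc hS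
  set J2 : Finset ℤ := J ∪ J.image (· - 1) ∪ J.image (· - 2) with hJ2
  have sh : ∀ p : ℤ, (∀ k, f (k + p) ≠ 0 → k ∈ J2) → (∀ k ∈ J, k - p ∈ J2) →
      ∑ k ∈ J2, (f (k + p) : ℂ) * ex x (k + p) = F := by
    intro p h1 h2
    rw [hF]
    refine Finset.sum_bij_ne_zero (fun k _ _ => k + p) ?_ ?_ ?_ ?_
    · intro k _ h
      exact hJ _ fun h0 => h (by rw [h0]; simp)
    · intro k _ _ l _ _ h
      exact add_right_cancel h
    · intro l hl h
      exact ⟨l - p, h2 l hl, by simpa using h, by ring⟩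
    · intro k _ _
      rfl
  have m0 : ∀ k ∈ J, k - 0 ∈ J2 := fun k hk => by simp [hJ2, hk]
  have m1 : ∀ k ∈ J, k - 1 ∈ J2 := fun k hk =>
    Finset.mem_union_left _ (Finset.mem_union_right _ (Finset.mem_image_of_mem _ hk))
  have m2 : ∀ k ∈ J, k - 2 ∈ J2 := fun k hk =>
    Finset.mem_union_right _ (Finset.mem_image_of_mem _ hk)
  have s0 := sh 0 (fun k h => by simpa using m0 _ (hJ _ h)) m0
  have s1 := sh 1 (fun k h => by simpa using m1 _ (hJ _ h)) m1
  have s2 := sh 2 (fun k h => by simpa using m2 _ (hJ _ h)) m2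
  have e : ((2 * Real.cos x - 2 : ℝ) : ℂ) * F =
      ∑ k ∈ J2, ((f (k + 2) - 2 * f (k + 1) + f k : ℝ) : ℂ) * ex x (k + 1) := by
    rw [ofReal_sub, po_cos, ofReal_ofNat]
    have e2 : (ex x 1 + ex x (-1) - 2) * F = ex x (-1) * F - 2 * F + ex x 1 * F := by ring
    rw [e2]
    nth_rewrite 1 [← s2]
    nth_rewrite 1 [← s1]
    rw [← s0]
    simp only [Finset.mul_sum]
    rw [← Finset.sum_sub_distrib, ← Finset.sum_add_distrib]
    refine Finset.sum_congr rfl fun k _ => ?_
    have a1 : ex x (-1) * ex x (k + 2) = ex x (k + 1) := by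
      rw [← ex_add]; congr 1; ring
    have a2 : ex x 1 * ex x (k + 0) = ex x (k + 1) := by
      rw [← ex_add]; congr 1; ring
    rw [add_zero] at a2 ⊢
    push_cast
    linear_combination (f (k + 2) : ℂ) * a1 + (f k : ℂ) * a2
  have c1 : 0 ≤ 1 - Real.cos x := by linarith [Real.cos_le_one x]
  have b2 : 2 * (1 - Real.cos x) * ‖F‖ ≤ S / u := by
    have h1 := congrArg norm e
    rw [norm_mul, Complex.norm_real, Real.norm_eq_abs, abs_of_nonpos (by linarith)] at h1
    have h2 : ‖∑ k ∈ J2, ((f (k + 2) - 2 * f (k + 1) + f k : ℝ) : ℂ) * ex x (k + 1)‖ ≤ S / u := by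
      refine (norm_sum_le _ _).trans (le_trans (le_of_eq ?_) (hf.v2 J2))
      refine Finset.sum_congr rfl fun k _ => ?_
      rw [norm_mul, norm_ex, mul_one, Complex.norm_real, Real.norm_eq_abs]
    linarith
  unfold Pk
  rw [← mul_div_assoc, le_div_iff₀ (po_den ht x)]
  have p1 := po_cosh_sinh ht.le
  have p2 : 1 / u ≤ Real.sinh (1 / u) := Real.self_le_sinh_iff.2 ht.le
  have p3 : 0 ≤ Real.cosh (1 / u) - 1 := by linarith [Real.one_le_cosh (1 / u)]
  have p4 : ‖F‖ * (Real.cosh (1 / u) - 1) ≤ σ * u * S * (1 / u * Real.sinh (1 / u)) :=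
    mul_le_mul b1 p1 p3 ((norm_nonneg _).trans b1)
  have p5 : σ * u * S * (1 / u * Real.sinh (1 / u)) = σ * S * Real.sinh (1 / u) := by
    field_simp
  have p6 : S / u ≤ S * Real.sinh (1 / u) := by
    rw [div_eq_mul_one_div]; exact mul_le_mul_of_nonneg_left p2 hS
  have p7 : 0 ≤ S / u := by positivity
  nlinarith

end HC

/-- the integers of a ball -/
lemma ball_card (c : ℤ) {r : ℝ} (hr : 0 ≤ r) :
    ((Icc (c - ⌊r⌋) (c + ⌊r⌋)).card : ℝ) ≤ 2 * r + 1 := by
  have h0 : 0 ≤ ⌊r⌋ := Int.floor_nonneg.2 hr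
  have h1 := Int.floor_le r
  have h2 : (((Icc (c - ⌊r⌋) (c + ⌊r⌋)).card : ℤ) : ℝ) = ((2 * ⌊r⌋ + 1 : ℤ) : ℝ) := by
    rw [Int.card_Icc_of_le _ _ (by omega)]; congr 1; ring
  push_cast at h2
  linarith

lemma ball_mem {c k : ℤ} {r : ℝ} (h : |(k : ℝ) - c| ≤ r) : k ∈ Icc (c - ⌊r⌋) (c + ⌊r⌋) := by
  have h1 : |k - c| ≤ ⌊r⌋ := Int.le_floor.2 (by push_cast; exact h)
  have := abs_le.1 h1
  exact Finset.mem_Icc.2 ⟨by omega, by omega⟩

/-- (K1) for a support in a ball of radius `ρ u` -/
theorem HC.kern_ball {u S ρ : ℝ} {f : ℤ → ℝ} (hf : HC u S f) (hu : 1 ≤ u) (hρ : 0 ≤ ρ) {c : ℤ}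
    (hs : Supp f c (ρ * u)) : Kern f ((2 * ρ + 2) * S) (1 / u) := by
  have h := hf.kern (by linarith) (σ := 2 * ρ + 1) _ (fun k hk => ball_mem (hs k hk))
    ((ball_card c (by positivity)).trans (by nlinarith))
  rwa [show 2 * ρ + 1 + 1 = 2 * ρ + 2 by ring] at h

/-- (K1) for a cell -/
theorem Cel.kern {f : ℤ → ℝ} {S u : ℝ} {P : Win} (h : Cel f S u P) : Kern f (4 * S) (1 / u) := by
  obtain ⟨c, hc⟩ := h.cen
  have := h.hc.kern_ball h.u1 zero_le_one (c := c) (by simpa using hc)
  rwa [show (2 * 1 + 2 : ℝ) = 4 by norm_num] at this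

end

end Pool.Agent.Lib.MMTX
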