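import Pool.Agent.Lib.MP_0dc93f_an.X.Hex
import Pool.Agent.Lib.MP_0dc93f_an.X.Ft
import Pool.Agent.Lib.MP_0dc93f_an.X.Crude

/-! Further multipliers, and the tuple bounds in the form used later. -/

namespace Pool.Agent.Lib.MMTX

open Finset Complex ComplexConjugate MMTW

lemma kit_clip {lo' hi : ℝ} (h1 : lo' ≤ hi) (y : ℝ) :
    max lo' (min hi y) = lo' + (max 0 (y - lo') - max 0 (y - hi)) := by
  simp only [max_def, min_def]
  split_ifs <;> linarith

/-- a clipped affine function -/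
theorem hc_clip {u S σ x lo' hi : ℝ} (hu : 0 < u) (h1 : lo' ≤ hi) (h2 : |lo'| ≤ S) (h3 : |hi| ≤ S)
    (h4 : hi - lo' ≤ S) (h5 : 2 * |σ| * u ≤ S) :
    HC u S fun k => max lo' (min hi (σ * k + x)) := by
  have q : 2 * |σ| ≤ S / u := (le_div_iff₀ hu).2 h5
  have a0 := abs_nonneg σ
  have lb : ∀ y : ℝ, lo' ≤ max lo' (min hi y) := fun y => le_max_left _ _
  have ub : ∀ y : ℝ, max lo' (min hi y) ≤ hi := fun y => max_le h1 (min_le_left _ _)
  have mo : ∀ y y' : ℝ, y ≤ y' → max lo' (min hi y) ≤ max lo' (min hi y') := fun y y' h =>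
    max_le_max le_rfl (min_le_min le_rfl h)
  refine ⟨fun k => ?_, fun k => ?_, fun J => ?_, fun J => ?_⟩
  · exact abs_le.2 ⟨(abs_le.1 h2).1.trans (lb _), (ub _).trans (abs_le.1 h3).2⟩
  · refine le_trans ?_ (by linarith : |σ| ≤ S / u)
    rw [max_comm lo', max_comm lo']
    refine (abs_max_sub_max_le_abs _ _ _).trans ?_
    rw [min_comm hi, min_comm hi]
    refine (abs_min_sub_min_le_max _ _ _ _).trans (max_le (le_of_eq ?_) (by simp))
    congr 1
    push_cast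
    ring
  · rcases le_total 0 σ with h | h
    · exact (tv_mono (g := fun k : ℤ => max lo' (min hi (σ * k + x)))
        (fun k => mo _ _ (by push_cast; linarith)) (fun k => lb _) (fun k => ub _) J).trans h4
    · have := tv_mono (g := fun k : ℤ => -max lo' (min hi (σ * k + x))) (a := -hi) (b := -lo')
        (fun k => neg_le_neg (mo _ _ (by push_cast; linarith))) (fun k => neg_le_neg (ub _))
        (fun k => neg_le_neg (lb _)) J
      refine le_trans (le_of_eq ?_) (this.trans (by linarith))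
      refine Finset.sum_congr rfl fun k _ => ?_
      rw [← abs_neg]; congr 1; ring
  · have a1 := v2_ramp σ (x - lo') J
    have a2 := v2_ramp σ (x - hi) J
    refine le_trans ?_ ((add_le_add a1 a2).trans (by linarith))
    rw [← Finset.sum_add_distrib]
    refine Finset.sum_le_sum fun k _ => le_trans (le_of_eq ?_) (abs_sub _ _)
    simp only [kit_clip h1, add_sub_assoc]
    congr 1; ring

theorem trap_ne (z : ℤ) {D : ℝ} (hD : 0 < D) {k : ℤ} (h : trap z D k ≠ 0) :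
    |(k : ℝ) - z| < 2 * D := lt_of_not_ge fun h1 => h (trap_zero z hD h1)

theorem trap_mono (z : ℤ) {D D' : ℝ} (hD : 0 < D) (h : D ≤ D') (k : ℤ) :
    trap z D k ≤ trap z D' k :=
  max_le_max le_rfl (min_le_min le_rfl
    (sub_le_sub_left (div_le_div_of_nonneg_left (abs_nonneg _) hD h) _))

theorem hat_ne {u : ℝ} (hu : 0 < u) {x : ℤ} (h : hat u x ≠ 0) : |(x : ℝ)| < u :=
  lt_of_not_ge fun h1 => h (hat_zero' hu h1)

lemma kit_near {u : ℕ} (hu : 1 ≤ u) (k n : ℤ) (h : |k - n * u| < u) :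
    n ∈ ({k / u, k / u + 1} : Finset ℤ) := by
  have u0 : (0 : ℤ) < u := by exact_mod_cast hu
  have e := Int.emod_add_mul_ediv k u
  have r0 := Int.emod_nonneg k u0.ne'
  have r1 := Int.emod_lt_of_pos k u0
  obtain ⟨h1, h2⟩ := abs_lt.1 h
  have a1 : k / u - 1 < n := by
    by_contra hn
    have := mul_le_mul_of_nonneg_right (not_lt.1 hn) u0.le
    nlinarith
  have a2 : n < k / u + 2 := by
    by_contra hn
    have := mul_le_mul_of_nonneg_right (not_lt.1 hn) u0.le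
    nlinarith
  simp only [Finset.mem_insert, Finset.mem_singleton]
  omega

lemma kit_zero {u : ℕ} (hu : 1 ≤ u) {x : ℤ} (h : ¬|x| < u) : hat u x = 0 := by
  refine hat_zero' (by exact_mod_cast hu) ?_
  exact_mod_cast not_lt.1 h

/-- the hats of a grid are a partition of unity -/
theorem sum_hat {u : ℕ} (hu : 1 ≤ u) (k : ℤ) (J : Finset ℤ)
    (hJ : ∀ n : ℤ, |k - n * u| < u → n ∈ J) : ∑ n ∈ J, hat u (k - n * u) = 1 := by
  have u0 : (0 : ℤ) < u := by exact_mod_cast hu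
  have u1 : (0 : ℝ) < u := by exact_mod_cast hu
  have e := Int.emod_add_mul_ediv k u
  have r0 : (0 : ℝ) ≤ (k % u : ℤ) := by exact_mod_cast Int.emod_nonneg k u0.ne'
  have r1 : ((k % u : ℤ) : ℝ) < u := by exact_mod_cast Int.emod_lt_of_pos k u0
  rw [Finset.sum_subset (Finset.subset_union_left (s₂ := {k / u, k / u + 1}))
      fun n _ hn => kit_zero hu fun h => hn (hJ n h),
    ← Finset.sum_subset (Finset.subset_union_right (s₁ := J))
      fun n _ hn => kit_zero hu fun h => hn (kit_near hu k n h),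
    Finset.sum_pair (by omega), show k - k / u * u = k % u by linarith,
    show k - (k / u + 1) * u = k % u - u by linarith]
  unfold hat
  rw [Int.cast_sub, Int.cast_natCast, abs_of_nonneg r0, abs_of_nonpos (by linarith),
    max_eq_right (sub_nonneg.2 ((div_le_one u1).2 r1.le)),
    max_eq_right (sub_nonneg.2 ((div_le_one u1).2 (by linarith)))]
  field_simp
  ring

theorem psiR_mem {L u : ℕ} (hu : 1 ≤ u) (y : ℤ) (x : ℝ) (k : ℤ) :
    0 ≤ psiR L u y x k ∧ psiR L u y x k ≤ 1 := by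
  refine ⟨Finset.sum_nonneg fun _ _ => hat_nonneg' _ _, ?_⟩
  unfold psiR
  refine (Finset.sum_le_sum_of_subset_of_nonneg
    (Finset.subset_union_left (s₂ := {(k - y) / u, (k - y) / u + 1}))
    fun _ _ _ => hat_nonneg' _ _).trans (le_of_eq ?_)
  exact sum_hat hu _ _ fun n h => Finset.mem_union_right _ (kit_near hu _ n h)

lemma kit_tel (c : ℤ → ℝ) (m n : ℤ) (h : m ≤ n) :
    ∑ j ∈ Icc m n, (c (j - 1) - c j) = c (m - 1) - c n := by
  induction n, h using Int.leInduction with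
  | base => simp
  | succ n h ih =>
    have e : Icc m (n + 1) = insert (n + 1) (Icc m n) := by
      ext j
      simp only [Finset.mem_Icc, Finset.mem_insert]
      omega
    rw [e, Finset.sum_insert (by simp), ih, add_sub_cancel_right]
    ring

theorem hc_psiR {L u : ℕ} (hu : 1 ≤ u) (y : ℤ) (x : ℝ) : HC u 4 (psiR L u y x) := by
  have u1 : (0 : ℝ) < u := by exact_mod_cast hu
  set F := (Icc (-(4 * L : ℤ)) (4 * L)).filter
    (fun n : ℤ => x ≤ (y : ℝ) + ((n : ℝ) - 1) * u) with hF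
  rcases F.eq_empty_or_nonempty with h | h
  · refine (HC.const (c := 0) u1 (by simp)).congr fun k => ?_
    unfold psiR
    rw [← hF, h, Finset.sum_empty]
  obtain ⟨m, hm, hle⟩ : ∃ m ∈ F, ∀ n ∈ F, m ≤ n := ⟨F.min' h, F.min'_mem h, F.min'_le⟩
  simp only [hF, Finset.mem_filter, Finset.mem_Icc] at hm hle
  have e : F = Icc m (4 * L) := by
    ext n
    simp only [hF, Finset.mem_filter, Finset.mem_Icc]
    refine ⟨fun hn => ⟨hle n hn, hn.1.2⟩, fun hn => ⟨⟨hm.1.1.trans hn.1, hn.2⟩, hm.2.trans ?_⟩⟩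
    have : (m : ℝ) ≤ n := by exact_mod_cast hn.1
    nlinarith
  have h1 := ((hc_clp (y + ((m - 1 : ℤ) : ℝ) * u) (h := u) (u := u) (S := 2 * u) u1.le u1
    (by linarith) le_rfl).sub (hc_clp (y + ((4 * L : ℤ) : ℝ) * u) (h := u) (u := u) (S := 2 * u)
      u1.le u1 (by linarith) le_rfl)).smul (u : ℝ)⁻¹
  have e2 : |(u : ℝ)⁻¹| * (2 * u + 2 * u) = 4 := by
    rw [abs_of_pos (inv_pos.2 u1)]; field_simp; ring
  rw [e2] at h1
  refine h1.congr fun k => ?_
  unfold psiR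
  rw [← hF, e, ← kit_tel (fun n : ℤ => clp (y + (n : ℝ) * u) u k) m (4 * L) hm.1.2, Finset.mul_sum]
  refine Finset.sum_congr rfl fun n _ => ?_
  rw [hat_eq u1]
  unfold clp
  push_cast
  congr 4 <;> ring

lemma kit_tent (A B x : ℝ) : max 0 (min (x - A) (B - x)) =
    max 0 (min (max 0 ((B - A) / 2)) (x - A)) -
      max 0 (min (max 0 ((B - A) / 2)) (x - (A + max 0 ((B - A) / 2)))) := by
  rcases le_total 0 ((B - A) / 2) with h | h
  · rw [max_eq_right h]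
    simp only [max_def, min_def]
    split_ifs <;> linarith
  · rw [max_eq_left h]
    simp only [max_def, min_def]
    split_ifs <;> linarith

lemma kit_gw (w x ζ : ℝ) : w - max |x| |x + ζ| = min (x + w + min 0 ζ) (w - max 0 ζ - x) := by
  rcases abs_cases x with h | h <;> rcases abs_cases (x + ζ) with h' | h' <;>
    rw [h.1, h'.1] <;> simp only [max_def, min_def] <;> split_ifs <;> linarith [h.2, h'.2]

theorem hc_Gw (P : Win) (ζ : ℤ) {u S : ℝ} (hu : 0 < u) (h1 : 2 * (P.w : ℝ) ≤ S) (h2 : 4 * u ≤ S) :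
    HC u S fun k => Gw P k ζ := by
  set A : ℝ := P.z - P.w - min 0 (ζ : ℝ) with hA
  set B : ℝ := P.z + P.w - max 0 (ζ : ℝ) with hB
  have h0 : 0 ≤ max 0 ((B - A) / 2) := le_max_left _ _
  have h3 : max 0 ((B - A) / 2) ≤ S / 2 :=
    max_le (by linarith) (by linarith [min_le_left 0 (ζ : ℝ), le_max_left 0 (ζ : ℝ)])
  have h := (hc_clp A h0 hu h3 (by linarith)).sub
    (hc_clp (A + max 0 ((B - A) / 2)) h0 hu h3 (by linarith))
  rw [add_halves] at h
  refine h.congr fun k => ?_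
  unfold clp Gw
  rw [← kit_tent, show (k : ℝ) + ζ - P.z = k - P.z + ζ by ring, kit_gw]
  congr 2 <;> simp only [hA, hB] <;> ring

/-- the reciprocal, cut off near zero and on the negative half line -/
theorem hc_inv' {d : ℝ} (hd : 1 ≤ d) :
    HC d (16 / d) fun k => if 0 < k then (1 - trap 0 d k) / k else 0 := by
  have d0 : 0 < d := by linarith
  have h := ((hc_clp d (h := d) (u := d) (S := 2 * d) d0.le d0 (by linarith) le_rfl).smul
    d⁻¹).mul (hc_inv d0) d0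
  have e : 4 * (|d⁻¹| * (2 * d)) * (2 / d) = 16 / d := by
    rw [abs_of_pos (inv_pos.2 d0)]; field_simp; ring
  rw [e] at h
  refine h.congr fun k => ?_
  rcases le_total (k : ℝ) d with hk | hk
  · have e1 : clp d d k = 0 := max_eq_left ((min_le_right _ _).trans (by linarith))
    rw [e1, mul_zero, zero_mul]
    split_ifs with h0
    · have h1 : (0 : ℝ) < k := by exact_mod_cast h0
      rw [trap_one 0 d0 k (by rw [Int.cast_zero, sub_zero, abs_of_pos h1]; exact hk), sub_self,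
        zero_div]
    · rfl
  · have h1 : (0 : ℝ) < k := by linarith
    have e1 : clp (((0 : ℤ) : ℝ) - 2 * d) d k = d := by
      unfold clp
      rw [min_eq_left (by push_cast; linarith), max_eq_right d0.le]
    rw [if_pos (by exact_mod_cast h1), max_eq_left hk, trap_eq 0 d0, e1, Int.cast_zero, zero_add]
    field_simp
    ring

theorem HC.kern_supp {u S r : ℝ} {f : ℤ → ℝ} {c : ℤ} (h : HC u S f) (hs : Supp f c r) (hr : 0 ≤ r)
    (hu : 0 < u) : Kern f (S * ((2 * r + 1) / u + 1)) (1 / u) := by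
  rw [mul_comm]
  exact h.kern hu _ (fun k hk => ball_mem (hs k hk))
    ((ball_card c hr).trans (div_mul_cancel₀ _ hu.ne').ge)

theorem two_le_lg {w : ℝ} (hw : 1 ≤ w) : 2 ≤ lg w := by
  unfold lg
  linarith [Real.log_nonneg (by linarith : 1 ≤ 2 * w)]

theorem lg_le {w : ℝ} {n : ℕ} (h0 : 0 < w) (hw : w ≤ 2 ^ n) : lg w ≤ 2 * (n + 2) := by
  unfold lg
  have h1 : Real.log (2 * w) ≤ Real.log (2 ^ (n + 1)) :=
    Real.log_le_log (by linarith) (by rw [pow_succ]; linarith)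
  have h2 : Real.log 2 ≤ 1 := by linarith [Real.log_two_lt_d9]
  rw [Real.log_pow] at h1
  push_cast at h1
  nlinarith [(Nat.cast_nonneg n : (0 : ℝ) ≤ n)]

/-- both pairs of one of the two pairings are separated -/
theorem geo' (k : Fin 4 → ℤ) {s d : ℝ} (hd : |(De k : ℝ)| ≤ d) {i j : Fin 4}
    (hs : s ≤ |(k i : ℝ) - k j|) : ∃ π : Equiv.Perm (Fin 4),
      (s - d) / 2 - d ≤ |(k (π 0) : ℝ) - k (π 1)| ∧ (s - d) / 2 - d ≤ |(k (π 2) : ℝ) - k (π 3)| := by
  unfold De at hd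
  push_cast at hd
  rcases geo (fun i => (k i : ℝ)) hd hs with h | h
  · exact ⟨1, h⟩
  · exact ⟨Equiv.swap 1 3, h.1, h.2.trans_eq (abs_sub_comm _ _)⟩

variable (Kc : ℕ) (a : ℤ → ℂ)

theorem mB_le_tail {z : ℤ} {h R : ℝ} (H : R + h ≤ |(z : ℝ)|) : mB Kc a z h ≤ tail Kc a R := by
  refine Finset.sum_le_sum_of_subset_of_nonneg (fun k hk => ?_) fun _ _ _ => by positivity
  obtain ⟨h1, h2⟩ := Finset.mem_filter.1 hk
  refine Finset.mem_filter.2 ⟨h1, ?_⟩
  have := abs_sub_abs_le_abs_sub (z : ℝ) k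
  rw [abs_sub_comm] at this
  unfold br
  linarith

/-- the weighted sum over the defects, trivial bound -/
theorem SQ_le {t X : ℝ} (ht : 0 ≤ t) (Q : Win) (s : ℤ → (Fin 4 → ℤ) → ℝ) (hX : 0 ≤ X)
    (h : ∀ ζ, ζ ≠ 0 → ‖Qf Kc a ζ (s ζ)‖ ≤ X) :
    ‖SQ Kc a t Q s‖ ≤ X * (mW Kc a Q * lg Q.w) := by
  unfold SQ
  refine (norm_sum_le _ _).trans ?_
  rw [mul_comm (mW Kc a Q)]
  refine le_trans ?_ (mul_le_mul_of_nonneg_left (sum_mh_le Kc a Q ((FF (2 * Kc)).erase 0)) hX)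
  rw [Finset.mul_sum]
  refine Finset.sum_le_sum fun ζ hζ => ?_
  rw [norm_mul, norm_mul, Complex.norm_conj, ← one_div_mul_eq_div, mul_left_comm X]
  exact mul_le_mul (norm_cf_le ht ζ)
    (mul_le_mul_of_nonneg_right (h ζ (Finset.ne_of_mem_erase hζ)) (norm_nonneg _))
    (by positivity) (by positivity)

/-- four cells -/
theorem tup (ζ : ℤ) (π : Equiv.Perm (Fin 4)) {f : Fin 4 → ℤ → ℝ} {S u : Fin 4 → ℝ}
    {P : Fin 4 → Win} {L X X' : ℝ} (hf : ∀ i, Cel (f i) (S i) (u i) (P i)) (hL : 2 ≤ L)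
    (hu : ∀ i, L ≤ u i) (h1 : XX Kc a (L / min (u (π 0)) (u (π 1))) (P (π 0)) (P (π 1)) ≤ X)
    (h2 : XX Kc a (L / min (u (π 2)) (u (π 3))) (P (π 2)) (P (π 3)) ≤ X') :
    ‖Qf Kc a ζ (pr f)‖ ≤ 2 ^ 12 * L * (∏ i, S i) * √(X * X') := by
  have m1 : ∀ i j, L ≤ min (u i) (u j) := fun i j => le_min (hu i) (hu j)
  have m0 : ∀ i j, 0 < min (u i) (u j) := fun i j => by linarith [m1 i j]
  have t2 : ∀ i j, L / min (u i) (u j) ≤ 2 := fun i j =>
    ((div_le_one (m0 i j)).2 (m1 i j)).trans one_le_two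
  have t0 : ∀ i j, 0 < L / min (u i) (u j) := fun i j => div_pos (by linarith) (m0 i j)
  refine (tup_cel Kc a ζ hf π hL rfl rfl (t2 _ _) (t2 _ _)).trans ?_
  rw [show (2 : ℝ) ^ 12 = 4096 by norm_num]
  exact mul_le_mul_of_nonneg_left (Real.sqrt_le_sqrt (mul_le_mul h1 h2
    (XX_nonneg Kc a (t0 _ _) _ _) ((XX_nonneg Kc a (t0 _ _) _ _).trans h1)))
    (mul_nonneg (by linarith) (Finset.prod_nonneg fun i _ => (hf i).hc.nonneg))

lemma kit_ft {m φ f : ℤ → ℝ} {Am Aφ A Λ t s1 s2 s3 : ℝ} {R : Win} (Q : Win) (i : Fin 4) (p q : ℤ)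
    (hq : |q| ≤ 1) (hm : Kern m Am s1) (hφ : Kern φ Aφ s2) (hf : Kern f A s3) (ht : 0 < t)
    (h1 : 0 < s1) (h2 : 0 < s2) (h3 : 0 < s3) (h4 : t + s1 + s2 + s3 ≤ 2) (hw : 1 ≤ R.w)
    (hs : Supp f R.z (R.w / 2)) (hΛ : (∑ k ∈ FF Kc, |f k| * ‖a k‖) ^ 2 ≤ Λ) :
    ‖∑ ζ ∈ FF (2 * Kc), ((Real.exp (-t * |(ζ : ℝ)|) * m ζ : ℝ) : ℂ) *
      (Qf Kc a ζ (fun k => φ (p * k i + q * ζ) * p4 f k) * conj (mh Kc a Q ζ))‖ ≤
      8 * Am * Aφ * A ^ 2 * Λ * (1 + (s1 + s2 + s3) / t) * XX Kc a t R Q := by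
  have h := ft Kc a (f := fun _ => f) (l := √Λ) Q hm hφ (fun _ => hf) (fun _ => hs) hw
    (fun _ => Real.le_sqrt_of_sq_le hΛ) i p hq h1 h2 h3 ht h4
  rwa [Real.sq_sqrt ((sq_nonneg _).trans hΛ)] at h

/-- the fifth order term against a window, with a multiplier in the defect -/
theorem ft0 {m f : ℤ → ℝ} {Am A Λ t s1 s3 : ℝ} {R : Win} (Q : Win) (hm : Kern m Am s1)
    (hf : Kern f A s3) (ht : 0 < t) (h1 : 0 < s1) (h3 : 0 < s3) (h4 : t + s1 + s3 ≤ 2)
    (hw : 1 ≤ R.w) (hs : Supp f R.z (R.w / 2)) (hΛ : (∑ k ∈ FF Kc, |f k| * ‖a k‖) ^ 2 ≤ Λ) :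
    ‖∑ ζ ∈ FF (2 * Kc), ((Real.exp (-t * |(ζ : ℝ)|) * m ζ : ℝ) : ℂ) *
      (Qf Kc a ζ (p4 f) * conj (mh Kc a Q ζ))‖ ≤
      2 ^ 9 * Am * A ^ 2 * Λ * (1 + (s1 + s3) / t) * XX Kc a t R Q := by
  have u0 : 0 < 8 / s1 := by positivity
  have k1 := hm.k2 (t := 7 / 8 * s1) (M := 8 / 7) h1 (by linarith) (by linarith) (by linarith)
    (by linarith) (by linarith)
  have k2 := (hc_hat u0 0).kern_supp (hat_supp' u0 0) u0.le u0
  have e1 : 1 / (8 / s1) = s1 / 8 := by field_simp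
  have e2 : 4 * ((2 * (8 / s1) + 1) / (8 / s1) + 1) = 12 + s1 / 2 := by field_simp; ring
  rw [e1, e2] at k2
  have k3 := k2.mono (A' := 13) (by linarith) (by linarith)
  have h := kit_ft Kc a Q 0 0 0 (by simp) k1 k3 hf ht (by linarith) (by linarith) h3 (by linarith)
    hw hs hΛ
  have e3 : hat (8 / s1) 0 = 1 := by simp [hat]
  simp only [zero_mul, add_zero, sub_zero, e3, one_mul] at h
  rw [show 7 / 8 * s1 + s1 / 8 + s3 = s1 + s3 by ring] at h
  refine h.trans ?_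
  have a1 := hm.nonneg h1
  have a3 : 0 ≤ Λ := (sq_nonneg _).trans hΛ
  have a4 := XX_nonneg Kc a ht R Q
  have : 0 ≤ Am * A ^ 2 * Λ * (1 + (s1 + s3) / t) * XX Kc a t R Q := by positivity
  linarith

/-- the fifth order term with a multiplier which couples one slot and the defect -/
theorem ft1 {m φ f : ℤ → ℝ} {Am Aφ A Λ t s1 s2 s3 : ℝ} {R : Win} (Q : Win) (i : Fin 4) (p q : ℤ)
    (hq : |q| ≤ 1) (hm : Kern m Am s1) (hφ : Kern φ Aφ s2) (hf : Kern f A s3) (ht : 0 < t)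
    (h1 : 0 < s1) (h2 : 0 < s2) (h3 : 0 < s3) (h4 : t + s1 + s2 + s3 ≤ 2) (hw : 1 ≤ R.w)
    (hs : Supp f R.z (R.w / 2)) (hΛ : (∑ k ∈ FF Kc, |f k| * ‖a k‖) ^ 2 ≤ Λ) :
    ‖∑ ζ ∈ FF (2 * Kc), ((Real.exp (-t * |(ζ : ℝ)|) * m ζ : ℝ) : ℂ) *
      (Qf Kc a ζ (fun k => φ (p * k i + q * ζ) * p4 f k) * conj (mh Kc a Q ζ))‖ ≤
      2 ^ 9 * Am * Aφ * A ^ 2 * Λ * (1 + (s1 + s2 + s3) / t) * XX Kc a t R Q := by
  refine (kit_ft Kc a Q i p q hq hm hφ hf ht h1 h2 h3 h4 hw hs hΛ).trans ?_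
  have a1 := hm.nonneg h1
  have a2 := hφ.nonneg h2
  have a3 : 0 ≤ Λ := (sq_nonneg _).trans hΛ
  have a4 := XX_nonneg Kc a ht R Q
  have : 0 ≤ Am * Aφ * A ^ 2 * Λ * (1 + (s1 + s2 + s3) / t) * XX Kc a t R Q := by positivity
  linarith

end Pool.Agent.Lib.MMTX
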