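import Pool.Agent.Lib.MP_0dc93f_an.X.Win
import Pool.Agent.Lib.MP_0dc93f_an.X.Hex
import Pool.Agent.Lib.MP_0dc93f_an.WAn

/-! The linear part of the derivative of the Morawetz functional: the dispersive error. -/

namespace Pool.Agent.Lib.MMTX

open Finset Complex ComplexConjugate MMTW

noncomputable section

variable (Kc : ℕ) (a : ℤ → ℂ)

/-- coefficients of the windowed density with a symbol -/
def lnH (P : Win) (σ : ℤ → ℤ → ℝ) (ζ : ℤ) : ℂ :=
  (P.w : ℂ)⁻¹ * ∑ k ∈ FF Kc with k + ζ ∈ FF Kc,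
    ((Gw P k ζ * σ (k + ζ) k : ℝ) : ℂ) * (a (k + ζ) * conj (a k))

/-- the pairing with a second window, without the zero mode -/
def lnT (t : ℝ) (P Q : Win) (σ : ℤ → ℤ → ℝ) : ℂ :=
  ∑ ζ ∈ (FF (2 * Kc)).erase 0,
    (Real.exp (-t * |(ζ : ℝ)|) : ℝ) * (lnH Kc a P σ ζ * conj (mh Kc a Q ζ))

lemma ln_bil (n : ℕ) (c d : ℤ → ℂ) (x : ℝ) :
    (∑ k ∈ FF n, c k * ex x k) * conj (∑ k ∈ FF n, d k * ex x k) =
      ∑ ζ ∈ FF (2 * n), (∑ k ∈ FF n with k + ζ ∈ FF n, c (k + ζ) * conj (d k)) * ex x ζ := by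
  rw [mul_comm, map_sum, Finset.sum_mul_sum]
  simp only [Finset.sum_filter, Finset.sum_mul]
  rw [Finset.sum_comm (s := FF (2 * n))]
  refine Finset.sum_congr rfl fun k hk => ?_
  simp only [ite_mul, zero_mul]
  rw [← Finset.sum_filter]
  refine Finset.sum_bij (fun l _ => l - k) ?_ ?_ ?_ ?_
  · intro l hl
    exact Finset.mem_filter.2 ⟨Dat.sub_mem_FF hl hk, by simpa using hl⟩
  · intro l _ l' _ h
    exact sub_left_inj.1 h
  · intro ζ hζ
    exact ⟨k + ζ, (Finset.mem_filter.1 hζ).2, by ring⟩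
  · intro l _
    rw [map_mul, conj_ex, add_sub_cancel, sub_eq_add_neg l k, ex_add]
    ring

/-- pointwise domination for a product symbol -/
lemma ln_pt {f g : ℤ → ℝ} {A A' s : ℝ} (hf : Kern f A s) (hg : Kern g A' s) (hs : 0 < s)
    (P : Win) (x : ℝ) :
    ‖∑ ζ ∈ FF (2 * Kc), lnH Kc a P (fun l k => f l * g k) ζ * ex x ζ‖ ≤
      A * A' * Pc s (mP Kc a P) x := by
  have A0 := hf.nonneg hs
  have A1 := hg.nonneg hs
  set c : ℕ → ℤ → ℂ := fun r k => ((if |k - P.z| < (r : ℕ) then 1 else 0 : ℝ) : ℂ) * a k with hc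
  set G : ℕ → ℝ → ℝ := fun r y => ‖∑ k ∈ FF Kc, c r k * ex y k‖ ^ 2 with hG
  have gc : ∀ r, Continuous (G r) := fun r => (cont_tp _ _).norm.pow 2
  have g0 : ∀ r y, 0 ≤ G r y := fun r y => sq_nonneg _
  have e1 : ∑ ζ ∈ FF (2 * Kc), lnH Kc a P (fun l k => f l * g k) ζ * ex x ζ =
      (P.w : ℂ)⁻¹ * ∑ r ∈ Icc 1 P.w, (∑ k ∈ FF Kc, (f k : ℂ) * c r k * ex x k) *
        conj (∑ k ∈ FF Kc, (g k : ℂ) * c r k * ex x k) := by
    simp only [ln_bil]
    rw [Finset.sum_comm, Finset.mul_sum]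
    refine Finset.sum_congr rfl fun ζ _ => ?_
    unfold lnH
    rw [← Finset.sum_mul, mul_assoc, Finset.sum_comm]
    congr 2
    refine Finset.sum_congr rfl fun k _ => ?_
    rw [← gw_count, ofReal_mul, ofReal_sum, Finset.sum_mul, Finset.sum_mul]
    refine Finset.sum_congr rfl fun r _ => ?_
    simp only [hc, map_mul, conj_ofReal, ofReal_mul]
    ring
  have b1 : ∀ r ∈ Icc 1 P.w, ‖(∑ k ∈ FF Kc, (f k : ℂ) * c r k * ex x k) *
      conj (∑ k ∈ FF Kc, (g k : ℂ) * c r k * ex x k)‖ ≤ A * A' * Pc s (G r) x := by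
    intro r _
    have h1 := hf.sq_le hs (FF Kc) (c r) x
    have h2 := hg.sq_le hs (FF Kc) (c r) x
    have p0 : 0 ≤ Pc s (G r) x := Pc_nonneg hs (g0 r) x
    rw [norm_mul, Complex.norm_conj]
    refine le_of_sq_le_sq ?_ (mul_nonneg (mul_nonneg A0 A1) p0)
    rw [mul_pow]
    exact (mul_le_mul h1 h2 (sq_nonneg _) (mul_nonneg (sq_nonneg _) p0)).trans
      (le_of_eq (by simp only [hG]; ring))
  have b4 : Pc s (mP Kc a P) x = (P.w : ℝ)⁻¹ * ∑ r ∈ Icc 1 P.w, Pc s (G r) x := by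
    rw [← Pc_sum hs _ G fun r _ => gc r, ← Pc_smul]
    rfl
  rw [e1, b4, norm_mul, norm_inv, Complex.norm_natCast, mul_left_comm, Finset.mul_sum]
  exact mul_le_mul_of_nonneg_left ((norm_sum_le _ _).trans (Finset.sum_le_sum b1))
    (inv_nonneg.2 (Nat.cast_nonneg _))

/-- the pairing for a product symbol -/
lemma ln_prod {f g : ℤ → ℝ} {A A' s t : ℝ} (hf : Kern f A s) (hg : Kern g A' s) (hs : 0 < s)
    (ht : 0 < t) (P Q : Win) :
    ‖lnT Kc a t P Q fun l k => f l * g k‖ ≤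
      A * A' * (XX Kc a (s + t) P Q + mW Kc a P * mW Kc a Q) := by
  have A0 := mul_nonneg (hf.nonneg hs) (hg.nonneg hs)
  set h : ℤ → ℂ := lnH Kc a P fun l k => f l * g k with hh
  have cH := cont_tp (FF (2 * Kc)) h
  have tP := (mP_tp Kc a P).pc hs
  have tQ := (mP_tp Kc a Q).pc ht
  have cP := tP.cont
  have cQ := tQ.cont
  have b1 : ‖∑ ζ ∈ FF (2 * Kc), (Real.exp (-t * |(ζ : ℝ)|) : ℝ) * (h ζ * conj (mh Kc a Q ζ))‖ ≤
      A * A' * XX Kc a (s + t) P Q := by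
    have e := avc_tp (FF (2 * Kc)) (FF (2 * Kc)) h
      fun k => (Real.exp (-t * |(k : ℝ)|) : ℝ) * mh Kc a Q k
    rw [Finset.inter_self] at e
    have e2 : ∑ ζ ∈ FF (2 * Kc), (Real.exp (-t * |(ζ : ℝ)|) : ℝ) * (h ζ * conj (mh Kc a Q ζ)) =
        ∑ k ∈ FF (2 * Kc), h k * conj ((Real.exp (-t * |(k : ℝ)|) : ℝ) * mh Kc a Q k) :=
      Finset.sum_congr rfl fun k _ => by rw [map_mul, conj_ofReal]; ring
    rw [e2, ← e, ← av_pc_pc Kc a hs ht, ← av_smul]
    simp only [← tQ _]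
    refine (avc_norm _).trans (av_mono (by fun_prop) (by fun_prop) fun x => ?_)
    have q0 := Pc_nonneg ht (mP_nonneg Kc a Q) x
    rw [norm_mul, Complex.norm_conj, Complex.norm_real, Real.norm_of_nonneg q0, ← mul_assoc]
    exact mul_le_mul_of_nonneg_right (ln_pt Kc a hf hg hs P x) q0
  have b2 : ‖h 0‖ ≤ A * A' * mW Kc a P := by
    have one : TP (fun _ => 1) {0} fun _ => 1 := fun x => by simp [ex_zero]
    have e := avc_tp (FF (2 * Kc)) {0} h fun _ => 1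
    rw [Finset.inter_singleton_of_mem (zero_mem_FF _)] at e
    simp only [Finset.sum_singleton, ex_zero, mul_one, map_one] at e
    have e2 := (mP_tp Kc a P).pc_symm one hs
    simp only [Pc_const hs, mul_one] at e2
    rw [← e]
    refine (avc_norm _).trans ((av_mono (g := fun x => A * A' * Pc s (mP Kc a P) x) cH.norm
      (by fun_prop) fun x => ln_pt Kc a hf hg hs P x).trans ?_)
    rw [av_smul]
    exact mul_le_mul_of_nonneg_left (e2.le.trans (av_mP Kc a P)) A0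
  unfold lnT
  rw [← hh, Finset.sum_erase_eq_sub (zero_mem_FF _), mul_add]
  refine (norm_sub_le _ _).trans (add_le_add b1 ?_)
  simp only [Int.cast_zero, abs_zero, mul_zero, Real.exp_zero, ofReal_one, one_mul]
  rw [norm_mul, Complex.norm_conj, ← mul_assoc]
  exact mul_le_mul b2 (mh_norm Kc a Q 0) (norm_nonneg _) (mul_nonneg A0 (mW_nonneg Kc a P))

lemma lnT_sum {ι : Type} (t : ℝ) (P Q : Win) (s : Finset ι) (c : ℝ) (σ : ι → ℤ → ℤ → ℝ) :
    lnT Kc a t P Q (fun l k => c * ∑ i ∈ s, σ i l k) = c * ∑ i ∈ s, lnT Kc a t P Q (σ i) := by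
  have e : ∀ ζ, lnH Kc a P (fun l k => c * ∑ i ∈ s, σ i l k) ζ =
      c * ∑ i ∈ s, lnH Kc a P (σ i) ζ := by
    intro ζ
    unfold lnH
    rw [← Finset.mul_sum, Finset.sum_comm, mul_left_comm, Finset.mul_sum _ _ (c : ℂ)]
    congr 1
    refine Finset.sum_congr rfl fun k _ => ?_
    rw [← Finset.sum_mul, ← ofReal_sum, ← Finset.mul_sum]
    push_cast
    ring
  unfold lnT
  rw [Finset.sum_comm, Finset.mul_sum]
  refine Finset.sum_congr rfl fun ζ _ => ?_
  rw [e, ← Finset.mul_sum, ← Finset.sum_mul]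
  ring

lemma lnT_le {ι : Type} {t : ℝ} {P Q : Win} {s : Finset ι} (c : ℝ) {σ : ι → ℤ → ℤ → ℝ}
    {C : ι → ℝ} (h : ∀ i ∈ s, ‖lnT Kc a t P Q (σ i)‖ ≤ C i) :
    ‖lnT Kc a t P Q fun l k => c * ∑ i ∈ s, σ i l k‖ ≤ |c| * ∑ i ∈ s, C i := by
  rw [lnT_sum, norm_mul, Complex.norm_real, Real.norm_eq_abs]
  exact mul_le_mul_of_nonneg_left ((norm_sum_le _ _).trans (Finset.sum_le_sum h)) (abs_nonneg _)

lemma lnT_lim {t C : ℝ} {P Q : Win} {τ : ℕ → ℤ → ℤ → ℝ} {σ : ℤ → ℤ → ℝ}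
    (h : ∀ n, ‖lnT Kc a t P Q (τ n)‖ ≤ C)
    (hl : ∀ l k : ℤ, l ≠ k → |(l : ℝ) - P.z| < P.w → |(k : ℝ) - P.z| < P.w →
      Filter.Tendsto (fun n => τ n l k) Filter.atTop (nhds (σ l k))) :
    ‖lnT Kc a t P Q σ‖ ≤ C := by
  refine le_of_tendsto' (x := Filter.atTop) (Filter.Tendsto.norm ?_) h
  unfold lnT lnH
  refine tendsto_finsetSum _ fun ζ hζ => (((tendsto_finsetSum _ fun k _ =>
    Filter.Tendsto.mul_const _ ?_).const_mul _).mul_const _).const_mul _
  refine (continuous_ofReal.tendsto _).comp ?_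
  by_cases h0 : Gw P k ζ = 0
  · simp [h0]
  · obtain ⟨h1, h2⟩ := gw_supp h0
    refine (hl _ _ ?_ (by push_cast; exact h2) h1).const_mul _
    have := (Finset.mem_erase.1 hζ).1
    omega

/-- the relative position in a window, cut off outside -/
def lnU (P : Win) (k : ℤ) : ℝ := (P.z : ℝ)⁻¹ * (clp (P.z - P.w) (2 * P.w) k - P.w)

lemma lnU_eq {P : Win} {k : ℤ} (h : |(k : ℝ) - P.z| < P.w) : lnU P k = (k - P.z) / P.z := by
  obtain ⟨h1, h2⟩ := abs_lt.1 h
  unfold lnU clp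
  rw [min_eq_right (by linarith), max_eq_right (by linarith)]
  ring

lemma ln_kern {P : Win} (hw : 1 ≤ P.w) (i : ℕ) :
    Kern (fun k => trap P.z P.w k * lnU P k ^ i) (24 * (12 * P.w / |(P.z : ℝ)|) ^ i)
      (1 / P.w) := by
  have w1 : (1 : ℝ) ≤ P.w := by exact_mod_cast hw
  have w0 : (0 : ℝ) < P.w := by linarith
  have h1 : HC P.w (|(P.z : ℝ)⁻¹| * (2 * P.w + P.w)) (lnU P) :=
    ((hc_clp (P.z - P.w) (h := 2 * P.w) (S := 2 * P.w) (by linarith) w0 le_rfl le_rfl).sub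
      (HC.const (c := P.w) (S := P.w) w0 (abs_of_pos w0).le)).smul _
  have h2 : HC P.w (4 * (12 * P.w / |(P.z : ℝ)|) ^ i) fun k => trap P.z P.w k * lnU P k ^ i := by
    induction i with
    | zero => simpa using hc_trap P.z w0
    | succ i ih =>
      have := ih.mul h1 w0
      rw [show 4 * (4 * (12 * P.w / |(P.z : ℝ)|) ^ i) * (|(P.z : ℝ)⁻¹| * (2 * P.w + P.w)) =
        4 * (12 * P.w / |(P.z : ℝ)|) ^ (i + 1) by rw [abs_inv]; ring] at this
      exact this.congr fun k => by ring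
  have h3 := h2.kern_ball w1 (ρ := 2) (by norm_num) (c := P.z) fun k hk =>
    trap_supp P.z w0 k (left_ne_zero_of_mul hk)
  rwa [show (2 * 2 + 2) * (4 * (12 * P.w / |(P.z : ℝ)|) ^ i) =
    24 * (12 * P.w / |(P.z : ℝ)|) ^ i by ring] at h3

lemma ln_choose {α : ℝ} (h0 : 0 < α) (h1 : α ≤ 1) (j : ℕ) : |Ring.choose α j| ≤ 1 := by
  induction j with
  | zero => simp
  | succ j ih =>
    have := Ring.choose_smul_choose α (Nat.le_succ j)
    simp only [Nat.succ_eq_add_one, Nat.choose_succ_self_right, nsmul_eq_mul,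
      add_tsub_cancel_left, Ring.choose_one_right', pow_one] at this
    have hj : (0 : ℝ) ≤ j := Nat.cast_nonneg _
    have h2 : |α - j| ≤ j + 1 := abs_le.2 ⟨by linarith, by linarith⟩
    have h3 := congrArg abs this
    push_cast at h3
    rw [abs_mul, abs_mul, abs_of_pos (by linarith : (0 : ℝ) < j + 1)] at h3
    refine le_of_mul_le_mul_left (h3.le.trans ?_) (by linarith : (0 : ℝ) < j + 1)
    rw [mul_comm]
    exact mul_le_mul h2 ih (abs_nonneg _) (by linarith)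

/-- the error of the group velocity -/
lemma ln_err {α t : ℝ} (h0 : 0 < α) (h1 : α ≤ 1) (ht : 0 < t) (t1 : t ≤ 1) {P : Win} (Q : Win)
    (fP : 2 ^ 10 * (P.w : ℤ) ≤ |P.z|) (wP : 1 ≤ t * P.w) :
    ‖lnT Kc a t P Q fun l k => (om α l - om α k) / ((l : ℝ) - k) - vel α P.z‖ ≤
      2 ^ 18 * (P.w * |(P.z : ℝ)| ^ (α - 2)) * (XX Kc a t P Q + mW Kc a P * mW Kc a Q) := by
  have w1 : (1 : ℝ) ≤ P.w := by nlinarith [(Nat.cast_nonneg P.w : (0 : ℝ) ≤ P.w)]
  have hw : 1 ≤ P.w := by exact_mod_cast w1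
  have w0 : (0 : ℝ) < P.w := by linarith
  have hcm : 2 ^ 10 * (P.w : ℝ) ≤ |(P.z : ℝ)| := by exact_mod_cast fP
  obtain ⟨c, hc⟩ : ∃ c : ℝ, c = P.z := ⟨_, rfl⟩
  have hc0 : 0 < |c| := by rw [hc]; linarith
  have hc1 : c ≠ 0 := abs_pos.1 hc0
  obtain ⟨r, hr⟩ : ∃ r : ℝ, r = 12 * P.w / |c| := ⟨_, rfl⟩
  have r0 : 0 ≤ r := by rw [hr]; positivity
  have r1 : r ≤ 1 / 4 := by rw [hr, div_le_iff₀ hc0, hc]; linarith
  have s0 : 0 < 1 / (P.w : ℝ) := by positivity
  have s1 : 1 / (P.w : ℝ) ≤ t := by rw [div_le_iff₀ w0]; exact wP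
  have X0 := XX_nonneg Kc a ht P Q
  have M0 := mul_nonneg (mW_nonneg Kc a P) (mW_nonneg Kc a Q)
  obtain ⟨D, hD⟩ : ∃ D : ℝ, D = 8 * (XX Kc a t P Q + mW Kc a P * mW Kc a Q) := ⟨_, rfl⟩
  have D0 : 0 ≤ D := by linarith
  have hX : XX Kc a (1 / P.w + t) P Q + mW Kc a P * mW Kc a Q ≤ D := by
    have := XX_K2 Kc a (M := 2) (add_pos s0 ht) ht (by linarith) (by linarith) (by linarith)
      (by linarith) P Q
    linarith
  set F : ℕ → ℤ → ℝ := fun i k => trap P.z P.w k * lnU P k ^ i with hF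
  have kF : ∀ i, Kern (F i) (24 * r ^ i) (1 / P.w) := fun i => by
    rw [hr, hc]; exact ln_kern hw i
  have a4 : ∀ j : ℕ, ‖lnT Kc a t P Q fun l k => Ring.choose α (j + 2) *
      ∑ i ∈ range (j + 2), F i l * F (j + 2 - 1 - i) k‖ ≤ 576 * D * ((j + 2) * r ^ (j + 1)) := by
    intro j
    refine (lnT_le Kc a _ (C := fun _ => 576 * D * r ^ (j + 1)) fun i hi => ?_).trans ?_
    · refine (ln_prod Kc a (kF _) (kF _) s0 ht P Q).trans ?_
      have e : r ^ (j + 1) = r ^ i * r ^ (j + 2 - 1 - i) := by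
        rw [← pow_add]; congr 1; have := mem_range.1 hi; omega
      refine (mul_le_mul_of_nonneg_left hX (by positivity)).trans (le_of_eq ?_)
      rw [e]; ring
    · rw [sum_const, card_range, nsmul_eq_mul]
      refine (mul_le_of_le_one_left (by positivity) (ln_choose h0 h1 _)).trans (le_of_eq ?_)
      push_cast; ring
  refine lnT_lim Kc a (τ := fun n l k => |c| ^ α / c * ∑ j ∈ range n, Ring.choose α (j + 2) *
    ∑ i ∈ range (j + 2), F i l * F (j + 2 - 1 - i) k) (fun n => ?_) ?_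
  · refine (lnT_le Kc a _ fun j _ => a4 j).trans ?_
    rw [← Finset.mul_sum, abs_div, abs_of_pos (by positivity)]
    refine (mul_le_mul_of_nonneg_left (mul_le_mul_of_nonneg_left (geo_bdB r0 r1 n)
      (by positivity)) (by positivity)).trans ?_
    have e : |c| ^ α / |c| * (576 * D * (4 * r)) =
        221184 * (P.w * |c| ^ (α - 2)) * (XX Kc a t P Q + mW Kc a P * mW Kc a Q) := by
      rw [Real.rpow_sub hc0, hr, hD, Real.rpow_two]
      field_simp; ring
    rw [e, ← hc]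
    exact mul_le_mul_of_nonneg_right (mul_le_mul_of_nonneg_right (by norm_num) (by positivity))
      (by linarith)
  · intro k l hkl hk hl
    obtain ⟨u, hu⟩ : ∃ u : ℤ → ℝ, u = fun k : ℤ => ((k : ℝ) - c) / c := ⟨_, rfl⟩
    have eF : ∀ i, ∀ k : ℤ, |(k : ℝ) - P.z| < P.w → F i k = u k ^ i := fun i k hk => by
      simp only [hF, hu, hc]
      rw [trap_one P.z w0 k hk.le, lnU_eq hk, one_mul]
    have ub : ∀ k : ℤ, |(k : ℝ) - P.z| < P.w → |u k| < 1 := fun k hk => by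
      simp only [hu]
      rw [abs_div, div_lt_one hc0, hc]
      linarith
    have om_eq : ∀ k : ℤ, |(k : ℝ) - P.z| < P.w → om α k = |c| ^ α * (1 + u k) ^ α := by
      intro k hk
      have h2 : 0 < 1 + u k := by linarith [(abs_lt.1 (ub k hk)).1]
      have h3 : (k : ℝ) = c * (1 + u k) := by simp only [hu]; field_simp; ring
      rw [om, ← Real.mul_rpow hc0.le h2.le, h3, abs_mul, abs_of_pos h2]
    have hd : (k : ℝ) - l ≠ 0 := sub_ne_zero.2 (by exact_mod_cast hkl)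
    have hd' : u k - u l = (k - l) / c := by simp only [hu]; ring
    have hd2 : u k - u l ≠ 0 := by rw [hd']; exact div_ne_zero hd hc1
    have hs := ((binomB α (ub k hk)).sub (binomB α (ub l hl))).div_const (u k - u l)
    have hs2 := (hasSum_nat_add_iff' 2).2 hs
    have e2 : ∀ j : ℕ, (Ring.choose α j * u k ^ j - Ring.choose α j * u l ^ j) / (u k - u l) =
        Ring.choose α j * ∑ i ∈ range j, u k ^ i * u l ^ (j - 1 - i) := by
      intro j
      rw [← mul_sub, ← geom_sum₂_mul, ← mul_assoc, mul_div_cancel_right₀ _ hd2]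
    simp only [e2] at hs2
    have t := hs2.tendsto_sum_nat.const_mul (|c| ^ α / c)
    simp only [eF _ k hk, eF _ l hl]
    convert t using 2
    have sg : ((P.z).sign : ℝ) * |c| = c := by rw [hc]; exact_mod_cast Int.sign_mul_abs _
    have e3 : vel α P.z = α * (|c| ^ α / c) := by
      rw [vel, ← hc, Real.rpow_sub_one hc0.ne', mul_assoc]
      congr 1
      have : ((P.z).sign : ℝ) = |c| / c := by
        rw [eq_div_iff hc1]
        refine mul_right_cancel₀ hc0.ne' ?_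
        rw [mul_right_comm, sg, abs_mul_abs_self]
      rw [this]; field_simp
    rw [e3, om_eq k hk, om_eq l hl, hd']
    simp [sum_range_succ]
    field_simp

end

end Pool.Agent.Lib.MMTX
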