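import Pool.Agent.Lib.MP_0dc93f_an.X.Kit

/-! The normal form term: the phase and the counting. -/

namespace Pool.Agent.Lib.MMTX

open Finset Complex ComplexConjugate MMTW

theorem nfe_om {α : ℝ} (h1 : 1 / 2 ≤ α) {x y : ℤ} (h : 16 * |(y : ℝ)| ≤ |(x : ℝ)|) :
    4 * om α y ≤ om α x := by
  have e4 : (4 : ℝ) ≤ 16 ^ α := by
    have := Real.rpow_le_rpow_of_exponent_le (x := 16) (by norm_num) h1
    rwa [← Real.sqrt_eq_rpow, show (16 : ℝ) = 4 ^ 2 by norm_num,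
      Real.sqrt_sq (by norm_num), show (4 : ℝ) ^ 2 = 16 by norm_num] at this
  have := Real.rpow_le_rpow (by positivity) h (by linarith : 0 ≤ α)
  rw [Real.mul_rpow (by norm_num) (abs_nonneg _)] at this
  exact (mul_le_mul_of_nonneg_right e4 (Real.rpow_nonneg (abs_nonneg _) _)).trans this

theorem nfe_lo (m : ℕ) (k : ℤ) : 0 ≤ lo m k ∧ lo m k ≤ 1 :=
  ⟨le_max_left _ _, max_le zero_le_one (min_le_left _ _)⟩

theorem nfe_rE (y0 y k : ℤ) : |rE y k - rE y0 k| ≤ |(y : ℝ) - y0| := by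
  refine (abs_max_sub_max_le_max _ _ _ _).trans (max_le (by simp) (le_of_eq ?_))
  rw [← abs_neg]
  congr 1
  ring

theorem nfe_nfs (ms mH : ℕ) (y0 y : ℤ) (k : Fin 4 → ℤ) :
    |nfs ms mH y0 y k| ≤ 2 * |(y : ℝ) - y0| := by
  have a (m m' : ℕ) (x : ℤ) : |lo m x - lo m' x| ≤ 1 := by
    have := nfe_lo m x; have := nfe_lo m' x; rw [abs_le]; constructor <;> linarith
  have b (x : ℤ) : |lo ms x| ≤ 1 := by rw [abs_of_nonneg (nfe_lo _ _).1]; exact (nfe_lo _ _).2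
  rw [nfs, abs_mul]
  refine (mul_le_of_le_one_right (abs_nonneg _) ?_).trans ((abs_add_le _ _).trans ?_)
  · simp only [abs_mul]
    exact mul_le_one₀ (mul_le_one₀ (b _) (abs_nonneg _) (b _)) (by positivity)
      (mul_le_one₀ (a _ _ _) (abs_nonneg _) (a _ _ _))
  · have := nfe_rE y0 y (k 0); have := nfe_rE y0 y (k 2); linarith

theorem nfe_pw {x : ℝ} (hx : 0 ≤ x) : x ^ (-(3 / 2) : ℝ) = (√x)⁻¹ ^ 3 := by
  rw [Real.sqrt_eq_rpow, ← Real.rpow_neg hx, ← Real.rpow_natCast, ← Real.rpow_mul hx]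
  norm_num

theorem nfe_tel {R : ℝ} (hR : 4 ≤ R) (N : ℕ) :
    ∑ k ∈ FF N, (if R ≤ |(k : ℝ)| then (√|(k : ℝ)|)⁻¹ ^ 3 else 0) ≤
      4 * ((√(R - 1))⁻¹ - (√(max (N : ℝ) (R - 1)))⁻¹) := by
  induction N with
  | zero =>
    have : FF 0 = {0} := rfl
    rw [this, sum_singleton, if_neg (by simp; linarith), max_eq_right (by simp; linarith)]
    simp
  | succ N ih =>
    have e : FF (N + 1) = insert ((N : ℤ) + 1) (insert (-((N : ℤ) + 1)) (FF N)) := by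
      ext k; simp only [FF, mem_Icc, mem_insert]; omega
    have hN : (0 : ℝ) ≤ N := N.cast_nonneg
    rw [e, sum_insert (by simp only [FF, mem_Icc, mem_insert]; omega),
      sum_insert (by simp only [FF, mem_Icc]; omega)]
    push_cast
    rw [abs_neg, abs_of_pos (by linarith : (0 : ℝ) < N + 1)]
    split_ifs with h
    · rw [max_eq_left (by linarith)] at ih ⊢
      have hu : 0 < √(N : ℝ) := Real.sqrt_pos.2 (by linarith)
      have u2 := Real.sq_sqrt hN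
      have v2 := Real.sq_sqrt (show (0 : ℝ) ≤ N + 1 by linarith)
      have huv : √(N : ℝ) ≤ √(N + 1 : ℝ) := Real.sqrt_le_sqrt (by linarith)
      generalize √(N : ℝ) = u at *
      generalize √(N + 1 : ℝ) = v at *
      have hv : 0 < v := by linarith
      have : v⁻¹ ^ 3 ≤ 2 * (u⁻¹ - v⁻¹) := by
        have e1 : u⁻¹ - v⁻¹ = (u * v * (u + v))⁻¹ := by
          field_simp
          nlinarith
        rw [e1, inv_pow, ← div_eq_mul_inv, inv_eq_one_div, div_le_div_iff₀ (by positivity)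
          (by positivity)]
        have : u * (u + v) ≤ v * (v + v) := mul_le_mul huv (by linarith) (by linarith) hv.le
        nlinarith
      linarith
    · have : (√(max ((N : ℝ) + 1) (R - 1)))⁻¹ ≤ (√(max (N : ℝ) (R - 1)))⁻¹ :=
        inv_anti₀ (Real.sqrt_pos.2 (lt_max_of_lt_right (by linarith)))
          (Real.sqrt_le_sqrt (max_le_max (by linarith) le_rfl))
      linarith

theorem nfe_sum {R s : ℝ} (hR : 4 ≤ R) (hs : 3 / 2 ≤ s) (N : ℕ) :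
    ∑ k ∈ FF N, (if R ≤ |(k : ℝ)| then |(k : ℝ)| ^ (-s) else 0) ≤ 8 * R ^ (1 - s) := by
  have h0 : (0 : ℝ) < R := by linarith
  have h1 : (√(R - 1))⁻¹ ≤ 2 * R ^ (-(1 / 2) : ℝ) := by
    rw [Real.rpow_neg h0.le, ← Real.sqrt_eq_rpow, ← div_eq_mul_inv, inv_eq_one_div,
      div_le_div_iff₀ (Real.sqrt_pos.2 (by linarith)) (Real.sqrt_pos.2 h0), one_mul]
    refine Real.sqrt_le_iff.2 ⟨by positivity, ?_⟩
    rw [mul_pow, Real.sq_sqrt (by linarith)]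
    linarith
  have h2 := nfe_tel hR N
  have h3 : 0 ≤ (√(max (N : ℝ) (R - 1)))⁻¹ := by positivity
  have h4 : 0 ≤ R ^ (-(s - 3 / 2)) := by positivity
  calc _ ≤ ∑ k ∈ FF N, R ^ (-(s - 3 / 2)) *
        (if R ≤ |(k : ℝ)| then (√|(k : ℝ)|)⁻¹ ^ 3 else 0) := by
        refine sum_le_sum fun k _ => ?_
        split_ifs with h
        · rw [← nfe_pw (abs_nonneg _), show -s = -(s - 3 / 2) + -(3 / 2) by ring,
            Real.rpow_add (by linarith)]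
          exact mul_le_mul_of_nonneg_right (Real.rpow_le_rpow_of_nonpos h0 h (by linarith))
            (by positivity)
        · simp
    _ ≤ R ^ (-(s - 3 / 2)) * (8 * R ^ (-(1 / 2) : ℝ)) := by
        rw [← mul_sum]
        exact mul_le_mul_of_nonneg_left (by linarith) h4
    _ = _ := by
        rw [mul_left_comm, ← Real.rpow_add h0]
        congr 2
        ring

variable (Kc : ℕ) (a : ℤ → ℂ)

/-- the phase is large on the support of the symbol -/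
theorem nfs_Ph {α : ℝ} {ms mH m : ℕ} {y0 y : ℤ} (h1 : 1 / 2 ≤ α) (hm : ms + 8 ≤ m)
    (y1 : 2 ^ m ≤ 3 * y0) (y2 : 2 ^ m ≤ 3 * y) {k : Fin 4 → ℤ} (hk : De k = 0)
    (h : nfs ms mH y0 y k ≠ 0) :
    |(k 1 : ℝ)| < 2 * 2 ^ ms ∧ |(k 3 : ℝ)| < 2 * 2 ^ ms ∧ 2 ^ m / 4 ≤ |(k 0 : ℝ)| ∧
      2 ^ m / 4 ≤ |(k 2 : ℝ)| ∧ om α (k 0) / 2 ≤ Ph α k ∧ om α (k 2) / 2 ≤ Ph α k := by
  obtain ⟨ha, hb⟩ := mul_ne_zero_iff.1 h
  obtain ⟨l1, l3⟩ := mul_ne_zero_iff.1 (mul_ne_zero_iff.1 hb).1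
  have hM : (0 : ℝ) < 2 ^ ms := by positivity
  have a1 := trap_ne 0 hM l1
  have a3 := trap_ne 0 hM l3
  rw [Int.cast_zero, sub_zero] at a1 a3
  have hK : (256 : ℝ) * 2 ^ ms ≤ 2 ^ m := by
    have := pow_le_pow_right₀ (one_le_two (α := ℝ)) hm
    rw [pow_add] at this
    linarith
  have z1 : (2 : ℝ) ^ m ≤ 3 * y0 := by exact_mod_cast y1
  have z2 : (2 : ℝ) ^ m ≤ 3 * y := by exact_mod_cast y2
  have hz : ∀ x : ℤ, 3 * |(x : ℝ)| ≤ 2 ^ m → rE y x - rE y0 x = 0 := fun x hx => by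
    rw [rE, rE, max_eq_left (by linarith), max_eq_left (by linarith), sub_zero]
  have e : (k 0 : ℝ) - k 1 + k 2 - k 3 = 0 := by exact_mod_cast hk
  have e0 : |(k 0 : ℝ)| ≤ |(k 1 : ℝ)| + |(k 3 : ℝ)| + |(k 2 : ℝ)| := by
    rw [show (k 0 : ℝ) = k 1 + k 3 - k 2 by linarith]
    exact (abs_sub _ _).trans (by linarith [abs_add_le (k 1 : ℝ) (k 3)])
  have e2 : |(k 2 : ℝ)| ≤ |(k 1 : ℝ)| + |(k 3 : ℝ)| + |(k 0 : ℝ)| := by
    rw [show (k 2 : ℝ) = k 1 + k 3 - k 0 by linarith]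
    exact (abs_sub _ _).trans (by linarith [abs_add_le (k 1 : ℝ) (k 3)])
  have hh : (2 : ℝ) ^ m / 4 ≤ |(k 0 : ℝ)| ∧ (2 : ℝ) ^ m / 4 ≤ |(k 2 : ℝ)| := by
    by_cases c0 : 3 * |(k 0 : ℝ)| ≤ 2 ^ m
    · by_cases c2 : 3 * |(k 2 : ℝ)| ≤ 2 ^ m
      · exact (ha (by rw [hz _ c0, hz _ c2, add_zero])).elim
      · constructor <;> linarith
    · constructor <;> linarith
  have b1 := nfe_om h1 (x := k 0) (y := k 1) (by linarith)
  have b2 := nfe_om h1 (x := k 0) (y := k 3) (by linarith)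
  have b3 := nfe_om h1 (x := k 2) (y := k 1) (by linarith)
  have b4 := nfe_om h1 (x := k 2) (y := k 3) (by linarith)
  have p0 : 0 ≤ om α (k 0) := Real.rpow_nonneg (abs_nonneg _) _
  have p2 : 0 ≤ om α (k 2) := Real.rpow_nonneg (abs_nonneg _) _
  refine ⟨a1, a3, hh.1, hh.2, ?_, ?_⟩ <;> rw [Ph] <;> linarith

/-- the counting behind the sextic error -/
theorem nfe_key {w : (Fin 4 → ℤ) → ℝ} {R M S A0 A2 B1 B3 : ℝ} {d0 d2 x0 x1 x2 x3 : ℤ → ℝ}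
    (hS : 0 ≤ S) (h0 : ∀ k, 0 ≤ x0 k) (h1 : ∀ k, 0 ≤ x1 k) (h2 : ∀ k, 0 ≤ x2 k)
    (h3 : ∀ k, 0 ≤ x3 k)
    (hw : ∀ k, De k = 0 → w k ≠ 0 → |(k 1 : ℝ)| ≤ M ∧ |(k 3 : ℝ)| ≤ M ∧ R ≤ |(k 0 : ℝ)| ∧
      R ≤ |(k 2 : ℝ)| ∧ |w k| ≤ S * (|d0 (k 0)| * |d2 (k 2)|))
    (a0 : ∑ k ∈ FF Kc, (if R ≤ |(k : ℝ)| then d0 k * x0 k else 0) ^ 2 ≤ A0 ^ 2) (p0 : 0 ≤ A0)
    (a2 : ∑ k ∈ FF Kc, (if R ≤ |(k : ℝ)| then d2 k * x2 k else 0) ^ 2 ≤ A2 ^ 2) (p2 : 0 ≤ A2)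
    (hb : (∑ k ∈ FF Kc, if |(k : ℝ)| ≤ M then x1 k else 0) *
      (∑ k ∈ FF Kc, if |(k : ℝ)| ≤ M then x3 k else 0) ≤ B1 * B3) :
    ∑ k ∈ F4 Kc with De k = 0, |w k| * (x0 (k 0) * x1 (k 1) * x2 (k 2) * x3 (k 3)) ≤
      S * (A0 * A2 * (B1 * B3)) := by
  have h := cs Kc 0 (Equiv.swap 1 2) ![fun k => if R ≤ |(k : ℝ)| then d0 k * x0 k else 0,
    fun k => if |(k : ℝ)| ≤ M then x1 k else 0, fun k => if R ≤ |(k : ℝ)| then d2 k * x2 k else 0,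
    fun k => if |(k : ℝ)| ≤ M then x3 k else 0]
  have q0 : Equiv.swap (1 : Fin 4) 2 0 = 0 := by decide
  have q1 : Equiv.swap (1 : Fin 4) 2 1 = 2 := by decide
  have q2 : Equiv.swap (1 : Fin 4) 2 2 = 1 := by decide
  have q3 : Equiv.swap (1 : Fin 4) 2 3 = 3 := by decide
  have ab : ∀ x : ℤ → ℝ, (∀ k, 0 ≤ x k) → ∀ k : ℤ,
      |if |(k : ℝ)| ≤ M then x k else 0| = if |(k : ℝ)| ≤ M then x k else 0 := fun x hx k =>
    abs_of_nonneg (by split_ifs; exacts [hx k, le_rfl])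
  simp only [q0, q1, q2, q3, Fin.prod_univ_four, Matrix.cons_val_zero, Matrix.cons_val_one,
    Matrix.cons_val, ab x1 h1, ab x3 h3] at h
  have g : ∀ x : ℤ → ℝ, (∀ k, 0 ≤ x k) → 0 ≤ ∑ k ∈ FF Kc, if |(k : ℝ)| ≤ M then x k else 0 :=
    fun x hx => sum_nonneg fun k _ => by split_ifs; exacts [hx k, le_rfl]
  refine le_trans ?_ (mul_le_mul_of_nonneg_left (h.trans (mul_le_mul (mul_le_mul
    (Real.sqrt_le_iff.2 ⟨p0, a0⟩) (Real.sqrt_le_iff.2 ⟨p2, a2⟩) (Real.sqrt_nonneg _) p0) hb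
    (mul_nonneg (g x1 h1) (g x3 h3)) (mul_nonneg p0 p2))) hS)
  rw [mul_sum]
  refine sum_le_sum fun k hk => ?_
  by_cases c : w k = 0
  · rw [c, abs_zero, zero_mul, ← ab x1 h1, ← ab x3 h3]
    positivity
  obtain ⟨c1, c3, c0, c2, c4⟩ := hw k (mem_filter.1 hk).2 c
  rw [if_pos c0, if_pos c1, if_pos c2, if_pos c3, abs_mul, abs_mul, abs_of_nonneg (h0 _),
    abs_of_nonneg (h2 _)]
  refine (mul_le_mul_of_nonneg_right c4 ?_).trans (le_of_eq (by ring))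
  have := h0 (k 0); have := h1 (k 1); have := h2 (k 2); have := h3 (k 3)
  positivity

theorem nfe_lin {α : ℝ} {s : (Fin 4 → ℤ) → ℝ} {k : Fin 4 → ℤ} (h : s k ≠ 0 → Ph α k ≠ 0) :
    |(((s k / Ph α k : ℝ) : ℂ) *
      (Vf α Kc a (k 0) * conj (a (k 1)) * a (k 2) * conj (a (k 3)) +
        a (k 0) * conj (Vf α Kc a (k 1)) * a (k 2) * conj (a (k 3)) +
        a (k 0) * conj (a (k 1)) * Vf α Kc a (k 2) * conj (a (k 3)) +
        a (k 0) * conj (a (k 1)) * a (k 2) * conj (Vf α Kc a (k 3)))).re -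
      ((s k : ℂ) * Bq a k).im| ≤
      |s k / Ph α k| * (‖NL Kc a (k 0)‖ * ‖a (k 1)‖ * ‖a (k 2)‖ * ‖a (k 3)‖) +
      |s k / Ph α k| * (‖a (k 0)‖ * ‖NL Kc a (k 1)‖ * ‖a (k 2)‖ * ‖a (k 3)‖) +
      |s k / Ph α k| * (‖a (k 0)‖ * ‖a (k 1)‖ * ‖NL Kc a (k 2)‖ * ‖a (k 3)‖) +
      |s k / Ph α k| * (‖a (k 0)‖ * ‖a (k 1)‖ * ‖a (k 2)‖ * ‖NL Kc a (k 3)‖) := by
  have e : ((s k / Ph α k : ℝ) : ℂ) * (Ph α k : ℝ) = s k := by
    by_cases c : s k = 0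
    · simp [c]
    · rw [← Complex.ofReal_mul, div_mul_cancel₀ _ (h c)]
  have e2 : ((s k : ℂ) * Bq a k).im = (-I * ((s k : ℂ) * Bq a k)).re := by simp
  rw [e2, ← Complex.sub_re, ← e]
  refine (Complex.abs_re_le_norm _).trans ?_
  generalize s k / Ph α k = r
  have e3 : (r : ℂ) * (Vf α Kc a (k 0) * conj (a (k 1)) * a (k 2) * conj (a (k 3)) +
        a (k 0) * conj (Vf α Kc a (k 1)) * a (k 2) * conj (a (k 3)) +
        a (k 0) * conj (a (k 1)) * Vf α Kc a (k 2) * conj (a (k 3)) +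
        a (k 0) * conj (a (k 1)) * a (k 2) * conj (Vf α Kc a (k 3))) -
      -I * ((r : ℂ) * (Ph α k : ℝ) * Bq a k) =
      r * -I * (NL Kc a (k 0) * conj (a (k 1)) * a (k 2) * conj (a (k 3))) +
      r * I * (a (k 0) * conj (NL Kc a (k 1)) * a (k 2) * conj (a (k 3))) +
      r * -I * (a (k 0) * conj (a (k 1)) * NL Kc a (k 2) * conj (a (k 3))) +
      r * I * (a (k 0) * conj (a (k 1)) * a (k 2) * conj (NL Kc a (k 3))) := by
    simp only [Vf, Ph, Bq, map_mul, map_add, map_neg, conj_I, conj_ofReal]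
    push_cast
    ring
  rw [e3]
  refine (norm_add_le _ _).trans (add_le_add ((norm_add_le _ _).trans (add_le_add
    ((norm_add_le _ _).trans (add_le_add ?_ ?_)) ?_)) ?_) <;> simp

end Pool.Agent.Lib.MMTX
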