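import Pool.Agent.Lib.MP_0dc93f_an.X.TNum

/-! Consequences of the inequalities between the parameters. -/

namespace Pool.Agent.Lib.MMTX

open Finset Complex ComplexConjugate MMTW

theorem parf_sqrt {A x c : ℝ} (hA : 0 ≤ A) (hc : 0 ≤ c) (h : A ^ 2 * x ≤ c ^ 2) : A * √x ≤ c := by
  rw [← Real.sqrt_sq hA, ← Real.sqrt_mul (sq_nonneg A)]
  exact Real.sqrt_le_iff.2 ⟨hc, h⟩

namespace Par.OK

variable {p : Par} (h : p.OK)
include h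

omit h in
theorem L_cast : (p.L : ℝ) = 2 ^ p.l := by
  unfold Par.L; push_cast; rfl

theorem l100 : 100 ≤ p.l := by
  have h1 : 2 ^ 100 ≤ 2 ^ p.l := le_trans (Nat.le_mul_of_pos_right _ (by positivity)) h.L_big
  exact (Nat.pow_le_pow_iff_right (by norm_num)).1 h1

theorem L_ge2 : (2 : ℝ) ^ 100 ≤ p.L := h.L_one

theorem L60 : (p.L : ℝ) ^ 60 ≤ p.B := h.L_B

theorem L_le_B : (p.L : ℝ) ≤ p.B := (le_self_pow₀ h.L_ge (by norm_num)).trans h.L_B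

theorem B_ge : (2 : ℝ) ^ 100 ≤ p.B := h.L_one.trans h.L_le_B

theorem B_pos : 0 < p.B := lt_of_lt_of_le one_pos h.B_one

theorem η_le2 : p.η ≤ 1 / p.B ^ 100 := (le_div_iff₀ (pow_pos h.B_pos _)).2 h.h1

theorem η_le_one : p.η ≤ 1 := h.η_le

theorem B_le_M0 : p.B ^ 200 ≤ 2 ^ p.m0 := by
  have h1 : (p.η * p.B ^ 100) ^ 2 ≤ 1 :=
    pow_le_one₀ (mul_pos h.h0 (pow_pos h.B_pos _)).le h.h1
  calc p.B ^ 200 ≤ p.B ^ 200 * (p.η ^ 2 * 2 ^ p.m0) :=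
        le_mul_of_one_le_right (pow_pos h.B_pos _).le h.h3
    _ = (p.η * p.B ^ 100) ^ 2 * 2 ^ p.m0 := by ring
    _ ≤ 2 ^ p.m0 := mul_le_of_le_one_left (by positivity) h1

theorem ρ_ge : 1 ≤ p.ρ := h.ρ_one

theorem θ_le2 : p.θ ≤ p.η ^ 2 := div_le_self (sq_nonneg _) h.ρ_one

omit h in
theorem mb_four : p.mb 4 = p.E := by
  unfold Par.mb
  norm_num

theorem mb_le {m : ℕ} (hm : 4 ≤ m) : p.mb m ≤ p.E := (h.mb_anti hm).trans_eq mb_four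

theorem mb_le_rpow {m : ℕ} (hm : 4 ≤ m) : p.mb m ≤ 16 * p.E * ((2 : ℝ) ^ m) ^ (-p.α) := by
  have h1 : (1 : ℝ) ≤ 2 ^ m / 16 := by
    rw [le_div_iff₀ (by norm_num), one_mul]
    calc (16 : ℝ) = 2 ^ 4 := by norm_num
      _ ≤ 2 ^ m := pow_le_pow_right₀ (by norm_num) hm
  have h2 : ((2 : ℝ) ^ m / 16) ^ (-p.β) ≤ ((2 : ℝ) ^ m / 16) ^ (-p.α) :=
    Real.rpow_le_rpow_of_exponent_le h1 (by linarith [h.b1])
  have h3 : (16 : ℝ) ^ p.α ≤ 16 := by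
    calc (16 : ℝ) ^ p.α ≤ 16 ^ (1 : ℝ) := Real.rpow_le_rpow_of_exponent_le (by norm_num) h.a2.le
      _ = 16 := Real.rpow_one _
  have h4 : ((2 : ℝ) ^ m / 16) ^ (-p.α) = 16 ^ p.α * ((2 : ℝ) ^ m) ^ (-p.α) := by
    rw [Real.div_rpow (by positivity) (by norm_num), Real.rpow_neg (x := 16) (by norm_num),
      div_inv_eq_mul, mul_comm]
  have h5 : 0 ≤ ((2 : ℝ) ^ m) ^ (-p.α) := by positivity
  have hE : 0 ≤ p.E := by linarith [h.e1]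
  unfold Par.mb
  calc p.E * ((2 : ℝ) ^ m / 16) ^ (-p.β) ≤ p.E * (16 * ((2 : ℝ) ^ m) ^ (-p.α)) :=
        mul_le_mul_of_nonneg_left (h2.trans (h4.trans_le (mul_le_mul_of_nonneg_right h3 h5))) hE
    _ = _ := by ring

theorem mb_cmp (m n : ℕ) : p.mb m ≤ (2 ^ n) ^ 2 * p.mb (m + n) := h.mb_step m n

theorem mbN_le : p.mb p.mN * p.B ^ 50 ≤ 1 := by
  have h1 := h.m01
  have h2 := h.m02
  have h3 := h.m03
  have hB := h.B_pos
  have h4 : p.B ^ 200 ≤ 2 ^ p.mN := h.B_le_M0.trans (pow_le_pow_right₀ (by norm_num) (by omega))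
  have h5 : ((2 : ℝ) ^ p.mN) ^ (-p.α) ≤ (p.B ^ 100)⁻¹ := by
    calc ((2 : ℝ) ^ p.mN) ^ (-p.α) ≤ ((2 : ℝ) ^ p.mN) ^ (-(1 / 2 : ℝ)) :=
          Real.rpow_le_rpow_of_exponent_le (one_le_pow₀ (by norm_num)) (by linarith [h.a1])
      _ ≤ (p.B ^ 200) ^ (-(1 / 2 : ℝ)) :=
          Real.rpow_le_rpow_of_nonpos (by positivity) h4 (by norm_num)
      _ = (p.B ^ 100)⁻¹ := by
          rw [Real.rpow_neg (by positivity), ← Real.sqrt_eq_rpow,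
            show p.B ^ 200 = (p.B ^ 100) ^ 2 by ring, Real.sqrt_sq (by positivity)]
  have h6 : p.E ≤ p.B := h.e2.trans h.L_le_B
  have h7 : (16 : ℝ) ≤ p.B := le_trans (by norm_num) h.B_ge
  have hE : 0 ≤ p.E := by linarith [h.e1]
  calc p.mb p.mN * p.B ^ 50 ≤ p.B * p.B * (p.B ^ 100)⁻¹ * p.B ^ 50 := by
        gcongr
        exact (h.mb_le_rpow (by omega)).trans (by gcongr)
    _ = p.B ^ 52 / p.B ^ 100 := by ring
    _ ≤ 1 := (div_le_one (by positivity)).2 (pow_le_pow_right₀ h.B_one (by norm_num))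

theorem S0_ge2 : 1 ≤ p.S0 * 2 ^ p.mN := by
  calc (1 : ℝ) ≤ p.mb 4 := h.e1.trans_eq mb_four.symm
    _ ≤ (2 ^ p.mN) ^ 2 * p.mb (4 + p.mN) := h.mb_step _ _
    _ ≤ (2 ^ p.mN) ^ 2 * p.mb p.mN :=
        mul_le_mul_of_nonneg_left (h.mb_anti (by omega)) (by positivity)
    _ = _ := by unfold Par.S0; ring

theorem gg_mono {m m' : ℕ} (hm : m ≤ m') : p.gg m ≤ p.gg m' :=
  div_le_div_of_nonneg_left h.S0_pos.le (h.mb_pos _) (h.mb_anti (by omega))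

theorem gg_N {m : ℕ} (hm : p.mN ≤ m) : p.gg m = 2 ^ p.mN := by
  rw [← h.gg_mN]
  unfold Par.gg
  rw [min_eq_right hm, min_self]

theorem gg_cmp (m n : ℕ) : p.gg (m + n) ≤ (2 ^ n) ^ 2 * p.gg m := by
  have h1 : p.mb (min m p.mN) ≤ (2 ^ n) ^ 2 * p.mb (min (m + n) p.mN) :=
    (h.mb_step _ n).trans (mul_le_mul_of_nonneg_left (h.mb_anti (by omega)) (by positivity))
  unfold Par.gg
  rw [← mul_div_assoc, div_le_div_iff₀ (h.mb_pos _) (h.mb_pos _)]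
  calc _ ≤ p.S0 * ((2 ^ n) ^ 2 * p.mb (min (m + n) p.mN)) :=
        mul_le_mul_of_nonneg_left h1 h.S0_pos.le
    _ = _ := by ring

theorem kp_pos (m : ℕ) : 0 < p.kp m := div_pos (mul_pos h.B_pos (h.mb_pos m)) (by positivity)

theorem j_spec {m : ℕ} (hm : p.m0 ≤ m) : p.l ≤ p.j1 m ∧ p.j1 m < p.j0 m ∧ p.j0 m + 2 * p.l = m ∧
    4 * (p.l + p.j1 m) ≤ 3 * m := by
  have h1 := h.m01
  unfold Par.j1 Par.j0
  omega

theorem j0_le {m : ℕ} (hm : m ≤ p.mH) : (p.j0 m : ℝ) ≤ p.L := by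
  have h1 := h.l3
  have h2 : p.j0 m ≤ p.L := by unfold Par.j0; omega
  exact_mod_cast h2

theorem y0_spec (b : Bool) : 64 * |p.y0 b - p.x0| = 2 ^ p.mN ∧ 2 ^ p.mN ≤ 3 * p.y0 b := by
  have h1 := h.m01
  have h2 := h.m02
  have h3 := h.m03
  have e : (2 : ℤ) ^ p.mN = 64 * 2 ^ (p.mN - 6) := by
    rw [show p.mN = 6 + (p.mN - 6) by omega, pow_add, Nat.add_sub_cancel_left]
    norm_num
  have h4 := h.x1
  have h5 : (0 : ℤ) < 2 ^ (p.mN - 6) := by positivity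
  unfold Par.y0
  rw [e] at h4 ⊢
  generalize (2 : ℤ) ^ (p.mN - 6) = u at h4 h5 ⊢
  cases b
  · simp only [Bool.false_eq_true, if_false, add_sub_cancel_left, abs_of_pos h5]
    exact ⟨trivial, by omega⟩
  · simp only [if_true, sub_sub_cancel_left, abs_neg, abs_of_pos h5]
    exact ⟨trivial, by omega⟩

theorem far_const : 2 ^ 80 * (((p.mH : ℝ) + 1) * 8 * 2 ^ (2 * p.l)) ^ 4 * 2 ^ p.l ≤ p.B := by
  have h1 : (p.mH : ℝ) + 1 ≤ p.L := by exact_mod_cast h.l3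
  have e : (2 : ℝ) ^ (2 * p.l) = (p.L : ℝ) ^ 2 := by rw [L_cast, ← pow_mul, mul_comm]
  have h2 : (2 : ℝ) ^ 92 ≤ p.L := le_trans (pow_le_pow_right₀ (by norm_num) (by norm_num)) h.L_one
  rw [e, ← L_cast]
  calc 2 ^ 80 * (((p.mH : ℝ) + 1) * 8 * (p.L : ℝ) ^ 2) ^ 4 * p.L
      ≤ 2 ^ 80 * ((p.L : ℝ) * 8 * (p.L : ℝ) ^ 2) ^ 4 * p.L := by gcongr
    _ = 2 ^ 92 * (p.L : ℝ) ^ 13 := by ring
    _ ≤ p.L * (p.L : ℝ) ^ 13 := by gcongr
    _ = (p.L : ℝ) ^ 14 := by ring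
    _ ≤ (p.L : ℝ) ^ 60 := pow_le_pow_right₀ h.L_ge (by norm_num)
    _ ≤ p.B := h.L_B

theorem far_gen {a : ℤ → ℂ} {m : ℕ} {A δ Y Ξl Ξh : ℝ} (hY : 0 ≤ Y) (hA : 0 ≤ A) (hδ : 0 ≤ δ)
    (h1 : A ≤ 2 ^ p.mN) (h2 : A ^ 2 * (Ξl * Ξh) ≤ (δ * (Y + p.S0)) ^ 2)
    (h3 : A ^ 2 * (2 ^ p.m0 * p.E * tail p.Kc a (2 ^ m / 1024) * Ξh) ≤ (δ * (Y + p.S0)) ^ 2)
    (h4 : 4 * δ * p.B ^ 5 ≤ 1) :
    A * farB p.Kc a p.l p.m0 p.mH m p.E p.εH Ξl Ξh ≤ (Y + p.S0) / p.B ^ 4 := by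
  have hB := h.B_pos
  have hS := h.S0_pos
  have hc : 0 ≤ δ * (Y + p.S0) := by positivity
  have h5 := parf_sqrt hA hc h2
  have h6 := parf_sqrt hA hc h3
  have h7 := h.far_const
  have h8 : (8 : ℝ) ≤ p.B := le_trans (by norm_num) h.B_ge
  have hε := h.ε0
  have h9 : A * (4 * p.εH) * p.B ^ 4 ≤ p.S0 / 2 := by
    calc A * (4 * p.εH) * p.B ^ 4 = A * p.εH * (p.B ^ 4 * 8) / 2 := by ring
      _ ≤ 2 ^ p.mN * p.εH * (p.B ^ 4 * p.B) / 2 := by gcongr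
      _ = 2 ^ p.mN * p.εH * p.B ^ 5 / 2 := by ring
      _ ≤ p.S0 / 2 := by gcongr; exact h.ε1
  unfold farB
  generalize 2 ^ 80 * (((p.mH : ℝ) + 1) * 8 * 2 ^ (2 * p.l)) ^ 4 * 2 ^ p.l = C at h7
  have hx := Real.sqrt_nonneg (Ξl * Ξh)
  have hy := Real.sqrt_nonneg (2 ^ p.m0 * p.E * tail p.Kc a (2 ^ m / 1024) * Ξh)
  generalize √(Ξl * Ξh) = x at h5 hx
  generalize √(2 ^ p.m0 * p.E * tail p.Kc a (2 ^ m / 1024) * Ξh) = y at h6 hy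
  have h10 : C * (A * x + A * y) * p.B ^ 4 ≤ (Y + p.S0) / 2 := by
    calc C * (A * x + A * y) * p.B ^ 4
        ≤ p.B * (δ * (Y + p.S0) + δ * (Y + p.S0)) * p.B ^ 4 := by
          refine mul_le_mul_of_nonneg_right ?_ (by positivity)
          exact mul_le_mul h7 (add_le_add h5 h6) (by positivity) hB.le
      _ = 4 * δ * p.B ^ 5 * ((Y + p.S0) / 2) := by ring
      _ ≤ (Y + p.S0) / 2 := mul_le_of_le_one_left (by positivity) h4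
  rw [le_div_iff₀ (pow_pos hB 4)]
  have e : A * (4 * p.εH + C * (x + y)) * p.B ^ 4 =
      A * (4 * p.εH) * p.B ^ 4 + C * (A * x + A * y) * p.B ^ 4 := by ring
  rw [e]
  linarith

theorem E_B : 2 ^ 12 * p.E ≤ p.B := by
  have h2 : (2 : ℝ) ^ 12 ≤ p.L := le_trans (pow_le_pow_right₀ (by norm_num) (by norm_num)) h.L_one
  have hE : 0 ≤ p.E := by linarith [h.e1]
  calc 2 ^ 12 * p.E ≤ (p.L : ℝ) * p.L := mul_le_mul h2 h.e2 hE (Nat.cast_nonneg _)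
    _ = (p.L : ℝ) ^ 2 := by ring
    _ ≤ (p.L : ℝ) ^ 60 := pow_le_pow_right₀ h.L_ge (by norm_num)
    _ ≤ p.B := h.L_B

variable {a : ℤ → ℂ} (ha : p.Amb a)
include ha

theorem mass_le : tail p.Kc a 1 ≤ p.E := by
  have _ := h.g1
  have h1 := ha.tl 1 one_pos
  rwa [Real.one_rpow, mul_one] at h1

theorem tail16 (m : ℕ) : tail p.Kc a (2 ^ m / 16) ≤ p.mb m := by
  have _ := h.g1
  exact ha.tl _ (by positivity)

theorem tail1024 (m : ℕ) : tail p.Kc a (2 ^ m / 1024) ≤ 2 ^ 12 * p.mb m := by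
  refine (ha.tl _ (by positivity)).trans ?_
  have h3 : (64 : ℝ) ^ p.β ≤ 2 ^ 12 := by
    calc (64 : ℝ) ^ p.β ≤ 64 ^ (2 : ℝ) := Real.rpow_le_rpow_of_exponent_le (by norm_num) h.b2
      _ = 2 ^ 12 := by rw [Real.rpow_two]; norm_num
  have h4 : ((2 : ℝ) ^ m / 1024) ^ (-p.β) = 64 ^ p.β * ((2 : ℝ) ^ m / 16) ^ (-p.β) := by
    rw [show (2 : ℝ) ^ m / 1024 = 2 ^ m / 16 / 64 by ring,
      Real.div_rpow (by positivity) (by norm_num), Real.rpow_neg (x := 64) (by norm_num),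
      div_inv_eq_mul, mul_comm]
  have hE : 0 ≤ p.E := by linarith [h.e1]
  have h5 : 0 ≤ ((2 : ℝ) ^ m / 16) ^ (-p.β) := by positivity
  unfold Par.mb
  rw [h4]
  calc p.E * (64 ^ p.β * ((2 : ℝ) ^ m / 16) ^ (-p.β))
      ≤ p.E * (2 ^ 12 * ((2 : ℝ) ^ m / 16) ^ (-p.β)) := by gcongr
    _ = _ := by ring

theorem E_tail (m : ℕ) : p.E * tail p.Kc a (2 ^ m / 1024) ≤ p.B * p.mb m := by
  have hE : 0 ≤ p.E := by linarith [h.e1]
  calc p.E * tail p.Kc a (2 ^ m / 1024) ≤ p.E * (2 ^ 12 * p.mb m) :=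
        mul_le_mul_of_nonneg_left (h.tail1024 ha m) hE
    _ = 2 ^ 12 * p.E * p.mb m := by ring
    _ ≤ p.B * p.mb m := mul_le_mul_of_nonneg_right h.E_B (h.mb_pos m).le

/-- the far step at a top cut -/
theorem far_top {Y wt : ℝ} {m : ℕ} (hY : 0 ≤ Y) (h0 : 0 ≤ wt) (hw : wt * 2 ^ m ≤ p.θ * p.gg m) :
    wt * (2 ^ m * farB p.Kc a p.l p.m0 p.mH m p.E p.εH (Y * p.B * p.ρ / p.gg m)
      (Y * p.B * p.ρ / p.gg m)) ≤ (Y + p.S0) / p.B ^ 4 := by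
  have hB := h.B_pos
  have hS := h.S0_pos
  have hη := h.h0
  have hg := h.gg_pos m
  have hθ := h.θ_pos
  have hρ : 0 < p.ρ := lt_of_lt_of_le one_pos h.ρ_one
  have hA : 0 ≤ wt * 2 ^ m := by positivity
  have hm := h.mb_pos m
  have eθ : p.θ * p.ρ = p.η ^ 2 := div_mul_cancel₀ _ hρ.ne'
  have e1 : p.θ * p.gg m * (Y * p.B * p.ρ / p.gg m) = p.η ^ 2 * p.B * Y := by
    rw [← eθ]; field_simp
  rw [← mul_assoc]
  refine h.far_gen (δ := p.η ^ 2 * p.B) hY hA (by positivity) ?_ ?_ ?_ ?_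
  · exact hw.trans ((mul_le_of_le_one_left hg.le (h.θ_le.trans h.η_le)).trans (h.gg_le m))
  · calc (wt * 2 ^ m) ^ 2 * (Y * p.B * p.ρ / p.gg m * (Y * p.B * p.ρ / p.gg m))
        ≤ (p.θ * p.gg m) ^ 2 * (Y * p.B * p.ρ / p.gg m * (Y * p.B * p.ρ / p.gg m)) := by gcongr
      _ = (p.θ * p.gg m * (Y * p.B * p.ρ / p.gg m)) ^ 2 := by ring
      _ = (p.η ^ 2 * p.B * Y) ^ 2 := by rw [e1]
      _ ≤ _ := by gcongr; linarith
  · have hM : (2 : ℝ) ^ p.m0 ≤ p.ρ := le_self_pow₀ (one_le_pow₀ (by norm_num)) (by norm_num)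
    have ht : 0 ≤ p.E * tail p.Kc a (2 ^ m / 1024) :=
      mul_nonneg (by linarith [h.e1]) (sum_nonneg fun _ _ => by positivity)
    calc (wt * 2 ^ m) ^ 2 * (2 ^ p.m0 * p.E * tail p.Kc a (2 ^ m / 1024) * (Y * p.B * p.ρ / p.gg m))
        = (wt * 2 ^ m) ^ 2 *
          (2 ^ p.m0 * (p.E * tail p.Kc a (2 ^ m / 1024)) * (Y * p.B * p.ρ / p.gg m)) := by ring
      _ ≤ (p.θ * p.gg m) ^ 2 * (p.ρ * (p.B * p.mb m) * (Y * p.B * p.ρ / p.gg m)) := by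
          refine mul_le_mul (pow_le_pow_left₀ hA hw 2) (mul_le_mul_of_nonneg_right
            (mul_le_mul hM (h.E_tail ha m) ht hρ.le) (by positivity)) (by positivity) (by positivity)
      _ = p.θ * p.gg m * (Y * p.B * p.ρ / p.gg m) * (p.θ * p.ρ) * p.B * (p.gg m * p.mb m) := by
          ring
      _ = (p.η ^ 2 * p.B) ^ 2 * (Y * (p.gg m * p.mb m)) := by rw [e1, eθ]; ring
      _ ≤ (p.η ^ 2 * p.B) ^ 2 * ((Y + p.S0) * (Y + p.S0)) := by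
          gcongr
          · linarith
          · linarith [h.gg_mb m]
      _ = _ := by ring
  · have h4 : (4 : ℝ) ≤ p.B := le_trans (by norm_num) h.B_ge
    calc 4 * (p.η ^ 2 * p.B) * p.B ^ 5 ≤ p.B * (p.η ^ 2 * p.B) * p.B ^ 5 := by gcongr
      _ = p.η * (p.η * p.B ^ 7) := by ring
      _ ≤ 1 := mul_le_one₀ h.η_le (by positivity) (h.η_B (by norm_num))

/-- the far step at the root -/
theorem far_root {Y : ℝ} (hY : 0 ≤ Y) :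
    2 ^ p.mN * farB p.Kc a p.l p.m0 p.mH p.mN p.E p.εH (Y * p.B * p.ρ / 2 ^ p.mN)
      (Y * p.B / (2 ^ p.mN * p.ρ ^ 2)) ≤ (Y + p.S0) / p.B ^ 4 := by
  have hB := h.B_pos
  have hS := h.S0_pos
  have hm := h.mb_pos p.mN
  have hK : (0 : ℝ) < 2 ^ p.mN := by positivity
  have hM : (1 : ℝ) ≤ 2 ^ p.m0 := one_le_pow₀ (by norm_num)
  have hBM := h.B_le_M0
  have ht := h.E_tail ha p.mN
  have eS : p.S0 = 2 ^ p.mN * p.mb p.mN := rfl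
  refine h.far_gen (δ := p.B / 2 ^ p.m0) hY hK.le (by positivity) le_rfl ?_ ?_ ?_
  · unfold Par.ρ
    calc _ = (p.B / 2 ^ p.m0 * Y) ^ 2 := by field_simp
      _ ≤ _ := by gcongr; linarith
  · unfold Par.ρ
    rw [mul_assoc ((2 : ℝ) ^ p.m0)]
    generalize p.E * tail p.Kc a (2 ^ p.mN / 1024) = T at ht
    generalize (2 : ℝ) ^ p.m0 = M at hM
    calc (2 ^ p.mN) ^ 2 * (M * T * (Y * p.B / (2 ^ p.mN * (M ^ 2) ^ 2)))
        ≤ (2 ^ p.mN) ^ 2 * (M ^ 2 * (p.B * p.mb p.mN) * (Y * p.B / (2 ^ p.mN * (M ^ 2) ^ 2))) := by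
          refine mul_le_mul_of_nonneg_left (mul_le_mul_of_nonneg_right ?_ (by positivity))
            (by positivity)
          exact (mul_le_mul_of_nonneg_left ht (by positivity)).trans
            (mul_le_mul_of_nonneg_right (le_self_pow₀ hM (by norm_num)) (by positivity))
      _ = (p.B / M) ^ 2 * (Y * p.S0) := by rw [eS]; field_simp
      _ ≤ (p.B / M) ^ 2 * ((Y + p.S0) * (Y + p.S0)) := by
          gcongr
          · linarith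
          · linarith
      _ = _ := by ring
  · have h4 : (4 : ℝ) ≤ p.B := le_trans (by norm_num) h.B_ge
    calc 4 * (p.B / 2 ^ p.m0) * p.B ^ 5 ≤ p.B * (p.B / p.B ^ 200) * p.B ^ 5 := by gcongr
      _ = p.B ^ 7 / p.B ^ 200 := by ring
      _ ≤ 1 := (div_le_one (by positivity)).2 (pow_le_pow_right₀ h.B_one (by norm_num))

end Par.OK

end Pool.Agent.Lib.MMTX
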