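import Pool.Agent.Lib.MP_0dc93f_an.X.Defs

/-! The Poisson kernel on the circle and domination of Fourier multipliers. -/

namespace Pool.Agent.Lib.MMTX

open Finset Complex ComplexConjugate MMTW

noncomputable section

lemma po_den {t : ℝ} (ht : 0 < t) (x : ℝ) : 0 < Real.cosh t - Real.cos x := by
  have h1 := Real.one_lt_cosh.2 ht.ne'
  have h2 := Real.cos_le_one x
  linarith

lemma po_pos {t : ℝ} (ht : 0 < t) (x : ℝ) : 0 < Pk t x :=
  div_pos (Real.sinh_pos_iff.2 ht) (po_den ht x)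

lemma po_cont {t : ℝ} (ht : 0 < t) : Continuous (Pk t) := by
  unfold Pk
  exact continuous_const.div (by fun_prop) fun x => (po_den ht x).ne'

lemma po_neg (t x : ℝ) : Pk t (-x) = Pk t x := by simp [Pk]

lemma po_mul {t : ℝ} (ht : 0 < t) (x : ℝ) :
    (Real.cosh t - Real.cos x) * Pk t x = Real.sinh t := by
  unfold Pk
  have := (po_den ht x).ne'
  field_simp

lemma po_sinh_half {u : ℝ} (h0 : 0 ≤ u) (h1 : u ≤ 1) :
    Real.sinh u ≤ 61 / 50 * u ∧ Real.cosh u ≤ 39 / 25 := by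
  have a1 := Real.exp_bound (x := u) (by rw [abs_of_nonneg h0]; exact h1) (n := 4) (by norm_num)
  have a2 := Real.exp_bound (x := -u) (by rw [abs_neg, abs_of_nonneg h0]; exact h1) (n := 4)
    (by norm_num)
  rw [abs_neg] at a2
  rw [abs_of_nonneg h0] at a1 a2
  simp only [Finset.sum_range_succ, Finset.sum_range_zero, Nat.factorial] at a1 a2
  norm_num at a1 a2
  have b1 := abs_le.1 a1
  have b2 := abs_le.1 a2
  have u2 : u ^ 2 ≤ u := by nlinarith
  have u3 : u ^ 3 ≤ u := by nlinarith [pow_nonneg h0 2]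
  have u4 : u ^ 4 ≤ u := by nlinarith [pow_nonneg h0 3]
  have e3 : (-u) ^ 3 = -u ^ 3 := by ring
  rw [e3] at b2
  rw [Real.sinh_eq, Real.cosh_eq]
  constructor <;> linarith [b1.1, b1.2, b2.1, b2.2]

lemma po_sinh_le {t : ℝ} (h0 : 0 ≤ t) (h2 : t ≤ 2) : Real.sinh t ≤ 2 * t := by
  obtain ⟨a, b⟩ := po_sinh_half (u := t / 2) (by linarith) (by linarith)
  have e : Real.sinh t = 2 * Real.sinh (t / 2) * Real.cosh (t / 2) := by
    rw [← Real.sinh_two_mul]; congr 1; ring
  have s0 : 0 ≤ Real.sinh (t / 2) := Real.sinh_nonneg_iff.2 (by linarith)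
  have c0 := Real.cosh_pos (t / 2)
  rw [e]
  nlinarith [mul_le_mul a b c0.le (by positivity)]

lemma po_cosh_half (t : ℝ) : Real.cosh t - 1 = 2 * Real.sinh (t / 2) ^ 2 := by
  have e : Real.cosh t = Real.cosh (t / 2) ^ 2 + Real.sinh (t / 2) ^ 2 := by
    rw [← Real.cosh_two_mul]; congr 1; ring
  rw [e, Real.cosh_sq]; ring

lemma po_cosh_le {t : ℝ} (h0 : 0 ≤ t) (h2 : t ≤ 2) : Real.cosh t - 1 ≤ t ^ 2 := by
  obtain ⟨a, -⟩ := po_sinh_half (u := t / 2) (by linarith) (by linarith)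
  have s0 : 0 ≤ Real.sinh (t / 2) := Real.sinh_nonneg_iff.2 (by linarith)
  rw [po_cosh_half]
  nlinarith [mul_le_mul a a s0 (by positivity)]

lemma po_cosh_ge {t : ℝ} (h0 : 0 ≤ t) : t ^ 2 / 2 ≤ Real.cosh t - 1 := by
  have a : t / 2 ≤ Real.sinh (t / 2) := Real.self_le_sinh_iff.2 (by linarith)
  rw [po_cosh_half]
  nlinarith [mul_le_mul a a (by linarith) (by linarith)]

lemma po_cosh_sinh {t : ℝ} (h0 : 0 ≤ t) : Real.cosh t - 1 ≤ t * Real.sinh t := by
  have h1 : Real.cosh t - 1 ≤ Real.sinh t := by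
    have := Real.cosh_sub_sinh t
    have h2 : Real.exp (-t) ≤ 1 := Real.exp_le_one_iff.2 (by linarith)
    linarith
  have s0 : 0 ≤ Real.sinh t := Real.sinh_nonneg_iff.2 h0
  rcases le_total t 1 with h | h
  · have a : t ≤ Real.sinh t := Real.self_le_sinh_iff.2 h0
    have b := po_cosh_le h0 (by linarith)
    nlinarith
  · nlinarith

/-- (K2) comparison of two Poisson kernels -/
theorem po_K2 {s t M : ℝ} (hs : 0 < s) (ht : 0 < t) (hs2 : s ≤ 2) (ht2 : t ≤ 2)
    (h1 : s ≤ M * t) (h2 : t ≤ M * s) (x : ℝ) : Pk s x ≤ 4 * M * Pk t x := by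
  have hM : 0 < M := by
    by_contra h
    have : M * t ≤ 0 := mul_nonpos_of_nonpos_of_nonneg (not_lt.1 h) ht.le
    linarith
  have ds := po_den hs x
  have dt := po_den ht x
  unfold Pk
  rw [← mul_div_assoc, div_le_div_iff₀ ds dt]
  have a1 := po_sinh_le hs.le hs2
  have a2 : t ≤ Real.sinh t := Real.self_le_sinh_iff.2 ht.le
  have a3 := po_cosh_le ht.le ht2
  have a4 := po_cosh_ge hs.le
  have a5 := po_cosh_ge ht.le
  have c1 : 0 ≤ 1 - Real.cos x := by linarith [Real.cos_le_one x]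
  have s0 : 0 < Real.sinh s := Real.sinh_pos_iff.2 hs
  have b1 : Real.sinh s ≤ 4 * M * Real.sinh t := by nlinarith
  have b2 : Real.sinh s * (Real.cosh t - 1) ≤ 4 * M * Real.sinh t * (Real.cosh s - 1) := by
    have e1 : Real.sinh s * (Real.cosh t - 1) ≤ 2 * s * t ^ 2 :=
      mul_le_mul a1 a3 (by nlinarith) (by linarith)
    have e2 : t * (s ^ 2 / 2) ≤ Real.sinh t * (Real.cosh s - 1) :=
      mul_le_mul a2 a4 (by positivity) (by linarith)
    have e3 : 2 * s * t * t ≤ 2 * s * t * (M * s) :=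
      mul_le_mul_of_nonneg_left h2 (by positivity)
    nlinarith
  nlinarith [mul_le_mul_of_nonneg_right b1 c1]

lemma po_cos (x : ℝ) : ((2 * Real.cos x : ℝ) : ℂ) = ex x 1 + ex x (-1) := by
  unfold ex
  push_cast
  rw [Complex.two_cos]
  congr 2 <;> ring

/-- Fourier coefficients of the Poisson kernel -/
theorem po_coef {t : ℝ} (ht : 0 < t) (k : ℤ) :
    ((2 * Real.pi : ℝ) : ℂ)⁻¹ * ∫ y in (0 : ℝ)..(2 * Real.pi), (Pk t y : ℂ) * ex y k =
      (Real.exp (-(t * |(k : ℝ)|)) : ℝ) := by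
  set c : ℤ → ℂ := fun k =>
    ((2 * Real.pi : ℝ) : ℂ)⁻¹ * ∫ y in (0 : ℝ)..(2 * Real.pi), (Pk t y : ℂ) * ex y k with hc
  have hP : Continuous fun y => (Pk t y : ℂ) := continuous_ofReal.comp (po_cont ht)
  have hI : ∀ k, IntervalIntegrable (fun y => (Pk t y : ℂ) * ex y k) MeasureTheory.volume 0
      (2 * Real.pi) := fun k => (hP.mul (cont_ex k)).intervalIntegrable _ _
  have r1 : ∀ k, ((2 * Real.cosh t : ℝ) : ℂ) * c k - (c (k + 1) + c (k - 1)) =
      if k = 0 then ((2 * Real.sinh t : ℝ) : ℂ) else 0 := by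
    intro k
    have e : ∀ y, ((2 * Real.cosh t : ℝ) : ℂ) * ((Pk t y : ℂ) * ex y k) -
        ((Pk t y : ℂ) * ex y (k + 1) + (Pk t y : ℂ) * ex y (k - 1)) =
        ((2 * Real.sinh t : ℝ) : ℂ) * ex y k := by
      intro y
      have h1 := po_cos y
      have h2 : ((Real.sinh t : ℝ) : ℂ) = (((Real.cosh t - Real.cos y) * Pk t y : ℝ) : ℂ) := by
        rw [po_mul ht]
      rw [sub_eq_add_neg k 1, ex_add, ex_add]
      rw [ofReal_mul] at h1 ⊢
      rw [ofReal_mul 2 (Real.sinh t), h2, ofReal_mul, ofReal_sub]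
      linear_combination ((Pk t y : ℂ) * ex y k) * h1
    have e2 : ((2 * Real.cosh t : ℝ) : ℂ) * c k - (c (k + 1) + c (k - 1)) =
        ((2 * Real.pi : ℝ) : ℂ)⁻¹ * ∫ y in (0 : ℝ)..(2 * Real.pi),
          ((2 * Real.sinh t : ℝ) : ℂ) * ex y k := by
      simp only [← e]
      rw [intervalIntegral.integral_sub ((hI k).const_mul _) ((hI _).add (hI _)),
        intervalIntegral.integral_add (hI _) (hI _), intervalIntegral.integral_const_mul]
      simp only [hc]
      ring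
    rw [e2, intervalIntegral.integral_const_mul, mul_left_comm, avg_ex]
    split_ifs <;> simp
  set r : ℤ → ℝ := fun k => Real.exp (-(t * |(k : ℝ)|)) with hr
  have r2 : ∀ k, 2 * Real.cosh t * r k - (r (k + 1) + r (k - 1)) =
      if k = 0 then 2 * Real.sinh t else 0 := by
    intro k
    simp only [hr]
    rw [Real.cosh_eq, Real.sinh_eq]
    rcases lt_trichotomy k 0 with h | h | h
    · have h' : (k : ℝ) ≤ -1 := by exact_mod_cast (by omega : k ≤ -1)
      rw [if_neg h.ne]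
      push_cast
      rw [abs_of_nonpos (by linarith), abs_of_nonpos (by linarith), abs_of_nonpos (by linarith)]
      have e1 : -(t * -((k : ℝ) + 1)) = t + -(t * -(k : ℝ)) := by ring
      have e2 : -(t * -((k : ℝ) - 1)) = -t + -(t * -(k : ℝ)) := by ring
      rw [e1, e2, Real.exp_add, Real.exp_add]
      ring
    · subst h
      simp
      ring
    · have h' : (1 : ℝ) ≤ k := by exact_mod_cast (by omega : 1 ≤ k)
      rw [if_neg h.ne']
      push_cast
      rw [abs_of_nonneg (by linarith), abs_of_nonneg (by linarith), abs_of_nonneg (by linarith)]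
      have e1 : -(t * ((k : ℝ) + 1)) = -t + -(t * (k : ℝ)) := by ring
      have e2 : -(t * ((k : ℝ) - 1)) = t + -(t * (k : ℝ)) := by ring
      rw [e1, e2, Real.exp_add, Real.exp_add]
      ring
  set d : ℤ → ℂ := fun k => c k - r k with hd
  have r3 : ∀ k, ((Real.cosh t : ℝ) : ℂ) * d k = (d (k + 1) + d (k - 1)) / 2 := by
    intro k
    have h1 := r1 k
    have h2 : ((2 * Real.cosh t * r k - (r (k + 1) + r (k - 1)) : ℝ) : ℂ) =
        if k = 0 then ((2 * Real.sinh t : ℝ) : ℂ) else 0 := by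
      rw [r2]; split_ifs <;> simp
    rw [← h2] at h1
    simp only [hd]
    simp only [ofReal_sub, ofReal_mul, ofReal_add, ofReal_ofNat] at h1
    linear_combination (1 / 2 : ℂ) * h1
  set M : ℝ := ‖((2 * Real.pi : ℝ) : ℂ)⁻¹‖ * (∫ y in (0 : ℝ)..(2 * Real.pi), Pk t y) + 1 with hM
  have b0 : ∀ k, ‖d k‖ ≤ M := by
    intro k
    refine (norm_sub_le _ _).trans (add_le_add ?_ ?_)
    · simp only [hc]
      rw [norm_mul]
      refine mul_le_mul_of_nonneg_left ?_ (norm_nonneg _)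
      refine (intervalIntegral.norm_integral_le_integral_norm Real.two_pi_pos.le).trans
        (le_of_eq ?_)
      congr 1
      ext y
      rw [norm_mul, norm_ex, mul_one, Complex.norm_real, Real.norm_of_nonneg (po_pos ht y).le]
    · rw [Complex.norm_real, Real.norm_of_nonneg (Real.exp_pos _).le]
      exact Real.exp_le_one_iff.2 (by have := abs_nonneg (k : ℝ); nlinarith)
  have c1 := Real.one_lt_cosh.2 ht.ne'
  have bn : ∀ n : ℕ, ∀ k, Real.cosh t ^ n * ‖d k‖ ≤ M := by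
    intro n
    induction n with
    | zero => simpa using b0
    | succ n ih =>
      intro k
      have h1 : Real.cosh t * ‖d k‖ ≤ (‖d (k + 1)‖ + ‖d (k - 1)‖) / 2 := by
        have h2 := congrArg norm (r3 k)
        rw [norm_mul, Complex.norm_real, Real.norm_of_nonneg (by linarith), norm_div] at h2
        rw [h2]
        have := norm_add_le (d (k + 1)) (d (k - 1))
        simp only [Complex.norm_ofNat]
        linarith
      have h3 := mul_le_mul_of_nonneg_left h1 (pow_nonneg (by linarith : 0 ≤ Real.cosh t) n)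
      have h4 := ih (k + 1)
      have h5 := ih (k - 1)
      rw [pow_succ]
      nlinarith
  have : d k = 0 := by
    by_contra h
    have h1 : 0 < ‖d k‖ := norm_pos_iff.2 h
    obtain ⟨n, hn⟩ := pow_unbounded_of_one_lt (M / ‖d k‖) c1
    rw [div_lt_iff₀ h1] at hn
    linarith [bn n k]
  exact sub_eq_zero.1 this

/-! ### averages -/

lemma av_coe (g : ℝ → ℝ) : ((av g : ℝ) : ℂ) = avc fun x => (g x : ℂ) := by
  unfold av avc
  rw [ofReal_mul, ofReal_inv, intervalIntegral.integral_ofReal]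

lemma av_mono {f g : ℝ → ℝ} (hf : Continuous f) (hg : Continuous g) (h : ∀ x, f x ≤ g x) :
    av f ≤ av g :=
  mul_le_mul_of_nonneg_left (intervalIntegral.integral_mono_on Real.two_pi_pos.le
    (hf.intervalIntegrable _ _) (hg.intervalIntegrable _ _) fun x _ => h x) (by positivity)

lemma av_nonneg {f : ℝ → ℝ} (h : ∀ x, 0 ≤ f x) : 0 ≤ av f :=
  mul_nonneg (by positivity) (intervalIntegral.integral_nonneg Real.two_pi_pos.le fun x _ => h x)

lemma av_add {f g : ℝ → ℝ} (hf : Continuous f) (hg : Continuous g) :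
    av (fun x => f x + g x) = av f + av g := by
  unfold av
  rw [intervalIntegral.integral_add (hf.intervalIntegrable _ _) (hg.intervalIntegrable _ _)]
  ring

lemma av_smul (c : ℝ) (f : ℝ → ℝ) : av (fun x => c * f x) = c * av f := by
  unfold av
  rw [intervalIntegral.integral_const_mul]
  ring

lemma av_const (c : ℝ) : av (fun _ => c) = c := by
  unfold av
  have := Real.pi_pos.ne'
  simp only [intervalIntegral.integral_const, sub_zero, smul_eq_mul]
  field_simp

lemma av_sum {ι : Type} (s : Finset ι) (f : ι → ℝ → ℝ) (hf : ∀ i ∈ s, Continuous (f i)) :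
    av (fun x => ∑ i ∈ s, f i x) = ∑ i ∈ s, av (f i) := by
  unfold av
  rw [intervalIntegral.integral_finsetSum fun i hi => (hf i hi).intervalIntegrable _ _,
    Finset.mul_sum]

lemma avc_norm (g : ℝ → ℂ) : ‖avc g‖ ≤ av fun x => ‖g x‖ := by
  unfold av avc
  rw [norm_mul, norm_inv, Complex.norm_real, Real.norm_of_nonneg Real.two_pi_pos.le]
  exact mul_le_mul_of_nonneg_left
    (intervalIntegral.norm_integral_le_integral_norm Real.two_pi_pos.le) (by positivity)

lemma avc_smul (c : ℂ) (f : ℝ → ℂ) : avc (fun x => c * f x) = c * avc f := by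
  unfold avc
  rw [intervalIntegral.integral_const_mul]
  ring

lemma avc_sum {ι : Type} (s : Finset ι) (f : ι → ℝ → ℂ) (hf : ∀ i ∈ s, Continuous (f i)) :
    avc (fun x => ∑ i ∈ s, f i x) = ∑ i ∈ s, avc (f i) := by
  unfold avc
  rw [intervalIntegral.integral_finsetSum fun i hi => (hf i hi).intervalIntegrable _ _,
    Finset.mul_sum]

lemma avc_ex (p : ℤ) : avc (fun x => ex x p) = if p = 0 then 1 else 0 := avg_ex p

lemma avc_po {t : ℝ} (ht : 0 < t) (k : ℤ) :
    avc (fun y => (Pk t y : ℂ) * ex y k) = (Real.exp (-t * |(k : ℝ)|) : ℝ) := by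
  rw [neg_mul]; exact po_coef ht k

/-- Cauchy Schwarz for averages with a weight -/
lemma av_cs_w {w f g : ℝ → ℝ} (hw : Continuous w) (hf : Continuous f) (hg : Continuous g)
    (h0 : ∀ x, 0 ≤ w x) :
    av (fun x => w x * (f x * g x)) ^ 2 ≤
      av (fun x => w x * f x ^ 2) * av fun x => w x * g x ^ 2 := by
  have key : ∀ l : ℝ, 0 ≤ av (fun x => w x * f x ^ 2) * (l * l) +
      (2 * av fun x => w x * (f x * g x)) * l + av fun x => w x * g x ^ 2 := by
    intro l
    have h1 : 0 ≤ av fun x => w x * (l * f x + g x) ^ 2 :=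
      av_nonneg fun x => mul_nonneg (h0 x) (sq_nonneg _)
    have h2 : (fun x => w x * (l * f x + g x) ^ 2) = fun x =>
        (l * l * (w x * f x ^ 2) + 2 * l * (w x * (f x * g x))) + w x * g x ^ 2 := by
      ext x; ring
    rw [h2, av_add (by fun_prop) (by fun_prop), av_add (by fun_prop) (by fun_prop), av_smul,
      av_smul] at h1
    linarith
  have := discrim_le_zero key
  unfold discrim at this
  nlinarith

/-- Cauchy Schwarz for averages -/
lemma av_cs {f g : ℝ → ℝ} (hf : Continuous f) (hg : Continuous g) :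
    av (fun x => f x * g x) ≤ √(av (fun x => f x ^ 2) * av fun x => g x ^ 2) := by
  have := av_cs_w (w := fun _ => 1) continuous_const hf hg fun _ => zero_le_one
  simp only [one_mul] at this
  exact Real.le_sqrt_of_sq_le this

lemma av_po {t : ℝ} (ht : 0 < t) : av (Pk t) = 1 := by
  apply Complex.ofReal_injective
  have := avc_po ht 0
  simp only [ex_zero, mul_one, Int.cast_zero, abs_zero, mul_zero, Real.exp_zero] at this
  rw [← this]
  exact av_coe _

/-! ### convolution -/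

lemma Pc_cont {t : ℝ} (ht : 0 < t) {g : ℝ → ℝ} (hg : Continuous g) : Continuous (Pc t g) := by
  unfold Pc av
  have hP := po_cont ht
  exact continuous_const.mul (Dat.cont_inner (f := fun x y => Pk t y * g (x - y)) (by fun_prop))

lemma Pc_nonneg {t : ℝ} (ht : 0 < t) {g : ℝ → ℝ} (h : ∀ x, 0 ≤ g x) (x : ℝ) : 0 ≤ Pc t g x :=
  av_nonneg fun y => mul_nonneg (po_pos ht y).le (h _)

lemma Pc_mono {t : ℝ} (ht : 0 < t) {f g : ℝ → ℝ} (hf : Continuous f) (hg : Continuous g)
    (h : ∀ x, f x ≤ g x) (x : ℝ) : Pc t f x ≤ Pc t g x := by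
  have hP := po_cont ht
  exact av_mono (by fun_prop) (by fun_prop) fun y =>
    mul_le_mul_of_nonneg_left (h _) (po_pos ht y).le

lemma Pc_smul (t c : ℝ) (g : ℝ → ℝ) (x : ℝ) : Pc t (fun x => c * g x) x = c * Pc t g x := by
  unfold Pc
  rw [← av_smul]
  congr 1
  ext y
  ring

lemma Pc_add {t : ℝ} (ht : 0 < t) {f g : ℝ → ℝ} (hf : Continuous f) (hg : Continuous g) (x : ℝ) :
    Pc t (fun x => f x + g x) x = Pc t f x + Pc t g x := by
  have hP := po_cont ht
  unfold Pc
  rw [← av_add (by fun_prop) (by fun_prop)]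
  congr 1
  ext y
  ring

lemma Pc_sum {ι : Type} {t : ℝ} (ht : 0 < t) (s : Finset ι) (f : ι → ℝ → ℝ)
    (hf : ∀ i ∈ s, Continuous (f i)) (x : ℝ) :
    Pc t (fun x => ∑ i ∈ s, f i x) x = ∑ i ∈ s, Pc t (f i) x := by
  have hP := po_cont ht
  unfold Pc
  rw [← av_sum s (fun i y => Pk t y * f i (x - y)) fun i hi => by
    have := hf i hi
    fun_prop]
  simp only [Finset.mul_sum]

lemma Pc_const {t : ℝ} (ht : 0 < t) (c x : ℝ) : Pc t (fun _ => c) x = c := by
  unfold Pc
  simp only [mul_comm _ c]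
  rw [av_smul, av_po ht, mul_one]

/-- (K2) for convolutions -/
theorem Pc_K2 {s t M : ℝ} (hs : 0 < s) (ht : 0 < t) (hs2 : s ≤ 2) (ht2 : t ≤ 2)
    (h1 : s ≤ M * t) (h2 : t ≤ M * s) {g : ℝ → ℝ} (hg : Continuous g) (h0 : ∀ x, 0 ≤ g x)
    (x : ℝ) : Pc s g x ≤ 4 * M * Pc t g x := by
  have hP := po_cont ht
  have hP' := po_cont hs
  unfold Pc
  rw [← av_smul]
  refine av_mono (by fun_prop) (by fun_prop) fun y => ?_
  rw [← mul_assoc]
  exact mul_le_mul_of_nonneg_right (po_K2 hs ht hs2 ht2 h1 h2 y) (h0 _)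

/-- Jensen inequality for the Poisson kernel -/
lemma Pc_sq {t : ℝ} (ht : 0 < t) {g : ℝ → ℝ} (hg : Continuous g) (x : ℝ) :
    Pc t g x ^ 2 ≤ Pc t (fun y => g y ^ 2) x := by
  have := av_cs_w (w := Pk t) (f := fun y => g (x - y)) (g := fun _ => 1) (po_cont ht)
    (by fun_prop) continuous_const fun y => (po_pos ht y).le
  simp only [mul_one, one_pow] at this
  rw [show (fun x => Pk t x) = Pk t from rfl, av_po ht, mul_one] at this
  exact this

/-! ### trigonometric polynomials -/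

lemma cont_tp (J : Finset ℤ) (c : ℤ → ℂ) : Continuous fun x => ∑ k ∈ J, c k * ex x k :=
  continuous_finsetSum _ fun k _ => continuous_const.mul (cont_ex k)

lemma TP.cont {g : ℝ → ℝ} {J : Finset ℤ} {c : ℤ → ℂ} (h : TP g J c) : Continuous g := by
  have : g = fun x => (∑ k ∈ J, c k * ex x k).re := by
    ext x; rw [← h x, ofReal_re]
  rw [this]
  exact continuous_re.comp (cont_tp J c)

/-- (K3) the convolution multiplies the coefficients -/
theorem TP.pc {g : ℝ → ℝ} {J : Finset ℤ} {c : ℤ → ℂ} (h : TP g J c) {t : ℝ} (ht : 0 < t) :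
    TP (Pc t g) J fun k => (Real.exp (-t * |(k : ℝ)|) : ℝ) * c k := by
  intro x
  have hP : Continuous fun y => (Pk t y : ℂ) := continuous_ofReal.comp (po_cont ht)
  unfold Pc
  rw [av_coe]
  have e : (fun y => ((Pk t y * g (x - y) : ℝ) : ℂ)) =
      fun y => ∑ k ∈ J, c k * ex x k * ((Pk t y : ℂ) * ex y (-k)) := by
    ext y
    rw [ofReal_mul, h, Finset.mul_sum]
    refine Finset.sum_congr rfl fun k _ => ?_
    rw [sub_eq_add_neg, ex_add_left, ex_neg_left]
    ring
  rw [e, avc_sum J (fun k y => c k * ex x k * ((Pk t y : ℂ) * ex y (-k))) fun k _ => by fun_prop]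
  refine Finset.sum_congr rfl fun k _ => ?_
  rw [avc_smul, avc_po ht, Int.cast_neg, abs_neg]
  ring

/-- (K3) the semigroup law -/
theorem TP.pc_pc {g : ℝ → ℝ} {J : Finset ℤ} {c : ℤ → ℂ} (h : TP g J c) {s t : ℝ} (hs : 0 < s)
    (ht : 0 < t) : Pc s (Pc t g) = Pc (s + t) g := by
  ext x
  apply Complex.ofReal_injective
  rw [(h.pc ht).pc hs x, h.pc (add_pos hs ht) x]
  refine Finset.sum_congr rfl fun k _ => ?_
  beta_reduce
  rw [← mul_assoc, ← ofReal_mul, ← Real.exp_add]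
  congr 4
  ring

/-- orthogonality -/
lemma avc_tp (J J' : Finset ℤ) (c d : ℤ → ℂ) :
    avc (fun x => (∑ k ∈ J, c k * ex x k) * conj (∑ k ∈ J', d k * ex x k)) =
      ∑ k ∈ J ∩ J', c k * conj (d k) := by
  have e : (fun x => (∑ k ∈ J, c k * ex x k) * conj (∑ k ∈ J', d k * ex x k)) =
      fun x => ∑ k ∈ J, ∑ l ∈ J', c k * conj (d l) * ex x (k - l) := by
    ext x
    rw [map_sum, Finset.sum_mul_sum]
    refine Finset.sum_congr rfl fun k _ => Finset.sum_congr rfl fun l _ => ?_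
    rw [map_mul, conj_ex, sub_eq_add_neg, ex_add]
    ring
  rw [e, avc_sum J (fun k x => ∑ l ∈ J', c k * conj (d l) * ex x (k - l)) fun k _ => by fun_prop]
  rw [← Finset.filter_mem_eq_inter, Finset.sum_filter]
  refine Finset.sum_congr rfl fun k _ => ?_
  rw [avc_sum J' (fun l x => c k * conj (d l) * ex x (k - l)) fun l _ => by fun_prop]
  simp only [avc_smul, avc_ex, sub_eq_zero, mul_ite, mul_one, mul_zero]
  rw [Finset.sum_ite_eq]

/-- Parseval identity for two real trigonometric polynomials -/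
theorem TP.parseval {g h : ℝ → ℝ} {J J' : Finset ℤ} {c d : ℤ → ℂ} (hg : TP g J c)
    (hh : TP h J' d) : ((av fun x => g x * h x : ℝ) : ℂ) = ∑ k ∈ J ∩ J', c k * conj (d k) := by
  rw [av_coe, ← avc_tp]
  congr 1
  ext x
  rw [← hg x, ← hh x, conj_ofReal, ofReal_mul]

/-- the convolution is symmetric -/
theorem TP.pc_symm {g h : ℝ → ℝ} {J J' : Finset ℤ} {c d : ℤ → ℂ} (hg : TP g J c)
    (hh : TP h J' d) {t : ℝ} (ht : 0 < t) :
    (av fun x => Pc t g x * h x) = av fun x => g x * Pc t h x := by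
  apply Complex.ofReal_injective
  rw [(hg.pc ht).parseval hh, hg.parseval (hh.pc ht)]
  refine Finset.sum_congr rfl fun k _ => ?_
  rw [map_mul, conj_ofReal]
  ring

lemma TP.add {g h : ℝ → ℝ} {J : Finset ℤ} {c d : ℤ → ℂ} (hg : TP g J c) (hh : TP h J d) :
    TP (fun x => g x + h x) J fun k => c k + d k := by
  intro x
  rw [ofReal_add, hg x, hh x, ← Finset.sum_add_distrib]
  exact Finset.sum_congr rfl fun k _ => by ring

lemma TP.smul {g : ℝ → ℝ} {J : Finset ℤ} {c : ℤ → ℂ} (hg : TP g J c) (r : ℝ) :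
    TP (fun x => r * g x) J fun k => r * c k := by
  intro x
  rw [ofReal_mul, hg x, Finset.mul_sum]
  exact Finset.sum_congr rfl fun k _ => by ring

lemma TP.sum {ι : Type} (s : Finset ι) {g : ι → ℝ → ℝ} {J : Finset ℤ} {c : ι → ℤ → ℂ}
    (hg : ∀ i ∈ s, TP (g i) J (c i)) :
    TP (fun x => ∑ i ∈ s, g i x) J fun k => ∑ i ∈ s, c i k := by
  intro x
  rw [ofReal_sum]
  simp only [Finset.sum_mul]
  rw [Finset.sum_comm]
  exact Finset.sum_congr rfl fun i hi => hg i hi x

lemma TP.shift {g : ℝ → ℝ} {J : Finset ℤ} {c : ℤ → ℂ} (hg : TP g J c) (y : ℝ) :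
    TP (fun x => g (x + y)) J fun k => c k * ex y k := by
  intro x
  rw [hg]
  exact Finset.sum_congr rfl fun k _ => by rw [ex_add_left]; ring

/-- the square of the modulus of a state is a trigonometric polynomial -/
lemma tp_normSq (n : ℕ) (c : ℤ → ℂ) :
    TP (fun x => ‖∑ k ∈ FF n, c k * ex x k‖ ^ 2) (FF (2 * n))
      fun ζ => ∑ k ∈ FF n with k + ζ ∈ FF n, c (k + ζ) * conj (c k) := by
  intro x
  have e1 : ∀ z : ℂ, ((‖z‖ ^ 2 : ℝ) : ℂ) = conj z * z := fun z => by
    rw [mul_comm, Complex.mul_conj, Complex.normSq_eq_norm_sq]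
  rw [e1, map_sum, Finset.sum_mul_sum]
  simp only [Finset.sum_filter, Finset.sum_mul]
  rw [Finset.sum_comm (s := FF (2 * n))]
  refine Finset.sum_congr rfl fun k hk => ?_
  simp only [ite_mul, zero_mul]
  rw [← Finset.sum_filter]
  refine Finset.sum_bij (fun l _ => l - k) ?_ ?_ ?_ ?_
  · intro l hl
    exact Finset.mem_filter.2 ⟨Dat.sub_mem_FF hl hk, by simpa using hl⟩
  · intro l _ l' _ h
    exact sub_left_inj.1 h
  · intro ζ hζ
    exact ⟨k + ζ, (Finset.mem_filter.1 hζ).2, by ring⟩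
  · intro l _
    rw [map_mul, conj_ex, add_sub_cancel, sub_eq_add_neg l k, ex_add]
    ring

/-! ### kernels -/

lemma Kern.nonneg {f : ℤ → ℝ} {A t : ℝ} (h : Kern f A t) (ht : 0 < t) : 0 ≤ A := by
  obtain ⟨J, -, h2⟩ := h
  exact nonneg_of_mul_nonneg_left ((norm_nonneg _).trans (h2 0)) (po_pos ht 0)

lemma Kern.mono {f : ℤ → ℝ} {A A' t : ℝ} (h : Kern f A t) (ht : 0 < t) (hA : A ≤ A') :
    Kern f A' t := by
  obtain ⟨J, h1, h2⟩ := h
  exact ⟨J, h1, fun x => (h2 x).trans (mul_le_mul_of_nonneg_right hA (po_pos ht x).le)⟩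

/-- (K2) for kernels -/
lemma Kern.k2 {f : ℤ → ℝ} {A s t M : ℝ} (h : Kern f A s) (hs : 0 < s) (ht : 0 < t) (hs2 : s ≤ 2)
    (ht2 : t ≤ 2) (h1 : s ≤ M * t) (h2 : t ≤ M * s) : Kern f (4 * M * A) t := by
  have hA := h.nonneg hs
  obtain ⟨J, a1, a2⟩ := h
  refine ⟨J, a1, fun x => (a2 x).trans ?_⟩
  have := mul_le_mul_of_nonneg_left (po_K2 hs ht hs2 ht2 h1 h2 x) hA
  linarith

/-- a multiplier is the average of characters against its kernel -/
lemma ker_rep {f : ℤ → ℝ} {J : Finset ℤ} (h : ∀ k, f k ≠ 0 → k ∈ J) (k : ℤ) :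
    (f k : ℂ) = avc fun y => (∑ l ∈ J, (f l : ℂ) * ex y l) * ex y (-k) := by
  have e : (fun y => (∑ l ∈ J, (f l : ℂ) * ex y l) * ex y (-k)) =
      fun y => ∑ l ∈ J, (f l : ℂ) * ex y (l - k) := by
    ext y
    rw [Finset.sum_mul]
    exact Finset.sum_congr rfl fun l _ => by rw [sub_eq_add_neg, ex_add, mul_assoc]
  rw [e, avc_sum J (fun l y => (f l : ℂ) * ex y (l - k)) fun l _ => by fun_prop]
  simp only [avc_smul, avc_ex, sub_eq_zero, mul_ite, mul_one, mul_zero]
  rw [Finset.sum_ite_eq']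
  split_ifs with hk
  · rfl
  · by_contra h0
    exact hk (h k fun h1 => h0 (by rw [h1, ofReal_zero]))

/-- dual form of the kernel bound: a weighted sum of values of `f` is below the average of
the same sum of characters -/
theorem Kern.dual {f : ℤ → ℝ} {A t : ℝ} (h : Kern f A t) (ht : 0 < t) {ι : Type} (s : Finset ι)
    (κ : ι → ℤ) (w : ι → ℂ) :
    ‖∑ i ∈ s, (f (κ i) : ℂ) * w i‖ ≤ A * av fun y => Pk t y * ‖∑ i ∈ s, w i * ex y (-κ i)‖ := by
  obtain ⟨J, h1, h2⟩ := h
  have hP := po_cont ht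
  have hF := cont_tp J fun l => (f l : ℂ)
  have hW : Continuous fun y => ∑ i ∈ s, w i * ex y (-κ i) :=
    continuous_finsetSum _ fun i _ => continuous_const.mul (cont_ex _)
  have e : ∑ i ∈ s, (f (κ i) : ℂ) * w i =
      avc fun y => (∑ l ∈ J, (f l : ℂ) * ex y l) * ∑ i ∈ s, w i * ex y (-κ i) := by
    have e2 : (fun y => (∑ l ∈ J, (f l : ℂ) * ex y l) * ∑ i ∈ s, w i * ex y (-κ i)) =
        fun y => ∑ i ∈ s, w i * ((∑ l ∈ J, (f l : ℂ) * ex y l) * ex y (-κ i)) := by
      ext y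
      rw [Finset.mul_sum]
      exact Finset.sum_congr rfl fun i _ => by ring
    rw [e2, avc_sum s (fun i y => w i * ((∑ l ∈ J, (f l : ℂ) * ex y l) * ex y (-κ i)))
      fun i _ => by fun_prop]
    refine Finset.sum_congr rfl fun i _ => ?_
    rw [avc_smul, ← ker_rep h1, mul_comm]
  rw [e, ← av_smul]
  refine (avc_norm _).trans (av_mono (by fun_prop) (by fun_prop) fun y => ?_)
  rw [norm_mul, ← mul_assoc]
  exact mul_le_mul_of_nonneg_right (h2 y) (norm_nonneg _)

/-- (K4) pointwise domination of a multiplier -/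
theorem Kern.le_pc {f : ℤ → ℝ} {A t : ℝ} (h : Kern f A t) (ht : 0 < t) (J : Finset ℤ)
    (c : ℤ → ℂ) (x : ℝ) : ‖∑ k ∈ J, (f k : ℂ) * c k * ex x k‖ ≤
      A * Pc t (fun y => ‖∑ k ∈ J, c k * ex y k‖) x := by
  have := h.dual ht J (fun k => k) fun k => c k * ex x k
  simp only [← mul_assoc] at this
  refine this.trans (le_of_eq ?_)
  unfold Pc
  congr 2
  ext y
  congr 2
  refine Finset.sum_congr rfl fun k _ => ?_
  rw [sub_eq_add_neg, ex_add_left, ex_neg_left, mul_assoc]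

/-- (K4) squares -/
theorem Kern.sq_le {f : ℤ → ℝ} {A t : ℝ} (h : Kern f A t) (ht : 0 < t) (J : Finset ℤ)
    (c : ℤ → ℂ) (x : ℝ) : ‖∑ k ∈ J, (f k : ℂ) * c k * ex x k‖ ^ 2 ≤
      A ^ 2 * Pc t (fun y => ‖∑ k ∈ J, c k * ex y k‖ ^ 2) x := by
  have h1 := pow_le_pow_left₀ (norm_nonneg _) (h.le_pc ht J c x) 2
  rw [mul_pow] at h1
  exact h1.trans (mul_le_mul_of_nonneg_left (Pc_sq ht (cont_tp J c).norm x) (sq_nonneg _))

/-- (K4) nonnegative functions -/
theorem Kern.tp_le {f : ℤ → ℝ} {A t : ℝ} (h : Kern f A t) (ht : 0 < t) {g : ℝ → ℝ}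
    {J : Finset ℤ} {c : ℤ → ℂ} (hg : TP g J c) (h0 : ∀ x, 0 ≤ g x) (x : ℝ) :
    ‖∑ k ∈ J, (f k : ℂ) * c k * ex x k‖ ≤ A * Pc t g x := by
  refine (h.le_pc ht J c x).trans (le_of_eq ?_)
  congr 2
  ext y
  rw [← hg y, Complex.norm_real, Real.norm_of_nonneg (h0 y)]

end

end Pool.Agent.Lib.MMTX
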