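import Pool.Agent.Lib.MP_0dc93f_an.X.Step

/-! The source term: the three kinks, and the small defects in one local step. -/

namespace Pool.Agent.Lib.MMTX

open Finset Complex ComplexConjugate MMTW

theorem Gw_eq (P : Win) {ζ : ℤ} (h : |ζ| ≤ 2 * (P.w : ℤ)) (k : ℤ) :
    Gw P k ζ = ∑ i, gk P i ζ k := by
  have h1 : |(ζ : ℝ)| ≤ 2 * (P.w : ℝ) := by exact_mod_cast h
  have h2 := abs_le.1 h1
  have e1 : ((1 : Fin 3) = 0) = False := by decide
  have e2 : ((2 : Fin 3) = 0) = False := by decide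
  have e3 : ((2 : Fin 3) = 1) = False := by decide
  rw [Fin.sum_univ_three]
  simp only [Gw, gk, e1, e2, e3, if_true, if_false]
  rcases abs_cases ((k : ℝ) - P.z) with a1 | a1 <;>
    rcases abs_cases ((k : ℝ) + ζ - P.z) with a2 | a2 <;>
    rw [a1.1, a2.1] <;> simp only [max_def, min_def] <;> split_ifs <;> linarith [a1.2, a2.2]

theorem sz_eq (P : Win) {ζ : ℤ} (h : |ζ| ≤ 2 * (P.w : ℤ)) (k : Fin 4 → ℤ) :
    sz P ζ k = ∑ i, sk P i ζ k := by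
  simp only [sz, sk, Gw_eq P h, Fin.sum_univ_three]
  ring

variable (Kc : ℕ) (a : ℤ → ℂ)

theorem SQ_add (t : ℝ) (Q : Win) (s s' : ℤ → (Fin 4 → ℤ) → ℝ) :
    SQ Kc a t Q (fun ζ k => s ζ k + s' ζ k) = SQ Kc a t Q s + SQ Kc a t Q s' := by
  unfold SQ
  rw [← Finset.sum_add_distrib]
  refine Finset.sum_congr rfl fun ζ _ => ?_
  rw [Qf_add]; ring

theorem SQ_sub (t : ℝ) (Q : Win) (s s' : ℤ → (Fin 4 → ℤ) → ℝ) :
    SQ Kc a t Q (fun ζ k => s ζ k - s' ζ k) = SQ Kc a t Q s - SQ Kc a t Q s' := by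
  unfold SQ
  rw [← Finset.sum_sub_distrib]
  refine Finset.sum_congr rfl fun ζ _ => ?_
  rw [Qf_sub]; ring

theorem SQ_sum {ι : Type} (t : ℝ) (Q : Win) (J : Finset ι) (s : ι → ℤ → (Fin 4 → ℤ) → ℝ) :
    SQ Kc a t Q (fun ζ k => ∑ i ∈ J, s i ζ k) = ∑ i ∈ J, SQ Kc a t Q (s i) := by
  unfold SQ
  rw [Finset.sum_comm]
  refine Finset.sum_congr rfl fun ζ _ => ?_
  rw [Qf_sum, Finset.sum_mul, Finset.mul_sum]

/-- the three ramps in one form -/
theorem srcA_gk (P : Win) (i : Fin 3) : ∃ ε σ : ℝ, |ε| = 1 ∧ 1 ≤ σ ∧ σ ≤ 2 ∧ ∀ ζ : ℤ, ∃ b : ℝ,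
    |b| ≤ |(ζ : ℝ)| ∧ |b - σ * ζ| ≤ |(ζ : ℝ)| ∧
      ∀ k : ℤ, gk P i ζ k = ε * max 0 (σ * ((k : ℝ) - P.kz i) + b) := by
  fin_cases i
  · refine ⟨1, 1, abs_one, le_rfl, by norm_num, fun ζ => ⟨min ζ 0, ?_, ?_, fun k => ?_⟩⟩
    · rcases le_total (ζ : ℝ) 0 with h | h <;> simp [h]
    · rcases le_total (ζ : ℝ) 0 with h | h <;> simp [h]
    · simp only [gk, Win.kz, Fin.zero_eta, if_true, one_mul]
      congr 1; push_cast; simp; ring
  · refine ⟨-1, 2, by simp, by norm_num, le_rfl, fun ζ => ⟨ζ, le_rfl, ?_, fun k => ?_⟩⟩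
    · rw [show (ζ : ℝ) - 2 * ζ = -ζ by ring, abs_neg]
    · have e1 : ((1 : Fin 3) = 0) = False := by decide
      simp only [gk, Win.kz, Fin.mk_one, e1, if_true, if_false, neg_one_mul]
      congr 2; push_cast; simp; ring
  · refine ⟨1, 1, abs_one, le_rfl, by norm_num, fun ζ => ⟨max ζ 0, ?_, ?_, fun k => ?_⟩⟩
    · rcases le_total (ζ : ℝ) 0 with h | h <;> simp [h]
    · rcases le_total (ζ : ℝ) 0 with h | h <;> simp [h]
    · have e2 : ((2 : Fin 3) = 0) = False := by decide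
      have e3 : ((2 : Fin 3) = 1) = False := by decide
      simp only [gk, Win.kz, Fin.reduceFinMk, e2, e3, if_false, one_mul]
      congr 1; push_cast; simp; ring

theorem srcA_p4 {χ : ℤ → ℝ} {k : Fin 4 → ℤ} (h : p4 χ k ≠ 0) (i : Fin 4) : χ (k i) ≠ 0 :=
  Finset.prod_ne_zero_iff.1 h i (mem_univ i)

/-- the local step for one defect -/
theorem srcA_step {L u : ℕ} {y z c ζ : ℤ} {Ξ ε σ b : ℝ} {g : ℤ → ℝ} (hL : 2 ^ 11 ≤ L) (hu : L ≤ u)
    (hc : LocCov Kc a L u y Ξ) (hΞ : 0 ≤ Ξ) (c1 : 16 * |(c : ℝ) - z| ≤ L * u)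
    (hy : |(c : ℝ) - y| ≤ L * u) (hζ : 64 * |(ζ : ℝ)| ≤ L * u) (hε : |ε| = 1) (h1 : 1 ≤ σ)
    (h2 : σ ≤ 2) (hb : |b| ≤ |(ζ : ℝ)|) (hb' : |b - σ * ζ| ≤ |(ζ : ℝ)|)
    (hg : ∀ k : ℤ, g k = ε * max 0 (σ * ((k : ℝ) - z) + b)) :
    ‖Qf Kc a ζ (fun k => (g (k 1) + g (k 3) - g (k 0 - ζ) - g (k 2 - ζ)) / 2 *
        (p4 (trap c (L * u)) k - p4 (trap z (L * u / 2)) k)) -
      (ε * σ * ζ / 2 : ℝ) * (Qf Kc a ζ (p4 fun n => trap c (L * u) n * psiR L u y (z + L * u / 64) n) -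
        Qf Kc a ζ (p4 fun n => trap z (L * u / 2) n * psiR L u y (z + L * u / 64) n))‖ ≤
      2 ^ 67 * (L : ℝ) ^ 6 * Ξ := by
  have hLr : (2 : ℝ) ^ 11 ≤ L := by exact_mod_cast hL
  have hur : (L : ℝ) ≤ u := by exact_mod_cast hu
  have u0 : (0 : ℝ) < u := by linarith
  obtain ⟨D, hD⟩ : ∃ D : ℝ, D = L * u := ⟨_, rfl⟩
  have uD : 2 * (u : ℝ) ≤ D := by rw [hD]; nlinarith
  have D0 : 0 < D := by linarith
  have b1 := abs_le.1 hb
  have b2 := abs_le.1 hb'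
  have d1 := abs_le.1 (show |(c : ℝ) - z| ≤ D / 16 by rw [hD]; linarith)
  have d2 := abs_le.1 (hD ▸ hy : |(c : ℝ) - y| ≤ D)
  have d3 : 64 * |(ζ : ℝ)| ≤ D := hD ▸ hζ
  let x : Fin 4 → ℝ := ![b - σ * ζ - σ * z, b - σ * z, b - σ * ζ - σ * z, b - σ * z]
  let ρ : Fin 4 → ℤ → ℝ := fun i k => ε / 2 * max 0 (min (9 * D) (σ * k + x i))
  have hρ : ∀ i, HC u (9 * D / 2) (ρ i) := by
    intro i
    have h := (hc_clip (u := u) (S := 9 * D) (σ := σ) (x := x i) (lo' := 0) (hi := 9 * D) u0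
      (by linarith) (by rw [abs_zero]; linarith) (by rw [abs_of_pos (by linarith)])
      (by linarith) (by rw [abs_of_pos (by linarith)]; nlinarith)).smul (ε / 2)
    rwa [abs_div, hε, abs_two, show 1 / 2 * (9 * D) = 9 * D / 2 by ring] at h
  have clip : ∀ (n : ℤ) (e : ℝ), |(n : ℝ) - y| ≤ 3 * D → e ≤ |(ζ : ℝ)| →
      min (9 * D) (σ * n + (e - σ * z)) = σ * ((n : ℝ) - z) + e := by
    intro n e hn he
    have n1 := abs_le.1 hn
    have n2 : σ * ((n : ℝ) - z) ≤ σ * (65 * D / 16) :=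
      mul_le_mul_of_nonneg_left (by linarith) (by linarith)
    have n3 : σ * (65 * D / 16) ≤ 2 * (65 * D / 16) := mul_le_mul_of_nonneg_right h2 (by linarith)
    rw [min_eq_right (by linarith)]; ring
  have key : ∀ k : Fin 4 → ℤ, (∀ i, |(k i : ℝ) - y| ≤ 3 * D) → alt ρ k =
      ε / 2 * (max 0 (σ * ((k 1 : ℝ) - z) + b) + max 0 (σ * ((k 3 : ℝ) - z) + b) -
        max 0 (σ * ((k 0 : ℝ) - z) + (b - σ * ζ)) - max 0 (σ * ((k 2 : ℝ) - z) + (b - σ * ζ))) := by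
    intro k hk
    have e : alt ρ k = ε / 2 * max 0 (min (9 * D) (σ * k 1 + (b - σ * z))) +
        ε / 2 * max 0 (min (9 * D) (σ * k 3 + (b - σ * z))) -
        ε / 2 * max 0 (min (9 * D) (σ * k 0 + (b - σ * ζ - σ * z))) -
        ε / 2 * max 0 (min (9 * D) (σ * k 2 + (b - σ * ζ - σ * z))) := rfl
    rw [e, clip _ _ (hk 0) b2.2, clip _ _ (hk 1) b1.2, clip _ _ (hk 2) b2.2, clip _ _ (hk 3) b1.2]
    ring
  have s1 : Supp (trap z (D / 2)) y (3 * D) := fun k hk => by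
    have := abs_le.1 (trap_supp z (by linarith) k hk)
    exact abs_le.2 ⟨by linarith, by linarith⟩
  have s2 : Supp (trap c D) y (3 * D) := fun k hk => by
    have := abs_le.1 (trap_supp c D0 k hk)
    exact abs_le.2 ⟨by linarith, by linarith⟩
  have o2 : One (trap c D) z (D / 2) := fun k hk => by
    have := abs_le.1 hk
    exact trap_one c D0 k (abs_le.2 ⟨by linarith, by linarith⟩)
  have st := step Kc a (L := L) (u := u) (y := y) (z := z) (ζ := ζ) (Ξ := Ξ) (S := 9 * D / 2)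
    (r := D / 64) (c := ε * σ * ζ / 2) (ρ := ρ) (χ := trap z (D / 2)) (χ' := trap c D) hL hu hc hΞ
    (by exact_mod_cast hζ) (by linarith) (by rw [← hD]; linarith) hρ
    ((hc_trap z (by linarith)).mono u0 (by linarith) le_rfl)
    ((hc_trap c D0).mono u0 (by linarith) le_rfl) (hD ▸ trap_one z (by linarith)) (hD ▸ o2)
    (hD ▸ s1) (hD ▸ s2) ?_ ?_
  · rw [← hD]
    have e : Qf Kc a ζ (fun k => (g (k 1) + g (k 3) - g (k 0 - ζ) - g (k 2 - ζ)) / 2 *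
        (p4 (trap c D) k - p4 (trap z (D / 2)) k)) =
        Qf Kc a ζ (fun k => alt ρ k * (p4 (trap c D) k - p4 (trap z (D / 2)) k)) := by
      refine Qf_congr Kc a ζ fun k _ _ => ?_
      by_cases h0 : p4 (trap c D) k = 0 ∧ p4 (trap z (D / 2)) k = 0
      · rw [h0.1, h0.2]; ring
      have hk : ∀ i, |(k i : ℝ) - y| ≤ 3 * D := fun i => by
        rcases not_and_or.1 h0 with h | h
        · exact s2 _ (srcA_p4 h i)
        · exact s1 _ (srcA_p4 h i)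
      rw [key k hk, hg, hg, hg, hg]
      push_cast
      rw [show σ * ((k 0 : ℝ) - ζ - z) + b = σ * (k 0 - z) + (b - σ * ζ) by ring,
        show σ * ((k 2 : ℝ) - ζ - z) + b = σ * (k 2 - z) + (b - σ * ζ) by ring]
      ring
    rw [e]
    refine st.trans ?_
    have e2 : 9 * D / 2 / u = 9 / 2 * L := by rw [hD]; field_simp
    rw [e2]
    have : 0 ≤ (L : ℝ) ^ 6 * Ξ := by positivity
    calc _ = 2 ^ 64 * (9 / 2) * ((L : ℝ) ^ 6 * Ξ) := by ring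
      _ ≤ 2 ^ 67 * ((L : ℝ) ^ 6 * Ξ) := mul_le_mul_of_nonneg_right (by norm_num) this
      _ = _ := by ring
  · intro k hk h3 h4
    have p : ∀ i e, -|(ζ : ℝ)| ≤ e → max 0 (σ * ((k i : ℝ) - z) + e) = σ * ((k i : ℝ) - z) + e := by
      intro i e he
      have := h4 i
      have : 1 * ((k i : ℝ) - z) ≤ σ * ((k i : ℝ) - z) :=
        mul_le_mul_of_nonneg_right h1 (by linarith)
      exact max_eq_right (by linarith)
    have e : (ζ : ℝ) = k 0 - k 1 + k 2 - k 3 := by rw [← hk, De]; push_cast; ring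
    rw [key k (hD ▸ h3), p 0 _ b2.1, p 1 _ b1.1, p 2 _ b2.1, p 3 _ b1.1]
    linear_combination (ε * σ / 2) * e
  · intro k _ h3 h4
    have p : ∀ i e, e ≤ |(ζ : ℝ)| → max 0 (σ * ((k i : ℝ) - z) + e) = 0 := by
      intro i e he
      have := h4 i
      have : σ * ((k i : ℝ) - z) ≤ 1 * ((k i : ℝ) - z) :=
        mul_le_mul_of_nonpos_right h1 (by linarith)
      exact max_eq_left (by linarith)
    rw [key k (hD ▸ h3), p 0 _ b2.2, p 1 _ b1.2, p 2 _ b2.2, p 3 _ b1.2]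
    ring

/-- the fifth order part -/
theorem srcA_five {L u D w t κ e : ℝ} {c : ℤ} {f : ℤ → ℝ} {Q R : Win} (hL : 2 ^ 11 ≤ L) (hu : L ≤ u)
    (hD : D = L * u) (ht : 0 < t) (ht1 : t ≤ 1) (htw : 4 * L ≤ t * w) (hw : D ≤ 32 * w)
    (hf : HC u 64 f) (f1 : ∀ k, |f k| ≤ 1) (hs : Supp f c (2 * D))
    (g2 : mB Kc a c (2 * D) ≤ κ * (2 * D)) (r1 : |(R.z : ℝ) - c| ≤ 2 * w) (r2 : 256 * w ≤ R.w)
    (hQ : 1 ≤ Q.w) (he : |e| ≤ 1) :
    ‖SQ Kc a t Q fun ζ k => trap 0 (w / 8) ζ * trap 0 (D / 128) ζ * (e * ζ * p4 f k)‖ ≤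
      2 ^ 20 * κ ^ 2 * w ^ 3 * (mW Kc a Q * lg Q.w) + 2 ^ 50 * L ^ 2 * κ * w ^ 2 * XX Kc a t R Q := by
  have u0 : 0 < u := by linarith
  have uD : 2 ^ 11 * u ≤ D := by rw [hD]; exact mul_le_mul_of_nonneg_right hL u0.le
  have D0 : 0 < D := by linarith
  have D1 : 2 ^ 11 ≤ D := by linarith
  have w0 : 0 < w := by linarith
  have m0 := mB_nonneg Kc a c (2 * D)
  have κ0 : 0 ≤ κ := nonneg_of_mul_nonneg_left (m0.trans g2) (by linarith)
  obtain ⟨m, hm⟩ : ∃ m : ℤ → ℝ, m = fun ζ => trap 0 (w / 8) ζ * trap 0 (D / 128) ζ := ⟨_, rfl⟩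
  have mc : HC (D / 256) (4 * 4 * 4) m := hm ▸
    ((hc_trap 0 (by linarith)).mono (by linarith) (by linarith) le_rfl).mul
      ((hc_trap 0 (by linarith)).mono (by linarith) (by linarith) le_rfl) (by linarith)
  have ms : Supp m 0 (4 * (D / 256)) := fun k hk => by
    rw [hm] at hk
    exact (trap_supp 0 (by linarith) k (right_ne_zero_of_mul hk)).trans (by linarith)
  have mk := mc.kern_ball (by linarith) (by norm_num) ms
  have fk := hf.kern_ball (ρ := 2 * L) (c := c) (by linarith) (by linarith)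
    (by rw [mul_assoc, ← hD]; exact hs)
  have q1 : 1 / (D / 256) ≤ 1 / u := one_div_le_one_div_of_le u0 (by linarith)
  have q2 : 1 / u ≤ 1 / 2 := one_div_le_one_div_of_le (by norm_num) (by linarith)
  have hR : 1 ≤ R.w := by
    have : (1 : ℝ) ≤ R.w := by linarith
    exact_mod_cast this
  have hΛ : (∑ k ∈ FF Kc, |f k| * ‖a k‖) ^ 2 ≤ 10 * κ * D ^ 2 := by
    refine (l1_le Kc a (by linarith) hs f1).trans ?_
    rw [one_pow, one_mul]
    calc _ ≤ (5 * D) * (κ * (2 * D)) := mul_le_mul (by linarith) g2 m0 (by linarith)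
      _ = _ := by ring
  have h5 := ft0 Kc a (R := R) Q mk fk ht (by positivity) (by positivity) (by linarith) hR
    (fun k hk => by
      have h1 := abs_le.1 (hs k hk)
      have h2 := abs_le.1 r1
      exact abs_le.2 ⟨by linarith, by linarith⟩) hΛ
  have X0 := XX_nonneg Kc a ht R Q
  have q3 : D ^ 2 * (1 + (1 / (D / 256) + 1 / u) / t) ≤ 2 ^ 11 * w ^ 2 := by
    have a1 : (1 / (D / 256) + 1 / u) / t ≤ 2 / u / t :=
      div_le_div_of_nonneg_right (by rw [show 2 / u = 1 / u + 1 / u by ring]; linarith) ht.le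
    have a2 : D ^ 2 * (2 / u / t) = 2 * D * (L / t) := by rw [hD]; field_simp
    have a3 : L / t ≤ w / 4 := by rw [div_le_iff₀ ht]; linarith
    have a4 : 2 * D * (L / t) ≤ 2 * (32 * w) * (w / 4) :=
      mul_le_mul (by linarith) a3 (div_nonneg (by linarith) ht.le) (by linarith)
    have a5 : D ^ 2 ≤ (32 * w) ^ 2 := pow_le_pow_left₀ D0.le hw 2
    have a6 := mul_le_mul_of_nonneg_left a1 (sq_nonneg D)
    nlinarith [sq_nonneg w]
  have q4 : ((2 * (2 * L) + 2) * 64) ^ 2 ≤ 2 ^ 17 * L ^ 2 :=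
    (pow_le_pow_left₀ (by linarith) (show _ ≤ 320 * L by linarith) 2).trans
      (by nlinarith [sq_nonneg L])
  have h6 : 2 ^ 9 * ((2 * 4 + 2) * (4 * 4 * 4)) * ((2 * (2 * L) + 2) * 64) ^ 2 * (10 * κ * D ^ 2) *
      (1 + (1 / (D / 256) + 1 / u) / t) * XX Kc a t R Q ≤
      2 ^ 50 * L ^ 2 * κ * w ^ 2 * XX Kc a t R Q := by
    refine mul_le_mul_of_nonneg_right ?_ X0
    calc _ = 2 ^ 9 * 6400 * κ * (((2 * (2 * L) + 2) * 64) ^ 2 *
          (D ^ 2 * (1 + (1 / (D / 256) + 1 / u) / t))) := by ring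
      _ ≤ 2 ^ 9 * 2 ^ 13 * κ * (2 ^ 17 * L ^ 2 * (2 ^ 11 * w ^ 2)) := by gcongr; norm_num
      _ = _ := by ring
  have z1 : ‖Qf Kc a 0 (p4 f)‖ ≤ 2 ^ 20 * κ ^ 2 * w ^ 3 := by
    have b1 := norm_Qf_le Kc a (ζ := 0) (s := p4 f) (p := fun k => ∀ i, |(k i : ℝ) - c| ≤ 2 * D)
      zero_le_one (fun k _ => by
        rw [p4, Finset.abs_prod]
        exact Finset.prod_le_one (fun _ _ => abs_nonneg _) fun _ _ => f1 _)
      fun k _ hk i => hs _ (srcA_p4 hk i)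
    rw [one_mul] at b1
    refine (b1.trans (c1 Kc a 0 c (by linarith))).trans ?_
    calc _ ≤ (5 * (32 * w)) * (κ * (2 * (32 * w))) ^ 2 := by
          refine mul_le_mul (by linarith) (pow_le_pow_left₀ m0 (g2.trans ?_) 2) (sq_nonneg _)
            (by linarith)
          exact mul_le_mul_of_nonneg_left (by linarith) κ0
      _ = 655360 * (κ ^ 2 * w ^ 3) := by ring
      _ ≤ 2 ^ 20 * (κ ^ 2 * w ^ 3) := mul_le_mul_of_nonneg_right (by norm_num) (by positivity)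
      _ = _ := by ring
  obtain ⟨T, hT⟩ : ∃ T : ℤ → ℂ, T = fun ζ : ℤ => ((Real.exp (-t * |(ζ : ℝ)|) * m ζ : ℝ) : ℂ) *
      (Qf Kc a ζ (p4 f) * conj (mh Kc a Q ζ)) := ⟨_, rfl⟩
  have z2 : ‖T 0‖ ≤ 2 ^ 20 * κ ^ 2 * w ^ 3 * (mW Kc a Q * lg Q.w) := by
    have a1 : |m 0| ≤ 1 := by
      rw [hm, abs_of_nonneg (mul_nonneg (trap_nonneg _ _ _) (trap_nonneg _ _ _))]
      exact mul_le_one₀ (trap_le _ _ _) (trap_nonneg _ _ _) (trap_le _ _ _)
    have a2 : mW Kc a Q ≤ mW Kc a Q * lg Q.w :=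
      le_mul_of_one_le_right (mW_nonneg Kc a Q)
        (le_trans (by norm_num) (two_le_lg (by exact_mod_cast hQ)))
    rw [hT]
    simp only [Int.cast_zero, abs_zero, mul_zero, Real.exp_zero, one_mul, norm_mul,
      Complex.norm_real, Real.norm_eq_abs, RCLike.norm_conj]
    refine (mul_le_of_le_one_left (by positivity) a1).trans ?_
    exact mul_le_mul z1 ((mh_norm Kc a Q 0).trans a2) (norm_nonneg _) (by positivity)
  have e1 : (SQ Kc a t Q fun ζ k => trap 0 (w / 8) ζ * trap 0 (D / 128) ζ * (e * ζ * p4 f k)) =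
      (e : ℂ) * -I * (∑ ζ ∈ FF (2 * Kc), T ζ - T 0) := by
    rw [← Finset.sum_erase_eq_sub (zero_mem_FF _), Finset.mul_sum]
    refine Finset.sum_congr rfl fun ζ hζ => ?_
    have z0 : (ζ : ℂ) ≠ 0 := Int.cast_ne_zero.2 (Finset.mem_erase.1 hζ).1
    rw [Qf_smul, Qf_smul, hT, hm, cf]
    push_cast
    field_simp
    rw [I_sq]; ring
  rw [e1, norm_mul, norm_mul, norm_neg, norm_I, mul_one, Complex.norm_real, Real.norm_eq_abs]
  refine (mul_le_of_le_one_left (norm_nonneg _) he).trans ((norm_sub_le _ _).trans ?_)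
  rw [add_comm]
  refine add_le_add z2 (le_trans ?_ h6)
  rw [hT]; exact h5

/-- one kink, one unit, small defects -/
theorem kstep1 {l j : ℕ} {P Q R : Win} {i : Fin 3} {y c : ℤ} {t κ Ξ : ℝ} (hl : 11 ≤ l) (hj : l ≤ j)
    (ht : 0 < t) (ht1 : t ≤ 1) (htw : 4 * 2 ^ l ≤ t * P.w) (hD : 2 ^ (l + j) ≤ 32 * P.w)
    (hc : LocCov Kc a (2 ^ l) (2 ^ j) y Ξ) (hΞ : 0 ≤ Ξ) (c1 : 16 * |c - P.kz i| ≤ 2 ^ (l + j))
    (c2 : |c - P.z| ≤ P.w) (hy : |c - y| ≤ 2 ^ (l + j))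
    (g1 : mB Kc a (P.kz i) (2 ^ (l + j)) ≤ κ * 2 ^ (l + j))
    (g2 : mB Kc a c (2 * 2 ^ (l + j)) ≤ κ * (2 * 2 ^ (l + j))) (r1 : |R.z - P.z| ≤ P.w)
    (r2 : 256 * P.w ≤ R.w) (hQ : 1 ≤ Q.w) :
    ‖SQ Kc a t Q fun ζ k => trap 0 (P.w / 8) ζ * trap 0 (2 ^ (l + j) / 128) ζ *
      (sk P i ζ k * (p4 (trap c (2 ^ (l + j))) k - p4 (trap (P.kz i) (2 ^ (l + j) / 2)) k))‖ ≤
      (2 ^ 67 * (2 ^ l) ^ 6 * Ξ + 2 ^ 30 * κ ^ 2 * P.w ^ 3) * (mW Kc a Q * lg Q.w) +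
        2 ^ 60 * (2 ^ l) ^ 2 * κ * P.w ^ 2 * XX Kc a t R Q := by
  have _ := g1
  obtain ⟨L, eL⟩ : ∃ L : ℕ, L = 2 ^ l := ⟨_, rfl⟩
  obtain ⟨u, eu⟩ : ∃ u : ℕ, u = 2 ^ j := ⟨_, rfl⟩
  have hL : 2 ^ 11 ≤ L := eL ▸ Nat.pow_le_pow_right (by norm_num) hl
  have hu : L ≤ u := by rw [eL, eu]; exact Nat.pow_le_pow_right (by norm_num) hj
  have e1 : (2 : ℝ) ^ l = L := by rw [eL]; push_cast; rfl
  have e2 : (2 : ℝ) ^ (l + j) = L * u := by rw [eL, eu, pow_add]; push_cast; rfl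
  have hLr : (2 : ℝ) ^ 11 ≤ L := by exact_mod_cast hL
  have hur : (L : ℝ) ≤ u := by exact_mod_cast hu
  have u0 : (0 : ℝ) < u := by linarith
  have uD : 2 * (u : ℝ) ≤ L * u := by nlinarith
  have hD' : (L : ℝ) * u ≤ 32 * P.w := by rw [← e2]; exact_mod_cast hD
  have c1' : 16 * |(c : ℝ) - P.kz i| ≤ L * u := by rw [← e2]; exact_mod_cast c1
  have hy' : |(c : ℝ) - y| ≤ L * u := by rw [← e2]; exact_mod_cast hy
  have r1' : |(R.z : ℝ) - c| ≤ 2 * P.w := by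
    have a1 : |(c : ℝ) - P.z| ≤ P.w := by exact_mod_cast c2
    have a2 : |(R.z : ℝ) - P.z| ≤ P.w := by exact_mod_cast r1
    have a3 := abs_le.1 a1
    have a4 := abs_le.1 a2
    exact abs_le.2 ⟨by linarith, by linarith⟩
  have r2' : 256 * (P.w : ℝ) ≤ R.w := by exact_mod_cast r2
  rw [← eL, ← eu] at hc
  rw [e1] at htw
  rw [e2] at g2
  rw [e1, e2]
  obtain ⟨ε, σ, hε, σ1, σ2, hg⟩ := srcA_gk P i
  have he : |ε * σ / 2| ≤ 1 := by
    rw [abs_div, abs_mul, hε, abs_two, abs_of_pos (by linarith)]; linarith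
  have un : 1 ≤ u := by omega
  have five : ∀ χ : ℤ → ℝ, HC u 4 χ → (∀ k, 0 ≤ χ k ∧ χ k ≤ 1) → Supp χ c (2 * (L * u)) →
      ‖SQ Kc a t Q fun ζ k => trap 0 (P.w / 8) ζ * trap 0 (L * u / 128) ζ * (ε * σ / 2 * ζ *
        p4 (fun n => χ n * psiR L u y (P.kz i + L * u / 64) n) k)‖ ≤
      2 ^ 20 * κ ^ 2 * P.w ^ 3 * (mW Kc a Q * lg Q.w) +
        2 ^ 50 * (L : ℝ) ^ 2 * κ * P.w ^ 2 * XX Kc a t R Q := by
    intro χ h1 h2 h3
    refine srcA_five Kc a hLr hur rfl ht ht1 htw hD' (c := c) ?_ (fun k => ?_)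
      (fun k hk => h3 k (left_ne_zero_of_mul hk)) g2 r1' r2' hQ he
    · exact (h1.mul (hc_psiR un y _) u0).mono u0 le_rfl (by norm_num)
    · have := psiR_mem (L := L) un y (P.kz i + L * u / 64) k
      rw [abs_of_nonneg (mul_nonneg (h2 k).1 this.1)]
      exact mul_le_one₀ (h2 k).2 this.1 this.2
  have f1 := five (trap c (L * u)) ((hc_trap c (by linarith)).mono u0 (by linarith) le_rfl)
    (fun k => ⟨trap_nonneg _ _ _, trap_le _ _ _⟩) (trap_supp c (by linarith))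
  have f2 := five (trap (P.kz i) (L * u / 2))
    ((hc_trap _ (by linarith)).mono u0 (by linarith) le_rfl)
    (fun k => ⟨trap_nonneg _ _ _, trap_le _ _ _⟩) fun k hk => by
      have a1 := abs_le.1 (trap_supp (P.kz i) (by linarith) k hk)
      have a2 := abs_le.1 (show |(c : ℝ) - P.kz i| ≤ L * u / 16 by linarith)
      exact abs_le.2 ⟨by linarith, by linarith⟩
  have f3 := SQ_le Kc a ht.le Q (fun ζ k => trap 0 (P.w / 8) ζ * trap 0 (L * u / 128) ζ *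
      (sk P i ζ k * (p4 (trap c (L * u)) k - p4 (trap (P.kz i) (L * u / 2)) k)) -
      (trap 0 (P.w / 8) ζ * trap 0 (L * u / 128) ζ * (ε * σ / 2 * ζ *
        p4 (fun n => trap c (L * u) n * psiR L u y (P.kz i + L * u / 64) n) k) -
      trap 0 (P.w / 8) ζ * trap 0 (L * u / 128) ζ * (ε * σ / 2 * ζ *
        p4 (fun n => trap (P.kz i) (L * u / 2) n * psiR L u y (P.kz i + L * u / 64) n) k)))
    (X := 2 ^ 67 * (L : ℝ) ^ 6 * Ξ) (by positivity) fun ζ _ => by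
      rw [Qf_sub, Qf_sub, Qf_smul, Qf_smul, Qf_smul, Qf_smul, Qf_smul, ← mul_sub, ← mul_sub,
        ← mul_sub, norm_mul, Complex.norm_real, Real.norm_eq_abs]
      by_cases h0 : trap 0 (L * u / 128) ζ = 0
      · rw [h0, mul_zero, abs_zero, zero_mul]; positivity
      have a1 := trap_supp 0 (by linarith) ζ h0
      rw [Int.cast_zero, sub_zero] at a1
      obtain ⟨b, b1, b2, b3⟩ := hg ζ
      have a2 := srcA_step Kc a hL hu hc hΞ c1' hy' (ζ := ζ) (by linarith) hε σ1 σ2 b1 b2 b3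
      rw [show ε * σ * ζ / 2 = ε * σ / 2 * ζ by ring] at a2
      refine (mul_le_of_le_one_left (norm_nonneg _) ?_).trans a2
      rw [abs_of_nonneg (mul_nonneg (trap_nonneg _ _ _) (trap_nonneg _ _ _))]
      exact mul_le_one₀ (trap_le _ _ _) (trap_nonneg _ _ _) (trap_le _ _ _)
  rw [SQ_sub, SQ_sub] at f3
  have m0 : 0 ≤ κ ^ 2 * P.w ^ 3 * (mW Kc a Q * lg Q.w) :=
    mul_nonneg (by positivity) (mul_nonneg (mW_nonneg Kc a Q) (lg_nonneg _))
  have κ0 : 0 ≤ κ := nonneg_of_mul_nonneg_left ((mB_nonneg Kc a c _).trans g2) (by linarith)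
  have m1 : 0 ≤ (L : ℝ) ^ 2 * κ * P.w ^ 2 * XX Kc a t R Q :=
    mul_nonneg (by positivity) (XX_nonneg Kc a ht R Q)
  refine (norm_le_norm_sub_add _ _).trans ((add_le_add f3 ((norm_sub_le _ _).trans
    (add_le_add f1 f2))).trans ?_)
  nlinarith

end Pool.Agent.Lib.MMTX
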