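import Pool.Agent.Lib.MP_0dc93f_an.X.Kit

/-! The source term: large defects in one local step. -/

namespace Pool.Agent.Lib.MMTX

open Finset Complex ComplexConjugate MMTW

/-- on a half line of defects every ramp of the window symbol is a ramp in `p k + q ζ` -/
lemma srcb_gk (P : Win) (i : Fin 3) {s : ℤ} (hs : s = 1 ∨ s = -1) : ∃ (ε : ℝ) (p q : ℤ),
    |ε| = 1 ∧ 1 ≤ p ∧ p ≤ 2 ∧ |q| ≤ 1 ∧ |q - p| ≤ 1 ∧ ∀ ζ k : ℤ, 0 < s * ζ →
      gk P i ζ k = ε * max 0 (((p * k + q * ζ : ℤ) : ℝ) - ((p * P.kz i : ℤ) : ℝ)) := by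
  have pos : ∀ ζ : ℤ, 0 < 1 * ζ → (0 : ℝ) ≤ ζ := fun ζ h => by exact_mod_cast (by omega : 0 ≤ ζ)
  have neg : ∀ ζ : ℤ, 0 < -1 * ζ → (ζ : ℝ) ≤ 0 := fun ζ h => by exact_mod_cast (by omega : ζ ≤ 0)
  obtain rfl | rfl | rfl : i = 0 ∨ i = 1 ∨ i = 2 := by omega
  · rcases hs with rfl | rfl
    · refine ⟨1, 1, 0, by simp, by simp, by simp, by simp, by simp, fun ζ k h => ?_⟩
      simp only [gk, Win.kz, if_true, min_eq_right (pos ζ h), one_mul]
      congr 1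
      push_cast
      simp
      ring
    · refine ⟨1, 1, 1, by simp, by simp, by simp, by simp, by simp, fun ζ k h => ?_⟩
      simp only [gk, Win.kz, if_true, min_eq_left (neg ζ h), one_mul]
      congr 1
      push_cast
      simp
      ring
  · refine ⟨-1, 2, 1, by simp, by simp, by simp, by simp, by simp, fun ζ k _ => ?_⟩
    simp only [gk, Win.kz, if_true, if_neg (show (1 : Fin 3) ≠ 0 by decide), neg_mul, one_mul]
    congr 2
    push_cast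
    simp
  · rcases hs with rfl | rfl
    · refine ⟨1, 1, 1, by simp, by simp, by simp, by simp, by simp, fun ζ k h => ?_⟩
      simp only [gk, Win.kz, if_neg (show (2 : Fin 3) ≠ 0 by decide),
        if_neg (show (2 : Fin 3) ≠ 1 by decide), max_eq_left (pos ζ h), one_mul]
      congr 1
      push_cast
      norm_num
    · refine ⟨1, 1, 0, by simp, by simp, by simp, by simp, by simp, fun ζ k h => ?_⟩
      simp only [gk, Win.kz, if_neg (show (2 : Fin 3) ≠ 0 by decide),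
        if_neg (show (2 : Fin 3) ≠ 1 by decide), max_eq_right (neg ζ h), one_mul]
      congr 1
      push_cast
      norm_num

/-- the clipped ramp -/
noncomputable def srcbPhi (z : ℤ) (D : ℝ) (n : ℤ) : ℝ := clp z (16 * D) n * trap z (16 * D) n

lemma srcb_phi_eq (z : ℤ) {D : ℝ} (hD : 0 < D) {n : ℤ} (h : |(n : ℝ) - z| ≤ 16 * D) :
    srcbPhi z D n = max 0 ((n : ℝ) - z) := by
  unfold srcbPhi clp
  rw [trap_one z (by positivity) n h, mul_one, min_eq_right ((le_abs_self _).trans h)]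

lemma srcb_phi_kern (z : ℤ) {D : ℝ} (hD : 1 ≤ D) :
    Kern (srcbPhi z D) (2 ^ 12 * D) (1 / (16 * D)) := by
  have h0 : 0 < 16 * D := by positivity
  have h := (hc_clp (z : ℝ) (h := 16 * D) (u := 16 * D) (S := 32 * D) h0.le h0 (by linarith)
    (by linarith)).mul (hc_trap z h0) h0
  refine (h.kern_ball (by linarith) (ρ := 2) (c := z) (by norm_num) fun k hk =>
    trap_supp z h0 k (right_ne_zero_of_mul hk)).mono (by positivity) (by nlinarith)

lemma srcb_p4 {c : ℤ} {D' : ℝ} (hD : 0 < D') {k : Fin 4 → ℤ} (h : p4 (trap c D') k ≠ 0)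
    (j : Fin 4) : |(k j : ℝ) - c| ≤ 2 * D' :=
  trap_supp c hD _ (Finset.prod_ne_zero_iff.1 h j (Finset.mem_univ _))

lemma srcb_De {c : ℤ} {D' : ℝ} (hD : 0 < D') {k : Fin 4 → ℤ} (h : p4 (trap c D') k ≠ 0) :
    |(De k : ℝ)| ≤ 8 * D' := by
  have h0 := abs_le.1 (srcb_p4 hD h 0)
  have h1 := abs_le.1 (srcb_p4 hD h 1)
  have h2 := abs_le.1 (srcb_p4 hD h 2)
  have h3 := abs_le.1 (srcb_p4 hD h 3)
  unfold De
  push_cast
  exact abs_le.2 ⟨by linarith, by linarith⟩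

/-- the argument of the ramp stays in the range where the clipping is not seen -/
lemma srcb_rng {c z p q : ℤ} {D D' : ℝ} (hD : 0 < D') (d2 : D' ≤ D)
    (c1 : 16 * |(c : ℝ) - z| ≤ D) (p1 : 1 ≤ p) (p2 : p ≤ 2) (hq : |q| ≤ 1) {k : Fin 4 → ℤ}
    (h : p4 (trap c D') k ≠ 0) (j : Fin 4) :
    |((p * k j + q * De k : ℤ) : ℝ) - ((p * z : ℤ) : ℝ)| ≤ 16 * D := by
  have h0 := srcb_p4 hD h j
  have h1 := srcb_De hD h
  have h2 : |(k j : ℝ) - z| ≤ 3 * D := by linarith [abs_sub_le (k j : ℝ) c z]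
  have p3 : |(p : ℝ)| ≤ 2 := by exact_mod_cast (abs_le.2 ⟨by omega, p2⟩ : |p| ≤ 2)
  have q3 : |(q : ℝ)| ≤ 1 := by exact_mod_cast hq
  have e : ((p * k j + q * De k : ℤ) : ℝ) - ((p * z : ℤ) : ℝ) =
      p * ((k j : ℝ) - z) + q * (De k : ℝ) := by push_cast; ring
  rw [e]
  refine (abs_add_le _ _).trans ?_
  rw [abs_mul, abs_mul]
  have a1 := mul_le_mul p3 h2 (abs_nonneg _) zero_le_two
  have a2 := mul_le_mul q3 h1 (abs_nonneg _) zero_le_one
  linarith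

/-- the multiplier of the positive defects -/
noncomputable def srcbM (D w : ℝ) (ζ : ℤ) : ℝ :=
  (if 0 < ζ then (1 - trap 0 (D / 128) ζ) / ζ else 0) * trap 0 (8 * D) ζ * trap 0 (w / 8) ζ

lemma srcb_m_hc {D w : ℝ} (hD : 2 ^ 11 ≤ D) (hw : D ≤ 32 * w) :
    HC (D / 256) (2 ^ 19 / D) (srcbM D w) := by
  have h0 : 0 < D / 256 := by linarith
  have h1 := (hc_inv' (d := D / 128) (by linarith)).mono h0 (by linarith) le_rfl
  have h2 := (hc_trap 0 (D := 8 * D) (by linarith)).mono h0 (by linarith) le_rfl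
  have h3 := (hc_trap 0 (D := w / 8) (by linarith)).mono h0 (by linarith) le_rfl
  have h := (h1.mul h2 h0).mul h3 h0
  have e : 4 * (4 * (16 / (D / 128)) * 4) * 4 = 2 ^ 19 / D := by
    have : D ≠ 0 := by linarith
    field_simp
    norm_num
  rwa [e] at h

lemma srcb_m_kern {D w : ℝ} (hD : 2 ^ 11 ≤ D) (hw : D ≤ 32 * w) {s : ℤ} (hs : s = 1 ∨ s = -1) :
    Kern (fun ζ => srcbM D w (s * ζ)) (2 ^ 33 / D) (1 / (D / 256)) := by
  have h0 : 0 < D := by linarith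
  have h : HC (D / 256) (2 ^ 19 / D) fun ζ => srcbM D w (s * ζ) := by
    rcases hs with rfl | rfl
    · exact (srcb_m_hc hD hw).congr fun k => by rw [one_mul]
    · exact (srcb_m_hc hD hw).refl.congr fun k => by rw [neg_one_mul]
  refine (h.kern_ball (by linarith) (ρ := 4096) (c := 0) (by norm_num) fun k hk => ?_).mono
    (by positivity) ?_
  · have := trap_supp 0 (D := 8 * D) (by linarith) _
      (right_ne_zero_of_mul (left_ne_zero_of_mul hk))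
    rcases hs with rfl | rfl
    · rw [one_mul] at this
      exact this.trans (le_of_eq (by ring))
    · simp only [neg_one_mul, Int.cast_neg, Int.cast_zero, sub_zero, abs_neg] at this ⊢
      linarith
  · rw [← mul_div_assoc]
    exact div_le_div_of_nonneg_right (by norm_num) h0.le

lemma srcb_m_pos {D w : ℝ} {ζ : ℤ} (h : srcbM D w ζ ≠ 0) : 0 < ζ := by
  by_contra h1
  exact h (by simp [srcbM, h1])

lemma srcb_even (D : ℝ) (ζ : ℤ) : trap 0 D (-ζ) = trap 0 D ζ := by simp [trap]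

lemma srcb_m_sub (D w : ℝ) (ζ : ℤ) : srcbM D w (1 * ζ) - srcbM D w (-1 * ζ) =
    trap 0 (w / 8) ζ * (1 - trap 0 (D / 128) ζ) * trap 0 (8 * D) ζ / ζ := by
  rw [one_mul, neg_one_mul]
  unfold srcbM
  simp only [srcb_even]
  rcases lt_trichotomy ζ 0 with h | rfl | h
  · rw [if_neg (by omega), if_pos (by omega)]
    push_cast
    ring
  · simp
  · rw [if_pos h, if_neg (by omega)]
    ring

variable (Kc : ℕ) (a : ℤ → ℂ)

/-- the symbol of one kink on a half line of defects -/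
lemma srcb_sym {D D' ε : ℝ} {P : Win} {i : Fin 3} {c p q ζ : ℤ} (hD : 0 < D') (d2 : D' ≤ D)
    (c1 : 16 * |(c : ℝ) - P.kz i| ≤ D) (p1 : 1 ≤ p) (p2 : p ≤ 2) (q1 : |q| ≤ 1)
    (q2 : |q - p| ≤ 1)
    (h : ∀ k, gk P i ζ k = ε * max 0 (((p * k + q * ζ : ℤ) : ℝ) - ((p * P.kz i : ℤ) : ℝ))) :
    Qf Kc a ζ (fun k => sk P i ζ k * p4 (trap c D') k) = ((ε / 2 : ℝ) : ℂ) *
      (Qf Kc a ζ (fun k => srcbPhi (p * P.kz i) D (p * k 1 + q * ζ) * p4 (trap c D') k) +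
        Qf Kc a ζ (fun k => srcbPhi (p * P.kz i) D (p * k 3 + q * ζ) * p4 (trap c D') k) -
        Qf Kc a ζ (fun k => srcbPhi (p * P.kz i) D (p * k 0 + (q - p) * ζ) * p4 (trap c D') k) -
        Qf Kc a ζ fun k => srcbPhi (p * P.kz i) D (p * k 2 + (q - p) * ζ) * p4 (trap c D') k) := by
  rw [← Qf_add, ← Qf_sub, ← Qf_sub, ← Qf_smul]
  refine Qf_congr Kc a ζ fun k _ hk => ?_
  by_cases h0 : p4 (trap c D') k = 0
  · simp [h0]
  have D0 : 0 < D := by linarith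
  subst hk
  rw [srcb_phi_eq _ D0 (srcb_rng hD d2 c1 p1 p2 q1 h0 1),
    srcb_phi_eq _ D0 (srcb_rng hD d2 c1 p1 p2 q1 h0 3),
    srcb_phi_eq _ D0 (srcb_rng hD d2 c1 p1 p2 q2 h0 0),
    srcb_phi_eq _ D0 (srcb_rng hD d2 c1 p1 p2 q2 h0 2)]
  unfold sk
  rw [h, h, h, h, show p * (k 0 - De k) + q * De k = p * k 0 + (q - p) * De k by ring,
    show p * (k 2 - De k) + q * De k = p * k 2 + (q - p) * De k by ring]
  ring

/-- the size of one term -/
lemma srcb_num {L D D' t κ w : ℝ} (hL : 2 ^ 11 ≤ L) (hD0 : L ≤ D) (ht : 0 < t)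
    (htw : 4 * L ≤ t * w) (hD : D ≤ 32 * w) (d1 : D / 2 ≤ D') (hκ : 0 ≤ κ) :
    2 ^ 9 * (2 ^ 33 / D) * (2 ^ 12 * D) * 24 ^ 2 * (10 * D ^ 2 * κ) *
      (1 + (1 / (D / 256) + 1 / (16 * D) + 1 / D') / t) ≤ 2 ^ 82 * κ * w ^ 2 := by
  have D0 : 0 < D := by linarith
  have w0 : 0 < w := by linarith
  have s1 : 1 / (D / 256) = 256 * (1 / D) := by field_simp
  have s2 : 1 / (16 * D) ≤ 1 / D := one_div_le_one_div_of_le D0 (by linarith)
  have s3 : 1 / D' ≤ 2 * (1 / D) :=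
    (one_div_le_one_div_of_le (by positivity) d1).trans (le_of_eq (by field_simp))
  have t1 : 1 / t ≤ w / 2 ^ 13 := by
    rw [div_le_div_iff₀ ht (by norm_num)]; linarith
  have s4 : D ^ 2 * (1 + (1 / (D / 256) + 1 / (16 * D) + 1 / D') / t) ≤ 2 ^ 11 * w ^ 2 := by
    have b1 : (1 / (D / 256) + 1 / (16 * D) + 1 / D') / t ≤ 259 * (1 / D) * (w / 2 ^ 13) := by
      rw [div_eq_mul_one_div _ t]
      exact mul_le_mul (by linarith) t1 (by positivity) (by positivity)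
    have b2 : D ^ 2 * (259 * (1 / D) * (w / 2 ^ 13)) = 259 / 2 ^ 13 * (D * w) := by field_simp
    have b3 := mul_le_mul_of_nonneg_left b1 (sq_nonneg D)
    have b4 : D * w ≤ 32 * w * w := mul_le_mul_of_nonneg_right hD w0.le
    have b5 : D ^ 2 ≤ (32 * w) ^ 2 := pow_le_pow_left₀ D0.le hD 2
    nlinarith
  have e : 2 ^ 9 * (2 ^ 33 / D) * (2 ^ 12 * D) * 24 ^ 2 * (10 * D ^ 2 * κ) *
      (1 + (1 / (D / 256) + 1 / (16 * D) + 1 / D') / t) = 2 ^ 54 * 5760 * κ *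
        (D ^ 2 * (1 + (1 / (D / 256) + 1 / (16 * D) + 1 / D') / t)) := by
    generalize 1 + (1 / (D / 256) + 1 / (16 * D) + 1 / D') / t = y
    field_simp
    ring
  rw [e]
  refine (mul_le_mul_of_nonneg_left s4 (mul_nonneg (by norm_num) hκ)).trans ?_
  have : 0 ≤ κ * w ^ 2 := mul_nonneg hκ (sq_nonneg w)
  nlinarith

/-- one half line of defects -/
lemma srcb_half {L D D' t κ : ℝ} {P Q R : Win} {i : Fin 3} {c s : ℤ} (hs : s = 1 ∨ s = -1)
    (hL : 2 ^ 11 ≤ L) (hD0 : L ≤ D)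
    (ht : 0 < t) (ht1 : t ≤ 1) (htw : 4 * L ≤ t * P.w) (hD : D ≤ 32 * P.w) (d1 : D / 2 ≤ D')
    (d2 : D' ≤ D) (c1 : 16 * |(c : ℝ) - P.kz i| ≤ D) (c2 : |c - P.z| ≤ P.w)
    (g : mB Kc a c (2 * D') ≤ κ * (2 * D)) (r1 : |R.z - P.z| ≤ P.w) (r2 : 256 * P.w ≤ R.w) :
    ‖∑ ζ ∈ FF (2 * Kc), ((Real.exp (-t * |(ζ : ℝ)|) * srcbM D P.w (s * ζ) : ℝ) : ℂ) *
      (Qf Kc a ζ (fun k => sk P i ζ k * p4 (trap c D') k) * conj (mh Kc a Q ζ))‖ ≤
      2 ^ 83 * κ * P.w ^ 2 * XX Kc a t R Q := by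
  obtain ⟨ε, p, q, e1, p1, p2, q1, q2, h⟩ := srcb_gk P i hs
  have D0 : 0 < D := by linarith
  have D1 : 0 < D' := by linarith
  have hκ : 0 ≤ κ := nonneg_of_mul_nonneg_left ((mB_nonneg Kc a _ _).trans g) (by linarith)
  have r3 : (256 : ℝ) * P.w ≤ R.w := by exact_mod_cast r2
  have hw : 1 ≤ R.w := by exact_mod_cast (by linarith : (1 : ℝ) ≤ R.w)
  have hf : Kern (trap c D') 24 (1 / D') :=
    ((hc_trap c D1).kern_ball (by linarith) (ρ := 2) (by norm_num) (trap_supp c D1)).mono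
      (by positivity) (by norm_num)
  have hS : Supp (trap c D') R.z (R.w / 2) := fun k hk => by
    have b1 := trap_supp c D1 k hk
    have b2 : |(c : ℝ) - P.z| ≤ P.w := by exact_mod_cast c2
    have b3 : |(P.z : ℝ) - R.z| ≤ P.w := by rw [abs_sub_comm]; exact_mod_cast r1
    linarith [abs_sub_le (k : ℝ) c R.z, abs_sub_le (c : ℝ) P.z R.z]
  have hΛ : (∑ k ∈ FF Kc, |trap c D' k| * ‖a k‖) ^ 2 ≤ 10 * D ^ 2 * κ := by
    refine (l1_le Kc a (S := 1) (by linarith) (trap_supp c D1) fun k => ?_).trans ?_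
    · rw [abs_of_nonneg (trap_nonneg _ _ _)]; exact trap_le _ _ _
    · have := mul_le_mul (show 2 * (2 * D') + 1 ≤ 5 * D by linarith) g (mB_nonneg Kc a _ _)
        (by linarith)
      linarith
  have h4 : t + 1 / (D / 256) + 1 / (16 * D) + 1 / D' ≤ 2 := by
    have s1 : 1 / (D / 256) ≤ 1 / 8 := one_div_le_one_div_of_le (by norm_num) (by linarith)
    have s2 : 1 / (16 * D) ≤ 1 / 8 := one_div_le_one_div_of_le (by norm_num) (by linarith)
    have s3 : 1 / D' ≤ 1 / 8 := one_div_le_one_div_of_le (by norm_num) (by linarith)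
    linarith
  have one : ∀ (j : Fin 4) (q' : ℤ), |q'| ≤ 1 →
      ‖∑ ζ ∈ FF (2 * Kc), ((Real.exp (-t * |(ζ : ℝ)|) * srcbM D P.w (s * ζ) : ℝ) : ℂ) *
        (Qf Kc a ζ (fun k => srcbPhi (p * P.kz i) D (p * k j + q' * ζ) * p4 (trap c D') k) *
          conj (mh Kc a Q ζ))‖ ≤ 2 ^ 82 * κ * P.w ^ 2 * XX Kc a t R Q := fun j q' hq =>
    (ft1 Kc a Q j p q' hq (srcb_m_kern (by linarith) hD hs)
      (srcb_phi_kern (p * P.kz i) (by linarith)) hf ht (by positivity) (by positivity)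
      (by positivity) h4 hw hS hΛ).trans (mul_le_mul_of_nonneg_right
        (srcb_num hL hD0 ht htw hD d1 hκ) (XX_nonneg Kc a ht R Q))
  have b1 := one 1 q q1
  have b3 := one 3 q q1
  have b0 := one 0 (q - p) q2
  have b2 := one 2 (q - p) q2
  have b := norm_sub_le_of_le (norm_sub_le_of_le (norm_add_le_of_le b1 b3) b0) b2
  have n : ‖((ε / 2 : ℝ) : ℂ)‖ = 1 / 2 := by
    rw [Complex.norm_real, Real.norm_eq_abs, abs_div, e1]; norm_num
  refine le_trans (le_of_eq ?_) ((mul_le_mul_of_nonneg_left b (norm_nonneg ((ε / 2 : ℝ) : ℂ))).trans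
    (le_of_eq (by rw [n]; ring)))
  rw [← norm_mul, ← Finset.sum_add_distrib, ← Finset.sum_sub_distrib, ← Finset.sum_sub_distrib,
    Finset.mul_sum]
  congr 1
  refine Finset.sum_congr rfl fun ζ _ => ?_
  by_cases h0 : srcbM D P.w (s * ζ) = 0
  · simp [h0]
  rw [srcb_sym Kc a D1 d2 c1 p1 p2 q1 q2 fun k => h ζ k (srcb_m_pos h0)]
  ring

/-- one kink, one unit, large defects -/
theorem kstep2 {L D D' t κ : ℝ} {P Q R : Win} {i : Fin 3} {c : ℤ} (hL : 2 ^ 11 ≤ L) (hD0 : L ≤ D)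
    (ht : 0 < t) (ht1 : t ≤ 1) (htw : 4 * L ≤ t * P.w) (hD : D ≤ 32 * P.w) (d1 : D / 2 ≤ D')
    (d2 : D' ≤ D) (c1 : 16 * |(c : ℝ) - P.kz i| ≤ D) (c2 : |c - P.z| ≤ P.w)
    (g : mB Kc a c (2 * D') ≤ κ * (2 * D)) (r1 : |R.z - P.z| ≤ P.w) (r2 : 256 * P.w ≤ R.w) :
    ‖SQ Kc a t Q fun ζ k => trap 0 (P.w / 8) ζ * (1 - trap 0 (D / 128) ζ) *
      (sk P i ζ k * p4 (trap c D') k)‖ ≤ 2 ^ 84 * κ * P.w ^ 2 * XX Kc a t R Q := by
  have b := norm_sub_le_of_le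
    (srcb_half Kc a (Q := Q) (Or.inl rfl) hL hD0 ht ht1 htw hD d1 d2 c1 c2 g r1 r2)
    (srcb_half Kc a (Q := Q) (Or.inr rfl) hL hD0 ht ht1 htw hD d1 d2 c1 c2 g r1 r2)
  refine le_trans (le_of_eq ?_) (b.trans (le_of_eq (by ring)))
  have n : ∀ z : ℂ, ‖z‖ = ‖I * z‖ := fun z => by rw [norm_mul, Complex.norm_I, one_mul]
  rw [n, ← Finset.sum_sub_distrib]
  congr 1
  unfold SQ
  rw [Finset.mul_sum]
  refine Finset.sum_subset_zero_on_sdiff (Finset.erase_subset _ _) (fun ζ hζ => ?_) fun ζ hζ => ?_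
  · obtain rfl : ζ = 0 := by
      by_contra h
      exact (Finset.mem_sdiff.1 hζ).2 (Finset.mem_erase.2 ⟨h, (Finset.mem_sdiff.1 hζ).1⟩)
    simp [srcbM]
  have z0 : (ζ : ℂ) ≠ 0 := by exact_mod_cast (Finset.mem_erase.1 hζ).1
  have e : Qf Kc a ζ (fun k => trap 0 (P.w / 8) ζ * (1 - trap 0 (D / 128) ζ) *
      (sk P i ζ k * p4 (trap c D') k)) = Qf Kc a ζ fun k => trap 0 (P.w / 8) ζ *
        (1 - trap 0 (D / 128) ζ) * trap 0 (8 * D) ζ * (sk P i ζ k * p4 (trap c D') k) := by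
    refine Qf_congr Kc a ζ fun k _ hk => ?_
    by_cases h0 : p4 (trap c D') k = 0
    · simp [h0]
    have := srcb_De (by linarith) h0
    rw [hk] at this
    rw [trap_one 0 (D := 8 * D) (by linarith) ζ (by rw [Int.cast_zero, sub_zero]; linarith),
      mul_one]
  beta_reduce
  rw [e, Qf_smul, ← sub_mul, ← ofReal_sub, ← mul_sub, srcb_m_sub]
  unfold cf
  push_cast
  field_simp

end Pool.Agent.Lib.MMTX
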