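import Pool.Agent.Lib.MP_0dc93f_an.X.SrcA
import Pool.Agent.Lib.MP_0dc93f_an.X.SrcB

/-! The source term: the part inside the scale of the window. -/

namespace Pool.Agent.Lib.MMTX

open Finset Complex ComplexConjugate MMTW

lemma srcc_kz1 (P : Win) : P.kz 1 = P.z := by simp [Win.kz]

lemma srcc_kz (P : Win) (i : Fin 3) : |P.kz i - P.z| ≤ P.w := by
  fin_cases i <;> simp [Win.kz]

lemma srcc_p4_mem (z : ℤ) (D : ℝ) (k : Fin 4 → ℤ) :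
    0 ≤ p4 (trap z D) k ∧ p4 (trap z D) k ≤ 1 :=
  ⟨Finset.prod_nonneg fun _ _ => trap_nonneg _ _ _,
    Finset.prod_le_one (fun _ _ => trap_nonneg _ _ _) fun _ _ => trap_le _ _ _⟩

lemma srcc_p4_ne {z : ℤ} {D : ℝ} (hD : 0 < D) {k : Fin 4 → ℤ} (h : p4 (trap z D) k ≠ 0)
    (i : Fin 4) : |(k i : ℝ) - z| < 2 * D :=
  trap_ne z hD (Finset.prod_ne_zero_iff.1 h i (Finset.mem_univ i))

lemma srcc_sz (P : Win) (ζ : ℤ) (k : Fin 4 → ℤ) : |sz P ζ k| ≤ P.w := by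
  have a1 := gw_nonneg P (k 1) ζ
  have a2 := gw_nonneg P (k 3) ζ
  have a3 := gw_nonneg P (k 0 - ζ) ζ
  have a4 := gw_nonneg P (k 2 - ζ) ζ
  have b1 := gw_le P (k 1) ζ
  have b2 := gw_le P (k 3) ζ
  have b3 := gw_le P (k 0 - ζ) ζ
  have b4 := gw_le P (k 2 - ζ) ζ
  rw [sz, abs_le]
  constructor <;> linarith

lemma srcc_max {x D : ℝ} (hD : 0 ≤ D) (h : x ≤ D) : 0 ≤ max 0 x ∧ max 0 x ≤ D :=
  ⟨le_max_left _ _, max_le hD h⟩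

/-- one ramp near its kink -/
lemma srcc_gk (P : Win) (i : Fin 3) {ζ n : ℤ} {D : ℝ} (hD : 0 ≤ D) (hζ : |(ζ : ℝ)| ≤ 8 * D)
    (hn : |(n : ℝ) - P.kz i| ≤ 2 * D) :
    |gk P i ζ n| ≤ 12 * D ∧ |gk P i ζ (n - ζ)| ≤ 12 * D ∧
      ∀ m : ℤ, |(m : ℝ) - P.kz i| ≤ 2 * D → |gk P i ζ n - gk P i ζ (m - ζ)| ≤ 12 * D := by
  have D12 : 0 ≤ 12 * D := by positivity
  obtain ⟨z1, z2⟩ := abs_le.1 hζ
  have m1 : min (ζ : ℝ) 0 ≤ 0 := min_le_right _ _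
  have m2 : min (ζ : ℝ) 0 ≤ ζ := min_le_left _ _
  have m3 : max (ζ : ℝ) 0 ≤ 8 * D := max_le z2 (by positivity)
  have m4 : max (ζ : ℝ) 0 ≤ ζ + 8 * D := max_le (by linarith) (by linarith)
  have key : ∀ x y : ℝ, x ≤ 12 * D → y ≤ 12 * D →
      |max 0 x| ≤ 12 * D ∧ |max 0 x - max 0 y| ≤ 12 * D := by
    intro x y hx hy
    obtain ⟨p1, p2⟩ := srcc_max D12 hx
    obtain ⟨q1, q2⟩ := srcc_max D12 hy
    exact ⟨abs_le.2 ⟨by linarith, p2⟩, abs_le.2 ⟨by linarith, by linarith⟩⟩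
  obtain ⟨n1, n2⟩ := abs_le.1 hn
  fin_cases i
  · simp only [Win.kz, Fin.zero_eta, Fin.isValue, gk, if_true] at *
    push_cast at *
    refine ⟨(key _ 0 (by linarith) D12).1, (key _ 0 (by linarith) D12).1, fun m hm => ?_⟩
    obtain ⟨k1, k2⟩ := abs_le.1 hm
    exact (key _ _ (by linarith) (by linarith)).2
  · simp only [Win.kz, Fin.mk_one, Fin.isValue, gk, one_ne_zero, if_true,
      if_false] at *
    push_cast at *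
    refine ⟨?_, ?_, fun m hm => ?_⟩
    · rw [abs_neg]; exact (key _ 0 (by linarith) D12).1
    · rw [abs_neg]; exact (key _ 0 (by linarith) D12).1
    · obtain ⟨k1, k2⟩ := abs_le.1 hm
      rw [neg_sub_neg]
      exact (key _ _ (by linarith) (by linarith)).2
  · have e0 : (2 : Fin 3) ≠ 0 := by decide
    have e1 : (2 : Fin 3) ≠ 1 := by decide
    simp only [Win.kz, Fin.reduceFinMk, Fin.isValue, gk, e0, e1, if_false] at *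
    push_cast at *
    refine ⟨(key _ 0 (by linarith) D12).1, (key _ 0 (by linarith) D12).1, fun m hm => ?_⟩
    obtain ⟨k1, k2⟩ := abs_le.1 hm
    exact (key _ _ (by linarith) (by linarith)).2

lemma srcc_sk (P : Win) (i : Fin 3) {ζ : ℤ} {k : Fin 4 → ℤ} {D : ℝ} (hD : 0 ≤ D) (hk : De k = ζ)
    (h : ∀ j, |(k j : ℝ) - P.kz i| ≤ 2 * D) : |sk P i ζ k| ≤ 12 * D := by
  have hζ : |(ζ : ℝ)| ≤ 8 * D := by
    have e : (ζ : ℝ) = k 0 - k 1 + k 2 - k 3 := by rw [← hk, De]; push_cast; ring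
    obtain ⟨a0, b0⟩ := abs_le.1 (h 0)
    obtain ⟨a1, b1⟩ := abs_le.1 (h 1)
    obtain ⟨a2, b2⟩ := abs_le.1 (h 2)
    obtain ⟨a3, b3⟩ := abs_le.1 (h 3)
    rw [e, abs_le]
    constructor <;> linarith
  obtain ⟨a1, b1⟩ := abs_le.1 ((srcc_gk P i hD hζ (h 1)).2.2 _ (h 0))
  obtain ⟨a2, b2⟩ := abs_le.1 ((srcc_gk P i hD hζ (h 3)).2.2 _ (h 2))
  rw [sk, abs_le]
  constructor <;> linarith

variable (Kc : ℕ) (a : ℤ → ℂ)

/-- crude bound for a symbol which lives in one ball -/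
lemma srcc_ball {t κ D S : ℝ} {z : ℤ} (Q : Win) (ht : 0 ≤ t) (hD : 1 ≤ D) (hS : 0 ≤ S)
    (τ : ℤ → ℝ) (hτ : ∀ ζ, |τ ζ| ≤ 1) (s : ℤ → (Fin 4 → ℤ) → ℝ)
    (hs : ∀ ζ k, De k = ζ → (∀ j, |(k j : ℝ) - z| ≤ 2 * D) → |s ζ k| ≤ S)
    (g : mB Kc a z (2 * D) ≤ κ * (2 * D)) :
    ‖SQ Kc a t Q fun ζ k => τ ζ * (s ζ k * p4 (trap z D) k)‖ ≤
      20 * S * κ ^ 2 * D ^ 3 * (mW Kc a Q * lg Q.w) := by
  have D0 : 0 < D := by linarith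
  refine SQ_le Kc a ht Q _ (by positivity) fun ζ _ => ?_
  have h1 := norm_Qf_le Kc a (ζ := ζ) (s := fun k => τ ζ * (s ζ k * p4 (trap z D) k))
    (p := fun k => ∀ i, |(k i : ℝ) - z| ≤ 2 * D) hS (fun k hk => by
      by_cases hp : p4 (trap z D) k = 0
      · simp [hp, hS]
      · obtain ⟨p1, p2⟩ := srcc_p4_mem z D k
        have h3 := hs ζ k hk fun j => (srcc_p4_ne D0 hp j).le
        rw [abs_mul, abs_mul, abs_of_nonneg p1]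
        calc |τ ζ| * (|s ζ k| * p4 (trap z D) k) ≤ 1 * (S * 1) := by gcongr; exact hτ ζ
          _ = S := by ring)
    (fun k _ hk j => (srcc_p4_ne D0 (right_ne_zero_of_mul (right_ne_zero_of_mul hk)) j).le)
  have h2 := c1 Kc a ζ z (D := 2 * D) (by positivity)
  have h0 := mB_nonneg Kc a z (2 * D)
  calc _ ≤ S * ((2 * (2 * D) + 1) * mB Kc a z (2 * D) ^ 2) :=
        h1.trans (mul_le_mul_of_nonneg_left h2 hS)
    _ ≤ S * ((5 * D) * (κ * (2 * D)) ^ 2) := by gcongr; linarith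
    _ = 20 * S * κ ^ 2 * D ^ 3 := by ring

/-- one kink, one unit -/
lemma srcc_step {l j : ℕ} {P Q R : Win} {i : Fin 3} {y c : ℤ} {t κ Ξ : ℝ} (hl : 11 ≤ l)
    (hj : l ≤ j) (ht : 0 < t) (ht1 : t ≤ 1) (htw : 4 * 2 ^ l ≤ t * P.w)
    (hD : 2 ^ (l + j) ≤ 32 * P.w) (hc : LocCov Kc a (2 ^ l) (2 ^ j) y Ξ) (hΞ : 0 ≤ Ξ) (hκ : 0 ≤ κ)
    (c1 : 16 * |c - P.kz i| ≤ 2 ^ (l + j)) (c2 : |c - P.z| ≤ P.w) (hy : |c - y| ≤ 2 ^ (l + j))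
    (g1 : mB Kc a (P.kz i) (2 ^ (l + j)) ≤ κ * 2 ^ (l + j))
    (g2 : mB Kc a c (2 * 2 ^ (l + j)) ≤ κ * (2 * 2 ^ (l + j))) (r1 : |R.z - P.z| ≤ P.w)
    (r2 : 256 * P.w ≤ R.w) (hQ : 1 ≤ Q.w) :
    ‖(SQ Kc a t Q fun ζ k => trap 0 (P.w / 8) ζ * (sk P i ζ k * p4 (trap c (2 ^ (l + j))) k)) -
      SQ Kc a t Q fun ζ k => trap 0 (P.w / 8) ζ *
        (sk P i ζ k * p4 (trap (P.kz i) (2 ^ (l + j) / 2)) k)‖ ≤
      (2 ^ 67 * (2 ^ l) ^ 6 * Ξ + 2 ^ 30 * κ ^ 2 * P.w ^ 3) * (mW Kc a Q * lg Q.w) +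
        2 ^ 86 * (2 ^ l) ^ 2 * κ * P.w ^ 2 * XX Kc a t R Q := by
  have A := kstep1 Kc a hl hj ht ht1 htw hD hc hΞ c1 c2 hy g1 g2 r1 r2 hQ
  have D0 : (0 : ℝ) < 2 ^ (l + j) := by positivity
  have hL : (2 : ℝ) ^ 11 ≤ 2 ^ l := pow_le_pow_right₀ one_le_two hl
  have hD0 : (2 : ℝ) ^ l ≤ 2 ^ (l + j) := pow_le_pow_right₀ one_le_two (Nat.le_add_right _ _)
  have hD' : (2 : ℝ) ^ (l + j) ≤ 32 * P.w := by exact_mod_cast hD
  have c1' : 16 * |(c : ℝ) - P.kz i| ≤ 2 ^ (l + j) := by exact_mod_cast c1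
  have B := kstep2 Kc a (Q := Q) (i := i) (D' := 2 ^ (l + j)) hL hD0 ht ht1 htw hD' (by linarith)
    le_rfl c1' c2 g2 r1 r2
  have C := kstep2 Kc a (Q := Q) (i := i) (c := P.kz i) (κ := κ) (D' := 2 ^ (l + j) / 2) hL hD0 ht
    ht1 htw hD' le_rfl (by linarith) (by simp) (srcc_kz P i) (by
      rw [show (2 : ℝ) * (2 ^ (l + j) / 2) = 2 ^ (l + j) by ring]
      exact g1.trans (mul_le_mul_of_nonneg_left (by linarith) hκ)) r1 r2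
  rw [← SQ_sub]
  have e : (fun (ζ : ℤ) (k : Fin 4 → ℤ) =>
      trap 0 (P.w / 8) ζ * (sk P i ζ k * p4 (trap c (2 ^ (l + j))) k) -
        trap 0 (P.w / 8) ζ * (sk P i ζ k * p4 (trap (P.kz i) (2 ^ (l + j) / 2)) k)) =
      fun ζ k => trap 0 (P.w / 8) ζ * trap 0 (2 ^ (l + j) / 128) ζ *
        (sk P i ζ k * (p4 (trap c (2 ^ (l + j))) k - p4 (trap (P.kz i) (2 ^ (l + j) / 2)) k)) +
        (trap 0 (P.w / 8) ζ * (1 - trap 0 (2 ^ (l + j) / 128) ζ) *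
          (sk P i ζ k * p4 (trap c (2 ^ (l + j))) k) -
        trap 0 (P.w / 8) ζ * (1 - trap 0 (2 ^ (l + j) / 128) ζ) *
          (sk P i ζ k * p4 (trap (P.kz i) (2 ^ (l + j) / 2)) k)) := by
    funext ζ k; ring
  rw [e, SQ_add, SQ_sub]
  have X0 : 0 ≤ κ * P.w ^ 2 * XX Kc a t R Q := mul_nonneg (by positivity) (XX_nonneg Kc a ht R Q)
  have L1 : (1 : ℝ) ≤ (2 ^ l) ^ 2 := one_le_pow₀ (one_le_pow₀ one_le_two)
  have X1 : κ * P.w ^ 2 * XX Kc a t R Q ≤ (2 ^ l) ^ 2 * (κ * P.w ^ 2 * XX Kc a t R Q) :=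
    le_mul_of_one_le_left X0 L1
  refine (norm_add_le _ _).trans ((add_le_add A ((norm_sub_le _ _).trans (add_le_add B C))).trans ?_)
  nlinarith

/-- one kink, all units -/
lemma srcc_kink {l j1 J j0 : ℕ} {P Q R : Win} (i : Fin 3) {t κ Ξ : ℝ} (hl : 11 ≤ l) (h1 : l ≤ j1)
    (h2 : j1 < J) (h3 : J ≤ j0) (ht : 0 < t) (ht1 : t ≤ 1) (htw : 4 * 2 ^ l ≤ t * P.w)
    (J1 : 16 * P.w ≤ 2 ^ (l + J)) (J2 : 2 ^ (l + J) ≤ 32 * P.w)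
    (hc : ∀ i, Cov Kc a (2 ^ l) (P.kz i) j1 j0 Ξ) (hΞ : 0 ≤ Ξ) (hκ : 0 ≤ κ)
    (hg : ∀ i, Gd Kc a (P.kz i) κ 1 (2 * 2 ^ (l + j0))) (r1 : |R.z - P.z| ≤ P.w)
    (r2 : 256 * P.w ≤ R.w) (hQ : 1 ≤ Q.w) :
    ‖SQ Kc a t Q fun ζ k => trap 0 (P.w / 8) ζ * (sk P i ζ k * p4 (trap P.z (2 ^ (l + J))) k)‖ ≤
      240 * κ ^ 2 * (2 ^ (l + j1)) ^ 4 * (mW Kc a Q * lg Q.w) +
      j0 * ((2 ^ 67 * (2 ^ l) ^ 6 * Ξ + 2 ^ 30 * κ ^ 2 * P.w ^ 3) * (mW Kc a Q * lg Q.w) +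
        2 ^ 86 * (2 ^ l) ^ 2 * κ * P.w ^ 2 * XX Kc a t R Q) := by
  set T := (2 ^ 67 * (2 ^ l) ^ 6 * Ξ + 2 ^ 30 * κ ^ 2 * P.w ^ 3) * (mW Kc a Q * lg Q.w) +
        2 ^ 86 * (2 ^ l) ^ 2 * κ * P.w ^ 2 * XX Kc a t R Q with hT
  set T0 := 240 * κ ^ 2 * (2 ^ (l + j1)) ^ 4 * (mW Kc a Q * lg Q.w) with hT0
  have M0 : 0 ≤ mW Kc a Q * lg Q.w := mul_nonneg (mW_nonneg Kc a Q) (lg_nonneg _)
  have X0 := XX_nonneg Kc a ht R Q
  have Tn : 0 ≤ T := by positivity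
  have g1 : ∀ i' j, j ≤ j0 → mB Kc a (P.kz i') (2 ^ (l + j)) ≤ κ * 2 ^ (l + j) := fun i' j hj => by
    have : (2 : ℝ) ^ (l + j) ≤ 2 ^ (l + j0) := pow_le_pow_right₀ one_le_two (by omega)
    have : (0 : ℝ) < 2 ^ (l + j0) := by positivity
    exact hg i' _ (one_le_pow₀ one_le_two) (by linarith)
  have g2 : ∀ i' j, j ≤ j0 → mB Kc a (P.kz i') (2 * 2 ^ (l + j)) ≤ κ * (2 * 2 ^ (l + j)) :=
    fun i' j hj => by
      have : (2 : ℝ) ^ (l + j) ≤ 2 ^ (l + j0) := pow_le_pow_right₀ one_le_two (by omega)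
      have : (1 : ℝ) ≤ 2 ^ (l + j) := one_le_pow₀ one_le_two
      exact hg i' _ (by linarith) (by linarith)
  have stp : ∀ j (i' : Fin 3), j1 ≤ j → j + 1 ≤ J → 16 * |P.kz i' - P.kz i| ≤ 2 ^ (l + (j + 1)) →
      ‖(SQ Kc a t Q fun ζ k => trap 0 (P.w / 8) ζ *
          (sk P i ζ k * p4 (trap (P.kz i') (2 ^ (l + (j + 1)))) k)) -
        SQ Kc a t Q fun ζ k => trap 0 (P.w / 8) ζ *
          (sk P i ζ k * p4 (trap (P.kz i) (2 ^ (l + j))) k)‖ ≤ T := by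
    intro j i' a1 a2 a3
    obtain ⟨y, hy, hcv⟩ := hc i' (j + 1) (by omega) (by omega)
    have := srcc_step Kc a (Q := Q) (i := i) (c := P.kz i') hl (j := j + 1) (by omega) ht ht1 htw
      ((Nat.pow_le_pow_right two_pos (by omega)).trans J2) hcv hΞ hκ a3 (srcc_kz P i')
      (by rw [pow_add]; exact_mod_cast hy) (g1 i _ (by omega)) (g2 i' _ (by omega)) r1 r2 hQ
    rwa [show (2 : ℝ) ^ (l + (j + 1)) / 2 = 2 ^ (l + j) by rw [← add_assoc, pow_succ]; ring] at this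
  have ind : ∀ n, j1 + n < J → ‖SQ Kc a t Q fun ζ k => trap 0 (P.w / 8) ζ *
      (sk P i ζ k * p4 (trap (P.kz i) (2 ^ (l + (j1 + n)))) k)‖ ≤ T0 + n * T := by
    intro n
    induction n with
    | zero =>
      intro _
      have D1 : (1 : ℝ) ≤ 2 ^ (l + j1) := one_le_pow₀ one_le_two
      have := srcc_ball Kc a (κ := κ) (D := 2 ^ (l + j1)) (S := 12 * 2 ^ (l + j1)) (z := P.kz i) Q
        ht.le D1 (by positivity) (trap 0 (P.w / 8))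
        (fun ζ => abs_le.2 ⟨by linarith [trap_nonneg 0 (P.w / 8) ζ], trap_le _ _ _⟩) (sk P i)
        (fun ζ k hk h => srcc_sk P i (by positivity) hk h) (g2 i j1 (by omega))
      refine this.trans (le_of_eq ?_)
      rw [hT0]; push_cast; ring
    | succ n ih =>
      intro hn
      have b1 := ih (by omega)
      have b2 := stp (j1 + n) i (by omega) (by omega) (by simp)
      have b3 := norm_le_norm_add_norm_sub' _ _ |>.trans (add_le_add b1 b2)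
      refine b3.trans (le_of_eq ?_)
      push_cast; ring
  obtain ⟨n, rfl⟩ : ∃ n, J = j1 + n + 1 := ⟨J - j1 - 1, by omega⟩
  have b1 := ind n (by omega)
  have J1' : 16 * (P.w : ℤ) ≤ 2 ^ (l + (j1 + n + 1)) := by exact_mod_cast J1
  have b2 := stp (j1 + n) 1 (by omega) le_rfl (by
    rw [srcc_kz1, abs_sub_comm]; linarith [srcc_kz P i])
  rw [srcc_kz1] at b2
  have b3 := norm_le_norm_add_norm_sub' _ _ |>.trans (add_le_add b1 b2)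
  have b4 : (n : ℝ) + 1 ≤ j0 := by exact_mod_cast (by omega : n + 1 ≤ j0)
  nlinarith

theorem src_in {l j1 J j0 : ℕ} {P Q R : Win} {t κ Ξ : ℝ} (hl : 11 ≤ l) (h1 : l ≤ j1) (h2 : j1 ≤ J)
    (h3 : J ≤ j0) (ht : 0 < t) (ht1 : t ≤ 1) (htw : 4 * 2 ^ l ≤ t * P.w)
    (J1 : 16 * P.w ≤ 2 ^ (l + J)) (J2 : J = j1 ∨ 2 ^ (l + J) ≤ 32 * P.w)
    (hc : ∀ i, Cov Kc a (2 ^ l) (P.kz i) j1 j0 Ξ) (hΞ : 0 ≤ Ξ)
    (hg : ∀ i, Gd Kc a (P.kz i) κ 1 (2 * 2 ^ (l + j0))) (r1 : |R.z - P.z| ≤ P.w)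
    (r2 : 256 * P.w ≤ R.w) (hQ : 1 ≤ Q.w) :
    ‖SQ Kc a t Q fun ζ k => trap 0 (P.w / 8) ζ * (sz P ζ k * p4 (trap P.z (2 ^ (l + J))) k)‖ ≤
      (2 ^ 11 * κ ^ 2 * (2 ^ (l + j1)) ^ 4 +
        j0 * (2 ^ 69 * (2 ^ l) ^ 6 * Ξ + 2 ^ 32 * κ ^ 2 * P.w ^ 3)) * (mW Kc a Q * lg Q.w) +
        2 ^ 90 * j0 * (2 ^ l) ^ 2 * κ * P.w ^ 2 * XX Kc a t R Q := by
  have M0 : 0 ≤ mW Kc a Q * lg Q.w := mul_nonneg (mW_nonneg Kc a Q) (lg_nonneg _)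
  have X0 := XX_nonneg Kc a ht R Q
  have hκ : 0 ≤ κ := by
    have d : (1 : ℝ) ≤ 2 ^ (l + j0) := one_le_pow₀ one_le_two
    have := (mB_nonneg Kc a _ _).trans (hg 0 1 le_rfl (by linarith))
    linarith
  have t1 : 0 ≤ κ ^ 2 * (2 ^ (l + j1)) ^ 4 * (mW Kc a Q * lg Q.w) := by positivity
  have t2 : 0 ≤ j0 * ((2 ^ l) ^ 6 * Ξ) * (mW Kc a Q * lg Q.w) := by positivity
  have t3 : 0 ≤ j0 * (κ ^ 2 * P.w ^ 3) * (mW Kc a Q * lg Q.w) := by positivity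
  have t4 : 0 ≤ j0 * (2 ^ l) ^ 2 * κ * P.w ^ 2 * XX Kc a t R Q := by positivity
  rcases eq_or_lt_of_le h2 with rfl | h2'
  · have D1 : (1 : ℝ) ≤ 2 ^ (l + j1) := one_le_pow₀ one_le_two
    have J1' : 16 * (P.w : ℝ) ≤ 2 ^ (l + j1) := by exact_mod_cast J1
    have d : (2 : ℝ) ^ (l + j1) ≤ 2 ^ (l + j0) := pow_le_pow_right₀ one_le_two (by omega)
    have g := hg 1 (2 * 2 ^ (l + j1)) (by linarith) (by linarith)
    rw [srcc_kz1] at g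
    have := srcc_ball Kc a (κ := κ) (D := 2 ^ (l + j1)) (S := 2 ^ (l + j1)) (z := P.z) Q
      ht.le D1 (by positivity) (trap 0 (P.w / 8))
      (fun ζ => abs_le.2 ⟨by linarith [trap_nonneg 0 (P.w / 8) ζ], trap_le _ _ _⟩) (sz P)
      (fun ζ k _ _ => (srcc_sz P ζ k).trans (by linarith)) g
    refine this.trans ?_
    nlinarith
  · have J2' : 2 ^ (l + J) ≤ 32 * P.w := J2.resolve_left (by omega)
    have w0 : (0 : ℝ) < P.w := by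
      have : (0 : ℝ) < t * P.w := lt_of_lt_of_le (by positivity) htw
      exact (mul_pos_iff_of_pos_left ht).1 this
    have e : (fun (ζ : ℤ) (k : Fin 4 → ℤ) =>
        trap 0 (P.w / 8) ζ * (sz P ζ k * p4 (trap P.z (2 ^ (l + J))) k)) =
        fun ζ k => ∑ i, trap 0 (P.w / 8) ζ * (sk P i ζ k * p4 (trap P.z (2 ^ (l + J))) k) := by
      funext ζ k
      by_cases hz : trap 0 (P.w / 8) ζ = 0
      · simp [hz]
      · have h4 := trap_ne 0 (by positivity) hz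
        have h5 : |(ζ : ℝ)| ≤ 2 * P.w := by
          rw [Int.cast_zero, sub_zero] at h4
          linarith
        rw [sz_eq P (by exact_mod_cast h5), Finset.sum_mul, Finset.mul_sum]
    rw [e, SQ_sum]
    have K := fun i => srcc_kink Kc a (Q := Q) i hl h1 h2' h3 ht ht1 htw J1 J2' hc hΞ hκ hg r1 r2 hQ
    refine (norm_sum_le _ _).trans ((Finset.sum_le_sum fun i _ => K i).trans ?_)
    rw [Finset.sum_const, Finset.card_univ, Fintype.card_fin, nsmul_eq_mul]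
    push_cast
    nlinarith

end Pool.Agent.Lib.MMTX
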