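import Pool.Agent.Lib.MP_0dc93f_an.X.TDef

/-! The tree of kinks: membership, moves and flips. -/

namespace Pool.Agent.Lib.MMTX

open Finset

theorem mem_steps {J N : Finset ℕ} {G : ℕ} {s : St} : s ∈ steps J N G ↔
    s.j ∈ J ∧ s.n ∈ N ∧ s.i ≤ G ∧ (s.ep = 1 ∨ s.ep = -1) ∧ (s.sg = -1 ∨ s.sg = 0 ∨ s.sg = 1) := by
  simp only [steps, mem_image, mem_product, mem_range, mem_insert, mem_singleton, Prod.exists]
  constructor
  · rintro ⟨j, n, i, e, g, ⟨⟨h1, h2, h3⟩, h4, h5⟩, rfl⟩
    exact ⟨h1, h2, by simpa [Nat.lt_succ_iff] using h3, h4, h5⟩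
  · rintro ⟨h1, h2, h3, h4, h5⟩
    exact ⟨s.j, s.n, s.i, s.ep, s.sg, ⟨⟨h1, h2, by omega⟩, h4, h5⟩, rfl⟩

theorem card_steps (J N : Finset ℕ) (G : ℕ) :
    (steps J N G).card ≤ J.card * N.card * (G + 1) * 6 := by
  refine card_image_le.trans (le_of_eq ?_)
  have h1 : ({1, -1} : Finset ℤ).card = 2 := by decide
  have h2 : ({-1, 0, 1} : Finset ℤ).card = 3 := by decide
  simp only [card_product, card_range, h1, h2]
  ring

theorem top_cons (s : St) {z : List St} (h : z ≠ []) : top (s :: z) = top z := by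
  cases z with
  | nil => exact absurd rfl h
  | cons a z => rfl

theorem top_append (l : List St) {z : List St} (h : z ≠ []) : top (l ++ z) = top z := by
  induction l with
  | nil => rfl
  | cons a l ih => rw [List.cons_append, top_cons _ (by simp [h]), ih]

@[simp] theorem hd_cons (s : St) (z : List St) : hd (s :: z) = s := rfl
@[simp] theorem nd_cons (s : St) (z : List St) : nd (s :: z) = s.nd :: z := rfl
@[simp] theorem top_one (s : St) : top [s] = s := rfl
@[simp] theorem St.nd_nd (s : St) : s.nd.nd = s.nd := rfl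
@[simp] theorem St.fl_nd (s : St) : s.fl.nd = s.nd := rfl
@[simp] theorem St.kk_nd (s : St) (g : ℤ) : (s.kk g).nd = s.nd := rfl
@[simp] theorem St.fl_fl (s : St) : s.fl.fl = s := by simp [St.fl]
@[simp] theorem St.fl_w (s : St) : s.fl.w = s.w := rfl
@[simp] theorem St.nd_w (s : St) : s.nd.w = s.w := rfl
@[simp] theorem St.kk_w (s : St) (g : ℤ) : (s.kk g).w = s.w := rfl

theorem pos_cons (y0 : ℤ) (c : List St → ℤ) (s : St) (z : List St) : pos y0 c (s :: z) =
    pos y0 c z + s.ep * ((if z = [] ∧ s.n = 0 then y0 else s.n * 2 ^ s.j) + c (s.nd :: z)) +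
      s.sg * s.w := rfl

theorem pos_kk (y0 : ℤ) (c : List St → ℤ) (s : St) (z : List St) (g : ℤ) :
    pos y0 c (s.kk g :: z) = pos y0 c (s :: z) + (g - s.sg) * s.w := by
  have e : pos y0 c (s.kk g :: z) = pos y0 c z + s.ep *
      ((if z = [] ∧ s.n = 0 then y0 else s.n * 2 ^ s.j) + c (s.nd :: z)) + g * s.w := rfl
  rw [e, pos_cons]
  ring

theorem pos_mv (y0 : ℤ) (c : List St → ℤ) (v : List St) (d : ℤ) (z : List St) :
    pos y0 (mv c v d) z = pos y0 c z + sig v z * d := by
  induction z with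
  | nil => simp [pos, sig]
  | cons s z ih =>
    rw [pos_cons, pos_cons, ih, sig]
    simp only [mv]
    by_cases h : s.nd :: z = v
    · simp only [if_pos h]; ring
    · simp only [if_neg h]; ring

theorem sig_short {v z : List St} (h : z.length < v.length) : sig v z = 0 := by
  induction z with
  | nil => rfl
  | cons s z ih =>
    rw [sig, ih (by simp at h; omega), if_neg, add_zero]
    rintro rfl
    simp at h

theorem sig_self (s : St) (z : List St) : sig (s.nd :: z) (s :: z) = s.ep := by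
  rw [sig, sig_short (by simp), if_pos rfl, zero_add]

theorem sig_append (l : List St) (s : St) (z : List St) :
    sig (s.nd :: z) (l ++ s :: z) = s.ep := by
  induction l with
  | nil => exact sig_self s z
  | cons a l ih =>
    rw [List.cons_append, sig, ih, if_neg, add_zero]
    intro h
    have := congrArg List.length h
    simp at this
    omega

/-- a kink that moves with `v` descends from `v` -/
theorem sig_ne {v z : List St} (h : sig v z ≠ 0) :
    ∃ l s y, z = l ++ s :: y ∧ v = s.nd :: y := by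
  induction z with
  | nil => exact absurd rfl h
  | cons a z ih =>
    by_cases h1 : a.nd :: z = v
    · exact ⟨[], a, z, rfl, h1.symm⟩
    · rw [sig, if_neg h1, add_zero] at h
      obtain ⟨l, s, y, rfl, rfl⟩ := ih h
      exact ⟨a :: l, s, y, rfl, rfl⟩

theorem flp_length (v z : List St) : (flp v z).length = z.length := by
  induction z with
  | nil => rfl
  | cons a z ih => rw [flp]; split_ifs <;> simp [ih]

theorem flp_append (l : List St) (s : St) (z : List St) :
    flp (s.nd :: z) (l ++ s :: z) = l ++ s.fl :: z := by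
  induction l with
  | nil => simp [flp]
  | cons a l ih =>
    rw [List.cons_append, flp, if_neg, ih, List.cons_append]
    intro h
    have := congrArg List.length h
    simp at this
    omega

namespace Sh

variable {p : Sh}

theorem L_pos (p : Sh) : 0 < p.L := by unfold L; positivity

theorem K_eq (p : Sh) (j : ℕ) : p.K j = 2 ^ j * p.L ^ 2 := by
  unfold K L; rw [pow_add, ← pow_mul, mul_comm p.l]

theorem Ok.ne_nil {z : List St} (h : p.Ok z) : z ≠ [] := by cases h <;> simp

theorem ok_one {s : St} : p.Ok [s] ↔ s ∈ p.tops := by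
  refine ⟨fun h => ?_, Ok.top s⟩
  cases h with
  | top _ h => exact h
  | kid _ _ hz _ => exact absurd rfl hz.ne_nil

theorem ok_cons {s : St} {z : List St} (hz : z ≠ []) : p.Ok (s :: z) ↔ p.Ok z ∧ s ∈ p.kids z := by
  refine ⟨fun h => ?_, fun h => Ok.kid s z h.1 h.2⟩
  cases h with
  | top _ h => exact absurd rfl hz
  | kid _ _ hz h => exact ⟨hz, h⟩

theorem Ok.of_append {l z : List St} (h : p.Ok (l ++ z)) (hz : z ≠ []) : p.Ok z := by
  induction l with
  | nil => exact h
  | cons a l ih => exact ih ((ok_cons (by simp [hz])).1 h).1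

theorem mem_lev {g : ℕ} {z : List St} : z ∈ p.lev g ↔ p.Ok z ∧ z.length = g + 1 := by
  induction g generalizing z with
  | zero =>
    simp only [lev, mem_image]
    constructor
    · rintro ⟨s, hs, rfl⟩; exact ⟨Ok.top s hs, rfl⟩
    · rintro ⟨h, hl⟩
      obtain ⟨s, rfl⟩ := List.length_eq_one_iff.1 hl
      exact ⟨s, ok_one.1 h, rfl⟩
  | succ g ih =>
    simp only [lev, mem_biUnion, mem_image]
    constructor
    · rintro ⟨y, hy, s, hs, rfl⟩
      exact ⟨Ok.kid s y (ih.1 hy).1 hs, by simp [(ih.1 hy).2]⟩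
    · rintro ⟨h, hl⟩
      cases z with
      | nil => simp at hl
      | cons s y =>
        have hy : y.length = g + 1 := by simpa using hl
        have hn : y ≠ [] := by rintro rfl; simp at hy
        exact ⟨y, ih.2 ⟨((ok_cons hn).1 h).1, hy⟩, s, ((ok_cons hn).1 h).2, rfl⟩

theorem mem_kinks {z : List St} : z ∈ p.kinks ↔ p.Ok z ∧ z.length ≤ p.G + 1 := by
  simp only [kinks, mem_biUnion, mem_range, mem_lev]
  constructor
  · rintro ⟨g, hg, h, hl⟩; exact ⟨h, by omega⟩
  · rintro ⟨h, hl⟩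
    have := List.length_pos_iff.2 h.ne_nil
    exact ⟨z.length - 1, by omega, h, by omega⟩

theorem mem_kids {s : St} {z : List St} : s ∈ p.kids z ↔
    (p.lo (top z).j ≤ s.j ∧ s.j ≤ (hd z).j + p.c0 ∧ s.j ≤ (top z).j) ∧ s.n ≤ 4 * p.L ∧ s.i ≤ p.G ∧
      (s.ep = 1 ∨ s.ep = -1) ∧ (s.sg = -1 ∨ s.sg = 0 ∨ s.sg = 1) := by
  simp only [kids, mem_steps, mem_Icc, le_min_iff, mem_range, Nat.lt_succ_iff]

theorem mem_tops {s : St} : s ∈ p.tops ↔
    ((p.jl ≤ s.j ∧ s.j ≤ p.jh) ∧ (p.L ^ 2 / 2 ≤ s.n ∧ s.n ≤ 2 * p.L ^ 2) ∧ s.i ≤ p.G ∧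
      (s.ep = 1 ∨ s.ep = -1) ∧ (s.sg = -1 ∨ s.sg = 0 ∨ s.sg = 1)) ∨
    (s.j = p.jN ∧ s.n = 0 ∧ s.i = 0 ∧ (s.ep = 1 ∨ s.ep = -1) ∧ s.sg = 0) := by
  simp only [tops, mem_union, mem_steps, mem_Icc, mem_insert, mem_singleton]
  refine or_congr Iff.rfl ⟨?_, ?_⟩
  · rintro (rfl | rfl) <;> simp
  · obtain ⟨j, n, i, e, g⟩ := s
    rintro ⟨rfl, rfl, rfl, rfl | rfl, rfl⟩ <;> simp

/-- labels and sides of the last step -/
theorem Ok.hd_side {s : St} {z : List St} (h : p.Ok (s :: z)) :
    s.i ≤ p.G ∧ (s.ep = 1 ∨ s.ep = -1) ∧ (s.sg = -1 ∨ s.sg = 0 ∨ s.sg = 1) := by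
  cases h with
  | top _ h =>
    rcases mem_tops.1 h with h | h
    · exact h.2.2
    · exact ⟨by omega, h.2.2.2.1, by omega⟩
  | kid _ _ _ h => exact (mem_kids.1 h).2.2

theorem Ok.top_mem {z : List St} (h : p.Ok z) : MMTX.top z ∈ p.tops := by
  induction h with
  | top s h => exact h
  | kid s z hz _ ih => rwa [top_cons s hz.ne_nil]

theorem Ok.top_j (hp : p.Fine) {z : List St} (h : p.Ok z) :
    p.jl ≤ (MMTX.top z).j ∧ (MMTX.top z).j ≤ p.jh := by
  have := hp.hN
  rcases mem_tops.1 h.top_mem with h | h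
  · exact h.1
  · omega

theorem Ok.hd_j (hp : p.Fine) {z : List St} (h : p.Ok z) :
    p.l ≤ (hd z).j ∧ p.lo (MMTX.top z).j ≤ (hd z).j ∧ (hd z).j ≤ (MMTX.top z).j := by
  have h1 := hp.hlo _ (h.top_j hp).1
  cases h with
  | top s h => simp only [top_one, hd_cons] at h1 ⊢; omega
  | kid s z hz h =>
    rw [top_cons s hz.ne_nil] at h1 ⊢
    have := (mem_kids.1 h).1
    simp only [hd_cons]; omega

/-- changing side and kink of one step keeps an address valid -/
theorem Ok.swap {l : List St} {s s' : St} {y : List St} (h : p.Ok (l ++ s :: y))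
    (hs : p.Ok (s' :: y)) (hj : s'.j = s.j) : p.Ok (l ++ s' :: y) := by
  induction l with
  | nil => exact hs
  | cons a l ih =>
    rw [List.cons_append, ok_cons (by simp)] at h ⊢
    refine ⟨ih h.1, ?_⟩
    have e1 : (MMTX.top (l ++ s' :: y)).j = (MMTX.top (l ++ s :: y)).j := by
      rw [top_append _ (by simp), top_append _ (by simp)]
      by_cases hy : y = []
      · subst hy; exact hj
      · rw [top_cons _ hy, top_cons _ hy]
    have e2 : (hd (l ++ s' :: y)).j = (hd (l ++ s :: y)).j := by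
      cases l with
      | nil => exact hj
      | cons b l => rfl
    have := mem_kids.1 h.2
    rw [mem_kids, e1, e2]; exact this

theorem Ok.fl {s : St} {y : List St} (h : p.Ok (s :: y)) : p.Ok (s.fl :: y) := by
  cases h with
  | top _ h =>
    refine Ok.top _ ?_
    rw [mem_tops] at h ⊢
    simp only [St.fl]; omega
  | kid _ _ hy h =>
    refine Ok.kid _ _ hy ?_
    rw [mem_kids] at h ⊢
    simp only [St.fl]; omega

theorem Ok.nd {s : St} {y : List St} (h : p.Ok (s :: y)) : p.Ok (s.nd :: y) := by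
  cases h with
  | top _ h =>
    refine Ok.top _ ?_
    rw [mem_tops] at h ⊢
    dsimp only [St.nd]; omega
  | kid _ _ hy h =>
    refine Ok.kid _ _ hy ?_
    rw [mem_kids] at h ⊢
    dsimp only [St.nd]; omega

theorem Ok.kk {s : St} {y : List St} (h : p.Ok (s :: y)) (hr : ¬ Rt (s :: y)) {g : ℤ}
    (hg : g = -1 ∨ g = 0 ∨ g = 1) : p.Ok (s.kk g :: y) := by
  cases h with
  | top _ h =>
    refine Ok.top _ ?_
    have : s.n ≠ 0 := fun h0 => hr ⟨rfl, h0⟩
    rw [mem_tops] at h ⊢
    simp only [St.kk]; omega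
  | kid _ _ hy h =>
    refine Ok.kid _ _ hy ?_
    rw [mem_kids] at h ⊢
    simp only [St.kk]; omega

theorem nd_mem {s : St} {y : List St} (h : s :: y ∈ p.kinks) : s.nd :: y ∈ p.nodes := by
  rw [mem_kinks] at h
  exact mem_filter.2 ⟨mem_kinks.2 ⟨h.1.nd, by simpa using h.2⟩, rfl⟩

theorem Conf.le {c : List St → ℤ} (hc : p.Conf c) (v : List St) : |c v| ≤ p.Om v := by
  have := hc v
  split_ifs at this
  · exact this
  · exact this.trans (by positivity)

theorem Conf.mv {c : List St → ℤ} (hc : p.Conf c) {v : List St} (hv : v ∈ p.nodes) {d : ℤ}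
    (hd : |c v + d| ≤ p.Om v) : p.Conf (mv c v d) := by
  intro x
  unfold MMTX.mv
  by_cases h : x = v
  · subst h; rw [if_pos rfl, if_pos hv]; exact hd
  · rw [if_neg h, add_zero]; exact hc x

theorem conf_zero (p : Sh) : p.Conf fun _ => 0 := by
  intro v; split_ifs <;> simp

theorem conf_finite (p : Sh) : {c | p.Conf c}.Finite := by
  classical
  have h : {f : p.nodes → ℤ | ∀ v, f v ∈ Set.Icc (-(p.Om v.1 : ℤ)) (p.Om v.1)}.Finite :=
    Set.Finite.pi' fun v => Set.finite_Icc _ _
  refine (h.image fun f x => if hx : x ∈ p.nodes then f ⟨x, hx⟩ else 0).subset fun c hc => ?_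
  refine ⟨fun v => c v.1, fun v => abs_le.1 (Conf.le hc v.1), funext fun x => ?_⟩
  have := hc x
  by_cases hx : x ∈ p.nodes
  · simp only [dif_pos hx]
  · rw [if_neg hx] at this
    simp only [dif_neg hx]
    exact (abs_nonpos_iff.1 this).symm

end Sh

end Pool.Agent.Lib.MMTX
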