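import Pool.Agent.Lib.MP_0dc93f_an.X.Hc

/-! Windowed densities: Fourier coefficients, positivity, domination, size of the Morawetz term. -/

namespace Pool.Agent.Lib.MMTX

open Finset Complex ComplexConjugate MMTW

noncomputable section

variable (Kc : ℕ) (a : ℤ → ℂ)

lemma Uf_cont (f : ℤ → ℝ) : Continuous (Uf Kc a f) := cont_tp (FF Kc) fun k => (f k : ℂ) * a k

lemma mB_nonneg (z : ℤ) (h : ℝ) : 0 ≤ mB Kc a z h := Finset.sum_nonneg fun _ _ => by positivity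

lemma mW_nonneg (P : Win) : 0 ≤ mW Kc a P := mB_nonneg _ _ _ _

lemma mB_mono {z z' : ℤ} {h h' : ℝ} (hh : |(z : ℝ) - z'| + h ≤ h') :
    mB Kc a z h ≤ mB Kc a z' h' := by
  refine Finset.sum_le_sum_of_subset_of_nonneg (fun k hk => ?_) fun _ _ _ => by positivity
  obtain ⟨h1, h2⟩ := Finset.mem_filter.1 hk
  exact Finset.mem_filter.2 ⟨h1, by linarith [abs_sub_le (k : ℝ) z z']⟩

lemma gw_nonneg (P : Win) (k ζ : ℤ) : 0 ≤ Gw P k ζ := le_max_left _ _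

lemma gw_le (P : Win) (k ζ : ℤ) : Gw P k ζ ≤ P.w :=
  max_le (Nat.cast_nonneg _) (sub_le_self _ ((abs_nonneg _).trans (le_max_left _ _)))

lemma gw_supp {P : Win} {k ζ : ℤ} (h : Gw P k ζ ≠ 0) :
    |(k : ℝ) - P.z| < P.w ∧ |(k : ℝ) + ζ - P.z| < P.w := by
  have : 0 < (P.w : ℝ) - max |(k : ℝ) - P.z| |(k : ℝ) + ζ - P.z| :=
    lt_of_not_ge fun h1 => h (max_eq_left h1)
  exact max_lt_iff.1 (by linarith)

lemma gw_neg (P : Win) (k ζ : ℤ) : Gw P (k + ζ) (-ζ) = Gw P k ζ := by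
  unfold Gw
  push_cast
  rw [max_comm |(k : ℝ) - P.z|, add_neg_cancel_right]

lemma gw_count (P : Win) (k ζ : ℤ) :
    ∑ r ∈ Icc 1 P.w, (if |k + ζ - P.z| < (r : ℤ) then (1 : ℝ) else 0) *
      (if |k - P.z| < (r : ℤ) then (1 : ℝ) else 0) = Gw P k ζ := by
  obtain ⟨m, hm⟩ : ∃ m : ℕ, (m : ℤ) = max |k - P.z| |k + ζ - P.z| :=
    Int.eq_ofNat_of_zero_le ((abs_nonneg _).trans (le_max_left _ _)) |>.imp fun _ h => h.symm
  have e1 : Gw P k ζ = max 0 ((P.w : ℝ) - m) := by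
    unfold Gw
    have : ((m : ℤ) : ℝ) = ((max |k - P.z| |k + ζ - P.z| : ℤ) : ℝ) := by rw [hm]
    push_cast at this
    rw [← this]
  have e2 : ∀ r : ℕ, (if |k + ζ - P.z| < (r : ℤ) then (1 : ℝ) else 0) *
      (if |k - P.z| < (r : ℤ) then (1 : ℝ) else 0) = if m < r then 1 else 0 := by
    intro r
    have : m < r ↔ |k - P.z| < (r : ℤ) ∧ |k + ζ - P.z| < (r : ℤ) := by
      rw [← max_lt_iff, ← hm]; exact Nat.cast_lt.symm
    by_cases h1 : |k + ζ - P.z| < (r : ℤ) <;> by_cases h2 : |k - P.z| < (r : ℤ) <;>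
      simp [h1, h2, this]
  simp only [e2]
  rw [Finset.sum_boole, e1]
  have e3 : (Icc 1 P.w).filter (fun r => m < r) = Ioc m P.w := by
    ext r
    simp only [Finset.mem_filter, Finset.mem_Icc, Finset.mem_Ioc]
    omega
  rw [e3, Nat.card_Ioc]
  rcases le_total m P.w with h | h
  · rw [Nat.cast_sub h, max_eq_right (sub_nonneg.2 (Nat.cast_le.2 h))]
  · rw [Nat.sub_eq_zero_of_le h, max_eq_left (sub_nonpos.2 (Nat.cast_le.2 h)), Nat.cast_zero]

lemma Uf_tp (f : ℤ → ℝ) : TP (fun x => ‖Uf Kc a f x‖ ^ 2) (FF (2 * Kc)) fun ζ =>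
    ∑ k ∈ FF Kc with k + ζ ∈ FF Kc, ((f (k + ζ) * f k : ℝ) : ℂ) * (a (k + ζ) * conj (a k)) := by
  intro x
  refine (tp_normSq Kc (fun k => (f k : ℂ) * a k) x).trans ?_
  refine Finset.sum_congr rfl fun ζ _ => ?_
  congr 1
  refine Finset.sum_congr rfl fun k _ => ?_
  rw [map_mul, conj_ofReal, ofReal_mul]
  ring

/-- the Fourier coefficients of the windowed density -/
theorem mP_tp (P : Win) : TP (mP Kc a P) (FF (2 * Kc)) (mh Kc a P) := by
  have h := (TP.sum (Icc 1 P.w) fun r _ =>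
    Uf_tp Kc a fun k => if |k - P.z| < (r : ℕ) then 1 else 0).smul (P.w : ℝ)⁻¹
  intro x
  refine (h x).trans (Finset.sum_congr rfl fun ζ _ => ?_)
  unfold mh
  beta_reduce
  rw [ofReal_inv, ofReal_natCast, Finset.sum_comm]
  congr 2
  refine Finset.sum_congr rfl fun k _ => ?_
  rw [← Finset.sum_mul, ← ofReal_sum, gw_count]

lemma mP_nonneg (P : Win) (x : ℝ) : 0 ≤ mP Kc a P x :=
  mul_nonneg (by positivity) (Finset.sum_nonneg fun _ _ => by positivity)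

lemma mP_cont (P : Win) : Continuous (mP Kc a P) := (mP_tp Kc a P).cont

theorem XX_eq {t : ℝ} (ht : 0 < t) (P Q : Win) : ((XX Kc a t P Q : ℝ) : ℂ) =
    ∑ ζ ∈ FF (2 * Kc), (Real.exp (-t * |(ζ : ℝ)|) : ℝ) * (mh Kc a P ζ * conj (mh Kc a Q ζ)) := by
  unfold XX
  rw [(mP_tp Kc a P).parseval ((mP_tp Kc a Q).pc ht), Finset.inter_self]
  refine Finset.sum_congr rfl fun ζ _ => ?_
  rw [map_mul, conj_ofReal]
  ring

theorem XX_nonneg {t : ℝ} (ht : 0 < t) (P Q : Win) : 0 ≤ XX Kc a t P Q :=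
  av_nonneg fun x => mul_nonneg (mP_nonneg Kc a P x) (Pc_nonneg ht (mP_nonneg Kc a Q) x)

theorem XX_symm {t : ℝ} (ht : 0 < t) (P Q : Win) : XX Kc a t P Q = XX Kc a t Q P := by
  unfold XX
  rw [← (mP_tp Kc a P).pc_symm (mP_tp Kc a Q) ht]
  simp only [mul_comm]

/-- change of the Poisson parameter in the bilinear term -/
theorem XX_K2 {s t M : ℝ} (hs : 0 < s) (ht : 0 < t) (hs2 : s ≤ 2) (ht2 : t ≤ 2) (h1 : s ≤ M * t)
    (h2 : t ≤ M * s) (P Q : Win) : XX Kc a s P Q ≤ 4 * M * XX Kc a t P Q := by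
  have c1 := mP_cont Kc a P
  have c2 := Pc_cont hs (mP_cont Kc a Q)
  have c3 := Pc_cont ht (mP_cont Kc a Q)
  unfold XX
  rw [← av_smul]
  refine av_mono (by fun_prop) (by fun_prop) fun x => ?_
  rw [mul_left_comm]
  exact mul_le_mul_of_nonneg_left
    (Pc_K2 hs ht hs2 ht2 h1 h2 (mP_cont Kc a Q) (mP_nonneg Kc a Q) x) (mP_nonneg Kc a P x)

/-- two convolutions under the average -/
theorem av_pc_pc {s t : ℝ} (hs : 0 < s) (ht : 0 < t) (P Q : Win) :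
    (av fun x => Pc s (mP Kc a P) x * Pc t (mP Kc a Q) x) = XX Kc a (s + t) P Q := by
  rw [(mP_tp Kc a P).pc_symm ((mP_tp Kc a Q).pc ht) hs, (mP_tp Kc a Q).pc_pc hs ht]
  rfl

theorem mh_norm (P : Win) (ζ : ℤ) : ‖mh Kc a P ζ‖ ≤ mW Kc a P := by
  classical
  have h0 := mW_nonneg Kc a P
  rcases Nat.eq_zero_or_pos P.w with hw | hw
  · simpa [mh, hw] using h0
  have w0 : (0 : ℝ) < P.w := Nat.cast_pos.2 hw
  unfold mh
  rw [norm_mul, norm_inv, Complex.norm_natCast, inv_mul_le_iff₀ w0]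
  refine (norm_sum_le _ _).trans ?_
  set T := (FF Kc).filter fun k => k + ζ ∈ FF Kc ∧ Gw P k ζ ≠ 0 with hT
  have e1 : ∑ k ∈ FF Kc with k + ζ ∈ FF Kc, ‖(Gw P k ζ : ℂ) * (a (k + ζ) * conj (a k))‖ =
      ∑ k ∈ T, ‖(Gw P k ζ : ℂ) * (a (k + ζ) * conj (a k))‖ := by
    symm
    refine Finset.sum_subset (fun k hk => ?_) fun k hk hk' => ?_
    · exact Finset.mem_filter.2 ⟨(Finset.mem_filter.1 hk).1, (Finset.mem_filter.1 hk).2.1⟩
    · have : Gw P k ζ = 0 := by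
        by_contra h
        exact hk' (Finset.mem_filter.2 ⟨(Finset.mem_filter.1 hk).1, (Finset.mem_filter.1 hk).2, h⟩)
      simp [this]
  have b1 : ∑ k ∈ T, ‖a k‖ ^ 2 ≤ mW Kc a P := by
    unfold mW mB
    refine Finset.sum_le_sum_of_subset_of_nonneg (fun k hk => ?_) fun _ _ _ => by positivity
    obtain ⟨h1, -, h2⟩ := Finset.mem_filter.1 hk
    exact Finset.mem_filter.2 ⟨h1, (gw_supp h2).1.le⟩
  have b2 : ∑ k ∈ T, ‖a (k + ζ)‖ ^ 2 ≤ mW Kc a P := by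
    rw [HC.sum_shift (fun k => ‖a k‖ ^ 2) T ζ]
    unfold mW mB
    refine Finset.sum_le_sum_of_subset_of_nonneg (fun l hl => ?_) fun _ _ _ => by positivity
    obtain ⟨k, hk, rfl⟩ := Finset.mem_map.1 hl
    obtain ⟨-, h1, h2⟩ := Finset.mem_filter.1 hk
    refine Finset.mem_filter.2 ⟨h1, ?_⟩
    have := (gw_supp h2).2.le
    simpa using this
  have b3 : ∀ k ∈ T, ‖(Gw P k ζ : ℂ) * (a (k + ζ) * conj (a k))‖ ≤
      P.w / 2 * (‖a (k + ζ)‖ ^ 2 + ‖a k‖ ^ 2) := by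
    intro k _
    rw [norm_mul, norm_mul, Complex.norm_conj, Complex.norm_real,
      Real.norm_of_nonneg (gw_nonneg _ _ _)]
    have h1 := mul_le_mul_of_nonneg_right (gw_le P k ζ)
      (mul_nonneg (norm_nonneg (a (k + ζ))) (norm_nonneg (a k)))
    nlinarith [mul_nonneg w0.le (sq_nonneg (‖a (k + ζ)‖ - ‖a k‖))]
  rw [e1]
  refine (Finset.sum_le_sum b3).trans ?_
  rw [← Finset.mul_sum, Finset.sum_add_distrib]
  nlinarith

theorem mh_off (P : Win) {ζ : ℤ} (h : 2 * (P.w : ℤ) ≤ |ζ|) : mh Kc a P ζ = 0 := by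
  unfold mh
  rw [Finset.sum_eq_zero, mul_zero]
  intro k _
  have : Gw P k ζ = 0 := by
    by_contra h0
    obtain ⟨h1, h2⟩ := gw_supp h0
    have h3 : ((2 * (P.w : ℤ) : ℤ) : ℝ) ≤ ((|ζ| : ℤ) : ℝ) := Int.cast_le.2 h
    push_cast at h3
    have h4 := abs_sub ((k : ℝ) + ζ - P.z) ((k : ℝ) - P.z)
    rw [show (k : ℝ) + ζ - P.z - ((k : ℝ) - P.z) = ζ by ring] at h4
    linarith
  simp [this]

theorem mh_neg (P : Win) (ζ : ℤ) : mh Kc a P (-ζ) = conj (mh Kc a P ζ) := by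
  unfold mh
  rw [map_mul, map_inv₀, map_natCast, map_sum]
  congr 1
  symm
  refine Finset.sum_bij (fun k _ => k + ζ) ?_ ?_ ?_ ?_
  · intro k hk
    obtain ⟨h1, h2⟩ := Finset.mem_filter.1 hk
    exact Finset.mem_filter.2 ⟨h2, by simpa using h1⟩
  · intro k _ l _ h
    exact add_right_cancel h
  · intro l hl
    obtain ⟨h1, h2⟩ := Finset.mem_filter.1 hl
    exact ⟨l + -ζ, Finset.mem_filter.2 ⟨h2, by simpa using h1⟩, by ring⟩
  · intro k _
    rw [gw_neg, map_mul, map_mul, conj_ofReal, conj_conj, add_neg_cancel_right, mul_comm (a k)]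

lemma conj_cf (t : ℝ) (ζ : ℤ) : conj (cf t ζ) = -cf t ζ := by
  unfold cf
  rw [map_div₀, map_mul, conj_ofReal, conj_I, map_intCast, neg_mul I, div_neg]

lemma norm_cf (t : ℝ) (ζ : ℤ) : ‖cf t ζ‖ = Real.exp (-t * |(ζ : ℝ)|) / |(ζ : ℝ)| := by
  unfold cf
  rw [norm_div, norm_mul, norm_I, one_mul, Complex.norm_real,
    Real.norm_of_nonneg (Real.exp_pos _).le, Complex.norm_intCast]

lemma norm_cf_le {t : ℝ} (ht : 0 ≤ t) (ζ : ℤ) : ‖cf t ζ‖ ≤ 1 / |(ζ : ℝ)| := by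
  rw [norm_cf]
  refine div_le_div_of_nonneg_right (Real.exp_le_one_iff.2 ?_) (abs_nonneg _)
  nlinarith [abs_nonneg (ζ : ℝ)]

theorem Mo_anti (t : ℝ) (P Q : Win) : Mo Kc a t P Q = -Mo Kc a t Q P := by
  unfold Mo
  rw [← conj_re, map_sum, ← neg_re, ← Finset.sum_neg_distrib]
  congr 1
  refine Finset.sum_congr rfl fun ζ _ => ?_
  rw [map_mul, map_mul, conj_cf, conj_conj]
  ring

/-- the harmonic sum -/
lemma harm_sum (n : ℕ) (T : Finset ℤ) (hT : ∀ ζ ∈ T, |ζ| ≤ n) :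
    ∑ ζ ∈ T, 1 / |(ζ : ℝ)| ≤ 2 * (1 + Real.log n) := by
  have h := harmonic_le_one_add_log n
  have e : (harmonic n : ℝ) = ∑ r ∈ range n, (1 : ℝ) / (r + 1) := by simp [harmonic]
  have key : ∀ m : ℕ, ∑ ζ ∈ FF m, 1 / |(ζ : ℝ)| = 2 * ∑ r ∈ range m, (1 : ℝ) / (r + 1) := by
    intro m
    induction m with
    | zero => simp [FF]
    | succ m ih =>
      have e1 : FF (m + 1) = insert ((m : ℤ) + 1) (insert (-((m : ℤ) + 1)) (FF m)) := by
        ext k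
        simp only [FF, Finset.mem_Icc, Finset.mem_insert]
        push_cast
        omega
      have n1 : -((m : ℤ) + 1) ∉ FF m := by
        simp only [FF, Finset.mem_Icc]; omega
      have n2 : (m : ℤ) + 1 ∉ insert (-((m : ℤ) + 1)) (FF m) := by
        simp only [FF, Finset.mem_Icc, Finset.mem_insert]; omega
      rw [e1, Finset.sum_insert n2, Finset.sum_insert n1, ih, Finset.sum_range_succ]
      push_cast
      rw [abs_neg, abs_of_pos (by positivity)]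
      ring
  have hs : T ⊆ FF n := fun ζ hζ => Finset.mem_Icc.2 (abs_le.1 (hT ζ hζ))
  refine (Finset.sum_le_sum_of_subset_of_nonneg hs fun _ _ _ => by positivity).trans ?_
  rw [key]
  linarith

lemma lg_nonneg (w : ℕ) : 0 ≤ lg w := by
  unfold lg
  have : 0 ≤ Real.log (2 * w) := by
    have := Real.log_natCast_nonneg (2 * w)
    simpa using this
  linarith

/-- the weighted sum of the coefficients of a window -/
theorem sum_mh_le (P : Win) (T : Finset ℤ) :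
    ∑ ζ ∈ T, ‖mh Kc a P ζ‖ / |(ζ : ℝ)| ≤ lg P.w * mW Kc a P := by
  classical
  have e1 : ∑ ζ ∈ T, ‖mh Kc a P ζ‖ / |(ζ : ℝ)| =
      ∑ ζ ∈ T.filter (fun ζ : ℤ => |ζ| ≤ (2 * P.w : ℕ)), ‖mh Kc a P ζ‖ / |(ζ : ℝ)| := by
    rw [Finset.sum_filter]
    refine Finset.sum_congr rfl fun ζ _ => ?_
    split_ifs with h
    · rfl
    · rw [mh_off Kc a P (by push_cast at h; omega)]; simp
  have h := harm_sum (2 * P.w) (T.filter fun ζ => |ζ| ≤ (2 * P.w : ℕ))
    fun ζ hζ => (Finset.mem_filter.1 hζ).2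
  have e2 : 2 * (1 + Real.log (2 * P.w : ℕ)) = lg P.w := by simp [lg]
  rw [e1, ← e2]
  refine le_trans ?_ (mul_le_mul_of_nonneg_right h (mW_nonneg Kc a P))
  rw [Finset.sum_mul]
  refine Finset.sum_le_sum fun ζ _ => ?_
  rw [one_div_mul_eq_div]
  exact div_le_div_of_nonneg_right (mh_norm Kc a P ζ) (abs_nonneg _)

theorem Mo_le {t : ℝ} (ht : 0 ≤ t) (P Q : Win) :
    |Mo Kc a t P Q| ≤ lg P.w * mW Kc a P * mW Kc a Q := by
  unfold Mo
  refine (abs_re_le_norm _).trans ((norm_sum_le _ _).trans ?_)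
  refine le_trans ?_ (mul_le_mul_of_nonneg_right (sum_mh_le Kc a P ((FF (2 * Kc)).erase 0))
    (mW_nonneg Kc a Q))
  rw [Finset.sum_mul]
  refine Finset.sum_le_sum fun ζ _ => ?_
  rw [norm_mul, norm_mul, Complex.norm_conj, ← mul_assoc, ← one_div_mul_eq_div]
  exact mul_le_mul (mul_le_mul_of_nonneg_right (norm_cf_le ht ζ) (norm_nonneg _))
    (mh_norm Kc a Q ζ) (norm_nonneg _) (by positivity)

/-- domination of a multiplier by the windowed density -/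
theorem dom {f : ℤ → ℝ} {A t : ℝ} {P : Win} (hk : Kern f A t) (ht : 0 < t) (hw : 1 ≤ P.w)
    (hs : Supp f P.z (P.w / 2)) (x : ℝ) :
    ‖Uf Kc a f x‖ ^ 2 ≤ 2 * A ^ 2 * Pc t (mP Kc a P) x := by
  have w0 : (0 : ℝ) < P.w := Nat.cast_pos.2 hw
  set g : ℕ → ℝ → ℝ := fun r y =>
    ‖Uf Kc a (fun k => if |k - P.z| < (r : ℕ) then 1 else 0) y‖ ^ 2 with hg
  have gc : ∀ r, Continuous (g r) := fun r => (Uf_cont Kc a _).norm.pow 2
  have g0 : ∀ r y, 0 ≤ g r y := fun r y => by positivity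
  have b1 : ∀ r ∈ Ioc (P.w / 2) P.w, ‖Uf Kc a f x‖ ^ 2 ≤ A ^ 2 * Pc t (g r) x := by
    intro r hr
    have h := hk.sq_le ht (FF Kc)
      (fun k => ((if |k - P.z| < (r : ℕ) then 1 else 0 : ℝ) : ℂ) * a k) x
    refine le_trans (le_of_eq ?_) h
    unfold Uf
    congr 2
    refine Finset.sum_congr rfl fun k _ => ?_
    by_cases h0 : f k = 0
    · simp [h0]
    · have h1 := hs k h0
      have h2 : ((2 * |k - P.z| : ℤ) : ℝ) ≤ ((P.w : ℤ) : ℝ) := by push_cast; linarith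
      have h3 := Int.cast_le.1 h2
      have h4 := (Finset.mem_Ioc.1 hr).1
      rw [if_pos (by omega)]
      simp
  have b2 := Finset.card_nsmul_le_sum _ _ _ b1
  rw [nsmul_eq_mul, Nat.card_Ioc, ← Finset.mul_sum] at b2
  have b3 : ∑ r ∈ Ioc (P.w / 2) P.w, Pc t (g r) x ≤ ∑ r ∈ Icc 1 P.w, Pc t (g r) x := by
    refine Finset.sum_le_sum_of_subset_of_nonneg (fun r hr => ?_)
      fun r _ _ => Pc_nonneg ht (g0 r) x
    simp only [Finset.mem_Ioc, Finset.mem_Icc] at hr ⊢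
    omega
  have b4 : Pc t (mP Kc a P) x = (P.w : ℝ)⁻¹ * ∑ r ∈ Icc 1 P.w, Pc t (g r) x := by
    rw [← Pc_sum ht _ g fun r _ => gc r, ← Pc_smul]
    rfl
  have b5 : (P.w : ℝ) ≤ 2 * ((P.w - P.w / 2 : ℕ) : ℝ) := by
    exact_mod_cast (by omega : P.w ≤ 2 * (P.w - P.w / 2))
  rw [b4, mul_left_comm, le_inv_mul_iff₀ w0]
  have b6 := mul_le_mul_of_nonneg_left b3 (sq_nonneg A)
  have b7 := mul_le_mul_of_nonneg_right b5 (sq_nonneg ‖Uf Kc a f x‖)
  linarith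

/-- domination for a cell -/
theorem Cel.dom {f : ℤ → ℝ} {S u : ℝ} {P : Win} (h : Cel f S u P) (x : ℝ) :
    ‖Uf Kc a f x‖ ^ 2 ≤ 32 * S ^ 2 * Pc (1 / u) (mP Kc a P) x := by
  have := MMTX.dom Kc a h.kern (by have := h.u1; positivity) h.w1 h.sub x
  linarith

/-- the average of the windowed density -/
theorem av_mP (P : Win) : av (mP Kc a P) ≤ mW Kc a P := by
  have one : TP (fun _ => 1) {0} fun _ => 1 := fun x => by simp [ex_zero]
  have h := (mP_tp Kc a P).parseval one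
  rw [Finset.inter_singleton_of_mem (zero_mem_FF _), Finset.sum_singleton] at h
  simp only [mul_one, map_one] at h
  have h2 := mh_norm Kc a P 0
  rw [← h, Complex.norm_real] at h2
  exact (le_abs_self _).trans h2

end

end Pool.Agent.Lib.MMTX
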