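import Pool.Agent.Lib.MP_0dc93f_an.X.TVel
import Pool.Agent.Lib.MP_0dc93f_an.X.Win

/-! Grids of windows given by the tree. -/

namespace Pool.Agent.Lib.MMTX

open Finset MMTW

noncomputable section

/-- the level zero centre with the signed index `n` -/
def covSt (j : ℕ) (n : ℤ) : St := ⟨j, n.natAbs, 0, if 0 ≤ n then 1 else -1, 0⟩

theorem covSt_ep (j : ℕ) (n : ℤ) : (covSt j n).ep = 1 ∨ (covSt j n).ep = -1 := by
  unfold covSt; split_ifs <;> simp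

theorem covSt_mul (j : ℕ) (n : ℤ) : (covSt j n).ep * ((covSt j n).n : ℤ) = n := by
  unfold covSt; split_ifs <;> simp only [] <;> omega

theorem covSt_w (j : ℕ) (n : ℤ) : (covSt j n).w = 4 * 2 ^ j := by simp [covSt, St.w]

theorem covSt_pos {s : Sh} {c : List St → ℤ} (hc : s.Conf c) (y0 : ℤ) (j : ℕ) (n : ℤ)
    {y : List St} (h : ¬(y = [] ∧ n = 0)) :
    8 * |pos y0 c (covSt j n :: y) - (pos y0 c y + n * 2 ^ j)| ≤ 2 ^ j := by
  have h1 : ¬(y = [] ∧ (covSt j n).n = 0) := fun e => h ⟨e.1, Int.natAbs_eq_zero.1 e.2⟩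
  have h2 := hc.le ((covSt j n).nd :: y)
  have h3 : ¬Rt ((covSt j n).nd :: y) := fun e => h1 ⟨by simpa using e.1, e.2⟩
  rw [Sh.Om, if_neg h3] at h2
  have h4 : ((2 ^ j / 8 : ℕ) : ℤ) * 8 ≤ 2 ^ j := by exact_mod_cast Nat.div_mul_le_self _ _
  have e : pos y0 c (covSt j n :: y) - (pos y0 c y + n * 2 ^ j) =
      (covSt j n).ep * c ((covSt j n).nd :: y) := by
    rw [pos_cons, if_neg h1]
    have := covSt_mul j n
    have e1 : (covSt j n).sg = 0 := rfl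
    have e2 : (covSt j n).j = j := rfl
    rw [e1, e2]
    linear_combination (2 : ℤ) ^ j * this
  have h5 : |(covSt j n).ep| = 1 := by rcases covSt_ep j n with e | e <;> simp [e]
  rw [e, abs_mul, h5, one_mul]
  have h6 : |c ((covSt j n).nd :: y)| ≤ ((2 ^ j / 8 : ℕ) : ℤ) := h2
  omega

namespace Par

variable {p : Par} {a : ℤ → ℂ} {b : Bool} {c : List St → ℤ}

theorem Zq_XX_le (hp : p.OK) {Y : ℝ} (hY : p.Yv b c a ≤ Y) {q : List St × List St}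
    (hq : q ∈ p.pairs) :
    p.Zq q * XX p.Kc a (p.tq q) (p.win b c q.1) (p.win b c q.2) ≤ Y :=
  (single_le_sum (f := fun q => p.Zq q * XX p.Kc a (p.tq q) (p.win b c q.1) (p.win b c q.2))
    (fun q _ => mul_nonneg (Zq_pos hp q).le (XX_nonneg _ _ (tq_pos hp q) _ _)) hq).trans hY

theorem cov_loc (hp : p.OK) (hc : p.sh.Conf c) {Y : ℝ} (hY : p.Yv b c a ≤ Y) {y : List St}
    (hy : p.sh.Ok y) (hl : y.length ≤ p.G) {j : ℕ} (h1 : p.j1 (p.mz y) ≤ j)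
    (h2 : j ≤ (hd y).j + p.c0) (h3 : j ≤ (top y).j) {w : ℝ} (w0 : 0 < w) (hw : w ≤ p.wz y) :
    LocCov p.Kc a p.L (2 ^ j) (p.ps b c y) (Y / (p.B ^ 10 * w)) := by
  have hB : 0 < p.B := zero_lt_one.trans_le hp.B_one
  have hk : ∀ n : ℤ, |n| ≤ 4 * p.L → covSt j n :: y ∈ p.sh.kinks := fun n hn => by
    refine Sh.mem_kinks.2 ⟨.kid _ _ hy (Sh.mem_kids.2 ⟨⟨h1, h2, h3⟩, ?_, Nat.zero_le _,
      covSt_ep j n, Or.inr (Or.inl rfl)⟩), Nat.succ_le_succ hl⟩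
    show n.natAbs ≤ 4 * p.L
    rw [← Int.natCast_natAbs] at hn
    omega
  have ht : 0 < (p.L : ℝ) / (2 ^ j : ℕ) := by
    have := hp.L_one
    exact div_pos (by linarith [show (0 : ℝ) < 2 ^ 100 by positivity]) (by positivity)
  have key : ∀ n n' : ℤ, |n| ≤ 4 * p.L → |n'| ≤ 4 * p.L → (p.L : ℤ) ≤ 8 * (n' - n) →
      ((2 ^ j : ℕ) : ℝ) * XX p.Kc a ((p.L : ℝ) / (2 ^ j : ℕ)) (p.win b c (covSt j n :: y))
        (p.win b c (covSt j n' :: y)) ≤ Y / (p.B ^ 10 * w) := by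
    intro n n' hn hn' h
    have hlen : 2 ≤ (covSt j n :: y).length := by
      have := List.length_pos_iff.2 hy.ne_nil
      simp only [List.length_cons]; omega
    have hq : (covSt j n :: y, covSt j n' :: y) ∈ p.pairs :=
      mem_pairs.2 ⟨⟨hk n hn, hk n' hn'⟩, rfl, rfl, Nat.zero_le _, Or.inl ⟨hlen, rfl, rfl, by
        rw [hd_cons, hd_cons, covSt_mul, covSt_mul]; exact h⟩⟩
    have h4 := Zq_XX_le hp hY hq
    have e1 : p.tq (covSt j n :: y, covSt j n' :: y) = (p.L : ℝ) / (2 ^ j : ℕ) := by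
      simp [tq, covSt]
    have e2 : p.Zq (covSt j n :: y, covSt j n' :: y) = p.B ^ 10 * p.wz y * 2 ^ j := by
      rw [Zq, if_neg (show ¬(covSt j n :: y).length = 1 by omega)]
      simp [covSt]
    rw [e1, e2] at h4
    have h5 := XX_nonneg p.Kc a ht (p.win b c (covSt j n :: y)) (p.win b c (covSt j n' :: y))
    rw [le_div_iff₀ (by positivity)]
    refine le_trans ?_ h4
    push_cast at h5 ⊢
    calc _ = p.B ^ 10 * w * 2 ^ j * _ := by ring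
      _ ≤ _ := by gcongr
  refine ⟨fun n => p.win b c (covSt j n :: y), fun n _ => ⟨?_, (covSt_w j n).ge⟩,
    fun n n' hn hn' h => ?_⟩
  · have := covSt_pos hc (p.y0 b) j n (y := y) fun e => hy.ne_nil e.1
    push_cast
    exact this
  · rcases le_total n n' with e | e
    · exact key n n' hn hn' (by rwa [abs_sub_comm, abs_of_nonneg (sub_nonneg.2 e)] at h)
    · rw [XX_symm _ _ ht]
      exact key n' n hn' hn (by rwa [abs_of_nonneg (sub_nonneg.2 e)] at h)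

theorem act (hp : p.OK) (hc : p.sh.Conf c) (hg : p.GF b c a 1) {Y : ℝ} (hY : p.Yv b c a ≤ Y)
    {z : List St} (hz : z ∈ p.sh.kinks) (hl : z.length ≤ p.G) :
    p.Act a Y (p.wz z) (p.mz z) (p.ps b c z) := by
  refine ⟨fun h h1 h2 => (hg z hz h h h1 le_rfl h2).trans
    (mul_le_mul_of_nonneg_right (kz_le hp hz) (by linarith)), fun j h1 h2 => ?_⟩
  have h3 : j ≤ (top z).j := by simpa [j0, mz] using h2
  obtain ⟨l, y, rfl, hy, h4, h5⟩ := Sh.owner (y0 := p.y0 b) hp.fine hc hz h3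
  have ho := (Sh.mem_kinks.1 hz).1.of_append hy
  have hm : p.mz (l ++ y) = p.mz y := by rw [mz, mz, top_append l hy]
  have hl' : y.length ≤ p.G := by rw [List.length_append] at hl; omega
  refine ⟨p.ps b c y, h5, cov_loc hp hc hY ho hl' (hm ▸ h1.le) h4 (top_append l hy ▸ h3)
    (wz_pos hp _) ?_⟩
  cases l with
  | nil => exact le_rfl
  | cons s l =>
    have := List.length_pos_iff.2 hy
    refine wz_le hp (Sh.mem_kinks.2 ⟨ho, hl'.trans (Nat.le_succ _)⟩) (fun e => ?_) hm (by simp; omega)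
    have h6 := e.1
    simp only [List.cons_append, List.length_cons, List.length_append] at h6
    omega

theorem cov_top (hp : p.OK) (hc : p.sh.Conf c) {Y : ℝ} (hY : p.Yv b c a ≤ Y) (m ms : ℕ)
    {Ξl Ξh : ℝ}
    (hl : ∀ x k, 0 ≤ x → p.gg m * p.zz k * x ≤ p.B * Y → x ≤ Ξl ∧ (ms < k → x ≤ Ξh)) :
    TopCov p.Kc a p.l p.m0 ms p.mH m Ξl Ξh := by
  have hB : 0 < p.B := zero_lt_one.trans_le hp.B_one
  have h01 := hp.m01
  have hL : (p.L : ℤ) = 2 ^ p.l := by simp [L]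
  have hn0 : ∀ {m1 n1}, Rng p.l p.m0 p.mH m1 n1 → n1 ≠ 0 := fun {m1 n1} h e => by
    have h1 := h.2.2.1
    have : (0 : ℤ) < 2 ^ (2 * p.l) := by positivity
    simp [e] at h1
    omega
  have hk : ∀ {m1 n1}, Rng p.l p.m0 p.mH m1 n1 → [covSt (m1 - 2 * p.l) n1] ∈ p.sh.kinks := by
    intro m1 n1 ⟨h1, h2, h3, h4⟩
    have e : ((p.sh.L ^ 2 : ℕ) : ℤ) = 2 ^ (2 * p.l) := by
      simp [Sh.L, sh, ← pow_mul, mul_comm]
    rw [← Int.natCast_natAbs, ← e] at h3 h4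
    refine Sh.mem_kinks.2 ⟨.top _ (Sh.mem_tops.2 (Or.inl ⟨⟨?_, ?_⟩, ⟨?_, ?_⟩, Nat.zero_le _,
      covSt_ep _ _, Or.inr (Or.inl rfl)⟩)), by simp⟩
    · exact Nat.sub_le_sub_right h1 _
    · exact Nat.sub_le_sub_right h2 _
    · show p.sh.L ^ 2 / 2 ≤ n1.natAbs
      omega
    · show n1.natAbs ≤ 2 * p.sh.L ^ 2
      omega
  have hmz : ∀ {m1 n1}, Rng p.l p.m0 p.mH m1 n1 → p.mz [covSt (m1 - 2 * p.l) n1] = m1 := by
    intro m1 n1 h
    have := h.1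
    show m1 - 2 * p.l + 2 * p.l = m1
    omega
  have hxz : ∀ {m1 n1}, Rng p.l p.m0 p.mH m1 n1 →
      p.xz [covSt (m1 - 2 * p.l) n1] = n1 * 2 ^ (m1 - 2 * p.l) := by
    intro m1 n1 h
    have h0 : ¬(covSt (m1 - 2 * p.l) n1).n = 0 := fun e => hn0 h (Int.natAbs_eq_zero.1 e)
    rw [xz, top_one, if_neg h0, ← mul_assoc, covSt_mul]
    rfl
  have ht : ∀ k : ℕ, (0 : ℝ) < 2 ^ p.l / 2 ^ k := fun k => by positivity
  have key : ∀ m1 n1 m2 n2, Rng p.l p.m0 p.mH m1 n1 → Rng p.l p.m0 p.mH m2 n2 →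
      p.Tpp [covSt (m1 - 2 * p.l) n1] [covSt (m2 - 2 * p.l) n2] →
      p.gg (max m1 m2) * p.zz (min m1 m2) * XX p.Kc a (2 ^ p.l / 2 ^ (min m1 m2 - 2 * p.l))
        (p.win b c [covSt (m1 - 2 * p.l) n1]) (p.win b c [covSt (m2 - 2 * p.l) n2]) ≤ Y := by
    intro m1 n1 m2 n2 r1 r2 h
    have h4 := Zq_XX_le hp hY (q := ([covSt (m1 - 2 * p.l) n1], [covSt (m2 - 2 * p.l) n2]))
      (mem_pairs.2 ⟨⟨hk r1, hk r2⟩, rfl, rfl, Nat.zero_le _, Or.inr h⟩)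
    have e1 : p.tq ([covSt (m1 - 2 * p.l) n1], [covSt (m2 - 2 * p.l) n2]) =
        2 ^ p.l / 2 ^ (min m1 m2 - 2 * p.l) := by
      rw [show min m1 m2 - 2 * p.l = min (m1 - 2 * p.l) (m2 - 2 * p.l) by omega]
      simp [tq, covSt, L]
    rw [e1, Zq, if_pos (by simp), hmz r1, hmz r2] at h4
    simpa [covSt] using h4
  refine ⟨fun m1 n1 => p.win b c [covSt (m1 - 2 * p.l) n1], fun m1 n1 h => ⟨?_, (covSt_w _ _).ge⟩,
    fun m1 n1 m2 n2 r1 r2 h hm => ?_⟩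
  · have := covSt_pos hc (p.y0 b) (m1 - 2 * p.l) n1 (y := []) fun e => hn0 h e.2
    simpa [pos, win, ps] using this
  · have z1 : (hd [covSt (m1 - 2 * p.l) n1]).n ≠ 0 := fun e => hn0 r1 (Int.natAbs_eq_zero.1 e)
    have z2 : (hd [covSt (m2 - 2 * p.l) n2]).n ≠ 0 := fun e => hn0 r2 (Int.natAbs_eq_zero.1 e)
    have hT : p.Tpp [covSt (m1 - 2 * p.l) n1] [covSt (m2 - 2 * p.l) n2] ∨
        p.Tpp [covSt (m2 - 2 * p.l) n2] [covSt (m1 - 2 * p.l) n1] := by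
      unfold Tpp
      rw [hmz r1, hmz r2, hxz r1, hxz r2, hL, max_comm m2, abs_sub_comm (n2 * _)]
      have hne : n1 * 2 ^ (m1 - 2 * p.l) ≠ n2 * 2 ^ (m2 - 2 * p.l) := fun e => by
        have : (0 : ℤ) < 2 ^ max m1 m2 := by positivity
        rw [e, sub_self, abs_zero, mul_zero] at h
        omega
      simp only [hd_cons] at z1 z2 ⊢
      rcases covSt_ep (m1 - 2 * p.l) n1 with e1 | e1 <;>
        rcases covSt_ep (m2 - 2 * p.l) n2 with e2 | e2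
      · rcases lt_or_gt_of_ne hne with e | e
        · exact Or.inl ⟨rfl, rfl, z1, z2, h, Or.inl ⟨e1.trans e2.symm, e⟩⟩
        · exact Or.inr ⟨rfl, rfl, z2, z1, h, Or.inl ⟨e2.trans e1.symm, e⟩⟩
      · exact Or.inl ⟨rfl, rfl, z1, z2, h, Or.inr ⟨e1, e2⟩⟩
      · exact Or.inr ⟨rfl, rfl, z2, z1, h, Or.inr ⟨e2, e1⟩⟩
      · rcases lt_or_gt_of_ne hne with e | e
        · exact Or.inl ⟨rfl, rfl, z1, z2, h, Or.inl ⟨e1.trans e2.symm, e⟩⟩
        · exact Or.inr ⟨rfl, rfl, z2, z1, h, Or.inl ⟨e2.trans e1.symm, e⟩⟩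
    have h4 : p.gg (max m1 m2) * p.zz (min m1 m2) *
        XX p.Kc a (2 ^ p.l / 2 ^ (min m1 m2 - 2 * p.l)) (p.win b c [covSt (m1 - 2 * p.l) n1])
          (p.win b c [covSt (m2 - 2 * p.l) n2]) ≤ Y := by
      rcases hT with e | e
      · exact key _ _ _ _ r1 r2 e
      · rw [XX_symm _ _ (ht _), max_comm, min_comm]
        exact key _ _ _ _ r2 r1 e
    have h5 := XX_nonneg p.Kc a (ht (min m1 m2 - 2 * p.l)) (p.win b c [covSt (m1 - 2 * p.l) n1])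
      (p.win b c [covSt (m2 - 2 * p.l) n2])
    have h6 : 0 ≤ p.zz (min m1 m2) :=
      le_trans (by have := hp.ρ_one; positivity) (hp.zz_ge _)
    have h7 := hl _ (min m1 m2) h5 (by
      calc _ ≤ p.B * p.gg (max m1 m2) * p.zz (min m1 m2) * _ := by
            gcongr; exact hp.gg_ratio hm
        _ = p.B * _ := by rw [mul_assoc p.B, mul_assoc p.B]
        _ ≤ _ := mul_le_mul_of_nonneg_left h4 hB.le)
    exact ⟨h7.1, fun a1 a2 => h7.2 (lt_min a1 a2)⟩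

theorem cov_low (hp : p.OK) {Y x : ℝ} {m k : ℕ} (hx : 0 ≤ x)
    (h : p.gg m * p.zz k * x ≤ p.B * Y) : x ≤ Y * p.B * p.ρ / p.gg m := by
  have hρ : 0 < p.ρ := zero_lt_one.trans_le hp.ρ_one
  have hg := hp.gg_pos m
  have h1 : p.gg m * (1 / p.ρ) * x ≤ p.B * Y := le_trans (by gcongr; exact hp.zz_ge k) h
  rw [le_div_iff₀ hg]
  calc x * p.gg m = p.gg m * (1 / p.ρ) * x * p.ρ := by field_simp
    _ ≤ p.B * Y * p.ρ := by gcongr
    _ = _ := by ring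

theorem top_root (hp : p.OK) (hc : p.sh.Conf c) {Y : ℝ} (hY : p.Yv b c a ≤ Y) :
    TopCov p.Kc a p.l p.m0 p.m1 p.mH p.mN (Y * p.B * p.ρ / 2 ^ p.mN)
      (Y * p.B / (2 ^ p.mN * p.ρ ^ 2)) := by
  refine cov_top hp hc hY _ _ fun x k hx h => ⟨hp.gg_mN ▸ cov_low hp hx h, fun hk => ?_⟩
  have hρ : 0 < p.ρ := zero_lt_one.trans_le hp.ρ_one
  rw [hp.gg_mN, zz, if_neg (by omega)] at h
  rw [le_div_iff₀ (by positivity)]
  linarith

theorem top_cov (hp : p.OK) (hc : p.sh.Conf c) {Y : ℝ} (hY : p.Yv b c a ≤ Y) (m : ℕ) :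
    TopCov p.Kc a p.l p.m0 (p.m0 + 5) p.mH m (Y * p.B * p.ρ / p.gg m)
      (Y * p.B * p.ρ / p.gg m) := by
  exact cov_top hp hc hY _ _ fun x k hx h => ⟨cov_low hp hx h, fun _ => cov_low hp hx h⟩

end Par

end

end Pool.Agent.Lib.MMTX
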