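import Mathlib

/-! The tree of kinks: addresses are lists of steps, the head is the last step. -/

namespace Pool.Agent.Lib.MMTX

open Finset

/-- one step of an address: unit exponent, index, level, side, kink of the window -/
structure St where
  j : ℕ
  n : ℕ
  i : ℕ
  ep : ℤ
  sg : ℤ
  deriving DecidableEq

/-- shape parameters of the tree -/
structure Sh where
  l : ℕ
  jl : ℕ
  jh : ℕ
  jN : ℕ
  G : ℕ
  c0 : ℕ
  lo : ℕ → ℕ

/-- half width of the window of a step -/
def St.w (s : St) : ℕ := 4 * 256 ^ s.i * 2 ^ s.j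

/-- the node of a step -/
def St.nd (s : St) : St := ⟨s.j, s.n, s.i, 1, 0⟩

/-- the step on the other side -/
def St.fl (s : St) : St := ⟨s.j, s.n, s.i, -s.ep, s.sg⟩

/-- the step with another kink of the same window -/
def St.kk (s : St) (g : ℤ) : St := ⟨s.j, s.n, s.i, s.ep, g⟩

/-- the last step of an address -/
def hd : List St → St
  | [] => ⟨0, 0, 0, 0, 0⟩
  | s :: _ => s

/-- the first step of an address -/
def top : List St → St
  | [] => ⟨0, 0, 0, 0, 0⟩
  | [s] => s
  | _ :: s :: z => top (s :: z)

/-- the node of an address -/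
def nd : List St → List St
  | [] => []
  | s :: z => s.nd :: z

/-- root kinks -/
def Rt (z : List St) : Prop := z.length = 1 ∧ (hd z).n = 0

instance : DecidablePred Rt := fun z => inferInstanceAs (Decidable (z.length = 1 ∧ (hd z).n = 0))

/-- all steps with labels in a box -/
def steps (J N : Finset ℕ) (G : ℕ) : Finset St :=
  ((J ×ˢ N ×ˢ range (G + 1)) ×ˢ ({1, -1} : Finset ℤ) ×ˢ ({-1, 0, 1} : Finset ℤ)).image
    fun p => ⟨p.1.1, p.1.2.1, p.1.2.2, p.2.1, p.2.2⟩

/-- position of a kink: `y0` is the nominal position of the root, `c` the configuration -/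
def pos (y0 : ℤ) (c : List St → ℤ) : List St → ℤ
  | [] => 0
  | s :: z => pos y0 c z +
      s.ep * ((if z = [] ∧ s.n = 0 then y0 else s.n * 2 ^ s.j) + c (s.nd :: z)) + s.sg * s.w

/-- direction in which a kink moves with the variable of the node `v` -/
def sig (v : List St) : List St → ℤ
  | [] => 0
  | s :: z => sig v z + if s.nd :: z = v then s.ep else 0

/-- the address with the other side at the node `v` -/
def flp (v : List St) : List St → List St
  | [] => []
  | s :: z => if s.nd :: z = v then s.fl :: z else s :: flp v z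

/-- the configuration with the variable of `v` moved by `d` -/
def mv (c : List St → ℤ) (v : List St) (d : ℤ) : List St → ℤ :=
  fun x => c x + if x = v then d else 0

namespace Sh

variable (p : Sh)

/-- the ratio `L` -/
def L : ℕ := 2 ^ p.l

/-- the scale of a top unit -/
def K (j : ℕ) : ℕ := 2 ^ (j + 2 * p.l)

/-- first steps -/
def tops : Finset St :=
  steps (Icc p.jl p.jh) (Icc (p.L ^ 2 / 2) (2 * p.L ^ 2)) p.G ∪
    {⟨p.jN, 0, 0, 1, 0⟩, ⟨p.jN, 0, 0, -1, 0⟩}

/-- steps after the kink `z` -/
def kids (z : List St) : Finset St :=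
  steps (Icc (p.lo (top z).j) (min ((hd z).j + p.c0) (top z).j)) (range (4 * p.L + 1)) p.G

/-- kinks of one generation -/
def lev : ℕ → Finset (List St)
  | 0 => p.tops.image fun s => [s]
  | g + 1 => (lev g).biUnion fun z => (p.kids z).image fun s => s :: z

/-- all kinks -/
def kinks : Finset (List St) := (range (p.G + 1)).biUnion p.lev

/-- valid addresses -/
inductive Ok : List St → Prop
  | top (s : St) (h : s ∈ p.tops) : Ok [s]
  | kid (s : St) (z : List St) (hz : Ok z) (h : s ∈ p.kids z) : Ok (s :: z)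

/-- nodes -/
def nodes : Finset (List St) := p.kinks.filter fun z => nd z = z

/-- range of the variable of a node -/
def Om (v : List St) : ℕ := if Rt v then p.K p.jN / 128 else 2 ^ (hd v).j / 8

/-- configurations -/
def Conf (c : List St → ℤ) : Prop := ∀ v, |c v| ≤ if v ∈ p.nodes then (p.Om v : ℤ) else 0

/-- inequalities between the shape parameters -/
structure Fine : Prop where
  hR : 64 * 256 ^ p.G ≤ p.L
  hG : 2 ^ 12 * (p.G + 1) ≤ p.L
  hc : 5 * p.G ≤ 2 ^ p.c0
  hlo : ∀ j, p.jl ≤ j → p.l ≤ p.lo j ∧ p.lo j ≤ j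
  hl : 12 ≤ p.l
  hN : p.jl ≤ p.jN ∧ p.jN ≤ p.jh

end Sh

end Pool.Agent.Lib.MMTX
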