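import Pool.Agent.Lib.MP_0dc93f_an.X.TMov
import Pool.Agent.Lib.MP_0dc93f_an.X.TMo
import Pool.Agent.Lib.MP_0dc93f_an.X.TRmp

/-! Interior step for top nodes. -/

namespace Pool.Agent.Lib.MMTX

open Finset MMTW

noncomputable section

/-- the six kinks of a top node -/
def itt6 (s : St) : Finset (List St) :=
  (({1, -1} : Finset ℤ) ×ˢ ({-1, 0, 1} : Finset ℤ)).image fun e => [⟨s.j, s.n, s.i, e.1, e.2⟩]

theorem itt6_card (s : St) : (itt6 s).card ≤ 6 :=
  card_image_le.trans (by decide)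

namespace Par

variable {p : Par} {a : ℤ → ℂ} {b : Bool} {c : List St → ℤ}

theorem itt_wz (hp : p.OK) {s : St} (hv : [s.nd] ∈ p.sh.kinks) {z : List St}
    (hz : z ∈ p.sh.kinks) (hm : sig [s.nd] z ≠ 0) :
    p.wz z ≤ ((if z ∈ itt6 s then 1 else 0) + p.η) * p.wz [s.nd] := by
  have h0 := wz_pos hp [s.nd]
  have hη := hp.h0
  obtain ⟨h1, h2⟩ := mov_mz (p := p) hm
  rcases h2.lt_or_eq with h | h
  · have := wz_lt hp hv h1 h
    split_ifs <;> nlinarith
  · obtain ⟨l, s', y, e1, e2⟩ := sig_ne hm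
    have hy : y = [] := by simpa using (List.cons.inj e2).2.symm
    have hs : s.nd = s'.nd := (List.cons.inj e2).1
    subst hy
    have hl : l = [] := by
      rw [e1] at h
      simp only [List.length_cons, List.length_nil, List.length_append] at h
      exact List.length_eq_zero_iff.1 (by omega)
    subst hl
    simp only [List.nil_append] at e1
    subst e1
    have hj : s.j = s'.j := (congrArg St.j hs : s.nd.j = s'.nd.j)
    have hn : s.n = s'.n := (congrArg St.n hs : s.nd.n = s'.nd.n)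
    have hi : s.i = s'.i := (congrArg St.i hs : s.nd.i = s'.nd.i)
    have hside := (Sh.mem_kinks.1 hz).1.hd_side
    have hmem : [s'] ∈ itt6 s := by
      refine mem_image.2 ⟨(s'.ep, s'.sg), ?_, ?_⟩
      · simp only [mem_product, mem_insert, mem_singleton]
        exact ⟨hside.2.1, hside.2.2⟩
      · rw [hj, hn, hi]
    have hw : p.wz [s'] = p.wz [s.nd] := by
      rw [hs]; rfl
    rw [if_pos hmem, hw]
    nlinarith

theorem itt_rq (hp : p.OK) (ha : p.Amb a) (hc : p.sh.Conf c) {v : List St} {d : ℤ}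
    (hc' : p.sh.Conf (mv c v d)) {z : List St} (hz : z ∈ p.sh.kinks) :
    |Rq p.Kc a (rmp (top z).ep (p.ps b (mv c v d) z)) - Rq p.Kc a (rmp (top z).ep (p.ps b c z))| ≤
      |(d : ℝ)| * p.mb (p.mz z) := by
  have key : ∀ {c' : List St → ℤ}, p.sh.Conf c' →
      (2 : ℝ) ^ p.mz z / 16 ≤ (((top z).ep * p.ps b c' z : ℤ) : ℝ) := by
    intro c' h
    have h1 := (ps_rng (b := b) hp h hz).1
    have h2 : (15 : ℝ) * 2 ^ p.mz z ≤ 32 * (((top z).ep * p.ps b c' z : ℤ) : ℝ) := by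
      exact_mod_cast h1
    have h3 : (0 : ℝ) < 2 ^ p.mz z := by positivity
    linarith
  refine (rq_lip p.Kc a (xz_mem hp hz).1 (key hc) (key hc')).trans ?_
  have e : p.ps b (mv c v d) z = p.ps b c z + sig v z * d := pos_mv _ _ _ _ _
  refine mul_le_mul ?_ (ha.tail_le _) ?_ (abs_nonneg _)
  · rw [e]
    push_cast
    rw [add_sub_cancel_left, abs_mul]
    rcases sig_mem (v := v) hz with h | h | h <;> simp [h]
  · unfold tail
    exact sum_nonneg fun _ _ => by positivity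

theorem int_ram_top (hp : p.OK) (ha : p.Amb a) (hc : p.sh.Conf c) {s : St}
    (hv : [s.nd] ∈ p.sh.kinks) {d : ℤ} (hd : p.sh.Conf (mv c [s.nd] d)) :
    |p.Ram b (mv c [s.nd] d) a - p.Ram b c a| ≤
      7 * p.mb (p.mz [s.nd]) * p.wz [s.nd] * |(d : ℝ)| := by
  have h0 := wz_pos hp [s.nd]
  have hη := hp.h0
  have hmb := hp.mb_pos (p.mz [s.nd])
  set X : ℝ := p.wz [s.nd] * (|(d : ℝ)| * p.mb (p.mz [s.nd])) with hX
  have hX0 : 0 ≤ X := by positivity
  unfold Ram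
  rw [← sum_sub_distrib]
  refine (abs_sum_le_sum_abs _ _).trans ?_
  refine (sum_le_sum (g := fun z => ((if z ∈ itt6 s then 1 else 0) + p.η) * X)
    fun z hz => ?_).trans ?_
  · have hi : (0 : ℝ) ≤ (if z ∈ itt6 s then 1 else 0) + p.η := by
      split_ifs <;> linarith
    by_cases hm : sig [s.nd] z = 0
    · have e : p.ps b (mv c [s.nd] d) z = p.ps b c z + sig [s.nd] z * d := pos_mv _ _ _ _ _
      rw [e, hm, zero_mul, add_zero, sub_self, abs_zero]
      exact mul_nonneg hi hX0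
    · rw [← mul_sub, abs_mul, abs_of_pos (wz_pos hp z), hX, ← mul_assoc]
      have h1 := itt_rq (b := b) hp ha hc hd hz
      rw [(mov_mz (p := p) hm).1] at h1
      exact mul_le_mul (itt_wz hp hv hz hm) h1 (abs_nonneg _) (mul_nonneg hi h0.le)
  · rw [← sum_mul, sum_add_distrib, sum_const, nsmul_eq_mul, sum_boole]
    have h1 : ((p.sh.kinks.filter fun z => z ∈ itt6 s).card : ℝ) ≤ 6 := by
      have : (p.sh.kinks.filter fun z => z ∈ itt6 s).card ≤ 6 :=
        (card_le_card fun z hz => (mem_filter.1 hz).2).trans (itt6_card s)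
      exact_mod_cast this
    have h2 := mul_le_mul_of_nonneg_right (card_K hp) hη.le
    have h3 := hp.η_B (n := 1) (by norm_num)
    rw [pow_one] at h3
    calc _ ≤ 7 * X := mul_le_mul_of_nonneg_right (by linarith) hX0
      _ = _ := by rw [hX]; ring

theorem itt_L_B (hp : p.OK) : 8 * (p.L : ℝ) ≤ p.B := by
  have h1 := hp.L_one
  have h2 := hp.L_B
  have h3 : (8 : ℝ) ≤ p.L := le_trans (by norm_num) h1
  have h4 : (p.L : ℝ) ^ 2 ≤ (p.L : ℝ) ^ 60 := pow_le_pow_right₀ (by linarith) (by norm_num)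
  nlinarith

theorem itt_w (hp : p.OK) {z : List St} (hz : z ∈ p.sh.kinks) :
    1 ≤ (hd z).w ∧ 4 * (hd z).w ≤ 2 ^ p.mz z := by
  obtain ⟨h1, -, h3, -⟩ := w_le hp hz
  have h4 : 0 < 2 ^ (hd z).j := by positivity
  have h5 : 1 ≤ p.L := Nat.one_le_two_pow
  refine ⟨by omega, le_trans ?_ h3⟩
  exact Nat.mul_le_mul_right _ (by omega)

theorem itt_W (hp : p.OK) {s : St} (hv : [s.nd] ∈ p.sh.kinks) {q : List St × List St}
    (hq : q ∈ p.pairs) (hm : sig [s.nd] q.1 ≠ 0 ∨ sig [s.nd] q.2 ≠ 0) :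
    p.Wq q * (p.mb (p.mz q.1) * p.mb (p.mz q.2)) * p.B ^ 5 ≤
      p.mb (p.mz [s.nd]) * p.wz [s.nd] * 2 ^ p.mz [s.nd] := by
  obtain ⟨⟨k1, k2⟩, -, -, -, hpq⟩ := mem_pairs.1 hq
  obtain ⟨r1, r2, hl⟩ := pair_nr hq
  have hB := hp.B_one
  have hW := Wq_pos hp q
  have h0 := wz_pos hp [s.nd]
  have hmb := hp.mb_pos (p.mz [s.nd])
  have hK : (0 : ℝ) < 2 ^ p.mz [s.nd] := by positivity
  have hη : p.η ^ ((hd q.1).i + (hd q.2).i) ≤ 1 := pow_le_one₀ hp.h0.le hp.η_le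
  have top1 : ∀ {z : List St}, z ∈ p.sh.kinks → ¬Rt z → sig [s.nd] z ≠ 0 →
      p.η ^ ((hd q.1).i + (hd q.2).i) * (p.wz z * (hd z).w) ≤ p.wz [s.nd] * 2 ^ p.mz [s.nd] := by
    intro z hz hr hs
    obtain ⟨h1, h2⟩ := mov_mz (p := p) hs
    have h3 : ((hd z).w : ℝ) ≤ 2 ^ p.mz [s.nd] := by
      have := (itt_w hp hz).2
      rw [h1] at this
      have h : (hd z).w ≤ 2 ^ p.mz [s.nd] := by omega
      exact_mod_cast h
    have h4 := mul_le_mul (wz_le hp hv hr h1 h2) h3 (Nat.cast_nonneg _) h0.le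
    have h5 : 0 ≤ p.wz z * (hd z).w := mul_nonneg (wz_pos hp z).le (Nat.cast_nonneg _)
    nlinarith
  rcases hpq with h | h
  · have hne : q.2 ≠ [] := (Sh.mem_kinks.1 k2).1.ne_nil
    obtain ⟨-, e1, e2, -⟩ := h.eqs hne
    have hh : p.mz q.1 = p.mz [s.nd] ∧ p.wz q.1 ≤ p.wz [s.nd] := by
      rcases hm with hs | hs
      · obtain ⟨h1, h2⟩ := mov_mz (p := p) hs
        exact ⟨h1, wz_le hp hv r1 h1 h2⟩
      · obtain ⟨h1, h2⟩ := mov_mz (p := p) hs
        exact ⟨e1 ▸ h1, e2 ▸ wz_le hp hv r2 h1 h2⟩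
    have h1 := Wq_loc hp hq h
    rw [e1, hh.1]
    rw [hh.1, kp] at h1
    have hL := itt_L_B hp
    have hL0 : (0 : ℝ) ≤ p.L := Nat.cast_nonneg _
    have h2 : (p.L : ℝ) * p.wz q.1 ≤ p.B * p.wz [s.nd] :=
      mul_le_mul (by linarith) hh.2 (wz_pos hp _).le (by linarith)
    have h3 : p.B * (p.Wq q * p.mb (p.mz [s.nd]) * p.B ^ 5 / 2 ^ p.mz [s.nd]) ≤
        p.B * p.wz [s.nd] := by
      refine le_trans (le_of_eq ?_) (h1.trans h2)
      ring
    have h4 := le_of_mul_le_mul_left h3 (by linarith)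
    rw [div_le_iff₀ hK] at h4
    calc _ = p.mb (p.mz [s.nd]) * (p.Wq q * p.mb (p.mz [s.nd]) * p.B ^ 5) := by ring
      _ ≤ p.mb (p.mz [s.nd]) * (p.wz [s.nd] * 2 ^ p.mz [s.nd]) :=
        mul_le_mul_of_nonneg_left h4 hmb.le
      _ = _ := by ring
  · obtain ⟨a1, a2⟩ := w1 hp hq
    rw [mq, if_pos h.2.1] at a1
    rw [mq, if_pos h.1] at a2
    rcases hm with hs | hs
    · have h1 := a1.trans (top1 k1 r1 hs)
      rw [(mov_mz (p := p) hs).1]
      calc _ = p.mb (p.mz [s.nd]) * (p.Wq q * p.mb (p.mz q.2) * p.B ^ 5) := by ring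
        _ ≤ p.mb (p.mz [s.nd]) * (p.wz [s.nd] * 2 ^ p.mz [s.nd]) :=
          mul_le_mul_of_nonneg_left h1 hmb.le
        _ = _ := by ring
    · have h1 := a2.trans (top1 k2 r2 hs)
      rw [(mov_mz (p := p) hs).1]
      calc _ = p.mb (p.mz [s.nd]) * (p.Wq q * p.mb (p.mz q.1) * p.B ^ 5) := by ring
        _ ≤ p.mb (p.mz [s.nd]) * (p.wz [s.nd] * 2 ^ p.mz [s.nd]) :=
          mul_le_mul_of_nonneg_left h1 hmb.le
        _ = _ := by ring

theorem itt_mo (hp : p.OK) (ha : p.Amb a) (hc : p.sh.Conf c) {q : List St × List St}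
    (hq : q ∈ p.pairs) : |Mo p.Kc a (p.tq q) (p.win b c q.1) (p.win b c q.2)| ≤
      4 * p.L * (p.mb (p.mz q.1) * p.mb (p.mz q.2)) := by
  obtain ⟨⟨k1, k2⟩, -⟩ := mem_pairs.1 hq
  have hw : ∀ {z : List St}, z ∈ p.sh.kinks → ((hd z).w : ℝ) ≤ 2 ^ p.mz z / 4 := by
    intro z hz
    have h : (4 : ℝ) * (hd z).w ≤ 2 ^ p.mz z := by exact_mod_cast (itt_w hp hz).2
    linarith
  have hm : ∀ {z : List St}, z ∈ p.sh.kinks → mW p.Kc a (p.win b c z) ≤ p.mb (p.mz z) :=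
    fun hz => mW_le hp ha hc hz (hw hz)
  have h1 : (1 : ℝ) ≤ (hd q.1).w := by exact_mod_cast (itt_w hp k1).1
  have h2 : (2 : ℝ) ^ p.mz q.1 ≤ 2 ^ p.mH := pow_le_pow_right₀ (by norm_num) (mz_mem hp k1).2
  have h3 := hw k1
  have h4 : (0 : ℝ) < 2 ^ p.mH := by positivity
  have hΛ : 1 + Real.log (2 * ((p.win b c q.1).w : ℝ)) ≤ 2 * p.L :=
    hp.lg_le (x := 2 * ((hd q.1).w : ℝ)) (by linarith) (by linarith)
  refine (mo_triv p.Kc a (tq_pos hp q).le _ _ (itt_w hp k1).1 hΛ).trans ?_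
  have h5 := mul_le_mul (hm k1) (hm k2) (mB_nonneg _ _ _ _) (hp.mb_pos _).le
  have hL0 : (0 : ℝ) ≤ p.L := Nat.cast_nonneg _
  nlinarith

theorem int_ab_top (hp : p.OK) (ha : p.Amb a) (hc : p.sh.Conf c) {s : St}
    (hv : [s.nd] ∈ p.sh.kinks) {d : ℤ} (hd : p.sh.Conf (mv c [s.nd] d)) :
    |p.Ab b (mv c [s.nd] d) a - p.Ab b c a| ≤
      p.mb (p.mz [s.nd]) * p.wz [s.nd] * 2 ^ p.mz [s.nd] := by
  have h0 := wz_pos hp [s.nd]
  have hmb := hp.mb_pos (p.mz [s.nd])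
  have hB := hp.B_one
  set X : ℝ := p.mb (p.mz [s.nd]) * p.wz [s.nd] * 2 ^ p.mz [s.nd] with hX
  have hX0 : 0 ≤ X := by positivity
  unfold Ab
  rw [← sum_sub_distrib]
  refine (abs_sum_le_sum_abs _ _).trans ?_
  refine (sum_le_card_nsmul _ _ (X / p.B) fun q hq => ?_).trans ?_
  · by_cases hm : sig [s.nd] q.1 ≠ 0 ∨ sig [s.nd] q.2 ≠ 0
    · have h1 := itt_W hp hv hq hm
      have h2 := itt_mo (b := b) hp ha hc hq
      have h3 := itt_mo (b := b) hp ha hd hq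
      have hW := Wq_pos hp q
      have hL := itt_L_B hp
      have hM : 0 ≤ p.mb (p.mz q.1) * p.mb (p.mz q.2) :=
        mul_nonneg (hp.mb_pos _).le (hp.mb_pos _).le
      rw [← mul_sub, abs_mul, abs_of_pos hW, le_div_iff₀ (by linarith)]
      have h4 := (abs_sub _ _).trans (add_le_add h3 h2)
      have h5 : p.B ^ 2 ≤ p.B ^ 5 := pow_le_pow_right₀ hB (by norm_num)
      have h6 := mul_nonneg hW.le hM
      calc _ ≤ p.Wq q * (p.B * (p.mb (p.mz q.1) * p.mb (p.mz q.2))) * p.B := by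
            refine mul_le_mul_of_nonneg_right (mul_le_mul_of_nonneg_left ?_ hW.le) (by linarith)
            nlinarith
        _ = p.Wq q * (p.mb (p.mz q.1) * p.mb (p.mz q.2)) * p.B ^ 2 := by ring
        _ ≤ _ := (mul_le_mul_of_nonneg_left h5 h6).trans h1
    · push Not at hm
      have e : ∀ z, sig [s.nd] z = 0 → p.win b (mv c [s.nd] d) z = p.win b c z := by
        intro z hz
        rw [win_mv, hz, zero_mul]
        simp [Win.sh]
      rw [e _ hm.1, e _ hm.2, sub_self, abs_zero]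
      positivity
  · rw [nsmul_eq_mul]
    calc _ ≤ p.B * (X / p.B) := mul_le_mul_of_nonneg_right (card_P hp) (by positivity)
      _ = X := by field_simp

end Par

end

end Pool.Agent.Lib.MMTX
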