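import Pool.Agent.Lib.MP_0dc93f_an.X.TSec2

/-! Second difference of the absorbers. -/

namespace Pool.Agent.Lib.MMTX

open Finset MMTW

noncomputable section

namespace Par

variable {p : Par} {a : ℤ → ℂ} {b : Bool} {c : List St → ℤ}

theorem sec_pair (hp : p.OK) (ha : p.Amb a) (hc : p.sh.Conf c) {d : ℕ} (hd : 1 ≤ d)
    (hg : p.GF b c a d) {v : List St} (hv : v ∈ p.sh.nodes) (hO : 2 * d ≤ p.sh.Om v)
    {q : List St × List St} (hq : q ∈ p.pairs) :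
    p.Wq q * |Mo p.Kc a (p.tq q) (p.win b (mv c v d) q.1) (p.win b (mv c v d) q.2) +
      Mo p.Kc a (p.tq q) (p.win b (mv c v (-d)) q.1) (p.win b (mv c v (-d)) q.2) -
      2 * Mo p.Kc a (p.tq q) (p.win b c q.1) (p.win b c q.2)| * p.B ^ 2 ≤
      p.ko v * p.wz v * d ^ 2 := by
  have hvk : v ∈ p.sh.kinks := (mem_filter.1 hv).1
  have hdv := sec_d hp hvk hO
  obtain ⟨⟨k1, k2⟩, g1, g2, -, hlt⟩ := mem_pairs.1 hq
  obtain ⟨r1, r2, hlen⟩ := pair_nr hq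
  have hX : 0 < p.ko v * p.wz v := mul_pos (ko_pos hp v) (wz_pos hp v)
  have hW := Wq_pos hp q
  have hB := hp.B_one
  have hd0 : (1 : ℝ) ≤ d := by exact_mod_cast hd
  have s1 := sig_mem (v := v) k1
  have s2 := sig_mem (v := v) k2
  have u1 := sec_abs s1
  have u2 := sec_abs s2
  have sh0 : ∀ P : Win, P.sh 0 = P := fun P => by simp [Win.sh]
  simp only [win_mv]
  by_cases h0 : sig v q.1 = 0 ∧ sig v q.2 = 0
  · rw [h0.1, h0.2]
    simp only [zero_mul, sh0]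
    rw [← two_mul, sub_self, abs_zero, mul_zero, zero_mul]
    positivity
  by_cases hn : p.Loc q.1 q.2 ∧ ((MMTX.hd q.1).w ≤ d ∨ (MMTX.hd q.2).w ≤ d)
  · obtain ⟨hl, hn⟩ := hn
    obtain ⟨-, em, -, -⟩ := hl.eqs (Sh.mem_kinks.1 k2).1.ne_nil
    have hm : p.mz q.1 = p.mz v ∧ v.length ≤ q.1.length := by
      by_cases h1 : sig v q.1 = 0
      · have := sec_mov (p := p) fun h2 => h0 ⟨h1, h2⟩
        rwa [em, hlen] at this
      · exact sec_mov h1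
    obtain ⟨c1, c2⟩ := hl.w_le hp k1 k2
    have hL : 1 ≤ p.L := Nat.one_le_two_pow
    have hLd : d ≤ p.L * d := Nat.le_mul_of_pos_left d hL
    have hw : (MMTX.hd q.1).w ≤ p.L * d ∧ (MMTX.hd q.2).w ≤ p.L * d := by
      rcases hn with hn | hn
      · exact ⟨hn.trans hLd, c2.trans (Nat.mul_le_mul_left _ hn)⟩
      · exact ⟨c1.trans (Nat.mul_le_mul_left _ hn), hn.trans hLd⟩
    have key := fun (e e' : ℤ) (he : |(e : ℝ)| ≤ d) (he' : |(e' : ℝ)| ≤ d) =>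
      sec_nar hp hd hg hvk hdv hq hl hm.1 hm.2 hw.1 hw.2 he he'
    have ab : ∀ σ : ℤ, |(σ : ℝ)| ≤ 1 → |((σ * d : ℤ) : ℝ)| ≤ d ∧ |((σ * -d : ℤ) : ℝ)| ≤ d := by
      intro σ hσ
      push_cast
      rw [abs_mul, abs_mul, abs_neg, Nat.abs_cast]
      constructor <;> nlinarith [abs_nonneg (σ : ℝ)]
    have t1 := key _ _ (ab _ u1).1 (ab _ u2).1
    have t2 := key _ _ (ab _ u1).2 (ab _ u2).2
    have t3 := key 0 0 (by simp) (by simp)
    rw [sh0, sh0] at t3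
    generalize Mo p.Kc a (p.tq q) ((p.win b c q.1).sh (sig v q.1 * d))
      ((p.win b c q.2).sh (sig v q.2 * d)) = x at *
    generalize Mo p.Kc a (p.tq q) ((p.win b c q.1).sh (sig v q.1 * -d))
      ((p.win b c q.2).sh (sig v q.2 * -d)) = y at *
    generalize Mo p.Kc a (p.tq q) (p.win b c q.1) (p.win b c q.2) = z at *
    have h5 : |x + y - 2 * z| ≤ |x| + |y| + 2 * |z| := by
      have h6 := abs_sub (x + y) (2 * z)
      have h7 := abs_add_le x y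
      rw [abs_mul, abs_two] at h6
      linarith
    calc _ ≤ p.Wq q * (|x| + |y| + 2 * |z|) * p.B ^ 2 := by gcongr
      _ ≤ _ := by linarith
  obtain ⟨a1, a2, a3⟩ := sec_w hp k1
  obtain ⟨b1, b2, b3⟩ := sec_w hp k2
  obtain ⟨-, -, v3⟩ := sec_w hp hvk
  have a0 : (1 : ℝ) ≤ (MMTX.hd q.1).w := by exact_mod_cast a1
  have b0 : (1 : ℝ) ≤ (MMTX.hd q.2).w := by exact_mod_cast b1
  have hc1 : (q.1.length = 1 ∨ d < (MMTX.hd q.1).w) ∧ (q.2.length = 1 ∨ d < (MMTX.hd q.2).w) := by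
    rcases hlt with hl | ht
    · exact ⟨Or.inr (not_le.1 fun h => hn ⟨hl, Or.inl h⟩),
        Or.inr (not_le.1 fun h => hn ⟨hl, Or.inr h⟩)⟩
    · exact ⟨Or.inl ht.1, Or.inl ht.2.1⟩
  have main := mo_d2 p.Kc a (Λ := 2 * p.L) (tq_pos hp q).le (p.win b c q.1) (p.win b c q.2) a1 b1
    d hd s1 s2 (kz_pos hp q.1).le (kz_pos hp q.2).le
    (hp.lg_le (x := 2 * (((MMTX.hd q.1).w : ℝ) + d)) (by linarith) (by linarith))
    (hp.lg_le (x := 2 * (((MMTX.hd q.2).w : ℝ) + d)) (by linarith) (by linarith))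
    (sec_mq hp ha hc hg hdv k1 hc1.1) (sec_mq hp ha hc hg hdv k2 hc1.2)
    (fun h => sec_kink hp hg k1 r1 g1 (by rw [(sec_mov (p := p) h).1]; exact hdv))
    (fun h => sec_kink hp hg k2 r2 g2 (by rw [(sec_mov (p := p) h).1]; exact hdv))
  obtain ⟨w1a, w1b⟩ := w1 hp hq
  have hη : p.η ^ ((MMTX.hd q.1).i + (MMTX.hd q.2).i) ≤ 1 := pow_le_one₀ hp.h0.le hp.η_le
  have z1 := wz_pos hp q.1
  have z2 := wz_pos hp q.2
  have w2a := w1a.trans (mul_le_of_le_one_left (by positivity) hη)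
  have w2b := w1b.trans (mul_le_of_le_one_left (by positivity) hη)
  have hL : (1 : ℝ) ≤ p.L := le_trans (by norm_num) hp.L_one
  have kw : ∀ z ∈ p.sh.kinks, ¬Rt z → ((sig v z : ℤ) : ℝ) ≠ 0 →
      p.kz z * p.wz z ≤ 8 * (p.L : ℝ) ^ 4 * (p.ko v * p.wz v) := fun z hz hr h =>
    have h' := sec_mov (p := p) (v := v) (z := z) (by exact_mod_cast h)
    kw_le hp hvk hr h'.1 h'.2
  have t1 := sec_term (by linarith) (kz_pos hp q.1).le hX.le (by positivity) u1 w2a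
    (kw _ k1 r1)
  have t2 := sec_term (by linarith) (kz_pos hp q.2).le hX.le (by positivity) u2 w2b
    (kw _ k2 r2)
  have q1 := mq_pos hp q.1
  have t3 := sec_term (σ := ((sig v q.1 : ℤ) : ℝ) * ((sig v q.2 : ℤ) : ℝ))
    (κ := p.mq q.1 / (MMTX.hd q.2).w) (C := 2 * p.L * p.B * (8 * (p.L : ℝ) ^ 4))
    (by linarith) (by positivity) hX.le (by positivity)
    (by rw [abs_mul]; exact mul_le_one₀ u1 (abs_nonneg _) u2) w2a fun h => by
      have h1 := left_ne_zero_of_mul h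
      have h2 := right_ne_zero_of_mul h
      have e1 := (sec_mov (p := p) (v := v) (z := q.1) (by exact_mod_cast h1)).1
      have e2 := (sec_mov (p := p) (v := v) (z := q.2) (by exact_mod_cast h2)).1
      have h3 := sec_cross hp hq (e2.trans e1.symm)
      rw [← div_le_iff₀ (by linarith)] at h3
      calc _ ≤ 2 * p.L * p.B * p.kz q.1 * p.wz q.1 := mul_le_mul_of_nonneg_right h3 z1.le
        _ = 2 * p.L * p.B * (p.kz q.1 * p.wz q.1) := by ring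
        _ ≤ 2 * p.L * p.B * (8 * (p.L : ℝ) ^ 4 * (p.ko v * p.wz v)) :=
          mul_le_mul_of_nonneg_left (kw _ k1 r1 h1) (by positivity)
        _ = _ := by ring
  rw [abs_mul] at t3
  have hN := sec_num hp
  have n1 : (p.L : ℝ) ^ 5 ≤ (p.L : ℝ) ^ 8 := pow_le_pow_right₀ hL (by norm_num)
  have n2 : (p.L : ℝ) ^ 6 ≤ (p.L : ℝ) ^ 8 := pow_le_pow_right₀ hL (by norm_num)
  have n3 : p.B ≤ p.B ^ 3 := le_self_pow₀ hB (by norm_num)
  have n4 : p.B * p.B ≤ p.B ^ 3 := by nlinarith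
  have n5 : 128 * (p.L : ℝ) ^ 6 * p.B ≤ p.B * p.B / 2 := by nlinarith
  have n6 : 7680 * (p.L : ℝ) ^ 5 + 128 * (p.L : ℝ) ^ 6 * p.B ≤ p.B ^ 3 := by nlinarith
  refine le_of_mul_le_mul_right ?_ (show 0 < p.B ^ 3 by positivity)
  refine le_trans (mul_le_mul_of_nonneg_right (mul_le_mul_of_nonneg_right
    (mul_le_mul_of_nonneg_left main hW.le) (by positivity)) (by positivity)) ?_
  have e1 : ((p.win b c q.1).w : ℝ) = (MMTX.hd q.1).w := rfl
  have e2 : ((p.win b c q.2).w : ℝ) = (MMTX.hd q.2).w := rfl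
  rw [e1, e2]
  calc _ = 2 * p.L * d ^ 2 * (240 * (|((sig v q.1 : ℤ) : ℝ)| *
          (p.Wq q * (p.kz q.1 * p.mq q.2 / (MMTX.hd q.1).w) * p.B ^ 5)) +
        240 * (|((sig v q.2 : ℤ) : ℝ)| *
          (p.Wq q * (p.kz q.2 * p.mq q.1 / (MMTX.hd q.2).w) * p.B ^ 5)) +
        4 * (|((sig v q.1 : ℤ) : ℝ)| * |((sig v q.2 : ℤ) : ℝ)| *
          (p.Wq q * (p.mq q.1 / (MMTX.hd q.2).w * p.mq q.2 / (MMTX.hd q.1).w) * p.B ^ 5))) := by
        field_simp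
    _ ≤ 2 * p.L * d ^ 2 * (240 * (8 * (p.L : ℝ) ^ 4 * (p.ko v * p.wz v)) +
        240 * (8 * (p.L : ℝ) ^ 4 * (p.ko v * p.wz v)) +
        4 * (2 * p.L * p.B * (8 * (p.L : ℝ) ^ 4) * (p.ko v * p.wz v))) := by gcongr
    _ = p.ko v * p.wz v * d ^ 2 * (7680 * (p.L : ℝ) ^ 5 + 128 * (p.L : ℝ) ^ 6 * p.B) := by ring
    _ ≤ _ := mul_le_mul_of_nonneg_left n6 (by positivity)

theorem sec_ab (hp : p.OK) (ha : p.Amb a) (hc : p.sh.Conf c) {d : ℕ} (hd : 1 ≤ d)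
    (hg : p.GF b c a d) {v : List St} (hv : v ∈ p.sh.nodes) (hO : 2 * d ≤ p.sh.Om v) :
    |p.Ab b (mv c v d) a + p.Ab b (mv c v (-d)) a - 2 * p.Ab b c a| ≤
      p.ko v * p.wz v * d ^ 2 / 2 := by
  have hB := hp.B_one
  have hX : 0 ≤ p.ko v * p.wz v * d ^ 2 :=
    mul_nonneg (mul_pos (ko_pos hp v) (wz_pos hp v)).le (by positivity)
  have hL : (1 : ℝ) ≤ p.L := le_trans (by norm_num) hp.L_one
  have hB2 : 2 ≤ p.B := by
    have h1 := sec_num hp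
    have h2 : (1 : ℝ) ≤ (p.L : ℝ) ^ 8 := one_le_pow₀ hL
    linarith
  unfold Ab
  rw [mul_sum, ← sum_add_distrib, ← sum_sub_distrib]
  refine (abs_sum_le_sum_abs _ _).trans ((sum_le_card_nsmul _ _
    (p.ko v * p.wz v * d ^ 2 / p.B ^ 2) fun q hq => ?_).trans ?_)
  · rw [le_div_iff₀ (by positivity)]
    refine le_trans (le_of_eq ?_) (sec_pair hp ha hc hd hg hv hO hq)
    rw [← abs_of_pos (Wq_pos hp q), ← abs_mul, abs_of_pos (Wq_pos hp q)]
    congr 2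
    ring
  · rw [nsmul_eq_mul]
    calc _ ≤ p.B * (p.ko v * p.wz v * d ^ 2 / p.B ^ 2) :=
          mul_le_mul_of_nonneg_right (card_P hp) (by positivity)
      _ = p.ko v * p.wz v * d ^ 2 / p.B := by field_simp
      _ ≤ _ := div_le_div_of_nonneg_left hX (by norm_num) hB2

end Par

end

end Pool.Agent.Lib.MMTX
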