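import Pool.Agent.Lib.MP_0dc93f_an.X.TIntL
import Pool.Agent.Lib.MP_0dc93f_an.X.TIntT
import Pool.Agent.Lib.MP_0dc93f_an.X.TSec
import Pool.Agent.Lib.MP_0dc93f_an.X.TNf

/-! Maximal configurations are good. -/

namespace Pool.Agent.Lib.MMTX

open Finset MMTW

noncomputable section

namespace Par

variable {p : Par} {a : ℤ → ℂ} {b : Bool} {c : List St → ℤ}

theorem node_form {v : List St} (hv : v ∈ p.sh.nodes) :
    v ∈ p.sh.kinks ∧ ∃ (s : St) (y : List St), v = s.nd :: y := by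
  obtain ⟨h1, h2⟩ := mem_filter.1 hv
  obtain ⟨s, y, rfl⟩ := List.exists_cons_of_ne_nil (Sh.mem_kinks.1 h1).1.ne_nil
  exact ⟨h1, s, y, h2.symm⟩

theorem Nf_mv {v : List St} (h : v ≠ p.r0) (d : ℤ) : p.Nf b (mv c v d) a = p.Nf b c a := by
  unfold Nf mv
  rw [if_neg h.symm, add_zero]

theorem abs_sn (b : Bool) (x : ℝ) : |Sys.sn b * x| = |x| := by
  cases b <;> simp [Sys.sn]

theorem K_top (p : Par) (s : St) : (2 : ℝ) ^ p.mz [s] = 2 ^ s.j * (p.L : ℝ) ^ 2 := by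
  have : p.sh.K s.j = 2 ^ s.j * p.L ^ 2 := p.sh.K_eq s.j
  have e : p.sh.K s.j = 2 ^ p.mz [s] := rfl
  rw [e] at this
  exact_mod_cast this

theorem ko_top (hp : p.OK) {s : St} (hv : [s] ∈ p.sh.kinks) :
    p.L * p.mb (p.mz [s]) ≤ 128 * (p.ko [s] * p.sh.Om [s]) ∧
      p.L * p.mb (p.mz [s]) * 2 ^ p.mz [s] ≤ 2 ^ 14 * (p.ko [s] * (p.sh.Om [s] : ℝ) ^ 2) := by
  have hL := hp.L_one
  have hM := hp.mb_pos (p.mz [s])
  have hK : (0 : ℝ) < 2 ^ p.mz [s] := by positivity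
  by_cases hr : Rt [s]
  · have e := mz_rt hp hv hr.2
    have h1 : (128 * p.sh.Om [s] : ℝ) = 2 ^ p.mN := by exact_mod_cast Om_rt hp hr
    have h2 : (p.sh.Om [s] : ℝ) = 2 ^ p.mN / 128 := by linarith
    rw [ko, if_pos hr, e, h2]
    constructor <;> apply le_of_eq <;> field_simp
    norm_num
  · have h1 : (8 * p.sh.Om [s] : ℝ) = 2 ^ s.j := by exact_mod_cast Om_nr hp hv hr
    have h2 : (p.sh.Om [s] : ℝ) = 2 ^ s.j / 8 := by linarith
    have h3 := kz_ge hp [s]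
    have hu : (0 : ℝ) < 2 ^ s.j := by positivity
    rw [ko, if_neg hr, h2]
    rw [K_top] at h3 ⊢
    have h4 : (p.L : ℝ) ^ 5 * (p.mb (p.mz [s]) / (2 ^ s.j * (p.L : ℝ) ^ 2)) * 2 ^ s.j =
        p.L ^ 2 * (p.L * p.mb (p.mz [s])) := by field_simp
    have h5 := mul_le_mul_of_nonneg_right h3 hu.le
    rw [h4] at h5
    have h6 : 0 < p.L * p.mb (p.mz [s]) := by positivity
    have h7 : (1 : ℝ) ≤ p.L ^ 2 := one_le_pow₀ (by linarith)
    have h8 := mul_le_mul_of_nonneg_right h5 hu.le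
    have h9 : 0 ≤ p.L ^ 2 * (p.L * p.mb (p.mz [s])) * 2 ^ s.j := by positivity
    constructor <;> nlinarith

theorem int_top_ar {L M K k w O D : ℝ} (hL : 2 ^ 100 ≤ L) (hM : 0 < M) (hK : 0 < K) (hk : 0 < k)
    (hw : 0 < w) (hO : 0 ≤ O) (hD : O < 2 * D) (k1 : L * M ≤ 128 * (k * O))
    (k2 : L * M * K ≤ 2 ^ 14 * (k * O ^ 2))
    (h : w * k * D ^ 2 / 2 ≤ 7 * M * w * D + 3 * (M * w * K)) : False := by
  have hD0 : 0 < D := by linarith
  have t1 : k * O * D ≤ 2 * (k * D ^ 2) := by nlinarith [mul_pos hk hD0]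
  have t0 : O ^ 2 ≤ 4 * D ^ 2 := by nlinarith
  have t2 := mul_le_mul_of_nonneg_left t0 hk.le
  have t3 := mul_le_mul_of_nonneg_right k1 hD0.le
  have t4 := mul_le_mul_of_nonneg_right hL (mul_pos hM hD0).le
  have t5 := mul_le_mul_of_nonneg_right hL (mul_pos hM hK).le
  have t6 := mul_pos hM hK
  have t7 := mul_pos hM hD0
  have t8 : 7 * (M * D) + 3 * (M * K) < k * D ^ 2 / 2 := by linarith
  linarith [mul_lt_mul_of_pos_left t8 hw]

theorem int_loc_ar {L k w u D : ℝ} (hL : 2 ^ 100 ≤ L) (hk : 0 < k) (hw : 0 < w) (hu : 0 < u)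
    (hD : u < 16 * D)
    (h : w * (2 ^ 16 * L * k / 8) * D ^ 2 / 2 ≤ 16 * L * u * k * w * D + k * w * u ^ 2) :
    False := by
  have hD0 : 0 < D := by linarith
  have t1 : u * D ≤ 16 * D ^ 2 := by nlinarith
  have t2 : u ^ 2 ≤ 256 * D ^ 2 := by nlinarith
  have t4 := mul_le_mul_of_nonneg_left t1 (show (0 : ℝ) ≤ L by linarith)
  have t5 := pow_pos hD0 2
  have t6 := mul_le_mul_of_nonneg_right hL t5.le
  have t3 : 16 * (L * (u * D)) + u ^ 2 < 2 ^ 12 * (L * D ^ 2) := by linarith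
  linarith [mul_lt_mul_of_pos_left t3 (mul_pos hk hw)]

theorem interior (hp : p.OK) (ha : p.Amb a) (hm : p.Mx b c a) {h0 : ℝ} (hg : p.GF b c a h0)
    {v : List St} (hv : v ∈ p.sh.nodes) (hO : h0 ≤ p.sh.Om v) : 2 * |c v| ≤ p.sh.Om v := by
  by_contra hcon
  have hD : (p.sh.Om v : ℝ) < 2 * |(c v : ℝ)| := by exact_mod_cast not_le.1 hcon
  have hd : p.sh.Conf (mv c v (-c v)) := hm.1.mv hv (by simp)
  have h1 := hm.2 _ hd
  unfold Phi at h1
  rw [pen_mv p c hv] at h1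
  have h2 := abs_sn b (p.Ab b (mv c v (-c v)) a - p.Ab b c a)
  have h3 := neg_abs_le (Sys.sn b * (p.Ab b (mv c v (-c v)) a - p.Ab b c a))
  have h4 := neg_abs_le (p.Ram b (mv c v (-c v)) a - p.Ram b c a)
  have h5 := neg_abs_le (p.Nf b (mv c v (-c v)) a - p.Nf b c a)
  have key : p.wz v * p.ko v * |(c v : ℝ)| ^ 2 / 2 ≤ |p.Ram b (mv c v (-c v)) a - p.Ram b c a| +
      |p.Ab b (mv c v (-c v)) a - p.Ab b c a| + |p.Nf b (mv c v (-c v)) a - p.Nf b c a| := by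
    rw [sq_abs]
    push_cast at h1
    nlinarith
  obtain ⟨hk, s, y, rfl⟩ := node_form hv
  have hL := hp.L_one
  have hw := wz_pos hp (s.nd :: y)
  have hO0 : (0 : ℝ) ≤ p.sh.Om (s.nd :: y) := by positivity
  have eD : |((-c (s.nd :: y) : ℤ) : ℝ)| = |(c (s.nd :: y) : ℝ)| := by simp
  by_cases hy : y = []
  · subst hy
    have r1 := int_ram_top (b := b) hp ha hm.1 hk hd
    have r2 := int_ab_top (b := b) hp ha hm.1 hk hd
    obtain ⟨k1, k2⟩ := ko_top hp hk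
    have hM := hp.mb_pos (p.mz [s.nd])
    have hK : (0 : ℝ) < 2 ^ p.mz [s.nd] := by positivity
    have hko := ko_pos hp [s.nd]
    have r3 : |p.Nf b (mv c [s.nd] (-c [s.nd])) a - p.Nf b c a| ≤
        2 * (p.mb (p.mz [s.nd]) * p.wz [s.nd] * 2 ^ p.mz [s.nd]) := by
      by_cases hr : [s.nd] = p.r0
      · have hR : Rt [s.nd] := (rt_iff hp hk).2 (Or.inl hr)
        have n1 := Nf_le (b := b) hp ha hd
        have n2 := Nf_le (b := b) hp ha hm.1
        have n3 := le_mul_of_one_le_right (abs_nonneg (p.Nf b (mv c [s.nd] (-c [s.nd])) a))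
          (show (1 : ℝ) ≤ p.L by linarith)
        have n4 := le_mul_of_one_le_right (abs_nonneg (p.Nf b c a)) (show (1 : ℝ) ≤ p.L by linarith)
        have n5 := abs_sub (p.Nf b (mv c [s.nd] (-c [s.nd])) a) (p.Nf b c a)
        rw [wz, if_pos hR, mz_rt hp hk hR.2]
        unfold S0 at n1 n2
        linarith
      · rw [Nf_mv hr, sub_self, abs_zero]; positivity
    rw [eD] at r1
    exact int_top_ar hL hM hK hko hw hO0 hD k1 k2 (by linarith)
  · have hr : ¬Rt (s.nd :: y) := fun h => hy (List.length_eq_zero_iff.1 (by simpa using h.1))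
    have e1 : (8 * p.sh.Om (s.nd :: y) : ℝ) = 2 ^ s.j := by exact_mod_cast Om_nr hp hk hr
    have r1 := int_ram_loc hp hm.1 hg hy hk (by linarith) hd
    have r2 := int_ab_loc hp hm.1 hg hy hk (by linarith) hd
    have hne : s.nd :: y ≠ p.r0 := fun h => hy (List.cons.inj h).2
    rw [Nf_mv hne, sub_self, abs_zero, ko, if_neg hr, kz_cons p _ hy] at key
    rw [eD] at r1
    exact int_loc_ar (u := 2 ^ s.j) (D := |(c (s.nd :: y) : ℝ)|) hL (kz_pos hp y) hw (by positivity)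
      (by linarith) (by linarith)

theorem sec_nf (hp : p.OK) (ha : p.Amb a) (hc : p.sh.Conf c) {d : ℕ} (hd : 1 ≤ d)
    (hg : p.GF b c a d) {v : List St} (hv : v ∈ p.sh.nodes) (hO : 2 * d ≤ p.sh.Om v) :
    |p.Nf b (mv c v d) a + p.Nf b (mv c v (-d)) a - 2 * p.Nf b c a| ≤
      p.ko v * p.wz v * d ^ 2 / 2 := by
  have hko := ko_pos hp v
  have hw := wz_pos hp v
  by_cases hr : v = p.r0
  swap
  · rw [Nf_mv hr, Nf_mv hr, ← two_mul, sub_self, abs_zero]; positivity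
  subst hr
  obtain ⟨k1, k2⟩ := r0_mem hp
  have hR : Rt p.r0 := (rt_iff hp k1).2 (Or.inl rfl)
  have m1 : p.mz p.r0 = p.mN := mz_rt hp k1 rfl
  have m2 : p.mz [⟨p.sh.jN, 0, 0, -1, 0⟩] = p.mN := mz_rt hp k2 rfl
  have o1 := Om_rt hp hR
  have o2 : 256 * d ≤ 2 ^ p.mN := by omega
  have o3 : (256 * d : ℝ) ≤ 2 ^ p.mN := by exact_mod_cast o2
  have o4 : (256 * d : ℤ) ≤ 2 ^ p.mN := by exact_mod_cast o2
  have hd1 : (1 : ℝ) ≤ d := by exact_mod_cast hd
  obtain ⟨q1, q2⟩ := ps_r0 p b c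
  have g1 := hg _ k1 d d le_rfl le_rfl (by rw [m1]; linarith)
  have g2 := hg _ k2 d d le_rfl le_rfl (by rw [m2]; linarith)
  have z1 : p.kz p.r0 = (p.L : ℝ) ^ 5 * (p.mb p.mN / 2 ^ p.mN) := by
    rw [kz, m1]; simp [r0]
  have z2 : p.kz [⟨p.sh.jN, 0, 0, -1, 0⟩] = (p.L : ℝ) ^ 5 * (p.mb p.mN / 2 ^ p.mN) := by
    rw [kz, m2]; simp
  rw [q1, z1] at g1
  rw [q2, z2] at g2
  have y1 := (ps_rng (b := b) hp hc k1).1
  rw [m1, q1, show (top p.r0).ep = 1 from rfl] at y1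
  have h := nf_d2 hp ha (p.y0 true) (y := p.y0 b + c p.r0) (d := d) (by omega)
    (add_le_add g1 g2)
  have e1 : p.Nf b (mv c p.r0 d) a =
      NFv p.α p.Kc a p.m1 p.mH (p.y0 true) (p.y0 b + c p.r0 + d) := by
    simp only [Nf, mv, if_true, add_assoc]
  have e2 : p.Nf b (mv c p.r0 (-d)) a =
      NFv p.α p.Kc a p.m1 p.mH (p.y0 true) (p.y0 b + c p.r0 - d) := by
    simp only [Nf, mv, if_true, add_assoc, sub_eq_add_neg]
  rw [e1, e2]
  refine h.trans ?_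
  rw [ko, wz, if_pos hR, if_pos hR]
  have hL := hp.L_one
  have hM := hp.mb_pos p.mN
  have hK : (0 : ℝ) < 2 ^ p.mN := by positivity
  have hF := hp.keyF
  have hs := Real.sqrt_pos.2 hK
  have hs2 := Real.mul_self_sqrt hK.le
  have hX : 0 ≤ ((2 : ℝ) ^ p.mN) ^ (-p.α) * 2 ^ p.m1 := by positivity
  have hE := hp.e2
  have hE1 := hp.e1
  have hB : 160 * (p.L : ℝ) ^ 3 ≤ p.B := by
    have h1 : (p.L : ℝ) ^ 4 ≤ p.L ^ 60 := pow_le_pow_right₀ (by linarith) (by norm_num)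
    have h2 := hp.L_B
    have h3 : (0 : ℝ) < p.L ^ 3 := by positivity
    nlinarith
  generalize ((2 : ℝ) ^ p.mN) ^ (-p.α) * 2 ^ p.m1 = X at *
  generalize √(2 ^ p.mN) = s at *
  rw [← hs2]
  have t1 : √(((p.L : ℝ) ^ 5 * (p.mb p.mN / (s * s)) * d + p.L ^ 5 * (p.mb p.mN / (s * s)) * d) *
      p.mb p.mN) ≤ p.L ^ 3 * d * p.mb p.mN / s := by
    refine Real.sqrt_le_iff.2 ⟨by positivity, ?_⟩
    have t2 : (2 : ℝ) ≤ p.L * d := by nlinarith
    calc _ = (p.L : ℝ) ^ 5 * d * (p.mb p.mN / s) ^ 2 * 2 := by field_simp; ring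
      _ ≤ (p.L : ℝ) ^ 5 * d * (p.mb p.mN / s) ^ 2 * (p.L * d) := by gcongr
      _ = _ := by field_simp
  have t3 : X * (160 * (p.L : ℝ) ^ 3) * s ≤ 1 := le_trans (by gcongr) hF
  calc _ ≤ 80 * d * (X * p.L) * (p.L ^ 3 * d * p.mb p.mN / s) := by gcongr
    _ = p.L * (p.mb p.mN / (s * s)) * 1 * d ^ 2 / 2 * (X * (160 * (p.L : ℝ) ^ 3) * s) := by
        field_simp; ring
    _ ≤ _ := mul_le_of_le_one_right (by positivity) t3

theorem second (hp : p.OK) (ha : p.Amb a) (hm : p.Mx b c a) {h : ℕ} (hh : 1 ≤ h)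
    (hg : p.GF b c a (2 * h)) {z : List St} (hz : z ∈ p.sh.kinks) (hO : 4 * h ≤ p.sh.Om (nd z)) :
    mB p.Kc a (p.ps b c z) h ≤ p.kz z * h := by
  obtain ⟨s, y, rfl⟩ := List.exists_cons_of_ne_nil (Sh.mem_kinks.1 hz).1.ne_nil
  have hv : s.nd :: y ∈ p.sh.nodes := Sh.nd_mem hz
  obtain ⟨-, w1, w2⟩ := p.nd_eq (s :: y)
  rw [nd_cons] at hO w1 w2
  set v := s.nd :: y with hvd
  have hO1 : (4 * h : ℝ) ≤ p.sh.Om v := by exact_mod_cast hO
  have hO2 : (4 * h : ℤ) ≤ p.sh.Om v := by exact_mod_cast hO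
  have hh1 : (1 : ℝ) ≤ h := by exact_mod_cast hh
  have hi := interior hp ha hm hg hv (by linarith)
  have hg' : p.GF b c a ((2 * h : ℕ) : ℝ) := by push_cast; exact hg
  have c1 : p.sh.Conf (mv c v (2 * h : ℕ)) :=
    hm.1.mv hv (by simp only [abs_eq_max_neg] at hi ⊢; omega)
  have c2 : p.sh.Conf (mv c v (-(2 * h : ℕ))) :=
    hm.1.mv hv (by simp only [abs_eq_max_neg] at hi ⊢; omega)
  have a1 := sec_ab hp ha hm.1 (d := 2 * h) (by omega) hg' hv (by omega)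
  have a2 := sec_nf hp ha hm.1 (d := 2 * h) (by omega) hg' hv (by omega)
  have m1 := hm.2 _ c1
  have m2 := hm.2 _ c2
  unfold Phi at m1 m2
  rw [pen_mv p c hv] at m1 m2
  rw [← abs_sn b] at a1
  have a3 := (abs_le.1 a1).1
  have a4 := (abs_le.1 a2).1
  have r1 : p.wz (s :: y) * (h * mB p.Kc a (p.ps b c (s :: y)) h) ≤
      p.Ram b (mv c v (2 * h : ℕ)) a + p.Ram b (mv c v (-(2 * h : ℕ))) a - 2 * p.Ram b c a := by
    unfold Ram
    rw [mul_sum, ← sum_add_distrib, ← sum_sub_distrib]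
    refine le_trans ?_ (single_le_sum (fun x _ => ?_) hz)
    · have hep := (Sh.mem_kinks.1 hz).1.hd_side.2.1
      have k := rq_own p.Kc a (xz_mem hp hz).1 (p.ps b c (s :: y)) (s.ep * (2 * h : ℕ))
        (h := h) (by linarith) (by rcases hep with e | e <;> simp [e])
      rw [ps_mv, ps_mv, hvd, sig_self, mul_neg, ← sub_eq_add_neg]
      nlinarith [mul_le_mul_of_nonneg_left k (wz_pos hp (s :: y)).le]
    · have k := rq_conv p.Kc a (top x).ep (p.ps b c x) (sig v x * (2 * h : ℕ))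
      rw [ps_mv, ps_mv, mul_neg, ← sub_eq_add_neg]
      nlinarith [mul_nonneg (wz_pos hp x).le k]
  have hk := ko_le hp (mem_filter.1 hv).1
  rw [w2] at hk
  rw [w1] at m1 m2 a3 a4
  have hw := wz_pos hp (s :: y)
  have r2 : p.wz (s :: y) * (h * mB p.Kc a (p.ps b c (s :: y)) h) ≤
      p.wz (s :: y) * (h * (8 * p.ko v * h)) := by
    push_cast at m1 m2 a3 a4 r1
    nlinarith
  have r3 := le_of_mul_le_mul_left (le_of_mul_le_mul_left r2 hw) (show (0 : ℝ) < h by linarith)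
  exact r3.trans (mul_le_mul_of_nonneg_right hk (by linarith))

theorem tail_case (hp : p.OK) (ha : p.Amb a) (hc : p.sh.Conf c) {z : List St}
    (hz : z ∈ p.sh.kinks) {h r : ℝ} (hh : 2 ^ p.mz z ≤ (p.L : ℝ) ^ 5 * h)
    (hr : r ≤ 2 ^ p.mz z / 8) : mB p.Kc a (p.ps b c z) r ≤ p.kz z * h := by
  have hK : (0 : ℝ) < 2 ^ p.mz z := by positivity
  have hM := hp.mb_pos (p.mz z)
  have hL := hp.L_one
  have h0 : 0 ≤ h := by
    by_contra h1
    nlinarith [pow_pos (show (0 : ℝ) < p.L by linarith) 5]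
  refine (mW_le hp ha hc hz (by linarith)).trans
    (le_trans ?_ (mul_le_mul_of_nonneg_right (kz_ge hp z) h0))
  calc _ = p.mb (p.mz z) / 2 ^ p.mz z * 2 ^ p.mz z := by field_simp
    _ ≤ p.mb (p.mz z) / 2 ^ p.mz z * ((p.L : ℝ) ^ 5 * h) := by gcongr
    _ = _ := by ring

theorem good_step (hp : p.OK) (ha : p.Amb a) (hm : p.Mx b c a) {n : ℕ} (hn : 1 ≤ n)
    (hg : p.GF b c a (2 * n)) {z : List St} (hz : z ∈ p.sh.kinks) {r : ℝ} (h1 : r ≤ n)
    (h2 : r ≤ 2 ^ p.mz z / 8) : mB p.Kc a (p.ps b c z) r ≤ p.kz z * n := by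
  by_cases ht : 2 ^ p.mz z ≤ (p.L : ℝ) ^ 5 * n
  · exact tail_case hp ha hm.1 hz ht h2
  by_cases hO : 4 * n ≤ p.sh.Om (nd z)
  · exact (mB_mono _ _ (by simpa using h1)).trans (second hp ha hm hn hg hz hO)
  obtain ⟨s, y, rfl⟩ := List.exists_cons_of_ne_nil (Sh.mem_kinks.1 hz).1.ne_nil
  have hk : s.nd :: y ∈ p.sh.kinks := (mem_filter.1 (Sh.nd_mem hz)).1
  have hL := hp.L_one
  have hn1 : (1 : ℝ) ≤ n := by exact_mod_cast hn
  have hO1 : (p.sh.Om (s.nd :: y) : ℝ) < 4 * n := by exact_mod_cast not_le.1 hO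
  have hL3 : (512 : ℝ) ≤ p.L ^ 3 := le_trans (by linarith) (le_self_pow₀ (by linarith) (by norm_num))
  have hL2 : (1 : ℝ) ≤ p.L ^ 2 := one_le_pow₀ (by linarith)
  have hL5 : 512 * (p.L : ℝ) ^ 2 ≤ p.L ^ 5 := by nlinarith
  rw [not_le] at ht
  by_cases hr : Rt (s.nd :: y)
  · have e1 : (128 * p.sh.Om (s.nd :: y) : ℝ) = 2 ^ p.mN := by exact_mod_cast Om_rt hp hr
    have hy : y = [] := List.length_eq_zero_iff.1 (by simpa using hr.1)
    subst hy
    rw [mz_rt hp hz hr.2] at ht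
    nlinarith
  have e1 : (8 * p.sh.Om (s.nd :: y) : ℝ) = 2 ^ s.j := by exact_mod_cast Om_nr hp hk hr
  by_cases hy : y = []
  · subst hy
    rw [K_top] at ht
    nlinarith
  have hyk : y ∈ p.sh.kinks := suf_mem (l := [s]) hz hy
  have m1 : p.mz (s :: y) = p.mz y := by unfold mz; rw [top_cons _ hy]
  have n1 := (near0 (b := b) hp hm.1 hz hy).trans (min_le_left _ _)
  have n2 := near_top (b := b) (l := [s]) hp hm.1 hz hy
  have w0 : (0 : ℝ) ≤ s.w := by positivity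
  simp only [List.cons_append, List.nil_append, hd_cons] at n2
  rw [m1] at ht
  have g := hg y hyk (161 * p.L * n) (|(p.ps b c (s :: y) : ℝ) - p.ps b c y| + r) (by nlinarith)
    (by nlinarith) (by nlinarith)
  refine (mB_mono _ _ le_rfl).trans (g.trans ?_)
  rw [kz_cons p s hy]
  nlinarith [mul_pos (kz_pos hp y) (show (0 : ℝ) < p.L * n by positivity)]

theorem mB_floor (Kc : ℕ) (a : ℤ → ℂ) (z : ℤ) {r : ℝ} {n : ℕ} (h : r < n + 1) :
    mB Kc a z r ≤ mB Kc a z n := by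
  refine sum_le_sum_of_subset_of_nonneg (fun k hk => ?_) fun _ _ _ => by positivity
  rw [mem_filter] at hk ⊢
  refine ⟨hk.1, ?_⟩
  have h1 : |k - z| < (n : ℤ) + 1 := by exact_mod_cast hk.2.trans_lt h
  have h2 : |k - z| ≤ (n : ℤ) := by omega
  exact_mod_cast h2

theorem good (hp : p.OK) (ha : p.Amb a) (hm : p.Mx b c a) : p.GF b c a 1 := by
  have hL := hp.L_one
  have key : ∀ k n : ℕ, 1 ≤ n → 2 ^ p.mH ≤ n + k → p.GF b c a n := by
    intro k
    induction k with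
    | zero =>
      intro n hn h z hz H r h1 _ h3
      refine tail_case hp ha hm.1 hz ?_ h3
      have h4 : 2 ^ p.mz z ≤ n := (Nat.pow_le_pow_right (by norm_num) (mz_mem hp hz).2).trans h
      have h5 : (2 : ℝ) ^ p.mz z ≤ n := by exact_mod_cast h4
      have h6 : (1 : ℝ) ≤ p.L ^ 5 := one_le_pow₀ (by linarith)
      have h7 : (0 : ℝ) ≤ n := by positivity
      nlinarith
    | succ k ih =>
      intro n hn h z hz H r h1 h2 h3
      have g1 := ih (n + 1) (by omega) (by omega)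
      have hn1 : (1 : ℝ) ≤ n := by exact_mod_cast hn
      by_cases h4 : (n : ℝ) + 1 ≤ H
      · exact g1 z hz H r (by push_cast; exact h4) h2 h3
      have g2 : p.GF b c a (2 * n) := fun x hx H' r' k1 k2 k3 =>
        g1 x hx H' r' (by push_cast; linarith) k2 k3
      refine le_trans ?_ (mul_le_mul_of_nonneg_left h1 (kz_pos hp z).le)
      rcases le_total r n with h5 | h5
      · exact good_step hp ha hm hn g2 hz h5 h3
      · exact (mB_floor _ _ _ (by linarith)).trans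
          (good_step hp ha hm hn g2 hz le_rfl (h5.trans h3))
  simpa using key (2 ^ p.mH) 1 le_rfl (by omega)

end Par

end

end Pool.Agent.Lib.MMTX
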