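import Pool.Agent.Lib.MP_0dc93f_an.X.TMov
import Pool.Agent.Lib.MP_0dc93f_an.X.TMo
import Pool.Agent.Lib.MP_0dc93f_an.X.TRmp

/-! Interior step for nodes below the top. -/

namespace Pool.Agent.Lib.MMTX

open Finset MMTW

noncomputable section

namespace Par

variable {p : Par} {a : ℤ → ℂ} {b : Bool} {c : List St → ℤ}

theorem suf_mem {l y : List St} (h : l ++ y ∈ p.sh.kinks) (hy : y ≠ []) : y ∈ p.sh.kinks := by
  rw [Sh.mem_kinks] at h ⊢
  refine ⟨h.1.of_append hy, ?_⟩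
  have := h.2
  simp only [List.length_append] at this; omega

theorem near_top (hp : p.OK) (hc : p.sh.Conf c) {l y : List St} (h : l ++ y ∈ p.sh.kinks)
    (hy : y ≠ []) :
    |(p.ps b c (l ++ y) : ℝ) - p.ps b c y| + (hd (l ++ y)).w ≤ 2 ^ p.mz y / 256 := by
  have h1 := Sh.ext_top (y0 := p.y0 b) hp.fine hc h hy
  have e : p.sh.K (top y).j = 2 ^ p.mz y := rfl
  rw [e] at h1
  have h2 : (256 * (|(p.ps b c (l ++ y) : ℝ) - p.ps b c y| + (hd (l ++ y)).w) : ℝ) ≤
      2 ^ p.mz y := by exact_mod_cast h1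
  linarith

theorem near (hp : p.OK) (hc : p.sh.Conf c) {l : List St} {s : St} {y : List St}
    (h : l ++ s :: y ∈ p.sh.kinks) (hy : y ≠ []) :
    |(p.ps b c (l ++ s :: y) : ℝ) - p.ps b c y| + (hd (l ++ s :: y)).w ≤
      min (p.B * 2 ^ s.j) (2 ^ p.mz y / 8) := by
  refine le_min ?_ ?_
  · have h1 := Sh.ext_loc (y0 := p.y0 b) hp.fine hc h hy
    have h2 : |(p.ps b c (l ++ s :: y) : ℝ) - p.ps b c y| + (hd (l ++ s :: y)).w ≤
        5 * p.L * p.G * 2 ^ (p.c0 * p.G) * 2 ^ s.j := by exact_mod_cast h1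
    exact h2.trans (mul_le_mul_of_nonneg_right hp.ext_B (by positivity))
  · have e : l ++ s :: y = (l ++ [s]) ++ y := by simp
    rw [e] at h ⊢
    have h1 := near_top (b := b) hp hc h hy
    have : (0 : ℝ) < 2 ^ p.mz y := by positivity
    linarith

theorem near0 (hp : p.OK) (hc : p.sh.Conf c) {s : St} {y : List St}
    (h : s :: y ∈ p.sh.kinks) (hy : y ≠ []) :
    |(p.ps b c (s :: y) : ℝ) - p.ps b c y| + s.w ≤
      min (5 * p.L * 2 ^ s.j : ℝ) (2 ^ p.mz y / 8) := by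
  refine le_min ?_ ((near (l := []) hp hc h hy).trans (min_le_right _ _))
  have h1 := Sh.step_le (y0 := p.y0 b) hp.fine hc (Sh.mem_kinks.1 h).1 hy
  exact_mod_cast h1

theorem GF.min_le {h0 : ℝ} (hg : p.GF b c a h0) {y : List St} (hy : y ∈ p.sh.kinks) {H : ℝ}
    (hH : h0 ≤ H) : mB p.Kc a (p.ps b c y) (min H (2 ^ p.mz y / 8)) ≤ p.kz y * H :=
  hg y hy H _ hH (min_le_left _ _) (min_le_right _ _)

theorem ps_mv_par (p : Par) (b : Bool) (c : List St → ℤ) (s : St) (y : List St) (d : ℤ) :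
    p.ps b (mv c (s :: y) d) y = p.ps b c y := by
  rw [ps_mv, sig_short (by simp), zero_mul, add_zero]

theorem int_ram_loc (hp : p.OK) (hc : p.sh.Conf c) {h0 : ℝ} (hg : p.GF b c a h0) {s : St}
    {y : List St} (hy : y ≠ []) (hv : s.nd :: y ∈ p.sh.kinks) (hh : h0 ≤ 2 ^ s.j) {d : ℤ}
    (hd : p.sh.Conf (mv c (s.nd :: y) d)) :
    |p.Ram b (mv c (s.nd :: y) d) a - p.Ram b c a| ≤
      16 * p.L * 2 ^ s.j * p.kz y * p.wz (s.nd :: y) * |(d : ℝ)| := by
  set v := s.nd :: y with hvd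
  set F : List St → ℝ := fun z => p.wz z * (Rq p.Kc a (rmp (top z).ep (p.ps b (mv c v d) z)) -
    Rq p.Kc a (rmp (top z).ep (p.ps b c z))) with hF
  set S := p.sh.kinks.filter fun z => sig v z ≠ 0 with hS
  have hyk : y ∈ p.sh.kinks := suf_mem (l := [s.nd]) hv hy
  have hL := hp.L_one
  have hB := hp.B_one
  have hu : (0 : ℝ) < 2 ^ s.j := by positivity
  have hky := kz_pos hp y
  have hwv := wz_pos hp v
  have e1 : p.Ram b (mv c v d) a - p.Ram b c a = ∑ z ∈ S, F z := by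
    unfold Ram
    rw [← sum_sub_distrib, hS, sum_filter]
    refine sum_congr rfl fun z _ => ?_
    split_ifs with h
    · simp only [hF]; ring
    · rw [ps_mv, not_not.1 h, zero_mul, add_zero, sub_self]
  have dec : ∀ z ∈ S, ∃ l s', z = l ++ s' :: y ∧ s'.nd = s.nd ∧ l ++ s' :: y ∈ p.sh.kinks ∧
      l ++ s'.fl :: y ∈ p.sh.kinks := by
    intro z hz
    obtain ⟨h1, h2⟩ := mem_filter.1 hz
    obtain ⟨l, s', y', rfl, e⟩ := sig_ne h2
    obtain ⟨e1, rfl⟩ := List.cons.inj e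
    refine ⟨l, s', rfl, e1.symm, h1, ?_⟩
    rw [Sh.mem_kinks] at h1 ⊢
    exact ⟨h1.1.swap (h1.1.of_append (by simp)).fl rfl, by simpa using h1.2⟩
  have hin : ∀ z ∈ S, flp v z ∈ S ∧ flp v (flp v z) = z := by
    intro z hz
    obtain ⟨l, s', rfl, e, h1, h2⟩ := dec z hz
    have f1 : flp v (l ++ s' :: y) = l ++ s'.fl :: y := by rw [hvd, ← e, flp_append]
    have f2 : flp v (l ++ s'.fl :: y) = l ++ s' :: y := by
      rw [hvd, ← e, ← St.fl_nd, flp_append, St.fl_fl]
    refine ⟨mem_filter.2 ⟨f1 ▸ h2, ?_⟩, by rw [f1, f2]⟩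
    rw [f1, hvd, ← e, ← St.fl_nd, sig_append]
    have := ((Sh.mem_kinks.1 h2).1.of_append (by simp)).hd_side.2.1
    omega
  have e2 : ∑ z ∈ S, F (flp v z) = ∑ z ∈ S, F z :=
    sum_nbij' (flp v) (flp v) (fun z hz => (hin z hz).1) (fun z hz => (hin z hz).1)
      (fun z hz => (hin z hz).2) (fun z hz => (hin z hz).2) fun _ _ => rfl
  set A : ℝ := 2 ^ s.j * p.kz y * p.wz v * |(d : ℝ)| with hA
  have hA0 : 0 ≤ A := by positivity
  have hb : ∀ z ∈ S, |F z + F (flp v z)| ≤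
      (if z.length = v.length then 5 * p.L * A else 0) + p.η * p.B * A := by
    intro z hz
    obtain ⟨l, s', rfl, e, h1, h2⟩ := dec z hz
    have hj : s'.j = s.j := show s'.nd.j = s.nd.j from congrArg St.j e
    have f1 : flp v (l ++ s' :: y) = l ++ s'.fl :: y := by rw [hvd, ← e, flp_append]
    have t1 : top (l ++ s' :: y) = top y := by rw [top_append _ (by simp), top_cons _ hy]
    have t2 : top (l ++ s'.fl :: y) = top y := by rw [top_append _ (by simp), top_cons _ hy]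
    have g1 : sig v (l ++ s' :: y) = s'.ep := by rw [hvd, ← e, sig_append]
    have g2 : sig v (l ++ s'.fl :: y) = -s'.ep := by rw [hvd, ← e, ← St.fl_nd, sig_append]; rfl
    have w2 : p.wz (l ++ s'.fl :: y) = p.wz (l ++ s' :: y) := 
      (p.lab_eq l (s := s') (s' := s'.fl) y rfl rfl).2.1
    have hep := ((Sh.mem_kinks.1 h1).1.of_append (by simp)).hd_side.2.1
    have hed : |((s'.ep * d : ℤ) : ℝ)| = |(d : ℝ)| := by
      rcases hep with h | h <;> simp [h]
    have pair : ∀ r : ℝ, (∀ c', p.sh.Conf c' → ∀ t : St, t.j = s.j → l ++ t :: y ∈ p.sh.kinks →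
        |(p.ps b c' (l ++ t :: y) : ℝ) - p.ps b c' y| ≤ r) →
        |F (l ++ s' :: y) + F (flp v (l ++ s' :: y))| ≤
          p.wz (l ++ s' :: y) * (|(d : ℝ)| * mB p.Kc a (p.ps b c y) r) := by
      intro r hr
      have a1 := hr c hc s' hj h1
      have a2 := hr _ hd s' hj h1
      have a3 := hr c hc s'.fl hj h2
      have a4 := hr _ hd s'.fl hj h2
      rw [hvd, ps_mv_par, ← hvd, ps_mv, g1] at a2
      rw [hvd, ps_mv_par, ← hvd, ps_mv, g2, neg_mul, ← sub_eq_add_neg] at a4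
      have k := rq_pair p.Kc a (xz_mem hp hyk).1 (e := s'.ep * d) a1 (by exact_mod_cast a2) a3
        (by exact_mod_cast a4)
      rw [hed] at k
      simp only [hF, f1, t1, t2, w2, ps_mv, g1, g2, neg_mul, ← sub_eq_add_neg]
      rw [← mul_add, abs_mul, abs_of_pos (wz_pos hp _)]
      exact mul_le_mul_of_nonneg_left k (wz_pos hp _).le
    have hη : 0 ≤ p.η * p.B * A := by have := hp.h0; positivity
    split_ifs with hl
    · obtain rfl : l = [] := List.length_eq_zero_iff.1 (by simpa [hvd] using hl)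
      have k := pair (min (5 * p.L * 2 ^ s.j) (2 ^ p.mz y / 8)) fun c' hc' t ht hk => by
        have := near0 (b := b) hp hc' hk hy
        rw [ht] at this
        have h0 : (0 : ℝ) ≤ t.w := by positivity
        exact le_trans (by simp only [List.nil_append]; linarith) this
      have k2 := hg.min_le hyk (H := 5 * p.L * 2 ^ s.j) (by nlinarith)
      have w3 : p.wz ([] ++ s' :: y) = p.wz v :=
        (p.lab_eq [] (s := s.nd) y hj (show s'.nd.n = s.nd.n from congrArg St.n e)).2.1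
      rw [w3] at k
      have k3 := mul_le_mul_of_nonneg_left k2 (mul_nonneg hwv.le (abs_nonneg (d : ℝ)))
      calc _ ≤ p.wz v * |(d : ℝ)| * (p.kz y * (5 * p.L * 2 ^ s.j)) := by linarith
        _ = 5 * p.L * A := by rw [hA]; ring
        _ ≤ _ := by linarith
    · have k := pair (min (p.B * 2 ^ s.j) (2 ^ p.mz y / 8)) fun c' hc' t ht hk => by
        have := near (b := b) hp hc' hk hy
        rw [ht] at this
        have h0 : (0 : ℝ) ≤ (MMTX.hd (l ++ t :: y)).w := by positivity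
        linarith
      have k2 := hg.min_le hyk (H := p.B * 2 ^ s.j) (by nlinarith)
      have hm := mov_mz (p := p) (mem_filter.1 hz).2
      have w3 := wz_lt hp hv hm.1 (lt_of_le_of_ne hm.2 (Ne.symm hl))
      have k3 := mul_le_mul w3 (mul_le_mul_of_nonneg_left k2 (abs_nonneg (d : ℝ)))
        (mul_nonneg (abs_nonneg _) (mB_nonneg _ _ _ _)) (by have := hp.h0; positivity)
      calc _ ≤ _ := k.trans k3
        _ = _ := by rw [hA]; ring
  have h1 : |2 * ∑ z ∈ S, F z| ≤ 6 * (5 * p.L * A) + p.B * (p.η * p.B * A) := by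
    rw [two_mul]
    nth_rewrite 2 [← e2]
    rw [← sum_add_distrib]
    refine (abs_sum_le_sum_abs _ _).trans ((sum_le_sum hb).trans ?_)
    rw [sum_add_distrib, ← sum_filter, sum_const, sum_const, nsmul_eq_mul, nsmul_eq_mul]
    have c1 : ((S.filter fun z => z.length = v.length).card : ℝ) ≤ 6 := by
      rw [hS, filter_filter]; exact_mod_cast p.card_own v
    have c2 : (S.card : ℝ) ≤ p.B :=
      le_trans (by exact_mod_cast card_le_card (filter_subset _ _)) (card_K hp)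
    have := hp.h0
    gcongr
  have h2 := mul_le_mul_of_nonneg_right (hp.η_B (n := 2) (by norm_num)) hA0
  rw [abs_mul, abs_two] at h1
  rw [e1]
  have h3 : A ≤ p.L * A := le_mul_of_one_le_left hA0 (by linarith)
  calc _ ≤ 16 * (p.L * A) := by nlinarith
    _ = _ := by rw [hA]; ring

theorem int_ab_loc (hp : p.OK) (hc : p.sh.Conf c) {h0 : ℝ} (hg : p.GF b c a h0) {s : St}
    {y : List St} (hy : y ≠ []) (hv : s.nd :: y ∈ p.sh.kinks) (hh : h0 ≤ 2 ^ s.j) {d : ℤ}
    (hd : p.sh.Conf (mv c (s.nd :: y) d)) :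
    |p.Ab b (mv c (s.nd :: y) d) a - p.Ab b c a| ≤
      p.kz y * p.wz (s.nd :: y) * (2 ^ s.j) ^ 2 := by
  set v := s.nd :: y with hvd
  have hyk : y ∈ p.sh.kinks := suf_mem (l := [s.nd]) hv hy
  have hL := hp.L_one
  have hB := hp.B_one
  have hu : (0 : ℝ) < 2 ^ s.j := by positivity
  have hky := kz_pos hp y
  have hwv := wz_pos hp v
  set X : ℝ := p.kz y * (p.B * 2 ^ s.j) with hX
  have hX0 : 0 ≤ X := by positivity
  have mass : ∀ c', p.sh.Conf c' → p.ps b c' y = p.ps b c y → ∀ z ∈ p.sh.kinks,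
      (∃ l s', z = l ++ s' :: y ∧ s'.j = s.j) → mW p.Kc a (p.win b c' z) ≤ X := by
    rintro c' hc' e z hz ⟨l, s', rfl, hj⟩
    have h1 := near (b := b) hp hc' hz hy
    rw [hj, e] at h1
    exact (mB_mono _ _ h1).trans (hg.min_le hyk (by nlinarith))
  have hb : ∀ q ∈ p.pairs, |p.Wq q * Mo p.Kc a (p.tq q) (p.win b (mv c v d) q.1)
      (p.win b (mv c v d) q.2) - p.Wq q * Mo p.Kc a (p.tq q) (p.win b c q.1) (p.win b c q.2)| *
      p.B ≤ p.kz y * p.wz v * (2 ^ s.j) ^ 2 := by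
    intro q hq
    by_cases hm : sig v q.1 ≠ 0 ∨ sig v q.2 ≠ 0
    · obtain ⟨hl, u1, u2⟩ := mov_loc hy hq hm
      obtain ⟨⟨k1, k2⟩, -⟩ := mem_pairs.1 hq
      have hW := Wq_pos hp q
      have one : ∀ c', p.sh.Conf c' → p.ps b c' y = p.ps b c y →
          |Mo p.Kc a (p.tq q) (p.win b c' q.1) (p.win b c' q.2)| ≤ 2 * (2 * p.L) * (X * X) := by
        intro c' hc' e
        obtain ⟨w1, -, w3, -⟩ := w_le hp k1
        have w4 : 1 ≤ (MMTX.hd q.1).w := le_trans (Nat.one_le_iff_ne_zero.2 (by positivity)) w1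
        have w5 : (MMTX.hd q.1).w ≤ 2 ^ p.mH := by
          refine le_trans ?_ (w3.trans (Nat.pow_le_pow_right (by norm_num) (mz_mem hp k1).2))
          exact Nat.le_mul_of_pos_left _ (by have := p.sh.L_pos; exact Nat.mul_pos (by norm_num) this)
        have w6 : ((MMTX.hd q.1).w : ℝ) ≤ 2 ^ p.mH := by exact_mod_cast w5
        have w7 : (1 : ℝ) ≤ (MMTX.hd q.1).w := by exact_mod_cast w4
        refine (mo_triv p.Kc a (tq_pos hp q).le (p.win b c' q.1) _ w4
          (hp.lg_le (x := 2 * (MMTX.hd q.1).w) (by linarith) (by linarith))).trans ?_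
        exact mul_le_mul_of_nonneg_left (mul_le_mul (mass c' hc' e _ k1 u1) (mass c' hc' e _ k2 u2)
          (mW_nonneg _ _ _) hX0) (by positivity)
      have a1 := one _ hd (ps_mv_par p b c _ y d)
      have a2 := one c hc rfl
      obtain ⟨l, s', e, hj⟩ := u1
      have m1 : p.mz q.1 = p.mz y := by
        rw [e]; unfold mz; rw [top_append _ (by simp), top_cons _ hy]
      have m2 : p.mz v = p.mz y := by unfold mz; rw [hvd, top_cons _ hy]
      have a3 := Wq_loc hp hq hl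
      have a4 : p.wz q.1 ≤ p.wz v :=
        wz_le hp hv (pair_nr hq).1 (m1.trans m2.symm) (by rw [e, hvd]; simp)
      have a5 : p.kz y ≤ p.kp (p.mz q.1) := m1 ▸ kz_le hp hyk
      have a6 : p.Wq q * p.kz y * p.B ^ 5 ≤ p.L * p.wz v := by
        refine le_trans ?_ (a3.trans (mul_le_mul_of_nonneg_left a4 (by positivity)))
        gcongr
      have a7 : 8 * (p.L : ℝ) ^ 2 ≤ p.B ^ 2 := by
        have h1 : (p.L : ℝ) ^ 3 ≤ p.L ^ 60 := pow_le_pow_right₀ (by linarith) (by norm_num)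
        have h2 := hp.L_B
        nlinarith [sq_nonneg (p.L : ℝ)]
      rw [← mul_sub, abs_mul, abs_of_pos hW]
      have a8 := (abs_sub _ _).trans (add_le_add a1 a2)
      refine le_of_mul_le_mul_right ?_ (show 0 < p.B ^ 2 by positivity)
      calc _ ≤ p.Wq q * (2 * (2 * p.L) * (X * X) + 2 * (2 * p.L) * (X * X)) * p.B * p.B ^ 2 := by
            gcongr
        _ = 8 * p.L * (p.kz y * (2 ^ s.j) ^ 2) * (p.Wq q * p.kz y * p.B ^ 5) := by rw [hX]; ring
        _ ≤ 8 * p.L * (p.kz y * (2 ^ s.j) ^ 2) * (p.L * p.wz v) := by gcongr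
        _ = p.kz y * p.wz v * (2 ^ s.j) ^ 2 * (8 * p.L ^ 2) := by ring
        _ ≤ _ := by gcongr
    · rw [not_or, not_not, not_not] at hm
      rw [win_mv, win_mv, hm.1, hm.2]
      simp only [Win.sh, zero_mul, add_zero, sub_self, abs_zero]
      positivity
  unfold Ab
  rw [← sum_sub_distrib]
  refine le_of_mul_le_mul_right ?_ (show 0 < p.B by linarith)
  refine (mul_le_mul_of_nonneg_right (abs_sum_le_sum_abs _ _) (by linarith)).trans ?_
  rw [sum_mul]
  refine (sum_le_card_nsmul _ _ _ hb).trans ?_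
  rw [nsmul_eq_mul, mul_comm]
  exact mul_le_mul_of_nonneg_left (card_P hp) (by positivity)

end Par

end

end Pool.Agent.Lib.MMTX
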