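import Pool.Agent.Lib.MP_0dc93f_an.X.TNum
import Pool.Agent.Lib.MP_0dc93f_an.X.Win

/-! The tree of kinks: the gains, and masses of balls. -/

namespace Pool.Agent.Lib.MMTX

open Finset MMTW

noncomputable section

namespace Par

variable {p : Par} {a : ℤ → ℂ} {b : Bool} {c : List St → ℤ}

theorem OK.key_base (hp : p.OK) {m : ℕ} (h : p.m0 ≤ m) :
    p.mb m * ((2 : ℝ) ^ m) ^ (1 - p.α) * p.B ^ 30 ≤
      p.B ^ 31 * ((2 : ℝ) ^ m) ^ (-(2 * p.α - 1)) := by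
  have hx : (0 : ℝ) < 2 ^ m := by positivity
  have h4 : (2 : ℝ) ^ 4 ≤ 2 ^ m := pow_le_pow_right₀ (by norm_num) (by have := hp.m01; omega)
  have h1 : ((2 : ℝ) ^ m / 16) ^ (-p.β) ≤ ((2 : ℝ) ^ m / 16) ^ (-p.α) :=
    Real.rpow_le_rpow_of_exponent_le (by rw [le_div_iff₀ (by norm_num)]; linarith)
      (by linarith [hp.b1])
  have h2 : ((2 : ℝ) ^ m / 16) ^ (-p.α) ≤ 16 * ((2 : ℝ) ^ m) ^ (-p.α) := by
    rw [Real.div_rpow hx.le (by norm_num), Real.rpow_neg (by norm_num : (0 : ℝ) ≤ 16),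
      div_inv_eq_mul, mul_comm]
    refine mul_le_mul_of_nonneg_right ?_ (by positivity)
    calc (16 : ℝ) ^ p.α ≤ 16 ^ (1 : ℝ) :=
          Real.rpow_le_rpow_of_exponent_le (by norm_num) hp.a2.le
      _ = 16 := Real.rpow_one _
  have h3 : p.E * 16 ≤ p.B := by
    have h5 : (2 : ℝ) ^ 4 ≤ p.L :=
      le_trans (pow_le_pow_right₀ (by norm_num) (by norm_num)) hp.L_one
    calc p.E * 16 ≤ p.L * p.L := mul_le_mul hp.e2 (by linarith) (by norm_num) (by positivity)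
      _ = (p.L : ℝ) ^ 2 := by ring
      _ ≤ (p.L : ℝ) ^ 60 := pow_le_pow_right₀ hp.L_ge (by norm_num)
      _ ≤ _ := hp.L_B
  have h6 : p.mb m ≤ p.B * ((2 : ℝ) ^ m) ^ (-p.α) :=
    calc p.mb m ≤ p.E * (16 * ((2 : ℝ) ^ m) ^ (-p.α)) :=
          mul_le_mul_of_nonneg_left (h1.trans h2) (by linarith [hp.e1])
      _ = p.E * 16 * ((2 : ℝ) ^ m) ^ (-p.α) := by ring
      _ ≤ _ := mul_le_mul_of_nonneg_right h3 (by positivity)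
  have hB : 0 ≤ p.B := by linarith [hp.B_one]
  have e : ((2 : ℝ) ^ m) ^ (-(2 * p.α - 1)) =
      ((2 : ℝ) ^ m) ^ (-p.α) * ((2 : ℝ) ^ m) ^ (1 - p.α) := by
    rw [← Real.rpow_add hx]; congr 1; ring
  calc _ ≤ p.B * ((2 : ℝ) ^ m) ^ (-p.α) * ((2 : ℝ) ^ m) ^ (1 - p.α) * p.B ^ 30 := by gcongr
    _ = _ := by rw [e]; ring

theorem OK.pw_anti (hp : p.OK) {m m' : ℕ} (h : m ≤ m') :
    ((2 : ℝ) ^ m') ^ (-(2 * p.α - 1)) ≤ ((2 : ℝ) ^ m) ^ (-(2 * p.α - 1)) :=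
  Real.rpow_le_rpow_of_nonpos (by positivity) (pow_le_pow_right₀ (by norm_num) h)
    (by linarith [hp.a1])

theorem OK.B_m0 (hp : p.OK) {n : ℕ} (hn : n ≤ 200) : p.B ^ n ≤ 2 ^ p.m0 := by
  have hB : 0 ≤ p.B := by linarith [hp.B_one]
  have h0 := hp.h0
  have h1 : (p.η * p.B ^ 100) ^ 2 ≤ 1 := pow_le_one₀ (by positivity) hp.h1
  calc p.B ^ n ≤ p.B ^ 200 := pow_le_pow_right₀ hp.B_one hn
    _ ≤ p.η ^ 2 * 2 ^ p.m0 * p.B ^ 200 := le_mul_of_one_le_left (by positivity) hp.h3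
    _ = (p.η * p.B ^ 100) ^ 2 * 2 ^ p.m0 := by ring
    _ ≤ _ := mul_le_of_le_one_left (by positivity) h1

theorem OK.key0 (hp : p.OK) {m : ℕ} (h : p.m0 ≤ m) :
    p.mb m * ((2 : ℝ) ^ m) ^ (1 - p.α) * p.B ^ 30 ≤ p.η ^ 3 := by
  have hB : 0 ≤ p.B := by linarith [hp.B_one]
  calc _ ≤ p.B ^ 31 * ((2 : ℝ) ^ m) ^ (-(2 * p.α - 1)) := hp.key_base h
    _ ≤ p.B ^ 31 * p.η ^ 4 :=
        mul_le_mul_of_nonneg_left ((hp.pw_anti h).trans hp.h2) (by positivity)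
    _ = p.η * p.B ^ 31 * p.η ^ 3 := by ring
    _ ≤ _ := mul_le_of_le_one_left (pow_pos hp.h0 3).le (hp.η_B (by norm_num))

theorem OK.key1 (hp : p.OK) {m : ℕ} (h : p.m0 ≤ m) :
    p.zz m * (p.mb m * ((2 : ℝ) ^ m) ^ (1 - p.α)) * p.B ^ 30 ≤ p.θ := by
  have hB : 0 ≤ p.B := by linarith [hp.B_one]
  have hρ : 0 < p.ρ := lt_of_lt_of_le one_pos hp.ρ_one
  have h0 := hp.h0
  rw [mul_assoc]
  unfold zz θ
  split_ifs with h1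
  · rw [div_mul_eq_mul_div, one_mul]
    refine div_le_div_of_nonneg_right ((hp.key0 h).trans ?_) hρ.le
    exact pow_le_pow_of_le_one h0.le hp.η_le (by norm_num)
  · have h2 : ((2 : ℝ) ^ m) ^ (-(2 * p.α - 1)) ≤ (((2 : ℝ) ^ p.m0) ^ 8)⁻¹ := by
      refine (hp.pw_anti (not_le.1 h1).le).trans ?_
      rw [Real.rpow_neg (by positivity)]
      exact inv_anti₀ (by positivity) hp.r1
    have h3 : p.mb m * ((2 : ℝ) ^ m) ^ (1 - p.α) * p.B ^ 30 ≤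
        2 ^ p.m0 * (((2 : ℝ) ^ p.m0) ^ 8)⁻¹ :=
      (hp.key_base h).trans (mul_le_mul (hp.B_m0 (by norm_num)) h2 (by positivity) (by positivity))
    rw [le_div_iff₀ hρ]
    calc _ ≤ p.ρ ^ 2 * (2 ^ p.m0 * (((2 : ℝ) ^ p.m0) ^ 8)⁻¹) * p.ρ := by gcongr
      _ = ((2 : ℝ) ^ p.m0)⁻¹ := by unfold ρ; field_simp
      _ ≤ _ := by rw [inv_le_iff_one_le_mul₀ (by positivity)]; exact hp.h3

theorem OK.keyN (hp : p.OK) :
    p.mb p.mN * ((2 : ℝ) ^ p.mN) ^ (1 - p.α) * p.B ^ 30 ≤ p.η * p.θ := by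
  have hB : 0 ≤ p.B := by linarith [hp.B_one]
  have h0 := hp.h0
  have hm := hp.m02
  have hn := hp.m03
  have hx : (1 : ℝ) ≤ 2 ^ p.m0 := one_le_pow₀ (by norm_num)
  have h1 : ((2 : ℝ) ^ p.m0) ^ 5 ≤ ((2 : ℝ) ^ p.m1) ^ 16 :=
    (pow_le_pow_right₀ hx (by norm_num)).trans
      (pow_le_pow_left₀ (by positivity) (pow_le_pow_right₀ (by norm_num) (by omega)) 16)
  have h2 : ((2 : ℝ) ^ p.mN) ^ (-(2 * p.α - 1)) ≤ (((2 : ℝ) ^ p.m0) ^ 5)⁻¹ := by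
    rw [Real.rpow_neg (by positivity)]
    exact inv_anti₀ (by positivity) (h1.trans hp.r2)
  have h3 : ((2 : ℝ) ^ p.m0)⁻¹ ≤ p.η ^ 2 := by
    rw [inv_le_iff_one_le_mul₀ (by positivity)]; exact hp.h3
  have h4 : (((2 : ℝ) ^ p.m0)⁻¹) ^ 2 ≤ p.η ^ 3 :=
    (pow_le_pow_left₀ (by positivity) h3 2).trans
      (by rw [← pow_mul]; exact pow_le_pow_of_le_one h0.le hp.η_le (by norm_num))
  calc _ ≤ 2 ^ p.m0 * (((2 : ℝ) ^ p.m0) ^ 5)⁻¹ :=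
        (hp.key_base (by omega)).trans
          (mul_le_mul (hp.B_m0 (by norm_num)) h2 (by positivity) (by positivity))
    _ = (((2 : ℝ) ^ p.m0)⁻¹) ^ 2 / (2 ^ p.m0) ^ 2 := by field_simp
    _ ≤ p.η ^ 3 / (2 ^ p.m0) ^ 2 := div_le_div_of_nonneg_right h4 (by positivity)
    _ = _ := by unfold θ ρ; ring

theorem OK.keyF (hp : p.OK) :
    ((2 : ℝ) ^ p.mN) ^ (-p.α) * 2 ^ p.m1 * p.B * √(2 ^ p.mN) ≤ 1 := by
  have hB : 0 ≤ p.B := by linarith [hp.B_one]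
  have hx : (0 : ℝ) < 2 ^ p.mN := by positivity
  have hy : (1 : ℝ) ≤ 2 ^ p.m1 := one_le_pow₀ (by norm_num)
  have h1 : p.B ≤ 2 ^ p.m1 := by
    have := hp.B_m0 (n := 1) (by norm_num)
    rw [pow_one] at this
    exact this.trans (pow_le_pow_right₀ (by norm_num) (by have := hp.m02; omega))
  have e : (((2 : ℝ) ^ p.mN) ^ (-p.α)) ^ 2 * 2 ^ p.mN = (((2 : ℝ) ^ p.mN) ^ (2 * p.α - 1))⁻¹ := by
    rw [← Real.rpow_neg hx.le, sq, ← Real.rpow_add hx, ← Real.rpow_add_one hx.ne']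
    congr 1; ring
  have h2 : (((2 : ℝ) ^ p.mN) ^ (2 * p.α - 1))⁻¹ ≤ (((2 : ℝ) ^ p.m1) ^ 4)⁻¹ :=
    inv_anti₀ (by positivity) ((pow_le_pow_right₀ hy (by norm_num)).trans hp.r2)
  refine (pow_le_one_iff_of_nonneg (by positivity) two_ne_zero).1 ?_
  calc _ = (((2 : ℝ) ^ p.mN) ^ (-p.α)) ^ 2 * √(2 ^ p.mN) ^ 2 * ((2 ^ p.m1) ^ 2 * p.B ^ 2) := by ring
    _ = (((2 : ℝ) ^ p.mN) ^ (2 * p.α - 1))⁻¹ * ((2 ^ p.m1) ^ 2 * p.B ^ 2) := by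
        rw [Real.sq_sqrt hx.le, e]
    _ ≤ (((2 : ℝ) ^ p.m1) ^ 4)⁻¹ * ((2 ^ p.m1) ^ 2 * (2 ^ p.m1) ^ 2) := by gcongr
    _ = 1 := by field_simp

theorem Amb.tail_le (ha : p.Amb a) (m : ℕ) : tail p.Kc a (2 ^ m / 16) ≤ p.mb m :=
  ha.tl _ (by positivity)

theorem Amb.mass_le (ha : p.Amb a) : ∑ k ∈ FF p.Kc, ‖a k‖ ^ 2 ≤ p.E := by
  have h := ha.tl 1 one_pos
  rw [Real.one_rpow, mul_one] at h
  refine le_trans (le_of_eq ?_) h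
  unfold tail
  rw [filter_true_of_mem fun k _ => show 1 ≤ br k from le_add_of_nonneg_right (abs_nonneg _)]

theorem Amb.mB_le (ha : p.Amb a) {m : ℕ} {z : ℤ} {r : ℝ} (h : 2 ^ m / 16 + r ≤ |(z : ℝ)|) :
    mB p.Kc a z r ≤ p.mb m := by
  refine le_trans ?_ (ha.tail_le m)
  refine sum_le_sum_of_subset_of_nonneg (fun k hk => ?_) fun _ _ _ => sq_nonneg _
  rw [mem_filter] at hk ⊢
  refine ⟨hk.1, ?_⟩
  have h1 := abs_sub_abs_le_abs_sub (z : ℝ) k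
  rw [abs_sub_comm] at h1
  unfold br
  linarith [hk.2]

end Par

end

end Pool.Agent.Lib.MMTX
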