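import Pool.Agent.Lib.MP_0dc93f_an.X.TPar

/-! The tree of kinks: numerical consequences of the parameter inequalities. -/

namespace Pool.Agent.Lib.MMTX

open Finset MMTW

noncomputable section

namespace Par

variable {p : Par} {a : ℤ → ℂ} {b : Bool} {c : List St → ℤ}

theorem OK.aa_pos (hp : p.OK) : 0 < p.α * (1 - p.α) :=
  mul_pos (by linarith [hp.a1]) (by linarith [hp.a2])

theorem OK.L_big (hp : p.OK) : 2 ^ 100 * 256 ^ p.G ≤ p.L := by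
  have h1 : p.α * (1 - p.α) ≤ 1 := by nlinarith [hp.a1, hp.a2]
  have h2 : (2 : ℝ) ^ 100 * 256 ^ p.G ≤ p.L :=
    hp.l1.trans (mul_le_of_le_one_right (Nat.cast_nonneg _) h1)
  exact_mod_cast h2

theorem OK.L_aa (hp : p.OK) : 1 ≤ (p.L : ℝ) * (p.α * (1 - p.α)) :=
  le_trans (one_le_mul_of_one_le_of_one_le (one_le_pow₀ (by norm_num))
    (one_le_pow₀ (by norm_num))) hp.l1

theorem OK.fine (hp : p.OK) : p.sh.Fine := by
  have hb := hp.L_big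
  have hG : p.G < 256 ^ p.G := Nat.lt_pow_self (by norm_num)
  have hL : p.sh.L = p.L := rfl
  have h1 := hp.m01
  have h2 := hp.m02
  have h3 := hp.m03
  have h4 := hp.m04
  have hl : 100 ≤ p.l := by
    have : 2 ^ 100 ≤ 2 ^ p.l := le_trans (Nat.le_mul_of_pos_right _ (by omega)) hb
    exact (Nat.pow_le_pow_iff_right (by norm_num)).1 this
  refine ⟨?_, ?_, hp.g2, fun j hj => ?_, ?_, ?_⟩
  · rw [hL]; exact le_trans (Nat.mul_le_mul_right _ (by norm_num)) hb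
  · rw [hL]; exact le_trans (Nat.mul_le_mul (by norm_num) hG) hb
  · simp only [sh, j1] at hj ⊢; omega
  · simp only [sh]; omega
  · simp only [sh]; omega

theorem OK.jN_eq (hp : p.OK) : p.sh.jN + 2 * p.l = p.mN := by
  have h1 := hp.m01
  have h2 := hp.m02
  have h3 := hp.m03
  simp only [sh]; omega

theorem OK.L_one (hp : p.OK) : (2 : ℝ) ^ 100 ≤ p.L := by
  have h : 2 ^ 100 ≤ p.L := le_trans (Nat.le_mul_of_pos_right _ (by positivity)) hp.L_big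
  exact_mod_cast h

theorem OK.L_ge (hp : p.OK) : (1 : ℝ) ≤ p.L := le_trans (one_le_pow₀ (by norm_num)) hp.L_one

theorem OK.L_B (hp : p.OK) : (p.L : ℝ) ^ 60 ≤ p.B :=
  le_trans (pow_le_pow_right₀ hp.L_ge (by have := hp.g1; omega)) hp.bB

theorem OK.B_one (hp : p.OK) : 1 ≤ p.B := le_trans (one_le_pow₀ hp.L_ge) hp.L_B

theorem OK.η_le (hp : p.OK) : p.η ≤ 1 :=
  le_trans (le_mul_of_one_le_right hp.h0.le (one_le_pow₀ hp.B_one)) hp.h1

theorem OK.η_B (hp : p.OK) {n : ℕ} (hn : n ≤ 100) : p.η * p.B ^ n ≤ 1 :=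
  le_trans (mul_le_mul_of_nonneg_left (pow_le_pow_right₀ hp.B_one hn) hp.h0.le) hp.h1

theorem OK.ρ_one (hp : p.OK) : 1 ≤ p.ρ := by
  have _ := hp.g1
  exact one_le_pow₀ (one_le_pow₀ (by norm_num))

theorem OK.θ_pos (hp : p.OK) : 0 < p.θ :=
  div_pos (pow_pos hp.h0 2) (lt_of_lt_of_le one_pos hp.ρ_one)

theorem OK.θ_le (hp : p.OK) : p.θ ≤ p.η := by
  refine (div_le_self (sq_nonneg _) hp.ρ_one).trans ?_
  nlinarith [hp.h0, hp.η_le]

theorem OK.ext_B (hp : p.OK) : (5 * p.L * p.G * 2 ^ (p.c0 * p.G) : ℝ) ≤ p.B := by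
  have h1 : 5 * p.L * p.G * 2 ^ (p.c0 * p.G) ≤ p.L ^ (p.G + 2) := by
    have e : 5 * p.L * p.G * 2 ^ (p.c0 * p.G) = (2 ^ p.c0) ^ p.G * (p.L * (5 * p.G)) := by
      rw [pow_mul]; ring
    rw [e, pow_add, sq]
    exact Nat.mul_le_mul (Nat.pow_le_pow_left hp.l4 _)
      (Nat.mul_le_mul_left _ (hp.g2.trans hp.l4))
  have h2 : (5 * p.L * p.G * 2 ^ (p.c0 * p.G) : ℝ) ≤ (p.L : ℝ) ^ (p.G + 2) := by exact_mod_cast h1
  exact h2.trans ((pow_le_pow_right₀ hp.L_ge (by omega)).trans hp.bB)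

theorem OK.mb_pos (hp : p.OK) (m : ℕ) : 0 < p.mb m :=
  mul_pos (by linarith [hp.e1]) (Real.rpow_pos_of_pos (by positivity) _)

theorem OK.mb_anti (hp : p.OK) {m m' : ℕ} (h : m ≤ m') : p.mb m' ≤ p.mb m := by
  refine mul_le_mul_of_nonneg_left ?_ (by linarith [hp.e1])
  refine Real.rpow_le_rpow_of_nonpos (by positivity) ?_ (by linarith [hp.a1, hp.b1])
  exact div_le_div_of_nonneg_right (pow_le_pow_right₀ (by norm_num) h) (by norm_num)

theorem OK.mb_step (hp : p.OK) (m d : ℕ) : p.mb m ≤ (2 ^ d) ^ 2 * p.mb (m + d) := by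
  have h0 : (0 : ℝ) < 2 ^ d := by positivity
  have e : p.mb (m + d) = ((2 : ℝ) ^ d) ^ (-p.β) * p.mb m := by
    unfold mb
    rw [show (2 : ℝ) ^ (m + d) / 16 = 2 ^ d * (2 ^ m / 16) by ring,
      Real.mul_rpow h0.le (by positivity)]
    ring
  have h1 : ((2 : ℝ) ^ d) ^ (-(2 : ℝ)) ≤ ((2 : ℝ) ^ d) ^ (-p.β) :=
    Real.rpow_le_rpow_of_exponent_le (one_le_pow₀ (by norm_num)) (by linarith [hp.b2])
  rw [Real.rpow_neg h0.le, Real.rpow_two, inv_le_iff_one_le_mul₀' (by positivity)] at h1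
  rw [e, ← mul_assoc]
  exact le_mul_of_one_le_left (hp.mb_pos m).le h1

theorem OK.S0_pos (hp : p.OK) : 0 < p.S0 := mul_pos (by positivity) (hp.mb_pos _)

theorem OK.gg_pos (hp : p.OK) (m : ℕ) : 0 < p.gg m := div_pos hp.S0_pos (hp.mb_pos _)

theorem OK.gg_mN (hp : p.OK) : p.gg p.mN = 2 ^ p.mN := by
  unfold gg S0
  rw [min_self, mul_div_assoc, div_self (hp.mb_pos _).ne', mul_one]

theorem OK.gg_le (hp : p.OK) (m : ℕ) : p.gg m ≤ 2 ^ p.mN := by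
  unfold gg
  rw [div_le_iff₀ (hp.mb_pos _)]
  exact mul_le_mul_of_nonneg_left (hp.mb_anti (min_le_right _ _)) (by positivity)

theorem OK.gg_mb (hp : p.OK) (m : ℕ) : p.gg m * p.mb m ≤ p.S0 := by
  unfold gg
  rw [div_mul_eq_mul_div, div_le_iff₀ (hp.mb_pos _)]
  exact mul_le_mul_of_nonneg_left (hp.mb_anti (min_le_left _ _)) hp.S0_pos.le

theorem OK.gg_mb_anti (hp : p.OK) {m m' : ℕ} (h : m ≤ m') :
    p.gg m' * p.mb m' ≤ p.gg m * p.mb m := by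
  rcases le_total m p.mN with h1 | h1
  · refine (hp.gg_mb m').trans (le_of_eq ?_)
    unfold gg
    rw [min_eq_left h1, div_mul_cancel₀ _ (hp.mb_pos _).ne']
  · have e : p.gg m' = p.gg m := by
      unfold gg
      rw [min_eq_right h1, min_eq_right (h1.trans h)]
    rw [e]
    exact mul_le_mul_of_nonneg_left (hp.mb_anti h) (hp.gg_pos m).le

theorem OK.gg_ratio (hp : p.OK) {m m' : ℕ} (h : m ≤ m' + p.l + 5) : p.gg m ≤ p.B * p.gg m' := by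
  have h1 := hp.mb_step (min m' p.mN) (p.l + 5)
  have h2 : p.mb (min m' p.mN + (p.l + 5)) ≤ p.mb (min m p.mN) := hp.mb_anti (by omega)
  have h3 : ((2 : ℝ) ^ (p.l + 5)) ^ 2 ≤ p.B := by
    have e : ((2 : ℝ) ^ (p.l + 5)) ^ 2 = (p.L : ℝ) ^ 2 * 2 ^ 10 := by
      unfold L; push_cast; ring
    have h4 : (2 : ℝ) ^ 10 ≤ p.L := le_trans (pow_le_pow_right₀ (by norm_num) (by norm_num)) hp.L_one
    calc _ = (p.L : ℝ) ^ 2 * 2 ^ 10 := e
      _ ≤ (p.L : ℝ) ^ 2 * p.L := mul_le_mul_of_nonneg_left h4 (by positivity)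
      _ = (p.L : ℝ) ^ 3 := by ring
      _ ≤ (p.L : ℝ) ^ 60 := pow_le_pow_right₀ hp.L_ge (by norm_num)
      _ ≤ _ := hp.L_B
  have h5 : p.mb (min m' p.mN) ≤ p.B * p.mb (min m p.mN) :=
    h1.trans (mul_le_mul h3 h2 (hp.mb_pos _).le (by linarith [hp.B_one]))
  unfold gg
  rw [← mul_div_assoc, div_le_div_iff₀ (hp.mb_pos _) (hp.mb_pos _)]
  calc _ ≤ p.S0 * (p.B * p.mb (min m p.mN)) := mul_le_mul_of_nonneg_left h5 hp.S0_pos.le
    _ = _ := by ring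

theorem OK.zz_ge (hp : p.OK) (m : ℕ) : 1 / p.ρ ≤ p.zz m := by
  unfold zz
  split_ifs
  · exact le_rfl
  · exact (div_le_self zero_le_one hp.ρ_one).trans (one_le_pow₀ hp.ρ_one)

theorem OK.S0_ge (hp : p.OK) : p.η ^ p.G * 2 ^ p.mN ≤ p.S0 := by
  have h1 := hp.mb_step 4 p.mN
  have h2 : p.mb 4 = p.E := by
    unfold mb
    norm_num
  have h3 : p.mb (4 + p.mN) ≤ p.mb p.mN := hp.mb_anti (by omega)
  have hx : (1 : ℝ) ≤ 2 ^ p.mN := one_le_pow₀ (by norm_num)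
  have h4 : 1 ≤ ((2 : ℝ) ^ p.mN) ^ 4 * p.mb p.mN :=
    calc (1 : ℝ) ≤ p.mb 4 := h2 ▸ hp.e1
      _ ≤ _ := h1.trans (mul_le_mul (pow_le_pow_right₀ hx (by norm_num)) h3 (hp.mb_pos _).le
        (by positivity))
  have h5 : p.η ^ p.G ≤ p.mb p.mN :=
    calc p.η ^ p.G ≤ p.η ^ p.G * (((2 : ℝ) ^ p.mN) ^ 4 * p.mb p.mN) :=
          le_mul_of_one_le_right (pow_pos hp.h0 _).le h4
      _ = (p.η ^ p.G * (2 ^ p.mN) ^ 4) * p.mb p.mN := by ring
      _ ≤ _ := mul_le_of_le_one_left (hp.mb_pos _).le hp.r3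
  unfold S0
  rw [mul_comm]
  exact mul_le_mul_of_nonneg_left h5 (by positivity)

theorem OK.lg_le (hp : p.OK) {x : ℝ} (h0 : 0 < x) (h : x ≤ 8 * 2 ^ p.mH) :
    1 + Real.log x ≤ 2 * p.L := by
  have h1 : Real.log x ≤ Real.log (2 ^ (p.mH + 3)) :=
    Real.log_le_log h0 (h.trans (le_of_eq (by ring)))
  rw [Real.log_pow] at h1
  have h2 : Real.log 2 ≤ 1 := by linarith [Real.log_two_lt_d9]
  have h3 : ((p.mH + 3 : ℕ) : ℝ) * Real.log 2 ≤ (p.mH + 3 : ℕ) :=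
    mul_le_of_le_one_right (Nat.cast_nonneg _) h2
  have h4 : ((p.mH + 1 : ℕ) : ℝ) ≤ p.L := by exact_mod_cast hp.l3
  have h5 : (2 : ℝ) ^ 2 ≤ p.L := le_trans (pow_le_pow_right₀ (by norm_num) (by norm_num)) hp.L_one
  push_cast at h1 h3 h4
  linarith

end Par

end

end Pool.Agent.Lib.MMTX
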