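import Pool.Agent.Lib.MP_0dc93f_an.X.Sys
import Pool.Agent.Lib.MP_0dc93f_an.X.TBas

/-! The tree of kinks: weights, pairs, the functional and the flat system. -/

namespace Pool.Agent.Lib.MMTX

open Finset MMTW

noncomputable section

namespace Par

variable (p : Par)

/-- the shape of the tree -/
def sh : Sh :=
  ⟨p.l, p.m0 - 2 * p.l, p.mH - 2 * p.l, p.mN - 2 * p.l, p.G, p.c0, fun j => p.j1 (j + 2 * p.l)⟩

/-- scale exponent of a kink -/
def mz (z : List St) : ℕ := (top z).j + 2 * p.l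

/-- weight of a kink -/
def wz (z : List St) : ℝ :=
  if Rt z then 1 else p.η ^ (z.length - 1) * (p.θ * p.gg (p.mz z) / 2 ^ p.mz z)

/-- density bound at a kink -/
def kz (z : List St) : ℝ :=
  (2 ^ 16 * (p.L : ℝ)) ^ (z.length - 1) * (p.L : ℝ) ^ 5 * (p.mb (p.mz z) / 2 ^ p.mz z)

/-- penalty constant of a node -/
def ko (v : List St) : ℝ := if Rt v then p.L * (p.mb p.mN / 2 ^ p.mN) else p.kz v / 8

/-- nominal position of the top ancestor -/
def xz (z : List St) : ℤ :=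
  (top z).ep * if (top z).n = 0 then p.x0 else (top z).n * 2 ^ (top z).j

/-- position of a kink in the tree `b` -/
def ps (b : Bool) (c : List St → ℤ) (z : List St) : ℤ := pos (p.y0 b) c z

/-- the window with the centre `z` -/
def win (b : Bool) (c : List St → ℤ) (z : List St) : Win := ⟨p.ps b c z, (hd z).w⟩

/-- the two tiers -/
def zz (m : ℕ) : ℝ := if m ≤ p.m1 then 1 / p.ρ else p.ρ ^ 2

/-- local pairs: two children of one kink at the same unit, far apart, the first on the left -/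
def Loc (P Q : List St) : Prop :=
  2 ≤ P.length ∧ Q.tail = P.tail ∧ (hd Q).j = (hd P).j ∧
    (p.L : ℤ) ≤ 8 * ((hd Q).ep * (hd Q).n - (hd P).ep * (hd P).n)

/-- top pairs, the first one is faster -/
def Tpp (P Q : List St) : Prop :=
  P.length = 1 ∧ Q.length = 1 ∧ (hd P).n ≠ 0 ∧ (hd Q).n ≠ 0 ∧
    2 ^ max (p.mz P) (p.mz Q) ≤ 64 * (p.L : ℤ) * |p.xz P - p.xz Q| ∧
    (((hd P).ep = (hd Q).ep ∧ p.xz P < p.xz Q) ∨ ((hd P).ep = 1 ∧ (hd Q).ep = -1))

open Classical in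
/-- absorbing pairs -/
def pairs : Finset (List St × List St) :=
  (p.sh.kinks ×ˢ p.sh.kinks).filter fun q => (hd q.1).sg = 0 ∧ (hd q.2).sg = 0 ∧
    (hd q.1).i + (hd q.2).i ≤ p.G ∧ (p.Loc q.1 q.2 ∨ p.Tpp q.1 q.2)

/-- smoothing parameter of a pair -/
def tq (q : List St × List St) : ℝ := (p.L : ℝ) / 2 ^ min (hd q.1).j (hd q.2).j

/-- gain of a pair -/
def Zq (q : List St × List St) : ℝ :=
  p.η ^ ((hd q.1).i + (hd q.2).i) *
    if q.1.length = 1 then p.gg (max (p.mz q.1) (p.mz q.2)) * p.zz (min (p.mz q.1) (p.mz q.2))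
    else p.B ^ 10 * p.wz q.1.tail * 2 ^ (hd q.1).j

/-- velocity gap of a pair -/
def dq (q : List St × List St) : ℝ :=
  p.α * (1 - p.α) *
    if q.1.length = 1 then ((2 : ℝ) ^ min (p.mz q.1) (p.mz q.2)) ^ (p.α - 1) / (2 ^ 13 * p.L)
    else p.L * 2 ^ (hd q.1).j * ((2 : ℝ) ^ p.mz q.1) ^ (p.α - 2) / 256

/-- weight of a pair -/
def Wq (q : List St × List St) : ℝ := p.Zq q / p.dq q

/-- bound for the mass of a window -/
def mq (z : List St) : ℝ :=
  if z.length = 1 then p.mb (p.mz z) else 2 * p.kp (p.mz z) * (hd z).w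

/-- the root node -/
def r0 : List St := [⟨p.sh.jN, 0, 0, 1, 0⟩]

/-- the ramps -/
def Ram (b : Bool) (c : List St → ℤ) (a : ℤ → ℂ) : ℝ :=
  ∑ z ∈ p.sh.kinks, p.wz z * Rq p.Kc a (rmp (top z).ep (p.ps b c z))

/-- the penalty -/
def pen (c : List St → ℤ) : ℝ := ∑ v ∈ p.sh.nodes, p.wz v * p.ko v * (c v : ℝ) ^ 2 / 2

/-- the absorbers -/
def Ab (b : Bool) (c : List St → ℤ) (a : ℤ → ℂ) : ℝ :=
  ∑ q ∈ p.pairs, p.Wq q * Mo p.Kc a (p.tq q) (p.win b c q.1) (p.win b c q.2)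

/-- the normal form term -/
def Nf (b : Bool) (c : List St → ℤ) (a : ℤ → ℂ) : ℝ :=
  NFv p.α p.Kc a p.m1 p.mH (p.y0 true) (p.y0 b + c p.r0)

/-- the functional -/
def Phi (b : Bool) (c : List St → ℤ) (a : ℤ → ℂ) : ℝ :=
  p.Ram b c a - p.pen c + Sys.sn b * p.Ab b c a + p.Nf b c a

/-- the gain -/
def Yv (b : Bool) (c : List St → ℤ) (a : ℤ → ℂ) : ℝ :=
  ∑ q ∈ p.pairs, p.Zq q * XX p.Kc a (p.tq q) (p.win b c q.1) (p.win b c q.2)

/-- maximal configurations -/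
def Mx (b : Bool) (c : List St → ℤ) (a : ℤ → ℂ) : Prop :=
  p.sh.Conf c ∧ ∀ d, p.sh.Conf d → p.Phi b d a ≤ p.Phi b c a

/-- bounded density at all kinks at the scales from `h0` on -/
def GF (b : Bool) (c : List St → ℤ) (a : ℤ → ℂ) (h0 : ℝ) : Prop :=
  ∀ z ∈ p.sh.kinks, ∀ h r : ℝ, h0 ≤ h → r ≤ h → r ≤ 2 ^ p.mz z / 8 →
    mB p.Kc a (p.ps b c z) r ≤ p.kz z * h

/-- the flat system of the tree -/
def sys : Sys where
  C := {c | p.sh.Conf c}
  K := p.sh.kinks.filter fun z => ¬Rt z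
  P := p.pairs
  fC := p.sh.conf_finite.fintype
  nC := ⟨⟨fun _ => 0, p.sh.conf_zero⟩⟩
  fK := inferInstance
  fP := inferInstance
  y := fun b c => p.y0 b + c.1 p.r0
  pos := fun b c z => p.ps b c.1 z.1
  P1 := fun b c q => p.win b c.1 q.1.1
  P2 := fun b c q => p.win b c.1 q.1.2
  pen := fun c => p.pen c.1
  sg := fun z => (top z.1).ep
  wt := fun z => p.wz z.1
  x := fun z => p.xz z.1
  m := fun z => p.mz z.1
  act := fun z => z.1.length ≤ p.G
  t := fun q => p.tq q.1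
  W := fun q => p.Wq q.1
  Z := fun q => p.Zq q.1

end Par

end

end Pool.Agent.Lib.MMTX
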