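import Pool.Agent.Lib.MP_0dc93f_an.X.TMov
import Pool.Agent.Lib.MP_0dc93f_an.X.TMo

/-! Second difference of the absorbers: preparations. -/

namespace Pool.Agent.Lib.MMTX

open Finset MMTW

noncomputable section

namespace Par

variable {p : Par} {a : ℤ → ℂ} {b : Bool} {c : List St → ℤ}

/-- real forms of the size of a window -/
theorem sec_w (hp : p.OK) {z : List St} (h : z ∈ p.sh.kinks) :
    1 ≤ (hd z).w ∧ (1024 : ℝ) * (hd z).w ≤ 2 ^ p.mz z ∧ (2 : ℝ) ^ p.mz z ≤ 2 ^ p.mH := by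
  obtain ⟨h1, -, h3, -⟩ := w_le hp h
  have hL : 1 ≤ p.L := Nat.one_le_two_pow
  have hj : 1 ≤ 2 ^ (hd z).j := Nat.one_le_two_pow
  refine ⟨by omega, ?_, pow_le_pow_right₀ (by norm_num) (mz_mem hp h).2⟩
  have h4 : 1024 * (hd z).w ≤ 2 ^ p.mz z :=
    le_trans (Nat.mul_le_mul_right _ (by omega)) h3
  exact_mod_cast h4

theorem sec_d (hp : p.OK) {d : ℕ} {v : List St} (hv : v ∈ p.sh.kinks) (hO : 2 * d ≤ p.sh.Om v) :
    (256 : ℝ) * d ≤ 2 ^ p.mz v := by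
  have h1 := Om_le hp hv
  have h2 : 256 * d ≤ 2 ^ p.mz v := by omega
  exact_mod_cast h2

/-- a window that moves with `v` -/
theorem sec_mov {v z : List St} (hm : sig v z ≠ 0) :
    p.mz z = p.mz v ∧ v.length ≤ z.length := by
  obtain ⟨l, s, y, -, rfl⟩ := sig_ne hm
  exact mov_mz hm

theorem sec_abs {σ : ℤ} (h : σ = 0 ∨ σ = 1 ∨ σ = -1) : |(σ : ℝ)| ≤ 1 := by
  rcases h with rfl | rfl | rfl <;> simp

/-- the three kinks of a window have bounded density -/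
theorem sec_kink (hp : p.OK) {d : ℕ} (hg : p.GF b c a d) {z : List St} (hz : z ∈ p.sh.kinks)
    (hr : ¬Rt z) (h0 : (hd z).sg = 0) (hd' : (256 : ℝ) * d ≤ 2 ^ p.mz z) (y : ℤ)
    (hy : y = (p.win b c z).z + (p.win b c z).w ∨ y = (p.win b c z).z - (p.win b c z).w ∨
      y = (p.win b c z).z) (h : ℝ) (hh : 2 * (d : ℝ) ≤ h) :
    mB p.Kc a y (min h (2 * (p.win b c z).w + d)) ≤ p.kz z * h := by
  obtain ⟨-, hw, -⟩ := sec_w hp hz
  have hk := Sh.mem_kinks.1 hz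
  obtain ⟨s, t, rfl⟩ := List.exists_cons_of_ne_nil hk.1.ne_nil
  simp only [hd_cons] at h0 hw
  obtain ⟨g, hg1, hg2⟩ : ∃ g : ℤ, (g = -1 ∨ g = 0 ∨ g = 1) ∧ y = p.ps b c (s.kk g :: t) := by
    have e : ∀ g : ℤ, p.ps b c (s.kk g :: t) = p.ps b c (s :: t) + g * s.w := by
      intro g
      unfold ps
      rw [pos_kk, h0, sub_zero]
    rcases hy with hy | hy | hy
    · exact ⟨1, by simp, by rw [e, hy]; simp [win]⟩
    · exact ⟨-1, by simp, by rw [e, hy]; simp [win, sub_eq_add_neg]⟩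
    · exact ⟨0, by simp, by rw [e, hy]; simp [win]⟩
  have hm : s.kk g :: t ∈ p.sh.kinks := Sh.mem_kinks.2 ⟨hk.1.kk hr hg1, by simpa using hk.2⟩
  have e1 : p.mz (s.kk g :: t) = p.mz (s :: t) := by
    unfold mz
    by_cases ht : t = []
    · subst ht; rfl
    · rw [top_cons _ ht, top_cons _ ht]
  have e2 : p.kz (s.kk g :: t) = p.kz (s :: t) := by
    unfold kz
    rw [e1]; rfl
  have hd0 : (0 : ℝ) ≤ d := Nat.cast_nonneg d
  have hw0 : (0 : ℝ) ≤ s.w := Nat.cast_nonneg _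
  rw [hg2, ← e2]
  refine hg _ hm h _ (by linarith) (min_le_left _ _) ((min_le_right _ _).trans ?_)
  rw [e1]
  change 2 * (s.w : ℝ) + d ≤ _
  linarith

/-- the mass of a shifted window -/
theorem sec_sh (P : Win) {e : ℤ} {r : ℝ} (he : |(e : ℝ)| + P.w ≤ r) :
    mW p.Kc a (P.sh e) ≤ mB p.Kc a P.z r := by
  unfold mW Win.sh
  refine mB_mono _ _ ?_
  push_cast
  rwa [add_sub_cancel_left]

theorem sec_num (hp : p.OK) : (2 : ℝ) ^ 20 * (p.L : ℝ) ^ 8 ≤ p.B := by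
  have h1 := hp.L_one
  have h2 : (1 : ℝ) ≤ p.L := le_trans (by norm_num) h1
  calc (2 : ℝ) ^ 20 * (p.L : ℝ) ^ 8 ≤ p.L * (p.L : ℝ) ^ 8 :=
        mul_le_mul_of_nonneg_right (le_trans (by norm_num) h1) (by positivity)
    _ = (p.L : ℝ) ^ 9 := by ring
    _ ≤ (p.L : ℝ) ^ 60 := pow_le_pow_right₀ h2 (by norm_num)
    _ ≤ p.B := hp.L_B

/-- narrow local windows: the trivial bound -/
theorem sec_nar (hp : p.OK) {d : ℕ} (hd1 : 1 ≤ d) (hg : p.GF b c a d) {v : List St}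
    (hv : v ∈ p.sh.kinks) (hdv : (256 : ℝ) * d ≤ 2 ^ p.mz v) {q : List St × List St}
    (hq : q ∈ p.pairs) (hl : p.Loc q.1 q.2) (hm : p.mz q.1 = p.mz v)
    (hlen : v.length ≤ q.1.length) (hw1 : (hd q.1).w ≤ p.L * d) (hw2 : (hd q.2).w ≤ p.L * d)
    {e e' : ℤ} (he : |(e : ℝ)| ≤ d) (he' : |(e' : ℝ)| ≤ d) :
    p.Wq q * |Mo p.Kc a (p.tq q) ((p.win b c q.1).sh e) ((p.win b c q.2).sh e')| * p.B ^ 2 ≤
      p.ko v * p.wz v * d ^ 2 / 4 := by
  obtain ⟨⟨k1, k2⟩, -⟩ := mem_pairs.1 hq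
  obtain ⟨-, em, -, ek⟩ := hl.eqs (Sh.mem_kinks.1 k2).1.ne_nil
  obtain ⟨a1, a2, a3⟩ := sec_w hp k1
  obtain ⟨-, b2, -⟩ := sec_w hp k2
  have hL : (1 : ℝ) ≤ p.L := le_trans (by norm_num) hp.L_one
  have hd0 : (1 : ℝ) ≤ d := by exact_mod_cast hd1
  have hLd : (d : ℝ) ≤ p.L * d := by nlinarith
  have hw1' : ((hd q.1).w : ℝ) ≤ p.L * d := by exact_mod_cast hw1
  have hw2' : ((hd q.2).w : ℝ) ≤ p.L * d := by exact_mod_cast hw2
  have a0 : (1 : ℝ) ≤ (hd q.1).w := by exact_mod_cast a1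
  have m1 : mW p.Kc a ((p.win b c q.1).sh e) ≤ p.kz q.1 * (2 * (p.L * d)) :=
    (sec_sh (r := d + (hd q.1).w) _ (by simpa [win] using he)).trans
      (hg _ k1 _ _ (by linarith) (by linarith) (by rw [← hm] at hdv; linarith))
  have m2 : mW p.Kc a ((p.win b c q.2).sh e') ≤ p.kz q.1 * (2 * (p.L * d)) := by
    rw [← ek]
    exact (sec_sh (r := d + (hd q.2).w) _ (by simpa [win] using he')).trans
      (hg _ k2 _ _ (by linarith) (by linarith) (by rw [← hm, ← em] at hdv; linarith))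
  have t1 := mo_triv p.Kc a (tq_pos hp q).le ((p.win b c q.1).sh e) ((p.win b c q.2).sh e') a1
    (hp.lg_le (x := 2 * ((hd q.1).w : ℝ)) (by linarith) (by linarith))
  have hk := kz_pos hp q.1
  have hW := Wq_pos hp q
  have hB := hp.B_one
  have t2 : |Mo p.Kc a (p.tq q) ((p.win b c q.1).sh e) ((p.win b c q.2).sh e')| ≤
      2 * (2 * p.L) * (p.kz q.1 * (2 * (p.L * d)) * (p.kz q.1 * (2 * (p.L * d)))) :=
    t1.trans (mul_le_mul_of_nonneg_left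
      (mul_le_mul m1 m2 (mW_nonneg _ _ _) (by positivity)) (by positivity))
  have t3 : p.Wq q * p.kz q.1 * p.B ^ 5 ≤ p.L * p.wz q.1 :=
    le_trans (mul_le_mul_of_nonneg_right (mul_le_mul_of_nonneg_left (kz_le hp k1) hW.le)
      (by positivity)) (Wq_loc hp hq hl)
  have t4 := kw_le hp hv (pair_nr hq).1 hm hlen
  have hX : 0 < p.ko v * p.wz v := mul_pos (ko_pos hp v) (wz_pos hp v)
  have t5 : p.Wq q * p.kz q.1 * p.kz q.1 * p.B ^ 5 ≤ 8 * (p.L : ℝ) ^ 5 * (p.ko v * p.wz v) := by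
    calc _ = p.Wq q * p.kz q.1 * p.B ^ 5 * p.kz q.1 := by ring
      _ ≤ p.L * p.wz q.1 * p.kz q.1 := mul_le_mul_of_nonneg_right t3 hk.le
      _ = p.L * (p.kz q.1 * p.wz q.1) := by ring
      _ ≤ p.L * (8 * (p.L : ℝ) ^ 4 * (p.ko v * p.wz v)) := mul_le_mul_of_nonneg_left t4 (by linarith)
      _ = _ := by ring
  have hB3 : (2 : ℝ) ^ 20 * (p.L : ℝ) ^ 8 ≤ p.B ^ 3 :=
    (sec_num hp).trans (le_self_pow₀ hB (by norm_num))
  refine le_of_mul_le_mul_right ?_ (show 0 < p.B ^ 3 by positivity)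
  calc _ ≤ p.Wq q * (2 * (2 * p.L) * (p.kz q.1 * (2 * (p.L * d)) * (p.kz q.1 * (2 * (p.L * d))))) *
        p.B ^ 2 * p.B ^ 3 := by gcongr
    _ = 16 * (p.L : ℝ) ^ 3 * d ^ 2 * (p.Wq q * p.kz q.1 * p.kz q.1 * p.B ^ 5) := by ring
    _ ≤ 16 * (p.L : ℝ) ^ 3 * d ^ 2 * (8 * (p.L : ℝ) ^ 5 * (p.ko v * p.wz v)) := by gcongr
    _ = p.ko v * p.wz v * d ^ 2 / 4 * (512 * (p.L : ℝ) ^ 8) := by ring
    _ ≤ p.ko v * p.wz v * d ^ 2 / 4 * p.B ^ 3 := by
      refine mul_le_mul_of_nonneg_left (le_trans ?_ hB3) (by positivity)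
      exact mul_le_mul_of_nonneg_right (by norm_num) (by positivity)

/-- the mass of a window which is not narrow -/
theorem sec_mq (hp : p.OK) (ha : p.Amb a) (hc : p.sh.Conf c) {d : ℕ} (hg : p.GF b c a d)
    {v z : List St} (hdv : (256 : ℝ) * d ≤ 2 ^ p.mz v) (hz : z ∈ p.sh.kinks)
    (h : z.length = 1 ∨ d < (hd z).w) :
    mB p.Kc a (p.win b c z).z ((p.win b c z).w + |((sig v z : ℤ) : ℝ)| * d) ≤ p.mq z := by
  obtain ⟨-, a2, -⟩ := sec_w hp hz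
  have hd0 : (0 : ℝ) ≤ d := Nat.cast_nonneg d
  have hw0 : (0 : ℝ) ≤ (hd z).w := Nat.cast_nonneg _
  have hs : |((sig v z : ℤ) : ℝ)| * d ≤ d := by
    have := sec_abs (sig_mem (v := v) hz)
    nlinarith [abs_nonneg ((sig v z : ℤ) : ℝ)]
  change mB p.Kc a (p.ps b c z) (((hd z).w : ℝ) + _) ≤ _
  unfold mq
  split_ifs with h1
  · refine mW_le hp ha hc hz ?_
    by_cases h0 : sig v z = 0
    · rw [h0]; simp only [Int.cast_zero, abs_zero, zero_mul, add_zero]; linarith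
    · rw [← (sec_mov (p := p) h0).1] at hdv; linarith
  · have h2 : (d : ℝ) < (hd z).w := by exact_mod_cast h.resolve_left h1
    refine (hg _ hz (2 * (hd z).w) _ (by linarith) (by linarith) (by linarith)).trans ?_
    have := kz_le hp hz
    nlinarith

/-- mass of the first window against the width of the second one, at the same scale -/
theorem sec_cross (hp : p.OK) {q : List St × List St} (hq : q ∈ p.pairs)
    (hm : p.mz q.2 = p.mz q.1) : p.mq q.1 ≤ 2 * p.L * p.B * p.kz q.1 * (hd q.2).w := by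
  obtain ⟨⟨k1, k2⟩, -, -, -, hlt⟩ := mem_pairs.1 hq
  have hL : (1 : ℝ) ≤ p.L := le_trans (by norm_num) hp.L_one
  have hB := hp.B_one
  have hk := kz_ge hp q.1
  have hk0 := kz_pos hp q.1
  have hmb := hp.mb_pos (p.mz q.1)
  have hK : (0 : ℝ) < 2 ^ p.mz q.1 := by positivity
  have hw0 : (0 : ℝ) ≤ (hd q.2).w := Nat.cast_nonneg _
  have hx : 0 < p.mb (p.mz q.1) / 2 ^ p.mz q.1 := div_pos hmb hK
  unfold mq
  rcases hlt with hl | ht
  · rw [if_neg (by have := hl.1; omega)]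
    have h1 : ((hd q.1).w : ℝ) ≤ p.L * (hd q.2).w := by exact_mod_cast (hl.w_le hp k1 k2).1
    have h2 : p.mb (p.mz q.1) / 2 ^ p.mz q.1 ≤ p.kz q.1 :=
      le_trans (le_mul_of_one_le_left hx.le (one_le_pow₀ hL)) hk
    unfold kp
    calc _ = 2 * p.B * (p.mb (p.mz q.1) / 2 ^ p.mz q.1) * (hd q.1).w := by ring
      _ ≤ 2 * p.B * p.kz q.1 * (p.L * (hd q.2).w) := by gcongr
      _ = _ := by ring
  · rw [if_pos ht.1]
    obtain ⟨s, hs⟩ := List.length_eq_one_iff.1 ht.2.1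
    have e : (2 : ℝ) ^ p.mz q.1 = 2 ^ (hd q.2).j * (p.L : ℝ) ^ 2 := by
      rw [← hm, hs]
      simp only [mz, top_one, hd_cons, L]
      push_cast
      rw [pow_add, ← pow_mul, mul_comm p.l]
    have h1 : (4 : ℝ) * 2 ^ (hd q.2).j ≤ (hd q.2).w := by exact_mod_cast (w_le hp k2).1
    have h2 : (2 : ℝ) ^ p.mz q.1 ≤ (p.L : ℝ) ^ 5 * (hd q.2).w := by
      rw [e, mul_comm]
      have : (0 : ℝ) < 2 ^ (hd q.2).j := by positivity
      exact mul_le_mul (pow_le_pow_right₀ hL (by norm_num)) (by linarith) this.le (by positivity)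
    calc _ = p.mb (p.mz q.1) / 2 ^ p.mz q.1 * 2 ^ p.mz q.1 := by field_simp
      _ ≤ p.mb (p.mz q.1) / 2 ^ p.mz q.1 * ((p.L : ℝ) ^ 5 * (hd q.2).w) := by gcongr
      _ = 1 * ((p.L : ℝ) ^ 5 * (p.mb (p.mz q.1) / 2 ^ p.mz q.1)) * (hd q.2).w := by ring
      _ ≤ 2 * p.L * p.B * p.kz q.1 * (hd q.2).w := by
        gcongr
        nlinarith

/-- one term of the bound for the second difference -/
theorem sec_term {W m B wt w κ X C σ : ℝ} (hw : 0 < w) (hκ : 0 ≤ κ) (hX : 0 ≤ X)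
    (hC : 0 ≤ C) (hσ : |σ| ≤ 1) (h1 : W * m * B ^ 5 ≤ wt * w) (h2 : σ ≠ 0 → κ * wt ≤ C * X) :
    |σ| * (W * (κ * m / w) * B ^ 5) ≤ C * X := by
  by_cases h0 : σ = 0
  · rw [h0, abs_zero, zero_mul]; positivity
  have h3 : W * (κ * m / w) * B ^ 5 ≤ C * X := by
    calc _ = κ * (W * m * B ^ 5) / w := by ring
      _ ≤ κ * (wt * w) / w := by gcongr
      _ = κ * wt := by field_simp
      _ ≤ _ := h2 h0
  calc _ ≤ |σ| * (C * X) := mul_le_mul_of_nonneg_left h3 (abs_nonneg _)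
    _ ≤ 1 * (C * X) := by gcongr
    _ = _ := one_mul _

end Par

end

end Pool.Agent.Lib.MMTX
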