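import Pool.Agent.Lib.MP_0dc93f_an.X.TVel0

/-! The tree of kinks: velocity gaps and windows. -/

namespace Pool.Agent.Lib.MMTX

open Finset MMTW

noncomputable section

namespace Par

variable {p : Par} {a : ℤ → ℂ} {b : Bool} {c : List St → ℤ}

theorem tvel_err (hp : p.OK) (hc : p.sh.Conf c) {z : List St} (h : z ∈ p.sh.kinks) :
    2 ^ 94 * ((hd z).w * |(p.ps b c z : ℝ)| ^ (p.α - 2)) ≤
      p.α * (1 - p.α) * (p.L * 2 ^ (hd z).j * ((2 : ℝ) ^ p.mz z) ^ (p.α - 2)) := by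
  obtain ⟨h1, -⟩ := tvel_rng (b := b) hp hc h
  have k0 : (0 : ℝ) < 2 ^ p.mz z := by positivity
  have h0 : 0 < |(p.ps b c z : ℝ)| := by linarith
  have a1 := tvel_four h0 (e := p.α - 2) (by linarith [hp.a1])
  have a2 := Real.rpow_le_rpow_of_nonpos k0 (y := 4 * |(p.ps b c z : ℝ)|) (z := p.α - 2)
    (by linarith) (by linarith [hp.a2])
  have hi : (hd z).i ≤ p.G := by
    rcases z with _ | ⟨s, y⟩
    · simp [hd]
    · exact (Sh.mem_kinks.1 h).1.hd_side.1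
  have a3 : ((hd z).w : ℝ) ≤ 4 * 256 ^ p.G * 2 ^ (hd z).j := by
    simp only [St.w]; push_cast; gcongr; norm_num
  have a4 : ((hd z).w : ℝ) * |(p.ps b c z : ℝ)| ^ (p.α - 2) ≤
      (4 * 256 ^ p.G * 2 ^ (hd z).j) * (16 * ((2 : ℝ) ^ p.mz z) ^ (p.α - 2)) :=
    mul_le_mul a3 (by linarith) (by positivity) (by positivity)
  have a5 := mul_le_mul_of_nonneg_right hp.l1
    (by positivity : (0 : ℝ) ≤ 2 ^ (hd z).j * ((2 : ℝ) ^ p.mz z) ^ (p.α - 2))
  linarith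

theorem pair_err (hp : p.OK) (hc : p.sh.Conf c) {q : List St × List St} (hq : q ∈ p.pairs) :
    2 ^ 32 * ((hd q.1).w * |(p.ps b c q.1 : ℝ)| ^ (p.α - 2) +
      (hd q.2).w * |(p.ps b c q.2 : ℝ)| ^ (p.α - 2)) ≤ p.dq q := by
  obtain ⟨P, Q⟩ := q
  obtain ⟨⟨hP, hQ⟩, -, -, -, hl⟩ := mem_pairs.1 hq
  simp only at hP hQ hl ⊢
  have a1 := tvel_err (b := b) hp hc hP
  have a2 := tvel_err (b := b) hp hc hQ
  have haa := hp.aa_pos
  have hL : (0 : ℝ) < p.L := lt_of_lt_of_le (by norm_num) hp.L_one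
  rcases hl with hl | hl
  · obtain ⟨-, e2, -, -⟩ := hl.eqs (Sh.mem_kinks.1 hQ).1.ne_nil
    have hne : P.length ≠ 1 := by have := hl.1; omega
    rw [e2, hl.2.2.1] at a2
    simp only [dq, hne, if_false]
    have : 0 ≤ p.α * (1 - p.α) * (p.L * 2 ^ (hd P).j * ((2 : ℝ) ^ p.mz P) ^ (p.α - 2)) := by
      positivity
    linarith
  · obtain ⟨l1, l2, -⟩ := hl
    obtain ⟨s, rfl⟩ := tvel_one l1
    obtain ⟨s', rfl⟩ := tvel_one l2
    have k1 : ∀ t : St, min (p.mz [s]) (p.mz [s']) ≤ p.mz [t] →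
        p.α * (1 - p.α) * (p.L * 2 ^ (hd [t]).j * ((2 : ℝ) ^ p.mz [t]) ^ (p.α - 2)) ≤
        p.α * (1 - p.α) * (((2 : ℝ) ^ min (p.mz [s]) (p.mz [s'])) ^ (p.α - 1) / p.L) := by
      intro t ht
      refine mul_le_mul_of_nonneg_left ?_ haa.le
      have k0 : (0 : ℝ) < 2 ^ p.mz [t] := by positivity
      have e1 : (2 : ℝ) ^ (hd [t]).j * (p.L * p.L) = 2 ^ p.mz [t] := by
        simp only [mz, top, hd, L]; push_cast; ring
      have e3 : ((2 : ℝ) ^ p.mz [t]) ^ (p.α - 1) = ((2 : ℝ) ^ p.mz [t]) ^ (p.α - 2) * 2 ^ p.mz [t] := by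
        rw [← Real.rpow_add_one k0.ne']; congr 1; ring
      have e4 := Real.rpow_le_rpow_of_nonpos (x := (2 : ℝ) ^ min (p.mz [s]) (p.mz [s']))
        (by positivity) (pow_le_pow_right₀ (by norm_num) ht) (by linarith [hp.a2] : p.α - 1 ≤ 0)
      rw [le_div_iff₀ hL]
      refine le_trans (le_of_eq ?_) e4
      rw [e3]
      linear_combination ((2 : ℝ) ^ p.mz [t]) ^ (p.α - 2) * e1
    have b1 := a1.trans (k1 s (min_le_left _ _))
    have b2 := a2.trans (k1 s' (min_le_right _ _))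
    have e0 : p.dq ([s], [s']) = p.α * (1 - p.α) *
        (((2 : ℝ) ^ min (p.mz [s]) (p.mz [s'])) ^ (p.α - 1) / p.L) / 2 ^ 13 := by
      simp only [dq, List.length_singleton, if_true]; field_simp
    have : 0 ≤ p.α * (1 - p.α) *
        (((2 : ℝ) ^ min (p.mz [s]) (p.mz [s'])) ^ (p.α - 1) / p.L) := by positivity
    rw [e0]
    linarith

theorem tvel_win (hp : p.OK) (hc : p.sh.Conf c) {z : List St} (h : z ∈ p.sh.kinks) {j : ℕ}
    (hj : j ≤ (hd z).j) : p.WinOK ((p.L : ℝ) / 2 ^ j) (p.win b c z) := by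
  obtain ⟨w1, -, w3, -⟩ := w_le hp h
  obtain ⟨r1, r2⟩ := tvel_rng (b := b) hp hc h
  have hL : 1 ≤ p.L := p.sh.L_pos
  have k1 : 2 ^ p.mz z ≤ 2 ^ p.mH := Nat.pow_le_pow_right (by norm_num) (mz_mem hp h).2
  have k2 : 2 ^ 40 * (hd z).w ≤ 2 ^ p.mz z :=
    le_trans (Nat.mul_le_mul_right _ (Nat.le_mul_of_pos_right _ hL)) w3
  have k3 : 0 < 2 ^ (hd z).j := by positivity
  have r1' : 15 * (2 : ℤ) ^ p.mz z ≤ 32 * |p.ps b c z| := by exact_mod_cast r1
  have r2' : 32 * |p.ps b c z| ≤ 65 * (2 : ℤ) ^ p.mz z := by exact_mod_cast r2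
  have k1' : (2 : ℤ) ^ p.mz z ≤ 2 ^ p.mH := by exact_mod_cast k1
  have k2' : 2 ^ 40 * ((hd z).w : ℤ) ≤ 2 ^ p.mz z := by exact_mod_cast k2
  have k4 : 4 * (2 : ℤ) ^ p.mH ≤ p.Kc := by exact_mod_cast hp.m05
  refine ⟨?_, ?_, ?_, ?_, ?_⟩ <;> simp only [win]
  · omega
  · omega
  · omega
  · omega
  · have k5 : (4 : ℝ) * 2 ^ j ≤ (hd z).w := by
      have : 4 * 2 ^ j ≤ (hd z).w :=
        le_trans (Nat.mul_le_mul_left _ (Nat.pow_le_pow_right (by norm_num) hj)) w1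
      exact_mod_cast this
    rw [div_mul_eq_mul_div, le_div_iff₀ (by positivity)]
    have := mul_le_mul_of_nonneg_left k5 (Nat.cast_nonneg (α := ℝ) p.L)
    linarith

theorem pair_win (hp : p.OK) (hc : p.sh.Conf c) {q : List St × List St} (hq : q ∈ p.pairs) :
    p.tq q ≤ 1 ∧ p.WinOK (p.tq q) (p.win b c q.1) ∧ p.WinOK (p.tq q) (p.win b c q.2) := by
  obtain ⟨⟨hP, hQ⟩, -⟩ := mem_pairs.1 hq
  refine ⟨?_, tvel_win hp hc hP (min_le_left _ _), tvel_win hp hc hQ (min_le_right _ _)⟩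
  rw [tq, div_le_one (by positivity)]
  have h1 := (w_le hp hP).2.2.2
  have h2 := (w_le hp hQ).2.2.2
  rcases le_total (hd q.1).j (hd q.2).j with h | h
  · rw [min_eq_left h]; exact_mod_cast h1
  · rw [min_eq_right h]; exact_mod_cast h2

theorem mW_le (hp : p.OK) (ha : p.Amb a) (hc : p.sh.Conf c) {z : List St} (h : z ∈ p.sh.kinks)
    {r : ℝ} (hr : r ≤ 2 ^ p.mz z / 4) : mB p.Kc a (p.ps b c z) r ≤ p.mb (p.mz z) := by
  obtain ⟨r1, -⟩ := tvel_rng (b := b) hp hc h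
  have k0 : (0 : ℝ) < 2 ^ p.mz z := by positivity
  exact ha.mB_le (by linarith)

theorem stat (hp : p.OK) : p.sys.Stat p := by
  have hk : ∀ z : p.sys.K, z.1 ∈ p.sh.kinks ∧ ¬Rt z.1 := fun z => mem_filter.1 z.2
  have hx : ∀ z ∈ p.sh.kinks, |p.xz z| = (top z).ep * p.xz z := by
    intro z h
    obtain ⟨e, h1, -⟩ := xz_mem hp h
    have h0 : (0 : ℤ) < 2 ^ p.mz z := by positivity
    rcases e with e | e <;> rw [e] at h1 ⊢
    · rw [abs_of_pos (by omega)]; ring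
    · rw [abs_of_neg (by omega)]; ring
  refine ⟨?_, ?_, fun z => (mz_mem hp (hk z).1).1, fun z => (mz_mem hp (hk z).1).2, fun z => ?_,
    fun z => ?_, fun z => (xz_mem hp (hk z).1).1, fun z => wz_pos hp _,
    fun z => wz_mul hp (hk z).2, fun z hz => ?_, fun b c z => ps_ext hp c.2 (hk z).1,
    fun b c => ?_, fun q => tq_pos hp _, fun q => (pair_win (b := true) hp p.sh.conf_zero q.2).1,
    fun q => (Wq_pos hp _).le, fun q => (Zq_pos hp _).le,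
    fun b c q => (pair_win hp c.2 q.2).2.1, fun b c q => (pair_win hp c.2 q.2).2.2⟩
  · have : Fintype.card p.sys.K = (p.sh.kinks.filter fun z => ¬Rt z).card := Fintype.card_coe _
    rw [this]
    exact le_trans (by exact_mod_cast card_filter_le _ _) (card_K hp)
  · have : Fintype.card p.sys.P = p.pairs.card := Fintype.card_coe _
    rw [this]
    exact card_P hp
  · show 2 ^ p.mz z.1 ≤ 2 * |p.xz z.1|
    rw [hx _ (hk z).1]; exact (xz_mem hp (hk z).1).2.1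
  · show |p.xz z.1| ≤ 2 * 2 ^ p.mz z.1
    rw [hx _ (hk z).1]; exact (xz_mem hp (hk z).1).2.2
  · show p.wz z.1 * 2 ^ p.mz z.1 ≤ _
    have hl : p.G ≤ z.1.length - 1 := by
      have : ¬z.1.length ≤ p.G := hz
      omega
    have e1 : p.wz z.1 * 2 ^ p.mz z.1 = p.η ^ (z.1.length - 1) * (p.θ * p.gg (p.mz z.1)) := by
      rw [wz, if_neg (hk z).2]; field_simp
    rw [e1]
    refine mul_le_mul (pow_le_pow_of_le_one hp.h0.le hp.η_le hl) ?_
      (mul_pos hp.θ_pos (hp.gg_pos _)).le (pow_pos hp.h0 _).le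
    exact le_trans (mul_le_of_le_one_left (hp.gg_pos _).le (hp.θ_le.trans hp.η_le)) (hp.gg_le _)
  · have h1 := ps_ext (b := b) hp c.2 (r0_mem hp).1
    rw [(p.ps_r0 b c.1).1, mz_rt hp (r0_mem hp).1 rfl] at h1
    have : p.xz p.r0 = p.x0 := by simp [xz, r0]
    rw [this] at h1
    exact h1

end Par

end

end Pool.Agent.Lib.MMTX
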