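import Pool.Agent.Lib.MP_0dc93f_an.X.TW1

/-! The tree of kinks: velocity gaps. -/

namespace Pool.Agent.Lib.MMTX

open Finset MMTW

noncomputable section

theorem tvel_conv {α x y : ℝ} (h1 : α < 1) (hx : 0 < x) (h : x ≤ y) :
    (1 - α) * y ^ (α - 2) * (y - x) ≤ x ^ (α - 1) - y ^ (α - 1) := by
  have hy : 0 < y := hx.trans_le h
  have hr : 0 < x / y := div_pos hx hy
  have e1 : x ^ (α - 1) = y ^ (α - 1) * (x / y) ^ (α - 1) := by
    rw [← Real.mul_rpow hy.le hr.le, mul_div_cancel₀ _ hy.ne']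
  have e2 : 1 + (1 - α) * (1 - x / y) ≤ (x / y) ^ (α - 1) := by
    rw [Real.rpow_def_of_pos hr]
    have a1 := Real.add_one_le_exp (Real.log (x / y) * (α - 1))
    have a2 := Real.log_le_sub_one_of_pos hr
    nlinarith
  have e3 : y ^ (α - 2) = y ^ (α - 1) / y := by
    rw [← Real.rpow_sub_one hy.ne']; congr 1; ring
  have hp : 0 < y ^ (α - 1) := Real.rpow_pos_of_pos hy _
  have e4 := mul_le_mul_of_nonneg_left e2 hp.le
  rw [e1, e3]
  have e5 : (1 - α) * (y ^ (α - 1) / y) * (y - x) = y ^ (α - 1) * ((1 - α) * (1 - x / y)) := by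
    field_simp
  rw [e5]
  linarith

theorem tvel_four {M : ℝ} (hM : 0 < M) {e : ℝ} (he : -2 ≤ e) :
    M ^ e / 16 ≤ (4 * M) ^ e := by
  rw [Real.mul_rpow (by norm_num) hM.le]
  have h1 : (4 : ℝ) ^ (-2 : ℝ) ≤ 4 ^ e := Real.rpow_le_rpow_of_exponent_le (by norm_num) he
  have h2 : (4 : ℝ) ^ (-2 : ℝ) = 1 / 16 := by
    rw [Real.rpow_neg (by norm_num), Real.rpow_two]; norm_num
  have hp : 0 < M ^ e := Real.rpow_pos_of_pos hM _
  rw [h2] at h1
  have := mul_le_mul_of_nonneg_right h1 hp.le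
  linarith

theorem tvel_gap {α x y δ M : ℝ} (h0 : 0 < α) (h1 : α < 1) (hx : 0 < x) (hδ : 0 ≤ δ)
    (h : x + δ ≤ y) (hM : x + δ ≤ 4 * M) :
    (1 - α) * (M ^ (α - 2) / 16) * δ ≤ x ^ (α - 1) - y ^ (α - 1) := by
  have hM0 : 0 < M := by linarith
  have a1 := tvel_conv h1 hx (le_add_of_nonneg_right hδ)
  have a2 : y ^ (α - 1) ≤ (x + δ) ^ (α - 1) :=
    Real.rpow_le_rpow_of_nonpos (by linarith) h (by linarith)
  have a3 : (4 * M) ^ (α - 2) ≤ (x + δ) ^ (α - 2) :=
    Real.rpow_le_rpow_of_nonpos (by linarith) hM (by linarith)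
  have a4 := tvel_four hM0 (e := α - 2) (by linarith)
  have a5 : (1 - α) * (M ^ (α - 2) / 16) * δ ≤ (1 - α) * (x + δ) ^ (α - 2) * δ :=
    mul_le_mul_of_nonneg_right (mul_le_mul_of_nonneg_left (a4.trans a3) (by linarith)) hδ
  rw [add_sub_cancel_left] at a1
  linarith

theorem tvel_pos (α : ℝ) {x : ℤ} (hx : 0 < x) : vel α x = α * (x : ℝ) ^ (α - 1) := by
  have : (0 : ℝ) < x := by exact_mod_cast hx
  rw [vel, Int.sign_eq_one_of_pos hx, abs_of_pos this]
  simp

namespace Par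

variable {p : Par} {a : ℤ → ℂ} {b : Bool} {c : List St → ℤ}

theorem vel_gap {α : ℝ} (h0 : 0 < α) (h1 : α < 1) {x x' : ℤ} (hx : 0 < x) (h : x ≤ x') :
    α * (1 - α) * (x' : ℝ) ^ (α - 2) * ((x' : ℝ) - x) ≤ vel α x - vel α x' := by
  have a1 := tvel_conv h1 (x := x) (y := x') (by exact_mod_cast hx) (by exact_mod_cast h)
  rw [tvel_pos α hx, tvel_pos α (hx.trans_le h)]
  have := mul_le_mul_of_nonneg_left a1 h0.le
  linarith

theorem vel_neg (α : ℝ) (x : ℤ) : vel α (-x) = -vel α x := by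
  simp [vel]

/-- the gap of two points on the same side of the origin -/
theorem tvel_side {α δ M : ℝ} (h0 : 0 < α) (h1 : α < 1) {e x y : ℤ} (he : e = 1 ∨ e = -1)
    (hx : 0 < e * x) (hy : 0 < e * y) (hδ : 0 ≤ δ) (h : (x : ℝ) + δ ≤ y)
    (hM : min ((e * x : ℤ) : ℝ) ((e * y : ℤ) : ℝ) + δ ≤ 4 * M) :
    α * (1 - α) * (M ^ (α - 2) / 16 * δ) ≤ vel α x - vel α y := by
  rcases he with rfl | rfl
  · rw [one_mul] at hx hy hM
    rw [one_mul, min_eq_left (by linarith)] at hM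
    have a1 := tvel_gap h0 h1 (x := x) (by exact_mod_cast hx) hδ h hM
    rw [tvel_pos α hx, tvel_pos α hy]
    have := mul_le_mul_of_nonneg_left a1 h0.le
    linarith
  · rw [neg_one_mul] at hx hy hM
    rw [neg_one_mul, min_eq_right (by push_cast; linarith)] at hM
    have a1 := tvel_gap h0 h1 (x := ((-y : ℤ) : ℝ)) (y := ((-x : ℤ) : ℝ)) (by exact_mod_cast hy) hδ
      (by push_cast; linarith) hM
    have b1 := vel_neg α x
    have b2 := vel_neg α y
    rw [tvel_pos α hx] at b1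
    rw [tvel_pos α hy] at b2
    have := mul_le_mul_of_nonneg_left a1 h0.le
    linarith

theorem tvel_one {P : List St} (h : P.length = 1) : ∃ s, P = [s] := List.length_eq_one_iff.1 h

theorem tvel_c (hp : p.OK) (hc : p.sh.Conf c) {s : St} {y : List St} (h : s :: y ∈ p.sh.kinks)
    (hr : ¬Rt (s :: y)) : 8 * |s.ep * c (s.nd :: y)| ≤ 2 ^ s.j := by
  have h1 := hc.le (s.nd :: y)
  have h2 := Om_nr hp (mem_filter.1 (Sh.nd_mem h)).1 hr
  have h3 := (Sh.mem_kinks.1 h).1.hd_side.2.1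
  have h4 : (8 * p.sh.Om (s.nd :: y) : ℤ) = 2 ^ s.j := by exact_mod_cast h2
  have h5 : |s.ep * c (s.nd :: y)| = |c (s.nd :: y)| := by
    rcases h3 with h | h <;> simp [h]
  omega

theorem tvel_rng (hp : p.OK) (hc : p.sh.Conf c) {z : List St} (h : z ∈ p.sh.kinks) :
    15 * (2 : ℝ) ^ p.mz z ≤ 32 * |(p.ps b c z : ℝ)| ∧
      32 * |(p.ps b c z : ℝ)| ≤ 65 * 2 ^ p.mz z := by
  obtain ⟨h1, h2⟩ := ps_rng (b := b) hp hc h
  have h0 : (0 : ℤ) < 2 ^ p.mz z := by positivity
  have h3 : |p.ps b c z| = (top z).ep * p.ps b c z := by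
    rcases (xz_mem hp h).1 with e | e <;> rw [e] at h1 ⊢
    · rw [abs_of_pos (by omega)]; ring
    · rw [abs_of_neg (by omega)]; ring
  rw [← h3] at h1 h2
  exact ⟨by exact_mod_cast h1, by exact_mod_cast h2⟩

theorem pair_vel (hp : p.OK) (hc : p.sh.Conf c) {q : List St × List St} (hq : q ∈ p.pairs) :
    p.dq q ≤ vel p.α (p.ps b c q.1) - vel p.α (p.ps b c q.2) := by
  obtain ⟨P, Q⟩ := q
  obtain ⟨r1, r2, r3⟩ := pair_nr hq
  obtain ⟨⟨hP, hQ⟩, s1, s2, -, hl⟩ := mem_pairs.1 hq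
  simp only at r1 r2 r3 hP hQ s1 s2 hl ⊢
  have h0 : 0 < p.α := by linarith [hp.a1]
  have hL := hp.L_one
  have haa := hp.aa_pos
  obtain ⟨u1, u2⟩ := ps_rng (b := b) hp hc hP
  obtain ⟨v1, v2⟩ := ps_rng (b := b) hp hc hQ
  have kP : (0 : ℤ) < 2 ^ p.mz P := by positivity
  have kQ : (0 : ℤ) < 2 ^ p.mz Q := by positivity
  have u2' : 32 * (((top P).ep * p.ps b c P : ℤ) : ℝ) ≤ 65 * 2 ^ p.mz P := by exact_mod_cast u2
  have v2' : 32 * (((top Q).ep * p.ps b c Q : ℤ) : ℝ) ≤ 65 * 2 ^ p.mz Q := by exact_mod_cast v2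
  rcases hl with hl | hl
  · obtain ⟨e1, e2, -, -⟩ := hl.eqs (Sh.mem_kinks.1 hQ).1.ne_nil
    obtain ⟨l1, l2, l3, l4⟩ := hl
    rcases P with _ | ⟨s, y⟩
    · simp at l1
    rcases Q with _ | ⟨s', y'⟩
    · simp at r3
    obtain rfl : y' = y := l2
    have hy : y' ≠ [] := by rintro rfl; simp at l1
    have c1 := tvel_c hp hc hP r1
    have c2 := tvel_c hp hc hQ r2
    simp only [hd] at s1 s2 l3 l4
    have hj : (0 : ℤ) < 2 ^ s.j := by positivity
    have hL4 : (4 : ℤ) ≤ p.L := by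
      have : (4 : ℝ) ≤ p.L := le_trans (by norm_num) hL
      exact_mod_cast this
    have g1 : 16 * p.ps b c (s :: y') + p.L * 2 ^ s.j ≤ 16 * p.ps b c (s' :: y') := by
      simp only [ps, pos_cons, hy, false_and, if_false, s1, s2, l3] at c2 ⊢
      have := mul_le_mul_of_nonneg_right l4 hj.le
      have := mul_le_mul_of_nonneg_right hL4 hj.le
      have := abs_le.1 (le_refl |s.ep * c (s.nd :: y')|)
      have := abs_le.1 (le_refl |s'.ep * c (s'.nd :: y')|)
      nlinarith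
    have g2 : (p.ps b c (s :: y') : ℝ) + p.L * 2 ^ s.j / 16 ≤ p.ps b c (s' :: y') := by
      have : 16 * (p.ps b c (s :: y') : ℝ) + p.L * 2 ^ s.j ≤ 16 * p.ps b c (s' :: y') := by
        exact_mod_cast g1
      linarith
    rw [e1, e2] at v1 v2 v2'
    have hM : min (((top (s :: y')).ep * p.ps b c (s :: y') : ℤ) : ℝ)
        (((top (s :: y')).ep * p.ps b c (s' :: y') : ℤ) : ℝ) + p.L * 2 ^ s.j / 16 ≤
        4 * 2 ^ p.mz (s :: y') := by
      have k0 : (0 : ℝ) < 2 ^ p.mz (s :: y') := by positivity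
      rcases (xz_mem hp hP).1 with e | e <;> rw [e] at u2' v2' ⊢ <;> push_cast at u2' v2' ⊢
      · have := min_le_left (1 * (p.ps b c (s :: y') : ℝ)) (1 * (p.ps b c (s' :: y') : ℝ))
        linarith
      · have := min_le_right (-1 * (p.ps b c (s :: y') : ℝ)) (-1 * (p.ps b c (s' :: y') : ℝ))
        linarith
    have := tvel_side h0 hp.a2 (xz_mem hp hP).1 (by omega) (by omega) (by positivity) g2 hM
    refine le_trans (le_of_eq ?_) this
    have hne : (s :: y').length ≠ 1 := by omega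
    simp only [dq, hne, if_false, hd]
    ring
  · obtain ⟨l1, l2, n1, n2, l3, l4⟩ := hl
    obtain ⟨s, rfl⟩ := tvel_one l1
    obtain ⟨s', rfl⟩ := tvel_one l2
    have c1 := tvel_c hp hc hP r1
    have c2 := tvel_c hp hc hQ r2
    simp only [hd, top] at s1 s2 n1 n2 l4 u1 u2 v1 v2 u2' v2'
    set M : ℝ := 2 ^ min (p.mz [s]) (p.mz [s']) with hM
    have hM0 : 0 < M := by positivity
    have hMp : 0 < M ^ (p.α - 1) := Real.rpow_pos_of_pos hM0 _
    have e0 : p.dq ([s], [s']) = p.α * (1 - p.α) * (M ^ (p.α - 1) / (2 ^ 13 * p.L)) := by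
      simp [dq, hM]
    have hmin : min (65 * (2 : ℝ) ^ p.mz [s]) (65 * 2 ^ p.mz [s']) = 65 * M := by
      rcases le_total (p.mz [s]) (p.mz [s']) with h | h
      · rw [hM, min_eq_left h, min_eq_left (by gcongr; norm_num)]
      · rw [hM, min_eq_right h, min_eq_right (by gcongr; norm_num)]
    have hm2 : 32 * min ((s.ep * p.ps b c [s] : ℤ) : ℝ) ((s'.ep * p.ps b c [s'] : ℤ) : ℝ) ≤
        65 * M := by
      rw [← hmin]
      have m1 := min_le_left ((s.ep * p.ps b c [s] : ℤ) : ℝ) ((s'.ep * p.ps b c [s'] : ℤ) : ℝ)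
      have m2 := min_le_right ((s.ep * p.ps b c [s] : ℤ) : ℝ) ((s'.ep * p.ps b c [s'] : ℤ) : ℝ)
      exact le_min (by linarith) (by linarith)
    have hL1 : (1 : ℝ) ≤ p.L := le_trans (by norm_num) hL
    rw [e0]
    rcases l4 with ⟨l4, l5⟩ | ⟨l4, l5⟩
    · have hL4 : (32 : ℤ) ≤ p.L := by
        have : (32 : ℝ) ≤ p.L := le_trans (by norm_num) hL
        exact_mod_cast this
      set T : ℤ := 2 ^ max (p.mz [s]) (p.mz [s']) with hT
      have k1 : ∀ t : St, p.mz [t] ≤ max (p.mz [s]) (p.mz [s']) →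
          2 ^ t.j * ((p.L : ℤ) * p.L) ≤ T := by
        intro t ht
        have : (2 : ℤ) ^ t.j * ((p.L : ℤ) * p.L) = 2 ^ p.mz [t] := by
          simp only [mz, top, L]; push_cast; ring
        rw [this, hT]
        exact pow_le_pow_right₀ (by norm_num) ht
      have k2 := k1 s (le_max_left _ _)
      have k3 := k1 s' (le_max_right _ _)
      have p1 : p.ps b c [s] = p.xz [s] + s.ep * c [s.nd] := by
        simp only [ps, pos, xz, top, n1, s1, and_false, if_false]; ring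
      have p2 : p.ps b c [s'] = p.xz [s'] + s'.ep * c [s'.nd] := by
        simp only [ps, pos, xz, top, n2, s2, and_false, if_false]; ring
      rw [abs_sub_comm, abs_of_pos (by omega)] at l3
      have hj : (0 : ℤ) < 2 ^ s.j := by positivity
      have hj' : (0 : ℤ) < 2 ^ s'.j := by positivity
      have k4 : 32 * (2 ^ s.j * (p.L : ℤ)) ≤ T := by
        nlinarith [mul_le_mul_of_nonneg_left hL4 (by positivity : (0 : ℤ) ≤ 2 ^ s.j * p.L)]
      have k5 : 32 * (2 ^ s'.j * (p.L : ℤ)) ≤ T := by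
        nlinarith [mul_le_mul_of_nonneg_left hL4 (by positivity : (0 : ℤ) ≤ 2 ^ s'.j * p.L)]
      have g1 : T ≤ 128 * p.L * (p.ps b c [s'] - p.ps b c [s]) := by
        have b1 := abs_le.1 (le_refl |s.ep * c [s.nd]|)
        have b2 := abs_le.1 (le_refl |s'.ep * c [s'.nd]|)
        have b3 : 8 * (s.ep * c [s.nd]) * p.L ≤ 2 ^ s.j * p.L :=
          mul_le_mul_of_nonneg_right (by omega) (by omega)
        have b4 : 8 * -(s'.ep * c [s'.nd]) * p.L ≤ 2 ^ s'.j * p.L :=
          mul_le_mul_of_nonneg_right (by omega) (by omega)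
        rw [p1, p2]
        nlinarith
      have g0 : M ≤ (T : ℝ) := by
        rw [hM, hT]; push_cast
        exact pow_le_pow_right₀ (by norm_num) min_le_max
      have g2 : (p.ps b c [s] : ℝ) + M / (128 * p.L) ≤ p.ps b c [s'] := by
        have g3 : (T : ℝ) ≤ 128 * p.L * (p.ps b c [s'] - p.ps b c [s]) := by exact_mod_cast g1
        have : M / (128 * p.L) ≤ p.ps b c [s'] - p.ps b c [s] := by
          rw [div_le_iff₀ (by positivity)]; linarith
        linarith
      have g4 : M / (128 * p.L) ≤ M := div_le_self hM0.le (by linarith)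
      rw [← l4] at v1 hm2
      have := tvel_side (M := M) h0 hp.a2 (xz_mem hp hP).1 (x := p.ps b c [s])
        (y := p.ps b c [s']) (by simp only [top]; omega) (by simp only [top]; omega)
        (by positivity) g2 (by simp only [top]; linarith)
      refine le_trans (mul_le_mul_of_nonneg_left ?_ haa.le) this
      have e3 : M ^ (p.α - 2) = M ^ (p.α - 1) / M := by
        rw [← Real.rpow_sub_one hM0.ne']; congr 1; ring
      have e4 : M ^ (p.α - 2) / 16 * (M / (128 * p.L)) = M ^ (p.α - 1) / (2 ^ 11 * p.L) := by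
        rw [e3]; field_simp; norm_num
      rw [e4]
      gcongr <;> norm_num
    · rw [l4] at u1 hm2
      rw [l5] at v1 hm2
      have b2 := vel_neg p.α (p.ps b c [s'])
      have x1 : 0 < p.ps b c [s] := by omega
      have x2 : 0 < -p.ps b c [s'] := by omega
      rw [tvel_pos p.α x2] at b2
      rw [tvel_pos p.α x1]
      rw [one_mul, neg_one_mul] at hm2
      have y1 : (0 : ℝ) < p.ps b c [s] := by exact_mod_cast x1
      have y2 : (0 : ℝ) < ((-p.ps b c [s'] : ℤ) : ℝ) := by exact_mod_cast x2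
      have z1 := Real.rpow_pos_of_pos y1 (p.α - 1)
      have z2 := Real.rpow_pos_of_pos y2 (p.α - 1)
      have z3 := tvel_four hM0 (e := p.α - 1) (by linarith)
      have z4 : (4 * M) ^ (p.α - 1) ≤
          (p.ps b c [s] : ℝ) ^ (p.α - 1) + ((-p.ps b c [s'] : ℤ) : ℝ) ^ (p.α - 1) := by
        rcases le_total (p.ps b c [s] : ℝ) ((-p.ps b c [s'] : ℤ) : ℝ) with h | h
        · rw [min_eq_left h] at hm2
          have := Real.rpow_le_rpow_of_nonpos y1 (y := 4 * M) (z := p.α - 1) (by linarith)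
            (by linarith [hp.a2])
          linarith
        · rw [min_eq_right h] at hm2
          have := Real.rpow_le_rpow_of_nonpos y2 (y := 4 * M) (z := p.α - 1) (by linarith)
            (by linarith [hp.a2])
          linarith
      have z5 : M ^ (p.α - 1) / (2 ^ 13 * p.L) ≤ M ^ (p.α - 1) / 16 := by
        gcongr; linarith
      have z6 : (1 - p.α) * (M ^ (p.α - 1) / (2 ^ 13 * p.L)) ≤ M ^ (p.α - 1) / (2 ^ 13 * p.L) :=
        mul_le_of_le_one_left (by positivity) (by linarith)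
      have := mul_le_mul_of_nonneg_left (z6.trans (z5.trans (z3.trans z4))) h0.le
      linarith

end Par

end

end Pool.Agent.Lib.MMTX
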