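import Pool.Agent.Lib.MP_0dc93f_an.X.TKey
import Pool.Agent.Lib.MP_0dc93f_an.X.TWt
import Pool.Agent.Lib.MP_0dc93f_an.X.ParF

/-! The tree of kinks: pairs, positivity and one-sided bounds of their weights. -/

namespace Pool.Agent.Lib.MMTX

open Finset MMTW

noncomputable section

namespace Par

variable {p : Par}

theorem mem_pairs {q : List St × List St} : q ∈ p.pairs ↔
    (q.1 ∈ p.sh.kinks ∧ q.2 ∈ p.sh.kinks) ∧ (hd q.1).sg = 0 ∧ (hd q.2).sg = 0 ∧
      (hd q.1).i + (hd q.2).i ≤ p.G ∧ (p.Loc q.1 q.2 ∨ p.Tpp q.1 q.2) := by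
  unfold pairs
  simp only [mem_filter, mem_product]

theorem Loc.ex {P Q : List St} (h : p.Loc P Q) (hQ : Q ≠ []) :
    ∃ s s' y, y ≠ [] ∧ P = s :: y ∧ Q = s' :: y := by
  obtain ⟨h1, h2, -⟩ := h
  cases P with
  | nil => simp at h1
  | cons s y =>
    cases Q with
    | nil => exact absurd rfl hQ
    | cons s' y' =>
      simp only [List.tail_cons] at h2
      subst h2
      refine ⟨s, s', y', ?_, rfl, rfl⟩
      rintro rfl
      simp at h1

theorem nr_cons (s : St) {y : List St} (hy : y ≠ []) : ¬Rt (s :: y) := fun h => by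
  have := List.length_pos_iff.2 hy
  have h1 := h.1
  simp only [List.length_cons] at h1
  omega

theorem pair_nr {q : List St × List St} (hq : q ∈ p.pairs) :
    ¬Rt q.1 ∧ ¬Rt q.2 ∧ q.2.length = q.1.length := by
  obtain ⟨⟨-, h2⟩, -, -, -, h | h⟩ := mem_pairs.1 hq
  · obtain ⟨s, s', y, hy, e1, e2⟩ := h.ex (Sh.mem_kinks.1 h2).1.ne_nil
    rw [e1, e2]
    exact ⟨nr_cons s hy, nr_cons s' hy, rfl⟩
  · exact ⟨fun r => h.2.2.1 r.2, fun r => h.2.2.2.1 r.2, by rw [h.1, h.2.1]⟩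

theorem Loc.eqs {P Q : List St} (h : p.Loc P Q) (hQ : Q ≠ []) :
    top Q = top P ∧ p.mz Q = p.mz P ∧ p.wz Q = p.wz P ∧ p.kz Q = p.kz P := by
  obtain ⟨s, s', y, hy, rfl, rfl⟩ := h.ex hQ
  have e : top (s' :: y) = top (s :: y) := by rw [top_cons _ hy, top_cons _ hy]
  have e2 : p.mz (s' :: y) = p.mz (s :: y) := by unfold mz; rw [e]
  refine ⟨e, e2, ?_, ?_⟩
  · unfold wz
    rw [if_neg (nr_cons s hy), if_neg (nr_cons s' hy), e2]
    rfl
  · unfold kz
    rw [e2]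
    rfl

theorem Loc.w_le (hp : p.OK) {P Q : List St} (hP : P ∈ p.sh.kinks) (hQ : Q ∈ p.sh.kinks)
    (h : p.Loc P Q) : (hd P).w ≤ p.L * (hd Q).w ∧ (hd Q).w ≤ p.L * (hd P).w := by
  obtain ⟨a1, a2, -⟩ := MMTX.Par.w_le hp hP
  obtain ⟨b1, b2, -⟩ := MMTX.Par.w_le hp hQ
  rw [h.2.2.1] at b1 b2
  have c1 := Nat.mul_le_mul_left p.L a1
  have c2 := Nat.mul_le_mul_left p.L b1
  rw [mul_left_comm] at c1 c2
  omega

theorem OK.L_pos (hp : p.OK) : (0 : ℝ) < p.L := lt_of_lt_of_le (by positivity) hp.L_one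

theorem OK.zz_pos (hp : p.OK) (m : ℕ) : 0 < p.zz m :=
  lt_of_lt_of_le (by have := hp.ρ_one; positivity) (hp.zz_ge m)

theorem OK.c_B (hp : p.OK) {n : ℕ} (hn : n ≤ 59) : 2 ^ 13 * (p.L : ℝ) ^ n ≤ p.B := by
  have h := hp.L_one
  have h1 : (1 : ℝ) ≤ p.L := le_trans (by norm_num) h
  calc 2 ^ 13 * (p.L : ℝ) ^ n ≤ p.L * p.L ^ n := by
        gcongr
        exact le_trans (by norm_num) h
    _ = p.L ^ (n + 1) := by ring
    _ ≤ p.L ^ 60 := pow_le_pow_right₀ h1 (by omega)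
    _ ≤ p.B := hp.L_B

theorem tq_pos (hp : p.OK) (q : List St × List St) : 0 < p.tq q := by
  have := hp.L_pos
  unfold tq
  positivity

theorem dq_pos (hp : p.OK) (q : List St × List St) : 0 < p.dq q := by
  have := hp.L_pos
  unfold dq
  refine mul_pos hp.aa_pos ?_
  split_ifs <;> positivity

theorem Zq_pos (hp : p.OK) (q : List St × List St) : 0 < p.Zq q := by
  have := hp.B_pos
  have := hp.h0
  have := wz_pos hp q.1.tail
  unfold Zq
  refine mul_pos (by positivity) ?_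
  split_ifs
  · exact mul_pos (hp.gg_pos _) (hp.zz_pos _)
  · positivity

theorem Wq_pos (hp : p.OK) (q : List St × List St) : 0 < p.Wq q := by
  exact div_pos (Zq_pos hp q) (dq_pos hp q)

theorem mq_pos (hp : p.OK) (z : List St) : 0 < p.mq z := by
  have := hp.kp_pos (p.mz z)
  have : 0 < (hd z).w := by unfold St.w; positivity
  unfold mq
  split_ifs
  · exact hp.mb_pos _
  · positivity

/-- the inverse group velocity at the scale `2 ^ m` -/
def Xv (p : Par) (m : ℕ) : ℝ := ((2 : ℝ) ^ m) ^ (1 - p.α)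

theorem Xv_pos (p : Par) (m : ℕ) : 0 < p.Xv m := by unfold Xv; positivity

theorem rp1 (p : Par) (m : ℕ) : ((2 : ℝ) ^ m) ^ (p.α - 1) = (p.Xv m)⁻¹ := by
  unfold Xv
  rw [← Real.rpow_neg (by positivity)]
  congr 1
  ring

theorem rp2 (p : Par) (m : ℕ) : ((2 : ℝ) ^ m) ^ (p.α - 2) = (p.Xv m)⁻¹ / 2 ^ m := by
  rw [show p.α - 2 = p.α - 1 - 1 by ring, Real.rpow_sub_one (by positivity), rp1]

theorem dq_loc (hp : p.OK) {q : List St × List St} (h : q.1.length ≠ 1) :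
    2 ^ (hd q.1).j ≤ p.dq q * (256 * 2 ^ p.mz q.1 * p.Xv (p.mz q.1)) := by
  have := p.Xv_pos (p.mz q.1)
  unfold dq
  rw [if_neg h, rp2]
  calc (2 : ℝ) ^ (hd q.1).j ≤ (p.L * (p.α * (1 - p.α))) * 2 ^ (hd q.1).j :=
        le_mul_of_one_le_left (by positivity) hp.L_aa
    _ = _ := by field_simp

theorem dq_top (hp : p.OK) {q : List St × List St} (h : q.1.length = 1) :
    1 ≤ p.dq q * (2 ^ 13 * (p.L : ℝ) ^ 2 * p.Xv (min (p.mz q.1) (p.mz q.2))) := by
  have := p.Xv_pos (min (p.mz q.1) (p.mz q.2))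
  have := hp.L_pos
  unfold dq
  rw [if_pos h, rp1]
  calc (1 : ℝ) ≤ p.L * (p.α * (1 - p.α)) := hp.L_aa
    _ = _ := by field_simp

theorem Wq_loc_le (hp : p.OK) {q : List St × List St} (h : q.1.length ≠ 1) :
    p.Wq q ≤ p.η ^ ((hd q.1).i + (hd q.2).i) *
      (p.B ^ 10 * p.wz q.1.tail * (256 * 2 ^ p.mz q.1 * p.Xv (p.mz q.1))) := by
  have := hp.B_pos
  have := hp.h0
  have := wz_pos hp q.1.tail
  have h1 := dq_loc hp h
  unfold Wq Zq
  rw [if_neg h, div_le_iff₀ (dq_pos hp q)]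
  calc _ ≤ p.η ^ ((hd q.1).i + (hd q.2).i) * (p.B ^ 10 * p.wz q.1.tail *
        (p.dq q * (256 * 2 ^ p.mz q.1 * p.Xv (p.mz q.1)))) := by gcongr
    _ = _ := by ring

theorem Wq_top_le (hp : p.OK) {q : List St × List St} (h : q.1.length = 1) :
    p.Wq q ≤ p.η ^ ((hd q.1).i + (hd q.2).i) *
      (p.gg (max (p.mz q.1) (p.mz q.2)) * p.zz (min (p.mz q.1) (p.mz q.2)) *
        (2 ^ 13 * (p.L : ℝ) ^ 2 * p.Xv (min (p.mz q.1) (p.mz q.2)))) := by
  have h1 := dq_top hp h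
  have h2 := Zq_pos hp q
  unfold Wq
  rw [div_le_iff₀ (dq_pos hp q)]
  refine (le_mul_of_one_le_right h2.le h1).trans (le_of_eq ?_)
  unfold Zq
  rw [if_pos h]
  ring

theorem tail_mem {s : St} {y : List St} (h : s :: y ∈ p.sh.kinks) (hy : y ≠ []) :
    y ∈ p.sh.kinks := by
  rw [Sh.mem_kinks] at h ⊢
  refine ⟨((Sh.ok_cons hy).1 h.1).1, ?_⟩
  have := h.2
  simp only [List.length_cons] at this
  omega

theorem mz_cons (p : Par) (s : St) {y : List St} (hy : y ≠ []) : p.mz (s :: y) = p.mz y := by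
  unfold mz
  rw [top_cons _ hy]

/-- the weight of a child against the weight of its parent -/
theorem wz_kid (hp : p.OK) {s : St} {y : List St} (h : y ∈ p.sh.kinks) :
    p.wz y * (p.mb (p.mz y) * p.Xv (p.mz y) * p.B ^ 30) ≤ p.wz (s :: y) := by
  have hy := (Sh.mem_kinks.1 h).1.ne_nil
  have e : p.wz (s :: y) = p.η ^ y.length * (p.θ * p.gg (p.mz y) / 2 ^ p.mz y) := by
    unfold wz
    rw [if_neg (nr_cons s hy), mz_cons p s hy]
    rfl
  by_cases hr : Rt y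
  · have h0 : (top y).n = 0 := by
      obtain ⟨s', rfl⟩ := List.length_eq_one_iff.1 hr.1
      exact hr.2
    rw [e, mz_rt hp h h0, hp.gg_mN, hr.1, mul_div_assoc, div_self (by positivity)]
    unfold wz
    rw [if_pos hr, one_mul, pow_one, mul_one]
    exact hp.keyN
  · have e2 : p.wz (s :: y) = p.wz y * p.η := by
      have := List.length_pos_iff.2 hy
      rw [e]
      unfold wz
      rw [if_neg hr, mul_right_comm, ← pow_succ, Nat.sub_add_cancel this]
    rw [e2]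
    refine mul_le_mul_of_nonneg_left ?_ (wz_pos hp y).le
    refine (hp.key0 (mz_mem hp h).1).trans ?_
    exact pow_le_of_le_one hp.h0.le hp.η_le (by norm_num)

end Par

end

end Pool.Agent.Lib.MMTX
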