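import Pool.Agent.Lib.MP_0dc93f_an.X.TW0

/-! The tree of kinks: pairs and their weights. -/

namespace Pool.Agent.Lib.MMTX

open Finset MMTW

noncomputable section

namespace Par

variable {p : Par}

theorem w1_loc {W e B L wy K X mb w w' wz : ℝ} (he : 0 ≤ e) (hB : 1 ≤ B)
    (hy : 0 ≤ wy) (hK : 0 < K) (hX : 0 ≤ X) (hm : 0 ≤ mb) (hw : 0 ≤ w) (hw' : 0 ≤ w')
    (hc : 2 ^ 13 * L ^ 1 ≤ B) (h1 : W ≤ e * (B ^ 10 * wy * (256 * K * X))) (h2 : w' ≤ L * w)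
    (h3 : wy * (mb * X * B ^ 30) ≤ wz) : W * (2 * (B * mb / K) * w') * B ^ 5 ≤ e * (wz * w) := by
  have hB0 : 0 ≤ B := by linarith
  have h4 : 512 * L ≤ B ^ 14 := by
    have := le_self_pow₀ hB (show 14 ≠ 0 by norm_num)
    linarith
  calc _ ≤ e * (B ^ 10 * wy * (256 * K * X)) * (2 * (B * mb / K) * (L * w)) * B ^ 5 := by gcongr
    _ = e * (wy * (mb * X * (512 * L * B ^ 16)) * w) := by field_simp; ring
    _ ≤ e * (wy * (mb * X * (B ^ 14 * B ^ 16)) * w) := by gcongr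
    _ = e * (wy * (mb * X * B ^ 30) * w) := by ring
    _ ≤ _ := by gcongr

theorem top_key (hp : p.OK) {m m' : ℕ} (h : p.m0 ≤ m) (h' : p.m0 ≤ m') :
    p.gg (max m m') * (p.zz (min m m') * (p.mb m' * p.Xv (min m m')) * p.B ^ 30) ≤
      p.gg m * p.θ := by
  have := hp.B_pos
  rcases le_total m m' with hm | hm
  · rw [max_eq_right hm, min_eq_left hm]
    have := hp.zz_pos m
    have := p.Xv_pos m
    calc _ = p.gg m' * p.mb m' * (p.zz m * p.Xv m * p.B ^ 30) := by ring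
      _ ≤ p.gg m * p.mb m * (p.zz m * p.Xv m * p.B ^ 30) :=
        mul_le_mul_of_nonneg_right (hp.gg_mb_anti hm) (by positivity)
      _ = p.gg m * (p.zz m * (p.mb m * p.Xv m) * p.B ^ 30) := by ring
      _ ≤ _ := mul_le_mul_of_nonneg_left (hp.key1 h) (hp.gg_pos m).le
  · rw [max_eq_left hm, min_eq_right hm]
    exact mul_le_mul_of_nonneg_left (hp.key1 h') (hp.gg_pos m).le

theorem wz_top (hp : p.OK) {z : List St} (h : z ∈ p.sh.kinks) (h1 : z.length = 1) (hr : ¬Rt z) :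
    p.gg (p.mz z) * p.θ ≤ p.wz z * (hd z).w * (p.L : ℝ) ^ 2 := by
  have hw : (4 * 2 ^ (hd z).j : ℝ) ≤ (hd z).w := by exact_mod_cast (w_le hp h).1
  obtain ⟨s, rfl⟩ := List.length_eq_one_iff.1 h1
  have e : (2 : ℝ) ^ p.mz [s] = 2 ^ s.j * (p.L : ℝ) ^ 2 := by
    unfold mz L
    push_cast
    rw [top_one, pow_add, ← pow_mul, mul_comm p.l]
  have := hp.L_pos
  have := hp.θ_pos
  have := hp.gg_pos (p.mz [s])
  have h2 : (2 : ℝ) ^ s.j ≤ (hd [s]).w := le_trans (by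
    have : (0 : ℝ) < 2 ^ s.j := by positivity
    rw [hd_cons]
    linarith) hw
  unfold wz
  rw [if_neg hr, h1, Nat.sub_self, pow_zero, one_mul, e]
  calc _ = p.θ * p.gg (p.mz [s]) / (2 ^ s.j * (p.L : ℝ) ^ 2) * 2 ^ s.j * (p.L : ℝ) ^ 2 := by
        field_simp
    _ ≤ _ := by gcongr

theorem w1_top {W e B L g zz X mb y : ℝ} (he : 0 ≤ e) (hB : 1 ≤ B) (hL : 0 < L)
    (hg : 0 ≤ g) (hz : 0 ≤ zz) (hX : 0 ≤ X) (hm : 0 ≤ mb)
    (hc : 2 ^ 13 * L ^ 4 ≤ B) (h1 : W ≤ e * (g * zz * (2 ^ 13 * L ^ 2 * X)))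
    (h3 : g * (zz * (mb * X) * B ^ 30) ≤ y * L ^ 2) : W * mb * B ^ 5 ≤ e * y := by
  have hB0 : 0 ≤ B := by linarith
  have h4 : 2 ^ 13 * L ^ 4 ≤ B ^ 25 := hc.trans (le_self_pow₀ hB (by norm_num))
  refine le_of_mul_le_mul_right ?_ (show 0 < L ^ 2 by positivity)
  calc _ ≤ e * (g * zz * (2 ^ 13 * L ^ 2 * X)) * mb * B ^ 5 * L ^ 2 := by gcongr
    _ = e * (g * (zz * (mb * X) * (2 ^ 13 * L ^ 4 * B ^ 5))) := by ring
    _ ≤ e * (g * (zz * (mb * X) * (B ^ 25 * B ^ 5))) := by gcongr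
    _ = e * (g * (zz * (mb * X) * B ^ 30)) := by ring
    _ ≤ e * (y * L ^ 2) := by gcongr
    _ = _ := by ring

/-- the weight of a pair against the weight of the kinks of each window -/
theorem w1 (hp : p.OK) {q : List St × List St} (hq : q ∈ p.pairs) :
    p.Wq q * p.mq q.2 * p.B ^ 5 ≤ p.η ^ ((hd q.1).i + (hd q.2).i) * (p.wz q.1 * (hd q.1).w) ∧
      p.Wq q * p.mq q.1 * p.B ^ 5 ≤
        p.η ^ ((hd q.1).i + (hd q.2).i) * (p.wz q.2 * (hd q.2).w) := by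
  obtain ⟨n1, n2, hl⟩ := pair_nr hq
  obtain ⟨⟨k1, k2⟩, -, -, -, h | h⟩ := mem_pairs.1 hq
  all_goals have he : 0 ≤ p.η ^ ((hd q.1).i + (hd q.2).i) := pow_nonneg hp.h0.le _
  · have l1 : q.1.length ≠ 1 := by have := h.1; omega
    have hW := Wq_loc_le hp l1
    obtain ⟨a1, a2⟩ := h.w_le hp k1 k2
    obtain ⟨-, e1, e2, -⟩ := h.eqs (Sh.mem_kinks.1 k2).1.ne_nil
    obtain ⟨s, s', y, hy, f1, f2⟩ := h.ex (Sh.mem_kinks.1 k2).1.ne_nil
    have hk : p.wz q.1.tail * (p.mb (p.mz q.1) * p.Xv (p.mz q.1) * p.B ^ 30) ≤ p.wz q.1 := by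
      rw [f1] at k1 ⊢
      rw [mz_cons p s hy]
      exact wz_kid hp (tail_mem k1 hy)
    unfold mq kp
    rw [if_neg l1, if_neg (hl ▸ l1), e1, e2]
    constructor <;> refine w1_loc he hp.B_one (wz_pos hp _).le (by positivity)
      (p.Xv_pos _).le (hp.mb_pos _).le (by positivity) (by positivity) (hp.c_B (by norm_num)) hW
      ?_ hk
    · exact_mod_cast a2
    · exact_mod_cast a1
  · have hW := Wq_top_le hp h.1
    have m1 := (mz_mem hp k1).1
    have m2 := (mz_mem hp k2).1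
    unfold mq
    rw [if_pos h.1, if_pos h.2.1]
    constructor <;> refine w1_top he hp.B_one hp.L_pos (hp.gg_pos _).le (hp.zz_pos _).le
      (p.Xv_pos _).le (hp.mb_pos _).le (hp.c_B (by norm_num)) hW ?_
    · exact (top_key hp m1 m2).trans (wz_top hp k1 h.1 n1)
    · rw [max_comm, min_comm]
      exact (top_key hp m2 m1).trans (wz_top hp k2 h.2.1 n2)

theorem w_val (hp : p.OK) {q : List St × List St} (hq : q ∈ p.pairs) :
    p.Wq q * (p.mb (p.mz q.1) * p.mb (p.mz q.2)) * p.B ^ 4 ≤ p.S0 := by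
  obtain ⟨⟨k1, k2⟩, -, -, -, h | h⟩ := mem_pairs.1 hq
  all_goals
    have he : p.η ^ ((hd q.1).i + (hd q.2).i) ≤ 1 := pow_le_one₀ hp.h0.le hp.η_le
    have hB := hp.B_pos
    have hL := hp.L_pos
    have b1 := hp.mb_pos (p.mz q.1)
    have b2 := hp.mb_pos (p.mz q.2)
    have hS := hp.S0_pos
  · have l1 : q.1.length ≠ 1 := by have := h.1; omega
    have hX := p.Xv_pos (p.mz q.1)
    have hy0 := wz_pos hp q.1.tail
    have hW := (Wq_loc_le hp l1).trans (mul_le_of_le_one_left (by positivity) he)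
    obtain ⟨-, e1, -⟩ := h.eqs (Sh.mem_kinks.1 k2).1.ne_nil
    obtain ⟨s, s', y, hy, f1, f2⟩ := h.ex (Sh.mem_kinks.1 k2).1.ne_nil
    have hk : p.wz q.1.tail * 2 ^ p.mz q.1 * p.mb (p.mz q.1) ≤ p.S0 := by
      rw [f1] at k1 ⊢
      rw [mz_cons p s hy]
      exact wz_S0 hp (tail_mem k1 hy)
    have h0 : p.mb (p.mz q.1) * p.Xv (p.mz q.1) * p.B ^ 30 ≤ 1 :=
      (hp.key0 (mz_mem hp k1).1).trans (pow_le_one₀ hp.h0.le hp.η_le)
    have h4 : 256 ≤ p.B ^ 16 := by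
      have h5 := hp.c_B (n := 0) (by norm_num)
      have := le_self_pow₀ hp.B_one (show 16 ≠ 0 by norm_num)
      rw [pow_zero] at h5
      linarith
    rw [e1]
    calc _ ≤ p.B ^ 10 * p.wz q.1.tail * (256 * 2 ^ p.mz q.1 * p.Xv (p.mz q.1)) *
          (p.mb (p.mz q.1) * p.mb (p.mz q.1)) * p.B ^ 4 := by gcongr
      _ = p.wz q.1.tail * 2 ^ p.mz q.1 * p.mb (p.mz q.1) *
          (p.mb (p.mz q.1) * p.Xv (p.mz q.1) * (256 * p.B ^ 14)) := by ring
      _ ≤ p.S0 * (p.mb (p.mz q.1) * p.Xv (p.mz q.1) * (p.B ^ 16 * p.B ^ 14)) := by gcongr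
      _ = p.S0 * (p.mb (p.mz q.1) * p.Xv (p.mz q.1) * p.B ^ 30) := by ring
      _ ≤ _ := mul_le_of_le_one_right hS.le h0
  · have m1 := (mz_mem hp k1).1
    have m2 := (mz_mem hp k2).1
    have hX := p.Xv_pos (min (p.mz q.1) (p.mz q.2))
    have hz := hp.zz_pos (min (p.mz q.1) (p.mz q.2))
    have hg := hp.gg_pos (max (p.mz q.1) (p.mz q.2))
    have hL1 : (1 : ℝ) ≤ p.L := le_trans (by norm_num) hp.L_one
    have h1 := w1_top (y := p.gg (p.mz q.1)) zero_le_one hp.B_one hL hg.le hz.le hX.le b2.le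
      (hp.c_B (by norm_num)) ((Wq_top_le hp h.1).trans (by gcongr))
      ((top_key hp m1 m2).trans (mul_le_mul_of_nonneg_left
        ((hp.θ_le.trans hp.η_le).trans (one_le_pow₀ hL1)) (hp.gg_pos _).le))
    have hW := Wq_pos hp q
    calc _ = p.Wq q * p.mb (p.mz q.2) * p.B ^ 4 * p.mb (p.mz q.1) := by ring
      _ ≤ p.Wq q * p.mb (p.mz q.2) * p.B ^ 5 * p.mb (p.mz q.1) := by
        gcongr
        exacts [hp.B_one, by norm_num]
      _ ≤ 1 * p.gg (p.mz q.1) * p.mb (p.mz q.1) := by gcongr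
      _ ≤ _ := by rw [one_mul]; exact hp.gg_mb _

theorem kp_core {x c η d M B : ℝ} (hB : 1 ≤ B) (hc : 0 < c) (hη : 0 ≤ η) (hη1 : η ≤ 1)
    (hM : 0 ≤ M) {u : ℝ} (hu : 0 ≤ u) (h1 : u ≤ d * c) (h2 : x * c ≤ M * B ^ 7 * u)
    (h3 : M * B ^ 30 ≤ η ^ 3) : x ≤ η * d := by
  refine le_of_mul_le_mul_right ?_ hc
  have h4 : M * B ^ 7 ≤ η :=
    (mul_le_mul_of_nonneg_left (pow_le_pow_right₀ hB (by norm_num)) hM).trans
      (h3.trans (pow_le_of_le_one hη hη1 (by norm_num)))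
  calc x * c ≤ M * B ^ 7 * u := h2
    _ ≤ η * (d * c) := by gcongr
    _ = _ := by ring

/-- the density times the width against the velocity gap -/
theorem kp_dq (hp : p.OK) {q : List St × List St} (hq : q ∈ p.pairs) :
    p.kp (p.mz q.1) * (hd q.1).w * p.B ^ 5 ≤ p.η * p.dq q ∧
      p.kp (p.mz q.2) * (hd q.2).w * p.B ^ 5 ≤ p.η * p.dq q := by
  obtain ⟨⟨k1, k2⟩, -, -, -, h | h⟩ := mem_pairs.1 hq
  all_goals
    have hB := hp.B_pos
    have hL := hp.L_pos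
    have m1 := (mz_mem hp k1).1
    have m2 := (mz_mem hp k2).1
  · have l1 : q.1.length ≠ 1 := by have := h.1; omega
    have hX := p.Xv_pos (p.mz q.1)
    have b1 := hp.mb_pos (p.mz q.1)
    obtain ⟨-, e1, -⟩ := h.eqs (Sh.mem_kinks.1 k2).1.ne_nil
    have key : ∀ w : ℕ, 2 ^ 40 * w ≤ p.L * 2 ^ (hd q.1).j →
        p.kp (p.mz q.1) * w * p.B ^ 5 ≤ p.η * p.dq q := by
      intro w hw
      have hw' : (w : ℝ) ≤ p.L * 2 ^ (hd q.1).j := by
        exact_mod_cast le_trans (Nat.le_mul_of_pos_left _ (by positivity)) hw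
      have hc : 256 * (p.L : ℝ) ≤ p.B := by
        have := hp.c_B (n := 1) (by norm_num)
        linarith
      refine kp_core hp.B_one (by positivity) hp.h0.le hp.η_le (by positivity) (by positivity)
        (dq_loc hp l1) ?_ (hp.key0 m1)
      unfold kp
      calc _ ≤ p.B * p.mb (p.mz q.1) / 2 ^ p.mz q.1 * (p.L * 2 ^ (hd q.1).j) * p.B ^ 5 *
            (256 * 2 ^ p.mz q.1 * p.Xv (p.mz q.1)) := by gcongr
        _ = p.mb (p.mz q.1) * p.Xv (p.mz q.1) * (256 * p.L * p.B ^ 6) * 2 ^ (hd q.1).j := by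
          field_simp
        _ ≤ p.mb (p.mz q.1) * p.Xv (p.mz q.1) * (p.B * p.B ^ 6) * 2 ^ (hd q.1).j := by gcongr
        _ = _ := by unfold Xv; ring
    refine ⟨key _ (w_le hp k1).2.1, ?_⟩
    rw [e1]
    exact key _ (h.2.2.1 ▸ (w_le hp k2).2.1)
  · have hX := p.Xv_pos (min (p.mz q.1) (p.mz q.2))
    have b1 := hp.mb_pos (min (p.mz q.1) (p.mz q.2))
    have key : ∀ m w : ℕ, min (p.mz q.1) (p.mz q.2) ≤ m → 2 ^ 40 * p.L * w ≤ 2 ^ m →
        p.kp m * w * p.B ^ 5 ≤ p.η * p.dq q := by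
      intro m w hm hw
      have hw' : (w : ℝ) ≤ 2 ^ m := by
        have : 0 < p.L := by exact_mod_cast hL
        exact_mod_cast le_trans (Nat.le_mul_of_pos_left _ (by positivity)) hw
      have hb := hp.mb_anti hm
      have b2 := hp.mb_pos m
      have hc := hp.c_B (n := 2) (by norm_num)
      refine kp_core hp.B_one (by positivity) hp.h0.le hp.η_le (by positivity) zero_le_one
        (dq_top hp h.1) ?_ (hp.key0 (le_min m1 m2))
      unfold kp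
      calc _ ≤ p.B * p.mb (min (p.mz q.1) (p.mz q.2)) / 2 ^ m * 2 ^ m * p.B ^ 5 *
            (p.B * p.Xv (min (p.mz q.1) (p.mz q.2))) := by gcongr
        _ = _ := by unfold Xv; field_simp
    exact ⟨key _ _ (min_le_left _ _) (w_le hp k1).2.2.1, key _ _ (min_le_right _ _)
      (w_le hp k2).2.2.1⟩

end Par

end

end Pool.Agent.Lib.MMTX
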