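import Pool.Agent.Lib.MP_0dc93f_an.X.Win

/-! Bounds for quartic forms with product symbols. -/

namespace Pool.Agent.Lib.MMTX

open Finset Complex ComplexConjugate MMTW

noncomputable section

variable (Kc : ℕ) (a : ℤ → ℂ)

/-- expansion of a quartic product -/
lemma quart (c : Fin 4 → ℤ → ℂ) (x : ℝ) :
    (∑ k ∈ FF Kc, c 0 k * ex x k) * conj (∑ k ∈ FF Kc, c 1 k * ex x k) *
      (∑ k ∈ FF Kc, c 2 k * ex x k) * conj (∑ k ∈ FF Kc, c 3 k * ex x k) =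
    ∑ k ∈ F4 Kc, c 0 (k 0) * conj (c 1 (k 1)) * c 2 (k 2) * conj (c 3 (k 3)) * ex x (De k) := by
  have h := Finset.prod_univ_sum (fun _ : Fin 4 => FF Kc)
    (![fun j => c 0 j * ex x j, fun j => conj (c 1 j * ex x j), fun j => c 2 j * ex x j,
      fun j => conj (c 3 j * ex x j)] : Fin 4 → ℤ → ℂ)
  simp only [Fin.prod_univ_four, Matrix.cons_val_zero, Matrix.cons_val_one, Matrix.cons_val] at h
  rw [map_sum, map_sum, h]
  refine Finset.sum_congr rfl fun k _ => ?_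
  unfold De
  rw [map_mul, map_mul, conj_ex, conj_ex, sub_eq_add_neg, sub_eq_add_neg, ex_add, ex_add, ex_add]
  ring

/-- a quartic sum against a polynomial in the defect is an average -/
lemma quart_avc (c : Fin 4 → ℤ → ℂ) (J : Finset ℤ) (d : ℤ → ℂ) :
    ∑ ζ ∈ J, (∑ k ∈ F4 Kc with De k = ζ,
      c 0 (k 0) * conj (c 1 (k 1)) * c 2 (k 2) * conj (c 3 (k 3))) * conj (d ζ) =
    avc fun x => (∑ k ∈ FF Kc, c 0 k * ex x k) * conj (∑ k ∈ FF Kc, c 1 k * ex x k) *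
      (∑ k ∈ FF Kc, c 2 k * ex x k) * conj (∑ k ∈ FF Kc, c 3 k * ex x k) *
        conj (∑ ζ ∈ J, d ζ * ex x ζ) := by
  simp only [quart]
  set b : (Fin 4 → ℤ) → ℂ := fun k =>
    c 0 (k 0) * conj (c 1 (k 1)) * c 2 (k 2) * conj (c 3 (k 3)) with hb
  have e : (fun x => (∑ k ∈ F4 Kc, b k * ex x (De k)) * conj (∑ ζ ∈ J, d ζ * ex x ζ)) =
      fun x => ∑ ζ ∈ J, ∑ k ∈ F4 Kc, b k * conj (d ζ) * ex x (De k - ζ) := by
    ext x
    rw [map_sum, Finset.sum_mul_sum, Finset.sum_comm]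
    refine Finset.sum_congr rfl fun ζ _ => Finset.sum_congr rfl fun k _ => ?_
    rw [map_mul, conj_ex, sub_eq_add_neg, ex_add]
    ring
  rw [e, avc_sum J (fun ζ x => ∑ k ∈ F4 Kc, b k * conj (d ζ) * ex x (De k - ζ))
    fun ζ _ => by fun_prop]
  refine Finset.sum_congr rfl fun ζ _ => ?_
  rw [avc_sum (F4 Kc) (fun k x => b k * conj (d ζ) * ex x (De k - ζ)) fun k _ => by fun_prop]
  simp only [avc_smul, avc_ex, sub_eq_zero, mul_ite, mul_one, mul_zero]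
  rw [Finset.sum_mul, Finset.sum_filter]

lemma pr_Bq (f : Fin 4 → ℤ → ℝ) (k : Fin 4 → ℤ) : (pr f k : ℂ) * Bq a k =
    (f 0 (k 0) : ℂ) * a (k 0) * conj ((f 1 (k 1) : ℂ) * a (k 1)) * ((f 2 (k 2) : ℂ) * a (k 2)) *
      conj ((f 3 (k 3) : ℂ) * a (k 3)) := by
  unfold pr Bq
  rw [Fin.prod_univ_four, map_mul, map_mul, conj_ofReal, conj_ofReal]
  push_cast
  ring

/-- a quartic form with a product symbol is below the average of the product -/
theorem Qf_le_av (ζ : ℤ) (f : Fin 4 → ℤ → ℝ) :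
    ‖Qf Kc a ζ (pr f)‖ ≤ av fun x => ∏ i, ‖Uf Kc a (f i) x‖ := by
  have h := quart_avc Kc (fun i k => (f i k : ℂ) * a k) {ζ} fun _ => 1
  simp only [Finset.sum_singleton, map_one, mul_one, one_mul] at h
  unfold Qf
  simp only [pr_Bq]
  rw [h]
  refine (avc_norm _).trans (le_of_eq ?_)
  congr 1
  ext x
  simp only [norm_mul, Complex.norm_conj, norm_ex, mul_one, Fin.prod_univ_four, Uf]

lemma bi_nonneg (f g : ℤ → ℝ) : 0 ≤ bi Kc a f g := av_nonneg fun _ => by positivity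

lemma bi_symm (f g : ℤ → ℝ) : bi Kc a f g = bi Kc a g f := by
  unfold bi
  simp only [mul_comm]

/-- (T) two bilinear factors -/
theorem tup_bi (ζ : ℤ) (f : Fin 4 → ℤ → ℝ) (σ : Equiv.Perm (Fin 4)) :
    ‖Qf Kc a ζ (pr f)‖ ≤ √(bi Kc a (f (σ 0)) (f (σ 1)) * bi Kc a (f (σ 2)) (f (σ 3))) := by
  have c := fun i => (Uf_cont Kc a (f i)).norm
  have h := av_cs ((c (σ 0)).mul (c (σ 1))) ((c (σ 2)).mul (c (σ 3)))
  simp only [Pi.mul_apply, mul_pow] at h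
  refine (Qf_le_av Kc a ζ f).trans (le_trans (le_of_eq ?_) h)
  congr 1
  ext x
  rw [← Equiv.prod_comp σ, Fin.prod_univ_four]
  ring

lemma Uf_le_l1 (f : ℤ → ℝ) (x : ℝ) : ‖Uf Kc a f x‖ ≤ ∑ k ∈ FF Kc, |f k| * ‖a k‖ := by
  refine (norm_sum_le _ _).trans (le_of_eq (Finset.sum_congr rfl fun k _ => ?_))
  rw [norm_mul, norm_mul, norm_ex, mul_one, Complex.norm_real, Real.norm_eq_abs]

/-- Plancherel identity -/
lemma av_Uf (f : ℤ → ℝ) :
    (av fun x => ‖Uf Kc a f x‖ ^ 2) = ∑ k ∈ FF Kc, f k ^ 2 * ‖a k‖ ^ 2 := by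
  apply Complex.ofReal_injective
  have e1 : ∀ z : ℂ, ((‖z‖ ^ 2 : ℝ) : ℂ) = z * conj z := fun z => by
    rw [Complex.mul_conj, Complex.normSq_eq_norm_sq]
  rw [av_coe]
  simp only [e1]
  unfold Uf
  rw [avc_tp (FF Kc) (FF Kc) (fun k => (f k : ℂ) * a k) fun k => (f k : ℂ) * a k,
    Finset.inter_self, ofReal_sum]
  refine Finset.sum_congr rfl fun k _ => ?_
  rw [← e1, norm_mul, mul_pow, Complex.norm_real, Real.norm_eq_abs, sq_abs]

/-- (T1) one slot in `l¹`, one in `l²`, one bilinear factor -/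
theorem tup_one (ζ : ℤ) (f : Fin 4 → ℤ → ℝ) (σ : Equiv.Perm (Fin 4)) :
    ‖Qf Kc a ζ (pr f)‖ ≤ (∑ k ∈ FF Kc, |f (σ 0) k| * ‖a k‖) *
      √((∑ k ∈ FF Kc, f (σ 1) k ^ 2 * ‖a k‖ ^ 2) * bi Kc a (f (σ 2)) (f (σ 3))) := by
  have c := fun i => (Uf_cont Kc a (f i)).norm
  have h := av_cs (c (σ 1)) ((c (σ 2)).mul (c (σ 3)))
  simp only [Pi.mul_apply, mul_pow] at h
  rw [av_Uf] at h
  have l0 : 0 ≤ ∑ k ∈ FF Kc, |f (σ 0) k| * ‖a k‖ := Finset.sum_nonneg fun _ _ => by positivity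
  refine (Qf_le_av Kc a ζ f).trans (le_trans ?_ (mul_le_mul_of_nonneg_left h l0))
  rw [← av_smul]
  have c1 := c (σ 1)
  have c2 := c (σ 2)
  have c3 := c (σ 3)
  refine av_mono (continuous_finsetProd _ fun i _ => c i) (by fun_prop) fun x => ?_
  rw [← Equiv.prod_comp σ, Fin.prod_univ_four, mul_assoc, mul_assoc]
  exact mul_le_mul_of_nonneg_right (Uf_le_l1 Kc a _ x) (by positivity)

/-- the bilinear integral is dominated by the windows -/
theorem bi_le_XX {f g : ℤ → ℝ} {A A' s s' : ℝ} {P Q : Win} (hf : Kern f A s) (hg : Kern g A' s')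
    (hs : 0 < s) (hs' : 0 < s') (hP : 1 ≤ P.w) (hQ : 1 ≤ Q.w) (h1 : Supp f P.z (P.w / 2))
    (h2 : Supp g Q.z (Q.w / 2)) : bi Kc a f g ≤ 4 * A ^ 2 * A' ^ 2 * XX Kc a (s + s') P Q := by
  have c1 := (Uf_cont Kc a f).norm
  have c2 := (Uf_cont Kc a g).norm
  have c3 := Pc_cont hs (mP_cont Kc a P)
  have c4 := Pc_cont hs' (mP_cont Kc a Q)
  rw [← av_pc_pc Kc a hs hs', ← av_smul]
  refine av_mono (by fun_prop) (by fun_prop) fun x => ?_
  have d1 := dom Kc a hf hs hP h1 x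
  have d2 := dom Kc a hg hs' hQ h2 x
  have := mul_le_mul d1 d2 (by positivity) ((sq_nonneg _).trans d1)
  linarith

/-- the bilinear integral of two cells -/
theorem bi_cel {f g : ℤ → ℝ} {S S' u u' L t : ℝ} {P Q : Win} (hf : Cel f S u P)
    (hg : Cel g S' u' Q) (hL : 2 ≤ L) (ht : t = L / min u u') (ht2 : t ≤ 2) :
    bi Kc a f g ≤ 4096 * L * S ^ 2 * S' ^ 2 * XX Kc a t P Q := by
  have u0 : 0 < u := by linarith [hf.u1]
  have u0' : 0 < u' := by linarith [hg.u1]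
  have m0 : 0 < min u u' := lt_min u0 u0'
  have a1 : 1 / u ≤ 1 / min u u' := one_div_le_one_div_of_le m0 (min_le_left _ _)
  have a2 : 1 / u' ≤ 1 / min u u' := one_div_le_one_div_of_le m0 (min_le_right _ _)
  have p1 : 0 < 1 / u := by positivity
  have p2 : 0 < 1 / u' := by positivity
  have a3 : 1 / min u u' ≤ 1 / u + 1 / u' := by
    rcases min_choice u u' with h | h <;> rw [h] <;> linarith
  have a4 : 1 / u ≤ 1 := (div_le_one u0).2 hf.u1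
  have a5 : 1 / u' ≤ 1 := (div_le_one u0').2 hg.u1
  have e : t = L * (1 / min u u') := by rw [ht]; ring
  have p3 : 0 < 1 / min u u' := by positivity
  have t0 : 0 < t := by rw [e]; positivity
  have h1 := bi_le_XX Kc a hf.kern hg.kern p1 p2 hf.w1 hg.w1 hf.sub hg.sub
  have h2 := XX_K2 Kc a (s := 1 / u + 1 / u') (t := t) (M := L) (by linarith) t0 (by linarith) ht2
    (by nlinarith) (by nlinarith) P Q
  have := mul_le_mul_of_nonneg_left h2 (by positivity : 0 ≤ 4 * (4 * S) ^ 2 * (4 * S') ^ 2)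
  nlinarith

/-- (T) the tuple bound for four cells -/
theorem tup_cel (ζ : ℤ) {f : Fin 4 → ℤ → ℝ} {S u : Fin 4 → ℝ} {P : Fin 4 → Win}
    (hf : ∀ i, Cel (f i) (S i) (u i) (P i)) (σ : Equiv.Perm (Fin 4)) {L t t' : ℝ} (hL : 2 ≤ L)
    (ht : t = L / min (u (σ 0)) (u (σ 1))) (ht' : t' = L / min (u (σ 2)) (u (σ 3)))
    (h2 : t ≤ 2) (h2' : t' ≤ 2) :
    ‖Qf Kc a ζ (pr f)‖ ≤ 4096 * L * (∏ i, S i) *
      √(XX Kc a t (P (σ 0)) (P (σ 1)) * XX Kc a t' (P (σ 2)) (P (σ 3))) := by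
  have b1 := bi_cel Kc a (hf (σ 0)) (hf (σ 1)) hL ht h2
  have b2 := bi_cel Kc a (hf (σ 2)) (hf (σ 3)) hL ht' h2'
  have p0 : 0 ≤ 4096 * L * ∏ i, S i :=
    mul_nonneg (by linarith) (Finset.prod_nonneg fun i _ => (hf i).hc.nonneg)
  refine (tup_bi Kc a ζ f σ).trans ?_
  rw [← Real.sqrt_sq p0, ← Real.sqrt_mul (sq_nonneg _)]
  refine Real.sqrt_le_sqrt ((mul_le_mul b1 b2 (bi_nonneg _ _ _ _)
    ((bi_nonneg _ _ _ _).trans b1)).trans (le_of_eq ?_))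
  rw [← Equiv.prod_comp σ, Fin.prod_univ_four]
  ring

end

end Pool.Agent.Lib.MMTX
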