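import Pool.Agent.Lib.MP_0dc93f_an.X.Kit

/-! The part with two low slots. -/

namespace Pool.Agent.Lib.MMTX

open Finset Complex ComplexConjugate MMTW

lemma two_lo_nonneg (m : ℕ) (x : ℤ) : 0 ≤ lo m x := le_max_left _ _

lemma two_lo_le (m : ℕ) (x : ℤ) : lo m x ≤ 1 := max_le zero_le_one (min_le_left _ _)

lemma two_lo_mono {ms mH : ℕ} (h : ms ≤ mH) (x : ℤ) : lo ms x ≤ lo mH x :=
  trap_mono 0 (by positivity) (pow_le_pow_right₀ one_le_two h) x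

lemma two_term {ms mH : ℕ} (h : ms ≤ mH) (k : Fin 4 → ℤ) (A : Finset (Fin 4)) :
    0 ≤ ∏ i, if i ∈ A then lo ms (k i) else lo mH (k i) - lo ms (k i) := by
  refine prod_nonneg fun i _ => ?_
  split_ifs
  · exact two_lo_nonneg _ _
  · exact sub_nonneg.2 (two_lo_mono h _)

theorem two_nonneg {ms mH : ℕ} (h : ms ≤ mH) (k : Fin 4 → ℤ) : 0 ≤ two ms mH k :=
  sum_nonneg fun A _ => two_term h k A

lemma two_all (f g : Fin 4 → ℝ) :
    ∑ A : Finset (Fin 4), ∏ i, (if i ∈ A then f i else g i) = ∏ i, (f i + g i) := by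
  rw [Fintype.prod_add]
  refine sum_congr rfl fun A _ => ?_
  rw [prod_ite]
  congr 1
  · exact prod_congr (by ext; simp) fun _ _ => rfl
  · exact prod_congr (by ext; simp) fun _ _ => rfl

theorem two_le_one {ms mH : ℕ} (h : ms ≤ mH) (k : Fin 4 → ℤ) : two ms mH k ≤ 1 := by
  refine (sum_le_sum_of_subset_of_nonneg (filter_subset _ _) fun A _ _ => two_term h k A).trans ?_
  rw [two_all (fun i => lo ms (k i)) fun i => lo mH (k i) - lo ms (k i)]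
  refine prod_le_one (fun i _ => ?_) fun i _ => ?_
  · rw [add_sub_cancel]
    exact two_lo_nonneg _ _
  · rw [add_sub_cancel]
    exact two_lo_le _ _

theorem two_ne {ms mH : ℕ} {k : Fin 4 → ℤ} (h : two ms mH k ≠ 0) :
    ∃ i j, i ≠ j ∧ |(k i : ℝ)| < 2 * 2 ^ ms ∧ |(k j : ℝ)| < 2 * 2 ^ ms := by
  obtain ⟨A, hA, h0⟩ := exists_ne_zero_of_sum_ne_zero h
  obtain ⟨i, hi, j, hj, hij⟩ := one_lt_card.1 (mem_filter.1 hA).2
  have key : ∀ n ∈ A, |(k n : ℝ)| < 2 * 2 ^ ms := by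
    intro n hn
    have h1 := prod_ne_zero_iff.1 h0 n (mem_univ _)
    rw [if_pos hn] at h1
    simpa using trap_ne 0 (D := 2 ^ ms) (by positivity) h1
  exact ⟨i, j, hij, key i hi, key j hj⟩

variable (Kc : ℕ) (a : ℤ → ℂ)

/-- crude bound of the part with two low slots -/
theorem two_crude {ms mH : ℕ} {ζ : ℤ} {K S E : ℝ} {s : (Fin 4 → ℤ) → ℝ} (h : ms ≤ mH) (hS : 0 ≤ S)
    (hζ : 16 * |(ζ : ℝ)| ≤ K) (hE : tail Kc a 1 ≤ E) (h1 : ∀ k, De k = ζ → |s k| ≤ S)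
    (h2 : ∀ k, De k = ζ → (∀ i, |(k i : ℝ)| < K / 4) → s k = 0) :
    ‖Qf Kc a ζ fun k => s k * two ms mH k‖ ≤ 30 * S * 2 ^ ms * E * tail Kc a (K / 16) := by
  have hM : (1 : ℝ) ≤ 2 ^ ms := one_le_pow₀ one_le_two
  have hE0 : 0 ≤ E := (fx_tail_nonneg _ _ _).trans hE
  have ht : 0 ≤ tail Kc a (K / 16) := fx_tail_nonneg _ _ _
  have hc := c2 Kc a (M := 2 ^ ms) (by positivity) hζ hE
  refine (norm_Qf_le Kc a hS (fun k hk => ?_) fun k hk hs => ?_).trans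
    ((mul_le_mul_of_nonneg_left hc hS).trans ?_)
  · rw [abs_mul, abs_of_nonneg (two_nonneg h k)]
    exact (mul_le_of_le_one_right (abs_nonneg _) (two_le_one h k)).trans (h1 k hk)
  · obtain ⟨i, j, hij, hi, hj⟩ := two_ne (right_ne_zero_of_mul hs)
    refine ⟨⟨i, j, hij, hi.le, hj.le⟩, ?_⟩
    by_contra hn
    exact left_ne_zero_of_mul hs (h2 k hk fun n => not_le.1 fun e => hn ⟨n, e⟩)
  · have h5 : (4 * 2 ^ ms + 1) * E ≤ 5 * 2 ^ ms * E := mul_le_mul_of_nonneg_right (by linarith) hE0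
    calc S * (6 * tail Kc a (K / 16) * ((4 * 2 ^ ms + 1) * E))
        ≤ S * (6 * tail Kc a (K / 16) * (5 * 2 ^ ms * E)) := by gcongr
      _ = _ := by ring

end Pool.Agent.Lib.MMTX
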